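import Pool.Agent.P.MP_dba3d2_lc.D.MvB

/-! Chapter D toolbox: arcs of a segment, free arcs, the convex subgroup. -/

namespace Pool.Agent.P.MP_dba3d2_lc

open Set Filter Topology

namespace LG

variable {R : LG} {P P' : ℝ → R.W} {g x y x' y' z : R.W} {φ β γ : Gm} {p q u v a b : ℝ}

theorem JA.symm (h : R.JA P p q x y) : R.JA P p q y x := by
  obtain ⟨w, u, hu, v, hv, h1, h2⟩ := h
  exact ⟨w, v, hv, u, hu, h2, h1⟩
theorem JA.congr (h : R.JA P p q x y) (h1 : R.d x x' = 0) (h2 : R.d y y' = 0) : R.JA P p q x' y' := by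
  obtain ⟨w, u, hu, v, hv, k1, k2⟩ := h
  exact ⟨w, u, hu, v, hv, d_zero_trans (d_zero_symm h1) k1, d_zero_trans (d_zero_symm h2) k2⟩
theorem ja_mul_left (g : R.W) : R.JA P p q (g * x) (g * y) ↔ R.JA P p q x y := by
  have key : ∀ g x y : R.W, R.JA P p q x y → R.JA P p q (g * x) (g * y) := by
    rintro g x y ⟨w, u, hu, v, hv, k1, k2⟩
    exact ⟨g * w, u, hu, v, hv, by rwa [mul_assoc, d_mul_left], by rwa [mul_assoc, d_mul_left]⟩
  refine ⟨fun h => ?_, key g x y⟩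
  have k := key g⁻¹ _ _ h
  rwa [inv_mul_cancel_left, inv_mul_cancel_left] at k
theorem ja_self (hu : u ∈ Icc p q) (hv : v ∈ Icc p q) : R.JA P p q (P u) (P v) :=
  ⟨1, u, hu, v, hv, by simp, by simp⟩
theorem JA.mono (h : R.JA P p q x y) (h1 : a ≤ p) (h2 : q ≤ b) : R.JA P a b x y := by
  obtain ⟨w, u, hu, v, hv, k⟩ := h
  exact ⟨w, u, Icc_subset_Icc h1 h2 hu, v, Icc_subset_Icc h1 h2 hv, k⟩
theorem Fr.symm (h : R.Fr P p q x y) : R.Fr P p q y x :=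
  fun x' y' h1 h2 => h x' y' h1.symm h2.symm
theorem Fr.congr (h : R.Fr P p q x y) (h1 : R.d x x' = 0) (h2 : R.d y y' = 0) : R.Fr P p q x' y' :=
  fun s t k1 k2 => h s t (k1.congr (d_self _) (d_zero_symm h1) (d_zero_symm h2))
    (k2.congr (d_self _) (d_zero_symm h1) (d_zero_symm h2))
theorem fr_mul_left (g : R.W) : R.Fr P p q (g * x) (g * y) ↔ R.Fr P p q x y := by
  have key : ∀ g x y : R.W, R.Fr P p q (g * x) (g * y) → R.Fr P p q x y :=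
    fun g x y h s t k1 k2 k3 => (d_mul_left g s t).symm.trans
      (h _ _ ((on_mul_left g).2 k1) ((on_mul_left g).2 k2) ((ja_mul_left g).2 k3))
  refine ⟨key g x y, fun h => key g⁻¹ _ _ ?_⟩
  rwa [inv_mul_cancel_left, inv_mul_cancel_left]
theorem fr_of_d_zero (h : R.d x y = 0) : R.Fr P p q x y := by
  have key : ∀ s, R.On s x y → R.d x s = 0 := fun s k => by
    unfold On at k
    linarith [d_nonneg x s, d_nonneg s y]
  exact fun s t k1 k2 _ => d_zero_trans (d_zero_symm (key s k1)) (key t k2)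
theorem fr_tiny (h : R.ℓ z = 0) : R.Fr P p q 1 z :=
  fr_of_d_zero ((d_one z).trans h)
theorem Fr.d_zero (h : R.Fr P p q x y) (k : R.JA P p q x y) : R.d x y = 0 :=
  h x y (on_left x y) (on_right x y) k
theorem JA.mem_T0 (h : R.JA P p q x y) : x⁻¹ * y ∈ R.T0 P p q := by
  have k := (ja_mul_left x⁻¹).2 h
  rw [inv_mul_cancel] at k
  exact Subgroup.subset_closure (Or.inl k)
theorem Fr.mem_T0 (h : R.Fr P p q x y) : x⁻¹ * y ∈ R.T0 P p q := by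
  have k := (fr_mul_left x⁻¹).2 h
  rw [inv_mul_cancel] at k
  exact Subgroup.subset_closure (Or.inr k)
theorem tiny_mem_T0 (h : R.ℓ z = 0) : z ∈ R.T0 P p q :=
  Subgroup.subset_closure (Or.inr (fr_tiny h))
theorem path_mem_T0 (hu : u ∈ Icc p q) (hv : v ∈ Icc p q) : (P u)⁻¹ * P v ∈ R.T0 P p q :=
  (ja_self hu hv).mem_T0
theorem conj_mem_T0 (hg : g ∈ R.QJ P p q) (hu : u ∈ Icc p q) (hv : v ∈ Icc p q) :
    (P u)⁻¹ * g * P v ∈ R.T0 P p q := by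
  induction hg using Subgroup.closure_induction generalizing u v with
  | mem g hg =>
    obtain ⟨φ, s, t, h1, h2, h3⟩ := hg
    have hs : s ∈ Icc s t := ⟨le_rfl, h1.le⟩
    have e : (P u)⁻¹ * g * P v =
        (P u)⁻¹ * P (φ.ap s) * R.zeta P g φ s * ((P s)⁻¹ * P v) := by
      rw [zeta]; group
    rw [e]
    exact mul_mem (mul_mem (path_mem_T0 hu (h2 s hs).2) (tiny_mem_T0 (h3.zeta hs)))
      (path_mem_T0 (h2 s hs).1 hv)
  | one => rw [mul_one]; exact path_mem_T0 hu hv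
  | mul g g' _ _ h1 h2 =>
    have e : (P u)⁻¹ * (g * g') * P v = (P u)⁻¹ * g * P u * ((P u)⁻¹ * g' * P v) := by group
    rw [e]
    exact mul_mem (h1 hu hu) (h2 hu hv)
  | inv g _ h1 =>
    have e : (P u)⁻¹ * g⁻¹ * P v = ((P v)⁻¹ * g * P u)⁻¹ := by group
    rw [e]
    exact inv_mem (h1 hv hu)
theorem kk_mem_QJ {p0 q0 : ℝ} (hg : g ∈ R.KK P p0 q0) (h0 : p0 ≤ p) (h : p < q) (h1 : q ≤ q0) :
    g ∈ R.QJ P p q :=
  Subgroup.subset_closure ⟨1, p, q, h, fun t ht => ⟨ht, by rwa [Gm.one_ap]⟩, Rl.mono hg h0 h1⟩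
/-- a germ that moves into `[p, q]` starts an arc -/
theorem Mv2.ja (h : R.Mv2 P' P γ g β) (hβ : β ∈ GI p q) :
    ∃ r > 0, ∀ s ∈ Icc 0 r, ∀ t ∈ Icc 0 r, R.JA P p q (P' (γ.ap s)) (P' (γ.ap t)) := by
  obtain ⟨r, h1, h2⟩ := h
  obtain ⟨r', k1, k2⟩ := mem_GI_iff.1 hβ
  have key : ∀ s ∈ Icc 0 (min r r'),
      β.ap s ∈ Icc p q ∧ R.d (P' (γ.ap s)) (g⁻¹ * P (β.ap s)) = 0 := fun s hs =>
    ⟨k2 s ⟨hs.1, hs.2.trans (min_le_right _ _)⟩, by
      rw [← d_inv_mul, inv_inv]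
      exact h2 s ⟨hs.1, hs.2.trans (min_le_left _ _)⟩⟩
  exact ⟨min r r', lt_min h1 k1, fun s hs t ht =>
    ⟨g⁻¹, _, (key s hs).1, _, (key t ht).1, (key s hs).2, (key t ht).2⟩⟩

end LG

namespace RT

variable {R : RT} {P P' : ℝ → R.W} {g x y x' y' : R.W} {β γ : Gm} {p q u v a b : ℝ}

theorem ja_sub (hP : R.IsoOn P p q) (h : R.JA P p q x y) (h1 : R.On x' x y) (h2 : R.On y' x y) :
    R.JA P p q x' y' := by
  obtain ⟨w, u, hu, v, hv, k1, k2⟩ := h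
  have key : ∀ z, R.On z x y → ∃ t ∈ Icc p q, R.d z (w * P t) = 0 := fun z hz => by
    have a1 := (LG.on_mul_left w⁻¹).2 (hz.congr (LG.d_self _) k1 k2)
    rw [inv_mul_cancel_left, inv_mul_cancel_left] at a1
    obtain ⟨t, ht, e⟩ := R.exists_param hP hu hv a1
    exact ⟨t, uIcc_subset_Icc hu hv ht, (LG.d_inv_mul _ _ _).symm.trans e⟩
  obtain ⟨s, hs, e1⟩ := key x' h1
  obtain ⟨t, ht, e2⟩ := key y' h2
  exact ⟨w, s, hs, t, ht, e1, e2⟩
theorem fr_sub (h : R.Fr P p q x y) (h1 : R.On x' x y) (h2 : R.On y' x y) : R.Fr P p q x' y' :=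
  fun s t k1 k2 => h s t (R.on_sub h1 h2 k1) (R.on_sub h1 h2 k2)
theorem fr_of_per (hP : ∀ u v, p ≤ u → u < v → v ≤ q → ¬R.Per (P u) (P v)) (h : R.Per x y) :
    R.Fr P p q x y := by
  rintro s t k1 k2 ⟨w, u, hu, v, hv, e1, e2⟩
  have k := (LG.per_mul_left w).1 ((R.per_sub h k1 k2).congr e1 e2)
  rcases lt_trichotomy u v with e | rfl | e
  · exact (hP u v hu.1 e hv.2 k).elim
  · exact LG.d_zero_trans e1 (LG.d_zero_symm e2)
  · exact (hP v u hv.1 e hu.2 k.symm).elim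
/-- a segment of an isometric path is free iff none of its germs moves into `[p, q]` -/
theorem fr_iff (hP : R.IsoOn P p q) (hP' : R.IsoOn P' a b) (hu : a ≤ u) (huv : u ≤ v) (hv : v ≤ b) :
    R.Fr P p q (P' u) (P' v) ↔ ∀ γ ∈ GI u v, ∀ g, ∀ β ∈ GI p q, ¬R.Mv2 P' P γ g β := by
  have hu' : u ∈ Icc a b := ⟨hu, huv.trans hv⟩
  have hv' : v ∈ Icc a b := ⟨hu.trans huv, hv⟩
  constructor
  · intro h γ hγ g β hβ k
    obtain ⟨r, h1, h2⟩ := k.ja hβ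
    obtain ⟨r', k1, k2⟩ := mem_GI_iff.1 hγ
    have m0 := lt_min h1 k1
    have a1 := k2 0 ⟨le_rfl, k1.le⟩
    have a2 := k2 (min r r') ⟨m0.le, min_le_right _ _⟩
    have e := h _ _ (hP'.on hu' hv' (Icc_subset_uIcc a1)) (hP'.on hu' hv' (Icc_subset_uIcc a2))
      (h2 0 ⟨le_rfl, h1.le⟩ (min r r') ⟨m0.le, min_le_left _ _⟩)
    rw [hP' _ (Icc_subset_Icc hu hv a1) _ (Icc_subset_Icc hu hv a2), Gm.abs_ap_sub, zero_sub,
      abs_neg, abs_of_pos m0] at e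
    exact m0.ne' e
  · rintro h x y k1 k2 ⟨w, s', hs', t', ht', e1, e2⟩
    obtain ⟨s, hs, a1⟩ := R.exists_param hP' hu' hv' k1
    obtain ⟨t, ht, a2⟩ := R.exists_param hP' hu' hv' k2
    by_contra hne
    have hst : min s t < max s t := min_lt_max.2 fun e =>
      hne (LG.d_zero_trans a1 (LG.d_zero_symm (e ▸ a2)))
    obtain ⟨φ, -, -, k⟩ := R.exists_gm (g := w⁻¹) hP' hP (uIcc_subset_Icc hu' hv' hs)
      (uIcc_subset_Icc hu' hv' ht) hs' ht'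
      ((LG.d_inv_mul _ _ _).trans (LG.d_zero_trans (LG.d_zero_symm a1) e1))
      ((LG.d_inv_mul _ _ _).trans (LG.d_zero_trans (LG.d_zero_symm a2) e2))
    rw [uIcc_of_le huv] at hs ht
    have hγ : Gm.tau (min s t) ∈ GI (min s t) (max s t) := tau_mem_GI.2 ⟨le_rfl, hst⟩
    refine h _ (GI_mono (le_min hs.1 ht.1) (max_le hs.2 ht.2) hγ) w⁻¹ _
      (mul_mem_GI hγ fun z hz => uIcc_subset_Icc hs' ht' (k z hz).1)
      ⟨max s t - min s t, sub_pos.2 hst, fun z hz => ?_⟩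
    rw [Gm.mul_ap, Gm.tau_ap]
    exact (k _ ⟨by linarith [hz.1], by linarith [hz.2]⟩).2
theorem fr_of_not_hgm {M : Subgroup R.W} (hP : R.IsoOn P p q) (h : ∀ β ∈ GI p q, ¬R.HGm P M β)
    (k : R.HArc M x y) : R.Fr P p q x y := by
  rintro s t k1 k2 ⟨w, u, hu, v, hv, e1, e2⟩
  have a := (LG.harc_mul_left w).1 ((R.harc_sub k k1 k2).congr e1 e2)
  by_contra hne
  have huv : min u v < max u v := min_lt_max.2 fun e =>
    hne (LG.d_zero_trans e1 (LG.d_zero_symm (e ▸ e2)))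
  refine h (Gm.tau (min u v)) (tau_mem_GI.2 ⟨le_min hu.1 hv.1, huv.trans_le (max_le hu.2 hv.2)⟩)
    ⟨max u v - min u v, sub_pos.2 huv, fun z hz => ?_⟩
  rw [Gm.tau_ap, Gm.tau_c]
  exact R.harc_sub a (hP.on hu hv ⟨le_rfl, huv.le⟩)
    (hP.on hu hv ⟨by linarith [hz.1], by linarith [hz.2]⟩)

end RT

end Pool.Agent.P.MP_dba3d2_lc
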