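import Pool.Agent.P.MP_dba3d2_lc.D.Iface4
import Pool.Agent.P.MP_dba3d2_lc.D.T0B

/-! Step D_AUT of the stability project. -/

namespace Pool.Agent.P.MP_dba3d2_lc

open Set Filter Topology

namespace D_autA

variable {R : RT} {P : ℝ → R.W} {p q : ℝ}

/-- generators of the convex subgroup -/
theorem top (H : Subgroup (R.T0 P p q)) (h1 : ∀ t : R.T0 P p q, R.Fr P p q 1 t → t ∈ H)
    (h2 : ∀ u ∈ Icc p q, ∀ v ∈ Icc p q, ∀ t : R.T0 P p q, (t : R.W) = (P u)⁻¹ * P v → t ∈ H)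
    (t : R.T0 P p q) : t ∈ H := by
  have e : (⊤ : Subgroup (R.T0 P p q)) ≤ H := by
    refine Subgroup.closure_closure_coe_preimage.symm.trans_le ((Subgroup.closure_le H).2 ?_)
    rintro t (⟨w, u, hu, v, hv, k1, k2⟩ | k)
    · rw [LG.d_one] at k1
      have a := H.mul_mem (H.mul_mem (h1 ⟨_, LG.tiny_mem_T0 k1⟩ (LG.fr_tiny k1))
        (h2 u hu v hv ⟨_, LG.path_mem_T0 hu hv⟩ rfl))
        (H.inv_mem (h1 ⟨_, LG.tiny_mem_T0 k2⟩ (LG.fr_tiny k2)))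
      refine (Subtype.ext ?_ : _ = t) ▸ a
      simp only [Subgroup.coe_mul, Subgroup.coe_inv]
      group
    · exact h1 t k
  exact e trivial

/-- the endomorphism of the convex subgroup -/
theorem hom (h : S_D_SHOM) (hpq : p < q) (hP : R.IsoOn P p q) (n : ℝ → R.QJ P p q)
    (s : R.QJ P p q →* R.QJ P p q)
    (hs : ∀ (g : R.QJ P p q) φ u v, R.Mover P p q g φ u v →
      s g = n (φ.ap u) * g * (n u)⁻¹ ∧ s g = n (φ.ap v) * g * (n v)⁻¹) :
    ∃ σ : R.T0 P p q →* R.T0 P p q, (∀ t : R.T0 P p q, R.Fr P p q 1 t → σ t = t) ∧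
      ∀ u ∈ Icc p q, ∀ v ∈ Icc p q, ∀ (g : R.QJ P p q) (t : R.T0 P p q),
        (t : R.W) = (P u)⁻¹ * g * P v →
          (σ t : R.W) = (P u)⁻¹ * ((n u)⁻¹ * s g * n v : R.QJ P p q) * P v := by
  obtain ⟨σ, s0, h1, h2, h3⟩ := h R P p q hpq hP (fun t => n t) fun g φ u v k => by
    have a := hs ⟨g, Subgroup.subset_closure ⟨φ, u, v, k⟩⟩ φ u v k
    exact congrArg Subtype.val (a.1.symm.trans a.2)
  have e : s0 = (R.QJ P p q).subtype.comp s := by
    refine MonoidHom.eq_of_eqOn_dense Subgroup.closure_closure_coe_preimage ?_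
    rintro g ⟨φ, u, v, k⟩
    have hu : u ∈ Icc u v := ⟨le_rfl, k.1.le⟩
    exact (h3 u (k.2.1 u hu).1 _ (k.2.1 u hu).2 g (k.2.2 u hu)).trans
      (congrArg Subtype.val (hs g φ u v k).1.symm)
  subst e
  have m : ∀ t, σ t ∈ R.T0 P p q := top ((R.T0 P p q).comap σ)
    (fun t k => Subgroup.mem_comap.2 (h1 t k ▸ t.2)) fun u hu v hv t k => by
      rw [Subgroup.mem_comap, h2 u hu v hv 1 t (by simpa using k)]
      exact LG.conj_mem_T0 ((n u)⁻¹ * s 1 * n v).2 hu hv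
  exact ⟨σ.codRestrict _ m, fun t k => Subtype.ext (h1 t k), h2⟩

end D_autA

open D_autA in
theorem p_D_AUT (hD_SHOM : S_D_SHOM) :
    S_D_AUT := by
  intro R P p q hpq hP N hN hQ s hs
  obtain ⟨n, rfl⟩ : ∃ n : ℝ → R.QJ P p q, N = fun t => (n t : R.W) := ⟨fun t => ⟨_, hQ t⟩, rfl⟩
  have h0 : ∀ (g : R.QJ P p q) φ u v, R.Mover P p q g φ u v →
      s g = n (φ.ap u) * g * (n u)⁻¹ ∧ s g = n (φ.ap v) * g * (n v)⁻¹ := fun g φ u v k =>
    ⟨Subtype.ext (hs g φ u v k), Subtype.ext ((hs g φ u v k).trans (hN g φ u v k))⟩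
  have key : ∀ g a b : R.QJ P p q, s g = a * g * b⁻¹ →
      s.symm g = (s.symm a)⁻¹ * g * ((s.symm b)⁻¹)⁻¹ := fun g a b k => by
    apply s.injective
    simp only [map_mul, map_inv, s.apply_symm_apply, k]
    group
  obtain ⟨σ0, a1, a2⟩ := hom hD_SHOM hpq hP n s h0
  obtain ⟨σ1, b1, b2⟩ := hom hD_SHOM hpq hP (fun t => (s.symm (n t))⁻¹) s.symm
    fun g φ u v k => ⟨key _ _ _ (h0 g φ u v k).1, key _ _ _ (h0 g φ u v k).2⟩
  refine ⟨MonoidHom.toMulEquiv σ0 σ1 (MonoidHom.ext ?_) (MonoidHom.ext ?_), a1, a2⟩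
  · refine top ((σ1.comp σ0).eqLocus (MonoidHom.id _)) (fun t k => ?_) fun u hu v hv t k => ?_
    · show σ1 (σ0 t) = t
      rw [a1 t k, b1 t k]
    · refine Subtype.ext ((b2 u hu v hv _ _ (a2 u hu v hv 1 t (by simpa using k))).trans ?_)
      simp [k]
  · refine top ((σ0.comp σ1).eqLocus (MonoidHom.id _)) (fun t k => ?_) fun u hu v hv t k => ?_
    · show σ0 (σ1 t) = t
      rw [b1 t k, a1 t k]
    · refine Subtype.ext ((a2 u hu v hv _ _ (b2 u hu v hv 1 t (by simpa using k))).trans ?_)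
      simp [k]

end Pool.Agent.P.MP_dba3d2_lc
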