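import Pool.Agent.P.MP_dba3d2_lc.D.Germ

/-! Chapter D toolbox: compactness, subdivisions and chains. -/

namespace Pool.Agent.P.MP_dba3d2_lc

open Set Filter Topology

variable {a b u v r s t : ℝ} {φ ψ γ β δ : Gm} {U V : Set Gm}

/-- induction along a real interval -/
theorem real_ind {p : ℝ → Prop} (h : u ≤ v) (h0 : p u)
    (h1 : ∀ t, u ≤ t → t < v → p t → ∃ r > 0, ∀ s, 0 < s → s ≤ r → p (t + s))
    (h2 : ∀ t, u < t → t ≤ v → (∀ s, u ≤ s → s < t → p s) → p t) : p v := by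
  obtain ⟨A, hA⟩ : ∃ A : Set ℝ, ∀ t, t ∈ A ↔ t ≤ v ∧ ∀ s, u ≤ s → s ≤ t → p s :=
    ⟨{t | t ≤ v ∧ ∀ s, u ≤ s → s ≤ t → p s}, fun _ => Iff.rfl⟩
  have uA : u ∈ A := (hA u).2 ⟨h, fun s x y => by rwa [le_antisymm y x]⟩
  have bA : ∀ t ∈ A, t ≤ v := fun t ht => ((hA t).1 ht).1
  have bd : BddAbove A := ⟨v, bA⟩
  have k1 : u ≤ sSup A := le_csSup bd uA
  have k2 : sSup A ≤ v := csSup_le ⟨u, uA⟩ bA
  have k3 : ∀ s, u ≤ s → s < sSup A → p s := fun s x y => by
    obtain ⟨t, ht, e⟩ := exists_lt_of_lt_csSup ⟨u, uA⟩ y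
    exact ((hA t).1 ht).2 s x e.le
  have k4 : p (sSup A) := by
    rcases k1.eq_or_lt with e | e
    · rwa [← e]
    · exact h2 _ e k2 k3
  rcases k2.eq_or_lt with e | e
  · rwa [← e]
  · obtain ⟨r, r0, hr⟩ := h1 _ k1 e k4
    have m0 : 0 < min r (v - sSup A) := lt_min r0 (by linarith)
    have m1 := min_le_left r (v - sSup A)
    have m2 := min_le_right r (v - sSup A)
    have : sSup A + min r (v - sSup A) ∈ A := by
      refine (hA _).2 ⟨by linarith, fun s x y => ?_⟩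
      rcases lt_trichotomy s (sSup A) with z | z | z
      · exact k3 s x z
      · rwa [z]
      · simpa using hr (s - sSup A) (by linarith) (by linarith)
    linarith [le_csSup bd this]

theorem isCompact_GI : IsCompact (GI a b) := by
  rcases le_or_gt b a with h | h
  · rw [GI_eq_empty h]; exact isCompact_empty
  refine isCompact_iff_ultrafilter_le_nhds.2 fun f hf => ?_
  by_contra hn
  have k : ∀ γ ∈ GI a b, ∃ r > 0, seg γ r ∉ f := fun γ hγ => by
    by_contra e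
    refine hn ⟨γ, hγ, fun W hW => ?_⟩
    obtain ⟨r, r0, hr⟩ := mem_nhds_gm.1 hW
    exact mem_of_superset (by_contra fun z => e ⟨r, r0, z⟩ : seg γ r ∈ f) hr
  refine real_ind (p := fun t => GI a t ∉ f) h.le ?_ (fun t x y z => ?_) (fun t x y z => ?_)
    (le_principal_iff.1 hf)
  · rw [GI_eq_empty le_rfl]; exact Ultrafilter.empty_notMem
  · obtain ⟨r, r0, hr⟩ := k _ (tau_mem_GI.2 ⟨x, y⟩)
    refine ⟨r, r0, fun s s0 s1 => ?_⟩
    rw [← GI_union x (by linarith), Ultrafilter.union_mem_iff, not_or]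
    rw [seg_pos rfl] at hr
    exact ⟨z, fun e => hr (mem_of_superset e (GI_mono le_rfl (by simpa using s1)))⟩
  · obtain ⟨r, r0, hr⟩ := k _ (opp_tau_mem_GI.2 ⟨x, y⟩)
    have m : max a (t - r) < t := max_lt x (by linarith)
    rw [← GI_union (le_max_left a (t - r)) m.le, Ultrafilter.union_mem_iff, not_or]
    rw [seg_neg (by simp)] at hr
    exact ⟨z _ (le_max_left _ _) m,
      fun e => hr (mem_of_superset e (GI_mono (by simp) (by simp)))⟩
theorem isClosed_GI : IsClosed (GI a b) := isCompact_GI.isClosed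
theorem co_GI : CO (GI a b) := ⟨isCompact_GI, isOpen_GI⟩

namespace CO
theorem isClosed (h : CO U) : IsClosed U := h.1.isClosed
theorem tr (h : CO U) (φ : Gm) : CO (tr φ U) := ⟨isCompact_tr h.1, isOpen_tr h.2⟩
theorem empty : CO (∅ : Set Gm) := ⟨isCompact_empty, isOpen_empty⟩
theorem union (h : CO U) (k : CO V) : CO (U ∪ V) := ⟨h.1.union k.1, h.2.union k.2⟩
theorem inter (h : CO U) (k : CO V) : CO (U ∩ V) := ⟨h.1.inter_right k.isClosed, h.2.inter k.2⟩
theorem diff (h : CO U) (k : CO V) : CO (U \ V) := ⟨h.1.diff k.2, h.2.sdiff k.isClosed⟩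
theorem of_subset (h : CO U) (hV : V ⊆ U) (h1 : IsClosed V) (h2 : IsOpen V) : CO V :=
  ⟨h.1.of_isClosed_subset h1 hV, h2⟩
theorem iUnion {κ : Type} [Finite κ] {W : κ → Set Gm} (h : ∀ i, CO (W i)) : CO (⋃ i, W i) :=
  ⟨isCompact_iUnion fun i => (h i).1, isOpen_iUnion fun i => (h i).2⟩
theorem biUnion {κ : Type} {T : Set κ} (hT : T.Finite) {W : κ → Set Gm} (h : ∀ i ∈ T, CO (W i)) :
    CO (⋃ i ∈ T, W i) :=
  ⟨hT.isCompact_biUnion fun i hi => (h i hi).1, isOpen_biUnion fun i hi => (h i hi).2⟩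
/-- the part of `U` where a locally constant predicate holds -/
theorem sep (h : CO U) {p : Gm → Prop} (hp : ∀ γ ∈ U, ∀ᶠ β in 𝓝 γ, (p β ↔ p γ)) :
    CO {γ | γ ∈ U ∧ p γ} := by
  have k : ∀ q : Prop → Prop, IsOpen {γ | γ ∈ U ∧ q (p γ)} := fun q =>
    isOpen_iff_mem_nhds.2 fun γ hγ => by
      filter_upwards [hp γ hγ.1, h.2.mem_nhds hγ.1] with β x y
      exact ⟨y, by rw [propext x]; exact hγ.2⟩
  refine ⟨?_, k id⟩
  have e : {γ | γ ∈ U ∧ p γ} = U \ {γ | γ ∈ U ∧ ¬p γ} := by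
    ext γ
    simp only [mem_ofPred_eq, Set.mem_sdiff]
    tauto
  rw [e]
  exact h.1.diff (k Not)
theorem bdd (h : CO U) : ∃ a b, a < b ∧ U ⊆ GI a b := by
  obtain ⟨R, hR⟩ := isBounded_iff_forall_norm_le.1 (h.1.image continuous_c).isBounded
  refine ⟨-(|R| + 1), |R| + 1, by linarith [abs_nonneg R], fun γ hγ => ?_⟩
  have k := abs_le.1 ((hR _ ⟨γ, hγ, rfl⟩).trans (le_abs_self R))
  exact mem_GI_of_Ioo (by linarith [k.1]) (by linarith [k.2])
/-- a locally constant function takes finitely many values -/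
theorem finite_image (h : CO U) {α : Type} {f : Gm → α} (hf : ∀ γ ∈ U, ∀ᶠ β in 𝓝 γ, f β = f γ) :
    (f '' U).Finite := by
  obtain ⟨T, -, hT⟩ := h.1.elim_nhds_subcover (fun γ => {β | f β = f γ}) hf
  refine (T.finite_toSet.image f).subset ?_
  rintro _ ⟨β, hβ, rfl⟩
  obtain ⟨γ, x, y⟩ := mem_iUnion₂.1 (hT hβ)
  exact ⟨γ, x, Eq.symm y⟩
/-- a locally bounded function is bounded -/
theorem exists_bound (h : CO U) {p : ℕ → Gm → Prop} (hm : ∀ m n γ, m ≤ n → p m γ → p n γ)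
    (hp : ∀ γ ∈ U, ∃ n, ∀ᶠ β in 𝓝 γ, p n β) : ∃ n, ∀ γ ∈ U, p n γ := by
  choose! n hn using hp
  obtain ⟨T, -, hT⟩ := h.1.elim_nhds_subcover (fun γ => {β | p (n γ) β}) hn
  refine ⟨T.sup n, fun β hβ => ?_⟩
  obtain ⟨γ, x, y⟩ := mem_iUnion₂.1 (hT hβ)
  exact hm _ _ _ (Finset.le_sup x) y
/-- a property that fails near each germ, except perhaps at the germ itself, holds finitely often -/
theorem finite_of_isolated (h : CO U) {p : Gm → Prop}
    (hp : ∀ γ ∈ U, ∃ r > 0, ∀ δ : Gm, 0 < δ.c → δ.c < r → ¬p (γ * δ)) :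
    {γ | γ ∈ U ∧ p γ}.Finite := by
  obtain ⟨T, -, hT⟩ := h.1.elim_nhds_subcover (fun γ => {β | p β → β = γ}) fun γ hγ => by
    obtain ⟨r, r0, hr⟩ := hp γ hγ
    exact eventually_gm'.2 ⟨fun _ => rfl, r, r0, fun δ x y z => absurd z (hr δ x y)⟩
  refine T.finite_toSet.subset fun β hβ => ?_
  obtain ⟨γ, x, y⟩ := mem_iUnion₂.1 (hT hβ.1)
  rw [y hβ.2]
  exact x
end CO

theorem co_seg : CO (seg γ r) := co_GI.tr γ

/-- the open interval from `u` to `v` has no point of `E` -/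
def Free (E : Set ℝ) (u v : ℝ) : Prop := ∀ t ∈ E, ¬(u < t ∧ t < v)

theorem Free.mono {E E' : Set ℝ} (h : Free E' u v) (k : E ⊆ E') : Free E u v := fun t ht => h t (k ht)
theorem Free.sub {E : Set ℝ} (h : Free E u v) (h1 : u ≤ a) (h2 : b ≤ v) : Free E a b :=
  fun t ht k => h t ht ⟨h1.trans_lt k.1, k.2.trans_le h2⟩

/-- a segment that meets `[a, b]` and has neither `a` nor `b` inside lies in `[a, b]` -/
theorem GI_subset_of_free {E : Set ℝ} (hE : Free E u v) (ha : a ∈ E) (hb : b ∈ E)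
    (h : (GI u v ∩ GI a b).Nonempty) : GI u v ⊆ GI a b := by
  rw [GI_inter, GI_nonempty, max_lt_iff, lt_min_iff, lt_min_iff] at h
  exact GI_mono (not_lt.1 fun e => hE a ha ⟨e, h.2.1⟩) (not_lt.1 fun e => hE b hb ⟨h.1.2, e⟩)

/-- SUBDIVISION: a mesh subordinate to a choice of radii -/
theorem CO.subdiv (h : CO U) (ρ : Gm → ℝ) (hρ : ∀ γ ∈ U, 0 < ρ γ) :
    ∃ E : Finset ℝ, ∀ u v, Free E u v → (GI u v ∩ U).Nonempty →
      ∃ γ ∈ U, GI u v ⊆ seg γ (ρ γ) ∧ GI u v ⊆ U := by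
  classical
  have k : ∀ γ ∈ U, ∃ r > 0, r ≤ ρ γ ∧ seg γ r ⊆ U := fun γ hγ => by
    obtain ⟨r, r0, hr⟩ := isOpen_iff_seg.1 h.2 γ hγ
    exact ⟨min r (ρ γ), lt_min r0 (hρ γ hγ), min_le_right _ _,
      (seg_mono (min_le_left _ _)).trans hr⟩
  choose! r r0 r1 r2 using k
  obtain ⟨T, hU, hT⟩ := h.1.elim_nhds_subcover (fun γ => seg γ (r γ))
    fun γ hγ => seg_mem_nhds (r0 γ hγ)
  refine ⟨T.image (fun γ => min γ.c (γ.ap (r γ))) ∪ T.image fun γ => max γ.c (γ.ap (r γ)),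
    fun u v hE ⟨β, x, y⟩ => ?_⟩
  obtain ⟨γ, z, w⟩ := mem_iUnion₂.1 (hT y)
  have e : GI u v ⊆ seg γ (r γ) := by
    rw [seg_eq_GI (r0 γ (hU γ z)).le] at w ⊢
    exact GI_subset_of_free hE
      (Finset.mem_coe.2 (Finset.mem_union_left _ (Finset.mem_image_of_mem _ z)))
      (Finset.mem_coe.2 (Finset.mem_union_right _ (Finset.mem_image_of_mem _ z))) ⟨β, x, w⟩
  exact ⟨γ, hU γ z, e.trans (seg_mono (r1 γ (hU γ z))), e.trans (r2 γ (hU γ z))⟩

/-- the same for a hereditary property of segments -/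
theorem CO.subdiv' (h : CO U) {Q : ℝ → ℝ → Prop}
    (hQ : ∀ γ ∈ U, ∃ r > 0, ∀ u v, u < v → GI u v ⊆ seg γ r → Q u v) :
    ∃ E : Finset ℝ, ∀ u v, Free E u v → (GI u v ∩ U).Nonempty → Q u v ∧ GI u v ⊆ U := by
  choose! ρ r0 r1 using hQ
  obtain ⟨E, hE⟩ := h.subdiv ρ r0
  refine ⟨E, fun u v x y => ?_⟩
  obtain ⟨γ, z, k1, k2⟩ := hE u v x y
  exact ⟨r1 γ z u v (GI_nonempty.1 y.left) k1, k2⟩

/-- off a finite set of points, a short two sided neighbourhood is free -/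
theorem exists_free {E : Set ℝ} (hE : E.Finite) (t : ℝ) :
    ∃ r > 0, Free E (t - r) t ∧ Free E t (t + r) ∧ (t ∉ E → Free E (t - r) (t + r)) := by
  obtain ⟨r, r0, hr⟩ := Metric.mem_nhds_iff.1
    ((hE.sdiff (t := {t})).isClosed.isOpen_compl.mem_nhds (x := t) (by simp))
  have k : ∀ x ∈ E, t - r < x → x < t + r → x = t := fun x hx y z => by
    by_contra e
    exact hr (by rw [Real.ball_eq_Ioo]; exact ⟨y, z⟩) ⟨hx, e⟩
  exact ⟨r, r0, fun x hx y => y.2.ne (k x hx y.1 (by linarith [y.2])),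
    fun x hx y => y.1.ne' (k x hx (by linarith [y.1]) y.2),
    fun e x hx y => e (k x hx y.1 y.2 ▸ hx)⟩

/-- the singular points of finitely many compact open sets -/
theorem exists_ends {κ : Type} [Finite κ] {W : κ → Set Gm} (h : ∀ i, CO (W i)) :
    ∃ E : Finset ℝ, (∀ i u v, Free E u v → GI u v ⊆ W i ∨ Disjoint (GI u v) (W i)) ∧
      (∀ i γ, γ.c ∉ E → (γ.opp ∈ W i ↔ γ ∈ W i)) ∧
      ∃ a ∈ E, ∃ b ∈ E, a < b ∧ ∀ i, W i ⊆ GI a b := by
  classical
  have := Fintype.ofFinite κ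
  choose E hE using fun i => (h i).subdiv (fun _ => 1) fun _ _ => one_pos
  obtain ⟨a, b, ab, hab⟩ := (CO.iUnion h).bdd
  have k : ∀ i u v, Free (insert a (insert b (Finset.univ.biUnion E)) : Finset ℝ) u v →
      GI u v ⊆ W i ∨ Disjoint (GI u v) (W i) := fun i u v x => by
    rcases (GI u v ∩ W i).eq_empty_or_nonempty with e | e
    · exact Or.inr (disjoint_iff_inter_eq_empty.2 e)
    · obtain ⟨γ, -, -, y⟩ := hE i u v (x.mono fun t ht => by
        simp only [Finset.coe_insert, mem_insert_iff, Finset.mem_coe, Finset.mem_biUnion]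
        exact Or.inr (Or.inr ⟨i, Finset.mem_univ i, ht⟩)) e
      exact Or.inl y
  refine ⟨insert a (insert b (Finset.univ.biUnion E)), k, fun i γ hγ => ?_, a, by simp, b,
    by simp, ab, fun i => (subset_iUnion W i).trans hab⟩
  obtain ⟨r, r0, -, -, hr⟩ := exists_free
    (insert a (insert b (Finset.univ.biUnion E)) : Finset ℝ).finite_toSet γ.c
  have k1 : γ ∈ GI (γ.c - r) (γ.c + r) := mem_GI_of_Ioo (by linarith) (by linarith)
  have k2 : γ.opp ∈ GI (γ.c - r) (γ.c + r) :=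
    mem_GI_of_Ioo (by rw [Gm.opp_c]; linarith) (by rw [Gm.opp_c]; linarith)
  rcases k i _ _ (hr hγ) with e | e
  · exact iff_of_true (e k2) (e k1)
  · exact iff_of_false (disjoint_left.1 e k2) (disjoint_left.1 e k1)

/-- a nondegenerate interval contains a nondegenerate closed interval that misses a finite set -/
theorem exists_Icc_avoid {E : Set ℝ} (hE : E.Finite) (h : u < v) :
    ∃ a b, u < a ∧ a < b ∧ b < v ∧ ∀ t ∈ Icc a b, t ∉ E := by
  obtain ⟨t, ⟨t1, t2⟩, t3⟩ := ((Ioo_infinite h).sdiff hE).nonempty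
  obtain ⟨r, r0, -, -, hr⟩ := exists_free hE t
  have k1 := min_le_left ((t + v) / 2) (t + r / 2)
  have k2 := min_le_right ((t + v) / 2) (t + r / 2)
  refine ⟨t, min ((t + v) / 2) (t + r / 2), t1, lt_min (by linarith) (by linarith),
    by linarith, fun x hx e => hr t3 x e ⟨by linarith [hx.1], by linarith [hx.2]⟩⟩

/-- CHAIN: induction along consecutive points of a mesh -/
theorem chain_ind {E : Set ℝ} (hE : E.Finite) {Q : ℝ → ℝ → Prop} (h : u ≤ v) (h0 : Q u u)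
    (h1 : ∀ s t, u ≤ s → s < t → t ≤ v → (s ∈ E ∨ s = u) → (t ∈ E ∨ t = v) → Free E s t →
      Q u s → Q u t) : Q u v := by
  refine (hE.insert v).isWF.induction (x := v) (mem_insert v E)
    (P := fun t => u ≤ t → t ≤ v → Q u t) (fun t ht ih x y => ?_) h le_rfl
  rcases x.eq_or_lt with e | e
  · rwa [← e]
  obtain ⟨s, ⟨s1, s2, s3⟩, hs⟩ := exists_max_image {s | s ∈ insert u E ∧ u ≤ s ∧ s < t} id
    ((hE.insert u).subset fun s k => k.1) ⟨u, mem_insert u E, le_rfl, e⟩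
  refine h1 s t s2 s3 y (Or.symm s1) (Or.symm ht)
    (fun z hz k => k.1.not_ge (hs z ⟨Or.inr hz, s2.trans k.1.le, k.2⟩)) ?_
  rcases s1 with k | k
  · rwa [k]
  · exact ih s (Or.inr k) s3 s2 (s3.le.trans y)

/-- a mesh as an increasing sequence -/
theorem exists_chain {E : Set ℝ} (hE : E.Finite) (h : u ≤ v) :
    ∃ (n : ℕ) (p : ℕ → ℝ), p 0 = u ∧ p n = v ∧ ∀ i < n, p i < p (i + 1) ∧ u ≤ p i ∧ p (i + 1) ≤ v ∧
      (p i ∈ E ∨ p i = u) ∧ (p (i + 1) ∈ E ∨ p (i + 1) = v) ∧ Free E (p i) (p (i + 1)) := by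
  refine chain_ind hE (Q := fun u t => ∃ (n : ℕ) (p : ℕ → ℝ), p 0 = u ∧ p n = t ∧ ∀ i < n,
    p i < p (i + 1) ∧ u ≤ p i ∧ p (i + 1) ≤ v ∧ (p i ∈ E ∨ p i = u) ∧
      (p (i + 1) ∈ E ∨ p (i + 1) = v) ∧ Free E (p i) (p (i + 1))) h
    ⟨0, fun _ => u, rfl, rfl, fun i hi => absurd hi (Nat.not_lt_zero i)⟩ ?_
  rintro s t k1 k2 k3 k4 k5 k6 ⟨n, p, p0, pn, hp⟩
  refine ⟨n + 1, fun i => if i ≤ n then p i else t, by simpa using p0, by simp, fun i hi => ?_⟩
  rcases (Nat.lt_succ_iff.1 hi).eq_or_lt with e | e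
  · simp only [e, le_refl, if_true, add_le_iff_nonpos_right, nonpos_iff_eq_zero, one_ne_zero,
      if_false, pn]
    exact ⟨k2, k1, k3, k4, k5, k6⟩
  · simp only [e.le, Nat.succ_le_of_lt e, if_true]
    exact hp i e

/-- every germ of `[u, v]` lies in a cell of the mesh -/
theorem exists_cell {E : Set ℝ} (hE : E.Finite) (hu : u ∈ E) (hv : v ∈ E) (h : γ ∈ GI u v) :
    ∃ s ∈ E, ∃ t ∈ E, u ≤ s ∧ s < t ∧ t ≤ v ∧ Free E s t ∧ γ ∈ GI s t := by
  refine chain_ind hE (Q := fun u t => γ ∈ GI u t →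
    ∃ s ∈ E, ∃ t ∈ E, u ≤ s ∧ s < t ∧ t ≤ v ∧ Free E s t ∧ γ ∈ GI s t) (lt_of_mem_GI h).le
    (fun k => absurd (lt_of_mem_GI k) (lt_irrefl u)) (fun s t k1 k2 k3 k4 k5 k6 ih k => ?_) h
  rw [← GI_union k1 k2.le] at k
  rcases k with k | k
  · exact ih k
  · exact ⟨s, k4.elim id fun e => e ▸ hu, t, k5.elim id fun e => e ▸ hv, k1, k2, k3, k6, k⟩

/-- two cells that share a germ are equal -/
theorem cell_unique {E : Set ℝ} {s t s' t' : ℝ} (hs : s ∈ E) (ht : t ∈ E) (hs' : s' ∈ E)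
    (ht' : t' ∈ E) (h : Free E s t) (h' : Free E s' t') (k : γ ∈ GI s t) (k' : γ ∈ GI s' t') :
    s = s' ∧ t = t' := by
  exact GI_inj (lt_of_mem_GI k) (Subset.antisymm (GI_subset_of_free h hs' ht' ⟨γ, k, k'⟩)
    (GI_subset_of_free h' hs ht ⟨γ, k', k⟩))

/-- a function of points that is constant along every germ is constant -/
theorem const_of_germs {α : Type} {c : ℝ → α} (h : u ≤ v)
    (hc : ∀ γ ∈ GI u v, ∃ r > 0, ∀ s ∈ Icc 0 r, c (γ.ap s) = c γ.c) : c u = c v := by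
  refine real_ind (p := fun t => c u = c t) h rfl (fun t x y z => ?_) fun t x y z => ?_
  · obtain ⟨r, r0, hr⟩ := hc _ (tau_mem_GI.2 ⟨x, y⟩)
    refine ⟨r, r0, fun s s0 s1 => z.trans ?_⟩
    simpa [add_comm] using (hr s ⟨s0.le, s1⟩).symm
  · obtain ⟨r, r0, hr⟩ := hc _ (opp_tau_mem_GI.2 ⟨x, y⟩)
    have m0 : 0 < min r (t - u) := lt_min r0 (by linarith)
    have k := hr _ ⟨m0.le, min_le_left r (t - u)⟩
    simp only [Gm.opp_ap, Gm.tau_ap, Gm.opp_c, Gm.tau_c] at k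
    exact (z _ (by linarith [min_le_right r (t - u)]) (by linarith)).trans k

/-- a locally constant function of germs that does not see the side is constant -/
theorem const_on_GI {α : Type} {f : Gm → α} (h1 : ∀ γ ∈ GI u v, ∀ᶠ β in 𝓝 γ, f β = f γ)
    (h2 : ∀ γ : Gm, u < γ.c → γ.c < v → f γ.opp = f γ) (hγ : γ ∈ GI u v) (hβ : β ∈ GI u v) :
    f γ = f β := by
  obtain ⟨c, hc⟩ : ∃ c : ℝ → α, ∀ β ∈ GI u v, f β = c β.c := by
    refine ⟨fun t => if t < v then f (Gm.tau t) else f (Gm.tau t).opp, fun β hβ => ?_⟩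
    rcases Gm.eq_or_opp (γ := Gm.tau β.c) (β := β) rfl with e | e
    · rw [e, tau_mem_GI] at hβ
      simp only [if_pos hβ.2]
      exact congrArg f e
    · rw [e, opp_tau_mem_GI] at hβ
      beta_reduce
      split_ifs with k
      · exact (congrArg f e).trans (h2 _ hβ.1 k)
      · exact congrArg f e
  have k : ∀ β ∈ GI u v, c u = c β.c := fun β hβ => const_of_germs hβ.1 fun γ hγ => by
    have hγ' := GI_mono le_rfl hβ.2.1 hγ
    obtain ⟨r, r0, hr⟩ := eventually_gm.1 ((h1 γ hγ').and (isOpen_GI.mem_nhds hγ'))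
    refine ⟨r / 2, half_pos r0, fun s hs => ?_⟩
    obtain ⟨x, y⟩ := hr (Gm.tau s) (tau_mem_GI.2 ⟨hs.1, by linarith [hs.2]⟩)
    exact ((hc _ y).symm.trans x).trans (hc γ hγ')
  rw [hc γ hγ, hc β hβ, ← k γ hγ, ← k β hβ]

/-- GLUE: cocycles on the cells of a mesh extend to a global cocycle -/
theorem exists_glue {H : Type} [Group H] (E : Finset ℝ) (m : ℝ → ℝ → H) :
    ∃ n : ℝ → H, ∀ s ∈ E, ∀ t ∈ E, s < t → Free E s t → ∀ x ∈ Icc s t, ∀ y ∈ Icc s t,
      (n x)⁻¹ * n y = (m s x)⁻¹ * m s y := by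
  classical
  induction E using Finset.induction_on_max with
  | empty => exact ⟨fun _ => 1, fun s hs => absurd hs (Finset.notMem_empty s)⟩
  | insert c E hc ih =>
    obtain ⟨n, hn⟩ := ih
    have k0 : ∀ s ∈ insert c E, ∀ t ∈ insert c E, s < t → s ∈ E := fun s hs t ht st =>
      (Finset.mem_insert.1 hs).resolve_left fun e => by
        rcases Finset.mem_insert.1 ht with k | k
        · exact st.ne (e.trans k.symm)
        · exact (e ▸ st).not_gt (hc t k)
    rcases E.eq_empty_or_nonempty with e | e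
    · exact ⟨n, fun s hs t ht st => absurd (e ▸ k0 s hs t ht st) (Finset.notMem_empty s)⟩
    obtain ⟨w, w1, w2⟩ := E.exists_max_image id e
    refine ⟨fun x => if x ≤ w then n x else n w * (m w w)⁻¹ * m w x,
      fun s hs t ht st hf x hx y hy => ?_⟩
    have hs' := k0 s hs t ht st
    rcases Finset.mem_insert.1 ht with k | k
    · have e1 : s = w := le_antisymm (w2 s hs') (not_lt.1 fun z =>
        hf w (Finset.mem_coe.2 (Finset.mem_insert_of_mem w1)) ⟨z, k ▸ hc w w1⟩)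
      have e2 : ∀ x ∈ Icc s t, (if x ≤ w then n x else n w * (m w w)⁻¹ * m w x) =
          n w * (m w w)⁻¹ * m w x := fun x hx => by
        split_ifs with z
        · rw [le_antisymm z (e1 ▸ hx.1), inv_mul_cancel_right]
        · rfl
      simp only [e2 x hx, e2 y hy]
      rw [e1]
      group
    · have z : t ≤ w := w2 t k
      simp only [if_pos (hx.2.trans z), if_pos (hy.2.trans z)]
      exact hn s hs' t k st (hf.mono (Finset.coe_subset.2 (Finset.subset_insert c E))) x hx y hy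

/-- CUTS: a function with prescribed jumps at finitely many germs -/
theorem exists_cuts {H : Type} [Group H] (cut : Gm → H) (h : {γ | cut γ ≠ 1}.Finite) :
    ∃ N : ℝ → H, (∀ K : Subgroup H, (∀ γ, cut γ ∈ K) → ∀ t, N t ∈ K) ∧
      ∀ γ : Gm, ∃ r > 0, ∀ s, 0 < s → s ≤ r → (N γ.c)⁻¹ * N (γ.ap s) = cut γ := by
  classical
  obtain ⟨F, hF⟩ : ∃ F : Finset ℝ, ∀ γ : Gm, γ.c ∉ F → cut γ = 1 :=
    ⟨h.toFinset.image Gm.c, fun γ k => by_contra fun e =>
      k (Finset.mem_image_of_mem _ (h.mem_toFinset.2 e))⟩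
  clear h
  induction F using Finset.induction_on_max generalizing cut with
  | empty =>
    exact ⟨fun _ => 1, fun K _ _ => K.one_mem, fun γ => ⟨1, one_pos, fun s _ _ => by
      rw [hF γ (Finset.notMem_empty _), inv_mul_cancel]⟩⟩
  | insert c F hc ih =>
    obtain ⟨N, N1, N2⟩ := ih (fun γ => if γ.c = c then 1 else cut γ) fun γ k => by
      split_ifs with e
      · rfl
      · exact hF γ fun z => (Finset.mem_insert.1 z).elim e k
    refine ⟨fun t => N t * if t < c then 1 else if t = c then (cut (Gm.tau c).opp)⁻¹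
      else (cut (Gm.tau c).opp)⁻¹ * cut (Gm.tau c), fun K hK t => K.mul_mem (N1 K (fun γ => ?_) t)
        ?_, fun γ => ?_⟩
    · split_ifs
      exacts [K.one_mem, hK γ]
    · split_ifs
      exacts [K.one_mem, K.inv_mem (hK _), K.mul_mem (K.inv_mem (hK _)) (hK _)]
    obtain ⟨r, r0, hr⟩ := N2 γ
    have ab : ∀ s, 0 < s → |γ.ap s - γ.c| = s := fun s s0 => by
      rw [← γ.ap_zero, Gm.abs_ap_sub, sub_zero, abs_of_pos s0]
    rcases lt_trichotomy γ.c c with e | e | e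
    · refine ⟨min r ((c - γ.c) / 2), lt_min r0 (by linarith), fun s s0 s1 => ?_⟩
      have k := hr s s0 (s1.trans (min_le_left _ _))
      have k2 : γ.ap s < c := by
        linarith [le_abs_self (γ.ap s - γ.c), ab s s0, s1.trans (min_le_right _ _)]
      simp only [if_neg e.ne] at k
      simp only [if_pos e, if_pos k2, mul_one, k]
    · refine ⟨r, r0, fun s s0 s1 => ?_⟩
      have k := hr s s0 s1
      simp only [if_pos e, inv_mul_eq_one] at k
      simp only [if_neg e.not_lt, if_pos e, ← k]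
      rcases Gm.eq_or_opp (γ := Gm.tau c) (β := γ) e with z | z
      · have k2 : c < γ.ap s := by rw [z, Gm.tau_ap]; linarith
        rw [if_neg k2.not_gt, if_neg k2.ne', ← z]
        group
      · have k2 : γ.ap s < c := by rw [z, Gm.opp_ap, Gm.tau_ap]; linarith
        rw [if_pos k2, ← z]
        group
    · refine ⟨min r ((γ.c - c) / 2), lt_min r0 (by linarith), fun s s0 s1 => ?_⟩
      have k := hr s s0 (s1.trans (min_le_left _ _))
      have k1 : cut γ = 1 := hF γ fun z =>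
        (Finset.mem_insert.1 z).elim e.ne' fun z => e.not_gt (hc _ z)
      have k2 : c < γ.ap s := by
        linarith [neg_abs_le (γ.ap s - γ.c), ab s s0, s1.trans (min_le_right _ _)]
      simp only [if_neg e.ne', k1, inv_mul_eq_one] at k
      simp only [if_neg e.not_gt, if_neg e.ne', if_neg k2.not_gt, if_neg k2.ne', ← k, k1,
        inv_mul_cancel]

/-- LENGTH: local bounds with finitely many jumps add up -/
theorem len_of_germs {Y : Type} {d : Y → Y → ℝ} (d0 : ∀ x, d x x = 0) (ds : ∀ x y, d x y = d y x)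
    (dt : ∀ x y z, d x z ≤ d x y + d y z) {f : ℝ → Y} {w : Gm → ℝ} (T : Finset Gm)
    (hw : ∀ γ, 0 ≤ w γ) (hT : ∀ γ, γ ∉ T → w γ = 0) (h : u ≤ v)
    (hf : ∀ γ ∈ GI u v, ∃ r > 0, ∀ s, 0 < s → s ≤ r → d (f γ.c) (f (γ.ap s)) ≤ s + w γ) :
    d (f u) (f v) ≤ v - u + ∑ γ ∈ T, w γ := by
  classical
  have k : ∀ (A B : Set Gm) (β : Gm), A ⊆ B → β ∉ A → β ∈ B →
      ∑ γ ∈ T, A.indicator w γ + w β ≤ ∑ γ ∈ T, B.indicator w γ := fun A B β x y z => by
    have e : w β = ∑ γ ∈ T, if γ = β then w γ else 0 := by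
      rw [Finset.sum_ite_eq']
      split_ifs with e
      exacts [rfl, hT β e]
    rw [e, ← Finset.sum_add_distrib]
    refine Finset.sum_le_sum fun γ _ => ?_
    split_ifs with e
    · rw [e, indicator_of_notMem y, indicator_of_mem z, zero_add]
    · rw [add_zero]
      exact indicator_le_indicator_of_subset x hw γ
  refine le_trans (real_ind (p := fun t => d (f u) (f t) ≤ t - u + ∑ γ ∈ T, (GI u t).indicator w γ)
    h ?_ (fun t x y z => ?_) fun t x y z => ?_) ?_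
  · rw [d0, sub_self, zero_add]
    exact Finset.sum_nonneg fun γ _ => indicator_nonneg (fun γ _ => hw γ) γ
  · obtain ⟨r, r0, hr⟩ := hf _ (tau_mem_GI.2 ⟨x, y⟩)
    refine ⟨r, r0, fun s s0 s1 => ?_⟩
    have k1 := hr s s0 s1
    have k2 := k (GI u t) (GI u (t + s)) (Gm.tau t) (GI_mono le_rfl (by linarith))
      (fun e => lt_irrefl t (tau_mem_GI.1 e).2) (tau_mem_GI.2 ⟨x, by linarith⟩)
    rw [Gm.tau_c, Gm.tau_ap, add_comm s t] at k1
    linarith [dt (f u) (f t) (f (t + s))]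
  · obtain ⟨r, r0, hr⟩ := hf _ (opp_tau_mem_GI.2 ⟨x, y⟩)
    have m0 : 0 < min r (t - u) := lt_min r0 (by linarith)
    have k1 := hr _ m0 (min_le_left r (t - u))
    rw [Gm.opp_ap, Gm.tau_ap, Gm.opp_c, Gm.tau_c, ds] at k1
    have k2 := k (GI u (-min r (t - u) + t)) (GI u t) (Gm.tau t).opp (GI_mono le_rfl (by linarith))
      (fun e => by linarith [(opp_tau_mem_GI.1 e).2]) (opp_tau_mem_GI.2 ⟨x, le_rfl⟩)
    have k3 := z (-min r (t - u) + t) (by linarith [min_le_right r (t - u)]) (by linarith)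
    linarith [dt (f u) (f (-min r (t - u) + t)) (f t)]
  · exact add_le_add le_rfl (Finset.sum_le_sum fun γ _ => indicator_le_self' (fun _ _ => hw _) γ)

end Pool.Agent.P.MP_dba3d2_lc
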