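import Pool.Agent.P.MP_dba3d2_lc.D.Defs

/-! Chapter D toolbox: length groups and real trees. -/

namespace Pool.Agent.P.MP_dba3d2_lc

open Set

namespace LG

variable {R : LG} {x y z p q p' q' x' y' g h : R.W}

theorem l_nonneg (g : R.W) : 0 ≤ R.ℓ g := by
  have h := R.l_mul g g⁻¹
  rw [mul_inv_cancel, R.l_one, R.l_inv] at h
  linarith
theorem d_nonneg (x y : R.W) : 0 ≤ R.d x y := l_nonneg _
@[simp] theorem d_self (x : R.W) : R.d x x = 0 := by
  rw [d, inv_mul_cancel, R.l_one]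
theorem d_comm (x y : R.W) : R.d x y = R.d y x := by
  rw [d, d, ← R.l_inv, mul_inv_rev, inv_inv]
theorem d_triangle (x y z : R.W) : R.d x z ≤ R.d x y + R.d y z := by
  have h := R.l_mul (x⁻¹ * y) (y⁻¹ * z)
  rwa [mul_assoc, mul_inv_cancel_left] at h
@[simp] theorem d_mul_left (g x y : R.W) : R.d (g * x) (g * y) = R.d x y := by
  rw [d, d, mul_inv_rev, mul_assoc, inv_mul_cancel_left]
theorem d_one (x : R.W) : R.d 1 x = R.ℓ x := by
  rw [d, inv_one, one_mul]
theorem d_inv_mul (g x y : R.W) : R.d (g⁻¹ * x) y = R.d x (g * y) := by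
  rw [← d_mul_left g, mul_inv_cancel_left]
theorem d_zero_symm (h : R.d x y = 0) : R.d y x = 0 := (d_comm y x).trans h
theorem d_zero_trans (h : R.d x y = 0) (k : R.d y z = 0) : R.d x z = 0 := by
  have := d_triangle x y z
  have := d_nonneg x z
  linarith
theorem d_congr (h : R.d x x' = 0) (k : R.d y y' = 0) : R.d x y = R.d x' y' := by
  have := d_triangle x x' y
  have := d_triangle x' y' y
  have := d_triangle x' x y'
  have := d_triangle x y y'
  have := d_comm y y'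
  have := d_comm x x'
  linarith
theorem l_zero_mul (h1 : R.ℓ g = 0) (h2 : R.ℓ h = 0) : R.ℓ (g * h) = 0 := by
  have := R.l_mul g h
  have := l_nonneg (g * h)
  linarith
theorem l_zero_inv (h1 : R.ℓ g = 0) : R.ℓ g⁻¹ = 0 := (R.l_inv g).trans h1
theorem l_tiny_mul (h1 : R.ℓ z = 0) (g : R.W) : R.ℓ (z * g) = R.ℓ g := by
  have a1 := R.l_mul z g
  have a2 := R.l_mul z⁻¹ (z * g)
  rw [inv_mul_cancel_left, R.l_inv] at a2
  linarith
theorem l_mul_tiny (g : R.W) (h1 : R.ℓ z = 0) : R.ℓ (g * z) = R.ℓ g := by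
  have a1 := R.l_mul g z
  have a2 := R.l_mul (g * z) z⁻¹
  rw [mul_inv_cancel_right, R.l_inv] at a2
  linarith
/-- a Lipschitz homomorphism does not increase distances -/
theorem d_map_le {G : LG} (j : R.W →* G.W) (hj : ∀ w, G.ℓ (j w) ≤ R.ℓ w) (x y : R.W) :
    G.d (j x) (j y) ≤ R.d x y := by
  rw [d, d, ← map_inv, ← map_mul]
  exact hj _
theorem d_map_zero {G : LG} (j : R.W →* G.W) (hj : ∀ w, G.ℓ (j w) ≤ R.ℓ w) (h : R.d x y = 0) :
    G.d (j x) (j y) = 0 := by
  have := d_map_le j hj x y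
  have := d_nonneg (j x) (j y)
  linarith

theorem On.symm (h : R.On p x y) : R.On p y x := by
  unfold On at *
  rw [d_comm y p, d_comm p x, d_comm y x]
  linarith
theorem on_left (x y : R.W) : R.On x x y := by
  simp [On]
theorem on_right (x y : R.W) : R.On y x y := by
  simp [On]
theorem on_mul_left (g : R.W) : R.On (g * p) (g * x) (g * y) ↔ R.On p x y := by
  simp only [On, d_mul_left]
theorem On.congr (h : R.On p x y) (h1 : R.d p p' = 0) (h2 : R.d x x' = 0) (h3 : R.d y y' = 0) :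
    R.On p' x' y' := by
  unfold On at *
  rw [← d_congr h2 h1, ← d_congr h1 h3, ← d_congr h2 h3]
  exact h
theorem On.trans_left (h : R.On q x y) (k : R.On p x q) : R.On p x y ∧ R.On q p y := by
  unfold On at *
  have := d_triangle p q y
  have := d_triangle x p y
  constructor <;> linarith
theorem On.trans_right (h : R.On p x y) (k : R.On q p y) : R.On q x y ∧ R.On p x q := by
  unfold On at *
  have := d_triangle x p q
  have := d_triangle x q y
  constructor <;> linarith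
theorem on_one_one : R.On p 1 1 ↔ R.ℓ p = 0 := by
  unfold On
  rw [d_comm p 1, d_self, d_one]
  constructor <;> intro h <;> linarith

theorem stab_one (p q : R.W) : R.Stab p q 1 := by
  simp [Stab]
theorem Stab.symm (h : R.Stab p q g) : R.Stab q p g := ⟨h.2, h.1⟩
theorem Stab.mul (h1 : R.Stab p q g) (h2 : R.Stab p q h) : R.Stab p q (g * h) := by
  refine ⟨d_zero_trans h1.1 ?_, d_zero_trans h1.2 ?_⟩
  · rw [mul_assoc, d_mul_left]
    exact h2.1
  · rw [mul_assoc, d_mul_left]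
    exact h2.2
theorem Stab.inv (h1 : R.Stab p q g) : R.Stab p q g⁻¹ := by
  refine ⟨d_zero_symm ?_, d_zero_symm ?_⟩
  · rw [d_inv_mul]
    exact h1.1
  · rw [d_inv_mul]
    exact h1.2
theorem Stab.congr (h : R.Stab p q g) (h1 : R.d p p' = 0) (h2 : R.d q q' = 0) : R.Stab p' q' g := by
  refine ⟨?_, ?_⟩
  · rw [← d_congr h1 ((d_mul_left g p p').trans h1)]
    exact h.1
  · rw [← d_congr h2 ((d_mul_left g q q').trans h2)]
    exact h.2
theorem stab_conj (w : R.W) : R.Stab (w * p) (w * q) (w * g * w⁻¹) ↔ R.Stab p q g := by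
  have e : ∀ p : R.W, w * g * w⁻¹ * (w * p) = w * (g * p) := fun p => by group
  simp only [Stab, e, d_mul_left]
theorem stab_base : R.Stab 1 (p⁻¹ * q) (p⁻¹ * g * p) ↔ R.Stab p q g := by
  have h := stab_conj (p := p) (q := q) (g := g) p⁻¹
  rwa [inv_mul_cancel, inv_inv] at h
theorem Per.symm (h : R.Per p q) : R.Per q p := by
  obtain ⟨g, h1, h2⟩ := h
  exact ⟨g, h1, h2.symm⟩
theorem Per.congr (h : R.Per p q) (h1 : R.d p p' = 0) (h2 : R.d q q' = 0) : R.Per p' q' := by
  obtain ⟨g, k1, k2⟩ := h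
  exact ⟨g, k1, k2.congr h1 h2⟩
theorem per_mul_left (w : R.W) : R.Per (w * p) (w * q) ↔ R.Per p q := by
  have key : ∀ w p q : R.W, R.Per p q → R.Per (w * p) (w * q) := by
    rintro w p q ⟨g, k1, k2⟩
    refine ⟨w * g * w⁻¹, fun k => k1 ?_, (stab_conj w).2 k2⟩
    have k3 := (MulAut.conj w⁻¹).toMonoidHom.isOfFinOrder k
    have e : (MulAut.conj w⁻¹).toMonoidHom (w * g * w⁻¹) = g := by
      simp [MulAut.conj_apply, mul_assoc]
    rwa [e] at k3
  refine ⟨fun h => ?_, key w p q⟩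
  have k := key w⁻¹ _ _ h
  rwa [inv_mul_cancel_left, inv_mul_cancel_left] at k
theorem per_base : R.Per 1 (p⁻¹ * q) ↔ R.Per p q := by
  have h := per_mul_left (p := p) (q := q) p⁻¹
  rwa [inv_mul_cancel] at h

variable {M : Subgroup R.W}
theorem HArc.symm (h : R.HArc M p q) : R.HArc M q p := by
  obtain ⟨g, k, k1, k2, k3⟩ := h
  exact ⟨g, k, k1, k3, k2⟩
theorem HArc.congr (h : R.HArc M p q) (h1 : R.d p p' = 0) (h2 : R.d q q' = 0) : R.HArc M p' q' := by
  obtain ⟨g, k, k1, k2, k3⟩ := h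
  exact ⟨g, k, k1, k2.congr h1 (d_self _) (d_self _), k3.congr h2 (d_self _) (d_self _)⟩
theorem harc_mul_left (w : R.W) : R.HArc M (w * p) (w * q) ↔ R.HArc M p q := by
  have key : ∀ w p q : R.W, R.HArc M p q → R.HArc M (w * p) (w * q) := by
    rintro w p q ⟨g, k, k1, k2, k3⟩
    refine ⟨w * g, k, k1, ?_, ?_⟩
    · rw [mul_assoc]
      exact (on_mul_left w).2 k2
    · rw [mul_assoc]
      exact (on_mul_left w).2 k3
  refine ⟨fun h => ?_, key w p q⟩
  have k := key w⁻¹ _ _ h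
  rwa [inv_mul_cancel_left, inv_mul_cancel_left] at k

/-- on an isometric path the order of the parameters gives betweenness -/
theorem IsoOn.on {P : ℝ → R.W} {a b s t u : ℝ} (h : R.IsoOn P a b) (hs : s ∈ Icc a b)
    (hu : u ∈ Icc a b) (ht : t ∈ uIcc s u) : R.On (P t) (P s) (P u) := by
  have ht' : t ∈ Icc a b := uIcc_subset_Icc hs hu ht
  unfold On
  rw [h s hs t ht', h t ht' u hu, h s hs u hu]
  rcases mem_uIcc.1 ht with ⟨k1, k2⟩ | ⟨k1, k2⟩
  · rw [abs_of_nonpos (by linarith), abs_of_nonpos (by linarith), abs_of_nonpos (by linarith)]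
    ring
  · rw [abs_of_nonneg (by linarith), abs_of_nonneg (by linarith), abs_of_nonneg (by linarith)]
    ring
theorem IsoOn.mono {P : ℝ → R.W} {a b a' b' : ℝ} (h : R.IsoOn P a b) (h1 : a ≤ a') (h2 : b' ≤ b) :
    R.IsoOn P a' b' := by
  intro s hs t ht
  exact h s (Icc_subset_Icc h1 h2 hs) t (Icc_subset_Icc h1 h2 ht)

end LG

namespace TreeBA

theorem abs_ap (φ : Gm) (s t : ℝ) : |φ.ap s - φ.ap t| = |s - t| := by
  rcases φ.h with k | k <;> simp only [Gm.ap, k]
  · congr 1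
    ring
  · rw [← abs_neg]
    congr 1
    ring

theorem ap_mem (φ : Gm) {u v t : ℝ} (ht : t ∈ uIcc u v) : φ.ap t ∈ uIcc (φ.ap u) (φ.ap v) := by
  rw [mem_uIcc] at ht ⊢
  rcases φ.h with k | k <;> simp only [Gm.ap, k] <;> rcases ht with ⟨a, b⟩ | ⟨a, b⟩
  · exact Or.inl ⟨by linarith, by linarith⟩
  · exact Or.inr ⟨by linarith, by linarith⟩
  · exact Or.inr ⟨by linarith, by linarith⟩
  · exact Or.inl ⟨by linarith, by linarith⟩

end TreeBA

namespace RT

variable (R : RT) {x y z p q m g : R.W}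

/-- the four point condition -/
theorem four (x y z w : R.W) :
    R.d x y + R.d z w ≤ max (R.d x z + R.d y w) (R.d y z + R.d x w) := by
  have h := R.hyp (w⁻¹ * x) (w⁻¹ * y) (w⁻¹ * z)
  change R.d (w⁻¹ * x) (w⁻¹ * y) + R.d w z ≤ max (R.d (w⁻¹ * x) (w⁻¹ * z) + R.d w y)
    (R.d (w⁻¹ * y) (w⁻¹ * z) + R.d w x) at h
  rwa [LG.d_mul_left, LG.d_mul_left, LG.d_mul_left, LG.d_comm w z, LG.d_comm w y,
    LG.d_comm w x] at h
theorem exists_on (x y : R.W) {t : ℝ} (h0 : 0 ≤ t) (h1 : t ≤ R.d x y) :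
    ∃ p, R.d x p = t ∧ R.On p x y := by
  obtain ⟨p, k1, k2⟩ := R.geo (x⁻¹ * y) t h0 h1
  have e1 : R.d x (x * p) = t := by
    rw [LG.d, inv_mul_cancel_left]
    exact k1
  have e2 : R.d (x * p) y = R.d x y - t := by
    rw [LG.d, mul_inv_rev, mul_assoc]
    exact k2
  refine ⟨x * p, e1, ?_⟩
  unfold LG.On
  rw [e1, e2]
  ring
/-- segments are isometric to intervals -/
theorem d_of_on (hp : R.On p x y) (hq : R.On q x y) : R.d p q = |R.d x p - R.d x q| := by
  unfold LG.On at hp hq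
  have h4 := R.four p q x y
  have t1 := LG.d_triangle x p q
  have t2 := LG.d_triangle x q p
  rw [LG.d_comm p x, LG.d_comm q x] at h4
  rw [LG.d_comm q p] at t2
  have a1 := le_abs_self (R.d x p - R.d x q)
  have a2 := neg_abs_le (R.d x p - R.d x q)
  refine le_antisymm ?_ (abs_le.2 ⟨by linarith, by linarith⟩)
  rcases le_max_iff.1 h4 with k | k <;> linarith
theorem on_of_le (hp : R.On p x y) (hq : R.On q x y) (h : R.d x p ≤ R.d x q) :
    R.On p x q ∧ R.On q p y := by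
  have e := R.d_of_on hp hq
  rw [abs_of_nonpos (by linarith)] at e
  unfold LG.On at *
  constructor <;> linarith
/-- segments are convex -/
theorem on_sub (hp : R.On p x y) (hq : R.On q x y) (hm : R.On m p q) : R.On m x y := by
  rcases le_total (R.d x p) (R.d x q) with h | h
  · have k := R.on_of_le hp hq h
    exact (hp.trans_right (k.2.trans_left hm).1).1
  · have k := R.on_of_le hq hp h
    exact (hq.trans_right (k.2.trans_left hm.symm).1).1
/-- the centre of a tripod -/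
theorem exists_centre (x y z : R.W) : ∃ m, R.On m x y ∧ R.On m y z ∧ R.On m x z := by
  have t1 := LG.d_triangle y x z
  have t2 := LG.d_triangle x y z
  rw [LG.d_comm y x] at t1
  obtain ⟨m, k1, k2⟩ := R.exists_on x y (t := (R.d x y + R.d x z - R.d y z) / 2) (by linarith)
    (by linarith)
  have h4 := R.four m z x y
  have t3 := LG.d_triangle x m z
  rw [LG.d_comm m x, LG.d_comm z y, LG.d_comm z x] at h4
  have e : R.d m z = R.d x z - R.d x m := by
    unfold LG.On at k2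
    rcases le_max_iff.1 h4 with k | k <;> linarith
  refine ⟨m, k2, ?_, ?_⟩
  · unfold LG.On at *
    rw [LG.d_comm y m]
    linarith
  · unfold LG.On
    linarith
/-- a point of `[x, z]` lies on `[x, y]` or on `[y, z]` -/
theorem on_or_on (y : R.W) (h : R.On p x z) : R.On p x y ∨ R.On p y z := by
  obtain ⟨m, k1, k2, k3⟩ := R.exists_centre x y z
  rcases le_total (R.d x p) (R.d x m) with e | e
  · exact Or.inl (k1.trans_left (R.on_of_le h k3 e).1).1
  · exact Or.inr (k2.trans_right (R.on_of_le k3 h e).2).1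
theorem stab_sub (h : R.Stab x y g) (hp : R.On p x y) (hq : R.On q x y) : R.Stab p q g := by
  have key : ∀ p, R.On p x y → R.d p (g * p) = 0 := by
    intro p hp
    have k1 : R.On (g * p) x y := ((LG.on_mul_left g).2 hp).congr (LG.d_self _)
      (LG.d_zero_symm h.1) (LG.d_zero_symm h.2)
    rw [R.d_of_on hp k1, LG.d_congr h.1 (LG.d_self (g * p)), LG.d_mul_left, sub_self, abs_zero]
  exact ⟨key p hp, key q hq⟩
theorem per_sub (h : R.Per x y) (hp : R.On p x y) (hq : R.On q x y) : R.Per p q := by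
  obtain ⟨g, k1, k2⟩ := h
  exact ⟨g, k1, R.stab_sub k2 hp hq⟩
theorem harc_sub {M : Subgroup R.W} (h : R.HArc M x y) (hp : R.On p x y) (hq : R.On q x y) :
    R.HArc M p q := by
  obtain ⟨g, k, k1, k2, k3⟩ := h
  exact ⟨g, k, k1, R.on_sub k2 k3 hp, R.on_sub k2 k3 hq⟩
/-- a parametrisation of the segment from `x` to `y` -/
theorem exists_path (x y : R.W) (a : ℝ) : ∃ P : ℝ → R.W, P a = x ∧
    (0 < R.d x y → P (a + R.d x y) = y) ∧ R.IsoOn P a (a + R.d x y) ∧
    ∀ t ∈ Icc a (a + R.d x y), R.On (P t) x y ∧ R.d x (P t) = t - a := by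
  have key : ∀ t : ℝ, ∃ p, (t = a → p = x) ∧ (0 < R.d x y → t = a + R.d x y → p = y) ∧
      (t ∈ Icc a (a + R.d x y) → R.On p x y ∧ R.d x p = t - a) := by
    intro t
    by_cases h1 : t = a
    · refine ⟨x, fun _ => rfl, fun k1 k2 => by linarith, fun _ => ⟨LG.on_left x y, ?_⟩⟩
      rw [h1, LG.d_self, sub_self]
    by_cases h2 : t = a + R.d x y
    · refine ⟨y, fun k => absurd k h1, fun _ _ => rfl, fun _ => ⟨LG.on_right x y, ?_⟩⟩
      rw [h2]
      ring
    by_cases h3 : t ∈ Icc a (a + R.d x y)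
    · obtain ⟨p, k1, k2⟩ := R.exists_on x y (t := t - a) (by linarith [h3.1]) (by linarith [h3.2])
      exact ⟨p, fun k => absurd k h1, fun _ k => absurd k h2, fun _ => ⟨k2, k1⟩⟩
    · exact ⟨x, fun k => absurd k h1, fun _ k => absurd k h2, fun k => absurd k h3⟩
  choose P h1 h2 h3 using key
  refine ⟨P, h1 a rfl, fun k => h2 _ k rfl, fun s hs t ht => ?_, h3⟩
  rw [R.d_of_on (h3 s hs).1 (h3 t ht).1, (h3 s hs).2, (h3 t ht).2]
  congr 1
  ring
/-- the points of the segment between two points of an isometric path lie on the path -/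
theorem exists_param {P : ℝ → R.W} {a b s u : ℝ} (h : R.IsoOn P a b) (hs : s ∈ Icc a b)
    (hu : u ∈ Icc a b) (hp : R.On p (P s) (P u)) : ∃ t ∈ uIcc s u, R.d p (P t) = 0 := by
  have e := h s hs u hu
  have n1 := LG.d_nonneg (P s) p
  have n2 := LG.d_nonneg p (P u)
  have hp' := hp
  unfold LG.On at hp'
  have key : ∀ t ∈ uIcc s u, |s - t| = R.d (P s) p → R.d p (P t) = 0 := by
    intro t ht k
    rw [R.d_of_on hp (h.on hs hu ht), h s hs t (uIcc_subset_Icc hs hu ht), k, sub_self, abs_zero]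
  rcases le_total s u with k | k
  · rw [abs_of_nonpos (by linarith)] at e
    have ht : s + R.d (P s) p ∈ uIcc s u := mem_uIcc.2 (Or.inl ⟨by linarith, by linarith⟩)
    refine ⟨_, ht, key _ ht ?_⟩
    rw [abs_of_nonpos (by linarith)]
    ring
  · rw [abs_of_nonneg (by linarith)] at e
    have ht : s - R.d (P s) p ∈ uIcc s u := mem_uIcc.2 (Or.inr ⟨by linarith, by linarith⟩)
    refine ⟨_, ht, key _ ht ?_⟩
    rw [abs_of_nonneg (by linarith)]
    ring
/-- an element that matches the ends of two isometric paths matches the paths -/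
theorem match_ends {P P' : ℝ → R.W} {a b a' b' u v : ℝ} {φ : Gm} (h : R.IsoOn P a b)
    (h' : R.IsoOn P' a' b') (hu : u ∈ Icc a b) (hv : v ∈ Icc a b) (hu' : φ.ap u ∈ Icc a' b')
    (hv' : φ.ap v ∈ Icc a' b') (e1 : R.d (g * P u) (P' (φ.ap u)) = 0)
    (e2 : R.d (g * P v) (P' (φ.ap v)) = 0) : ∀ t ∈ uIcc u v, R.d (g * P t) (P' (φ.ap t)) = 0 := by
  intro t ht
  have ht' := TreeBA.ap_mem φ ht
  have k1 : R.On (g * P t) (P' (φ.ap u)) (P' (φ.ap v)) :=
    ((LG.on_mul_left g).2 (h.on hu hv ht)).congr (LG.d_self _) e1 e2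
  rw [R.d_of_on k1 (h'.on hu' hv' ht'), ← LG.d_congr e1 (LG.d_self (g * P t)), LG.d_mul_left,
    h u hu t (uIcc_subset_Icc hu hv ht), h' _ hu' _ (uIcc_subset_Icc hu' hv' ht'),
    TreeBA.abs_ap, sub_self, abs_zero]
/-- the isometry of the parameters that such an element induces -/
theorem exists_gm {P P' : ℝ → R.W} {a b a' b' u v u' v' : ℝ} (h : R.IsoOn P a b)
    (h' : R.IsoOn P' a' b') (hu : u ∈ Icc a b) (hv : v ∈ Icc a b) (hu' : u' ∈ Icc a' b')
    (hv' : v' ∈ Icc a' b') (e1 : R.d (g * P u) (P' u') = 0) (e2 : R.d (g * P v) (P' v') = 0) :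
    ∃ φ : Gm, φ.ap u = u' ∧ φ.ap v = v' ∧
      ∀ t ∈ uIcc u v, φ.ap t ∈ uIcc u' v' ∧ R.d (g * P t) (P' (φ.ap t)) = 0 := by
  have e : |u - v| = |u' - v'| := by
    rw [← h u hu v hv, ← h' u' hu' v' hv', ← LG.d_congr e1 e2, LG.d_mul_left]
  have key : ∃ φ : Gm, φ.ap u = u' ∧ φ.ap v = v' := by
    rcases abs_eq_abs.1 e with k | k
    · refine ⟨⟨1, u' - u, Or.inl rfl⟩, ?_, ?_⟩ <;> simp only [Gm.ap] <;> linarith
    · refine ⟨⟨-1, u' + u, Or.inr rfl⟩, ?_, ?_⟩ <;> simp only [Gm.ap] <;> linarith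
  obtain ⟨φ, rfl, rfl⟩ := key
  exact ⟨φ, rfl, rfl, fun t ht =>
    ⟨TreeBA.ap_mem φ ht, R.match_ends h h' hu hv hu' hv' e1 e2 t ht⟩⟩

end RT

end Pool.Agent.P.MP_dba3d2_lc
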