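import Pool.Agent.P.MP_dba3d2_lc.D.Iface3
import Pool.Agent.P.MP_dba3d2_lc.D.Germ2
import Pool.Agent.P.MP_dba3d2_lc.D.TreeB

/-! Step D_BAD of the stability project. -/

namespace Pool.Agent.P.MP_dba3d2_lc

open Set Filter Topology

theorem p_D_BAD :
    S_D_BAD := by
  intro R M A ι S P g a H x hx hn
  by_contra hc
  push Not at hc
  refine hn ?_
  rcases (LG.l_nonneg x).eq_or_lt with h0 | h0
  · exact ⟨1, fun i => if i = 0 then 1 else x, rfl, rfl, by simp [LG.d_one], fun i hi =>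
      ⟨1, 1, M.one_mem, by simp [Nat.lt_one_iff.1 hi, LG.on_left], by
        simpa using LG.on_one_one.2 h0.symm⟩⟩
  have iso := H.iso x hx
  obtain ⟨E, hE⟩ := (co_GI (a := a x) (b := a x + R.ℓ x)).subdiv'
    (Q := fun u v => R.HArc M (P u) (P v)) fun γ hγ => by
      obtain ⟨r, r0, hr⟩ := hc γ hγ
      obtain ⟨s, s0, hs⟩ := mem_GI_iff.1 hγ
      have m0 := lt_min r0 s0
      refine ⟨min r s, m0, fun u v huv h => ?_⟩
      rw [seg_eq_GI m0.le, GI_subset_iff huv] at h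
      have k := fun t => iso.on (c_mem_of_GI hγ) (hs _ ⟨m0.le, min_le_right r s⟩) (t := t)
      exact R.harc_sub (hr _ ⟨m0.le, min_le_left r s⟩) (k u ⟨h.1, huv.le.trans h.2⟩)
        (k v ⟨h.1.trans huv.le, h.2⟩)
  obtain ⟨n, p, p0, pn, hp⟩ := exists_chain E.finite_toSet (le_add_of_nonneg_right h0.le)
    (u := a x)
  refine ⟨n, fun i => P (p i), by simp only [p0, H.start x hx h0], by simp only [pn, H.stop x hx h0],
    ?_, fun i hi => ?_⟩
  · rw [Finset.sum_congr rfl (g := fun i => p (i + 1) - p i) fun i hi => ?_, Finset.sum_range_sub,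
      p0, pn, add_sub_cancel_left]
    obtain ⟨a1, a2, a3, -⟩ := hp i (Finset.mem_range.1 hi)
    rw [iso _ ⟨a2, a1.le.trans a3⟩ _ ⟨a2.trans a1.le, a3⟩, abs_sub_comm, abs_of_pos (sub_pos.2 a1)]
  · obtain ⟨a1, a2, a3, -, -, a4⟩ := hp i hi
    exact (hE _ _ a4 ⟨_, tau_mem_GI.2 ⟨le_rfl, a1⟩, tau_mem_GI.2 ⟨a2, a1.trans_le a3⟩⟩).1

end Pool.Agent.P.MP_dba3d2_lc
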