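import Pool.Agent.P.MP_dba3d2_lc.D.PgB
import Pool.Agent.P.MP_dba3d2_lc.D.TreeB

/-! Chapter D toolbox: moves of germs in a tree, stable segments, the system of triangles. -/

namespace Pool.Agent.P.MP_dba3d2_lc

open Set Filter Topology

namespace MvBA

variable {R : LG} {g g' x y z : R.W} {γ : Gm} {u v r t : ℝ}

theorem dz_mul (h1 : R.d (g * x) y = 0) (h2 : R.d (g' * y) z = 0) : R.d (g' * g * x) z = 0 :=
  LG.d_zero_trans (by rw [mul_assoc, LG.d_mul_left]; exact h1) h2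

theorem dz_inv (h : R.d (g * x) y = 0) : R.d (g⁻¹ * y) x = 0 := by
  rw [LG.d_inv_mul]
  exact LG.d_zero_symm h

theorem param (h : u < v) (k : GI u v ⊆ seg γ r) (ht : t ∈ Icc u v) : γ⁻¹.ap t ∈ Icc 0 r := by
  rcases γ.h with e | e
  · rw [seg_pos e, GI_subset_iff h] at k
    simp only [Gm.ap, Gm.inv_eps, Gm.inv_c, e]
    exact ⟨by linarith [k.1, ht.1], by linarith [k.2, ht.2]⟩
  · rw [seg_neg e, GI_subset_iff h] at k
    simp only [Gm.ap, Gm.inv_eps, Gm.inv_c, e]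
    exact ⟨by linarith [k.2, ht.2], by linarith [k.1, ht.1]⟩

theorem seg_eq (γ : Gm) (hr : 0 < r) : ∃ u v, u < v ∧ seg γ r = GI u v :=
  ⟨_, _, lt_of_mem_GI (seg_eq_GI hr.le ▸ self_mem_seg (γ := γ) hr), seg_eq_GI hr.le⟩

end MvBA

namespace LG

variable {R : LG} {P P' P'' : ℝ → R.W} {g g' k : R.W} {φ ψ α β γ δ : Gm} {p q u v u' v' a b : ℝ}

theorem Rl.mono (h : R.Rl P g φ u v) (h1 : u ≤ a) (h2 : b ≤ v) : R.Rl P g φ a b := by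
  exact fun t ht => h t (Icc_subset_Icc h1 h2 ht)
theorem rl_one (P : ℝ → R.W) (u v : ℝ) : R.Rl P 1 1 u v := by
  intro t _
  simp
theorem Rl.comp (h : R.Rl P g φ u v) (h' : R.Rl P g' ψ u' v')
    (e : ∀ t ∈ Icc u v, φ.ap t ∈ Icc u' v') : R.Rl P (g' * g) (ψ * φ) u v := by
  intro t ht
  rw [Gm.mul_ap]
  exact MvBA.dz_mul (h t ht) (h' _ (e t ht))
theorem Rl.inv (h : R.Rl P g φ u v) (e : ∀ t ∈ Icc u' v', φ⁻¹.ap t ∈ Icc u v) :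
    R.Rl P g⁻¹ φ⁻¹ u' v' := by
  intro t ht
  have k := h _ (e t ht)
  rw [Gm.ap_inv_ap] at k
  exact MvBA.dz_inv k
theorem Rl.zeta (h : R.Rl P g φ u v) {t : ℝ} (ht : t ∈ Icc u v) : R.ℓ (R.zeta P g φ t) = 0 := by
  have k := d_zero_symm (h t ht)
  rw [d, ← mul_assoc] at k
  exact k
theorem Rl.mv (h : R.Rl P g φ u v) (hγ : γ ∈ GI u v) : R.Mv P γ g (φ * γ) := by
  obtain ⟨r, h1, h2⟩ := mem_GI_iff.1 hγ
  exact ⟨r, h1, fun s hs => by rw [Gm.mul_ap]; exact h _ (h2 s hs)⟩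
theorem Mv2.trans (h : R.Mv2 P P' α g β) (h' : R.Mv2 P' P'' β g' γ) : R.Mv2 P P'' α (g' * g) γ := by
  obtain ⟨r, h1, h2⟩ := h
  obtain ⟨r', k1, k2⟩ := h'
  exact ⟨min r r', lt_min h1 k1, fun s hs =>
    MvBA.dz_mul (h2 s ⟨hs.1, hs.2.trans (min_le_left _ _)⟩)
      (k2 s ⟨hs.1, hs.2.trans (min_le_right _ _)⟩)⟩
theorem Mv2.symm (h : R.Mv2 P P' γ g β) : R.Mv2 P' P β g⁻¹ γ := by
  obtain ⟨r, h1, h2⟩ := h
  exact ⟨r, h1, fun s hs => MvBA.dz_inv (h2 s hs)⟩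
theorem Mv2.pt (h : R.Mv2 P P' γ g β) : R.d (g * P γ.c) (P' β.c) = 0 := by
  obtain ⟨r, h1, h2⟩ := h
  simpa only [Gm.ap_zero] using h2 0 ⟨le_rfl, h1.le⟩
theorem Mv2.eventually (h : R.Mv2 P P' γ g β) : ∀ᶠ α in 𝓝 γ, R.Mv2 P P' α g (β * γ⁻¹ * α) := by
  obtain ⟨r, h1, h2⟩ := h
  refine eventually_gm.2 ⟨r, h1, fun δ hδ => ?_⟩
  obtain ⟨r', k1, k2⟩ := mem_GI_iff.1 hδ
  refine ⟨r', k1, fun s hs => ?_⟩
  rw [mul_assoc, inv_mul_cancel_left, Gm.mul_ap, Gm.mul_ap]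
  exact h2 _ (k2 s hs)
theorem mv_one (P : ℝ → R.W) (γ : Gm) : R.Mv P γ 1 γ := by
  exact ⟨1, one_pos, fun s _ => by simp⟩
theorem Mv.trans (h : R.Mv P α g β) (h' : R.Mv P β g' γ) : R.Mv P α (g' * g) γ := Mv2.trans h h'
theorem Mv.symm (h : R.Mv P γ g β) : R.Mv P β g⁻¹ γ := Mv2.symm h
theorem Mv.eventually (h : R.Mv P γ g β) : ∀ᶠ α in 𝓝 γ, R.Mv P α g (β * γ⁻¹ * α) :=
  Mv2.eventually h
theorem Mv.rl (h : R.Mv P γ g β) :
    ∃ r > 0, ∀ u v, u < v → GI u v ⊆ seg γ r → R.Rl P g (β * γ⁻¹) u v := by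
  obtain ⟨r, h1, h2⟩ := h
  refine ⟨r, h1, fun u v huv k t ht => ?_⟩
  have e := h2 _ (MvBA.param huv k ht)
  rwa [Gm.ap_inv_ap, ← Gm.mul_ap] at e
/-- a move between germs of `[p, q]` is a mover on a short segment -/
theorem Mv.mover (h : R.Mv P γ g β) (hγ : γ ∈ GI p q) (hβ : β ∈ GI p q) :
    ∃ u v, γ ∈ GI u v ∧ R.Mover P p q g (β * γ⁻¹) u v := by
  obtain ⟨r1, a1, a2⟩ := h
  obtain ⟨r2, b1, b2⟩ := mem_GI_iff.1 hγ
  obtain ⟨r3, c1, c2⟩ := mem_GI_iff.1 hβ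
  have hr : 0 < min r1 (min r2 r3) := lt_min a1 (lt_min b1 c1)
  obtain ⟨u, v, huv, e⟩ := MvBA.seg_eq γ hr
  refine ⟨u, v, e ▸ self_mem_seg hr, huv, fun t ht => ?_, fun t ht => ?_⟩
  · have k := MvBA.param huv e.ge ht
    have k2 := b2 _ ⟨k.1, k.2.trans ((min_le_right _ _).trans (min_le_left _ _))⟩
    have k3 := c2 _ ⟨k.1, k.2.trans ((min_le_right _ _).trans (min_le_right _ _))⟩
    rw [Gm.ap_inv_ap] at k2
    rw [← Gm.mul_ap] at k3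
    exact ⟨k2, k3⟩
  · have k := MvBA.param huv e.ge ht
    have k1 := a2 _ ⟨k.1, k.2.trans (min_le_left _ _)⟩
    rwa [Gm.ap_inv_ap, ← Gm.mul_ap] at k1
theorem Mv.mem_QJ (h : R.Mv P γ g β) (hγ : γ ∈ GI p q) (hβ : β ∈ GI p q) : g ∈ R.QJ P p q := by
  obtain ⟨u, v, -, k⟩ := h.mover hγ hβ
  exact Subgroup.subset_closure ⟨_, u, v, k⟩
theorem Mover.mem (h : R.Mover P p q g φ u v) (hγ : γ ∈ GI u v) :
    γ ∈ GI p q ∧ φ * γ ∈ GI p q ∧ R.Mv P γ g (φ * γ) := by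
  exact ⟨GI_mono (h.2.1 u ⟨le_rfl, h.1.le⟩).1.1 (h.2.1 v ⟨h.1.le, le_rfl⟩).1.2 hγ,
    mul_mem_GI hγ fun t ht => (h.2.1 t ht).2, h.2.2.mv hγ⟩
theorem Mover.mono (h : R.Mover P p q g φ u v) (h1 : a ≤ p) (h2 : q ≤ b) :
    R.Mover P a b g φ u v := by
  exact ⟨h.1, fun t ht => ⟨Icc_subset_Icc h1 h2 (h.2.1 t ht).1, Icc_subset_Icc h1 h2 (h.2.1 t ht).2⟩,
    h.2.2⟩
theorem QJ_mono (h1 : a ≤ p) (h2 : q ≤ b) : R.QJ P p q ≤ R.QJ P a b := by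
  refine Subgroup.closure_mono ?_
  rintro g ⟨φ, u, v, k⟩
  exact ⟨φ, u, v, k.mono h1 h2⟩
theorem rw_arc_iff : RW (R.arc P p q) γ β ↔ γ ∈ GI p q ∧ β ∈ GI p q ∧ ∃ g, R.Mv P γ g β := by
  constructor
  · rintro ⟨u, v, h1, g, h2⟩
    have k := h2.mem h1
    rw [inv_mul_cancel_right] at k
    exact ⟨k.1, k.2.1, g, k.2.2⟩
  · rintro ⟨h1, h2, g, h3⟩
    obtain ⟨u, v, k1, k2⟩ := h3.mover h1 h2
    exact ⟨u, v, k1, g, k2⟩
theorem rw2_arc (h : RW2 (R.arc P p q) γ β) : ∃ g, R.Mv P γ g β ∧ R.Mv P γ.opp g β.opp := by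
  obtain ⟨u, v, h1, h2, g, h3⟩ := h
  have k1 := h3.2.2.mv (mem_GI_of_Ioo h1 h2)
  have k2 := h3.2.2.mv (γ := γ.opp) (mem_GI_of_Ioo (by simpa using h1) (by simpa using h2))
  rw [inv_mul_cancel_right] at k1
  rw [Gm.mul_opp, inv_mul_cancel_right] at k2
  exact ⟨g, k1, k2⟩
theorem HGm.eventually {R : RT} {M : Subgroup R.W} {P : ℝ → R.W} (hP : R.IsoOn P a b)
    (hγ : γ ∈ GI a b) (h : R.HGm P M γ) : ∀ᶠ α in 𝓝 γ, R.HGm P M α := by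
  obtain ⟨r1, a1, a2⟩ := h
  obtain ⟨r2, b1, b2⟩ := mem_GI_iff.1 hγ
  have hr : 0 < min r1 r2 := lt_min a1 b1
  have k0 := a2 _ ⟨hr.le, min_le_left _ _⟩
  have hon : ∀ x ∈ Icc 0 (min r1 r2), R.On (P (γ.ap x)) (P γ.c) (P (γ.ap (min r1 r2))) := by
    intro x hx
    refine hP.on (c_mem_of_GI hγ) (b2 _ ⟨hr.le, min_le_right _ _⟩) ?_
    rw [← γ.ap_zero, Gm.ap_mem_uIcc, uIcc_of_le hr.le]
    exact hx
  refine eventually_gm.2 ⟨_, hr, fun δ hδ => ?_⟩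
  obtain ⟨r', k1, k2⟩ := mem_GI_iff.1 hδ
  refine ⟨r', k1, fun s hs => ?_⟩
  rw [Gm.mul_c', Gm.mul_ap]
  exact R.harc_sub k0 (hon _ (c_mem_of_GI hδ)) (hon _ (k2 s hs))
theorem HGm.mv {M : Subgroup R.W} (h : R.HGm P M γ) (k : R.Mv P γ g β) : R.HGm P M β := by
  have k0 := Mv2.pt k
  obtain ⟨r, h1, h2⟩ := h
  obtain ⟨r', k1, k2⟩ := k
  exact ⟨min r r', lt_min h1 k1, fun s hs =>
    ((harc_mul_left g).2 (h2 s ⟨hs.1, hs.2.trans (min_le_left _ _)⟩)).congr k0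
      (k2 s ⟨hs.1, hs.2.trans (min_le_right _ _)⟩)⟩

namespace Stb

theorem one_mem (P : ℝ → R.W) (p q : ℝ) : 1 ∈ R.KK P p q := rl_one P p q
theorem mul_mem (h : g ∈ R.KK P p q) (h' : g' ∈ R.KK P p q) : g * g' ∈ R.KK P p q := by
  have k := Rl.comp h' h fun t ht => by simpa using ht
  rwa [mul_one] at k
theorem inv_mem (h : g ∈ R.KK P p q) : g⁻¹ ∈ R.KK P p q := by
  have k := Rl.inv (u' := p) (v' := q) h fun t ht => by simpa using ht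
  rwa [inv_one] at k
theorem mv_of_mem (h : k ∈ R.KK P p q) (hγ : γ ∈ GI p q) : R.Mv P γ k γ := by
  have e := Rl.mv h hγ
  rwa [one_mul] at e
theorem mem_of_mv (S : R.Stb P p q) (hγ : γ ∈ GI p q) (h : R.Mv P γ k γ) : k ∈ R.KK P p q := by
  obtain ⟨u, v, -, h1, h2, h3⟩ := h.mover hγ hγ
  rw [mul_inv_cancel] at h3
  exact S.stab u v (h2 u ⟨le_rfl, h1.le⟩).1.1 h1 (h2 v ⟨h1.le, le_rfl⟩).1.2 k h3
/-- movers are determined modulo the stabiliser -/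
theorem coset (S : R.Stb P p q) (hγ : γ ∈ GI p q) (h : R.Mv P γ g β) (h' : R.Mv P γ g' β) :
    g⁻¹ * g' ∈ R.KK P p q := by
  exact S.mem_of_mv hγ (h'.trans h.symm)
theorem coset' (S : R.Stb P p q) (hβ : β ∈ GI p q) (h : R.Mv P γ g β) (h' : R.Mv P γ g' β) :
    g' * g⁻¹ ∈ R.KK P p q := by
  exact S.mem_of_mv hβ (h.symm.trans h')
theorem conj (S : R.Stb P p q) (hγ : γ ∈ GI p q) (hβ : β ∈ GI p q) (h : R.Mv P γ g β) :
    k ∈ R.KK P p q ↔ g * k * g⁻¹ ∈ R.KK P p q := by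
  constructor
  · intro e
    rw [mul_assoc]
    exact S.mem_of_mv hβ ((h.symm.trans (mv_of_mem e hγ)).trans h)
  · intro e
    have k1 := S.mem_of_mv hγ ((h.trans (mv_of_mem e hβ)).trans h.symm)
    rwa [inv_mul_cancel_right, inv_mul_cancel_left] at k1
theorem finite_mv (S : R.Stb P p q) (hγ : γ ∈ GI p q) (β : Gm) : {g | R.Mv P γ g β}.Finite := by
  rcases {g | R.Mv P γ g β}.eq_empty_or_nonempty with e | ⟨g0, h0⟩
  · rw [e]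
    exact finite_empty
  · exact (S.fin.image (g0 * ·)).subset fun g hg =>
      ⟨g0⁻¹ * g, S.coset hγ h0 hg, mul_inv_cancel_left g0 g⟩
/-- a mover of one germ of an arc realises the whole arc -/
theorem rl_of_mv (S : R.Stb P p q) (h : R.arc P p q φ u v) (hγ : γ ∈ GI u v)
    (hg : R.Mv P γ g (φ * γ)) : R.Rl P g φ u v := by
  obtain ⟨g0, h0⟩ := h
  have k := h0.mem hγ
  have k1 : R.Rl P (g0⁻¹ * g) 1 u v := Rl.mono (S.coset k.1 k.2.2 hg)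
    (h0.2.1 u ⟨le_rfl, h0.1.le⟩).1.1 (h0.2.1 v ⟨h0.1.le, le_rfl⟩).1.2
  have k2 := k1.comp h0.2.2 fun t ht => by simpa using ht
  rwa [mul_inv_cancel_left, mul_one] at k2
theorem mv_opp (S : R.Stb P p q) (h : RW2 (R.arc P p q) γ β) (hg : R.Mv P γ g β) :
    R.Mv P γ.opp g β.opp := by
  obtain ⟨u, v, h1, h2, h3⟩ := h
  have k1 := S.rl_of_mv (g := g) h3 (mem_GI_of_Ioo h1 h2) (by rwa [inv_mul_cancel_right])
  have k2 := k1.mv (γ := γ.opp) (mem_GI_of_Ioo (by simpa using h1) (by simpa using h2))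
  rwa [Gm.mul_opp, inv_mul_cancel_right] at k2
theorem pg (S : R.Stb P p q) : PG (R.arc P p q) := by
  refine ⟨?_, ?_, ?_, ?_, ?_, S.small⟩
  · rintro φ u v ⟨g, h⟩
    exact h.1
  · rintro φ u v u' v' ⟨g, h⟩ h1 h2 h3
    exact ⟨g, h2, fun t ht => h.2.1 t (Icc_subset_Icc h1 h3 ht), h.2.2.mono h1 h3⟩
  · rintro φ u v u' v' ⟨g, h⟩ h1 e
    refine ⟨g⁻¹, h1, fun t ht => ⟨?_, (h.2.1 _ (e t ht)).1⟩, h.2.2.inv e⟩
    simpa using (h.2.1 _ (e t ht)).2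
  · rintro φ ψ u v u' v' ⟨g, h⟩ ⟨g', h'⟩ e
    refine ⟨g' * g, h.1, fun t ht => ⟨(h.2.1 t ht).1, ?_⟩, h.2.2.comp h'.2.2 e⟩
    rw [Gm.mul_ap]
    exact (h'.2.1 _ (e t ht)).2
  · rintro φ u v u' v' ⟨g, h⟩ ⟨g', h'⟩ h1 h2 h3
    have k := S.rl_of_mv ⟨g', h'⟩ (tau_mem_GI.2 ⟨le_rfl, h'.1⟩)
      (h.2.2.mv (tau_mem_GI.2 ⟨h1, h2⟩))
    refine ⟨g, h.1.trans_le h3, fun t ht => ?_, fun t ht => ?_⟩
    · rcases le_total t v with e | e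
      exacts [h.2.1 t ⟨ht.1, e⟩, h'.2.1 t ⟨h2.le.trans e, ht.2⟩]
    · rcases le_total t v with e | e
      exacts [h.2.2 t ⟨ht.1, e⟩, k t ⟨h2.le.trans e, ht.2⟩]
theorem stab_of_mem (h : k ∈ R.KK P p q) (hu : u ∈ Icc p q) (hv : v ∈ Icc p q) :
    R.Stab (P u) (P v) k := by
  exact ⟨d_zero_symm (by simpa using h u hu), d_zero_symm (by simpa using h v hv)⟩

end Stb

namespace Setup

variable {A : Finset R.W} {ι : Type} {S : Sys ι} {gg : ι → R.W} {s : R.W → ℝ} {w w' : R.W}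

theorem co_sec (R : LG) (s : R.W → ℝ) (w : R.W) : CO (R.sec s w) := co_GI
theorem co_secs (R : LG) (s : R.W → ℝ) (A : Finset R.W) : CO (R.secs s A) := by
  have e : R.secs s A = ⋃ w ∈ (A : Set R.W), R.sec s w := by
    ext γ
    simp [secs]
  rw [e]
  exact CO.biUnion A.finite_toSet fun w _ => co_sec R s w
theorem pos_of_mem (h : γ ∈ R.sec s w) : 0 < R.ℓ w := by
  have k := lt_of_mem_GI h
  linarith
theorem in' (H : R.Setup P A S gg s) : S.In (R.secs s A) := by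
  intro i γ hγ
  rcases H.band i with e | ⟨u, v, -, e, -, w, hw, h1, h2⟩
  · rw [e] at hγ
    exact hγ.elim
  · rw [e] at hγ
    exact ⟨w, hw, GI_mono h1 h2 hγ⟩
theorem mv (H : R.Setup P A S gg s) {i : ι} (h : γ ∈ S.dom i) : R.Mv P γ (gg i) (S.φ i * γ) := by
  rcases H.band i with e | ⟨u, v, -, e, k, -⟩
  · rw [e] at h
    exact h.elim
  · rw [e] at h
    exact k.mv h
theorem mv_of_rel (H : R.Setup P A S gg s) (h : S.Rel γ β) : ∃ g, R.Mv P γ g β := by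
  induction h with
  | refl => exact ⟨1, mv_one P γ⟩
  | tail _ k ih =>
    obtain ⟨g, hg⟩ := ih
    obtain ⟨i, hi, rfl⟩ := k
    exact ⟨_, hg.trans (H.mv hi)⟩
theorem sec_unique (H : R.Setup P A S gg s) (hw : w ∈ A) (hw' : w' ∈ A) (h : γ ∈ R.sec s w)
    (h' : γ ∈ R.sec s w') : w = w' := by
  exact H.disj w hw w' hw' γ.c (c_mem_of_GI h) (c_mem_of_GI h')
/-- a segment inside the union of the sections lies in one section -/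
theorem seg_in_sec (H : R.Setup P A S gg s) (h : u < v) (k : GI u v ⊆ R.secs s A) :
    ∃ w ∈ A, s w ≤ u ∧ v ≤ s w + R.ℓ w := by
  obtain ⟨w, hw, h1⟩ := k (tau_mem_GI.2 ⟨le_rfl, h⟩)
  obtain ⟨a1, a2⟩ := tau_mem_GI.1 h1
  refine ⟨w, hw, a1, le_of_not_gt fun e => ?_⟩
  obtain ⟨w', hw', h2⟩ := k (tau_mem_GI.2 ⟨a2.le, e⟩)
  obtain ⟨b1, b2⟩ := tau_mem_GI.1 h2
  obtain rfl := H.disj w hw w' hw' _ ⟨a1.trans a2.le, le_rfl⟩ ⟨b1, b2.le⟩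
  exact lt_irrefl _ b2
theorem on_sec (H : R.Setup P A S gg s) (hw : w ∈ A) (h0 : 0 < R.ℓ w) {t : ℝ}
    (ht : t ∈ Icc (s w) (s w + R.ℓ w)) : R.On (P t) 1 w := by
  have hle : s w ≤ s w + R.ℓ w := by linarith
  have k := (H.iso w hw).on ⟨le_rfl, hle⟩ ⟨hle, le_rfl⟩ (by rwa [uIcc_of_le hle])
  rwa [H.start w hw h0, H.stop w hw h0] at k
theorem hgm_of_mem (H : R.Setup P A S gg s) {M : Subgroup R.W} (hw : w ∈ A) (hM : w ∈ M)
    (h : γ ∈ R.sec s w) : R.HGm P M γ := by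
  obtain ⟨r, h1, h2⟩ := mem_GI_iff.1 h
  have h0 := pos_of_mem h
  refine ⟨r, h1, fun t ht => ⟨1, w, hM, ?_, ?_⟩⟩
  · rw [one_mul]
    exact H.on_sec hw h0 (c_mem_of_GI h)
  · rw [one_mul]
    exact H.on_sec hw h0 (h2 t ht)
/-- a whole segment that the domains do not cut is moved along the orbit -/
theorem rl_of_rel (H : R.Setup P A S gg s) {r : ℝ} (hr : 0 < r)
    (hd : ∀ α ∈ S.orb γ, ∀ i, α ∈ S.dom i → seg α r ⊆ S.dom i) (h : S.Rel γ β) :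
    ∃ g, ∀ t ∈ Icc 0 r, R.d (g * P (γ.ap t)) (P (β.ap t)) = 0 := by
  induction h with
  | refl => exact ⟨1, fun t _ => by simp⟩
  | tail k0 k ih =>
    obtain ⟨g, hg⟩ := ih
    obtain ⟨i, hi, rfl⟩ := k
    have k1 := hd _ k0 i hi
    rcases H.band i with e | ⟨u, v, -, e, k2, -⟩
    · rw [e] at hi
      exact hi.elim
    · rw [e, seg_subset_GI hr] at k1
      refine ⟨gg i * g, fun t ht => ?_⟩
      rw [Gm.mul_ap]
      exact MvBA.dz_mul (hg t ht) (k2 _ (k1 t ht))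

end Setup

end LG

end Pool.Agent.P.MP_dba3d2_lc
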