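import Pool.Agent.P.MP_dba3d2_lc.D.Iface3
import Pool.Agent.P.MP_dba3d2_lc.D.MvB

/-! Step D_CASEF of the stability project. -/

namespace Pool.Agent.P.MP_dba3d2_lc

open Set Filter Topology

namespace D_casefA

/-- short segments at finitely many germs do not cross finitely many compact open sets -/
theorem exists_unif {T : Set Gm} (hT : T.Finite) {κ : Type} (A : Finset κ) (W : κ → Set Gm)
    (hW : ∀ w, CO (W w)) : ∃ r > 0, ∀ α ∈ T, ∀ w ∈ A, ∀ β ∈ seg α r, (β ∈ W w ↔ α ∈ W w) := by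
  have k : ∀ α w, ∀ᶠ r in 𝓝[>] (0 : ℝ), ∀ β ∈ seg α r, (β ∈ W w ↔ α ∈ W w) := fun α w => by
    have e : ∃ r > 0, ∀ β ∈ seg α r, (β ∈ W w ↔ α ∈ W w) := by
      by_cases c : α ∈ W w
      · obtain ⟨r, r0, hr⟩ := mem_nhds_gm.1 ((hW w).2.mem_nhds c)
        exact ⟨r, r0, fun β hβ => iff_of_true (hr hβ) c⟩
      · obtain ⟨r, r0, hr⟩ := mem_nhds_gm.1 ((hW w).isClosed.isOpen_compl.mem_nhds c)
        exact ⟨r, r0, fun β hβ => iff_of_false (hr hβ) c⟩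
    obtain ⟨r, r0, hr⟩ := e
    filter_upwards [Ioc_mem_nhdsGT r0] with s hs β hβ using hr β (seg_mono hs.2 hβ)
  have e : ∀ᶠ r in 𝓝[>] (0 : ℝ), ∀ α ∈ T, ∀ w ∈ A, ∀ β ∈ seg α r, (β ∈ W w ↔ α ∈ W w) :=
    (eventually_all_finite hT).2 fun α _ => (eventually_all_finset A).2 fun w _ => k α w
  obtain ⟨r, h1, h2⟩ := (e.and self_mem_nhdsWithin).exists
  exact ⟨r, h2, h1⟩

/-- the system without bands -/
def S0 : Sys Empty where
  inv := id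
  φ i := i.elim
  dom i := i.elim
  inv_inv _ := rfl
  φ_inv i := i.elim
  co i := i.elim
  map i := i.elim

end D_casefA

open D_casefA in
theorem p_D_CASEF (hD_STB : S_D_STB) (hD_GOODFIN : S_D_GOODFIN) (hD_STRIP : S_D_STRIP) (hD_PB1 : S_D_PB1) (hD_PB2 : S_D_PB2) :
    S_D_CASEF := by
  intro R e hA M A k x ι _ S P g a H hx i γ hγ hb hf
  obtain ⟨r0, p0, b1, b2, b3⟩ := Sys.exists_box hf
  obtain ⟨r1, p1, b4⟩ := exists_unif hf A (R.sec a) (LG.Setup.co_sec R.toLG a)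
  obtain ⟨r, pr, l0, l1⟩ : ∃ r > 0, r ≤ r0 ∧ r ≤ r1 :=
    ⟨min r0 r1, lt_min p0 p1, min_le_left _ _, min_le_right _ _⟩
  have g0 : γ ∈ S.orb γ := Sys.Rel.refl S γ
  obtain ⟨u, v, huv⟩ : ∃ u v, seg γ r = GI u v := ⟨_, _, seg_eq_GI pr.le⟩
  have lt : u < v := lt_of_mem_GI (huv ▸ self_mem_seg pr)
  have hsec : GI u v ⊆ R.sec a (x i) := fun β hβ =>
    (b4 γ g0 _ (hx i) β (seg_mono l1 (huv ▸ hβ))).2 hγ
  have iso : R.IsoOn P u v :=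
    (H.iso _ (hx i)).mono ((GI_subset_iff lt).1 hsec).1 ((GI_subset_iff lt).1 hsec).2
  have dl : ∀ δ, γ * δ ∈ GI u v → δ ∈ GI 0 r := fun δ h => mul_mem_seg.1 (huv ▸ h)
  have key : ∀ u' v', u ≤ u' → u' < v' → v' ≤ v → ∃ C, R.Supp M A x S a C ∧
      (∀ β ∈ C, ∃ β' ∈ GI u' v', S.Rel β β') := fun u' v' h1 h2 h3 => by
    have sub : GI u' v' ⊆ GI u v := GI_mono h1 h3
    have mem : ∀ β, β ∈ ⋃ α ∈ S.orb γ, tr (α * γ⁻¹) (GI u' v') ↔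
        ∃ α ∈ S.orb γ, ∃ δ, β = α * δ ∧ γ * δ ∈ GI u' v' := fun β => by
      simp only [mem_iUnion, mem_tr, exists_prop]
      refine exists_congr fun α => and_congr_right fun _ => ⟨fun h => ⟨α⁻¹ * β, by simp, ?_⟩, ?_⟩
      · simpa [mul_assoc] using h
      · rintro ⟨δ, rfl, h⟩
        simpa [mul_assoc] using h
    refine ⟨⋃ α ∈ S.orb γ, tr (α * γ⁻¹) (GI u' v'), ⟨hx, CO.biUnion hf fun α _ => co_GI.tr _,
      fun j β hβ hC => ?_, fun β hC => ?_, fun m hm hM => disjoint_left.2 fun β hC hβ => ?_, i, ?_⟩,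
      fun β hC => ?_⟩
    · obtain ⟨α, hα, δ, rfl, hδ⟩ := (mem β).1 hC
      have c : α ∈ S.dom j :=
        (b1 α hα j _ (seg_mono l0 (mul_mem_seg.2 (dl δ (sub hδ))))).1 hβ
      exact (mem _).2 ⟨S.φ j * α, Sys.Rel.trans hα (Sys.rel_φ c), δ, (mul_assoc _ _ _).symm, hδ⟩
    · obtain ⟨α, hα, δ, rfl, hδ⟩ := (mem β).1 hC
      obtain ⟨w, hw, c⟩ : α ∈ R.secs a A := Sys.Rel.mem hα H.in'.inv ⟨x i, hx i, hγ⟩
      exact ⟨w, hw, (b4 α hα w hw _ (seg_mono l1 (mul_mem_seg.2 (dl δ (sub hδ))))).2 c⟩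
    · obtain ⟨α, hα, δ, rfl, hδ⟩ := (mem β).1 hC
      have c := (b4 α hα m hm _ (seg_mono l1 (mul_mem_seg.2 (dl δ (sub hδ))))).1 hβ
      obtain ⟨y, hy⟩ := H.mv_of_rel (Sys.Rel.symm hα)
      exact hb ((H.hgm_of_mem hm hM c).mv hy)
    · obtain ⟨β, hβ⟩ := GI_nonempty.2 h2
      exact ⟨β, (mem β).2 ⟨γ, g0, γ⁻¹ * β, by simp, by simpa using hβ⟩, hsec (sub hβ)⟩
    · obtain ⟨α, hα, δ, rfl, hδ⟩ := (mem β).1 hC
      refine ⟨γ * δ, hδ, Sys.Rel.symm (Sys.mem_orb.1 ?_)⟩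
      rw [b3 δ (GI_mono le_rfl l0 (dl δ (sub hδ)))]
      exact ⟨α, hα, rfl⟩
  have uniq : ∀ β ∈ GI u v, ∀ β' ∈ GI u v, S.Rel β β' → β = β' := fun β hβ β' hβ' h => by
    obtain ⟨δ, rfl⟩ : ∃ δ, β = γ * δ := ⟨γ⁻¹ * β, by simp⟩
    have c := GI_mono le_rfl l0 (dl δ hβ)
    have d : β' ∈ S.orb (γ * δ) := h
    rw [b3 δ c] at d
    obtain ⟨α, hα, rfl⟩ := d
    by_contra ne
    have ne' : α ≠ γ := fun z => ne (by rw [z])
    exact disjoint_left.1 (b2 α hα γ g0 ne') (mul_mem_seg.2 c) (seg_mono l0 (huv ▸ hβ'))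
  by_cases per : ∃ u' v', u ≤ u' ∧ u' < v' ∧ v' ≤ v ∧ R.Per (P u') (P v')
  · obtain ⟨u', v', h1, h2, h3, h4⟩ := per
    obtain ⟨C, c1, c2⟩ := key u' v' h1 h2 h3
    exact Or.inr (hD_PB2 R e hA M A k x ι S P g a C H c1 u' v' h2 (iso.mono h1 h3) h4 c2)
  · obtain ⟨p, q, h1, h3, st⟩ := hD_STB R e hA P u v lt iso fun u' v' h1 h2 h3 h4 =>
      per ⟨u', v', h1, h2, h3, h4⟩
    obtain ⟨C, c1, c2⟩ := key p q h1 st.lt h3
    have gd := hD_STRIP R.toLG P p q p q st le_rfl le_rfl Empty S0 (fun j => j.elim)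
      (fun j => j.elim) (hD_GOODFIN R.toLG P p q p q st le_rfl le_rfl Empty S0 (fun j => j.elim)
        (fun j => j.elim) fun β => by
          rw [Sys.orb_eq_singleton fun j => j.elim]
          exact finite_singleton β)
    refine Or.inl (hD_PB1 R.toLG M A k x ι S P g a C H c1 p q S0.Rel c2
      (fun β hβ β' hβ' h => ?_) gd)
    rw [uniq β (GI_mono h1 h3 hβ) β' (GI_mono h1 h3 hβ') h]
    exact Sys.Rel.refl S0 β'

end Pool.Agent.P.MP_dba3d2_lc
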