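import Pool.Agent.P.MP_dba3d2_lc.D.Defs

/-! Chapter D, statements on systems of isometries of intervals. -/

namespace Pool.Agent.P.MP_dba3d2_lc

open Set Filter Topology

/-! ### Imanishi, forests -/

-- deps:
-- imports: Pool.Agent.P.MP_dba3d2_lc.D.SysC
/-- a closed invariant set of infinite orbits is open -/
def S_D_IMAN : Prop := ∀ (ι : Type) [Fintype ι] (S : Sys ι) (X : Set Gm), IsClosed X → S.Inv X →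
  (∀ γ ∈ X, (S.orb γ).Infinite) → IsOpen X

-- deps: D_IMAN
-- imports: Pool.Agent.P.MP_dba3d2_lc.D.SysC
def S_D_MINC : Prop := ∀ (ι : Type) [Fintype ι] (S : Sys ι), CO {γ | (S.orb γ).Infinite} ∧
  ∀ γ, (S.orb γ).Infinite → S.Min (closure (S.orb γ))

-- deps: D_MINC
-- imports: Pool.Agent.P.MP_dba3d2_lc.D.SysC
def S_D_FAM : Prop := ∀ (ι : Type) [Fintype ι] (S : Sys ι) (X : Set Gm) (F : Finset ℝ), CO X →
  S.In X → ∃ E r, S.Fam X F E r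

-- deps:
-- imports: Pool.Agent.P.MP_dba3d2_lc.D.SysC
def S_D_FOREST : Prop := ∀ (ι : Type) [Fintype ι] [Nonempty ι] (S : Sys ι) (U V : Set Gm),
  CO U → CO V → Disjoint U V → S.In (U ∪ V) → (∀ γ ∈ V, ∃ β ∈ U, S.Rel γ β) →
  ∃ par h, S.Forest U V par h ∧ ∀ T : Sys ι, T.Sub S → T.In U →
    T.tot + 2 * mu V ≤ S.tot ∧ (S.tot ≤ T.tot + 2 * mu V → S.Cls T V par)

-- deps: D_MINC D_FOREST
-- imports: Pool.Agent.P.MP_dba3d2_lc.D.SysC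
/-- the excess is nonnegative when all orbits are infinite -/
def S_D_EGE : Prop := ∀ (ι : Type) [Fintype ι] (S : Sys ι) (X : Set Gm), CO X → S.In X →
  (∀ γ ∈ X, (S.orb γ).Infinite) → 2 * mu X ≤ S.tot

-- deps:
-- imports: Pool.Agent.P.MP_dba3d2_lc.D.SysC
def S_D_INDUCE : Prop := ∀ (ι : Type) [Fintype ι] (S : Sys ι) (C U : Set Gm), CO C → S.Inv C →
  CO U → U ⊆ C → (∀ γ ∈ C, ∃ β ∈ U, S.Rel γ β) →
  ∃ (κ : Type) (_ : Fintype κ) (T : Sys κ), T.In U ∧ (∀ γ β, T.Step γ β → S.Rel γ β) ∧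
    ∀ γ ∈ U, ∀ β ∈ U, S.Rel γ β → T.Rel γ β

-- deps:
-- imports: Pool.Agent.P.MP_dba3d2_lc.D.PgB
def S_D_REFINE : Prop := ∀ (A : Gm → ℝ → ℝ → Prop), PG A → ∀ (ι : Type) [Fintype ι] (S : Sys ι),
  S.Weak A → ∃ (κ : Type) (_ : Fintype κ) (T : Sys κ), T.Intv A ∧ T.NoMob ∧
    (∀ γ β, T.Step γ β ↔ S.Step γ β) ∧ T.tot = S.tot ∧ ∀ X, S.In X → T.In X

/-! ### The leftmost process -/

/-- a state: a system of realised segments on `[z, q]` that generates `Rn` there -/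
def Sys.St {ι : Type} (S : Sys ι) (A : Gm → ℝ → ℝ → Prop) (Rn : Gm → Gm → Prop) (z q : ℝ) : Prop :=
  z < q ∧ S.In (GI z q) ∧ S.Intv A ∧ ∀ γ ∈ GI z q, ∀ β ∈ GI z q, (S.Rel γ β ↔ Rn γ β)

/-- no state has fewer than `N` bands -/
def LPMin (A : Gm → ℝ → ℝ → Prop) (Rn : Gm → Gm → Prop) (p q : ℝ) (N : ℕ) : Prop :=
  ∀ (κ : Type) [Fintype κ] (T : Sys κ) (z : ℝ), p ≤ z → T.St A Rn z q →
    N ≤ {i | (T.dom i).Nonempty}.ncard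

/-- every class of `Rn` is dense -/
def Dns (Rn : Gm → Gm → Prop) (p q : ℝ) : Prop :=
  ∀ γ ∈ GI p q, ∀ u v, p ≤ u → u < v → v ≤ q → ∃ β ∈ GI u v, Rn γ β

/-- the bases are the nondegenerate segments `[α i, β i]` in `[z, q]` -/
def Sys.Ends {ι : Type} (S : Sys ι) (A : Gm → ℝ → ℝ → Prop) (z q : ℝ) (α β : ι → ℝ) : Prop :=
  ∀ i, z ≤ α i ∧ α i < β i ∧ β i ≤ q ∧ S.dom i = GI (α i) (β i) ∧ A (S.φ i) (α i) (β i)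

/-- no trivial and no redundant bands -/
def Sys.Clean {ι : Type} (S : Sys ι) : Prop :=
  (∀ i, S.φ i ≠ 1) ∧ ∀ i j, i ≠ j → S.φ i = S.φ j → ¬S.dom j ⊆ S.dom i

/-- One step: the bases that start at `z` slide along the carrier `k`, which is then trimmed. -/
structure LPStep {ι : Type} [Fintype ι] (S : Sys ι) (α β : ι → ℝ) (z : ℝ) (T : Sys ι)
    (α' β' : ι → ℝ) (z' : ℝ) (k : ι) : Prop where
  inv : T.inv = S.inv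
  lt : z < z'
  at' : α k = z
  max : ∀ i, α i = z → β i ≤ β k
  cφ : T.φ k = S.φ k
  cα : α' k = z'
  cβ : S.inv k ≠ k → β' k = β k
  cm : S.inv k = k → β' k = (S.φ k).ap z'
  sl : ∀ i, i ≠ k → α i = z → i ≠ S.inv k ∧ T.dom i = tr (S.φ k) (S.dom i)
  st : ∀ i, i ≠ k → i ≠ S.inv k → α i ≠ z → α' i = α i ∧ β' i = β i
  fz : ∀ i, α i ≠ z → α (S.inv i) ≠ z → T.φ i = S.φ i
  nx : (∃ i, i ≠ k ∧ α' i = z') ∨ (S.inv k ≠ k ∧ α (S.inv k) = z')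
  tot : T.tot = S.tot - 2 * (z' - z)

-- deps:
-- imports: Pool.Agent.P.MP_dba3d2_lc.D.PgB
def S_D_LPCLEAN : Prop := ∀ (A : Gm → ℝ → ℝ → Prop) (Rn : Gm → Gm → Prop) (p q z : ℝ)
  (ι : Type) [Fintype ι] (S : Sys ι), p ≤ z → S.St A Rn z q → LPMin A Rn p q (Fintype.card ι) →
  S.Clean ∧ ∃ α β, S.Ends A z q α β

-- deps:
-- imports: Pool.Agent.P.MP_dba3d2_lc.D.PgB
/-- sliding the bases in `B` along a band that contains them -/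
def S_D_SLIDE : Prop := ∀ (A : Gm → ℝ → ℝ → Prop), PG A → ∀ (ι : Type) [Fintype ι] (S : Sys ι)
  (k : ι) (B : Set ι), k ∉ B → S.inv k ∉ B → (∀ i ∈ B, S.dom i ⊆ S.dom k) → S.Intv A →
  ∃ T : Sys ι, T.inv = S.inv ∧ (∀ i ∈ B, T.dom i = tr (S.φ k) (S.dom i)) ∧
    (∀ i, i ∉ B → T.dom i = S.dom i) ∧ (∀ i, i ∉ B → S.inv i ∉ B → T.φ i = S.φ i) ∧
    T.Intv A ∧ (∀ γ β, T.Rel γ β ↔ S.Rel γ β) ∧ T.tot = S.tot

-- deps: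
-- imports: Pool.Agent.P.MP_dba3d2_lc.D.PgB
/-- trimming a band whose base is the only one that meets `[z, z']` -/
def S_D_TRIM : Prop := ∀ (A : Gm → ℝ → ℝ → Prop), PG A → ∀ (Rn : Gm → Gm → Prop) (ι : Type)
  [Fintype ι] (S : Sys ι) (k : ι) (z z' b q : ℝ), S.St A Rn z q → S.dom k = GI z b → z < z' →
  z' ≤ b → z' < q → (∀ i, i ≠ k → S.dom i ⊆ GI z' q) →
  (S.inv k = k → (S.φ k).ε = -1 ∧ z' ≤ (S.φ k).ap z') →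
  ∃ T : Sys ι, T.inv = S.inv ∧ T.φ = S.φ ∧ T.St A Rn z' q ∧ T.tot = S.tot - 2 * (z' - z) ∧
    (∀ i, i ≠ k → i ≠ S.inv k → T.dom i = S.dom i) ∧ (S.inv k ≠ k → T.dom k = GI z' b) ∧
    (S.inv k = k → T.dom k = GI z' ((S.φ k).ap z'))

-- deps: D_LPCLEAN D_SLIDE D_TRIM
-- imports: Pool.Agent.P.MP_dba3d2_lc.D.PgB
def S_D_LPSTEP : Prop := ∀ (A : Gm → ℝ → ℝ → Prop), PG A → ∀ (Rn : Gm → Gm → Prop) (p q z : ℝ)
  (ι : Type) [Fintype ι] (S : Sys ι) (α β : ι → ℝ), p ≤ z → Dns Rn p q → S.St A Rn z q →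
  LPMin A Rn p q (Fintype.card ι) → S.Ends A z q α β →
  ∃ T α' β' z' k, T.St A Rn z' q ∧ T.Ends A z' q α' β' ∧ LPStep S α β z T α' β' z' k

-- deps:
-- imports: Pool.Agent.P.MP_dba3d2_lc.D.PgB
/-- the carriers become short -/
def S_D_LPA : Prop := ∀ (A : Gm → ℝ → ℝ → Prop), PG A → ∀ (q : ℝ) (ι : Type) [Fintype ι]
  (S : ℕ → Sys ι) (α β : ℕ → ι → ℝ) (z : ℕ → ℝ) (k : ℕ → ι),
  (∀ n, (S n).Ends A (z n) q (α n) (β n)) → (∀ n, (S n).Clean) →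
  (∀ n, LPStep (S n) (α n) (β n) (z n) (S (n + 1)) (α (n + 1)) (β (n + 1)) (z (n + 1)) (k n)) →
  Tendsto (fun n => β n (k n) - α n (k n)) atTop (𝓝 0)

-- deps: D_FOREST
-- imports: Pool.Agent.P.MP_dba3d2_lc.D.PgB
def S_D_LPB : Prop := ∀ (A : Gm → ℝ → ℝ → Prop) (Rn : Gm → Gm → Prop) (p q : ℝ) (ι : Type)
  [Fintype ι] (S : ℕ → Sys ι) (α β : ℕ → ι → ℝ) (z : ℕ → ℝ) (k : ℕ → ι), p ≤ z 0 → Dns Rn p q →
  LPMin A Rn p q (Fintype.card ι) → (∀ n, (S n).St A Rn (z n) q) →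
  (∀ n, (S n).Ends A (z n) q (α n) (β n)) →
  (∀ n, LPStep (S n) (α n) (β n) (z n) (S (n + 1)) (α (n + 1)) (β (n + 1)) (z (n + 1)) (k n)) →
  Tendsto (fun n => β n (k n) - α n (k n)) atTop (𝓝 0) → (S 0).tot = 2 * (q - z 0)

-- deps: D_REFINE D_LPCLEAN D_LPSTEP D_LPA D_LPB
-- imports: Pool.Agent.P.MP_dba3d2_lc.D.PgB
/-- independent generators on a subsegment -/
def S_D_LP : Prop := ∀ (A : Gm → ℝ → ℝ → Prop), PG A → ∀ (ι : Type) [Fintype ι] (S : Sys ι)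
  (p q : ℝ), S.In (GI p q) → S.Min (GI p q) → S.Weak A →
  ∃ (z : ℝ) (κ : Type) (_ : Fintype κ) (T : Sys κ), p ≤ z ∧ T.St A S.Rel z q ∧ T.NoMob ∧
    T.tot = 2 * (q - z)

/-! ### Excess zero -/

-- deps: D_EGE
-- imports: Pool.Agent.P.MP_dba3d2_lc.D.SideB
def S_D_TREE : Prop := ∀ (ι : Type) [Fintype ι] (S : Sys ι) (X : Set Gm), CO X → S.In X →
  (∀ γ ∈ X, (S.orb γ).Infinite) → S.tot ≤ 2 * mu X → S.Tree

-- deps: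
-- imports: Pool.Agent.P.MP_dba3d2_lc.D.SideB
def S_D_NOISO : Prop := ∀ (ι : Type) [Fintype ι] (S : Sys ι), S.Tree → ∀ i, ∀ γ ∈ S.Am i, ∀ r > 0,
  ∃ δ : Gm, 0 < δ.c ∧ δ.c < r ∧ γ * δ ∈ S.Am i

-- deps:
-- imports: Pool.Agent.P.MP_dba3d2_lc.D.SideB
def S_D_SWITCH : Prop := ∀ (ι : Type) [Fintype ι] (S : Sys ι), S.Tree → ∀ i,
  {γ | γ ∈ S.dom i ∧ (S.orb γ).Infinite ∧ γ ∉ S.Am i ∧ γ.opp ∈ S.Am i ∧
    S.φ i * γ.opp ∉ S.Am (S.inv i)}.Finite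

-- deps: D_MINC D_EGE D_FOREST
-- imports: Pool.Agent.P.MP_dba3d2_lc.D.SideB
def S_D_THINFIN : Prop := ∀ (ι : Type) [Fintype ι] (S T : Sys ι) (X U : Set Gm) (i : ι) (γ : Gm),
  S.In X → S.Min X → S.tot ≤ 2 * mu X → γ ∈ S.Alive i → γ ∈ U → T.IsCut S i U →
  ∀ β, (T.orb β).Finite

-- deps: D_NOISO D_SWITCH D_THINFIN
-- imports: Pool.Agent.P.MP_dba3d2_lc.D.SideB
def S_D_DICH : Prop := ∀ (ι : Type) [Fintype ι] (S : Sys ι) (X : Set Gm), S.In X → S.Min X →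
  S.tot ≤ 2 * mu X → S.Tree → S.Thin ∨ ∀ i, IsOpen (S.Alive i)

-- deps:
-- imports: Pool.Agent.P.MP_dba3d2_lc.D.SideB
def S_D_SURF1 : Prop := ∀ (ι : Type) [Fintype ι] (S : Sys ι) (X : Set Gm), S.In X → S.Min X →
  S.tot ≤ 2 * mu X → S.Tree → (∀ i, IsOpen (S.Alive i)) →
  ∃ (Y : Set Gm) (T : Sys ι), CO Y ∧ Y.Nonempty ∧ Y ⊆ X ∧ T.Sub S ∧ T.In Y ∧
    (∀ γ ∈ Y, {i | γ ∈ T.dom i}.ncard = 2) ∧ ∀ γ ∈ Y, ∀ β ∈ Y, S.Rel γ β → T.Rel γ β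

-- deps:
-- imports: Pool.Agent.P.MP_dba3d2_lc.D.SideB Pool.Agent.P.MP_dba3d2_lc.D.LsB
def S_D_SURF2 : Prop := ∀ (ι : Type) [Fintype ι] (T : Sys ι) (Y : Set Gm), T.In Y → T.Min Y →
  T.Tree → (∀ γ ∈ Y, {i | γ ∈ T.dom i}.ncard = 2) →
  ∃ L : LS Y, (∀ y : Gm × Bool, y.1 ∈ Y → T.Step y.1 (L.f y).1) ∧
    ∀ γ ∈ Y, ∀ β, T.Rel γ β → L.Rel γ β

/-! ### Line systems -/

-- deps:
-- imports: Pool.Agent.P.MP_dba3d2_lc.D.LsB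
def S_D_RET : Prop := ∀ (X U : Set Gm) (L0 : LS X), CO U → U.Nonempty → U ⊆ X →
  ∃ L : LS U, L.IsRet L0

/-- A system of bi-infinite paths on the integers with jumps at most `B`. -/
structure PS (F : Equiv.Perm (ℤ × Bool)) (B : ℕ) : Prop where
  rev : ∀ y, F ((F y).1, !(F y).2) = (y.1, !y.2)
  jump : ∀ y, |(F y).1 - y.1| ≤ B
  inj : ∀ y, Function.Injective fun n : ℤ => ((F ^ n) y).1

/-- the positions `a` and `b` lie on one path -/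
def PRel (F : Equiv.Perm (ℤ × Bool)) (a b : ℤ) : Prop := ∃ n : ℤ, ((F ^ n) (a, true)).1 = b

-- deps:
/-- if every window of `F'` occurs far out at both ends of `F`, then `F'` has at least as many
through paths as `F` has paths -/
def S_D_PATHS : Prop := ∀ (F F' : Equiv.Perm (ℤ × Bool)) (B : ℕ), PS F B → PS F' B →
  (∀ (n : ℕ) (a₀ : ℤ) (s : ℤ), (s = 1 ∨ s = -1) → ∃ a ε : ℤ, (ε = 1 ∨ ε = -1) ∧ a₀ ≤ s * a ∧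
    ∀ (x : ℤ) (e : Bool), |x| ≤ n → F (a + ε * x, e) = (a + ε * (F' (x, e)).1, (F' (x, e)).2)) →
  ∀ (k : ℕ) (x : Fin k → ℤ), (∀ i j, PRel F (x i) (x j) → i = j) →
  ∃ x' : Fin k → ℤ, (∀ i j, PRel F' (x' i) (x' j) → i = j) ∧
    ∀ j (n : ℕ), ∃ a b : ℤ, a ≤ -n ∧ (n : ℤ) ≤ b ∧ PRel F' (x' j) a ∧ PRel F' (x' j) b

-- deps: D_PATHS
-- imports: Pool.Agent.P.MP_dba3d2_lc.D.LsB
def S_D_STRAND : Prop := ∀ (X : Set Gm) (L L' : LS X), (∀ γ ∈ X, ∀ β, L.Rel γ β → L'.Rel γ β) →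
  ∀ (k : ℕ) (γ : Fin k → Gm), (∀ i, γ i ∈ X) → (∀ i j, L.Rel (γ i) (γ j) → i = j) →
  (∀ i j, L'.Rel (γ i) (γ j)) → ∀ y : Gm × Bool, y.1 ∈ X →
  ∃ x : Fin k → ℤ, (∀ i j, L.Rel (L'.at' y (x i)) (L'.at' y (x j)) → i = j) ∧
    ∀ j (n : ℕ), ∃ a b : ℤ, a ≤ -n ∧ (n : ℤ) ≤ b ∧ L.Rel (L'.at' y (x j)) (L'.at' y a) ∧
      L.Rel (L'.at' y (x j)) (L'.at' y b)

-- deps: D_RET
-- imports: Pool.Agent.P.MP_dba3d2_lc.D.LsB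
/-- some leaf is essential -/
def S_D_ESS : Prop := ∀ (A : Gm → ℝ → ℝ → Prop), PG A → ∀ (X : Set Gm) (L : LS X), L.Weak A →
  ∃ y : Gm × Bool, y.1 ∈ X ∧ ∃ n : ℕ, ∀ a b : ℤ, a ≤ -n → (n : ℤ) ≤ b →
    ¬RW2 A (L.at' y a) (L.at' y b)

/-- the thin outcome on `[p, q]` for the relation `Rn` -/
def ThinOut (A : Gm → ℝ → ℝ → Prop) (Rn : Gm → Gm → Prop) (p q : ℝ) : Prop :=
  ∃ (κ : Type) (_ : Fintype κ) (T : Sys κ), T.In (GI p q) ∧ T.Arcs A ∧ T.NoMob ∧ T.Thin ∧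
    ∀ γ ∈ GI p q, ∀ β ∈ GI p q, Rn γ β → T.Rel γ β

-- deps: D_LP D_TREE D_DICH D_SURF1 D_SURF2 D_RET
-- imports: Pool.Agent.P.MP_dba3d2_lc.D.SideB Pool.Agent.P.MP_dba3d2_lc.D.LsB
def S_D_ONE : Prop := ∀ (A : Gm → ℝ → ℝ → Prop), PG A → ∀ (ι : Type) [Fintype ι] (S : Sys ι)
  (p q : ℝ), S.In (GI p q) → S.Min (GI p q) → S.Weak A →
  ∃ p' q', p ≤ p' ∧ p' < q' ∧ q' ≤ q ∧ (ThinOut A S.Rel p' q' ∨
    ∃ L : LS (GI p' q'), L.Weak A ∧ ∀ γ ∈ GI p' q', ∀ β ∈ GI p' q', (L.Rel γ β ↔ S.Rel γ β))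

-- deps: D_ONE D_RET D_STRAND D_ESS
-- imports: Pool.Agent.P.MP_dba3d2_lc.D.LsB
def S_D_SAT : Prop := ∀ (A : Gm → ℝ → ℝ → Prop), PG A → ∀ (ι : Type) [Fintype ι] (S : Sys ι)
  (p q : ℝ), S.In (GI p q) → S.Min (GI p q) → S.Weak A →
  ∃ p' q', p ≤ p' ∧ p' < q' ∧ q' ≤ q ∧ (ThinOut A S.Rel p' q' ∨ ∃ L : LS (GI p' q'), L.Sat A)

end Pool.Agent.P.MP_dba3d2_lc
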