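import Pool.Agent.P.MP_dba3d2_lc.D.Iface2
import Pool.Agent.P.MP_dba3d2_lc.D.Germ2

/-! Chapter D, statements on systems realised in a tree: the first two outcomes. -/

namespace Pool.Agent.P.MP_dba3d2_lc

open Set Filter Topology

-- deps:
-- imports: Pool.Agent.P.MP_dba3d2_lc.D.MvB
def S_D_SECT : Prop := ∀ (R : RT) (A : Finset R.W), ∃ (P : ℝ → R.W) (a : R.W → ℝ),
  (∀ w ∈ A, 0 < R.ℓ w → P (a w) = 1) ∧ (∀ w ∈ A, 0 < R.ℓ w → P (a w + R.ℓ w) = w) ∧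
  (∀ w ∈ A, R.IsoOn P (a w) (a w + R.ℓ w)) ∧
  ∀ w ∈ A, ∀ w' ∈ A, ∀ t, t ∈ Icc (a w) (a w + R.ℓ w) → t ∈ Icc (a w') (a w' + R.ℓ w') → w = w'

-- deps: D_SECT
-- imports: Pool.Agent.P.MP_dba3d2_lc.D.MvB
def S_D_SETUP : Prop := ∀ (R : RT) (A : Finset R.W), ∃ (ι : Type) (_ : Fintype ι) (S : Sys ι)
  (P : ℝ → R.W) (g : ι → R.W) (a : R.W → ℝ), R.Setup P A S g a

-- deps:
-- imports: Pool.Agent.P.MP_dba3d2_lc.D.MvB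
def S_D_BAD : Prop := ∀ (R : RT) (M : Subgroup R.W) (A : Finset R.W) (ι : Type) (S : Sys ι)
  (P : ℝ → R.W) (g : ι → R.W) (a : R.W → ℝ), R.Setup P A S g a → ∀ x ∈ A, ¬R.Cov M x →
  ∃ γ ∈ R.sec a x, ¬R.HGm P M γ

-- deps:
-- imports: Pool.Agent.P.MP_dba3d2_lc.D.MvB
def S_D_STB : Prop := ∀ (R : RT) (e : ℕ), R.Ax e → ∀ (P : ℝ → R.W) (p q : ℝ), p < q →
  R.IsoOn P p q → (∀ u v, p ≤ u → u < v → v ≤ q → ¬R.Per (P u) (P v)) →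
  ∃ p' q', p ≤ p' ∧ q' ≤ q ∧ R.Stb P p' q'

-- deps:
-- imports: Pool.Agent.P.MP_dba3d2_lc.D.MvB
/-- validity and lengths of a deformation given by cuts -/
def S_D_LENS : Prop := ∀ (G : LG) (n : ℝ → G.W) (cut : Gm → G.W),
  (∀ γ : Gm, ∃ r > 0, ∀ s, 0 < s → s ≤ r → (n γ.c)⁻¹ * n (γ.ap s) = cut γ) →
  (∀ (g : G.W) (φ : Gm) (u v : ℝ), u ≤ v → (∀ γ ∈ GI u v, cut (φ * γ) = g * cut γ * g⁻¹) →
    n (φ.ap u) * g * (n u)⁻¹ = n (φ.ap v) * g * (n v)⁻¹) ∧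
  ∀ (f : ℝ → G.W) (p q : ℝ), (∀ s ∈ Icc p q, ∀ t ∈ Icc p q, G.d (f s) (f t) ≤ |s - t|) →
    (∀ (T : Finset Gm) (w : ℝ), 0 ≤ w →
      (∀ γ ∈ GI p q, γ ∈ T → G.d (f γ.c) (cut γ * f γ.c) ≤ w) →
      (∀ γ ∈ GI p q, γ ∉ T → G.d (f γ.c) (cut γ * f γ.c) = 0) →
      ∀ u ∈ Icc p q, ∀ v ∈ Icc p q, G.d (n u * f u) (n v * f v) ≤ |u - v| + T.card * w) ∧
    ∀ (ι : Type) (S : Sys ι) (F : Finset ℝ) (E : Finset Gm) (r : Gm → ℝ), S.Fam (GI p q) F E r →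
      (∀ β, (S.orb β).Finite) → (∀ γ, γ ∉ E → cut γ = 1) →
      (∀ γ ∈ E, G.d (f γ.c) (cut γ * f (γ.ap (r γ))) = 0) →
      ∀ u ∈ F, ∀ v ∈ F, u ∈ Icc p q → v ∈ Icc p q → G.d (n u * f u) (n v * f v) = 0

-- deps:
-- imports: Pool.Agent.P.MP_dba3d2_lc.D.MvB
/-- one letter for each family of finite orbits -/
def S_D_CUT0 : Prop := ∀ (R : LG) (P : ℝ → R.W) (p0 q0 p q : ℝ), R.Stb P p0 q0 → p0 ≤ p → q ≤ q0 →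
  ∀ (ι : Type) (S : Sys ι) (F : Finset ℝ) (E : Finset Gm) (r : Gm → ℝ), S.In (GI p q) →
  S.Arcs (R.arc P p0 q0) → S.Fam (GI p q) F E r →
  ∃ (k : ℕ) (y : Fin k → R.W) (cut : Gm → Monoid.Coprod R.W (FreeGroup (Fin k))),
    (∀ i, 0 < R.ℓ (y i) ∧ ¬R.Per 1 (y i)) ∧ (∀ γ, γ ∉ E → cut γ = 1) ∧
    (∀ γ, Monoid.Coprod.lift (MonoidHom.id _) 1 (cut γ) = 1) ∧
    ∀ (G : LG) (j : R.W →* G.W) (ν : Fin k → G.W), (∀ w, G.ℓ (j w) ≤ R.ℓ w) →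
      (∀ i g, R.Stab 1 (y i) g → Commute (ν i) (j g)) →
      ∀ c : Gm → G.W, (∀ γ, c γ = Monoid.Coprod.lift j (FreeGroup.lift ν) (cut γ)) →
        (∀ γ ∈ GI p q, ∀ β g, S.Rel γ β → R.Mv P γ g β → c β = j g * c γ * (j g)⁻¹) ∧
        ((∀ i, G.ℓ (ν i) = 0) → ∀ γ : Gm, G.d (j (P γ.c)) (c γ * j (P γ.c)) = 0) ∧
        ((∀ i, G.ℓ (ν i * j (y i)) = 0) →
          ∀ γ ∈ E, G.d (j (P γ.c)) (c γ * j (P (γ.ap (r γ)))) = 0)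

-- deps: D_FAM D_LENS D_CUT0
-- imports: Pool.Agent.P.MP_dba3d2_lc.D.MvB
def S_D_GOODFIN : Prop := ∀ (R : LG) (P : ℝ → R.W) (p0 q0 p q : ℝ), R.Stb P p0 q0 → p0 ≤ p →
  q ≤ q0 → ∀ (ι : Type) [Fintype ι] (S : Sys ι), S.In (GI p q) → S.Arcs (R.arc P p0 q0) →
  (∀ β, (S.orb β).Finite) → R.Good1 P S p q

-- deps: D_FAM D_LENS D_CUT0
-- imports: Pool.Agent.P.MP_dba3d2_lc.D.MvB
def S_D_GOODTHIN : Prop := ∀ (R : LG) (P : ℝ → R.W) (p0 q0 p q : ℝ), R.Stb P p0 q0 → p0 ≤ p →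
  q ≤ q0 → ∀ (ι : Type) [Fintype ι] (S : Sys ι), S.In (GI p q) → S.Arcs (R.arc P p0 q0) →
  S.NoMob → S.Thin → R.Good1 P S p q

-- deps:
-- imports: Pool.Agent.P.MP_dba3d2_lc.D.MvB
def S_D_STRIP : Prop := ∀ (R : LG) (P : ℝ → R.W) (p0 q0 p q : ℝ), R.Stb P p0 q0 → p0 ≤ p →
  q ≤ q0 → ∀ (ι : Type) (S : Sys ι), S.In (GI p q) → S.Arcs (R.arc P p0 q0) →
  R.Good1 P S p q → R.GoodR P S.Rel p q

/-- the support of a deformation: it misses the parameters and meets the variables -/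
structure LG.Supp (R : LG) (M : Subgroup R.W) (A : Finset R.W) {k : ℕ} (x : Fin k → R.W)
    {ι : Type} (S : Sys ι) (a : R.W → ℝ) (C : Set Gm) : Prop where
  mem : ∀ i, x i ∈ A
  co : CO C
  inv : S.Inv C
  sub : C ⊆ R.secs a A
  par : ∀ m ∈ A, m ∈ M → Disjoint C (R.sec a m)
  hit : ∃ i, (C ∩ R.sec a (x i)).Nonempty

/-- A mesh `E` whose cells in `C` are moved by `ρ` to a model path `P'`, and the finite set `V` of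
moves in the model that the bands induce. -/
structure LG.Mesh (R : LG) (P P' : ℝ → R.W) (A : Finset R.W) {ι : Type} (S : Sys ι) (g : ι → R.W)
    (a : R.W → ℝ) (C : Set Gm) (E : Finset ℝ) (ρ : ℝ → R.W) (ψ : ℝ → Gm)
    (V : Set (R.W × Gm × ℝ × ℝ)) (F : Finset ℝ) : Prop where
  ends : ∀ w ∈ A, a w ∈ E ∧ a w + R.ℓ w ∈ E
  cell : ∀ s t, Free E s t → GI s t ⊆ C ∨ Disjoint (GI s t) C
  mv : ∀ s ∈ E, ∀ t ∈ E, s < t → Free E s t → GI s t ⊆ C →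
    (∀ x ∈ Icc s t, R.d (ρ s * P x) (P' ((ψ s).ap x)) = 0) ∧ (ψ s).ap s ∈ F ∧ (ψ s).ap t ∈ F
  band : ∀ i u v, u < v → S.dom i = GI u v → ∃ E' : Finset ℝ, ∀ x y, u ≤ x → x < y → y ≤ v →
    (x ∈ E' ∨ x = u) → (y ∈ E' ∨ y = v) → Free E' x y →
    ∃ s ∈ E, ∃ t ∈ E, ∃ s' ∈ E, ∃ t' ∈ E, s < t ∧ Free E s t ∧ s' < t' ∧ Free E s' t' ∧
      x ∈ Icc s t ∧ y ∈ Icc s t ∧ (S.φ i).ap x ∈ Icc s' t' ∧ (S.φ i).ap y ∈ Icc s' t' ∧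
      ((¬GI s t ⊆ C ∧ ¬GI s' t' ⊆ C) ∨ (GI s t ⊆ C ∧ GI s' t' ⊆ C ∧
        (ρ s' * g i * (ρ s)⁻¹, ψ s' * S.φ i * (ψ s)⁻¹, min ((ψ s).ap x) ((ψ s).ap y),
          max ((ψ s).ap x) ((ψ s).ap y)) ∈ V))

-- deps:
-- imports: Pool.Agent.P.MP_dba3d2_lc.D.MvB
def S_D_MESH : Prop := ∀ (R : LG) (A : Finset R.W) (ι : Type) [Fintype ι] (S : Sys ι)
  (P : ℝ → R.W) (g : ι → R.W) (a : R.W → ℝ) (C : Set Gm), R.Setup P A S g a → CO C → S.Inv C →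
  ∀ (P' : ℝ → R.W) (J : Set ℝ) (Hm Rn : Gm → Gm → Prop),
  (∀ γ ∈ C, ∃ (ρ : R.W) (ψ : Gm), ∃ r > 0, (∀ s ∈ Icc 0 r,
    R.d (ρ * P (γ.ap s)) (P' (ψ.ap (γ.ap s))) = 0 ∧ ψ.ap (γ.ap s) ∈ J) ∧
    ∀ β ∈ seg γ r, Hm β (ψ * β)) →
  (∀ γ γ' β β', S.Step γ γ' → Hm γ β → Hm γ' β' → Rn β β') →
  ∃ E ρ ψ V F, R.Mesh P P' A S g a C E ρ ψ V F ∧ V.Finite ∧ (∀ t ∈ F, t ∈ J) ∧
    ∀ h φ u v, (h, φ, u, v) ∈ V → u < v ∧ (∀ t ∈ Icc u v, t ∈ J ∧ φ.ap t ∈ J) ∧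
      R.Rl P' h φ u v ∧ ∀ β ∈ GI u v, Rn β (φ * β)

-- deps:
-- imports: Pool.Agent.P.MP_dba3d2_lc.D.MvB
/-- pull back of a deformation of the model -/
def S_D_PBG : Prop := ∀ (R : LG) (M : Subgroup R.W) (A : Finset R.W) (k : ℕ) (x : Fin k → R.W)
  (ι : Type) (S : Sys ι) (P P' : ℝ → R.W) (g : ι → R.W) (a : R.W → ℝ) (C : Set Gm) (E : Finset ℝ)
  (ρ : ℝ → R.W) (ψ : ℝ → Gm) (V : Set (R.W × Gm × ℝ × ℝ)) (F : Finset ℝ),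
  R.Setup P A S g a → R.Supp M A x S a C → R.Mesh P P' A S g a C E ρ ψ V F →
  ∃ (n₀ : ℕ) (c : ℝ), 0 < c ∧ ∀ (H : Type) [Group H] (inl : R.W →* H) (N : ℝ → H),
    ∃ io : R.W → H,
      (∀ π : H →* R.W, (∀ w, π (inl w) = w) → (∀ t, π (N t) = 1) → ∀ w ∈ A, π (io w) = w) ∧
      ∀ (G : LG) (lam : H →* G.W), (∀ w, G.ℓ (lam (inl w)) ≤ R.ℓ w) →
        (∀ h φ u v, (h, φ, u, v) ∈ V → lam (N (φ.ap u)) * lam (inl h) * (lam (N u))⁻¹ =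
          lam (N (φ.ap v)) * lam (inl h) * (lam (N v))⁻¹) →
        PHom A M (fun w => lam (inl w)) (fun w => lam (io w)) ∧
        (∀ η, 0 ≤ η → (∀ u ∈ F, ∀ v ∈ F, G.d (lam (N u) * lam (inl (P' u)))
            (lam (N v) * lam (inl (P' v))) ≤ |u - v| + η) →
          ∀ w ∈ A, G.ℓ (lam (io w)) ≤ R.ℓ w + n₀ * η) ∧
        ∀ η, 0 ≤ η → (∀ u ∈ F, ∀ v ∈ F, G.d (lam (N u) * lam (inl (P' u)))
            (lam (N v) * lam (inl (P' v))) ≤ η) →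
          ∑ i, G.ℓ (lam (io (x i))) ≤ ∑ i, R.ℓ (x i) - c + n₀ * η

-- deps: D_MESH D_PBG
-- imports: Pool.Agent.P.MP_dba3d2_lc.D.MvB
def S_D_PB1 : Prop := ∀ (R : LG) (M : Subgroup R.W) (A : Finset R.W) (k : ℕ) (x : Fin k → R.W)
  (ι : Type) [Fintype ι] (S : Sys ι) (P : ℝ → R.W) (g : ι → R.W) (a : R.W → ℝ) (C : Set Gm),
  R.Setup P A S g a → R.Supp M A x S a C → ∀ (p q : ℝ) (Rn : Gm → Gm → Prop),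
  (∀ γ ∈ C, ∃ β ∈ GI p q, S.Rel γ β) → (∀ β ∈ GI p q, ∀ β' ∈ GI p q, S.Rel β β' → Rn β β') →
  R.GoodR P Rn p q → Out1 R M A x

-- deps: D_MESH D_PBG
-- imports: Pool.Agent.P.MP_dba3d2_lc.D.MvB
def S_D_PB2 : Prop := ∀ (R : RT) (e : ℕ), R.Ax e → ∀ (M : Subgroup R.W) (A : Finset R.W) (k : ℕ)
  (x : Fin k → R.W) (ι : Type) [Fintype ι] (S : Sys ι) (P : ℝ → R.W) (g : ι → R.W) (a : R.W → ℝ)
  (C : Set Gm), R.Setup P A S g a → R.Supp M A x S a C → ∀ u v : ℝ, u < v → R.IsoOn P u v →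
  R.Per (P u) (P v) → (∀ γ ∈ C, ∃ β ∈ GI u v, S.Rel γ β) → Out2 R.toLG M A x

-- deps: D_STB D_GOODFIN D_STRIP D_PB1 D_PB2
-- imports: Pool.Agent.P.MP_dba3d2_lc.D.MvB
/-- the bad germ has a finite orbit -/
def S_D_CASEF : Prop := ∀ (R : RT) (e : ℕ), R.Ax e → ∀ (M : Subgroup R.W) (A : Finset R.W) (k : ℕ)
  (x : Fin k → R.W) (ι : Type) [Fintype ι] (S : Sys ι) (P : ℝ → R.W) (g : ι → R.W) (a : R.W → ℝ),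
  R.Setup P A S g a → (∀ i, x i ∈ A) → ∀ i, ∀ γ ∈ R.sec a (x i), ¬R.HGm P M γ →
  (S.orb γ).Finite → Out1 R.toLG M A x ∨ Out2 R.toLG M A x

end Pool.Agent.P.MP_dba3d2_lc
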