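import Pool.Agent.P.MP_dba3d2_lc.D.PgB

/-! Chapter D toolbox: line systems. -/

namespace Pool.Agent.P.MP_dba3d2_lc

open Set Filter Topology

variable {A : Gm → ℝ → ℝ → Prop} {α β γ δ φ : Gm} {u v r : ℝ}

@[simp] theorem fl_fl (y : Gm × Bool) : fl (fl y) = y := by simp [fl]
@[simp] theorem fl_fst (y : Gm × Bool) : (fl y).1 = y.1 := rfl
@[simp] theorem fl_snd (y : Gm × Bool) : (fl y).2 = !y.2 := rfl

namespace LS

variable {X U : Set Gm} (L : LS X) {y : Gm × Bool} {m n : ℤ}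

theorem inv_apply (y : Gm × Bool) : L.f⁻¹ y = fl (L.f (fl y)) := by
  rw [Equiv.Perm.inv_eq_iff_eq, L.rev, fl_fl]
theorem zpow_fl (n : ℤ) (y : Gm × Bool) : (L.f ^ n) (fl y) = fl ((L.f ^ (-n)) y) := by
  have h : SemiconjBy (Function.Involutive.toPerm fl fl_fl) L.f⁻¹ L.f :=
    Equiv.ext fun y => (congrArg fl (L.inv_apply y)).trans (fl_fl _)
  have k := Equiv.congr_fun (h.zpow_right n).eq y
  rw [inv_zpow'] at k
  exact k.symm
theorem zpow_add (m n : ℤ) (y : Gm × Bool) : (L.f ^ (m + n)) y = (L.f ^ m) ((L.f ^ n) y) := by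
  rw [_root_.zpow_add, Equiv.Perm.mul_apply]
@[simp] theorem at_zero (y : Gm × Bool) : L.at' y 0 = y.1 := by
  simp [at']
theorem at_one (y : Gm × Bool) : L.at' y 1 = (L.f y).1 := by
  simp [at']
theorem at_nat (y : Gm × Bool) (k : ℕ) : L.at' y k = ((L.f ^ k) y).1 := by
  rw [at', zpow_natCast]
theorem at_fl (y : Gm × Bool) (n : ℤ) : L.at' (fl y) n = L.at' y (-n) := by
  rw [at', zpow_fl, fl_fst, at']
theorem at_add (y : Gm × Bool) (m n : ℤ) : L.at' ((L.f ^ n) y) m = L.at' y (m + n) := by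
  rw [at', at', zpow_add]
theorem LsBA.succ (y : Gm × Bool) (n : ℤ) : (L.f ^ (n + 1)) y = L.f ((L.f ^ n) y) := by
  rw [add_comm, zpow_add, zpow_one]
theorem LsBA.pred (y : Gm × Bool) (n : ℤ) : (L.f ^ (n - 1)) y = L.f⁻¹ ((L.f ^ n) y) := by
  rw [sub_eq_neg_add, zpow_add, zpow_neg_one]
theorem LsBA.ind {Q : Gm → Prop} (h0 : Q y.1) (h1 : ∀ z : Gm × Bool, Q z.1 → Q (L.f z).1)
    (n : ℤ) : Q (L.at' y n) := by
  induction n using Int.induction_on with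
  | zero => rwa [at_zero]
  | succ i ih =>
    rw [at', LsBA.succ]
    exact h1 _ ih
  | pred i ih =>
    rw [at', LsBA.pred, inv_apply]
    exact h1 (fl _) ih
theorem at_mem (h : y.1 ∈ X) (n : ℤ) : L.at' y n ∈ X :=
  LsBA.ind L (Q := (· ∈ X)) h (fun z k => (L.mem z).2 k) n
theorem at_inj (h : y.1 ∈ X) (e : L.at' y m = L.at' y n) : m = n := L.inj y h e
theorem rel_iff (e : Bool) : L.Rel γ β ↔ ∃ n, L.at' (γ, e) n = β := by
  cases e
  · exact ⟨fun ⟨n, h⟩ => ⟨-n, (L.at_fl (γ, true) (-n)).trans (by rwa [neg_neg])⟩,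
      fun ⟨n, h⟩ => ⟨-n, (L.at_fl (γ, true) n).symm.trans h⟩⟩
  · rfl
theorem rel_at (y : Gm × Bool) (m n : ℤ) : L.Rel (L.at' y m) (L.at' y n) :=
  (L.rel_iff ((L.f ^ m) y).2).2 ⟨n - m, (L.at_add y (n - m) m).trans (by rw [sub_add_cancel])⟩
theorem rel_refl (γ : Gm) : L.Rel γ γ :=
  ⟨0, L.at_zero _⟩
theorem Rel.symm {L : LS X} (h : L.Rel γ β) : L.Rel β γ := by
  obtain ⟨n, rfl⟩ := h
  simpa using L.rel_at (γ, true) n 0
theorem Rel.trans {L : LS X} (h : L.Rel α β) (k : L.Rel β γ) : L.Rel α γ := by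
  obtain ⟨n, rfl⟩ := h
  obtain ⟨m, rfl⟩ := (L.rel_iff ((L.f ^ n) (α, true)).2).1 k
  exact ⟨m + n, (L.at_add (α, true) m n).symm⟩
theorem Rel.mem {L : LS X} (h : L.Rel γ β) (k : γ ∈ X) : β ∈ X := by
  obtain ⟨n, rfl⟩ := h
  exact L.at_mem k n
theorem LsBA.loc1 (h : y.1 ∈ X) :
    ∀ᶠ δ in 𝓝 (1 : Gm), L.f (y.1 * δ, y.2) = ((L.f y).1 * δ, (L.f y).2) :=
  eventually_gm'.2 ⟨by simp, by simpa using L.loc y h⟩
/-- iterates are locally left multiplications -/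
theorem zpow_eventually (h : y.1 ∈ X) (n : ℤ) : ∃ r > 0, ∀ δ ∈ GI 0 r, y.1 * δ ∈ X ∧
    (L.f ^ n) (y.1 * δ, y.2) = (((L.f ^ n) y).1 * δ, ((L.f ^ n) y).2) := by
  have k : ∀ᶠ δ in 𝓝 (1 : Gm),
      (L.f ^ n) (y.1 * δ, y.2) = (((L.f ^ n) y).1 * δ, ((L.f ^ n) y).2) := by
    induction n using Int.induction_on with
    | zero => simp
    | succ i ih =>
      filter_upwards [ih, LsBA.loc1 L (y := (L.f ^ (i : ℤ)) y) (L.at_mem h i)] with δ a b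
      rw [LsBA.succ, LsBA.succ, a, b]
    | pred i ih =>
      filter_upwards [ih, LsBA.loc1 L (y := fl ((L.f ^ (-i : ℤ)) y)) (L.at_mem h (-i))] with δ a b
      rw [LsBA.pred, LsBA.pred, a, inv_apply, inv_apply]
      exact congrArg fl b
  have k' : ∀ᶠ δ in 𝓝 (1 : Gm), y.1 * δ ∈ X :=
    (L.co.2.preimage (continuous_gm_mul y.1)).mem_nhds (by simpa using h)
  simpa using eventually_gm.1 (k'.and k)
/-- half leaves visit every open set with bounded gaps -/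
theorem exists_visit (hU : IsOpen U) (hne : (U ∩ X).Nonempty) :
    ∃ B : ℕ, ∀ y : Gm × Bool, y.1 ∈ X → ∃ n : ℕ, 0 < n ∧ n ≤ B ∧ L.at' y n ∈ U := by
  obtain ⟨B, hB⟩ := L.co.exists_bound
    (p := fun B γ => ∃ n : ℤ, |n| ≤ B ∧ L.at' (γ, true) n ∈ U)
    (fun a b γ h ⟨n, h1, h2⟩ => ⟨n, h1.trans (by exact_mod_cast h), h2⟩) fun γ hγ => by
      obtain ⟨x, h1, h2⟩ := hne
      obtain ⟨_, h3, n, rfl⟩ := mem_closure_iff.1 (L.den γ hγ h2) U hU h1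
      obtain ⟨r, r0, hr⟩ := L.zpow_eventually (y := (γ, true)) hγ n
      obtain ⟨s, s0, hs⟩ := eventually_gm.1 (hU.mem_nhds h3)
      refine ⟨n.natAbs, eventually_gm.2 ⟨min r s, lt_min r0 s0, fun δ hδ => ⟨n, by simp, ?_⟩⟩⟩
      rw [at', (hr δ (GI_mono le_rfl (min_le_left _ _) hδ)).2]
      exact hs δ (GI_mono le_rfl (min_le_right _ _) hδ)
  refine ⟨2 * B + 1, fun y hy => ?_⟩
  obtain ⟨n, h1, h2⟩ : ∃ n : ℤ, |n| ≤ B ∧ L.at' ((L.f ^ (B + 1 : ℤ)) y) n ∈ U := by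
    have := hB _ (L.at_mem hy (B + 1))
    rw [at'] at this
    generalize (L.f ^ (B + 1 : ℤ)) y = z at this ⊢
    obtain ⟨n, h1, h2⟩ := this
    obtain ⟨γ, _ | _⟩ := z
    · exact ⟨-n, by rwa [abs_neg], L.at_fl (γ, false) n ▸ h2⟩
    · exact ⟨n, h1, h2⟩
  rw [at_add] at h2
  rw [abs_le] at h1
  refine ⟨(n + (B + 1)).toNat, by omega, by omega, ?_⟩
  rwa [Int.toNat_of_nonneg (by omega)]
theorem countable_leaf (γ : Gm) : {β | L.Rel γ β}.Countable :=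
  countable_range (L.at' (γ, true))
/-- the steps of a line system form a finite system -/
theorem exists_sys : ∃ (κ : Type) (_ : Fintype κ) (ψ : κ → Gm) (W : κ → Set Gm),
    (∀ k, CO (W k) ∧ W k ⊆ X ∧ ∀ γ ∈ W k, ∃ e, (L.f (γ, e)).1 = ψ k * γ) ∧
    ∀ y : Gm × Bool, y.1 ∈ X → ∃ k, y.1 ∈ W k ∧ (L.f y).1 = ψ k * y.1 := by
  have h1 : ∀ e, ∀ γ ∈ X, ∀ᶠ β in 𝓝 γ, (L.f (β, e)).1 * β⁻¹ = (L.f (γ, e)).1 * γ⁻¹ :=
    fun e γ hγ => by
      obtain ⟨r, r0, hr⟩ := L.loc (γ, e) hγ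
      exact eventually_gm'.2 ⟨rfl, r, r0, fun δ a b => by rw [hr δ a b]; group⟩
  have h2 : {k : Gm × Bool | k.1 ∈ (fun γ => (L.f (γ, k.2)).1 * γ⁻¹) '' X}.Finite :=
    (((L.co.finite_image (h1 true)).union (L.co.finite_image (h1 false))).prod
      (finite_univ (α := Bool))).subset fun k hk => by
        obtain ⟨a, _ | _⟩ := k
        exacts [⟨Or.inr hk, trivial⟩, ⟨Or.inl hk, trivial⟩]
  refine ⟨_, h2.fintype, fun k => k.1.1, fun k => {γ | γ ∈ X ∧ (L.f (γ, k.1.2)).1 * γ⁻¹ = k.1.1},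
    fun k => ⟨L.co.sep fun γ hγ => (h1 _ γ hγ).mono fun β e => by rw [e], fun γ h => h.1,
      fun γ h => ⟨_, eq_mul_of_mul_inv_eq h.2⟩⟩, fun y hy => ?_⟩
  exact ⟨⟨((L.f y).1 * y.1⁻¹, y.2), y.1, hy, rfl⟩, ⟨hy, rfl⟩, (inv_mul_cancel_right _ _).symm⟩
/-- a system that contains the steps relates the germs of a leaf -/
theorem rel_sys {ι : Type} {S : Sys ι} (h : ∀ y : Gm × Bool, y.1 ∈ X → S.Rel y.1 (L.f y).1)
    (hγ : γ ∈ X) (k : L.Rel γ β) : S.Rel γ β := by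
  obtain ⟨n, rfl⟩ := k
  exact (LsBA.ind L (Q := fun β => β ∈ X ∧ S.Rel γ β) ⟨hγ, Sys.Rel.refl S γ⟩
    (fun z k => ⟨(L.mem z).2 k.1, k.2.trans (h z k.1)⟩) n).2
theorem Weak.rw {L : LS X} (P : PG A) (h : L.Weak A) (hγ : γ ∈ X) (k : L.Rel γ β) : RW A γ β := by
  obtain ⟨n, rfl⟩ := k
  exact (LsBA.ind L (Q := fun β => β ∈ X ∧ RW A γ β)
    ⟨hγ, P.rw_trans (h (γ, true) hγ) (P.rw_symm (h (γ, true) hγ))⟩
    (fun z k => ⟨(L.mem z).2 k.1, P.rw_trans k.2 (h z k.1)⟩) n).2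
theorem LsBA.rel_nat (y : Gm × Bool) (k : ℕ) : L.Rel y.1 ((L.f ^ k) y).1 := by
  simpa [at_nat] using L.rel_at y 0 k
theorem LsBA.rel_f (y : Gm × Bool) : L.Rel y.1 (L.f y).1 := by
  simpa using LsBA.rel_nat L y 1
theorem Sat.weak {L : LS X} (h : L.Sat A) : L.Weak A := fun y hy =>
  (h _ hy _ ((L.mem y).2 hy)).1 (LsBA.rel_f L y)
/-- only finitely many steps are one sided -/
theorem Weak.finite_sing {L : LS X} (h : L.Weak A) :
    {y : Gm × Bool | y.1 ∈ X ∧ ¬RW2 A y.1 (L.f y).1}.Finite := by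
  have k : ∀ e, {γ | γ ∈ X ∧ ¬RW2 A γ (L.f (γ, e)).1}.Finite := fun e =>
    L.co.finite_of_isolated fun γ hγ => by
      obtain ⟨r, r0, hr⟩ := L.loc (γ, e) hγ
      obtain ⟨s, s0, hs⟩ := (h (γ, e) hγ).rw2
      refine ⟨min r s, lt_min r0 s0, fun δ a b => not_not.2 ?_⟩
      rw [hr δ a (b.trans_le (min_le_left _ _))]
      exact hs δ a (b.trans_le (min_le_right _ _))
  refine (((k true).union (k false)).prod (finite_univ (α := Bool))).subset fun y hy => ?_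
  obtain ⟨a, _ | _⟩ := y
  exacts [⟨Or.inr hy, trivial⟩, ⟨Or.inl hy, trivial⟩]
/-- a stretch of two sided steps is two sided -/
theorem rw2_stretch (P : PG A) (hmn : m < n)
    (h : ∀ k, m ≤ k → k < n → RW2 A ((L.f ^ k) y).1 (L.f ((L.f ^ k) y)).1) :
    RW2 A (L.at' y m) (L.at' y n) := by
  have k : ∀ j, m ≤ j → j < n → RW2 A (L.at' y j) (L.at' y (j + 1)) := fun j a b => by
    rw [at', at', LsBA.succ]
    exact h j a b
  clear h
  induction n, hmn using Int.leInduction with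
  | base => exact k m le_rfl (by omega)
  | succ n hn ih =>
    exact P.rw2_trans (ih fun j a b => k j a (by omega)) (k n (by omega) (by omega))
theorem IsRet.rel {X0 : Set Gm} {L0 : LS X0} {L : LS X} (h : L.IsRet L0) (hγ : γ ∈ X) (hβ : β ∈ X) :
    L.Rel γ β ↔ L0.Rel γ β := by
  constructor
  · rintro ⟨n, rfl⟩
    refine (LsBA.ind L (Q := fun β => β ∈ X ∧ L0.Rel γ β) ⟨hγ, L0.rel_refl γ⟩
      (fun z k => ⟨(L.mem z).2 k.1, k.2.trans ?_⟩) n).2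
    obtain ⟨r, -, e, -⟩ := h.2 z k.1
    exact e ▸ LsBA.rel_nat L0 z r
  have k : ∀ (n : ℕ) (y : Gm × Bool), y.1 ∈ X → ((L0.f ^ n) y).1 ∈ X →
      L.Rel y.1 ((L0.f ^ n) y).1 := by
    intro n
    induction n using Nat.strong_induction_on with
    | _ n ih =>
      intro y hy hn
      rcases Nat.eq_zero_or_pos n with rfl | n0
      · exact L.rel_refl _
      obtain ⟨r, r0, e, hr⟩ := h.2 y hy
      obtain ⟨j, rfl⟩ := Nat.exists_eq_add_of_le' (not_lt.1 fun c => hr n n0 c hn)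
      rw [pow_add, Equiv.Perm.mul_apply, ← e] at hn ⊢
      exact (LsBA.rel_f L y).trans (ih j (by omega) _ ((L.mem y).2 hy) hn)
  rintro ⟨n, rfl⟩
  obtain ⟨j, rfl | rfl⟩ := n.eq_nat_or_neg
  · rw [at_nat] at hβ ⊢
    exact k j (γ, true) hγ hβ
  · rw [← at_fl, at_nat] at hβ ⊢
    exact k j (fl (γ, true)) hγ hβ
theorem IsRet.weak {X0 : Set Gm} {L0 : LS X0} {L : LS X} (P : PG A) (h : L.IsRet L0)
    (k : L0.Weak A) : L.Weak A := fun y hy =>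
  k.rw P (h.1 hy) ((h.rel hy ((L.mem y).2 hy)).1 (LsBA.rel_f L y))
theorem IsRet.sat {X0 : Set Gm} {L0 : LS X0} {L : LS X} (h : L.IsRet L0) (k : L0.Sat A) :
    L.Sat A := fun γ hγ β hβ =>
  (h.rel hγ hβ).trans (k γ (h.1 hγ) β (h.1 hβ))

end LS

end Pool.Agent.P.MP_dba3d2_lc
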