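import Pool.Agent.P.MP_dba3d2_lc.D.Iface4
import Pool.Agent.P.MP_dba3d2_lc.D.Iface2
import Pool.Agent.P.MP_dba3d2_lc.D.Iface3
import Pool.Agent.P.MP_dba3d2_lc.D.T0B
import Pool.Agent.P.MP_dba3d2_lc.D.LsB

/-! Step D_CASEI of the stability project. -/

namespace Pool.Agent.P.MP_dba3d2_lc

open Set Filter Topology

theorem p_D_CASEI (hD_MINC : S_D_MINC) (hD_STB : S_D_STB) (hD_INDUCE : S_D_INDUCE) (hD_SAT : S_D_SAT) (hD_GOODTHIN : S_D_GOODTHIN) (hD_STRIP : S_D_STRIP) (hD_PB1 : S_D_PB1) (hD_PB2 : S_D_PB2) (hD_TYPE : S_D_TYPE) (hD_OUT3 : S_D_OUT3) :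
    S_D_CASEI := by
  intro R e ax M A k x ι _ S P g a H hx i γ hγ hn hi
  have hm := (hD_MINC ι S).2 γ hi
  have hγC : γ ∈ closure (S.orb γ) := subset_closure (Sys.Rel.refl S γ)
  have hsub : closure (S.orb γ) ⊆ R.secs a A :=
    closure_minimal (fun β hβ => Sys.Rel.mem hβ H.in'.inv ⟨x i, hx i, hγ⟩)
      (LG.Setup.co_secs _ a A).isClosed
  generalize closure (S.orb γ) = C at hm hγC hsub
  have nh : ∀ β ∈ C, ¬R.HGm P M β := fun β hβ k => by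
    obtain ⟨w, hw, h1⟩ := hsub hβ
    have ev := LG.HGm.eventually (H.iso w hw) h1 k
    obtain ⟨β', ⟨h2, -⟩, h3⟩ := hm.reach (U := interior {α | R.HGm P M α}) isOpen_interior
      ⟨β, mem_interior_iff_mem_nhds.2 ev, hβ⟩ hγC
    obtain ⟨g', h4⟩ := H.mv_of_rel h3.symm
    exact hn (LG.HGm.mv (interior_subset (s := {α | R.HGm P M α}) h2) h4)
  have sp : R.Supp M A x S a C :=
    ⟨hx, hm.co, hm.inv, hsub, fun m h1 h2 =>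
      disjoint_left.2 fun β hβ h3 => nh β hβ (H.hgm_of_mem h1 h2 h3), i, γ, hγC, hγ⟩
  have rc : ∀ p q, p < q → GI p q ⊆ C → ∀ α ∈ C, ∃ β ∈ GI p q, S.Rel α β := fun p q h1 h2 α hα =>
    let ⟨β, h3⟩ := GI_nonempty.2 h1
    let ⟨β', h4, h5⟩ := hm.reach isOpen_GI ⟨β, h3, h2 h3⟩ hα
    ⟨β', h4.1, h5⟩
  obtain ⟨u, v, huv, hI⟩ := exists_GI_subset (hm.co.2.inter (LG.Setup.co_sec _ a (x i)).2)
    ⟨γ, hγC, hγ⟩
  have hC : ∀ p q, u ≤ p → q ≤ v → GI p q ⊆ C := fun p q h1 h2 β hβ => (hI (GI_mono h1 h2 hβ)).1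
  have hb := (GI_subset_iff huv).1 fun β hβ => (hI hβ).2
  have iso : R.IsoOn P u v := (H.iso _ (hx i)).mono hb.1 hb.2
  by_cases hp : ∃ s t, u ≤ s ∧ s < t ∧ t ≤ v ∧ R.Per (P s) (P t)
  · obtain ⟨s, t, h1, h2, h3, h4⟩ := hp
    exact Or.inr (Or.inl (hD_PB2 R e ax M A k x ι S P g a C H sp s t h2 (iso.mono h1 h3) h4
      (rc s t h2 (hC s t h1 h3))))
  obtain ⟨p, q, hp1, hq1, st⟩ := hD_STB R e ax P u v huv iso
    fun s t h1 h2 h3 h4 => hp ⟨s, t, h1, h2, h3, h4⟩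
  obtain ⟨κ, _, T, t1, t2, t3⟩ := hD_INDUCE ι S C (GI p q) hm.co hm.inv co_GI (hC p q hp1 hq1)
    (rc p q st.lt (hC p q hp1 hq1))
  have tm := hm.of_rel co_GI (GI_nonempty.2 st.lt) (hC p q hp1 hq1) t1 t3
  have tw : T.Weak (R.arc P p q) := fun j β hβ =>
    LG.rw_arc_iff.2 ⟨t1 j hβ, t1 _ (T.map j β hβ), H.mv_of_rel (t2 _ _ ⟨j, hβ, rfl⟩)⟩
  obtain ⟨p', q', a1, a2, a3, ⟨κ', _, T', b1, b2, b3, b4, b5⟩ | ⟨L, hL⟩⟩ :=
    hD_SAT _ st.pg κ T p q t1 tm tw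
  · exact Or.inl (hD_PB1 _ M A k x ι S P g a C H sp p' q' T'.Rel
      (rc p' q' a2 (hC _ _ (hp1.trans a1) (a3.trans hq1)))
      (fun β h1 β' h2 h3 => b5 β h1 β' h2 (t3 β (GI_mono a1 a3 h1) β' (GI_mono a1 a3 h2) h3))
      (hD_STRIP _ P p q p' q' st a1 a3 κ' T' b1 b2
        (hD_GOODTHIN _ P p q p' q' st a1 a3 κ' T' b1 b2 b3 b4)))
  · obtain ⟨s, t, c1, c2, c3, -, c4⟩ := hD_TYPE R P p q st _ L hL
    have hs := hC s t (hp1.trans c1) (c3.trans hq1)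
    exact Or.inr (Or.inr (hD_OUT3 R M A k x ι S P g a s t H hx (st.iso.mono c1 c3)
      (fun s' t' h1 h2 h3 => st.np s' t' (c1.trans h1) h2 (h3.trans c3)) (fun β hβ => nh β (hs hβ))
      ⟨i, γ, hγ, hi, rc s t c2 hs γ hγC⟩ c4))

end Pool.Agent.P.MP_dba3d2_lc
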