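import Pool.Agent.P.MP_dba3d2_lc.D.Iface4
import Pool.Agent.P.MP_dba3d2_lc.D.MvB
import Pool.Agent.P.MP_dba3d2_lc.D.LsB

/-! Step D_CODE of the stability project. -/

namespace Pool.Agent.P.MP_dba3d2_lc

open Set Filter Topology

namespace D_codeA

/-- `g` moves a two sided germ at `w` to a two sided germ at `t` -/
def Bi (R : LG) (P : ℝ → R.W) (g : R.W) (w t : ℝ) : Prop :=
  ∃ α β : Gm, α.c = w ∧ β.c = t ∧ R.Mv P α g β ∧ R.Mv P α.opp g β.opp

variable {R : LG} {P : ℝ → R.W} {p q : ℝ} {Ω : Finset ℝ} {c : ℕ}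

theorem Bi.symm {g : R.W} {w t : ℝ} (h : Bi R P g w t) : Bi R P g⁻¹ t w := by
  obtain ⟨α, β, h1, h2, h3, h4⟩ := h
  exact ⟨β, α, h2, h1, h3.symm, h4.symm⟩

theorem Bi.left {g : R.W} {w t : ℝ} (h : Bi R P g w t) {γ : Gm} (hγ : γ.c = w) :
    ∃ β : Gm, β.c = t ∧ R.Mv P γ g β ∧ R.Mv P γ.opp g β.opp := by
  obtain ⟨α, β, h1, h2, h3, h4⟩ := h
  rcases Gm.eq_or_opp (γ := α) (β := γ) (hγ.trans h1.symm) with e | e
  · exact ⟨β, h2, e ▸ h3, e ▸ h4⟩
  · refine ⟨β.opp, by simpa using h2, e ▸ h4, ?_⟩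
    rw [e, Gm.opp_opp, Gm.opp_opp]
    exact h3

theorem Bi.trans {g g' : R.W} {w t u : ℝ} (h : Bi R P g w t) (h' : Bi R P g' t u) :
    Bi R P (g' * g) w u := by
  obtain ⟨α, β, h1, h2, h3, h4⟩ := h
  obtain ⟨γ, k1, k2, k3⟩ := h'.left h2
  exact ⟨α, γ, h1, k1, h3.trans k2, h4.trans k3⟩

/-- the moves between germs over `Ω` -/
def Lam (R : LG) (P : ℝ → R.W) (p q : ℝ) (Ω : Finset ℝ) : Set R.W :=
  {l | ∃ α α' : Gm, α.c ∈ Ω ∧ p < α.c ∧ α.c < q ∧ α'.c ∈ Ω ∧ R.Mv P α l α'}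

theorem lam_finite (S : R.Stb P p q) (Ω : Finset ℝ) : (Lam R P p q Ω).Finite := by
  have h1 : {γ : Gm | γ.c ∈ (Ω : Set ℝ)}.Finite := Gm.finite_over Ω.finite_toSet
  have h2 : {γ : Gm | γ.c ∈ (Ω : Set ℝ) ∧ p < γ.c ∧ γ.c < q}.Finite := h1.subset fun γ h => h.1
  refine (h2.biUnion fun α hα => h1.biUnion fun α' _ =>
    S.finite_mv (mem_GI_of_Ioo hα.2.1 hα.2.2) α').subset ?_
  rintro l ⟨α, α', a1, a2, a3, a4, a5⟩
  simp only [mem_iUnion]
  exact ⟨α, ⟨a1, a2, a3⟩, α', a4, a5⟩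

/-- a stage with an enumeration of its special states -/
structure En (R : LG) (P : ℝ → R.W) (p q : ℝ) (Ω : Finset ℝ) (c : ℕ) (I : Type) where
  T : Stg R P p q Ω c
  e : I → Gm × Bool
  mem : ∀ i, e i ∈ T.L.DS T.V
  sur : ∀ y ∈ T.L.DS T.V, ∃ i, e i = y

theorem exists_en (T : Stg R P p q Ω c) :
    ∃ E : En R P p q Ω c (Fin c × Bool × Bool), E.T = T := by
  classical
  obtain ⟨γ0, h0⟩ := T.L.ne
  obtain ⟨y0, hy0, -⟩ := T.cov (γ0, true) h0
  obtain ⟨j⟩ : Nonempty (T.V ↪ Fin c) :=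
    Function.Embedding.nonempty_of_card_le (by simpa using T.card)
  let v : Fin c → ℝ := Function.extend j (fun t => (t : ℝ)) fun _ => 0
  have hv : ∀ t : T.V, v (j t) = t := fun t => j.injective.extend_apply _ _ t
  let d : Fin c × Bool × Bool → Gm × Bool := fun i =>
    (if i.2.1 then Gm.tau (v i.1) else (Gm.tau (v i.1)).opp, i.2.2)
  refine ⟨⟨T, fun i => if d i ∈ T.L.DS T.V then d i else y0, fun i => ?_, fun y hy => ?_⟩, rfl⟩
  · split_ifs with h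
    · exact h
    · exact hy0
  · have k : ∃ i, d i = y := by
      rcases Gm.eq_or_opp (γ := Gm.tau y.1.c) (β := y.1) rfl with e | e
      · refine ⟨(j ⟨_, hy.2.1⟩, true, y.2), Prod.ext ?_ rfl⟩
        simp only [d, hv, if_true]
        exact e.symm
      · refine ⟨(j ⟨_, hy.2.1⟩, false, y.2), Prod.ext ?_ rfl⟩
        simp only [d, hv, Bool.false_eq_true, if_false]
        exact e.symm
    obtain ⟨i, hi⟩ := k
    exact ⟨i, by rw [hi, if_pos hy]⟩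

namespace En

variable {I : Type} (E E' : En R P p q Ω c I)

/-- source point -/
def a (i : I) : ℝ := (E.e i).1.c
/-- target point -/
def b (i : I) : ℝ := (E.T.L.f (E.e i)).1.c
/-- `g` is a mover of the state `i` -/
def M (i : I) (g : R.W) : Prop := R.Mv P (E.e i).1 g (E.T.L.f (E.e i)).1
/-- the element with the label `l` -/
def w (i : I) (l : R.W) : R.W := E.T.s (E.b i) * l * (E.T.s (E.a i))⁻¹
/-- the label of `g` -/
def lab (i : I) (g : R.W) : R.W := (E.T.s (E.b i))⁻¹ * g * E.T.s (E.a i)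
/-- anchors -/
def An (i : I) (x : ℝ) : Prop := p < x ∧ x < q ∧ Bi R P (E.T.s (E.a i)) x (E.a i)

theorem w_lab (i : I) (g : R.W) : E.w i (E.lab i g) = g := by
  simp only [w, lab]
  group
theorem lab_w (i : I) (l : R.W) : E.lab i (E.w i l) = l := by
  simp only [w, lab]
  group
theorem a_mem (i : I) : E.a i ∈ E.T.V := (E.mem i).2.1
theorem b_mem (i : I) : E.b i ∈ E.T.V := (E.mem i).2.2
theorem exists_a {t : ℝ} (ht : t ∈ E.T.V) : ∃ i, E.a i = t := by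
  obtain ⟨y, h1, h2⟩ := E.T.src t ht
  obtain ⟨i, rfl⟩ := E.sur y h1
  exact ⟨i, h2⟩
theorem anc {t : ℝ} (ht : t ∈ E.T.V) : ∃ x ∈ Ω, p < x ∧ x < q ∧ Bi R P (E.T.s t) x t := by
  obtain ⟨α, β, h1, h2, h3, h4, h5, h6⟩ := E.T.anc t ht
  exact ⟨α.c, h1, h2, h3, α, β, rfl, h4, h5, h6⟩
theorem lab_mem {i : I} {g : R.W} (h : E.M i g) : E.lab i g ∈ Lam R P p q Ω := by
  obtain ⟨x, h1, h2, h3, h4⟩ := E.anc (E.a_mem i)
  obtain ⟨x', k1, -, -, k4⟩ := E.anc (E.b_mem i)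
  obtain ⟨α, e1, e2, -⟩ := h4.symm.left (γ := (E.e i).1) rfl
  obtain ⟨α', f1, f2, -⟩ := k4.symm.left (γ := (E.T.L.f (E.e i)).1) rfl
  have e3 := e2.symm
  rw [inv_inv] at e3
  refine ⟨α, α', e1 ▸ h1, e1 ▸ h2, e1 ▸ h3, f1 ▸ k1, ?_⟩
  rw [lab, mul_assoc]
  exact (e3.trans h).trans f2

/-- the combinatorial type -/
def code : (I → I → Prop) × (I → I → Prop) × (I → Ω → Prop) × (I → Lam R P p q Ω → Prop) ×
    (I → I → Lam R P p q Ω → Lam R P p q Ω → Prop) × (I → R.KK P p q → R.KK P p q → Prop) :=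
  (fun i j => E.a i = E.a j, fun i j => E.b i = E.a j, fun i x => E.An i x,
    fun i l => E.M i (E.w i l), fun i j l m => E.w i l = E.w j m,
    fun i k k' => E.T.s (E.a i) * k * (E.T.s (E.a i))⁻¹ = k')

open Classical in
/-- the deformation -/
noncomputable def N (t : ℝ) : R.W :=
  if h : ∃ i, E.a i = t then E'.T.s (E'.a h.choose) * (E.T.s t)⁻¹ else 1

open Classical in
/-- the map on movers -/
noncomputable def th (g : R.W) : R.W :=
  if h : ∃ i, E.M i g then E'.w h.choose (E.lab h.choose g) else 1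

variable {E E'}

theorem N_a (H : E.code = E'.code) (i : I) :
    E.N E' (E.a i) = E'.T.s (E'.a i) * (E.T.s (E.a i))⁻¹ := by
  have h : ∃ j, E.a j = E.a i := ⟨i, rfl⟩
  have k : (E.a h.choose = E.a i) = (E'.a h.choose = E'.a i) :=
    congrArg (fun x => x.1 h.choose i) H
  rw [N, dif_pos h, k.mp h.choose_spec]

theorem N_b (H : E.code = E'.code) (i : I) :
    E.N E' (E.b i) = E'.T.s (E'.b i) * (E.T.s (E.b i))⁻¹ := by
  obtain ⟨j, h⟩ := E.exists_a (E.b_mem i)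
  have k : (E.b i = E.a j) = (E'.b i = E'.a j) := congrArg (fun x => x.2.1 i j) H
  rw [k.mp h.symm, ← h, N_a H]

theorem th_eq (H : E.code = E'.code) {i : I} {g : R.W} (hg : E.M i g) :
    E.th E' g = E'.w i (E.lab i g) := by
  have h : ∃ j, E.M j g := ⟨i, hg⟩
  have k : (E.w h.choose (E.lab h.choose g) = E.w i (E.lab i g)) =
      (E'.w h.choose (E.lab h.choose g) = E'.w i (E.lab i g)) :=
    congrArg (fun x => x.2.2.2.2.1 h.choose i ⟨_, E.lab_mem h.choose_spec⟩ ⟨_, E.lab_mem hg⟩) H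
  rw [th, dif_pos h]
  exact k.mp (by rw [w_lab, w_lab])

theorem th_mv (H : E.code = E'.code) {i : I} {g : R.W} (hg : E.M i g) : E'.M i (E.th E' g) := by
  have k : E.M i (E.w i (E.lab i g)) = E'.M i (E'.w i (E.lab i g)) :=
    congrArg (fun x => x.2.2.2.1 i ⟨_, E.lab_mem hg⟩) H
  rw [th_eq H hg]
  exact k.mp (by rwa [w_lab])

theorem half (S : R.Stb P p q) (H : E.code = E'.code) :
    E.T.Half E'.T (E.N E') (E.th E') (E'.th E) := by
  refine ⟨fun t ht k hk => ?_, fun t ht => ?_, fun y hy g hg => ?_⟩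
  · obtain ⟨i, rfl⟩ := E.exists_a ht
    obtain ⟨x, -, h2, h3, h4⟩ := E.anc ht
    obtain ⟨α, e1, e2, -⟩ := h4.symm.left (γ := (E.e i).1) rfl
    have hκ : (E.T.s (E.a i))⁻¹ * k * (E.T.s (E.a i))⁻¹⁻¹ ∈ R.KK P p q :=
      (S.conj (GI_mono E.T.lo E.T.hi (E.mem i).1) (mem_GI_of_Ioo (e1 ▸ h2) (e1 ▸ h3)) e2).1 hk
    have k1 : (E.T.s (E.a i) * ((E.T.s (E.a i))⁻¹ * k * (E.T.s (E.a i))⁻¹⁻¹) *
        (E.T.s (E.a i))⁻¹ = k) = (E'.T.s (E'.a i) * ((E.T.s (E.a i))⁻¹ * k * (E.T.s (E.a i))⁻¹⁻¹) *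
        (E'.T.s (E'.a i))⁻¹ = k) := congrArg (fun x => x.2.2.2.2.2 i ⟨_, hκ⟩ ⟨k, hk⟩) H
    have k2 := k1.mp (by group)
    rw [N_a H, Commute, SemiconjBy]
    calc E'.T.s (E'.a i) * (E.T.s (E.a i))⁻¹ * k
        = E'.T.s (E'.a i) * ((E.T.s (E.a i))⁻¹ * k * (E.T.s (E.a i))⁻¹⁻¹) *
          (E'.T.s (E'.a i))⁻¹ * (E'.T.s (E'.a i) * (E.T.s (E.a i))⁻¹) := by group
      _ = k * (E'.T.s (E'.a i) * (E.T.s (E.a i))⁻¹) := by rw [k2]
  · obtain ⟨i, rfl⟩ := E.exists_a ht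
    obtain ⟨x, h1, h2⟩ := E.anc ht
    have k : E.An i x = E'.An i x := congrArg (fun z => z.2.2.1 i ⟨x, h1⟩) H
    obtain ⟨β, β', e1, e2, e3, e4⟩ := h2.2.2.symm.trans (k.mp h2).2.2
    rw [N_a H]
    exact ⟨β, β', e1, e2 ▸ E'.a_mem i, e3, e4⟩
  · obtain ⟨i, rfl⟩ := E.sur y hy
    have hg' : E.M i g := hg
    refine ⟨?_, ?_, E'.e i, E'.mem i, th_mv H hg'⟩
    · change _ = E.N E' (E.b i) * g * (E.N E' (E.a i))⁻¹
      rw [th_eq H hg', N_a H, N_b H, w, lab]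
      group
    · rw [th_eq H.symm (th_mv H hg'), th_eq H hg', lab_w, w_lab]

end En

theorem fin_code (I A B C : Type) [Finite I] [Finite A] [Finite B] [Finite C] :
    Finite ((I → I → Prop) × (I → I → Prop) × (I → A → Prop) × (I → B → Prop) ×
      (I → I → B → B → Prop) × (I → C → C → Prop)) := by
  have h1 : Finite (I → I → Prop) := inferInstance
  have h2 : Finite (I → A → Prop) := inferInstance
  have h3 : Finite (I → B → Prop) := inferInstance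
  have h4 : Finite (I → I → B → B → Prop) := inferInstance
  have h5 : Finite (I → C → C → Prop) := inferInstance
  infer_instance

end D_codeA

open D_codeA in
theorem p_D_CODE :
    S_D_CODE := by
  intro R P p q S Ω c T
  choose E hE using fun n => exists_en (T n)
  have : Finite (Lam R P p q Ω) := (lam_finite S Ω).to_subtype
  have : Finite (R.KK P p q) := S.fin.to_subtype
  have := fin_code (Fin c × Bool × Bool) Ω (Lam R P p q Ω) (R.KK P p q)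
  obtain ⟨x, hx⟩ := Finite.exists_infinite_fiber fun n => (E n).code
  have hinf : ((fun n => (E n).code) ⁻¹' {x}).Infinite := infinite_coe_iff.1 hx
  obtain ⟨n, hn⟩ := hinf.nonempty
  refine ⟨n, fun m₀ => ?_⟩
  obtain ⟨m, hm, hlt⟩ := hinf.exists_gt m₀
  have H : (E n).code = (E m).code := (mem_singleton_iff.1 hn).trans (mem_singleton_iff.1 hm).symm
  refine ⟨m, hlt.le, (E n).N (E m), (E m).N (E n), (E n).th (E m), (E m).th (E n), ?_⟩
  rw [← hE n, ← hE m]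
  exact ⟨En.half S H, En.half S H.symm⟩

end Pool.Agent.P.MP_dba3d2_lc
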