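import Pool.Agent.P.MP_dba3d2_lc.D.Mu

/-! Chapter D toolbox: systems. -/

namespace Pool.Agent.P.MP_dba3d2_lc

open Set Filter Topology

namespace SysBA

variable {ι : Type} {S : Sys ι} {α β γ : Gm} {X : Set Gm}

theorem tendsto_mul (γ β : Gm) : Tendsto (fun α => β * γ⁻¹ * α) (𝓝 γ) (𝓝 β) := by
  have h := (continuous_gm_mul (β * γ⁻¹)).tendsto γ
  rwa [inv_mul_cancel_right] at h

theorem step_ev (h : S.Step γ β) : ∀ᶠ α in 𝓝 γ, S.Step α (β * γ⁻¹ * α) := by
  obtain ⟨i, hi, rfl⟩ := h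
  filter_upwards [(S.co i).2.mem_nhds hi] with α hα
  exact ⟨i, hα, by rw [mul_inv_cancel_right]⟩

theorem step_ev' (h : S.Step α β) : ∀ᶠ a in 𝓝 γ, S.Step (α * γ⁻¹ * a) (β * γ⁻¹ * a) := by
  filter_upwards [(tendsto_mul γ α).eventually (step_ev h)] with a ha
  have e : β * γ⁻¹ * a = β * α⁻¹ * (α * γ⁻¹ * a) := by group
  rw [e]
  exact ha

theorem min_dense (hX : CO X) (hne : X.Nonempty) (h : S.Inv X)
    (k : ∀ γ ∈ X, X ⊆ closure (S.orb γ)) : S.Min X := by
  refine ⟨hX, hne, h, fun γ hγ hf => ?_, k⟩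
  have h1 := k γ hγ
  rw [hf.isClosed.closure_eq] at h1
  exact infinite_of_isOpen hX.2 hne (hf.subset h1)

end SysBA

namespace Sys

variable {ι : Type} {S T : Sys ι} {i j : ι} {α β γ δ : Gm} {C U V X : Set Gm} {n m : ℕ}

theorem inv_injective (S : Sys ι) : Function.Injective S.inv := by
  intro a b h
  rw [← S.inv_inv a, h, S.inv_inv]
theorem inv_eq_iff : S.inv i = j ↔ i = S.inv j := by
  constructor
  · intro h
    rw [← h, S.inv_inv]
  · intro h
    rw [h, S.inv_inv]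
theorem φ_inv_mul (S : Sys ι) (i : ι) (γ : Gm) : S.φ (S.inv i) * (S.φ i * γ) = γ := by
  rw [S.φ_inv, inv_mul_cancel_left]
theorem φ_mul_inv (S : Sys ι) (i : ι) (γ : Gm) : S.φ i * (S.φ (S.inv i) * γ) = γ := by
  rw [S.φ_inv, mul_inv_cancel_left]
theorem mem_dom_inv : S.φ i * γ ∈ S.dom (S.inv i) ↔ γ ∈ S.dom i := by
  constructor
  · intro h
    have k := S.map _ _ h
    rwa [S.φ_inv_mul, S.inv_inv] at k
  · exact S.map i γ
theorem dom_inv (S : Sys ι) (i : ι) : S.dom (S.inv i) = tr (S.φ i) (S.dom i) := by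
  ext β
  change _ ↔ (S.φ i)⁻¹ * β ∈ S.dom i
  rw [← mem_dom_inv (S := S) (i := i) (γ := (S.φ i)⁻¹ * β), mul_inv_cancel_left]
theorem mu_dom_inv (S : Sys ι) (i : ι) : mu (S.dom (S.inv i)) = mu (S.dom i) := by
  rw [S.dom_inv, mu_tr (S.co i)]
theorem Step.symm (h : S.Step γ β) : S.Step β γ := by
  obtain ⟨i, hi, rfl⟩ := h
  exact ⟨S.inv i, S.map i γ hi, (S.φ_inv_mul i γ).symm⟩
theorem Step.rel (h : S.Step γ β) : S.Rel γ β := Relation.ReflTransGen.single h
theorem rel_φ (h : γ ∈ S.dom i) : S.Rel γ (S.φ i * γ) := Step.rel ⟨i, h, rfl⟩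
theorem Rel.refl (S : Sys ι) (γ : Gm) : S.Rel γ γ := Relation.ReflTransGen.refl
theorem Rel.trans (h : S.Rel α β) (k : S.Rel β γ) : S.Rel α γ := Relation.ReflTransGen.trans h k
theorem Rel.symm (h : S.Rel γ β) : S.Rel β γ := by
  induction h with
  | refl => exact Relation.ReflTransGen.refl
  | tail _ k ih => exact Relation.ReflTransGen.head k.symm ih
theorem mem_orb : β ∈ S.orb γ ↔ S.Rel γ β := Iff.rfl
theorem Rel.orb_eq (h : S.Rel γ β) : S.orb γ = S.orb β := by
  ext α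
  exact ⟨fun k => Rel.trans h.symm k, fun k => Rel.trans h k⟩
theorem Rel.mem (h : S.Rel γ β) (hC : S.Inv C) (hγ : γ ∈ C) : β ∈ C := by
  induction h with
  | refl => exact hγ
  | tail _ k ih =>
    obtain ⟨i, hi, rfl⟩ := k
    exact hC i _ hi ih
theorem Inv.mem_iff (hC : S.Inv C) (h : γ ∈ S.dom i) : S.φ i * γ ∈ C ↔ γ ∈ C := by
  exact ⟨fun k => (rel_φ h).symm.mem hC k, hC i γ h⟩
theorem In.inv (h : S.In X) : S.Inv X := by
  intro i γ hγ _
  exact h _ (S.map i γ hγ)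
theorem Inv.diff (h : S.Inv C) (k : S.Inv U) : S.Inv (C \ U) := by
  intro i γ hγ hm
  exact ⟨h i γ hγ hm.1, fun e => hm.2 ((k.mem_iff hγ).1 e)⟩
theorem Inv.inter (h : S.Inv C) (k : S.Inv U) : S.Inv (C ∩ U) := by
  intro i γ hγ hm
  exact ⟨h i γ hγ hm.1, k i γ hγ hm.2⟩
theorem Inv.closure (h : S.Inv C) : S.Inv (closure C) := by
  intro i γ hγ hm
  have h1 : γ ∈ _root_.closure (S.dom i ∩ C) := (S.co i).2.inter_closure ⟨hγ, hm⟩
  exact map_mem_closure (continuous_gm_mul (S.φ i)) h1 fun β hβ => h i β hβ.1 hβ.2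
theorem inv_orb (S : Sys ι) (γ : Gm) : S.Inv (S.orb γ) := by
  intro i β hβ hm
  exact Rel.trans hm (rel_φ hβ)
theorem inv_finite (S : Sys ι) : S.Inv {γ | (S.orb γ).Finite} := by
  intro i γ hγ hm
  change (S.orb _).Finite
  rw [← (rel_φ hγ).orb_eq]
  exact hm
theorem inv_infinite (S : Sys ι) : S.Inv {γ | (S.orb γ).Infinite} := by
  intro i γ hγ hm
  change (S.orb _).Infinite
  rw [← (rel_φ hγ).orb_eq]
  exact hm
theorem orb_eq_singleton (h : ∀ i, γ ∉ S.dom i) : S.orb γ = {γ} := by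
  ext β
  constructor
  · intro k
    rcases Relation.ReflTransGen.cases_head k with e | ⟨α, ⟨i, hi, _⟩, _⟩
    · exact e.symm
    · exact absurd hi (h i)
  · rintro rfl
    exact Rel.refl S _
theorem exists_dom_of_infinite (h : (S.orb γ).Infinite) : ∃ i, γ ∈ S.dom i := by
  by_contra k
  push Not at k
  rw [orb_eq_singleton k] at h
  exact h (finite_singleton γ)
/-- a relation between systems on different index types -/
theorem rel_of_step {κ : Type} {T : Sys κ} (h : ∀ γ β, S.Step γ β → T.Rel γ β) (k : S.Rel γ β) :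
    T.Rel γ β := by
  induction k with
  | refl => exact Rel.refl T _
  | tail _ k ih => exact Rel.trans ih (h _ _ k)
/-- related germs have related neighbourhoods -/
theorem Rel.eventually (h : S.Rel γ β) : ∀ᶠ α in 𝓝 γ, S.Rel α (β * γ⁻¹ * α) := by
  induction h with
  | refl => exact Eventually.of_forall fun α => by simpa using Rel.refl S α
  | @tail b c _ k ih =>
    filter_upwards [ih, SysBA.step_ev' (γ := γ) k] with α h1 h2
    exact Relation.ReflTransGen.tail h1 h2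
theorem Near.mono (h : S.Near n γ β) (k : n ≤ m) : S.Near m γ β := by
  induction k with
  | refl => exact h
  | step _ ih => exact Or.inl ih
theorem Near.rel (h : S.Near n γ β) : S.Rel γ β := by
  induction n generalizing γ with
  | zero =>
    have e : γ = β := h
    rw [e]
    exact Rel.refl S β
  | succ n ih =>
    rcases h with h | ⟨α, h1, h2⟩
    · exact ih h
    · exact Rel.trans h1.rel (ih h2)
theorem Rel.near (h : S.Rel γ β) : ∃ n, S.Near n γ β := by
  induction h using Relation.ReflTransGen.head_induction_on with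
  | refl => exact ⟨0, rfl⟩
  | head k _ ih =>
    obtain ⟨n, hn⟩ := ih
    exact ⟨n + 1, Or.inr ⟨_, k, hn⟩⟩
theorem Near.tail (h : S.Near n α β) (k : S.Step β γ) : S.Near (n + 1) α γ := by
  induction n generalizing α with
  | zero =>
    have e : α = β := h
    rw [e]
    exact Or.inr ⟨γ, k, rfl⟩
  | succ n ih =>
    rcases h with h | ⟨a, h1, h2⟩
    · exact Or.inl (ih h)
    · exact Or.inr ⟨a, h1, ih h2⟩
theorem Near.symm (h : S.Near n γ β) : S.Near n β γ := by
  induction n generalizing γ with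
  | zero => exact Eq.symm h
  | succ n ih =>
    rcases h with h | ⟨a, h1, h2⟩
    · exact Or.inl (ih h)
    · exact (ih h2).tail h1.symm
theorem Near.eventually (h : S.Near n γ β) : ∀ᶠ α in 𝓝 γ, S.Near n α (β * γ⁻¹ * α) := by
  induction n generalizing γ with
  | zero =>
    have e : γ = β := h
    rw [e]
    exact Eventually.of_forall fun α => by
      change α = β * β⁻¹ * α
      simp
  | succ n ih =>
    rcases h with h | ⟨a, h1, h2⟩
    · exact (ih h).mono fun α k => Or.inl k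
    · have h3 := (SysBA.tendsto_mul γ a).eventually (ih h2)
      filter_upwards [h3, SysBA.step_ev h1] with α k1 k2
      refine Or.inr ⟨_, k2, ?_⟩
      have e : β * γ⁻¹ * α = β * a⁻¹ * (a * γ⁻¹ * α) := by group
      rw [e]
      exact k1
theorem finite_near [Finite ι] (S : Sys ι) (n : ℕ) (γ : Gm) : {β | S.Near n γ β}.Finite := by
  induction n generalizing γ with
  | zero =>
    refine (finite_singleton γ).subset fun β h => ?_
    exact Eq.symm h
  | succ n ih =>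
    refine ((ih γ).union (finite_iUnion fun i => ih (S.φ i * γ))).subset fun β h => ?_
    rcases h with h | ⟨a, ⟨i, _, rfl⟩, h2⟩
    · exact Or.inl h
    · exact Or.inr (mem_iUnion.2 ⟨i, h2⟩)
/-- the set of germs that reach a compact open set within `n` steps is clopen -/
theorem isClopen_near [Finite ι] (S : Sys ι) (hU : CO U) (n : ℕ) :
    IsClopen {γ | ∃ β ∈ U, S.Near n γ β} := by
  induction n with
  | zero =>
    have e : {γ | ∃ β ∈ U, S.Near 0 γ β} = U := by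
      ext γ
      constructor
      · rintro ⟨β, hβ, h⟩
        have e : γ = β := h
        rw [e]
        exact hβ
      · exact fun h => ⟨γ, h, rfl⟩
    rw [e]
    exact ⟨hU.isClosed, hU.2⟩
  | succ n ih =>
    have e : {γ | ∃ β ∈ U, S.Near (n + 1) γ β} = {γ | ∃ β ∈ U, S.Near n γ β} ∪
        ⋃ i, (S.dom i ∩ (fun γ => S.φ i * γ) ⁻¹' {γ | ∃ β ∈ U, S.Near n γ β}) := by
      ext γ
      constructor
      · rintro ⟨β, hβ, h | ⟨a, ⟨i, hi, rfl⟩, h2⟩⟩
        · exact Or.inl ⟨β, hβ, h⟩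
        · exact Or.inr (mem_iUnion.2 ⟨i, hi, β, hβ, h2⟩)
      · rintro (⟨β, hβ, h⟩ | h)
        · exact ⟨β, hβ, Or.inl h⟩
        · obtain ⟨i, hi, β, hβ, h2⟩ := mem_iUnion.1 h
          exact ⟨β, hβ, Or.inr ⟨_, ⟨i, hi, rfl⟩, h2⟩⟩
    rw [e]
    refine ih.union (isClopen_iUnion_of_finite fun i => ?_)
    exact IsClopen.inter ⟨(S.co i).isClosed, (S.co i).2⟩ (ih.preimage (continuous_gm_mul _))
/-- uniform bound for the time to reach an open set -/
theorem exists_near_bound (hC : IsCompact C) (hU : IsOpen U) (h : ∀ γ ∈ C, ∃ β ∈ U, S.Rel γ β) :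
    ∃ n, ∀ γ ∈ C, ∃ β ∈ U, S.Near n γ β := by
  have h1 : ∀ γ ∈ C, ∃ n, {α | ∃ β ∈ U, S.Near n α β} ∈ 𝓝 γ := by
    intro γ hγ
    obtain ⟨β, hβ, k⟩ := h γ hγ
    obtain ⟨n, hn⟩ := k.near
    refine ⟨n, ?_⟩
    have h3 := (SysBA.tendsto_mul γ β).eventually (hU.mem_nhds hβ)
    filter_upwards [h3, hn.eventually] with α k1 k2
    exact ⟨_, k1, k2⟩
  choose! N hN using h1
  obtain ⟨t, _, ht⟩ := hC.elim_nhds_subcover (fun γ => {α | ∃ β ∈ U, S.Near (N γ) α β}) hN
  refine ⟨t.sup N, fun γ hγ => ?_⟩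
  obtain ⟨a, ha, β, hβ, k⟩ := mem_iUnion₂.1 (ht hγ)
  exact ⟨β, hβ, k.mono (Finset.le_sup ha)⟩
theorem Min.reach (h : S.Min C) (hU : IsOpen U) (hne : (U ∩ C).Nonempty) (hγ : γ ∈ C) :
    ∃ β ∈ U ∩ C, S.Rel γ β := by
  obtain ⟨a, ha, hb⟩ := hne
  obtain ⟨β, h1, h2⟩ := mem_closure_iff.1 (h.den γ hγ hb) U hU ha
  exact ⟨β, ⟨h1, Rel.mem h2 h.inv hγ⟩, h2⟩
/-- minimality passes to a system on an open part with a bigger relation -/
theorem Min.of_rel {κ : Type} {T : Sys κ} (h : S.Min C) (hU : CO U) (hne : U.Nonempty) (hUC : U ⊆ C)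
    (hT : T.In U) (k : ∀ γ ∈ U, ∀ β ∈ U, S.Rel γ β → T.Rel γ β) : T.Min U := by
  refine SysBA.min_dense hU hne hT.inv fun γ hγ β hβ => ?_
  have h1 : β ∈ closure (U ∩ S.orb γ) := hU.2.inter_closure ⟨hβ, h.den γ (hUC hγ) (hUC hβ)⟩
  exact closure_mono (fun a ha => k γ hγ a ha.1 ha.2) h1
theorem min_of_dense (hX : CO X) (hne : X.Nonempty) (h : S.Inv X)
    (k : ∀ γ ∈ X, X ⊆ closure (S.orb γ)) : S.Min X := by
  exact SysBA.min_dense hX hne h k

end Sys

end Pool.Agent.P.MP_dba3d2_lc
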