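import Pool.Agent.P.MP_dba3d2_lc.D.Iface3
import Pool.Agent.P.MP_dba3d2_lc.D.SysB
import Pool.Agent.P.MP_dba3d2_lc.D.TreeB

/-! Step D_CUT0 of the stability project. -/

namespace Pool.Agent.P.MP_dba3d2_lc

open Set Filter Topology

namespace D_cut0A

variable {R : LG} {P : ℝ → R.W} {p0 q0 : ℝ} {ι : Type} {S : Sys ι} {X : Set Gm} {F : Finset ℝ}
  {E : Finset Gm} {r : Gm → ℝ}

/-- the whole segment of a family is moved along the orbit -/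
theorem orbE (hA : S.Arcs (R.arc P p0 q0)) (hF : S.Fam X F E r) {γ β : Gm} (hγ : γ ∈ E)
    (h : S.Rel γ β) : β ∈ E ∧ r β = r γ ∧
      ∃ g, ∀ s ∈ Icc 0 (r γ), R.d (g * P (γ.ap s)) (P (β.ap s)) = 0 := by
  induction h with
  | refl => exact ⟨hγ, rfl, 1, fun s _ => by rw [one_mul, LG.d_self]⟩
  | @tail α β _ k ih =>
    obtain ⟨i, hi, rfl⟩ := k
    obtain ⟨h1, h2, g, h3⟩ := ih
    have hr := hF.pos α h1
    have e := seg_eq_GI (γ := α) hr.le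
    obtain ⟨g', -, -, h4⟩ := hA i _ _ (lt_of_mem_GI (e ▸ self_mem_seg hr))
      (e ▸ fun δ hδ => (hF.dom α h1 i δ hδ).2 hi)
    refine ⟨(hF.inv α h1 i hi).1, (hF.inv α h1 i hi).2.trans h2, g' * g, fun s hs => ?_⟩
    rw [Gm.mul_ap, mul_assoc]
    exact LG.d_zero_trans ((LG.d_mul_left g' _ _).trans (h3 s hs))
      (h4 _ ((seg_subset_GI hr).1 e.le s (h2 ▸ hs)))

theorem mv_trans {α β γ : Gm} {g g' : R.W} (h : R.Mv P α g β) (h' : R.Mv P β g' γ) :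
    R.Mv P α (g' * g) γ := by
  obtain ⟨a, a0, ha⟩ := h
  obtain ⟨b, b0, hb⟩ := h'
  refine ⟨min a b, lt_min a0 b0, fun s hs => ?_⟩
  rw [mul_assoc]
  exact LG.d_zero_trans
    ((LG.d_mul_left g' _ _).trans (ha s ⟨hs.1, hs.2.trans (min_le_left _ _)⟩))
    (hb s ⟨hs.1, hs.2.trans (min_le_right _ _)⟩)

theorem mv_symm {β γ : Gm} {g : R.W} (h : R.Mv P γ g β) : R.Mv P β g⁻¹ γ := by
  obtain ⟨a, a0, ha⟩ := h
  refine ⟨a, a0, fun s hs => ?_⟩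
  rw [LG.d_inv_mul]
  exact LG.d_zero_symm (ha s hs)

theorem mem_of_mv {γ : Gm} {k : R.W} (hS : R.Stb P p0 q0) (hγ : γ ∈ GI p0 q0)
    (h : R.Mv P γ k γ) : k ∈ R.KK P p0 q0 := by
  obtain ⟨a, a0, ha⟩ := h
  obtain ⟨b, b0, hb⟩ := mem_GI_iff.1 hγ
  have h0 := lt_min a0 b0
  have e := seg_eq_GI (γ := γ) h0.le
  have h1 := lt_of_mem_GI (e ▸ self_mem_seg h0)
  have h2 := (GI_subset_iff h1).1 (e ▸ (seg_subset_GI h0).2 fun s hs =>
    hb s ⟨hs.1, hs.2.trans (min_le_right _ _)⟩)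
  refine hS.stab _ _ h2.1 h1 h2.2 k fun t ht => ?_
  have h3 : γ⁻¹.ap t ∈ uIcc 0 (min a b) := by
    rw [← Gm.ap_mem_uIcc (φ := γ), Gm.ap_inv_ap, Gm.ap_zero]
    exact ht
  rw [uIcc_of_le h0.le] at h3
  simpa using ha _ ⟨h3.1, h3.2.trans (min_le_left _ _)⟩

theorem stab_of_mem {k : R.W} {u v : ℝ} (h : k ∈ R.KK P p0 q0) (hu : u ∈ Icc p0 q0)
    (hv : v ∈ Icc p0 q0) : R.Stab (P u) (P v) k :=
  ⟨LG.d_zero_symm (by simpa using h u hu), LG.d_zero_symm (by simpa using h v hv)⟩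

theorem conj_d {G : LG} {x z v w n : G.W} (h1 : G.d z x = 0) (h2 : G.d (z * w) v = 0)
    (h3 : G.ℓ (n * w) = 0) : G.d x (z * n * z⁻¹ * v) = 0 := by
  rw [← LG.d_congr h1 ((LG.d_mul_left (z * n * z⁻¹) _ _).trans h2), ← h3, LG.d]
  congr 1
  group

theorem conj_eq {G : Type} [Group G] {g a b m n : G} (e : g * a = b * m) (h : Commute n m) :
    b * n * b⁻¹ = g * (a * n * a⁻¹) * g⁻¹ := by
  have e1 : g * (a * n * a⁻¹) * g⁻¹ = (g * a) * n * (g * a)⁻¹ := by group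
  rw [e1, e, mul_assoc b m n, ← h.eq]
  group

end D_cut0A

open D_cut0A

theorem p_D_CUT0 :
    S_D_CUT0 := by
  classical
  intro R P p0 q0 p q hS hp hq ι S F E r hIn hA hF
  let rep : Gm → Gm := fun γ => Classical.epsilon (· ∈ S.orb γ)
  have hrel : ∀ γ, S.Rel γ (rep γ) := fun γ =>
    Classical.epsilon_spec (p := (· ∈ S.orb γ)) ⟨γ, Sys.Rel.refl S γ⟩
  have hrep : ∀ γ β, S.Rel γ β → rep γ = rep β := fun γ β h => by
    simp only [rep, h.orb_eq]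
  have hE : ∀ γ ∈ E, rep γ ∈ E := fun γ h => (orbE hA hF h (hrel γ)).1
  have hr : ∀ γ ∈ E, r (rep γ) = r γ := fun γ h => (orbE hA hF h (hrel γ)).2.1
  have hex : ∀ γ, ∃ g, γ ∈ E →
      ∀ s ∈ Icc 0 (r γ), R.d (g * P (γ.ap s)) (P ((rep γ).ap s)) = 0 := fun γ => by
    by_cases h : γ ∈ E
    · obtain ⟨g, hg⟩ := (orbE hA hF h (hrel γ)).2.2
      exact ⟨g, fun _ => hg⟩
    · exact ⟨1, fun k => (h k).elim⟩
  choose ρ hρ using hex
  have hsub : ∀ γ ∈ E, seg γ (r γ) ⊆ GI p0 q0 := fun γ h β hβ =>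
    GI_mono hp hq (hF.sub γ h β hβ).1
  have hI : ∀ γ ∈ E, γ.c ∈ Icc p0 q0 ∧ γ.ap (r γ) ∈ Icc p0 q0 := fun γ h =>
    have k := (seg_subset_GI (hF.pos γ h)).1 (hsub γ h)
    ⟨by simpa using k 0 ⟨le_rfl, (hF.pos γ h).le⟩, k _ ⟨(hF.pos γ h).le, le_rfl⟩⟩
  let Y : Gm → R.W := fun γ => (P γ.c)⁻¹ * P (γ.ap (r γ))
  let z : Gm → R.W := fun γ => (ρ γ)⁻¹ * P (rep γ).c
  have hz : ∀ γ ∈ E, R.d (z γ) (P γ.c) = 0 ∧ R.d (z γ * Y (rep γ)) (P (γ.ap (r γ))) = 0 := by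
    intro γ h
    have h0 := (hF.pos γ h).le
    constructor
    · rw [LG.d_inv_mul]
      simpa using LG.d_zero_symm (hρ γ h 0 ⟨le_rfl, h0⟩)
    · rw [mul_assoc, mul_inv_cancel_left, LG.d_inv_mul, hr γ h]
      exact LG.d_zero_symm (hρ γ h _ ⟨h0, le_rfl⟩)
  refine ⟨E.card, fun i => Y (E.equivFin.symm i), fun γ => if h : γ ∈ E then
    Monoid.Coprod.inl (z γ) * Monoid.Coprod.inr (FreeGroup.of (E.equivFin ⟨rep γ, hE γ h⟩)) *
      (Monoid.Coprod.inl (z γ))⁻¹ else 1, fun i => ?_, fun γ h => dif_neg h, fun γ => ?_, ?_⟩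
  · obtain ⟨⟨γ, h⟩, rfl⟩ := E.equivFin.surjective i
    simp only [Equiv.symm_apply_apply]
    have h0 := hF.pos γ h
    have e : |γ.c - γ.ap (r γ)| = r γ := by
      rw [← Gm.ap_zero, Gm.abs_ap_sub, zero_sub, abs_neg, abs_of_pos h0]
    refine ⟨h0.trans_eq (e.symm.trans (hS.iso _ (hI γ h).1 _ (hI γ h).2).symm), fun k => ?_⟩
    have k' := LG.per_base.1 k
    rcases lt_trichotomy γ.c (γ.ap (r γ)) with a | a | a
    · exact hS.np _ _ (hI γ h).1.1 a (hI γ h).2.2 k'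
    · rw [← a, sub_self, abs_zero] at e
      exact h0.ne e
    · exact hS.np _ _ (hI γ h).2.1 a (hI γ h).1.2 k'.symm
  · dsimp only
    split_ifs <;> simp
  intro G j ν hj hν c hc
  dsimp only at hc
  have c0 : ∀ γ, γ ∉ E → c γ = 1 := fun γ h => by rw [hc, dif_neg h, map_one]
  have c1 : ∀ γ (h : γ ∈ E),
      c γ = j (z γ) * ν (E.equivFin ⟨rep γ, hE γ h⟩) * (j (z γ))⁻¹ := fun γ h => by
    rw [hc, dif_pos h]
    simp
  refine ⟨fun γ _ β g h1 h2 => ?_, fun h0 γ => ?_, fun h0 γ h => ?_⟩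
  · by_cases h : γ ∈ E
    · have hβ := (orbE hA hF h h1).1
      have e := hrep γ β h1
      have m1 : R.Mv P γ (ρ γ) (rep γ) := ⟨_, hF.pos γ h, hρ γ h⟩
      have m2 : R.Mv P β (ρ β) (rep γ) := e ▸ ⟨_, hF.pos β hβ, hρ β hβ⟩
      have k1 := mem_of_mv hS (hsub _ (hE γ h) (self_mem_seg (hF.pos _ (hE γ h))))
        (mv_trans (mv_trans (mv_symm m1) h2) m2)
      have k2 := hν (E.equivFin ⟨rep γ, hE γ h⟩) _ (by
        simp only [Equiv.symm_apply_apply]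
        exact LG.stab_base.2 (stab_of_mem k1 (hI _ (hE γ h)).1 (hI _ (hE γ h)).2))
      have e2 : j g * j (z γ) = j (z β) *
          j ((P (rep γ).c)⁻¹ * (ρ β * (g * (ρ γ)⁻¹)) * P (rep γ).c) := by
        rw [← map_mul, ← map_mul]
        simp only [z, ← e]
        congr 1
        group
      have e3 : (⟨rep β, hE β hβ⟩ : E) = ⟨rep γ, hE γ h⟩ := Subtype.ext e.symm
      rw [c1 β hβ, c1 γ h, e3]
      exact conj_eq e2 k2
    · rw [c0 γ h, c0 β fun k => h (orbE hA hF k h1.symm).1]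
      simp
  · by_cases h : γ ∈ E
    · have k := LG.d_map_zero j hj (hz γ h).1
      rw [c1 γ h]
      exact conj_d (w := 1) k (by rwa [mul_one]) (by rw [mul_one, h0])
    · rw [c0 γ h, one_mul, LG.d_self]
  · rw [c1 γ h]
    refine conj_d (w := j (Y (rep γ))) (LG.d_map_zero j hj (hz γ h).1) ?_ ?_
    · rw [← map_mul]
      exact LG.d_map_zero j hj (hz γ h).2
    · simpa using h0 (E.equivFin ⟨rep γ, hE γ h⟩)

end Pool.Agent.P.MP_dba3d2_lc
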