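import Pool.Agent.P.MP_dba3d2_lc.D.Iface4
import Pool.Agent.P.MP_dba3d2_lc.D.T0B
import Pool.Agent.P.MP_dba3d2_lc.D.LsB

/-! Step D_DEFORM of the stability project. -/

namespace Pool.Agent.P.MP_dba3d2_lc

open Set Filter Topology

namespace D_deformA

variable {R : LG} {P : ℝ → R.W} {p q : ℝ} {Ω : Finset ℝ} {c : ℕ} {T T' : Stg R P p q Ω c}
  {N₀ N : ℝ → R.W} {θ θ' : R.W → R.W} {y : Gm × Bool} {g : R.W} {α β γ : Gm}

/-- every edge has a parallel edge between special points -/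
theorem key (S : R.Stb P p q) (H : T.Half T' N₀ θ θ') (hy : y.1 ∈ GI T.z T.z')
    (hg : R.Mv P y.1 g (T.L.f y).1) : ∃ s ∈ T.V, ∃ t ∈ T.V, θ g = N₀ t * g * (N₀ s)⁻¹ ∧
      θ g⁻¹ = (θ g)⁻¹ ∧ ∀ k ∈ R.KK P p q, θ (k * g) = k * θ g := by
  obtain ⟨x, hx, φ, u, v, h1, h2, h3, h4, h5⟩ := T.cov y hy
  have k1 : R.Mv P x.1 g (T.L.f x).1 := h5 ▸ (S.rl_of_mv h1 h2 (h4 ▸ hg)).mv h3
  have k2 := (H.val x hx g k1).1
  have k3 : (T.L.f x).1 ∈ GI T.z T.z' := (T.L.mem x).2 hx.1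
  refine ⟨_, hx.2.1, _, hx.2.2, k2, ?_, fun k hk => ?_⟩
  · have k4 := (H.val (fl (T.L.f x)) ⟨k3, hx.2.2, by rw [T.L.rev]; exact hx.2.1⟩ g⁻¹
      (by rw [T.L.rev]; exact k1.symm)).1
    rw [k4, k2, T.L.rev, fl_fst, fl_fst]
    group
  · rw [(H.val x hx _ (k1.trans (LG.Stb.mv_of_mem hk (GI_mono T.lo T.hi k3)))).1, k2,
      ← mul_assoc, (H.comm _ hx.2.2 k hk).eq]
    group

/-- the deformed mover is locally constant -/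
def Lc (R : LG) (P N : ℝ → R.W) (γ β : Gm) : Prop := ∃ g, R.Mv P γ g β ∧ ∃ r > 0, ∀ s ∈ Icc 0 r,
  N (β.ap s) * g * (N (γ.ap s))⁻¹ = N β.c * g * (N γ.c)⁻¹

theorem Lc.refl (γ : Gm) : Lc R P N γ γ :=
  ⟨1, LG.mv_one P γ, 1, one_pos, fun s _ => by group⟩

theorem Lc.trans (h : Lc R P N α β) (k : Lc R P N β γ) : Lc R P N α γ := by
  obtain ⟨g, h1, r, r0, h2⟩ := h
  obtain ⟨g', k1, r', r0', k2⟩ := k
  refine ⟨g' * g, h1.trans k1, min r r', lt_min r0 r0', fun s hs => ?_⟩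
  calc N (γ.ap s) * (g' * g) * (N (α.ap s))⁻¹
      = (N (γ.ap s) * g' * (N (β.ap s))⁻¹) * (N (β.ap s) * g * (N (α.ap s))⁻¹) := by group
    _ = _ := by
      rw [h2 s ⟨hs.1, hs.2.trans (min_le_left _ _)⟩, k2 s ⟨hs.1, hs.2.trans (min_le_right _ _)⟩]
      group

theorem step (hN : ∀ (y : Gm × Bool) g, y.1 ∈ GI T.z T.z' → R.Mv P y.1 g (T.L.f y).1 →
    N (T.L.f y).1.c * g * (N y.1.c)⁻¹ = θ g) (hy : y.1 ∈ GI T.z T.z') :
    Lc R P N y.1 (T.L.f y).1 := by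
  obtain ⟨-, -, g, hg⟩ := LG.rw_arc_iff.1 (T.sat.weak y hy)
  obtain ⟨r, r0, hr⟩ := T.L.zpow_eventually hy 1
  obtain ⟨r', r0', hr'⟩ := eventually_gm.1 hg.eventually
  have m0 : 0 < min r r' := lt_min r0 r0'
  refine ⟨g, hg, min r r' / 2, half_pos m0, fun s hs => ?_⟩
  have hδ : Gm.tau s ∈ GI 0 (min r r') := tau_mem_GI.2 ⟨hs.1, by linarith [hs.2]⟩
  obtain ⟨k1, k2⟩ := hr _ (GI_mono le_rfl (min_le_left _ _) hδ)
  have k3 := hr' _ (GI_mono le_rfl (min_le_right _ _) hδ)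
  rw [zpow_one] at k2
  rw [mul_assoc, inv_mul_cancel_left] at k3
  have k4 := hN (y.1 * Gm.tau s, y.2) g k1 (by rw [k2]; exact k3)
  rw [k2] at k4
  exact k4.trans (hN y g hy hg).symm

end D_deformA

open D_deformA in
theorem p_D_DEFORM (hD_EXTEND : S_D_EXTEND) :
    S_D_DEFORM := by
  intro R P p q S Ω c T T' N₀ θ θ' H hQ
  obtain ⟨h, h0, h1, h2⟩ := T.ht
  have sub : GI T.z T.z' ⊆ GI p q := GI_mono T.lo T.hi
  have cen : ∀ x, x ∈ Subgroup.centralizer (R.KK P p q) ↔ ∀ k ∈ R.KK P p q, Commute x k :=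
    fun x => Subgroup.mem_centralizer_iff.trans
      (forall₂_congr fun k _ => ⟨fun e => e.symm, fun e => e.symm⟩)
  obtain ⟨N, N1, N2, N3⟩ := hD_EXTEND R.W ℝ
    {e : (Gm × Bool) × R.W // e.1.1 ∈ GI T.z T.z' ∧ R.Mv P e.1.1 e.2 (T.L.f e.1).1}
    (fun e => e.1.1.1.c) (fun e => (T.L.f e.1.1).1.c) (fun e => e.1.2) (fun e => θ e.1.2)
    (fun e => ⟨(fl (T.L.f e.1.1), e.1.2⁻¹), (T.L.mem _).2 e.2.1, by
      rw [T.L.rev]; exact e.2.2.symm⟩)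
    T.V (R.QJ P T.z T.z' ⊓ Subgroup.centralizer (R.KK P p q)) h N₀
    (fun e => ⟨rfl, by simp only [T.L.rev, fl_fst], rfl,
      let ⟨_, _, _, _, _, k, _⟩ := key S H e.2.1 e.2.2; k⟩)
    (fun v hv => ⟨h0 v hv, hQ v hv, (cen _).2 (H.comm v hv)⟩)
    (fun e => (h1 _ e.2.1).imp_left fun k => ⟨k.2.1, k.2.2, (H.val _ k _ e.2.2).1.symm⟩)
    (by
      rintro ⟨⟨y, g⟩, hy, hg⟩ x ⟨x1, x2⟩
      obtain ⟨s, hs, t, ht, k, -⟩ := key S H hy hg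
      have hf := (T.L.mem y).2 hy
      have hg' := hg.mem_QJ hy hf
      have e : (θ g)⁻¹ * x * g = N₀ s * (g⁻¹ * ((N₀ t)⁻¹ * x) * g) := by
        rw [k]; group
      refine e ▸ Subgroup.mul_mem _ ⟨hQ s hs, (cen _).2 (H.comm s hs)⟩ ⟨Subgroup.mul_mem _
        (Subgroup.mul_mem _ (Subgroup.inv_mem _ hg')
          (Subgroup.mul_mem _ (Subgroup.inv_mem _ (hQ t ht)) x1)) hg', (cen _).2 fun k hk => ?_⟩
      have hk' := (S.conj (sub hy) (sub hf) hg).1 hk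
      have e' := ((H.comm t ht _ hk').inv_left.mul_left ((cen x).1 x2 _ hk')).eq
      calc g⁻¹ * ((N₀ t)⁻¹ * x) * g * k = g⁻¹ * ((N₀ t)⁻¹ * x * (g * k * g⁻¹)) * g := by group
        _ = k * (g⁻¹ * ((N₀ t)⁻¹ * x) * g) := by rw [e']; group)
    (by
      rintro ⟨⟨y, g⟩, hy, hg⟩ ⟨⟨y', g'⟩, hy', hg'⟩ e a b
      have k : (T.L.f y).1.c = (T.L.f y').1.c ∧ R.Mv P y'.1 g (T.L.f y').1 := by
        rcases h2 y y' hy hy' e a b with k | ⟨k1, k2, k3⟩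
        · rw [k]; exact ⟨rfl, hg⟩
        · rw [k1, k2]; exact ⟨(Gm.opp_c _).symm, S.mv_opp k3 hg⟩
      refine ⟨k.1, fun x hx => ?_⟩
      have hk := S.coset' (sub ((T.L.mem y').2 hy')) k.2 hg'
      obtain ⟨-, -, -, -, -, -, k3⟩ := key S H hy hg
      have k4 := k3 _ hk
      have k5 := ((cen x).1 hx.2 _ hk).eq
      rw [inv_mul_cancel_right] at k4
      change (θ g)⁻¹ * x * g = (θ g')⁻¹ * x * g'
      calc (θ g)⁻¹ * x * g = (θ g)⁻¹ * (g' * g⁻¹)⁻¹ * (g' * g⁻¹ * x) * g := by group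
        _ = _ := by rw [← k5, k4]; group)
  have hc : ∀ t, ∀ k ∈ R.KK P p q, Commute (N t) k := fun t => (cen _).1 (N2 t).2
  refine ⟨N, N1, fun t => (N2 t).1, hc, fun g φ u v hm => ?_⟩
  refine const_of_germs (c := fun t => N (φ.ap t) * g * (N t)⁻¹) hm.1.le fun γ hγ => ?_
  obtain ⟨a1, a2, a3⟩ := hm.mem hγ
  obtain ⟨n, hn⟩ := (T.sat γ a1 _ a2).2 (LG.rw_arc_iff.2 ⟨sub a1, sub a2, g, a3⟩)
  have k := (LS.LsBA.ind T.L (y := (γ, true)) (Q := fun β => β ∈ GI T.z T.z' ∧ Lc R P N γ β)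
    ⟨a1, Lc.refl γ⟩ (fun z k => ⟨(T.L.mem z).2 k.1,
      k.2.trans (step (fun y g a b => N3 ⟨(y, g), a, b⟩) k.1)⟩) n).2
  rw [hn] at k
  obtain ⟨g₀, b1, r, r0, b2⟩ := k
  have hk := S.coset' (sub a2) b1 a3
  have e : ∀ a b, N a * g * (N b)⁻¹ = g * g₀⁻¹ * (N a * g₀ * (N b)⁻¹) := fun a b => by
    calc N a * g * (N b)⁻¹ = N a * (g * g₀⁻¹) * g₀ * (N b)⁻¹ := by group
      _ = _ := by rw [(hc a _ hk).eq]; group
  refine ⟨r, r0, fun s hs => ?_⟩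
  have b3 := b2 s hs
  rw [Gm.mul_ap, Gm.mul_c'] at b3
  rw [e, e (φ.ap γ.c), b3]

end Pool.Agent.P.MP_dba3d2_lc
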