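import Pool.Agent.P.MP_dba3d2_lc.D.LsB

/-! Chapter D toolbox: leaves away from the singular points. -/

namespace Pool.Agent.P.MP_dba3d2_lc

open Set Filter Topology

namespace LS.Hull

variable {A : Gm → ℝ → ℝ → Prop} {X : Set Gm} {L : LS X} {Ω : Finset ℝ} {y : Gm × Bool} {γ : Gm}

/-- the opposite germ follows along a stretch that misses `Ω` -/
theorem par_pow (H : L.Hull A Ω) (hy : y.1 ∈ X) (n : ℕ) (h : ∀ k : ℕ, k < n → (L.at' y k).c ∉ Ω) :
    (L.f ^ n) (y.1.opp, y.2) = (((L.f ^ n) y).1.opp, ((L.f ^ n) y).2) := by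
  induction n with
  | zero => rfl
  | succ n ih =>
    have h1 := (H.par ((L.f ^ n) y) (by rw [← L.at_nat]; exact L.at_mem hy n)
      (by rw [← L.at_nat]; exact h n (Nat.lt_succ_self n))).2.1
    rw [pow_succ', Equiv.Perm.mul_apply, Equiv.Perm.mul_apply,
      ih fun k hk => h k (hk.trans (Nat.lt_succ_self n)), h1]
theorem at_opp (H : L.Hull A Ω) (hy : y.1 ∈ X) (n : ℕ) (h : ∀ k : ℕ, k < n → (L.at' y k).c ∉ Ω) :
    L.at' (y.1.opp, y.2) n = (L.at' y n).opp := by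
  rw [L.at_nat, L.at_nat, H.par_pow hy n h]
theorem rw2_pow (P : PG A) (H : L.Hull A Ω) (hy : y.1 ∈ X) {n : ℕ} (hn : 0 < n)
    (h : ∀ k : ℕ, k < n → (L.at' y k).c ∉ Ω) : RW2 A y.1 (L.at' y n) := by
  have := L.rw2_stretch (y := y) (m := 0) (n := n) P (by exact_mod_cast hn) fun k h0 h1 => by
    lift k to ℕ using h0
    exact (H.par _ (L.at_mem hy k) (h k (by exact_mod_cast h1))).2.2.1
  rwa [L.at_zero] at this
theorem rw2_refl (P : PG A) (H : L.Hull A Ω) (hγ : γ ∈ X) (h : γ.c ∉ Ω) : RW2 A γ γ := by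
  have k := (H.par (γ, true) hγ h).2.2.1
  exact P.rw2_trans k (P.rw2_symm k)
/-- such a stretch does not come back to its first point -/
theorem pt_ne (H : L.Hull A Ω) (hy : y.1 ∈ X) {n : ℕ} (hn : 0 < n)
    (h : ∀ k : ℕ, k < n → (L.at' y k).c ∉ Ω) : (L.at' y n).c ≠ y.1.c := by
  intro e
  have e1 : L.at' y n = y.1.opp := by
    refine (Gm.eq_or_opp e).resolve_left fun k => ?_
    have := L.at_inj hy (k.trans (L.at_zero y).symm)
    omega
  have e2 := H.par_pow hy n h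
  rw [L.at_nat] at e1
  rw [e1, Gm.opp_opp] at e2
  by_cases hb : ((L.f ^ n) y).2 = y.2
  · have e3 : (L.f ^ n) y = (y.1.opp, y.2) := Prod.ext e1 hb
    have e4 : L.at' y (n + n) = L.at' y 0 := by
      rw [← L.at_add, L.at_zero, zpow_natCast, e3, L.at_nat, e2]
    have := L.at_inj hy e4
    omega
  · have e3 : (L.f ^ (n : ℤ)) y = fl (y.1.opp, y.2) := by
      rw [zpow_natCast]
      exact Prod.ext e1 (Bool.eq_not.2 hb)
    have key : ∀ m : ℕ, m ≤ n → L.at' y (n - m) = (L.at' y m).opp := fun m hm => by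
      rw [← H.at_opp hy m fun k hk => h k (hk.trans_le hm), sub_eq_neg_add, ← L.at_add, e3,
        L.at_fl, neg_neg]
    obtain ⟨m, rfl | rfl⟩ := Nat.even_or_odd' n
    · have k := key m (by omega)
      rw [show ((2 * m : ℕ) : ℤ) - m = m by push_cast; ring] at k
      exact Gm.opp_ne _ k.symm
    · have k := key m (by omega)
      rw [show ((2 * m + 1 : ℕ) : ℤ) - m = 1 + m by push_cast; ring, ← L.at_add, L.at_one] at k
      refine (H.par ((L.f ^ (m : ℤ)) y) (L.at_mem hy m) (h m (by omega))).2.2.2 ?_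
      rw [k, Gm.opp_c]
      rfl
/-- one of the two half leaves misses `Ω` -/
theorem half_free (H : L.Hull A Ω) (hγ : γ ∈ X) (h : γ.c ∉ Ω) :
    ∃ e, ∀ n : ℕ, (L.at' (γ, e) n).c ∉ Ω := by
  by_contra hc
  push Not at hc
  obtain ⟨m, hm⟩ := hc false
  obtain ⟨n, hn⟩ := hc true
  rw [show (γ, false) = fl (γ, true) from rfl, L.at_fl] at hm
  have := H.cvx (γ, true) hγ (-m) 0 n (by omega) (by omega) hm hn
  rw [L.at_zero] at this
  exact h this
/-- leaves that miss `Ω` -/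
theorem at_opp_int (H : L.Hull A Ω) (hy : y.1 ∈ X) (h : ∀ n : ℤ, (L.at' y n).c ∉ Ω) (n : ℤ) :
    L.at' (y.1.opp, y.2) n = (L.at' y n).opp := by
  obtain ⟨m, rfl | rfl⟩ := Int.eq_nat_or_neg n
  · exact H.at_opp hy m fun k _ => h k
  · rw [← L.at_fl, ← L.at_fl]
    exact H.at_opp (y := fl y) hy m fun k _ => by rw [L.at_fl]; exact h _
theorem pt_inj (H : L.Hull A Ω) (hy : y.1 ∈ X) (h : ∀ n : ℤ, (L.at' y n).c ∉ Ω) {m n : ℤ}
    (e : (L.at' y m).c = (L.at' y n).c) : m = n := by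
  have key : ∀ a b : ℤ, a < b → (L.at' y b).c ≠ (L.at' y a).c := fun a b hab => by
    obtain ⟨k, rfl⟩ := Int.le.dest hab.le
    have := H.pt_ne (y := (L.f ^ a) y) (L.at_mem hy a) (n := k) (by omega)
      fun j _ => by rw [L.at_add]; exact h _
    rwa [L.at_add, add_comm] at this
  rcases lt_trichotomy m n with k | k | k
  · exact absurd e.symm (key _ _ k)
  · exact k
  · exact absurd e (key _ _ k)
theorem rw2_int (P : PG A) (H : L.Hull A Ω) (hy : y.1 ∈ X) (h : ∀ n : ℤ, (L.at' y n).c ∉ Ω)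
    (m n : ℤ) : RW2 A (L.at' y m) (L.at' y n) := by
  have key : ∀ a b : ℤ, a < b → RW2 A (L.at' y a) (L.at' y b) := fun a b hab =>
    L.rw2_stretch P hab fun k _ _ => (H.par _ (L.at_mem hy k) (h k)).2.2.1
  rcases lt_trichotomy m n with k | rfl | k
  · exact key _ _ k
  · exact H.rw2_refl P (L.at_mem hy m) (h m)
  · exact P.rw2_symm (key _ _ k)
/-- every turn off `Ω` recurs in every segment -/
theorem turn (P : PG A) (H : L.Hull A Ω) (hγ : γ ∈ X) (h : γ.c ∉ Ω) {u v : ℝ} (huv : u < v)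
    (hX : GI u v ⊆ X) : ∃ β : Gm, u < β.c ∧ β.c < v ∧ L.Rel γ β ∧ RW2 A γ β := by
  obtain ⟨e, he⟩ := H.half_free hγ h
  have hs : GI ((2 * u + v) / 3) ((u + 2 * v) / 3) ⊆ X :=
    (GI_mono (by linarith) (by linarith)).trans hX
  obtain ⟨B, hB⟩ := L.exists_visit (U := GI ((2 * u + v) / 3) ((u + 2 * v) / 3)) isOpen_GI
    (by rw [inter_eq_left.2 hs]; exact GI_nonempty.2 (by linarith))
  obtain ⟨n, h0, -, h1⟩ := hB (γ, e) hγ
  exact ⟨_, by linarith [h1.1], by linarith [h1.2.1], (L.rel_iff e).2 ⟨n, rfl⟩,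
    H.rw2_pow (y := (γ, e)) P hγ h0 fun k _ => he k⟩

end LS.Hull

end Pool.Agent.P.MP_dba3d2_lc
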