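import Pool.Agent.P.MP_dba3d2_lc.D.Iface4
import Pool.Agent.P.MP_dba3d2_lc.D.HullB

/-! Step D_DISC of the stability project. -/

namespace Pool.Agent.P.MP_dba3d2_lc

open Set Filter Topology

namespace D_discA

variable {A : Gm → ℝ → ℝ → Prop} {X : Set Gm} {L0 : LS X} {z z' : ℝ} {L : LS (GI z z')}
  {Ω : Finset ℝ}

theorem mem_of (C : RCtx A L0 L Ω) {γ β : Gm} (h : γ ∈ GI z z') (e : β.c = γ.c) (k : γ.c ∉ Ω) :
    β ∈ GI z z' := by
  refine ⟨e ▸ h.1, e ▸ h.2.1, fun a => absurd ?_ k, fun a => absurd ?_ k⟩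
  · rw [← e, a]; exact C.left
  · rw [← e, a]; exact C.right

theorem ret (C : RCtx A L0 L Ω) {y : Gm × Bool} (hy : y.1 ∈ GI z z') :
    ∃ r : ℕ, 0 < r ∧ L.f y = (L0.f ^ r) y ∧ L0.at' y r ∈ GI z z' ∧
      ∀ k : ℕ, 0 < k → k < r → L0.at' y k ∉ GI z z' := by
  obtain ⟨r, h1, h2, h3⟩ := C.ret.2 y hy
  refine ⟨r, h1, h2, ?_, fun k a b => ?_⟩
  · rw [L0.at_nat, ← h2]
    exact (L.mem y).2 hy
  · rw [L0.at_nat]
    exact h3 k a b

theorem at_back (L0 : LS X) (y : Gm × Bool) {r j : ℕ} (h : j ≤ r) :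
    L0.at' (fl ((L0.f ^ r) y)) j = L0.at' y (r - j : ℕ) := by
  rw [L0.at_fl, ← zpow_natCast, L0.at_add]
  congr 1
  omega

/-- the states over a finite set of points -/
noncomputable def st (p : ℝ × Bool × Bool) : Gm × Bool :=
  (⟨if p.2.1 then 1 else -1, p.1, by cases p.2.1 <;> simp⟩, p.2.2)

theorem st_surj (w : Gm × Bool) : ∃ s e, st (w.1.c, s, e) = w := by
  rcases w.1.h with h | h
  · exact ⟨true, w.2, Prod.ext (Gm.ext h.symm rfl) rfl⟩
  · exact ⟨false, w.2, Prod.ext (Gm.ext h.symm rfl) rfl⟩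

open Classical in
/-- the point of the first positive visit to `U` -/
noncomputable def nxt (L0 : LS X) (U : Set Gm) (w : Gm × Bool) : ℝ :=
  if h : ∃ j : ℕ, 0 < j ∧ L0.at' w j ∈ U then (L0.at' w (Nat.find h : ℕ)).c else 0

theorem nxt_eq (L0 : LS X) (U : Set Gm) (w : Gm × Bool) {k : ℕ} (h0 : 0 < k)
    (h1 : L0.at' w k ∈ U) (h2 : ∀ j : ℕ, 0 < j → j < k → L0.at' w j ∉ U) :
    nxt L0 U w = (L0.at' w k).c := by
  classical
  have h : ∃ j : ℕ, 0 < j ∧ L0.at' w j ∈ U := ⟨k, h0, h1⟩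
  rw [nxt, dif_pos h]
  congr 3
  exact (Nat.find_eq_iff h).2 ⟨⟨h0, h1⟩, fun j a b => h2 j b.1 a b.2⟩

end D_discA

open D_discA in
theorem p_D_DISC :
    S_D_DISC := by
  intro A X L0 z z' L Ω C
  classical
  refine ⟨?_, ?_, ?_, ?_⟩
  · rintro y hy ⟨k, k1, k2⟩
    obtain ⟨r, r0, r1, r2, r3⟩ := ret C hy
    have hk : k ≤ r := by
      by_contra hc
      exact k2 r r0 (by omega) r2
    rw [r1]
    refine ⟨r - k, ?_, fun j a b => ?_⟩
    · rw [at_back L0 y (Nat.sub_le r k), Nat.sub_sub_self hk]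
      exact k1
    · rw [at_back L0 y (by omega)]
      exact r3 _ (by omega) (by omega)
  · rintro y hy - ⟨k, k1, k2⟩
    have hX := C.ret.1 hy
    have h : ∃ k : ℕ, (L0.at' y k).c ∈ Ω := ⟨k, k1⟩
    have m1 := Nat.find_spec h
    have m2 : ∀ j, j < Nat.find h → (L0.at' y j).c ∉ Ω := fun j hj => Nat.find_min h hj
    have m3 : Nat.find h ≤ k := Nat.find_min' h k1
    refine ⟨Nat.find h, ?_, fun j a b => ?_⟩
    · rw [C.hull.at_opp hX _ m2, Gm.opp_c]
      exact m1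
    · rw [C.hull.at_opp hX j fun i hi => m2 i (hi.trans b)]
      intro hc
      exact k2 j a (by omega) (mem_of C hc (Gm.opp_c _).symm (by rw [Gm.opp_c]; exact m2 j b))
  · intro y hy hn
    have hX := C.ret.1 hy
    obtain ⟨r, r0, r1, r2, r3⟩ := ret C hy
    have off : ∀ k : ℕ, k ≤ r → (L0.at' y k).c ∉ Ω := fun k hk hc =>
      hn ⟨k, hc, fun j a b => r3 j a (by omega)⟩
    have h0 : y.1.c ∉ Ω := by simpa [LS.at'] using off 0 (Nat.zero_le r)
    have hz : y.1.c ≠ z := fun e => h0 (e ▸ C.left)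
    have hz' : y.1.c ≠ z' := fun e => h0 (e ▸ C.right)
    have hy' : (y.1.opp, y.2).1 ∈ GI z z' := mem_of C hy (Gm.opp_c _) h0
    obtain ⟨s, s0, s1, s2, s3⟩ := ret C hy'
    have e : s = r := by
      rcases lt_trichotomy s r with a | a | a
      · rw [C.hull.at_opp hX s fun i hi => off i (by omega)] at s2
        exact absurd (mem_of C s2 (Gm.opp_c _).symm (by rw [Gm.opp_c]; exact off s a.le))
          (r3 s s0 a)
      · exact a
      · have := s3 r r0 a
        rw [C.hull.at_opp hX r fun i hi => off i hi.le] at this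
        exact absurd (mem_of C r2 (Gm.opp_c _) (off r le_rfl)) this
    refine ⟨lt_of_le_of_ne hy.1 hz.symm, lt_of_le_of_ne hy.2.1 hz', ?_, ?_⟩
    · rw [s1, r1, e]
      exact C.hull.par_pow hX r fun i hi => off i hi.le
    · rw [r1, ← L0.at_nat]
      exact C.hull.rw2_pow C.pg hX r0 fun i hi => off i hi.le
  · refine ⟨(insert z (insert z' ((Ω ×ˢ (Finset.univ : Finset (Bool × Bool))).image
      fun p => nxt L0 (GI z z') (st p)))).filter
        fun t => ∃ y : Gm × Bool, y.1 ∈ GI z z' ∧ y.1.c = t ∧ Disc L0 (GI z z') Ω y, ?_,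
      fun t => ⟨fun h => (Finset.mem_filter.1 h).2, fun h => Finset.mem_filter.2 ⟨?_, h⟩⟩⟩
    · refine (Finset.card_filter_le _ _).trans ((Finset.card_insert_le _ _).trans ?_)
      refine Nat.succ_le_succ ((Finset.card_insert_le _ _).trans (Nat.succ_le_succ ?_))
      refine Finset.card_image_le.trans ?_
      rw [Finset.card_product, mul_comm]
      rfl
    · obtain ⟨y, hy, rfl, k, k1, k2⟩ := h
      rw [Finset.mem_insert, Finset.mem_insert]
      rcases Nat.eq_zero_or_pos k with rfl | k0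
      · have h0 : y.1.c ∈ Ω := by simpa [LS.at'] using k1
        by_contra hc
        push Not at hc
        exact C.free _ h0 ⟨lt_of_le_of_ne hy.1 hc.1.symm, lt_of_le_of_ne hy.2.1 hc.2.1⟩
      · obtain ⟨s, e, he⟩ := st_surj (fl ((L0.f ^ k) y))
        have e0 : L0.at' (fl ((L0.f ^ k) y)) k = y.1 := by
          rw [at_back L0 y le_rfl, Nat.sub_self]
          simp [LS.at']
        refine Or.inr (Or.inr (Finset.mem_image.2 ⟨((fl ((L0.f ^ k) y)).1.c, s, e),
          Finset.mem_product.2 ⟨?_, Finset.mem_univ _⟩, ?_⟩))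
        · rw [L0.at_nat] at k1
          exact k1
        · refine (congrArg _ he).trans ?_
          rw [nxt_eq L0 _ _ k0 (e0 ▸ hy) fun j a b => ?_, e0]
          rw [at_back L0 y b.le]
          exact k2 _ (by omega) (by omega)

end Pool.Agent.P.MP_dba3d2_lc
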