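import Pool.Agent.P.MP_dba3d2_lc.D.SysB

/-! Chapter D toolbox: subsystems, constructions, collapsing. -/

namespace Pool.Agent.P.MP_dba3d2_lc

open Set Filter Topology

namespace SysCA

theorem co_ev {U : Set Gm} (hU : CO U) (γ : Gm) : ∀ᶠ β in 𝓝 γ, (β ∈ U ↔ γ ∈ U) := by
  by_cases h : γ ∈ U
  · filter_upwards [hU.2.mem_nhds h] with β k
    exact iff_of_true k h
  · filter_upwards [hU.isClosed.isOpen_compl.mem_nhds h] with β k
    exact iff_of_false k h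

theorem ev_small {p : ℝ → Prop} (h : ∃ r > 0, p r) (hm : ∀ r s, r ≤ s → p s → p r) :
    ∀ᶠ r in 𝓝[>] (0 : ℝ), p r := by
  obtain ⟨r, r0, hr⟩ := h
  filter_upwards [Ioo_mem_nhdsGT r0] with s hs
  exact hm s r hs.2.le hr

end SysCA

namespace Sys

variable {ι : Type} {S T : Sys ι} {i j : ι} {α β γ δ : Gm} {C U V X : Set Gm} {n m : ℕ}

theorem Sub.refl (S : Sys ι) : S.Sub S := ⟨rfl, rfl, fun _ => Subset.rfl⟩
theorem Sub.trans {Z : Sys ι} (h : Z.Sub T) (k : T.Sub S) : Z.Sub S :=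
  ⟨h.1.trans k.1, h.2.1.trans k.2.1, fun i => (h.2.2 i).trans (k.2.2 i)⟩
theorem Sub.step (h : T.Sub S) (k : T.Step γ β) : S.Step γ β := by
  obtain ⟨i, h1, h2⟩ := k
  exact ⟨i, h.2.2 i h1, h.2.1 ▸ h2⟩
theorem Sub.rel (h : T.Sub S) (k : T.Rel γ β) : S.Rel γ β :=
  rel_of_step (fun _ _ e => (h.step e).rel) k
theorem Sub.in' (h : T.Sub S) (k : S.In X) : T.In X := fun i => (h.2.2 i).trans (k i)
theorem Sub.tot_le [Fintype ι] (h : T.Sub S) : T.tot ≤ S.tot :=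
  Finset.sum_le_sum fun i _ => mu_mono (S.co i) (h.2.2 i)
theorem Sub.tot_lt [Fintype ι] (h : T.Sub S) (h1 : γ ∈ S.dom i) (h2 : γ ∉ T.dom i) :
    T.tot < S.tot :=
  Finset.sum_lt_sum (fun i _ => mu_mono (S.co i) (h.2.2 i))
    ⟨i, Finset.mem_univ i, mu_lt (T.co i) (S.co i) (h.2.2 i) h1 h2⟩
theorem Sub.arcs {A : Gm → ℝ → ℝ → Prop} (h : T.Sub S) (k : S.Arcs A) : T.Arcs A :=
  fun i u v h1 h2 => h.2.1 ▸ k i u v h1 (h2.trans (h.2.2 i))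
theorem Sub.weak {A : Gm → ℝ → ℝ → Prop} (h : T.Sub S) (k : S.Weak A) : T.Weak A :=
  fun i γ h1 => h.2.1 ▸ k i γ (h.2.2 i h1)
theorem Sub.tree (h : T.Sub S) (k : S.Tree) : T.Tree := by
  intro i γ h1 h2
  refine k i γ (h.2.2 i h1) ?_
  rw [← h.2.1]
  refine Relation.ReflTransGen.mono ?_ _ _ h2
  rintro α β ⟨j, a1, a2⟩
  rw [h.1, h.2.1] at a2
  exact ⟨j, h.2.2 j a1, a2⟩
theorem IsCut.sub (h : T.IsCut S i U) : T.Sub S :=
  ⟨h.1, h.2.1, fun j γ k => ((h.2.2 j γ).1 k).1⟩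
theorem exists_sub (S : Sys ι) (D : ι → Set Gm) (h1 : ∀ i, CO (D i)) (h2 : ∀ i, D i ⊆ S.dom i)
    (h3 : ∀ i, ∀ γ ∈ D i, S.φ i * γ ∈ D (S.inv i)) : ∃ T : Sys ι, T.Sub S ∧ T.dom = D :=
  ⟨{ S with dom := D, co := h1, map := h3 }, ⟨rfl, rfl, h2⟩, rfl⟩
theorem exists_cut (S : Sys ι) (i : ι) (hU : CO U) : ∃ T : Sys ι, T.IsCut S i U := by
  obtain ⟨T, h1, h2⟩ := S.exists_sub
    (fun j => {γ | γ ∈ S.dom j ∧ ¬(j = i ∧ γ ∈ U) ∧ ¬(j = S.inv i ∧ S.φ j * γ ∈ U)})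
    (fun j => (S.co j).sep fun γ _ => by
      filter_upwards [SysCA.co_ev hU γ,
        ((continuous_gm_mul (S.φ j)).tendsto γ).eventually (SysCA.co_ev hU _)] with β x y
      rw [x, y])
    (fun j γ k => k.1) fun j γ k => ⟨S.map j γ k.1,
      fun e => k.2.2 ⟨inv_eq_iff.1 e.1, e.2⟩,
      fun e => k.2.1 ⟨S.inv_injective e.1, S.φ_inv_mul j γ ▸ e.2⟩⟩
  exact ⟨T, h1.1, h1.2.1, fun j γ => by rw [h2]; rfl⟩
/-- restriction to an invariant compact open set -/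
theorem exists_res (S : Sys ι) (hC : CO C) (h : S.Inv C) : ∃ T : Sys ι, T.Sub S ∧ T.In C ∧
    (∀ i, T.dom i = S.dom i ∩ C) ∧ ∀ γ ∈ C, T.orb γ = S.orb γ := by
  obtain ⟨T, h1, h2⟩ := S.exists_sub (fun i => S.dom i ∩ C) (fun i => (S.co i).inter hC)
    (fun i => inter_subset_left) fun i γ k => ⟨S.map i γ k.1, h i γ k.1 k.2⟩
  refine ⟨T, h1, fun i => h2 ▸ inter_subset_right, fun i => congrFun h2 i, fun γ hγ =>
    Subset.antisymm (fun β k => h1.rel k) fun β k => ?_⟩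
  induction k with
  | refl => exact Rel.refl T γ
  | @tail α β k1 k2 ih =>
    obtain ⟨i, a1, a2⟩ := k2
    exact Relation.ReflTransGen.tail ih ⟨i, h2 ▸ ⟨a1, Rel.mem k1 h hγ⟩, h1.2.1 ▸ a2⟩
/-- the system generated by a family of isometries with domains -/
theorem exists_mk {κ : Type} (ψ : κ → Gm) (W : κ → Set Gm) (h : ∀ k, CO (W k)) :
    ∃ T : Sys (κ × Bool), (∀ k b, T.inv (k, b) = (k, !b)) ∧ (∀ k, T.φ (k, true) = ψ k) ∧
      (∀ k, T.φ (k, false) = (ψ k)⁻¹) ∧ (∀ k, T.dom (k, true) = W k) ∧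
      (∀ k, T.dom (k, false) = tr (ψ k) (W k)) ∧
      ∀ γ β, T.Step γ β ↔ ∃ k, (γ ∈ W k ∧ β = ψ k * γ) ∨ (β ∈ W k ∧ γ = ψ k * β) := by
  refine ⟨⟨fun p => (p.1, !p.2), fun p => bif p.2 then ψ p.1 else (ψ p.1)⁻¹,
    fun p => bif p.2 then W p.1 else tr (ψ p.1) (W p.1), ?_, ?_, ?_, ?_⟩, fun _ _ => rfl,
    fun _ => rfl, fun _ => rfl, fun _ => rfl, fun _ => rfl, fun γ β => ⟨?_, ?_⟩⟩
  · rintro ⟨k, _ | _⟩ <;> rfl
  · rintro ⟨k, _ | _⟩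
    · exact (_root_.inv_inv _).symm
    · rfl
  · rintro ⟨k, _ | _⟩
    · exact (h k).tr _
    · exact h k
  · rintro ⟨k, _ | _⟩ γ hγ
    · exact hγ
    · exact mul_mem_tr.2 hγ
  · rintro ⟨⟨k, _ | _⟩, h1, rfl⟩
    · exact ⟨k, Or.inr ⟨h1, (mul_inv_cancel_left _ _).symm⟩⟩
    · exact ⟨k, Or.inl ⟨h1, rfl⟩⟩
  · rintro ⟨k, ⟨h1, rfl⟩ | ⟨h1, rfl⟩⟩
    · exact ⟨(k, true), h1, rfl⟩
    · exact ⟨(k, false), mul_mem_tr.2 h1, (inv_mul_cancel_left _ _).symm⟩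
/-- the empty domains can be dropped -/
theorem exists_drop [Fintype ι] (S : Sys ι) : ∃ (κ : Type) (_ : Fintype κ) (T : Sys κ) (e : κ → ι),
    Function.Injective e ∧ (∀ i, i ∈ range e ↔ (S.dom i).Nonempty) ∧
    Fintype.card κ = {i | (S.dom i).Nonempty}.ncard ∧ (∀ k, e (T.inv k) = S.inv (e k)) ∧
    (∀ k, T.φ k = S.φ (e k)) ∧ (∀ k, T.dom k = S.dom (e k)) ∧ (∀ γ β, T.Step γ β ↔ S.Step γ β) ∧
    T.tot = S.tot := by
  classical
  have e : ∀ i, i ∈ range (Subtype.val : {i // (S.dom i).Nonempty} → ι) ↔ (S.dom i).Nonempty :=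
    fun i => by rw [Subtype.range_val_subtype]; rfl
  refine ⟨{i // (S.dom i).Nonempty}, inferInstance,
    ⟨fun k => ⟨S.inv k.1, k.2.elim fun γ hγ => ⟨_, S.map _ γ hγ⟩⟩, fun k => S.φ k.1,
      fun k => S.dom k.1, fun k => Subtype.ext (S.inv_inv k.1), fun k => S.φ_inv k.1,
      fun k => S.co k.1, fun k => S.map k.1⟩, Subtype.val, Subtype.val_injective, e,
    ?_, fun _ => rfl, fun _ => rfl, fun _ => rfl,
    fun γ β => ⟨fun ⟨k, h⟩ => ⟨k.1, h⟩, fun ⟨i, h⟩ => ⟨⟨i, γ, h.1⟩, h⟩⟩, ?_⟩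
  · rw [← Nat.card_eq_fintype_card]
    exact Nat.card_coe_set_eq {i | (S.dom i).Nonempty}
  · refine Fintype.sum_of_injective _ Subtype.val_injective _ _ (fun i hi => ?_) fun _ => rfl
    rw [not_nonempty_iff_eq_empty.1 (mt (e i).2 hi), mu_empty]
/-- near a finite orbit the system is a product -/
theorem exists_box [Finite ι] (h : (S.orb γ).Finite) : ∃ r > 0,
    (∀ α ∈ S.orb γ, ∀ i, ∀ β ∈ seg α r, (β ∈ S.dom i ↔ α ∈ S.dom i)) ∧
    (∀ α ∈ S.orb γ, ∀ β ∈ S.orb γ, α ≠ β → Disjoint (seg α r) (seg β r)) ∧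
    ∀ δ ∈ GI 0 r, S.orb (γ * δ) = (· * δ) '' S.orb γ := by
  have e1 : ∀ᶠ r in 𝓝[>] (0 : ℝ), ∀ α ∈ S.orb γ, ∀ i, ∀ β ∈ seg α r,
      (β ∈ S.dom i ↔ α ∈ S.dom i) :=
    (eventually_all_finite h).2 fun α _ => eventually_all.2 fun i =>
      SysCA.ev_small (mem_nhds_gm.1 (SysCA.co_ev (S.co i) α))
        fun r s x y β k => y β (seg_mono x k)
  have e2 : ∀ᶠ r in 𝓝[>] (0 : ℝ), ∀ α ∈ S.orb γ, ∀ β ∈ S.orb γ, α ≠ β →
      Disjoint (seg α r) (seg β r) :=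
    (eventually_all_finite h).2 fun α _ => (eventually_all_finite h).2 fun β _ =>
      eventually_imp_distrib_left.2 fun hne => SysCA.ev_small (exists_seg_disjoint hne)
        fun r s x y => y.mono (seg_mono x) (seg_mono x)
  obtain ⟨r, r0, h1, h2⟩ := ((eventually_mem_nhdsWithin.and (e1.and e2))).exists
  refine ⟨r, r0, h1, h2, fun δ hδ => Subset.antisymm (fun β k => ?_) ?_⟩
  · induction k with
    | refl => exact ⟨γ, Rel.refl S γ, rfl⟩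
    | tail _ k2 ih =>
      obtain ⟨α, a1, rfl⟩ := ih
      obtain ⟨i, a2, rfl⟩ := k2
      exact ⟨S.φ i * α, Rel.trans a1 (rel_φ ((h1 α a1 i _ (mul_mem_seg.2 hδ)).1 a2)),
        mul_assoc _ _ _⟩
  · rintro _ ⟨α, k, rfl⟩
    induction k with
    | refl => exact Rel.refl S _
    | tail k1 k2 ih =>
      obtain ⟨i, a2, rfl⟩ := k2
      exact Relation.ReflTransGen.tail ih
        ⟨i, (h1 _ k1 i _ (mul_mem_seg.2 hδ)).2 a2, mul_assoc _ _ _⟩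
theorem isOpen_finite [Finite ι] (S : Sys ι) : IsOpen {γ | (S.orb γ).Finite} := by
  refine isOpen_iff_seg.2 fun γ h => ?_
  obtain ⟨r, r0, -, -, k⟩ := exists_box h
  refine ⟨r, r0, fun β hβ => ?_⟩
  have e := k _ (mem_seg.1 hβ)
  rw [mul_inv_cancel_left] at e
  show (S.orb β).Finite
  rw [e]
  exact Finite.image _ h
/-- collapsing a forest does not change the relation on the roots -/
theorem collapse {par : Gm → ι} {h : Gm → ℕ} (hF : S.Forest U V par h) (hS : S.In (U ∪ V))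
    (hφ : T.φ = S.φ) (hc : S.Cls T V par) (hT : T.In U) (hγ : γ ∈ U) (hβ : β ∈ U)
    (k : S.Rel γ β) : T.Rel γ β := by
  have hUV : ∀ α ∈ U, α ∉ V := fun α h1 h2 => by
    have := hF.lt α h2
    rw [hF.zero α h1] at this
    exact Nat.not_lt_zero _ this
  have key : ∃ ρ, Relation.ReflTransGen (fun a b => a ∈ V ∧ b = S.φ (par a) * a) β ρ ∧ ρ ∉ V ∧
      T.Rel γ ρ := by
    clear hβ
    induction k with
    | refl => exact ⟨γ, Relation.ReflTransGen.refl, hUV γ hγ, Rel.refl T γ⟩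
    | @tail α β _ k2 ih =>
      obtain ⟨ρ, a1, a2, a3⟩ := ih
      obtain ⟨i, b1, rfl⟩ := k2
      rcases hc i α b1 with c | ⟨c, rfl⟩ | ⟨c, c'⟩
      · rcases a1.cases_head with rfl | ⟨_, e, -⟩
        · rw [← hφ]
          exact ⟨_, Relation.ReflTransGen.refl, hUV _ (hT _ (T.map i α c)), a3.trans (rel_φ c)⟩
        · exact absurd e.1 (hUV α (hT i c))
      · rcases a1.cases_head with rfl | ⟨_, ⟨-, rfl⟩, e⟩
        · exact absurd c a2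
        · exact ⟨ρ, e, a2, a3⟩
      · exact ⟨ρ, a1.head ⟨c, by rw [← c', φ_inv_mul]⟩, a2, a3⟩
  obtain ⟨ρ, a1, -, a3⟩ := key
  rcases a1.cases_head with rfl | ⟨_, e, -⟩
  · exact a3
  · exact absurd e.1 (hUV β hβ)

end Sys

end Pool.Agent.P.MP_dba3d2_lc
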