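import Pool.Agent.P.MP_dba3d2_lc.D.Iface2
import Pool.Agent.P.MP_dba3d2_lc.D.SysC

/-! Step D_EGE of the stability project. -/

namespace Pool.Agent.P.MP_dba3d2_lc

open Set Filter Topology

theorem p_D_EGE (hD_MINC : S_D_MINC) (hD_FOREST : S_D_FOREST) :
    S_D_EGE := by
  intro ι _ S X hX hin hinf
  have tot0 : ∀ T : Sys ι, 0 ≤ T.tot := fun T => Finset.sum_nonneg fun i _ => mu_nonneg _
  rcases X.eq_empty_or_nonempty with rfl | ⟨γ0, hγ0⟩
  · have : mu (∅ : Set Gm) = 0 := by simp [mu]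
    rw [this, mul_zero]
    exact tot0 S
  obtain ⟨i0, -⟩ := Sys.exists_dom_of_infinite (hinf γ0 hγ0)
  haveI : Nonempty ι := ⟨i0⟩
  have hmin : ∀ γ ∈ X, S.Min (closure (S.orb γ)) := fun γ h => (hD_MINC ι S).2 γ (hinf γ h)
  have hself : ∀ γ, γ ∈ closure (S.orb γ) := fun γ =>
    subset_closure (Sys.mem_orb.2 (Sys.Rel.refl S γ))
  obtain ⟨t, ht1, ht2⟩ := hX.1.elim_nhds_subcover (fun γ => closure (S.orb γ)) fun γ h =>
    (hmin γ h).co.2.mem_nhds (hself γ)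
  refine le_of_forall_pos_le_add fun e he => ?_
  set r : ℝ := e / (2 * (t.card + 1)) with hr
  have hr0 : 0 < r := by positivity
  set W : Set Gm := ⋃ γ : t, seg γ.1 r with hW
  have cW : CO W := CO.iUnion fun _ => co_seg
  have cU : CO (W ∩ X) := cW.inter hX
  have mU : mu (W ∩ X) ≤ t.card * r := by
    refine (mu_mono cW inter_subset_left).trans ((mu_iUnion_le _).trans ?_)
    simp [mu_seg hr0.le]
  have reach : ∀ γ ∈ X \ (W ∩ X), ∃ β ∈ W ∩ X, S.Rel γ β := by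
    intro γ hγ
    obtain ⟨α, hα, hγα⟩ := mem_iUnion₂.1 (ht2 hγ.1)
    have hαW : α ∈ W ∩ X :=
      ⟨mem_iUnion.2 ⟨⟨α, hα⟩, self_mem_seg hr0⟩, ht1 α hα⟩
    obtain ⟨β, hβ, k⟩ := (hmin α (ht1 α hα)).reach cU.2 ⟨α, hαW, hself α⟩ hγα
    exact ⟨β, hβ.1, k⟩
  obtain ⟨par, h, -, hT⟩ := hD_FOREST ι S (W ∩ X) (X \ (W ∩ X)) cU (hX.diff cU)
    disjoint_sdiff_right (by rwa [union_diff_cancel inter_subset_right]) reach
  obtain ⟨T, hT1, hT2⟩ := S.exists_sub (fun _ => ∅) (fun _ => CO.empty) (fun _ => empty_subset _)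
    fun _ _ k => k.elim
  have k1 := (hT T hT1 fun i => by rw [hT2]; exact empty_subset _).1
  rw [mu_diff hX cU inter_subset_right] at k1
  have k2 := tot0 T
  have k3 : 2 * (t.card * r) ≤ e := by
    have : r * (2 * (t.card + 1)) = e := by
      rw [hr]
      field_simp
    nlinarith
  linarith

end Pool.Agent.P.MP_dba3d2_lc
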