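import Pool.Agent.P.MP_dba3d2_lc.D.Iface2
import Pool.Agent.P.MP_dba3d2_lc.D.LsB

/-! Step D_ESS of the stability project. -/

namespace Pool.Agent.P.MP_dba3d2_lc

open Set Filter Topology

namespace D_essA

variable {A : Gm → ℝ → ℝ → Prop} {X : Set Gm}

theorem step_at (L : LS X) (y : Gm × Bool) (k : ℤ) :
    (L.f ((L.f ^ k) y)).1 = L.at' y (k + 1) := by
  rw [← L.at_one, L.at_add, add_comm]

/-- a uniform radius for one direction -/
theorem radius (P : PG A) (L : LS X) (h : ∀ y : Gm × Bool, y.1 ∈ X → RW2 A y.1 (L.f y).1)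
    (e : Bool) : ∃ r > 0, ∀ γ ∈ X, A ((L.f (γ, e)).1 * γ⁻¹) (γ.c - r) (γ.c + r) := by
  obtain ⟨n, hn⟩ := L.co.exists_bound
    (p := fun n γ => A ((L.f (γ, e)).1 * γ⁻¹) (γ.c - 1 / (n + 1)) (γ.c + 1 / (n + 1)))
    (fun m n γ hmn k => by
      have a1 : (1 : ℝ) / (n + 1) ≤ 1 / (m + 1) := Nat.one_div_le_one_div hmn
      have a2 : (0 : ℝ) < 1 / (n + 1) := Nat.one_div_pos_of_nat
      exact P.sub _ _ _ _ _ k (by linarith) (by linarith) (by linarith))
    (fun γ hγ => by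
      obtain ⟨u, v, h1, h2, h3⟩ := h (γ, e) hγ
      obtain ⟨r, r0, hr⟩ := L.loc (γ, e) hγ
      dsimp only at h1 h2 h3 hr
      obtain ⟨n, hn⟩ := exists_nat_one_div_lt (K := ℝ) (ε := min (γ.c - u) (v - γ.c) / 2)
        (half_pos (lt_min (by linarith) (by linarith)))
      have a1 := min_le_left (γ.c - u) (v - γ.c)
      have a2 := min_le_right (γ.c - u) (v - γ.c)
      have a3 : (0 : ℝ) < 1 / (n + 1) := Nat.one_div_pos_of_nat
      refine ⟨n, eventually_gm'.2 ⟨P.sub _ _ _ _ _ h3 (by linarith) (by linarith) (by linarith),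
        min r (1 / (n + 1)), lt_min r0 a3, fun δ d1 d2 => ?_⟩⟩
      have b1 := d2.trans_le (min_le_right _ _)
      have b2 : |(γ * δ).c - γ.c| = δ.c := by
        rw [Gm.mul_c', ← γ.ap_zero, Gm.abs_ap_sub, sub_zero, abs_of_pos d1]
      have b3 := abs_le.1 b2.le
      rw [hr δ d1 (d2.trans_le (min_le_left _ _)), mul_inv_rev, ← mul_assoc, mul_inv_cancel_right]
      exact P.sub _ _ _ _ _ h3 (by linarith) (by linarith) (by linarith))
  exact ⟨1 / (n + 1), Nat.one_div_pos_of_nat, hn⟩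

theorem comp (P : PG A) {α β γ : Gm} {r : ℝ} (h : A (β * α⁻¹) (α.c - r) (α.c + r))
    (k : A (γ * β⁻¹) (β.c - r) (β.c + r)) : A (γ * α⁻¹) (α.c - r) (α.c + r) := by
  have := P.comp _ _ _ _ _ _ h k fun t ht => by
    have e : (β * α⁻¹).ap α.c = β.c := by rw [← Gm.mul_c', inv_mul_cancel_right]
    have := (β * α⁻¹).abs_ap_sub t α.c
    rw [e] at this
    have k := abs_le.1 (this.le.trans (abs_le.2 ⟨by linarith [ht.1], by linarith [ht.2]⟩ :
      |t - α.c| ≤ r))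
    exact ⟨by linarith [k.1], by linarith [k.2]⟩
  rwa [mul_assoc, inv_mul_cancel_left] at this

/-- not all steps are two sided -/
theorem not_all (P : PG A) (L : LS X) (h : ∀ y : Gm × Bool, y.1 ∈ X → RW2 A y.1 (L.f y).1) :
    False := by
  obtain ⟨r, r0, hr⟩ : ∃ r > 0, ∀ y : Gm × Bool, y.1 ∈ X →
      A ((L.f y).1 * y.1⁻¹) (y.1.c - r) (y.1.c + r) := by
    obtain ⟨r1, a1, b1⟩ := radius P L h true
    obtain ⟨r2, a2, b2⟩ := radius P L h false
    have c0 := lt_min a1 a2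
    have c1 := min_le_left r1 r2
    have c2 := min_le_right r1 r2
    refine ⟨min r1 r2, c0, fun ⟨γ, e⟩ hγ => ?_⟩
    cases e
    · exact P.sub _ _ _ _ _ (b2 γ hγ) (by linarith) (by linarith) (by linarith)
    · exact P.sub _ _ _ _ _ (b1 γ hγ) (by linarith) (by linarith) (by linarith)
  obtain ⟨γ, hγ⟩ := L.ne
  have hy : ((γ, true) : Gm × Bool).1 ∈ X := hγ
  generalize ((γ, true) : Gm × Bool) = y at hy
  have st : ∀ k : ℤ, A (L.at' y (k + 1) * (L.at' y k)⁻¹) ((L.at' y k).c - r) ((L.at' y k).c + r) :=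
    fun k => step_at L y k ▸ hr _ (L.at_mem hy k)
  have key : ∀ m n : ℕ, m + 1 ≤ n →
      A (L.at' y n * (L.at' y m)⁻¹) ((L.at' y m).c - r) ((L.at' y m).c + r) := by
    intro m n hmn
    induction n, hmn using Nat.le_induction with
    | base => exact_mod_cast st m
    | succ n _ ih => exact comp P ih (by exact_mod_cast st n)
  obtain ⟨ε, e0, hε⟩ := P.small (2 * r) (by linarith)
  obtain ⟨a, b, -, hab⟩ := L.co.bdd
  obtain ⟨m, -, n, -, hmn, e⟩ := (infinite_univ (α := ℕ)).exists_lt_map_eq_of_mapsTo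
    (f := fun n : ℕ => ((L.at' y n).ε, ⌊(L.at' y n).c / ε⌋))
    (t := ({1, -1} : Set ℝ) ×ˢ Icc ⌊a / ε⌋ ⌊b / ε⌋) (fun n _ => by
      have := c_mem_of_GI (hab (L.at_mem hy n))
      exact ⟨(L.at' y n).h, Int.floor_le_floor (div_le_div_of_nonneg_right this.1 e0.le),
        Int.floor_le_floor (div_le_div_of_nonneg_right this.2 e0.le)⟩)
    ((toFinite _).prod (finite_Icc _ _))
  have e1 : (L.at' y m).ε = (L.at' y n).ε := congrArg Prod.fst e
  have e2 := Int.abs_sub_lt_one_of_floor_eq_floor (congrArg Prod.snd e).symm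
  rw [← sub_div, abs_div, abs_of_pos e0, div_lt_one e0] at e2
  have e3 : L.at' y n * (L.at' y m)⁻¹ = Gm.tau ((L.at' y n).c - (L.at' y m).c) := by
    refine Gm.ext (by simp [e1, Gm.eps_sq]) ?_
    simp only [Gm.mul_c, Gm.inv_c, Gm.tau_c, e1]
    linear_combination (-(L.at' y m).c) * (L.at' y n).eps_sq
  have k := key m n hmn
  rw [e3] at k
  have e4 := hε _ _ _ k (by linarith) e2.le
  have := L.at_inj hy (Gm.ext e1 (by linarith))
  omega

/-- far out all steps of a leaf are two sided -/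
theorem far (L : LS X) (hW : L.Weak A) (y : Gm × Bool) (hy : y.1 ∈ X) : ∃ n : ℕ, ∀ k : ℤ,
    (n : ℤ) ≤ |k| → RW2 A ((L.f ^ k) y).1 (L.f ((L.f ^ k) y)).1 := by
  have hf := hW.finite_sing.preimage (f := fun k : ℤ => (L.f ^ k) y)
    (fun a _ b _ e => L.inj y hy (congrArg Prod.fst e))
  obtain ⟨n, hn⟩ := (hf.image Int.natAbs).bddAbove
  refine ⟨n + 1, fun k hk => ?_⟩
  by_contra e
  have := hn ⟨k, ⟨L.at_mem hy k, e⟩, rfl⟩
  rw [Int.abs_eq_natAbs] at hk
  omega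

/-- the two tails of a leaf are related -/
theorem tails (P : PG A) (L : LS X) (hW : L.Weak A) (y : Gm × Bool) (hy : y.1 ∈ X)
    (hn : ∀ n : ℕ, ∃ a b : ℤ, a ≤ -n ∧ (n : ℤ) ≤ b ∧ RW2 A (L.at' y a) (L.at' y b)) :
    ∃ n : ℕ, ∀ a b : ℤ, a ≤ -n → (n : ℤ) ≤ b → RW2 A (L.at' y a) (L.at' y b) := by
  obtain ⟨n, h⟩ := far L hW y hy
  obtain ⟨a0, b0, h1, h2, h3⟩ := hn n
  refine ⟨n, fun a b ha hb => ?_⟩
  have k1 : RW2 A (L.at' y a) (L.at' y b0) := by
    rcases lt_trichotomy a a0 with e | e | e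
    · exact P.rw2_trans (L.rw2_stretch P e fun k _ k2 => h k (le_abs.2 (Or.inr (by omega)))) h3
    · rwa [e]
    · exact P.rw2_trans
        (P.rw2_symm (L.rw2_stretch P e fun k _ k2 => h k (le_abs.2 (Or.inr (by omega))))) h3
  rcases lt_trichotomy b0 b with e | e | e
  · exact P.rw2_trans k1 (L.rw2_stretch P e fun k k2 _ => h k (le_abs.2 (Or.inl (by omega))))
  · rwa [← e]
  · exact P.rw2_trans k1
      (P.rw2_symm (L.rw2_stretch P e fun k k2 _ => h k (le_abs.2 (Or.inl (by omega)))))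

end D_essA

open D_essA in
theorem p_D_ESS (hD_RET : S_D_RET) :
    S_D_ESS := by
  intro A P X L hW
  by_contra hn
  push Not at hn
  choose! n hn using fun y hy => tails P L hW y hy (hn y hy)
  obtain ⟨Bad, hB, hB'⟩ : ∃ Bad : Set Gm, Bad.Finite ∧ ∀ z : Gm × Bool, z.1 ∈ X →
      ¬RW2 A z.1 (L.f z).1 → ∀ k : ℤ, -(n z : ℤ) ≤ k → k ≤ n z → L.at' z k ∈ Bad :=
    ⟨_, hW.finite_sing.biUnion fun z _ => (finite_Icc (-(n z : ℤ)) (n z)).image (L.at' z),
      fun z h1 h2 k k1 k2 => mem_biUnion (x := z) ⟨h1, h2⟩ ⟨k, ⟨k1, k2⟩, rfl⟩⟩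
  have key : ∀ y : Gm × Bool, y.1 ∈ X → ∀ a b : ℤ, a < b → L.at' y a ∉ Bad → L.at' y b ∉ Bad →
      RW2 A (L.at' y a) (L.at' y b) := by
    intro y hy a b hab ha hb
    by_cases h : ∀ k, a ≤ k → k < b → RW2 A ((L.f ^ k) y).1 (L.f ((L.f ^ k) y)).1
    · exact L.rw2_stretch P hab h
    · push Not at h
      obtain ⟨k, k1, k2, k3⟩ := h
      have hz : ((L.f ^ k) y).1 ∈ X := L.at_mem hy k
      have e1 : L.at' y a = L.at' ((L.f ^ k) y) (a - k) := by rw [L.at_add, sub_add_cancel]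
      have e2 : L.at' y b = L.at' ((L.f ^ k) y) (b - k) := by rw [L.at_add, sub_add_cancel]
      rw [e1] at ha ⊢
      rw [e2] at hb ⊢
      refine hn _ hz _ _ ?_ ?_
      · by_contra e
        exact ha (hB' _ hz k3 _ (by omega) (by omega))
      · by_contra e
        exact hb (hB' _ hz k3 _ (by omega) (by omega))
  obtain ⟨a, b, hab, hX⟩ := exists_GI_subset L.co.2 L.ne
  obtain ⟨u, v, h1, h2, h3, h4⟩ := exists_Icc_avoid (hB.image Gm.c) hab
  have hU : GI u v ⊆ X := (GI_mono h1.le h3.le).trans hX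
  have hU' : ∀ γ ∈ GI u v, γ ∉ Bad := fun γ hγ e => h4 _ (c_mem_of_GI hγ) ⟨γ, e, rfl⟩
  obtain ⟨L1, -, hL⟩ := hD_RET X (GI u v) L co_GI (GI_nonempty.2 h2) hU
  refine not_all P L1 fun y hy => ?_
  obtain ⟨r, r0, e, -⟩ := hL y hy
  have m1 := (L1.mem y).2 hy
  rw [e, ← L.at_nat] at m1 ⊢
  have := key y (hU hy) 0 r (by omega) (by rw [L.at_zero]; exact hU' _ hy) (hU' _ m1)
  rwa [L.at_zero] at this

end Pool.Agent.P.MP_dba3d2_lc
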