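import Pool.Agent.P.MP_dba3d2_lc.D.Iface4
import Pool.Agent.P.MP_dba3d2_lc.D.TreeB

/-! Step D_EXTC of the stability project. -/

namespace Pool.Agent.P.MP_dba3d2_lc

open Set Filter Topology

namespace D_extcA

variable {R : RT} {Ad : R.W → Prop} {G : Type} [Group G] {Φ : R.W → G}

/-- geodesic chains of admissible arcs with their values -/
inductive Gc (Ad : R.W → Prop) (Φ : R.W → G) (x : R.W) : R.W → G → Prop
  | nil : Gc Ad Φ x x 1
  | snoc {y z : R.W} {a : G} : Gc Ad Φ x y a → Ad (y⁻¹ * z) → R.On y x z →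
      Gc Ad Φ x z (a * Φ (y⁻¹ * z))

/-- the hypotheses for pairs of points -/
structure Hy (Ad : R.W → Prop) (Φ : R.W → G) : Prop where
  split : ∀ x z m, Ad (x⁻¹ * z) → R.On m x z →
    Ad (x⁻¹ * m) ∧ Ad (m⁻¹ * z) ∧ Φ (x⁻¹ * z) = Φ (x⁻¹ * m) * Φ (m⁻¹ * z)
  inv : ∀ x y, Ad (x⁻¹ * y) → Ad (y⁻¹ * x) ∧ Φ (y⁻¹ * x) = (Φ (x⁻¹ * y))⁻¹
  zero : ∀ x y, R.d x y = 0 → Ad (x⁻¹ * y)

variable {x y z m : R.W} {a b : G}

theorem Gc.one (h : Ad (x⁻¹ * y)) : Gc Ad Φ x y (Φ (x⁻¹ * y)) := by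
  simpa only [one_mul] using Gc.snoc (Φ := Φ) Gc.nil h (LG.on_left x y)

theorem Gc.shift (h : Gc Ad Φ x y a) (g : R.W) : Gc Ad Φ (g * x) (g * y) a := by
  induction h with
  | nil => exact Gc.nil
  | @snoc y z a _ h2 h3 ih =>
    have e : y⁻¹ * z = (g * y)⁻¹ * (g * z) := by group
    rw [e] at h2 ⊢
    exact ih.snoc h2 ((LG.on_mul_left g).2 h3)

theorem Gc.mem (h : Gc Ad Φ 1 y a) : y ∈ Subgroup.closure {g | Ad g} := by
  induction h with
  | nil => exact one_mem _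
  | @snoc y z a _ h2 _ ih =>
    simpa only [mul_inv_cancel_left] using mul_mem ih (Subgroup.subset_closure h2)

variable (H : Hy Ad Φ)
include H

theorem Hy.self (x : R.W) : Φ (x⁻¹ * x) = 1 :=
  left_eq_mul.1 (H.split x x x (H.zero x x (LG.d_self x)) (LG.on_left x x)).2.2

theorem Hy.val (h : Gc Ad Φ x y a) (k : Ad (x⁻¹ * y)) : a = Φ (x⁻¹ * y) := by
  induction h with
  | nil => exact (H.self x).symm
  | snoc _ _ h3 ih =>
    obtain ⟨k1, -, k3⟩ := H.split _ _ _ k h3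
    rw [k3, ih k1]

theorem Hy.cut (h : Gc Ad Φ x y a) (k : R.On m x y) :
    ∃ a1 a2, Gc Ad Φ x m a1 ∧ Gc Ad Φ m y a2 ∧ a = a1 * a2 := by
  induction h with
  | nil =>
    have e : R.d x m = 0 := by
      unfold LG.On at k
      rw [LG.d_self, LG.d_comm m x] at k
      linarith
    have k1 := H.zero _ _ e
    obtain ⟨k2, k3⟩ := H.inv _ _ k1
    exact ⟨_, _, Gc.one k1, Gc.one k2, by rw [k3, mul_inv_cancel]⟩
  | @snoc y z a h1 h2 h3 ih =>
    rcases le_total (R.d x m) (R.d x y) with l | l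
    · obtain ⟨k1, k2⟩ := R.on_of_le k h3 l
      obtain ⟨a1, a2, g1, g2, e⟩ := ih k1
      exact ⟨a1, _, g1, g2.snoc h2 k2, by rw [e, mul_assoc]⟩
    · obtain ⟨k1, k2⟩ := R.on_of_le h3 k l
      obtain ⟨g1, g2, e⟩ := H.split _ _ _ h2 k2
      exact ⟨_, _, h1.snoc g1 k1, Gc.one g2, by rw [e, mul_assoc]⟩

theorem Hy.app (h : Gc Ad Φ x y a) (k : Ad (y⁻¹ * z)) : Gc Ad Φ x z (a * Φ (y⁻¹ * z)) := by
  obtain ⟨m, k1, k2, k3⟩ := R.exists_centre x y z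
  obtain ⟨a1, a2, g1, g2, e⟩ := H.cut h k1
  obtain ⟨l1, l2, l3⟩ := H.split _ _ _ k k2
  obtain ⟨l4, l5⟩ := H.inv _ _ l1
  rw [e, l3, H.val g2 l4, l5, mul_assoc, inv_mul_cancel_left]
  exact g1.snoc l2 k3

theorem Hy.trans (h : Gc Ad Φ x y a) (k : Gc Ad Φ y z b) : Gc Ad Φ x z (a * b) := by
  induction k with
  | nil => rwa [mul_one]
  | snoc _ h2 _ ih =>
    rw [← mul_assoc]
    exact H.app ih h2

theorem Hy.symm (h : Gc Ad Φ x y a) : Gc Ad Φ y x a⁻¹ := by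
  induction h with
  | nil => rw [inv_one]; exact Gc.nil
  | snoc _ h2 _ ih =>
    obtain ⟨k1, k2⟩ := H.inv _ _ h2
    rw [mul_inv_rev, ← k2]
    exact H.trans (Gc.one k1) ih

theorem Hy.uniq (h : Gc Ad Φ x y a) (k : Gc Ad Φ x y b) : a = b :=
  mul_inv_eq_one.1 ((H.val (H.trans h (H.symm k)) (H.zero x x (LG.d_self x))).trans (H.self x))

theorem Hy.mul (h : Gc Ad Φ 1 x a) (k : Gc Ad Φ 1 y b) : Gc Ad Φ 1 (x * y) (a * b) :=
  H.trans h (by simpa only [mul_one] using k.shift x)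

theorem Hy.ex (h : x ∈ Subgroup.closure {g | Ad g}) : ∃ a, Gc Ad Φ 1 x a := by
  induction h using Subgroup.closure_induction with
  | mem x hx => exact ⟨_, Gc.one (by rw [inv_one, one_mul]; exact hx)⟩
  | one => exact ⟨1, Gc.nil⟩
  | mul x y _ _ hx hy => exact let ⟨_, a⟩ := hx; let ⟨_, b⟩ := hy; ⟨_, H.mul a b⟩
  | inv x _ hx =>
    obtain ⟨a, h⟩ := hx
    exact ⟨a⁻¹, by simpa only [inv_mul_cancel, mul_one] using (H.symm h).shift x⁻¹⟩

end D_extcA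

open D_extcA in
theorem p_D_EXTC :
    S_D_EXTC := by
  intro R Ad G _ Φ h1 h2 h3
  have H : Hy Ad Φ := by
    refine ⟨fun x z m k l => ?_, fun x y k => ?_, fun x y k => h3 _ k⟩
    · have e : m⁻¹ * z = (x⁻¹ * m)⁻¹ * (x⁻¹ * z) := by group
      rw [e]
      refine h1 _ _ k ?_
      rw [← inv_mul_cancel x]
      exact (LG.on_mul_left _).2 l
    · have e : y⁻¹ * x = (x⁻¹ * y)⁻¹ := by group
      rw [e]
      exact h2 _ k
  refine ⟨fun h hh p hp => ?_, ?_⟩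
  · obtain ⟨a, k⟩ := H.ex hh
    obtain ⟨_, _, k1, -, -⟩ := H.cut k hp
    exact k1.mem
  · choose σ hσ using fun t : Subgroup.closure {g | Ad g} => H.ex t.2
    refine ⟨MonoidHom.mk' σ fun s t => H.uniq (hσ (s * t)) (H.mul (hσ s) (hσ t)), fun t ht => ?_⟩
    have e := H.val (hσ t) (by rw [inv_one, one_mul]; exact ht)
    rwa [inv_one, one_mul] at e

end Pool.Agent.P.MP_dba3d2_lc
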