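import Pool.Agent.P.MP_dba3d2_lc.D.Iface4

/-! Step D_EXTEND of the stability project. -/

namespace Pool.Agent.P.MP_dba3d2_lc

open Set Filter Topology

theorem p_D_EXTEND :
    S_D_EXTEND := by
  classical
  intro G _ Vx E src tgt a a' rev V Z h N₀ h1 h2 h3 h4 h5
  obtain ⟨N, hN⟩ : ∃ N : Vx → G, ∀ v, N v = if hv : ∃ e, src e = v ∧ h (tgt e) < h v then
      (a' hv.choose)⁻¹ * N (tgt hv.choose) * a hv.choose else if v ∈ V then N₀ v else 1 :=
    ⟨(InvImage.wf h wellFounded_lt).fix fun v ih =>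
      if hv : ∃ e, src e = v ∧ h (tgt e) < h v then
        (a' hv.choose)⁻¹ * ih (tgt hv.choose) hv.choose_spec.2 * a hv.choose
      else if v ∈ V then N₀ v else 1, fun v => by rw [WellFounded.fix_eq]⟩
  have k1 : ∀ v ∈ V, N v = N₀ v := fun v hv => by
    rw [hN, dif_neg, if_pos hv]
    rintro ⟨e, -, he⟩
    rw [(h2 v hv).1] at he
    exact Nat.not_lt_zero _ he
  have k2 : ∀ v, N v ∈ Z := fun v => by
    induction v using (InvImage.wf h wellFounded_lt).induction with
    | _ v ih =>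
      rw [hN]
      split_ifs with c d
      · exact h4 _ _ (ih _ c.choose_spec.2)
      · exact (h2 v d).2
      · exact Z.one_mem
  have k3 : ∀ e, h (tgt e) < h (src e) → N (src e) = (a' e)⁻¹ * N (tgt e) * a e := fun e he => by
    have c : ∃ e', src e' = src e ∧ h (tgt e') < h (src e) := ⟨e, rfl, he⟩
    obtain ⟨c1, c2⟩ := h5 c.choose e c.choose_spec.1
      (by rw [c.choose_spec.1]; exact c.choose_spec.2) he
    rw [hN, dif_pos c, c2 _ (k2 _), c1]
  refine ⟨N, k1, k2, fun e => ?_⟩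
  rcases h3 e with ⟨c1, c2, c3⟩ | c
  · rw [k1 _ c1, k1 _ c2, c3]
  · rcases lt_or_gt_of_ne c with d | d
    · obtain ⟨r1, r2, r3, r4⟩ := h1 e
      have k := k3 (rev e) (by rwa [r1, r2])
      rw [r1, r2, r3, r4] at k
      rw [k]
      group
    · rw [k3 e d]
      group

end Pool.Agent.P.MP_dba3d2_lc
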