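import Pool.Agent.P.MP_dba3d2_lc.D.Iface2
import Pool.Agent.P.MP_dba3d2_lc.D.SysB

/-! Step D_FAM of the stability project. -/

namespace Pool.Agent.P.MP_dba3d2_lc

open Set Filter Topology

namespace D_famA

/-- `s` is the distance from `γ` to the next point of `E` -/
def Nx (E : Set ℝ) (γ : Gm) (s : ℝ) : Prop :=
  0 < s ∧ γ.ap s ∈ E ∧ ∀ t, 0 < t → γ.ap t ∈ E → s ≤ t

variable {E : Set ℝ} {γ : Gm} {s s' a b : ℝ}

theorem Nx.uniq (h : Nx E γ s) (h' : Nx E γ s') : s = s' :=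
  (h.2.2 _ h'.1 h'.2.1).antisymm (h'.2.2 _ h.1 h.2.1)

theorem exists_nx (hE : E.Finite) (ha : a ∈ E) (hb : b ∈ E) (h : γ ∈ GI a b) :
    ∃ s, Nx E γ s := by
  obtain ⟨s, h1, h2⟩ := exists_min_image {s | 0 < s ∧ γ.ap s ∈ E} id
    ((hE.preimage γ.ap_injective.injOn).subset fun _ h => h.2) (by
      rcases γ.h with e | e
      · exact ⟨b - γ.c, sub_pos.2 ((mem_GI_pos e).1 h).2, by simpa [Gm.ap, e] using hb⟩
      · exact ⟨γ.c - a, sub_pos.2 ((mem_GI_neg e).1 h).1, by simpa [Gm.ap, e] using ha⟩)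
  exact ⟨s, h1.1, h1.2, fun t t1 t2 => h2 t ⟨t1, t2⟩⟩

theorem Nx.cell (h : Nx E γ s) (hc : γ.c ∈ E) : ∃ u ∈ E, ∃ v ∈ E, Free E u v ∧
    seg γ s = GI u v ∧ (γ = Gm.tau u ∧ seg γ (s / 2) = GI u ((u + v) / 2) ∨
      γ = (Gm.tau v).opp ∧ seg γ (s / 2) = GI ((u + v) / 2) v) := by
  rcases γ.h with e | e
  · refine ⟨_, hc, γ.c + s, by simpa [Gm.ap, e, add_comm] using h.2.1, fun t ht k => ?_,
      seg_pos e, Or.inl ⟨Gm.eq_tau e, (seg_pos e).trans (by congr 1; ring)⟩⟩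
    linarith [h.2.2 (t - γ.c) (by linarith [k.1]) (by simpa [Gm.ap, e] using ht), k.2]
  · refine ⟨γ.c - s, by simpa [Gm.ap, e, neg_add_eq_sub] using h.2.1, _, hc, fun t ht k => ?_,
      seg_neg e, Or.inr ⟨Gm.ext (by simp [e]) (by simp), (seg_neg e).trans (by congr 1; ring)⟩⟩
    linarith [h.2.2 (γ.c - t) (by linarith [k.2]) (by simpa [Gm.ap, e] using ht), k.1]

end D_famA

open D_famA in
theorem p_D_FAM (hD_MINC : S_D_MINC) :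
    S_D_FAM := by
  intro ι _ S X F hX hS
  obtain ⟨O, hO⟩ : ∃ O, O = X \ {γ | (S.orb γ).Infinite} := ⟨_, rfl⟩
  have mO : ∀ γ, γ ∈ O ↔ γ ∈ X ∧ (S.orb γ).Finite := fun γ => by simp [hO]
  have iO : S.Inv O := hO ▸ hS.inv.diff S.inv_infinite
  obtain ⟨E0, e1, e2, a, ha, b, hb, -, e3⟩ := exists_ends
    (W := fun o : Option ι => o.elim O S.dom) (by
      rintro (_ | i)
      exacts [hO ▸ hX.diff (hD_MINC ι S).1, S.co i])
  obtain ⟨E, hE, s0, sF, K⟩ : ∃ E : Set ℝ, E.Finite ∧ ↑E0 ⊆ E ∧ ↑F ⊆ E ∧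
      ∀ γ ∈ O, γ.c ∈ E → ∀ i, γ ∈ S.dom i → (S.φ i * γ).c ∈ E := by
    have f0 : ((E0 : Set ℝ) ∪ F).Finite := E0.finite_toSet.union F.finite_toSet
    refine ⟨(E0 ∪ F) ∪ Gm.c '' ⋃ α ∈ {α | α ∈ O ∧ α.c ∈ (E0 : Set ℝ) ∪ F}, S.orb α,
      f0.union (Finite.image _ (((Gm.finite_over f0).subset fun _ h => h.2).biUnion
        fun α h => ((mO α).1 h.1).2)), fun _ h => Or.inl (Or.inl h), fun _ h => Or.inl (Or.inr h),
      fun γ h1 h2 i hi => Or.inr ?_⟩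
    by_cases h0 : γ.c ∈ (E0 : Set ℝ) ∪ F
    · exact ⟨_, mem_biUnion ⟨h1, h0⟩ (Sys.rel_φ hi), rfl⟩
    obtain ⟨β, h3, h4⟩ := h2.resolve_left h0
    obtain ⟨α, h5, h6⟩ := mem_iUnion₂.1 h3
    rcases Gm.eq_or_opp h4 with rfl | rfl
    · exact ⟨_, mem_biUnion h5 (Sys.Rel.trans h6 (Sys.rel_φ hi)), rfl⟩
    · exact ⟨_, mem_biUnion h5 (Sys.Rel.trans h6 (Sys.rel_φ
        ((e2 (some i) γ fun h => h0 (Or.inl h)).2 hi))), by rw [Gm.mul_opp, Gm.opp_c]⟩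
  have same : ∀ u v, Free E u v → ∀ γ ∈ GI u v, ∀ β ∈ GI u v, ∀ o : Option ι,
      γ ∈ o.elim O S.dom → β ∈ o.elim O S.dom := fun u v h γ h1 β h2 o h3 =>
    (e1 o u v (h.mono s0)).elim (fun k => k h2) fun k => (disjoint_left.1 k h1 h3).elim
  choose! N hN using fun γ (h : γ ∈ O) => exists_nx hE (s0 ha) (s0 hb) (e3 none h)
  have sm : ∀ γ ∈ O, γ.c ∈ E → ∀ β ∈ seg γ (N γ), ∀ o : Option ι,
      (β ∈ o.elim O S.dom ↔ γ ∈ o.elim O S.dom) := fun γ h1 h2 β h3 o => by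
    obtain ⟨u, -, v, -, k1, k2, -⟩ := (hN γ h1).cell h2
    have h4 := self_mem_seg (γ := γ) (hN γ h1).1
    rw [k2] at h3 h4
    exact ⟨same u v k1 _ h3 _ h4 o, same u v k1 _ h4 _ h3 o⟩
  have half : ∀ γ ∈ O, seg γ (N γ / 2) ⊆ seg γ (N γ) := fun γ h =>
    seg_mono (half_le_self (hN γ h).1.le)
  have le : ∀ γ ∈ O, γ.c ∈ E → ∀ i, γ ∈ S.dom i → N (S.φ i * γ) ≤ N γ := fun γ h1 h2 i hi => by
    have k : γ * (Gm.tau (N γ)).opp ∈ seg γ (N γ) :=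
      mul_mem_seg.2 (opp_tau_mem_GI.2 ⟨(hN γ h1).1, le_rfl⟩)
    refine (hN _ (iO i γ hi h1)).2.2 _ (hN γ h1).1 ?_
    rw [Gm.mul_ap]
    simpa [Gm.ap] using K _ ((sm γ h1 h2 _ k none).2 h1)
      (by simpa [Gm.ap] using (hN γ h1).2.1) i ((sm γ h1 h2 _ k (some i)).2 hi)
  have fE : {γ | γ ∈ O ∧ γ.c ∈ E}.Finite := (Gm.finite_over hE).subset fun _ h => h.2
  refine ⟨fE.toFinset, fun γ => N γ / 2, ?_, ?_, ?_, ?_, ?_, ?_, ?_⟩ <;>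
    simp only [Finite.mem_toFinset, mem_ofPred_eq]
  · exact fun γ h => half_pos (hN γ h.1).1
  · exact fun γ h β k => (mO β).1 ((sm γ h.1 h.2 β (half γ h.1 k) none).2 h.1)
  · intro β h1 h2
    have h3 := (mO β).2 ⟨h1, h2⟩
    obtain ⟨u, hu, v, hv, -, uv, -, k1, k2⟩ := exists_cell hE (s0 ha) (s0 hb) (e3 none h3)
    have m1 := same u v k1 β k2 _ (tau_mem_GI.2 ⟨le_rfl, uv⟩) none h3
    have m2 := same u v k1 β k2 _ (opp_tau_mem_GI.2 ⟨uv, le_rfl⟩) none h3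
    have n1 : N (Gm.tau u) = v - u := (hN _ m1).uniq ⟨sub_pos.2 uv, by simpa using hv,
      fun t t1 t2 => not_lt.1 fun t3 => k1 (t + u) (by simpa using t2) ⟨by linarith, by linarith⟩⟩
    have n2 : N (Gm.tau v).opp = v - u := (hN _ m2).uniq ⟨sub_pos.2 uv, by simpa using hu,
      fun t t1 t2 => not_lt.1 fun t3 => k1 (-t + v) (by simpa using t2) ⟨by linarith, by linarith⟩⟩
    rw [← GI_union (t := (u + v) / 2) (by linarith) (by linarith)] at k2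
    rcases k2 with k2 | k2
    · refine ⟨_, ⟨m1, hu⟩, ?_⟩
      rwa [seg_pos rfl, n1, Gm.tau_c, show u + (v - u) / 2 = (u + v) / 2 by ring]
    · refine ⟨_, ⟨m2, by simpa using hv⟩, ?_⟩
      rwa [seg_neg (by simp), n2, Gm.opp_c, Gm.tau_c, show v - (v - u) / 2 = (u + v) / 2 by ring]
  · intro γ h γ' h' β k k'
    obtain ⟨u, hu, v, hv, k1, k2, k3⟩ := (hN γ h.1).cell h.2
    obtain ⟨u', hu', v', hv', k1', k2', k3'⟩ := (hN γ' h'.1).cell h'.2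
    obtain ⟨rfl, rfl⟩ := cell_unique hu hv hu' hv' k1 k1' (k2 ▸ half γ h.1 k) (k2' ▸ half γ' h'.1 k')
    rcases k3 with ⟨a1, a2⟩ | ⟨a1, a2⟩ <;> rcases k3' with ⟨b1, b2⟩ | ⟨b1, b2⟩
    · exact a1.trans b1.symm
    · exact (disjoint_left.1 (GI_disjoint le_rfl) (a2 ▸ k) (b2 ▸ k')).elim
    · exact (disjoint_left.1 (GI_disjoint le_rfl) (b2 ▸ k') (a2 ▸ k)).elim
    · exact a1.trans b1.symm
  · exact fun γ h i β k => sm γ h.1 h.2 β (half γ h.1 k) (some i)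
  · intro γ h i hi
    have h1 := iO i γ hi h.1
    have h2 := K γ h.1 h.2 i hi
    have h3 := le _ h1 h2 _ (S.map i γ hi)
    rw [S.φ_inv_mul] at h3
    exact ⟨⟨h1, h2⟩, by rw [(le γ h.1 h.2 i hi).antisymm h3]⟩
  · exact fun γ h1 h2 h3 => ⟨(mO γ).2 ⟨h1, h2⟩, sF h3⟩

end Pool.Agent.P.MP_dba3d2_lc
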