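import Pool.Agent.P.MP_dba3d2_lc.D.Germ2

/-! Chapter D toolbox: the length of compact open sets of germs. -/

namespace Pool.Agent.P.MP_dba3d2_lc

open Set Filter Topology MeasureTheory

variable {a b r : ℝ} {φ γ : Gm} {U V : Set Gm}

namespace MuA

theorem sh_GI (a b : ℝ) : {t : ℝ | Gm.tau t ∈ GI a b} = Ico a b := by
  ext t
  exact tau_mem_GI

theorem meas (hU : CO U) : MeasurableSet {t : ℝ | Gm.tau t ∈ U} := by
  refine MeasurableSet.of_mem_nhdsGT fun x hx => ?_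
  obtain ⟨r, h1, h2⟩ := hU.2 _ hx
  filter_upwards [Ioo_mem_nhdsGT (show x < x + r by linarith)] with y hy
  have := h2 (Gm.tau (y - x)) (by simpa using hy.1) (by simp only [Gm.tau_c]; linarith [hy.2])
  rwa [Gm.tau_mul_tau, add_sub_cancel] at this

theorem fin (hU : CO U) : volume {t : ℝ | Gm.tau t ∈ U} ≠ ⊤ := by
  obtain ⟨a, b, -, h⟩ := hU.bdd
  refine measure_ne_top_of_subset (s := Ico a b) (fun t ht => tau_mem_GI.1 (h ht)) ?_
  simp

theorem mu_eq (hU : CO U) : mu U = ∫ t, {t : ℝ | Gm.tau t ∈ U}.indicator 1 t :=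
  (integral_indicator_one (meas hU)).symm

theorem intg (hU : CO U) : Integrable ({t : ℝ | Gm.tau t ∈ U}.indicator (1 : ℝ → ℝ)) :=
  (integrable_indicator_iff (meas hU)).2 (integrableOn_const (fin hU))

theorem count {κ : Type} [Fintype κ] {W : κ → Set Gm} (h : ∀ i, CO (W i)) (hU : CO U) (hV : CO V)
    (m : ℕ) (k1 : ∀ γ ∈ U, m ≤ {i | γ ∈ W i}.ncard) (k2 : ∀ γ ∈ V, 1 ≤ {i | γ ∈ W i}.ncard)
    (k3 : ∀ γ ∈ U, γ ∈ V → m + 1 ≤ {i | γ ∈ W i}.ncard) : m * mu U + mu V ≤ ∑ i, mu (W i) := by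
  classical
  rw [Finset.sum_congr rfl fun i _ => mu_eq (h i), ← integral_finsetSum _ fun i _ => intg (h i),
    mu_eq hU, mu_eq hV, ← integral_const_mul, ← integral_add ((intg hU).const_mul _) (intg hV)]
  refine integral_mono (((intg hU).const_mul _).add (intg hV))
    (integrable_finsetSum _ fun i _ => intg (h i)) fun t => ?_
  have e : ∑ i, {t : ℝ | Gm.tau t ∈ W i}.indicator (1 : ℝ → ℝ) t =
      ({i | Gm.tau t ∈ W i}.ncard : ℝ) := by
    simp [indicator_apply, Set.ncard_eq_toFinset_card']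
  simp only [e]
  by_cases h1 : Gm.tau t ∈ U <;> by_cases h2 : Gm.tau t ∈ V
  · simpa [h1, h2] using (Nat.cast_le (α := ℝ)).2 (k3 _ h1 h2)
  · simpa [h1, h2] using k1 _ h1
  · simpa [h1, h2] using k2 _ h2
  · simp [h1, h2]

end MuA

open MuA

theorem mu_nonneg (U : Set Gm) : 0 ≤ mu U := measureReal_nonneg
@[simp] theorem mu_empty : mu ∅ = 0 := by simp [mu]
theorem mu_GI (h : a ≤ b) : mu (GI a b) = b - a := by
  rw [mu, sh_GI, Real.volume_real_Ico_of_le h]
theorem mu_union (hU : CO U) (hV : CO V) (h : Disjoint U V) : mu (U ∪ V) = mu U + mu V :=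
  measureReal_union (h.preimage Gm.tau) (meas hV) (fin hU) (fin hV)
theorem mu_mono (hV : CO V) (h : U ⊆ V) : mu U ≤ mu V :=
  measureReal_mono (fun _ ht => h ht) (fin hV)
theorem mu_union_le (U V : Set Gm) : mu (U ∪ V) ≤ mu U + mu V :=
  measureReal_union_le (Gm.tau ⁻¹' U) (Gm.tau ⁻¹' V)
theorem mu_diff (hU : CO U) (hV : CO V) (h : V ⊆ U) : mu (U \ V) = mu U - mu V :=
  measureReal_sdiff (s₁ := Gm.tau ⁻¹' U) (s₂ := Gm.tau ⁻¹' V) (fun _ ht => h ht) (meas hV) (fin hU)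
theorem mu_tr (hU : CO U) (φ : Gm) : mu (tr φ U) = mu U := by
  rcases φ.h with e | e
  · rw [mu, mu, ← (measurePreserving_sub_right volume φ.c).measureReal_preimage
      (meas hU).nullMeasurableSet]
    congr 1
    ext t
    have : φ⁻¹ * Gm.tau t = Gm.tau (t - φ.c) := Gm.ext (by simp [e]) (by simp [e, sub_eq_add_neg])
    simp [this]
  · obtain ⟨E, -, hE, -⟩ := exists_ends (W := fun _ : Unit => U) fun _ => hU
    rw [mu, mu, ← (Measure.measurePreserving_sub_left volume φ.c).measureReal_preimage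
      (meas hU).nullMeasurableSet]
    refine measureReal_congr ?_
    have h0 : ∀ᵐ t : ℝ, t ∉ (fun s => φ.c - s) '' E :=
      (E.finite_toSet.image _).countable.ae_notMem _
    filter_upwards [h0] with t ht
    have : φ⁻¹ * Gm.tau t = (Gm.tau (φ.c - t)).opp :=
      Gm.ext (by simp [e]) (by simp [e, sub_eq_neg_add])
    refine propext ?_
    change φ⁻¹ * Gm.tau t ∈ U ↔ Gm.tau (φ.c - t) ∈ U
    rw [this]
    exact hE () _ fun hh => ht ⟨_, hh, by simp⟩
theorem mu_seg (h : 0 ≤ r) : mu (seg γ r) = r := by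
  rw [seg, mu_tr co_GI, mu_GI h, sub_zero]
theorem mu_pos (hU : CO U) (h : U.Nonempty) : 0 < mu U := by
  obtain ⟨a, b, h1, h2⟩ := exists_GI_subset hU.2 h
  have := mu_mono hU h2
  rw [mu_GI h1.le] at this
  linarith
theorem mu_lt (hU : CO U) (hV : CO V) (h : U ⊆ V) (h1 : γ ∈ V) (h2 : γ ∉ U) : mu U < mu V := by
  have := mu_pos (hV.diff hU) ⟨γ, h1, h2⟩
  rw [mu_diff hV hU h] at this
  linarith
theorem eq_of_mu_le (hU : CO U) (hV : CO V) (h : U ⊆ V) (k : mu V ≤ mu U) : U = V :=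
  h.antisymm fun _ h1 => by_contra fun h2 => absurd (mu_lt hU hV h h1 h2) (not_lt.2 k)
theorem mu_iUnion {κ : Type} [Fintype κ] {W : κ → Set Gm} (h : ∀ i, CO (W i))
    (hd : ∀ i j, i ≠ j → Disjoint (W i) (W j)) : mu (⋃ i, W i) = ∑ i, mu (W i) := by
  have := measureReal_iUnion_fintype (μ := volume) (f := fun i => Gm.tau ⁻¹' W i)
    (fun i j e => (hd i j e).preimage Gm.tau) (fun i => meas (h i)) fun i => fin (h i)
  rwa [← preimage_iUnion] at this
theorem mu_iUnion_le {κ : Type} [Fintype κ] (W : κ → Set Gm) : mu (⋃ i, W i) ≤ ∑ i, mu (W i) := by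
  have := measureReal_iUnion_fintype_le (μ := volume) fun i => Gm.tau ⁻¹' W i
  rwa [← preimage_iUnion] at this
/-- double counting, lower bound -/
theorem mu_count_ge {κ : Type} [Fintype κ] {W : κ → Set Gm} (h : ∀ i, CO (W i)) (hU : CO U) (m : ℕ)
    (k : ∀ γ ∈ U, m ≤ {i | γ ∈ W i}.ncard) : m * mu U ≤ ∑ i, mu (W i) := by
  simpa using count h hU CO.empty m k (fun _ e => e.elim) fun _ _ e => e.elim
/-- double counting, the case of equality -/
theorem mu_count_eq {κ : Type} [Fintype κ] {W : κ → Set Gm} (h : ∀ i, CO (W i)) (hU : CO U) (m : ℕ)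
    (k : ∀ γ ∈ U, m ≤ {i | γ ∈ W i}.ncard) (e : ∑ i, mu (W i) ≤ m * mu U) :
    (∀ γ ∈ U, {i | γ ∈ W i}.ncard = m) ∧ ∀ i, W i ⊆ U := by
  have h1 : CO {γ | γ ∈ U ∧ m + 1 ≤ {i | γ ∈ W i}.ncard} := hU.sep fun γ _ => by
    have : ∀ᶠ β in 𝓝 γ, ∀ i, (β ∈ W i ↔ γ ∈ W i) := eventually_all.2 fun i => by
      by_cases hi : γ ∈ W i
      · filter_upwards [(h i).2.mem_nhds hi] with β hβ using iff_of_true hβ hi
      · filter_upwards [(h i).isClosed.isOpen_compl.mem_nhds hi] with β hβ using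
          iff_of_false hβ hi
    filter_upwards [this] with β hβ
    simp only [hβ]
  have h2 := h1.union ((CO.iUnion h).diff hU)
  have h3 := count h hU h2 m k (fun γ hγ => ?_) fun γ h4 hγ => hγ.elim And.right fun h5 =>
    absurd h4 h5.2
  · have h4 := not_nonempty_iff_eq_empty.1 fun hh => absurd (mu_pos h2 hh) (by linarith)
    rw [eq_empty_iff_forall_notMem] at h4
    refine ⟨fun γ hγ => le_antisymm (not_lt.1 fun hh => h4 γ (Or.inl ⟨hγ, hh⟩)) (k γ hγ),
      fun i γ hγ => by_contra fun hh => h4 γ (Or.inr ⟨mem_iUnion.2 ⟨i, hγ⟩, hh⟩)⟩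
  · rcases hγ with h4 | h4
    · exact (Nat.le_add_left 1 m).trans h4.2
    · exact (ncard_pos (toFinite _)).2 (mem_iUnion.1 h4.1)

end Pool.Agent.P.MP_dba3d2_lc
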