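import Pool.Agent.P.MP_dba3d2_lc.D.Iface2
import Pool.Agent.P.MP_dba3d2_lc.D.SysB
import Pool.Agent.P.MP_dba3d2_lc.D.Mu

/-! Step D_FOREST of the stability project. -/

namespace Pool.Agent.P.MP_dba3d2_lc

open Set Filter Topology

namespace D_forestA

variable {ι : Type} {S : Sys ι} {U V : Set Gm} {γ : Gm}

/-- the distance to `U` -/
noncomputable def ht (S : Sys ι) (U : Set Gm) (γ : Gm) : ℕ := sInf {n | ∃ β ∈ U, S.Near n γ β}

/-- the edges that go down -/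
def Dn (S : Sys ι) (U : Set Gm) (γ : Gm) (i : ι) : Prop :=
  γ ∈ S.dom i ∧ ht S U (S.φ i * γ) < ht S U γ

theorem ht_zero (h : γ ∈ U) : ht S U γ = 0 :=
  Nat.eq_zero_of_le_zero (Nat.sInf_le ⟨γ, h, rfl⟩)

theorem ht_loc [Finite ι] (hU : CO U) (h : ∃ β ∈ U, S.Rel γ β) :
    ∀ᶠ α in 𝓝 γ, ht S U α = ht S U γ := by
  obtain ⟨β, h1, h2⟩ := h
  obtain ⟨n, h3⟩ := h2.near
  have hm : ht S U γ ∈ {n | ∃ β ∈ U, S.Near n γ β} := Nat.sInf_mem ⟨n, β, h1, h3⟩
  have e1 : ∀ᶠ α in 𝓝 γ, ∃ β ∈ U, S.Near (ht S U γ) α β :=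
    (S.isClopen_near hU _).isOpen.mem_nhds hm
  have e2 : ∀ᶠ α in 𝓝 γ, ∀ m ∈ Iio (ht S U γ), ¬∃ β ∈ U, S.Near m α β :=
    (eventually_all_finite (finite_Iio _)).2 fun m hm' =>
      (S.isClopen_near hU m).isClosed.isOpen_compl.mem_nhds (Nat.notMem_of_lt_sInf hm')
  filter_upwards [e1, e2] with α a1 a2
  refine le_antisymm (Nat.sInf_le a1) (not_lt.1 fun a => a2 _ a ?_)
  exact Nat.sInf_mem (s := {n | ∃ β ∈ U, S.Near n α β}) ⟨_, a1⟩

theorem exists_dn (h0 : γ ∉ U) (h : ∃ β ∈ U, S.Rel γ β) : ∃ i, Dn S U γ i := by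
  obtain ⟨β, h1, h2⟩ := h
  obtain ⟨n, h3⟩ := h2.near
  obtain ⟨β', k1, k2⟩ : ht S U γ ∈ {n | ∃ β ∈ U, S.Near n γ β} := Nat.sInf_mem ⟨n, β, h1, h3⟩
  rcases e : ht S U γ with _ | m
  · rw [e] at k2
    exact absurd ((show γ = β' from k2) ▸ k1) h0
  · rw [e] at k2
    rcases k2 with k2 | ⟨α, ⟨i, a1, rfl⟩, k2⟩
    · have : ht S U γ ≤ m := Nat.sInf_le ⟨β', k1, k2⟩
      omega
    · have : ht S U (S.φ i * γ) ≤ m := Nat.sInf_le ⟨β', k1, k2⟩
      exact ⟨i, a1, by omega⟩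

theorem dn_loc [Finite ι] (hU : CO U) (h : ∃ β ∈ U, S.Rel γ β) :
    ∀ᶠ α in 𝓝 γ, Dn S U α = Dn S U γ := by
  have key : ∀ i, ∀ᶠ α in 𝓝 γ, (Dn S U α i ↔ Dn S U γ i) := by
    intro i
    by_cases hi : γ ∈ S.dom i
    · obtain ⟨β, h1, h2⟩ := h
      have e1 := (continuous_gm_mul (S.φ i)).continuousAt.eventually
        (ht_loc hU ⟨β, h1, (Sys.rel_φ hi).symm.trans h2⟩)
      filter_upwards [e1, ht_loc hU ⟨β, h1, h2⟩, (S.co i).2.mem_nhds hi] with α a1 a2 a3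
      simp only [Dn, a1, a2, hi, show α ∈ S.dom i from a3]
    · filter_upwards [(S.co i).isClosed.isOpen_compl.mem_nhds hi] with α a1
      exact ⟨fun a => absurd a.1 a1, fun a => absurd a.1 hi⟩
  filter_upwards [eventually_all.2 key] with α a
  exact funext fun i => propext (a i)

end D_forestA

open D_forestA in
theorem p_D_FOREST :
    S_D_FOREST := by
  intro ι _ _ S U V hU hV hUV _ hr
  let par : Gm → ι := fun γ => Classical.epsilon (Dn S U γ)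
  have hpar : ∀ γ ∈ V, Dn S U γ (par γ) := fun γ h =>
    Classical.epsilon_spec (exists_dn (fun a => disjoint_left.1 hUV a h) (hr γ h))
  refine ⟨par, ht S U, ⟨fun γ h => (hpar γ h).1, fun γ h => (hpar γ h).2, fun γ h => ht_zero h⟩,
    fun T hT hTU => ?_⟩
  let F : ι → Set Gm := fun i => {γ | γ ∈ V ∧ par γ = i}
  have hF : ∀ i, CO (F i) := fun i => hV.sep fun γ h => by
    filter_upwards [dn_loc hU (hr γ h)] with α a
    simp only [par, a]
  have hFd : ∀ i, ∀ γ ∈ F i, Dn S U γ i := fun i γ h => h.2 ▸ hpar γ h.1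
  let G : ι → Set Gm := fun i => tr (S.φ i)⁻¹ (F (S.inv i))
  have hG : ∀ i γ, γ ∈ G i ↔ S.φ i * γ ∈ F (S.inv i) := fun i γ => by simp [G]
  have hGc : ∀ i, CO (G i) := fun i => (hF _).tr _
  have hsum : ∑ i, mu (F i) = mu V := by
    rw [← mu_iUnion hF fun i j hij => disjoint_left.2 fun γ a b => hij (a.2.symm.trans b.2)]
    congr 1
    ext γ
    simp [F]
  have hsum2 : ∑ i, mu (G i) = mu V := by
    rw [← hsum, ← Equiv.sum_comp (Function.Involutive.toPerm S.inv S.inv_inv) fun i => mu (F i)]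
    exact Finset.sum_congr rfl fun i _ => mu_tr (hF _) _
  have hco : ∀ i, CO (T.dom i ∪ F i ∪ G i) := fun i => ((T.co i).union (hF i)).union (hGc i)
  have hsub : ∀ i, T.dom i ∪ F i ∪ G i ⊆ S.dom i := fun i =>
    union_subset (union_subset (hT.2.2 i) fun γ h => (hFd i γ h).1) fun γ h =>
      Sys.mem_dom_inv.1 (hFd _ _ ((hG i γ).1 h)).1
  have hmu : ∀ i, mu (T.dom i ∪ F i ∪ G i) = mu (T.dom i) + mu (F i) + mu (G i) := by
    intro i
    rw [mu_union ((T.co i).union (hF i)) (hGc i), mu_union (T.co i) (hF i)]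
    · exact disjoint_left.2 fun γ a b => disjoint_left.1 hUV (hTU i a) b.1
    · refine disjoint_left.2 fun γ a b => ?_
      have b' := (hG i γ).1 b
      rcases a with a | a
      · have := hTU _ (T.map i γ a)
        rw [hT.2.1] at this
        exact disjoint_left.1 hUV this b'.1
      · have h1 := (hFd _ _ b').2
        rw [S.φ_inv_mul] at h1
        exact lt_asymm h1 (hFd _ _ a).2
  have htot : ∑ i, mu (T.dom i ∪ F i ∪ G i) = T.tot + 2 * mu V := by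
    simp only [hmu, Finset.sum_add_distrib, hsum, hsum2, Sys.tot]
    ring
  have hle : ∀ i ∈ Finset.univ, mu (T.dom i ∪ F i ∪ G i) ≤ mu (S.dom i) := fun i _ =>
    mu_mono (S.co i) (hsub i)
  refine ⟨htot ▸ Finset.sum_le_sum hle, fun h i γ hγ => ?_⟩
  have e := (Finset.sum_eq_sum_iff_of_le hle).1
    (le_antisymm (Finset.sum_le_sum hle) (htot ▸ h)) i (Finset.mem_univ i)
  rw [← eq_of_mu_le (hco i) (S.co i) (hsub i) e.ge] at hγ
  rcases hγ with (a | a) | a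
  · exact Or.inl a
  · exact Or.inr (Or.inl ⟨a.1, a.2.symm⟩)
  · have a' := (hG i γ).1 a
    exact Or.inr (Or.inr ⟨a'.1, a'.2.symm⟩)

end Pool.Agent.P.MP_dba3d2_lc
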