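import Pool.Agent.P.MP_dba3d2_lc.D.Iface4
import Pool.Agent.P.MP_dba3d2_lc.D.T0B
import Pool.Agent.P.MP_dba3d2_lc.D.LsB

/-! Step D_GENQ of the stability project. -/

namespace Pool.Agent.P.MP_dba3d2_lc

open Set Filter Topology

namespace D_genqA

variable {R : LG} {P : ℝ → R.W} {p q : ℝ} {Ω : Finset ℝ} {c : ℕ} (T : Stg R P p q Ω c)

theorem inv_gens {g : R.W} (h : g ∈ T.gens) : g⁻¹ ∈ T.gens := by
  rcases h with h | ⟨y, ⟨h1, h2, h3⟩, h⟩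
  · exact Or.inl (LG.Stb.inv_mem h)
  · refine Or.inr ⟨fl (T.L.f y), ⟨(T.L.mem y).2 h1, h3, ?_⟩, ?_⟩ <;> rw [T.L.rev]
    exacts [h2, h.symm]

theorem step (S : R.Stb P p q) {y : Gm × Bool} (hy : y.1 ∈ GI T.z T.z') {g : R.W}
    (h : R.Mv P y.1 g (T.L.f y).1) : g ∈ T.gens := by
  obtain ⟨y₁, h1, φ, u, v, h2, h3, h4, h5, h6⟩ := T.cov y hy
  exact Or.inr ⟨y₁, h1, h6 ▸ (S.rl_of_mv h2 h3 (h5 ▸ h)).mv h4⟩

theorem chain (S : R.Stb P p q) {γ : Gm} (hγ : γ ∈ GI T.z T.z') (n : ℤ) :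
    ∃ g ∈ Subgroup.closure T.gens, R.Mv P γ g (T.L.at' (γ, true) n) := by
  refine (LS.LsBA.ind T.L (y := (γ, true))
    (Q := fun β => β ∈ GI T.z T.z' ∧ ∃ g ∈ Subgroup.closure T.gens, R.Mv P γ g β)
    ⟨hγ, 1, one_mem _, LG.mv_one P γ⟩ ?_ n).2
  rintro y ⟨hy, g, h1, h2⟩
  obtain ⟨-, -, g', h3⟩ := LG.rw_arc_iff.1 (T.sat.weak y hy)
  exact ⟨(T.L.mem y).2 hy, g' * g, mul_mem (Subgroup.subset_closure (step T S hy h3)) h1,
    h2.trans h3⟩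

end D_genqA

open D_genqA

theorem p_D_GENQ :
    S_D_GENQ := by
  intro R P p q S Ω c T
  have sub : GI T.z T.z' ⊆ GI p q := GI_mono T.lo T.hi
  have e : Subgroup.closure T.gens = R.QJ P T.z T.z' := by
    refine le_antisymm ((Subgroup.closure_le _).2 ?_) ((Subgroup.closure_le _).2 ?_)
    · rintro g (h | ⟨y, hy, h⟩)
      · exact LG.kk_mem_QJ h T.lo (GI_nonempty.1 T.L.ne) T.hi
      · exact h.mem_QJ hy.1 ((T.L.mem y).2 hy.1)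
    · rintro g ⟨φ, u, v, h⟩
      obtain ⟨h1, h2, h3⟩ := h.mem (tau_mem_GI.2 ⟨le_rfl, h.1⟩)
      obtain ⟨n, hn⟩ := (T.sat _ h1 _ h2).2 (LG.rw_arc_iff.2 ⟨sub h1, sub h2, g, h3⟩)
      obtain ⟨g0, k1, k2⟩ := chain T S h1 n
      have k3 := S.coset (sub h1) (hn ▸ k2) h3
      have k4 := mul_mem k1 (Subgroup.subset_closure (k := T.gens) (Or.inl k3))
      rwa [mul_inv_cancel_left] at k4
  refine ⟨e, fun g hg => ?_⟩
  rw [← e, ← Subgroup.mem_toSubmonoid, Subgroup.closure_toSubmonoid] at hg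
  obtain ⟨l, h1, h2⟩ := Submonoid.exists_list_of_mem_closure hg
  refine ⟨l, fun x hx => (h1 x hx).elim id fun k => ?_, h2⟩
  simpa using inv_gens T (Set.mem_inv.1 k)

end Pool.Agent.P.MP_dba3d2_lc
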