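import Pool.Agent.P.MP_dba3d2_lc.D.Iface3
import Pool.Agent.P.MP_dba3d2_lc.D.Iface2
import Pool.Agent.P.MP_dba3d2_lc.D.MvB

/-! Step D_GOODFIN of the stability project. -/

namespace Pool.Agent.P.MP_dba3d2_lc

open Set Filter Topology

theorem p_D_GOODFIN (hD_FAM : S_D_FAM) (hD_LENS : S_D_LENS) (hD_CUT0 : S_D_CUT0) :
    S_D_GOODFIN := by
  intro R P p0 q0 p q hS hp hq ι _ S hIn hArcs hfin η hη F hF
  obtain ⟨E, r, hFam⟩ := hD_FAM ι S (GI p q) F co_GI hIn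
  obtain ⟨k, y, cut, hy, hE, hret, hmain⟩ :=
    hD_CUT0 R P p0 q0 p q hS hp hq ι S F E r hIn hArcs hFam
  obtain ⟨N, hK, hN⟩ := exists_cuts cut
    (E.finite_toSet.subset fun γ h => by_contra fun e => h (hE γ e))
  refine ⟨k, y, N, hy, fun t => hK (MonoidHom.ker _) (fun γ => hret γ) t, ?_⟩
  intro G j ν hj hc n hn
  obtain ⟨m1, m2, m3⟩ := hmain G j ν hj hc
    (fun γ => Monoid.Coprod.lift j (FreeGroup.lift ν) (cut γ)) fun _ => rfl
  obtain ⟨l1, l2⟩ := hD_LENS G n (fun γ => Monoid.Coprod.lift j (FreeGroup.lift ν) (cut γ))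
    fun γ => by
      obtain ⟨s0, hs0, h⟩ := hN γ
      exact ⟨s0, hs0, fun s a b => by rw [hn, hn, ← map_inv, ← map_mul, h s a b]⟩
  have hf : ∀ s ∈ Icc p q, ∀ t ∈ Icc p q, G.d (j (P s)) (j (P t)) ≤ |s - t| := fun s hs t ht =>
    (LG.d_map_le j hj _ _).trans_eq
      (hS.iso s ⟨hp.trans hs.1, hs.2.trans hq⟩ t ⟨hp.trans ht.1, ht.2.trans hq⟩)
  obtain ⟨l3, l4⟩ := l2 (fun t => j (P t)) p q hf
  refine ⟨?_, fun h u hu v hv => ?_, fun h u hu v hv => ?_⟩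
  · rintro g φ u v ⟨hu, hv, -, -, huv, hR, hφ⟩
    refine l1 (j g) φ u v huv.le fun γ hγ => ?_
    refine m1 γ (GI_mono (hF u hu).1 (hF v hv).2 hγ) (φ * γ) g ?_ (LG.Rl.mv hR hγ)
    rcases hφ with h | ⟨i, h, hd⟩
    · have h' : φ = 1 := h
      rw [h', one_mul]
      exact Sys.Rel.refl S γ
    · have h' : φ = S.φ i := h
      rw [h']
      exact Sys.rel_φ (hd hγ)
  · have := l3 ∅ 0 le_rfl (fun γ _ e => absurd e (Finset.notMem_empty _))
      (fun γ _ _ => m2 h γ) u (hF u hu) v (hF v hv)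
    rw [mul_zero, add_zero] at this
    exact this.trans (le_add_of_nonneg_right hη.le)
  · exact (l4 ι S F E r hFam hfin (fun γ e => by rw [hE γ e, map_one]) (m3 h) u hu v hv
      (hF u hu) (hF v hv)).trans_le hη.le

end Pool.Agent.P.MP_dba3d2_lc
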