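import Pool.Agent.P.MP_dba3d2_lc.D.Iface3
import Pool.Agent.P.MP_dba3d2_lc.D.Iface2
import Pool.Agent.P.MP_dba3d2_lc.D.MvB

/-! Step D_GOODTHIN of the stability project. -/

namespace Pool.Agent.P.MP_dba3d2_lc

open Set Filter Topology

namespace D_goodthinA

/-- `n` jumps by `cut` along every germ -/
def Cuts {G : Type} [Group G] (n : ℝ → G) (cut : Gm → G) : Prop :=
  ∀ γ : Gm, ∃ r > 0, ∀ s, 0 < s → s ≤ r → (n γ.c)⁻¹ * n (γ.ap s) = cut γ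

theorem Cuts.map {G G' : Type} [Group G] [Group G'] {n : ℝ → G} {cut : Gm → G} (h : Cuts n cut)
    (f : G →* G') : Cuts (fun t => f (n t)) fun γ => f (cut γ) := fun γ => by
  obtain ⟨r, r0, hr⟩ := h γ
  exact ⟨r, r0, fun s a b => by simp only [← hr s a b, map_mul, map_inv]⟩

theorem agree {G : Type} [Group G] {n n0 : ℝ → G} {c c0 : Gm → G} (h : Cuts n c) (h0 : Cuts n0 c0)
    {γ : Gm} {δ : ℝ} (hδ : 0 ≤ δ) (e : ∀ β ∈ seg γ δ, c β = c0 β) :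
    (n (γ.ap δ))⁻¹ * n γ.c = (n0 (γ.ap δ))⁻¹ * n0 γ.c := by
  have k := const_of_germs (c := fun x => n (γ.ap x) * (n0 (γ.ap x))⁻¹) hδ fun β hβ => by
    obtain ⟨r, r0, hr⟩ := h (γ * β)
    obtain ⟨r', r0', hr'⟩ := h0 (γ * β)
    refine ⟨min r r', lt_min r0 r0', fun s hs => ?_⟩
    rcases hs.1.eq_or_lt with a | a
    · rw [← a, Gm.ap_zero]
    have k1 := hr s a (hs.2.trans (min_le_left _ _))
    have k2 := hr' s a (hs.2.trans (min_le_right _ _))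
    rw [e _ (mul_mem_seg.2 hβ), ← k2, Gm.mul_ap, Gm.mul_c', inv_mul_eq_iff_eq_mul] at k1
    rw [k1]
    group
  rw [Gm.ap_zero, mul_inv_eq_iff_eq_mul] at k
  rw [k]
  group

theorem tr_ends (ψ : Gm) {s t : ℝ} (h : s < t) : ∃ x y, x < y ∧ tr ψ (GI s t) = GI x y ∧
    ((x = ψ.ap s ∧ y = ψ.ap t) ∨ (x = ψ.ap t ∧ y = ψ.ap s)) := by
  rcases ψ.h with e | e
  · exact ⟨_, _, by simp only [Gm.ap, e]; linarith, tr_GI_pos e, Or.inl ⟨rfl, rfl⟩⟩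
  · exact ⟨_, _, by simp only [Gm.ap, e]; linarith, tr_GI_neg e, Or.inr ⟨rfl, rfl⟩⟩

theorem zone0 {α : Type} (W : ℝ → α) (Q : Gm → Prop)
    (L : ∀ u v, u < v → (∀ β ∈ GI u v, Q β) → W u = W v) {δ s t : ℝ} (hδ : 0 < δ) (hst : s < t)
    (hs : s ∉ Icc 0 δ) (ht : t ∉ Icc 0 δ) (good : ∀ β ∈ GI s t, β ∉ GI 0 δ → β ≠ Gm.rho → Q β)
    (jump : s < 0 → 0 < t → ∃ r > 0, ∀ ε, 0 < ε → ε ≤ r → W (-ε) = W δ) : W s = W t := by
  have neg : ∀ u v, s ≤ u → u < v → v ≤ t → v < 0 → W u = W v := fun u v a b c d =>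
    L u v b fun β k => good β (GI_mono a c k) (fun m => by linarith [m.1, k.2.1])
      fun m => by
        have := k.2.1
        rw [m] at this
        exact absurd (this.trans_lt d) (lt_irrefl _)
  have pos : ∀ u v, s ≤ u → u < v → v ≤ t → δ ≤ u → W u = W v := fun u v a b c d =>
    L u v b fun β k => good β (GI_mono a c k)
      (fun m => Set.disjoint_left.1 (GI_disjoint d) m k) fun m => by
        have := k.1
        rw [m] at this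
        exact absurd ((hδ.trans_le d).trans_le this) (lt_irrefl _)
  simp only [mem_Icc, not_and_or, not_le] at hs ht
  rcases ht with ht | ht
  · exact neg s t le_rfl hst le_rfl ht
  rcases hs with hs | hs
  · obtain ⟨r, r0, hr⟩ := jump hs (hδ.trans ht)
    have k1 := min_le_right r (-s / 2)
    have k0 : 0 < min r (-s / 2) := lt_min r0 (by linarith)
    exact (neg s _ le_rfl (by linarith) (by linarith) (by linarith)).trans
      ((hr _ k0 (min_le_left _ _)).trans (pos δ t (by linarith) ht le_rfl le_rfl))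
  · exact pos s t le_rfl hst le_rfl hs.le

/-- a function that is constant on good segments and takes the same value on both sides of the
zone is constant on segments with ends outside the zone -/
theorem zone {α : Type} (W : ℝ → α) (Q : Gm → Prop)
    (L : ∀ u v, u ≤ v → (∀ β ∈ GI u v, Q β) → W u = W v) {γ : Gm} {δ s t : ℝ} (hδ : 0 < δ)
    (hst : s < t) (hs : ∀ x ∈ Icc 0 δ, γ.ap x ≠ s ∧ γ.ap x ≠ t)
    (good : ∀ β ∈ GI s t, β ∉ seg γ δ → β ≠ γ.opp → Q β)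
    (jump : γ ∈ GI s t → γ.opp ∈ GI s t →
      ∃ r > 0, ∀ ε, 0 < ε → ε ≤ r → W (γ.opp.ap ε) = W (γ.ap δ)) : W s = W t := by
  obtain ⟨x, y, h1, h2, h3⟩ := tr_ends γ⁻¹ hst
  have m : ∀ β, β ∈ GI x y → γ * β ∈ GI s t := fun β k => by simpa using h2.ge k
  have k := zone0 (fun x => W (γ.ap x)) (fun β => Q (γ * β)) (fun u v a b => ?_) hδ h1
    (fun a => ?_) (fun a => ?_)
    (fun β a b c => good _ (m β a) (fun d => b (mul_mem_seg.1 d)) fun d => c (mul_left_cancel d))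
    fun a b => ?_
  · rcases h3 with ⟨rfl, rfl⟩ | ⟨rfl, rfl⟩
    · simpa using k
    · simpa using k.symm
  · obtain ⟨u', v', k1, k2, k3⟩ := tr_ends γ a
    have k4 := L u' v' k1.le fun β c => by simpa using b _ (k2.ge c)
    rcases k3 with ⟨rfl, rfl⟩ | ⟨rfl, rfl⟩
    · exact k4
    · exact k4.symm
  · rcases h3 with ⟨rfl, -⟩ | ⟨rfl, -⟩
    · exact (hs _ a).1 (by simp)
    · exact (hs _ a).2 (by simp)
  · rcases h3 with ⟨-, rfl⟩ | ⟨-, rfl⟩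
    · exact (hs _ a).2 (by simp)
    · exact (hs _ a).1 (by simp)
  · simpa using jump (by simpa using m 1 (mem_GI_of_Ioo a b)) (m Gm.rho (mem_GI_of_Ioo a b))

/-- the geometric data -/
structure Dat (R : LG) (P : ℝ → R.W) (p0 q0 p q : ℝ) {ι : Type} (S T : Sys ι) (F : Finset ℝ)
    (i : ι) (γ : Gm) (Tr : Set Gm) (δ : ℝ) (g0 : R.W) (h : Gm → R.W) : Prop where
  stb : R.Stb P p0 q0
  hp : p0 ≤ p
  hq : q ≤ q0
  hF : ∀ t ∈ F, t ∈ Icc p q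
  in' : S.In (GI p q)
  ne : S.inv i ≠ i
  pos : 0 < δ
  sg : ∀ β ∈ seg γ δ, β ∈ S.dom i ∧ β ∉ Tr ∧ S.φ i * β ∉ Tr
  free : ∀ x ∈ Icc 0 δ, γ.ap x ∉ F
  opp : γ.opp ∈ S.dom i
  mem : γ.opp ∈ Tr
  nmem : S.φ i * γ.opp ∉ Tr
  sub : Tr ⊆ GI p q
  inv : ∀ j, ∀ β ∈ S.dom j, ¬(j = i ∧ β = γ.opp) → ¬(j = S.inv i ∧ β = S.φ i * γ.opp) →
    (β ∈ Tr ↔ S.φ j * β ∈ Tr)
  cut : T.IsCut S i (seg γ δ)
  g0mv : R.Mv P γ g0 (S.φ i * γ)
  g0u : R.d (g0 * P γ.c) (P (S.φ i * γ).c) = 0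
  g0a : R.d (g0 * P (γ.ap δ)) (P ((S.φ i * γ).ap δ)) = 0
  hmv : ∀ β ∈ Tr, R.Mv P γ.opp (h β) β

/-- the increment over the segment of length `δ` that starts with `γ` -/
def inc {G : Type} [Group G] (n : ℝ → G) (γ : Gm) (δ : ℝ) : G := (n (γ.ap δ))⁻¹ * n γ.c

/-- the correction -/
def cor {G : Type} [Group G] (n : ℝ → G) (γ φ : Gm) (δ : ℝ) (g : G) : G :=
  (inc n γ δ)⁻¹ * (g⁻¹ * inc n (φ * γ) δ * g)

/-- a realisation -/
structure Rea {R : LG} (P : ℝ → R.W) (p q : ℝ) {ι : Type} (S T : Sys ι) (i : ι) (γ : Gm)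
    (Tr : Set Gm) (δ : ℝ) (g0 : R.W) (h : Gm → R.W) (G : LG) (j : R.W →* G.W) (n0 n : ℝ → G.W)
    (c0 c1 : Gm → G.W) : Prop where
  lip : ∀ w, G.ℓ (j w) ≤ R.ℓ w
  cut0 : Cuts n0 c0
  cut1 : Cuts n c1
  eqv : ∀ β ∈ GI p q, ∀ β' g, T.Rel β β' → R.Mv P β g β' → c0 β' = j g * c0 β * (j g)⁻¹
  on : ∀ β ∈ Tr, c1 β = j (h β) * cor n0 γ (S.φ i) δ (j g0) * (j (h β))⁻¹ * c0 β
  off : ∀ β, β ∉ Tr → c1 β = c0 β

variable {R : LG} {P : ℝ → R.W} {p0 q0 p q : ℝ} {ι : Type} {S T : Sys ι} {F : Finset ℝ} {i : ι}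
  {γ : Gm} {Tr : Set Gm} {δ : ℝ} {g0 : R.W} {h : Gm → R.W} {G : LG} {j : R.W →* G.W}
  {n0 n : ℝ → G.W} {c0 c1 : Gm → G.W}

namespace Dat

variable (D : Dat R P p0 q0 p q S T F i γ Tr δ g0 h)
include D

theorem big {β : Gm} (k : β ∈ GI p q) : β ∈ GI p0 q0 := GI_mono D.hp D.hq k
theorem self : γ ∈ S.dom i := (D.sg γ (self_mem_seg D.pos)).1
theorem seg0 : ∀ x ∈ Icc 0 δ, γ.ap x ∈ Icc p q :=
  (seg_subset_GI D.pos).1 fun β k => D.in' i (D.sg β k).1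
theorem seg1 : ∀ x ∈ Icc 0 δ, (S.φ i * γ).ap x ∈ Icc p q :=
  (seg_subset_GI D.pos).1 fun β k => by
    have := S.map i _ (D.sg ((S.φ i)⁻¹ * β) (by rw [← tr_seg] at k; exact k)).1
    rw [mul_inv_cancel_left] at this
    exact D.in' _ this
theorem opp_not : γ.opp ∉ seg γ δ := fun k => (D.sg _ k).2.1 D.mem
theorem dom {l : ι} {β : Gm} (k : β ∈ S.dom l) (h1 : ¬(l = i ∧ β ∈ seg γ δ)) (h2 : l ≠ S.inv i) :
    T.Rel β (S.φ l * β) := by
  rw [← D.cut.2.1]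
  exact Sys.rel_φ ((D.cut.2.2 l β).2 ⟨k, h1, fun a => h2 a.1⟩)

variable (hL : S_D_LENS) (Z : Rea P p q S T i γ Tr δ g0 h G j n0 n c0 c1)
include hL Z

/-- increments commute with the stabiliser -/
theorem comm {κ : R.W} (hκ : κ ∈ R.KK P p0 q0) {s t : ℝ} (hs : s ∈ Icc p q) (ht : t ∈ Icc p q) :
    Commute ((n0 s)⁻¹ * n0 t) (j κ) := by
  have key : ∀ s ∈ Icc p q, ∀ t ∈ Icc p q, s ≤ t →
      n0 s * j κ * (n0 s)⁻¹ = n0 t * j κ * (n0 t)⁻¹ := fun s hs t ht e => by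
    simpa using (hL G n0 c0 Z.cut0).1 (j κ) 1 s t e fun β k => by
      have k1 := GI_mono hs.1 ht.2 k
      rw [one_mul]
      exact Z.eqv β k1 β κ (Sys.Rel.refl _ _) (LG.Stb.mv_of_mem hκ (D.big k1))
  have e : n0 s * j κ * (n0 s)⁻¹ = n0 t * j κ * (n0 t)⁻¹ :=
    (le_total s t).elim (key s hs t ht) fun a => (key t ht s hs a).symm
  change _ * _ = _ * _
  calc (n0 s)⁻¹ * n0 t * j κ = (n0 s)⁻¹ * (n0 t * j κ * (n0 t)⁻¹) * n0 t := by group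
    _ = j κ * ((n0 s)⁻¹ * n0 t) := by rw [← e]; group

theorem comm1 {κ : R.W} (hκ : κ ∈ R.KK P p0 q0) : Commute (inc n0 (S.φ i * γ) δ) (j κ) :=
  D.comm hL Z hκ (D.seg1 δ ⟨D.pos.le, le_rfl⟩) (by simpa using D.seg1 0 ⟨le_rfl, D.pos.le⟩)

theorem comm_cor {κ : R.W} (hκ : κ ∈ R.KK P p0 q0) :
    Commute (cor n0 γ (S.φ i) δ (j g0)) (j κ) := by
  have k0 : Commute (inc n0 γ δ) (j κ) :=
    D.comm hL Z hκ (D.seg0 δ ⟨D.pos.le, le_rfl⟩) (by simpa using D.seg0 0 ⟨le_rfl, D.pos.le⟩)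
  have k1 := D.comm1 hL Z ((D.stb.conj (D.big (D.in' i D.self))
    (D.big (D.in' _ (S.map i γ D.self))) D.g0mv).1 hκ)
  refine k0.inv_left.mul_left ?_
  have k2 := k1.map (MulAut.conj (j g0)⁻¹)
  simpa [mul_assoc] using k2

/-- the corrected cuts are equivariant -/
theorem eqv {β β' : Gm} {g : R.W} (hβ : β ∈ GI p q) (k : T.Rel β β') (m : R.Mv P β g β')
    (e : β ∈ Tr ↔ β' ∈ Tr) : c1 β' = j g * c1 β * (j g)⁻¹ := by
  by_cases a : β ∈ Tr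
  · have k1 := (D.comm_cor hL Z (D.stb.coset (D.big (D.sub D.mem)) (D.hmv β' (e.1 a))
      ((D.hmv β a).trans m))).eq
    rw [map_mul, map_mul, map_inv, ← mul_inv_eq_iff_eq_mul] at k1
    rw [Z.on β a, Z.on β' (e.1 a), Z.eqv β hβ β' g k m]
    generalize cor n0 γ (S.φ i) δ (j g0) = c at k1 ⊢
    have k2 : j (h β') * c * (j (h β'))⁻¹ = j g * j (h β) * c * (j g * j (h β))⁻¹ := by
      have k3 : j g * j (h β) * c = j (h β') * ((j (h β'))⁻¹ * (j g * j (h β)) * c) := by group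
      rw [mul_inv_eq_iff_eq_mul] at k1
      rw [k3, ← k1]
      group
    rw [k2]
    group
  · rw [Z.off β a, Z.off β' fun b => a (e.2 b), Z.eqv β hβ β' g k m]

theorem cut_opp : c1 γ.opp = cor n0 γ (S.φ i) δ (j g0) * c0 γ.opp := by
  rw [Z.on _ D.mem, ← (D.comm_cor hL Z
    (D.stb.mem_of_mv (D.big (D.sub D.mem)) (D.hmv _ D.mem))).eq, mul_inv_cancel_right]

/-- validity for the band that was cut -/
theorem val_i {g : R.W} {s t : ℝ} (hst : s < t) (hs : s ∈ F) (ht : t ∈ F)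
    (hg : R.Rl P g (S.φ i) s t) (hd : GI s t ⊆ S.dom i) :
    n ((S.φ i).ap s) * j g * (n s)⁻¹ = n ((S.φ i).ap t) * j g * (n t)⁻¹ := by
  refine zone (fun x => n ((S.φ i).ap x) * j g * (n x)⁻¹)
    (fun β => c1 (S.φ i * β) = j g * c1 β * (j g)⁻¹) ((hL G n c1 Z.cut1).1 (j g) (S.φ i)) D.pos hst
    (fun x hx => ⟨fun a => D.free x hx (a ▸ hs), fun a => D.free x hx (a ▸ ht)⟩)
    (fun β a b c => D.eqv hL Z (D.in' i (hd a)) (D.dom (hd a) (fun d => b d.2) D.ne.symm) (hg.mv a)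
      (D.inv i β (hd a) (fun d => c d.2) fun d => D.ne d.1.symm)) fun a b => ?_
  obtain ⟨r, r0, hr⟩ := Z.cut1 γ.opp
  obtain ⟨r', r0', hr'⟩ := Z.cut1 (S.φ i * γ.opp)
  refine ⟨min r r', lt_min r0 r0', fun ε e0 e1 => ?_⟩
  have k1 := hr ε e0 (e1.trans (min_le_left _ _))
  have k2 := hr' ε e0 (e1.trans (min_le_right _ _))
  have k3 := agree Z.cut1 Z.cut0 D.pos.le fun β k => Z.off β (D.sg β k).2.1
  have k4 := agree Z.cut1 Z.cut0 (γ := S.φ i * γ) D.pos.le fun β k => Z.off β (by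
    simpa using (D.sg ((S.φ i)⁻¹ * β) (by rw [← tr_seg] at k; exact k)).2.2)
  have k5 := (D.comm1 hL Z (D.stb.coset' (D.big (D.in' _ (S.map i γ D.self))) D.g0mv (hg.mv a))).eq
  have e1 : γ.opp.c = γ.c := by simp [Gm.opp, Gm.rho]
  have e2 : (S.φ i * γ.opp).c = (S.φ i * γ).c := by simp [Gm.opp, Gm.rho]
  rw [Z.off _ D.nmem, Z.eqv _ (D.in' i D.opp) _ g (D.dom D.opp (fun d => D.opp_not d.2) D.ne.symm)
    (hg.mv b), e2, Gm.mul_ap, inv_mul_eq_iff_eq_mul] at k2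
  rw [D.cut_opp hL Z, e1, inv_mul_eq_iff_eq_mul, cor] at k1
  change _ = inc n0 γ δ at k3
  change _ = inc n0 (S.φ i * γ) δ at k4
  rw [Gm.mul_ap] at k4
  rw [inv_mul_eq_iff_eq_mul] at k3 k4
  rw [map_mul, map_inv, ← mul_assoc, mul_inv_eq_iff_eq_mul] at k5
  simp only [k1, k2, k3, k4]
  generalize inc n0 (S.φ i * γ) δ = A1 at k5 ⊢
  calc _ = n ((S.φ i).ap (γ.ap δ)) * (A1 * j g) * ((j g0)⁻¹ * A1 * j g0)⁻¹ * (n (γ.ap δ))⁻¹ := by
        group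
    _ = _ := by rw [k5]; group

theorem val {g : R.W} {φ : Gm} {s t : ℝ} (hst : s < t) (hs : s ∈ F) (ht : t ∈ F)
    (hs' : φ.ap s ∈ F) (ht' : φ.ap t ∈ F) (hg : R.Rl P g φ s t)
    (hd : φ = 1 ∨ ∃ l, φ = S.φ l ∧ GI s t ⊆ S.dom l) :
    n (φ.ap s) * j g * (n s)⁻¹ = n (φ.ap t) * j g * (n t)⁻¹ := by
  rcases hd with rfl | ⟨l, rfl, hd⟩
  · refine (hL G n c1 Z.cut1).1 (j g) 1 s t hst.le fun β k => ?_
    have m := hg.mv k
    rw [one_mul] at m ⊢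
    exact D.eqv hL Z (GI_mono (D.hF s hs).1 (D.hF t ht).2 k) (Sys.Rel.refl _ _) m Iff.rfl
  by_cases a : l = i
  · subst a
    exact D.val_i hL Z hst hs ht hg hd
  by_cases b : l = S.inv i
  · subst b
    obtain ⟨x, y, k1, k2, k3⟩ := tr_ends (S.φ (S.inv i)) hst
    have e : S.φ i = (S.φ (S.inv i))⁻¹ := by rw [S.φ_inv, inv_inv]
    have k4 : GI x y ⊆ S.dom i := fun β k => by
      have := hd (k2.ge k)
      rw [← e] at this
      exact Sys.mem_dom_inv.1 this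
    have k5 : R.Rl P g⁻¹ (S.φ i) x y := by
      rw [e]
      refine hg.inv fun z hz => ?_
      have := (Gm.ap_mem_uIcc (S.φ (S.inv i))⁻¹ (u := x) (v := y) (t := z)).2
        (Icc_subset_uIcc hz)
      rcases k3 with ⟨rfl, rfl⟩ | ⟨rfl, rfl⟩
      · simpa [uIcc_of_le hst.le] using this
      · simpa [uIcc_of_ge hst.le] using this
    have k6 := D.val_i hL Z k1 (by rcases k3 with ⟨rfl, -⟩ | ⟨rfl, -⟩ <;> assumption)
      (by rcases k3 with ⟨-, rfl⟩ | ⟨-, rfl⟩ <;> assumption) k5 k4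
    have k7 := congrArg Inv.inv k6
    rw [e] at k7
    rcases k3 with ⟨rfl, rfl⟩ | ⟨rfl, rfl⟩
    · simpa [mul_assoc] using k7
    · simpa [mul_assoc] using k7.symm
  · exact (hL G n c1 Z.cut1).1 (j g) _ s t hst.le fun β k => D.eqv hL Z (D.in' l (hd k))
      (D.dom (hd k) (fun d => a d.1) b) (hg.mv k)
      (D.inv l β (hd k) (fun d => a d.1) fun d => b d.1)

omit hL in
/-- the corrections are short -/
theorem short {w : ℝ}
    (h0 : G.d (n0 γ.c * j (P γ.c)) (n0 (γ.ap δ) * j (P (γ.ap δ))) ≤ w)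
    (h1 : G.d (n0 ((S.φ i * γ).ap δ) * j (P ((S.φ i * γ).ap δ)))
      (n0 (S.φ i * γ).c * j (P (S.φ i * γ).c)) ≤ w) {β : Gm} (hβ : β ∈ Tr) {x : G.W}
    (hx : G.d (j (P β.c)) (c0 β * x) = 0) : G.d (j (P β.c)) (c1 β * x) ≤ 2 * w := by
  have e1 : γ.opp.c = γ.c := by simp [Gm.opp, Gm.rho]
  have a1 := LG.d_map_zero j Z.lip (D.hmv β hβ).pt
  have a2 := LG.d_map_zero j Z.lip D.g0u
  have a3 := LG.d_map_zero j Z.lip D.g0a
  rw [map_mul] at a1 a2 a3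
  rw [e1] at a1
  have b0 : G.d (inc n0 γ δ * j (P γ.c)) (j (P (γ.ap δ))) ≤ w := by
    rwa [inc, mul_assoc, LG.d_inv_mul]
  have b1 : G.d (j (P (γ.ap δ))) ((j g0)⁻¹ * inc n0 (S.φ i * γ) δ * j g0 * j (P γ.c)) ≤ w := by
    rw [mul_assoc, mul_assoc, LG.d_comm, LG.d_inv_mul,
      LG.d_congr ((LG.d_mul_left _ _ _).trans a2) a3, inc, mul_assoc, LG.d_inv_mul, LG.d_comm]
    exact h1
  have b2 : G.d (j (P γ.c)) (cor n0 γ (S.φ i) δ (j g0) * j (P γ.c)) ≤ 2 * w := by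
    rw [cor, mul_assoc, LG.d_comm, LG.d_inv_mul, LG.d_comm]
    linarith [LG.d_triangle (inc n0 γ δ * j (P γ.c)) (j (P (γ.ap δ)))
      ((j g0)⁻¹ * inc n0 (S.φ i * γ) δ * j g0 * j (P γ.c))]
  rw [Z.on β hβ]
  generalize cor n0 γ (S.φ i) δ (j g0) = c at b2 ⊢
  have a4 : G.d (j (h β) * c * j (P γ.c)) (j (h β) * c * (j (h β))⁻¹ * c0 β * x) = 0 := by
    rw [mul_assoc _ (c0 β), mul_assoc _ (j (h β))⁻¹, LG.d_mul_left, LG.d_comm, LG.d_inv_mul]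
    exact LG.d_zero_symm (LG.d_zero_trans a1 hx)
  rw [← LG.d_congr a1 a4, mul_assoc, LG.d_mul_left]
  exact b2

end Dat

theorem exists_dat [Fintype ι] (hS : R.Stb P p0 q0) (hp : p0 ≤ p) (hq : q ≤ q0)
    (hI : S.In (GI p q)) (hA : S.Arcs (R.arc P p0 q0)) (hM : S.NoMob) (hT : S.Thin) {η : ℝ}
    (hη : 0 < η) (hF : ∀ t ∈ F, t ∈ Icc p q) :
    ∃ (T : Sys ι) (i : ι) (γ : Gm) (Tr : Finset Gm) (δ : ℝ) (g0 : R.W) (h : Gm → R.W),
      Dat R P p0 q0 p q S T F i γ Tr δ g0 h ∧ (∀ β, (T.orb β).Finite) ∧ Tr.card * (2 * δ) ≤ η := by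
  obtain ⟨i, γ, Tr, t1, t2, t3, t4, t5, t6, t7, t8, t9, t10, t11, t12⟩ := hT F
  lift Tr to Finset Gm using t5
  have ev : ∀ᶠ β in 𝓝 γ, β ∈ S.dom i ∧ β.c ∉ F ∧ β ∉ (Tr : Set Gm) ∧
      S.φ i * β ∉ (Tr : Set Gm) := by
    filter_upwards [(S.co i).2.mem_nhds t2,
      (Gm.finite_over F.finite_toSet).isClosed.isOpen_compl.mem_nhds (x := γ) t1,
      Tr.finite_toSet.isClosed.isOpen_compl.mem_nhds t8,
      (Tr.finite_toSet.isClosed.isOpen_compl.preimage (continuous_gm_mul (S.φ i))).mem_nhds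
        (x := γ) t9] with β a b c d using ⟨a, b, c, d⟩
  obtain ⟨r, r0, hr⟩ := mem_nhds_gm.1 ev
  have c0 : (0 : ℝ) ≤ Tr.card := Nat.cast_nonneg _
  obtain ⟨δ, d0, d1, d2⟩ : ∃ δ > 0, δ < r ∧ (Tr.card : ℝ) * (2 * δ) ≤ η := by
    refine ⟨min (r / 2) (η / (2 * Tr.card + 1)), lt_min (half_pos r0) (by positivity),
      (min_le_left _ _).trans_lt (half_lt_self r0), ?_⟩
    have k := (le_div_iff₀ (by positivity)).1 (min_le_right (r / 2) (η / (2 * Tr.card + 1)))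
    have k0 : 0 < min (r / 2) (η / (2 * Tr.card + 1)) := lt_min (half_pos r0) (by positivity)
    linarith
  have sg := fun β (k : β ∈ seg γ δ) => hr (seg_mono d1.le k)
  obtain ⟨T, hT⟩ := S.exists_cut i (co_seg (γ := γ) (r := δ))
  have e := seg_eq_GI (γ := γ) d0.le
  have m : γ ∈ GI (min γ.c (γ.ap δ)) (max γ.c (γ.ap δ)) := e ▸ self_mem_seg d0
  obtain ⟨g0, -, -, g1⟩ := hA i _ _ (lt_of_mem_GI m) fun β k => (sg β (e.ge k)).1
  have hh : ∀ β ∈ (Tr : Set Gm), ∃ g, R.Mv P γ.opp g β := fun β k =>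
    (LG.rw_arc_iff.1 (hS.pg.rw_of_rel' hA.weak (t7 k) ⟨i, t3⟩)).2.2
  choose! h hh using hh
  refine ⟨T, i, γ, Tr, δ, g0, h, ⟨hS, hp, hq, hF, hI, fun a => t4 (by rw [hM i a, one_mul]), d0,
    fun β k => ⟨(sg β k).1, (sg β k).2.2⟩, fun x hx => ?_, t3, t6, t10,
    fun β k => Sys.Rel.mem (t7 k) hI.inv (hI i t3), t11, hT, g1.mv m,
    g1 _ ⟨min_le_left _ _, le_max_left _ _⟩, ?_, hh⟩, t12 δ d0 T hT, d2⟩
  · exact (hr (mul_mem_seg.2 (tau_mem_GI.2 ⟨hx.1, hx.2.trans_lt d1⟩))).2.1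
  · rw [Gm.mul_ap]
    exact g1 _ ⟨min_le_right _ _, le_max_right _ _⟩

end D_goodthinA

open D_goodthinA in
theorem p_D_GOODTHIN (hD_FAM : S_D_FAM) (hD_LENS : S_D_LENS) (hD_CUT0 : S_D_CUT0) :
    S_D_GOODTHIN := by
  classical
  intro R P p0 q0 p q hS hp hq ι _ S hI hA hM hT η hη F hF
  obtain ⟨T, i, γ, Tr, δ, g0, h, D, fin, hc⟩ := exists_dat hS hp hq hI hA hM hT hη hF
  have TI := D.cut.sub.in' hI
  obtain ⟨F', f1, f2, f3, f4, f5, f6⟩ : ∃ F' : Finset ℝ, (∀ t ∈ F, t ∈ F') ∧ (∀ β ∈ Tr, β.c ∈ F') ∧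
      γ.c ∈ F' ∧ γ.ap δ ∈ F' ∧ (S.φ i * γ).c ∈ F' ∧ (S.φ i * γ).ap δ ∈ F' :=
    ⟨F ∪ Tr.image Gm.c ∪ {γ.c, γ.ap δ, (S.φ i * γ).c, (S.φ i * γ).ap δ},
      fun t a => by simp [a], fun β a => by simp [Finset.mem_image_of_mem _ a],
      by simp, by simp, by simp, by simp⟩
  obtain ⟨E, r, hE⟩ := hD_FAM ι T (GI p q) F' co_GI TI
  obtain ⟨k, y, cut0, y1, y2, y3, y4⟩ :=
    hD_CUT0 R P p0 q0 p q hS hp hq ι T F' E r TI (D.cut.sub.arcs hA) hE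
  have TE : ∀ β ∈ Tr, β ∈ E := fun β a => hE.top β (D.sub a) (fin β) (f2 β a)
  obtain ⟨N0, n1, n2⟩ :=
    exists_cuts cut0 (E.finite_toSet.subset fun β a => by_contra fun b => a (y2 β b))
  obtain ⟨cut1, on, off⟩ : ∃ cut1 : Gm → Monoid.Coprod R.W (FreeGroup (Fin k)),
      (∀ β ∈ Tr, cut1 β = Monoid.Coprod.inl (h β) * cor N0 γ (S.φ i) δ (Monoid.Coprod.inl g0) *
        (Monoid.Coprod.inl (h β))⁻¹ * cut0 β) ∧ ∀ β, β ∉ Tr → cut1 β = cut0 β :=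
    ⟨fun β => if β ∈ Tr then _ else _, fun β a => if_pos a, fun β a => if_neg a⟩
  have y2' : ∀ β, β ∉ E → cut1 β = 1 := fun β a => (off β fun b => a (TE β b)).trans (y2 β a)
  obtain ⟨N, m1, m2⟩ :=
    exists_cuts cut1 (E.finite_toSet.subset fun β a => by_contra fun b => a (y2' β b))
  refine ⟨k, y, N, y1, m1 (MonoidHom.ker _) fun β => ?_, fun G j ν hj hν n hn => ?_⟩
  · have k0 : ∀ t, Monoid.Coprod.lift (MonoidHom.id R.W) 1 (N0 t) = 1 := n1 (MonoidHom.ker _) y3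
    rw [MonoidHom.mem_ker]
    by_cases a : β ∈ Tr
    · simp only [on β a, cor, inc, map_mul, map_inv, k0, y3]
      group
    · rw [off β a, y3]
  obtain rfl : n = fun t => Monoid.Coprod.lift j (FreeGroup.lift ν) (N t) := funext hn
  obtain ⟨z1, z2, z3⟩ := y4 G j ν hj hν _ fun _ => rfl
  generalize hl : Monoid.Coprod.lift j (FreeGroup.lift ν) = lam at z1 z2 z3 ⊢
  have li : ∀ w, lam (Monoid.Coprod.inl w) = j w := fun w => by rw [← hl]; rfl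
  have Z : Rea P p q S T i γ Tr δ g0 h G j (fun t => lam (N0 t)) (fun t => lam (N t))
      (fun β => lam (cut0 β)) fun β => lam (cut1 β) :=
    ⟨hj, Cuts.map n2 lam, Cuts.map m2 lam, z1,
      fun β a => by simp only [on β a, cor, inc, map_mul, map_inv, li],
      fun β a => by rw [off β a]⟩
  have lip : ∀ s ∈ Icc p q, ∀ t ∈ Icc p q, G.d (j (P s)) (j (P t)) ≤ |s - t| := fun s a t b =>
    (LG.d_map_le j hj _ _).trans_eq
      (hS.iso s (Icc_subset_Icc hp hq a) t (Icc_subset_Icc hp hq b))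
  obtain ⟨l0, l0'⟩ := (hD_LENS G (fun t => lam (N0 t)) (fun β => lam (cut0 β)) Z.cut0).2
    (fun t => j (P t)) p q lip
  obtain ⟨l1, l1'⟩ := (hD_LENS G (fun t => lam (N t)) (fun β => lam (cut1 β)) Z.cut1).2
    (fun t => j (P t)) p q lip
  have u0 : γ.c ∈ Icc p q := by simpa using D.seg0 0 ⟨le_rfl, D.pos.le⟩
  have a0 := D.seg0 δ ⟨D.pos.le, le_rfl⟩
  have u1 : (S.φ i * γ).c ∈ Icc p q := by simpa using D.seg1 0 ⟨le_rfl, D.pos.le⟩
  have a1 := D.seg1 δ ⟨D.pos.le, le_rfl⟩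
  refine ⟨fun g φ u v ⟨v1, v2, v3, v4, v5, v6, v7⟩ => D.val hD_LENS Z v5 v1 v2 v3 v4 v6 v7,
    fun t0 u hu v hv => ?_, fun t0 u hu v hv => ?_⟩
  · have k0 := l0 ∅ 0 le_rfl (fun β _ a => absurd a (Finset.notMem_empty β)) fun β _ _ => z2 t0 β
    have e : ∀ β : Gm, |β.c - β.ap δ| = δ := fun β => by
      rw [← β.ap_zero, Gm.abs_ap_sub, zero_sub, abs_neg, abs_of_pos D.pos]
    have k1 := k0 _ u0 _ a0
    have k2 := k0 _ a1 _ u1
    rw [abs_sub_comm] at k2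
    rw [e, mul_zero, add_zero] at k1 k2
    refine (l1 Tr (2 * δ) (by linarith [D.pos]) (fun β _ a => D.short Z k1 k2 a (z2 t0 β))
      (fun β _ a => ?_) u (hF u hu) v (hF v hv)).trans (by linarith)
    rw [off β a]
    exact z2 t0 β
  · have k0 := l0' ι T F' E r hE fin (fun β a => by rw [y2 β a, map_one]) (z3 t0)
    refine (l1' ι T F' E r hE fin (fun β a => by rw [y2' β a, map_one]) (fun β a => ?_) u (f1 u hu)
      v (f1 v hv) (hF u hu) (hF v hv)).trans_le hη.le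
    by_cases b : β ∈ Tr
    · refine le_antisymm ?_ (LG.d_nonneg _ _)
      simpa using D.short Z (k0 _ f3 _ f4 u0 a0).le (k0 _ f6 _ f5 a1 u1).le b (z3 t0 β a)
    · rw [off β b]
      exact z3 t0 β a

end Pool.Agent.P.MP_dba3d2_lc
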