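import Pool.Agent.P.MP_dba3d2_lc.D.Iface4
import Pool.Agent.P.MP_dba3d2_lc.D.LsB

/-! Step D_HULL of the stability project. -/

namespace Pool.Agent.P.MP_dba3d2_lc

open Set Filter Topology

namespace D_hullA

variable {A : Gm → ℝ → ℝ → Prop} {X : Set Gm} {L : LS X} {Ω : Finset ℝ} {y : Gm × Bool}

theorem ap_ne {φ ψ : Gm} (h : φ ≠ ψ) : ∃ r > 0, ∀ t, 0 < t → t < r → φ.ap t ≠ ψ.ap t := by
  by_cases k : ∃ s > 0, φ.ap s = ψ.ap s
  · obtain ⟨s, s0, e⟩ := k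
    exact ⟨s, s0, fun t _ b e' => h (Gm.ext_ap b.ne e' e)⟩
  · exact ⟨1, one_pos, fun t a _ e => k ⟨t, a, e⟩⟩

/-- the step at `y` is regular -/
def Par (A : Gm → ℝ → ℝ → Prop) (L : LS X) (y : Gm × Bool) : Prop := y.1.opp ∈ X ∧
  L.f (y.1.opp, y.2) = ((L.f y).1.opp, (L.f y).2) ∧ RW2 A y.1 (L.f y).1 ∧ (L.f y).1.c ≠ y.1.c

theorem finite_bad (h : L.Weak A) (e : Bool) : {γ | γ ∈ X ∧ ¬Par A L (γ, e)}.Finite :=
  L.co.finite_of_isolated fun γ hγ => by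
    obtain ⟨r, r0, hr⟩ := L.loc (γ, e) hγ
    obtain ⟨s, s0, hs⟩ := (h (γ, e) hγ).rw2
    obtain ⟨t, t0, ht⟩ := isOpen_gm.1 L.co.2 γ hγ
    obtain ⟨u, u0, hu⟩ := ap_ne (φ := (L.f (γ, e)).1) (ψ := γ) fun k =>
      one_ne_zero (L.at_inj (y := (γ, e)) hγ ((L.at_one _).trans (k.trans (L.at_zero (γ, e)).symm)))
    refine ⟨min (min r s) (min t u), by positivity, fun δ a b => not_not.2 ?_⟩
    simp only [lt_min_iff] at b
    have e1 := hr δ a b.1.1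
    have e2 := hr δ.opp (by simpa using a) (by simpa using b.1.1)
    have e3 := ht δ.opp (by simpa using a) (by simpa using b.2.1)
    rw [Gm.mul_opp, Gm.mul_opp] at e2
    rw [Gm.mul_opp] at e3
    refine ⟨e3, ?_, ?_, ?_⟩ <;> rw [e1]
    exacts [e2, hs δ a b.1.2, hu _ a b.2.2]

theorem exists_par (h : L.Weak A) (Ω₀ : Finset ℝ) :
    ∃ Ω : Finset ℝ, Ω₀ ⊆ Ω ∧ ∀ y : Gm × Bool, y.1 ∈ X → y.1.c ∉ Ω → Par A L y := by
  classical
  refine ⟨Ω₀ ∪ (((finite_bad h true).union (finite_bad h false)).image Gm.c).toFinset,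
    Finset.subset_union_left, fun y hy k => by_contra fun b => k (Finset.mem_union_right _
      ((Finite.mem_toFinset _).2 ⟨y.1, ?_, rfl⟩))⟩
  obtain ⟨γ, _ | _⟩ := y
  exacts [Or.inr ⟨hy, b⟩, Or.inl ⟨hy, b⟩]

/-- the forward half leaf meets `Ω` -/
def Fw (L : LS X) (Ω : Finset ℝ) (y : Gm × Bool) : Prop := ∃ n : ℕ, (L.at' y n).c ∈ Ω

theorem Fw.opp (H : ∀ y : Gm × Bool, y.1 ∈ X → y.1.c ∉ Ω → Par A L y) (h : Fw L Ω y)
    (hy : y.1 ∈ X) : Fw L Ω (y.1.opp, y.2) := by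
  obtain ⟨n, hn⟩ := h
  induction n generalizing y with
  | zero => exact ⟨0, by simpa using hn⟩
  | succ n ih =>
    by_cases k : y.1.c ∈ Ω
    · exact ⟨0, by simpa using k⟩
    have e : ∀ (z : Gm × Bool) (m : ℕ), L.at' z (m + 1 : ℕ) = L.at' (L.f z) m := fun z m => by
      rw [L.at_nat, L.at_nat, pow_succ, Equiv.Perm.mul_apply]
    rw [e] at hn
    obtain ⟨m, hm⟩ := ih ((L.mem y).2 hy) hn
    exact ⟨m + 1, by rwa [e, (H y hy k).2.1]⟩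

theorem finite_mid (L : LS X) (Ω : Finset ℝ) :
    {t | ∃ y : Gm × Bool, y.1 ∈ X ∧ y.1.c = t ∧ Fw L Ω y ∧ Fw L Ω (fl y)}.Finite := by
  have h0 := Gm.finite_over Ω.finite_toSet
  have h1 : {w : Gm × Bool | w.1 ∈ X ∧ w.1.c ∈ Ω}.Finite :=
    (h0.prod (finite_univ (α := Bool))).subset fun w hw => ⟨hw.2, trivial⟩
  refine (h1.biUnion (t := fun w => ⋃ k ∈ {k : ℤ | (L.at' w k).c ∈ Ω},
    (fun n => (L.at' w n).c) '' Icc 0 k) fun w hw => Finite.biUnion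
      (h0.preimage (L.inj w hw.1).injOn) fun k _ => (finite_Icc _ _).image _).subset ?_
  rintro _ ⟨y, hy, rfl, ⟨m, hm⟩, n, hn⟩
  rw [L.at_fl] at hn
  refine mem_iUnion₂.2 ⟨(L.f ^ (-n : ℤ)) y, ⟨L.at_mem hy _, hn⟩, mem_iUnion₂.2 ⟨m + n, ?_, n,
    ⟨by omega, by omega⟩, ?_⟩⟩
  · show (L.at' _ _).c ∈ Ω
    rwa [L.at_add, add_neg_cancel_right]
  · show (L.at' _ _).c = _
    rw [L.at_add, add_neg_cancel, L.at_zero]

end D_hullA

open D_hullA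

theorem p_D_HULL :
    S_D_HULL := by
  classical
  intro A X L h Ω₀
  obtain ⟨Ω, h0, H⟩ := exists_par h Ω₀
  refine ⟨Ω ∪ (finite_mid L Ω).toFinset, h0.trans Finset.subset_union_left,
    fun y hy k => H y hy fun e => k (Finset.mem_union_left _ e), fun y hy a b c ab bc ha hc => ?_⟩
  have key : ∀ z : Gm × Bool, z.1 ∈ X → z.1.c ∈ Ω ∪ (finite_mid L Ω).toFinset → Fw L Ω z := by
    intro z hz k
    rcases Finset.mem_union.1 k with k | k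
    · exact ⟨0, by simpa using k⟩
    obtain ⟨w, hw, e, k1, k2⟩ := (Finite.mem_toFinset _).1 k
    have k3 : Fw L Ω (w.1, z.2) := by
      obtain ⟨γ, _ | _⟩ := w <;> obtain ⟨β, _ | _⟩ := z <;> assumption
    rcases Gm.eq_or_opp e.symm with e | e
    · rwa [← e] at k3
    · have := k3.opp H hw
      rwa [← e] at this
  obtain ⟨m, hm⟩ := key ((L.f ^ c) y) (L.at_mem hy c) hc
  obtain ⟨n, hn⟩ := key (fl ((L.f ^ a) y)) (L.at_mem hy a) ha
  rw [L.at_add] at hm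
  rw [L.at_fl, L.at_add] at hn
  refine Finset.mem_union_right _ ((Finite.mem_toFinset _).2 ⟨(L.f ^ b) y, L.at_mem hy b, rfl,
    ⟨(m + c - b).toNat, ?_⟩, (n + b - a).toNat, ?_⟩)
  · rwa [L.at_add, Int.toNat_of_nonneg (by omega), sub_add_cancel]
  · rwa [L.at_fl, L.at_add, Int.toNat_of_nonneg (by omega), show -(n + b - a) + b = -n + a by ring]

end Pool.Agent.P.MP_dba3d2_lc
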