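import Pool.Agent.P.MP_dba3d2_lc.D.Iface2
import Pool.Agent.P.MP_dba3d2_lc.D.SysC

/-! Step D_IMAN of the stability project. -/

namespace Pool.Agent.P.MP_dba3d2_lc

open Set Filter Topology

namespace D_imanA

variable {Y E : Set ℝ} {γ β δ δ' : Gm} {l l' a b s : ℝ}

/-- `δ` starts a gap of `Y` of length `l` -/
def Gap (Y : Set ℝ) (δ : Gm) (l : ℝ) : Prop :=
  0 < l ∧ δ.c ∈ Y ∧ δ.ap l ∈ Y ∧ ∀ s ∈ Ioo 0 l, δ.ap s ∉ Y

/-- `δ` starts a bounded or unbounded gap of `Y` -/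
def End (Y : Set ℝ) : Set Gm := {δ | δ.c ∈ Y ∧ ∃ r > 0, ∀ s ∈ Ioo 0 r, δ.ap s ∉ Y}

theorem inv_mul_c (h : β.c = γ.ap s) : (γ⁻¹ * β).c = s := by
  rw [Gm.mul_c', h, Gm.inv_ap_ap]

theorem eq_of_free (he : δ.ε = δ'.ε) (h : δ.c ∈ Y) (h' : δ'.c ∈ Y) {d : ℝ} (hd : δ'.c = δ.ap d)
    (k : 0 < d → δ.ap d ∉ Y) (k' : 0 < -d → δ'.ap (-d) ∉ Y) : δ = δ' := by
  have e : δ'.ap (-d) = δ.c := by
    simp only [Gm.ap] at hd ⊢
    rw [hd, ← he]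
    ring
  rcases lt_trichotomy d 0 with c | c | c
  · exact absurd (e ▸ h) (k' (by linarith))
  · rw [c, Gm.ap_zero] at hd
    exact Gm.ext he hd.symm
  · exact absurd (hd ▸ h') (k c)

theorem finite_of_eps {W : Set Gm} (h : ∀ δ ∈ W, ∀ δ' ∈ W, δ.ε = δ'.ε → δ = δ') : W.Finite :=
  Set.Finite.of_injOn (f := Gm.ε) (t := {1, -1}) (fun δ _ => δ.h)
    (fun δ hδ δ' hδ' e => h δ hδ δ' hδ' e) (Set.toFinite _)

theorem Gap.unique (h : Gap Y δ l) (h' : Gap Y δ l') : l = l' := by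
  rcases lt_trichotomy l l' with c | c | c
  · exact absurd h.2.2.1 (h'.2.2.2 l ⟨h.1, c⟩)
  · exact c
  · exact absurd h'.2.2.1 (h.2.2.2 l' ⟨h'.1, c⟩)

theorem ap_diff (δ : Gm) (t : ℝ) : t = δ.ap (δ.ε * (t - δ.c)) := by
  simp only [Gm.ap]
  rw [← mul_assoc, δ.eps_sq]
  ring

theorem finite_len (hY : Y ⊆ Icc a b) (l : ℝ) : {δ | Gap Y δ l}.Finite := by
  rcases le_or_gt l 0 with hl | hl
  · exact Set.finite_empty.subset fun δ h => absurd h.1 (not_lt.2 hl)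
  refine Set.Finite.of_injOn (f := fun δ : Gm => (δ.ε, ⌊δ.c / l⌋))
    (t := ({1, -1} : Set ℝ) ×ˢ Icc ⌊a / l⌋ ⌊b / l⌋) (fun δ h => ⟨δ.h, ?_, ?_⟩) ?_
    ((Set.toFinite _).prod (Set.finite_Icc _ _))
  · exact Int.floor_le_floor (div_le_div_of_nonneg_right (hY h.2.1).1 hl.le)
  · exact Int.floor_le_floor (div_le_div_of_nonneg_right (hY h.2.1).2 hl.le)
  · intro δ h δ' h' e
    obtain ⟨e1, e2⟩ := Prod.mk.inj e
    have e3 := Int.abs_sub_lt_one_of_floor_eq_floor e2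
    rw [← sub_div, abs_div, abs_of_pos hl, div_lt_one hl, abs_sub_comm] at e3
    have e4 : |δ.ε * (δ'.c - δ.c)| < l := by rwa [abs_mul, δ.abs_eps, one_mul]
    rw [abs_lt] at e4
    exact eq_of_free e1 h.2.1 h'.2.1 (ap_diff δ δ'.c) (fun c => h.2.2.2 _ ⟨c, e4.2⟩)
      fun c => h'.2.2.2 _ ⟨c, by linarith [e4.1]⟩

theorem finite_unb (Y : Set ℝ) : {δ : Gm | δ.c ∈ Y ∧ ∀ s > 0, δ.ap s ∉ Y}.Finite :=
  finite_of_eps fun δ h δ' h' e =>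
    eq_of_free e h.1 h'.1 (ap_diff δ δ'.c) (fun c => h.2 _ c) fun c => h'.2 _ c

/-- the gaps whose closure meets `E` -/
def Sp (Y E : Set ℝ) : Set Gm := {δ | ∃ l, Gap Y δ l ∧ ∃ s ∈ Icc 0 l, δ.ap s ∈ E}

theorem finite_sp (Y : Set ℝ) (hE : E.Finite) : (Sp Y E).Finite := by
  have h1 : ∀ z ∈ E, {δ | ∃ l, Gap Y δ l ∧ ∃ s ∈ Ioc 0 l, δ.ap s = z}.Finite := by
    intro z _
    refine finite_of_eps ?_
    rintro δ ⟨l, h, s, hs, e⟩ δ' ⟨l', h', s', hs', e'⟩ he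
    have hd : δ'.c = δ.ap (s - s') := by
      simp only [Gm.ap] at e e' ⊢
      rw [← he] at e'
      linarith
    exact eq_of_free he h.2.1 h'.2.1 hd (fun c => h.2.2.2 _ ⟨c, by linarith [hs.2, hs'.1]⟩)
      fun c => h'.2.2.2 _ ⟨c, by linarith [hs'.2, hs.1]⟩
  refine ((Gm.finite_over hE).union (hE.biUnion h1)).subset ?_
  rintro δ ⟨l, h, s, hs, e⟩
  rcases hs.1.eq_or_lt with c | c
  · left
    rwa [← c, Gm.ap_zero] at e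
  · exact Or.inr (mem_iUnion₂.2 ⟨_, e, l, h, s, ⟨c, hs.2⟩, rfl⟩)

theorem gap_or_unb (hY : IsClosed Y) (h : δ ∈ End Y) :
    (∃ l, Gap Y δ l) ∨ (δ.c ∈ Y ∧ ∀ s > 0, δ.ap s ∉ Y) := by
  obtain ⟨h0, r, hr, h1⟩ := h
  by_cases c : ∀ s > 0, δ.ap s ∉ Y
  · exact Or.inr ⟨h0, c⟩
  push Not at c
  obtain ⟨s, hs, c⟩ := c
  have hc : IsClosed (Ici r ∩ δ.ap ⁻¹' Y) := isClosed_Ici.inter (hY.preimage δ.continuous_ap)
  have hne : (Ici r ∩ δ.ap ⁻¹' Y).Nonempty := ⟨s, not_lt.1 fun k => h1 s ⟨hs, k⟩ c, c⟩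
  have hb : BddBelow (Ici r ∩ δ.ap ⁻¹' Y) := ⟨r, fun x hx => hx.1⟩
  have hm := hc.csInf_mem hne hb
  refine Or.inl ⟨_, hr.trans_le hm.1, h0, hm.2, fun t ht k => ?_⟩
  have : t ∈ Ici r ∩ δ.ap ⁻¹' Y := ⟨not_lt.1 fun j => h1 t ⟨ht.1, j⟩ k, k⟩
  exact absurd (csInf_le hb this) (not_le.2 ht.2)

theorem free_real (hE : E.Finite) {p q : ℝ} (hpq : p ≤ q) (h : ∀ t ∈ Icc p q, t ∉ E) :
    ∃ u v, u < p ∧ q < v ∧ Free E u v := by
  obtain ⟨r, hr, h1, -, -⟩ := exists_free hE p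
  obtain ⟨r', hr', -, h2, -⟩ := exists_free hE q
  refine ⟨p - r, q + r', by linarith, by linarith, fun t ht k => ?_⟩
  rcases lt_or_ge t p with c | c
  · exact h1 t ht ⟨k.1, c⟩
  rcases le_or_gt t q with d | d
  · exact h t ⟨c, d⟩ ht
  · exact h2 t ht ⟨d, k.2⟩

theorem free_ext (hE : E.Finite) (hl : 0 < l) (h : ∀ s ∈ Icc 0 l, δ.ap s ∉ E) :
    ∃ u v, Free E u v ∧ ∀ s ∈ Icc 0 l, δ.ap s ∈ Ioo u v := by
  rcases δ.h with e | e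
  · obtain ⟨u, v, h1, h2, h3⟩ := free_real hE (p := δ.c) (q := δ.c + l) (by linarith) fun t ht => by
      rw [ap_diff δ t]
      refine h _ ?_
      rw [e]
      constructor <;> linarith [ht.1, ht.2]
    refine ⟨u, v, h3, fun s hs => ?_⟩
    simp only [Gm.ap, e]
    constructor <;> linarith [hs.1, hs.2]
  · obtain ⟨u, v, h1, h2, h3⟩ := free_real hE (p := δ.c - l) (q := δ.c) (by linarith) fun t ht => by
      rw [ap_diff δ t]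
      refine h _ ?_
      rw [e]
      constructor <;> linarith [ht.1, ht.2]
    refine ⟨u, v, h3, fun s hs => ?_⟩
    simp only [Gm.ap, e]
    constructor <;> linarith [hs.1, hs.2]

variable {ι : Type} {S : Sys ι} {X : Set Gm} {i : ι}

theorem mem_iff_of_GI (hX : S.Inv X) {u v t : ℝ} (h : GI u v ⊆ S.dom i) (ht : t ∈ Ioo u v) :
    (S.φ i).ap t ∈ Gm.c '' X ↔ t ∈ Gm.c '' X := by
  constructor
  · rintro ⟨β, hβ, e⟩
    have e1 : ((S.φ i)⁻¹ * β).c = t := inv_mul_c e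
    have h1 : (S.φ i)⁻¹ * β ∈ S.dom i := h (mem_GI_of_Ioo (e1 ▸ ht.1) (e1 ▸ ht.2))
    refine ⟨_, (hX.mem_iff h1).1 ?_, e1⟩
    rwa [mul_inv_cancel_left]
  · rintro ⟨β, hβ, rfl⟩
    exact ⟨_, hX i β (h (mem_GI_of_Ioo ht.1 ht.2)) hβ, rfl⟩

theorem gap_map (hX : S.Inv X) (hE : E.Finite)
    (hd : ∀ u v, Free E u v → GI u v ⊆ S.dom i ∨ Disjoint (GI u v) (S.dom i))
    (h : Gap (Gm.c '' X) δ l) (hs : δ ∉ Sp (Gm.c '' X) E) (hβ : β ∈ S.dom i) (e : β.c = δ.c) :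
    Gap (Gm.c '' X) (S.φ i * δ) l := by
  obtain ⟨u, v, h1, h2⟩ := free_ext (δ := δ) hE h.1 fun s k j => hs ⟨l, h, s, k, j⟩
  have h0 := h2 0 ⟨le_rfl, h.1.le⟩
  rw [Gm.ap_zero] at h0
  have h3 : GI u v ⊆ S.dom i := (hd u v h1).resolve_right fun k =>
    Set.disjoint_left.1 k (mem_GI_of_Ioo (e ▸ h0.1) (e ▸ h0.2)) hβ
  refine ⟨h.1, ?_, ?_, fun s k => ?_⟩
  · rw [Gm.mul_c']
    exact (mem_iff_of_GI hX h3 h0).2 h.2.1
  · rw [Gm.mul_ap]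
    exact (mem_iff_of_GI hX h3 (h2 l ⟨h.1.le, le_rfl⟩)).2 h.2.2.1
  · rw [Gm.mul_ap, mem_iff_of_GI hX h3 (h2 s ⟨k.1.le, k.2.le⟩)]
    exact h.2.2.2 s k

theorem not_mem_of_finite (hinf : ∀ γ ∈ X, (S.orb γ).Infinite) {W : Set Gm} (hW : W.Finite)
    (k : S.Inv W) (hγ : γ ∈ X) : γ ∉ W :=
  fun h => hinf γ hγ (hW.subset fun _ hβ => Sys.Rel.mem hβ k h)

theorem finite_gaps (hX : S.Inv X) (hinf : ∀ γ ∈ X, (S.orb γ).Infinite) (hE : E.Finite)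
    (hd : ∀ i u v, Free E u v → GI u v ⊆ S.dom i ∨ Disjoint (GI u v) (S.dom i))
    (hb : Gm.c '' X ⊆ Icc a b) : {δ | ∃ l, Gap (Gm.c '' X) δ l}.Finite := by
  have h1 : {l | ∃ δ ∈ Sp (Gm.c '' X) E, Gap (Gm.c '' X) δ l}.Finite := by
    have h2 : ∀ δ ∈ Sp (Gm.c '' X) E, {l | Gap (Gm.c '' X) δ l}.Finite := fun δ _ =>
      Set.Subsingleton.finite fun l h l' h' => Gap.unique h h'
    refine ((finite_sp _ hE).biUnion h2).subset ?_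
    rintro l ⟨δ, h, k⟩
    exact mem_iUnion₂.2 ⟨δ, h, k⟩
  refine (h1.biUnion fun l _ => finite_len hb l).subset ?_
  rintro δ ⟨l, h⟩
  refine mem_iUnion₂.2 ⟨l, ?_, h⟩
  by_contra c
  obtain ⟨γ, hγ, e⟩ := h.2.1
  refine not_mem_of_finite hinf (Gm.finite_over ((finite_len hb l).image Gm.c)) ?_ hγ ⟨δ, h, e.symm⟩
  rintro i β hβ ⟨δ', h', e'⟩
  refine ⟨_, gap_map hX hE (hd i) h' (fun k => c ⟨δ', k, h'⟩) hβ e'.symm, ?_⟩
  rw [Gm.mul_c', Gm.mul_c', e']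

/-- the isolated germs of `X` -/
def Iso (X : Set Gm) : Set Gm := {γ | γ ∈ X ∧ ∀ᶠ α in 𝓝 γ, α ∈ X → α = γ}

theorem iso_subset : Iso X ⊆ End (Gm.c '' X) := by
  rintro γ ⟨h, k⟩
  obtain ⟨-, r, hr, k⟩ := eventually_gm'.1 k
  refine ⟨⟨γ, h, rfl⟩, r, hr, ?_⟩
  rintro s hs ⟨β, hβ, e⟩
  have e1 : (γ⁻¹ * β).c = s := inv_mul_c e
  have e2 := k (γ⁻¹ * β) (e1 ▸ hs.1) (e1 ▸ hs.2)
  rw [mul_inv_cancel_left] at e2
  rw [e2 hβ, inv_mul_cancel, Gm.one_c] at e1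
  exact hs.1.ne e1

theorem inv_iso (hX : S.Inv X) : S.Inv (Iso X) := by
  rintro i γ hγ ⟨h, k⟩
  refine ⟨hX i γ hγ h, ?_⟩
  have h1 := (continuous_gm_mul (S.φ i)⁻¹).tendsto (S.φ i * γ)
  rw [inv_mul_cancel_left] at h1
  filter_upwards [h1.eventually k, h1.eventually ((S.co i).2.mem_nhds hγ)] with α k1 k2 hα
  have h2 : (S.φ i)⁻¹ * α ∈ X := (hX.mem_iff k2).1 (by rwa [mul_inv_cancel_left])
  rw [← k1 h2, mul_inv_cancel_left]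

theorem isOpen_of_finite (hc : IsClosed X) (hY : IsClosed (Gm.c '' X))
    (hf : (End (Gm.c '' X)).Finite) (hi : ∀ γ ∈ X, γ ∉ Iso X) : IsOpen X := by
  refine isOpen_gm.2 fun γ hγ => ?_
  obtain ⟨r, hr, h1⟩ := exists_seg_avoid hf γ
  have h2 : ∀ s ∈ Ioo 0 r, γ.ap s ∈ Gm.c '' X := by
    intro s hs
    by_contra c
    have hK : IsCompact (Icc 0 s ∩ γ.ap ⁻¹' (Gm.c '' X)) :=
      isCompact_Icc.inter_right (hY.preimage γ.continuous_ap)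
    obtain ⟨m, hm, hg⟩ := hK.exists_isGreatest
      ⟨0, ⟨le_rfl, hs.1.le⟩, γ, hγ, (Gm.ap_zero γ).symm⟩
    have hms : m < s := hm.1.2.lt_of_ne fun e => c (e ▸ hm.2)
    have h3 : ∀ t, m < t → t < s → γ.ap t ∉ Gm.c '' X := fun t t1 t2 k =>
      absurd (hg ⟨⟨hm.1.1.trans t1.le, t2.le⟩, k⟩) (not_le.2 t1)
    rcases hm.1.1.eq_or_lt with e | e
    · refine hi γ hγ ⟨hγ, eventually_gm'.2 ⟨fun _ => rfl, s, hs.1, fun δ d1 d2 k => ?_⟩⟩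
      exact absurd ⟨_, k, rfl⟩ (h3 δ.c (e ▸ d1) d2)
    · have h4 : γ * Gm.tau m ∈ End (Gm.c '' X) := by
        refine ⟨hm.2, s - m, sub_pos.2 hms, fun t ht => ?_⟩
        rw [Gm.mul_ap, Gm.tau_ap]
        exact h3 _ (by linarith [ht.1]) (by linarith [ht.2])
      have h5 := h1 _ (mul_mem_seg.2 (mem_GI_of_Ioo e (hms.trans hs.2))) h4
      have h6 := congrArg Gm.c (mul_eq_left.1 h5)
      exact e.ne' h6
  refine ⟨r, hr, fun δ d1 d2 => ?_⟩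
  rw [← hc.closure_eq, mem_closure_gm]
  intro r' hr'
  obtain ⟨s, s0, s1, s2, s3⟩ : ∃ s, 0 < s ∧ s < r' ∧ s < δ.c ∧ s < r - δ.c := by
    have p : 0 < min r' (min δ.c (r - δ.c)) := lt_min hr' (lt_min d1 (sub_pos.2 d2))
    have p1 := min_le_left r' (min δ.c (r - δ.c))
    have p2 := (min_le_right r' _).trans (min_le_left δ.c (r - δ.c))
    have p3 := (min_le_right r' _).trans (min_le_right δ.c (r - δ.c))
    exact ⟨min r' (min δ.c (r - δ.c)) / 2, by linarith, by linarith, by linarith, by linarith⟩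
  have h3 : δ.ap s ∈ Ioo 0 r := by
    rcases δ.h with e | e <;> simp only [Gm.ap, e] <;> constructor <;> linarith
  obtain ⟨β, hβ, e⟩ := h2 _ h3
  rw [← Gm.mul_ap] at e
  have e1 := inv_mul_c e
  exact ⟨β, hβ, mem_seg.2 (mem_GI_of_Ioo (e1 ▸ s0) (e1 ▸ s1))⟩

end D_imanA

open D_imanA in
theorem p_D_IMAN :
    S_D_IMAN := by
  intro ι _ S X hc hX hinf
  obtain ⟨E, hd, -, a, -, b, -, -, hb⟩ := exists_ends S.co
  have h1 : X ⊆ GI a b := fun γ hγ => by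
    obtain ⟨i, hi⟩ := Sys.exists_dom_of_infinite (hinf γ hγ)
    exact hb i hi
  have hY : IsClosed (Gm.c '' X) :=
    ((isCompact_GI.of_isClosed_subset hc h1).image continuous_c).isClosed
  have h2 : Gm.c '' X ⊆ Icc a b := by
    rintro t ⟨γ, hγ, rfl⟩
    exact c_mem_of_GI (h1 hγ)
  have hf : (End (Gm.c '' X)).Finite :=
    ((finite_gaps hX hinf E.finite_toSet hd h2).union (finite_unb _)).subset fun δ h =>
      gap_or_unb hY h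
  exact isOpen_of_finite hc hY hf fun γ hγ =>
    not_mem_of_finite hinf (hf.subset iso_subset) (inv_iso hX) hγ

end Pool.Agent.P.MP_dba3d2_lc
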