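import Pool.Agent.P.MP_dba3d2_lc.D.Iface2
import Pool.Agent.P.MP_dba3d2_lc.D.SysC

/-! Step D_INDUCE of the stability project. -/

namespace Pool.Agent.P.MP_dba3d2_lc

open Set Filter Topology

namespace D_induceA

theorem cover {ι : Type} (S : Sys ι) {C U : Set Gm} (hC : CO C) (hU : CO U) (hUC : U ⊆ C)
    (h : ∀ γ ∈ C, ∃ β ∈ U, S.Rel γ β) :
    ∃ (κ : Type) (_ : Fintype κ) (W : κ → Set Gm) (ψ : κ → Gm) (k0 : κ), (∀ k, CO (W k)) ∧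
      (∀ k, ∀ γ ∈ W k, γ ∈ C ∧ ψ k * γ ∈ U ∧ S.Rel γ (ψ k * γ)) ∧ (∀ γ ∈ C, ∃ k, γ ∈ W k) ∧
      W k0 = U ∧ ψ k0 = 1 := by
  have key : ∀ γ : Gm, ∃ r > 0, ∃ ψ : Gm, γ ∈ C →
      seg γ r ⊆ {α | α ∈ C ∧ ψ * α ∈ U ∧ S.Rel α (ψ * α)} := fun γ => by
    by_cases hγ : γ ∈ C
    · obtain ⟨β, hβ, hr⟩ := h γ hγ
      have h1 : ∀ᶠ α in 𝓝 γ, α ∈ C := hC.2.mem_nhds hγ
      have h2 : ∀ᶠ α in 𝓝 γ, β * γ⁻¹ * α ∈ U :=
        (continuous_gm_mul (β * γ⁻¹)).continuousAt.eventually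
          (hU.2.mem_nhds (by simpa using hβ))
      obtain ⟨r, h0, hr'⟩ := mem_nhds_gm.1 (h1.and (h2.and hr.eventually))
      exact ⟨r, h0, β * γ⁻¹, fun _ => hr'⟩
    · exact ⟨1, one_pos, 1, fun k => absurd k hγ⟩
  choose r h0 ψ hψ using key
  obtain ⟨t, ht, hc⟩ := hC.1.elim_nhds_subcover (fun γ => seg γ (r γ)) fun γ _ =>
    seg_mem_nhds (h0 γ)
  refine ⟨Option t, inferInstance, fun k => k.elim U fun γ => seg γ (r γ),
    fun k => k.elim 1 fun γ => ψ γ, none, ?_, ?_, fun γ hγ => ?_, rfl, rfl⟩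
  · rintro (_ | k)
    exacts [hU, co_seg]
  · rintro (_ | k) γ hγ
    · simpa using ⟨hUC hγ, hγ, Sys.Rel.refl S γ⟩
    · exact hψ k (ht k k.2) hγ
  · obtain ⟨α, hα, k⟩ := mem_iUnion₂.1 (hc hγ)
    exact ⟨some ⟨α, hα⟩, k⟩

end D_induceA

theorem p_D_INDUCE :
    S_D_INDUCE := by
  intro ι _ S C U hC hI hU hUC h
  obtain ⟨κ, _, W, ψ, k0, hW, hW', hcov, e1, e2⟩ := D_induceA.cover S hC hU hUC h
  let φ : Option ι → Gm := fun o => o.elim 1 S.φ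
  let dm : Option ι → Set Gm := fun o => o.elim C S.dom
  have hdm : ∀ o, CO (dm o) := by
    rintro (_ | i)
    exacts [hC, S.co i]
  have hφ : ∀ o, ∀ γ ∈ dm o, S.Rel γ (φ o * γ) := by
    rintro (_ | i) γ hγ
    · exact (one_mul γ).symm ▸ Sys.Rel.refl S γ
    · exact Sys.rel_φ hγ
  let D : Option ι × κ × κ → Set Gm := fun x =>
    tr (ψ x.2.1) (W x.2.1 ∩ dm x.1 ∩ tr (φ x.1)⁻¹ (W x.2.2))
  let f : Option ι × κ × κ → Gm := fun x => ψ x.2.2 * φ x.1 * (ψ x.2.1)⁻¹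
  have hD : ∀ x, ∀ β ∈ D x, β ∈ U ∧ f x * β ∈ U ∧ S.Rel β (f x * β) := by
    rintro ⟨o, k, k'⟩ β ⟨⟨a1, a2⟩, a3⟩
    rw [mem_tr, inv_inv] at a3
    obtain ⟨-, b1, b2⟩ := hW' k _ a1
    obtain ⟨-, b3, b4⟩ := hW' k' _ a3
    rw [mul_inv_cancel_left] at b1 b2
    have e : f (o, k, k') * β = ψ k' * (φ o * ((ψ k)⁻¹ * β)) := by simp only [f, mul_assoc]
    rw [e]
    exact ⟨b1, b3, b2.symm.trans ((hφ o _ a2).trans b4)⟩
  obtain ⟨T, -, -, -, d1, d2, hT⟩ := Sys.exists_mk f D fun x =>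
    (((hW _).inter (hdm _)).inter ((hW _).tr _)).tr _
  have hs : ∀ o k k' γ, γ ∈ W k → γ ∈ dm o → φ o * γ ∈ W k' →
      T.Rel (ψ k * γ) (ψ k' * (φ o * γ)) := fun o k k' γ a1 a2 a3 =>
    Sys.Step.rel ((hT _ _).2 ⟨(o, k, k'), Or.inl ⟨mul_mem_tr.2 ⟨⟨a1, a2⟩, by
      rw [mem_tr, inv_inv]; exact a3⟩, by simp only [f, mul_assoc, inv_mul_cancel_left]⟩⟩)
  refine ⟨(Option ι × κ × κ) × Bool, inferInstance, T, ?_, fun γ β hst => ?_,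
    fun γ hγ β hβ hr => ?_⟩
  · rintro ⟨x, _ | _⟩ β hβ
    · rw [d2] at hβ
      have := (hD x _ hβ).2.1
      rwa [mul_inv_cancel_left] at this
    · rw [d1] at hβ
      exact (hD x _ hβ).1
  · obtain ⟨x, ⟨a1, rfl⟩ | ⟨a1, rfl⟩⟩ := (hT _ _).1 hst
    exacts [(hD x _ a1).2.2, (hD x _ a1).2.2.symm]
  · have key : ∀ α, S.Rel γ α → ∀ k, α ∈ W k → T.Rel γ (ψ k * α) := by
      intro α hα
      induction hα with
      | refl =>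
        intro k hk
        have := hs none k0 k γ (e1 ▸ hγ) (hUC hγ) ((one_mul γ).symm ▸ hk)
        simpa only [e2, φ, Option.elim, one_mul] using this
      | tail h1 h2 ih =>
        intro k hk
        obtain ⟨i, hi, rfl⟩ := h2
        obtain ⟨k', hk'⟩ := hcov _ (Sys.Rel.mem h1 hI (hUC hγ))
        exact (ih k' hk').trans (hs (some i) k' k _ hk' hi hk)
    simpa only [e2, one_mul] using key β hr k0 (e1 ▸ hβ)

end Pool.Agent.P.MP_dba3d2_lc
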