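import Pool.Agent.P.MP_dba3d2_lc.D.Iface4
import Pool.Agent.P.MP_dba3d2_lc.D.T0B

/-! Step D_IOTA of the stability project. -/

namespace Pool.Agent.P.MP_dba3d2_lc

open Set Filter Topology

namespace D_iotaA

variable {R : RT} {A : Finset R.W} {ι : Type} {S : Sys ι} {P : ℝ → R.W} {g : ι → R.W}
  {a : R.W → ℝ} {p q s t c d x y : ℝ} {E : Finset ℝ} {EG : Finset Gm} {r : Gm → ℝ} {γ β : Gm}

/-- admissible cells -/
def Adm (R : RT) (P : ℝ → R.W) (p q s t : ℝ) : Prop :=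
  R.JA P p q (P s) (P t) ∨ R.Fr P p q (P s) (P t)

/-- pieces that are letters -/
def LP (R : RT) (P : ℝ → R.W) (p q : ℝ) (EG : Finset Gm) (r : Gm → ℝ) (γ : Gm) : Prop :=
  γ ∈ EG ∧ ¬Adm R P p q γ.c (γ.ap (r γ))

/-- two points of one admissible cell -/
def AA (R : RT) (P : ℝ → R.W) (A : Finset R.W) (a : R.W → ℝ) (p q : ℝ) (E : Finset ℝ)
    (x y : ℝ) : Prop :=
  ∃ c ∈ E, ∃ d ∈ E, c < d ∧ Free E c d ∧ GI c d ⊆ R.secs a A ∧ Adm R P p q c d ∧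
    x ∈ Icc c d ∧ y ∈ Icc c d

theorem Adm.symm (h : Adm R P p q s t) : Adm R P p q t s := h.imp LG.JA.symm LG.Fr.symm

theorem ends {ρ : ℝ} (h0 : 0 < ρ) (h : seg γ ρ = GI s t) :
    γ.c = s ∧ γ.ap ρ = t ∨ γ.c = t ∧ γ.ap ρ = s := by
  rcases γ.h with e | e
  · rw [seg_pos e] at h
    obtain ⟨h1, h2⟩ := GI_inj (by linarith) h
    exact Or.inl ⟨h1, by rw [Gm.ap, e]; linarith⟩
  · rw [seg_neg e] at h
    obtain ⟨h1, h2⟩ := GI_inj (by linarith) h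
    exact Or.inr ⟨h2, by rw [Gm.ap, e]; linarith⟩

theorem adm_iff {ρ : ℝ} (h0 : 0 < ρ) (h : seg γ ρ = GI s t) :
    Adm R P p q γ.c (γ.ap ρ) ↔ Adm R P p q s t := by
  rcases ends h0 h with ⟨e1, e2⟩ | ⟨e1, e2⟩ <;> rw [e1, e2]
  exact ⟨Adm.symm, Adm.symm⟩

theorem iso (H : R.Setup P A S g a) (h : c < d) (k : GI c d ⊆ R.secs a A) : R.IsoOn P c d := by
  obtain ⟨w, hw, h1, h2⟩ := H.seg_in_sec h k
  exact (H.iso w hw).mono h1 h2

theorem adm_mem (hP : R.IsoOn P p q) (hI : R.IsoOn P c d) (h : Adm R P p q c d)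
    (hx : x ∈ Icc c d) (hy : y ∈ Icc c d) : (P x)⁻¹ * P y ∈ R.T0 P p q := by
  have h0 := hx.1.trans hx.2
  have k1 := hI.on ⟨le_rfl, h0⟩ ⟨h0, le_rfl⟩ (Icc_subset_uIcc hx)
  have k2 := hI.on ⟨le_rfl, h0⟩ ⟨h0, le_rfl⟩ (Icc_subset_uIcc hy)
  exact h.elim (fun h => (RT.ja_sub hP h k1 k2).mem_T0) fun h => (RT.fr_sub h k1 k2).mem_T0

theorem piece_sub (Q : R.Part P A S a p q E EG r) (h : γ ∈ EG) : seg γ (r γ) ⊆ R.secs a A :=
  fun β k => (Q.fam.sub γ h β k).1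

theorem inner (Q : R.Part P A S a p q E EG r) (h : γ ∈ EG) (h1 : β ∈ seg γ (r γ))
    (h2 : β.opp ∈ seg γ (r γ)) : β.c ∉ E := by
  obtain ⟨s, -, t, -, -, hF, e⟩ := Q.piece γ h
  rw [e] at h1 h2
  refine fun k => hF _ k ?_
  rcases β.h with e | e
  · rw [mem_GI_pos e] at h1
    rw [mem_GI_neg (by simp [e]), Gm.opp_c] at h2
    exact ⟨h2.1, h1.2⟩
  · rw [mem_GI_neg e] at h1
    rw [mem_GI_pos (by simp [e]), Gm.opp_c] at h2
    exact ⟨h1.1, h2.2⟩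

theorem rel_mem (Q : R.Part P A S a p q E EG r) (h : γ ∈ EG) (k : S.Rel γ β) :
    β ∈ EG ∧ r β = r γ := by
  induction k with
  | refl => exact ⟨h, rfl⟩
  | tail _ k ih =>
    obtain ⟨i, h1, rfl⟩ := k
    exact (Q.fam.inv _ ih.1 i h1).imp_right fun e => e.trans ih.2

theorem move (H : R.Setup P A S g a) (Q : R.Part P A S a p q E EG r) (h : γ ∈ EG)
    (k : S.Rel γ β) : ∃ w, R.d (w * P γ.c) (P β.c) = 0 ∧
      R.d (w * P (γ.ap (r γ))) (P (β.ap (r β))) = 0 := by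
  have h0 := Q.fam.pos γ h
  obtain ⟨w, hw⟩ := H.rl_of_rel h0 (fun α hα i hi δ hδ => by
    obtain ⟨k1, k2⟩ := rel_mem Q h hα
    exact (Q.fam.dom α k1 i δ (k2 ▸ hδ)).2 hi) k
  refine ⟨w, by simpa using hw 0 ⟨le_rfl, h0.le⟩, ?_⟩
  rw [(rel_mem Q h k).2]
  exact hw _ ⟨h0.le, le_rfl⟩

theorem LP.rel (H : R.Setup P A S g a) (Q : R.Part P A S a p q E EG r) (h : LP R P p q EG r γ)
    (k : S.Rel γ β) : LP R P p q EG r β := by
  obtain ⟨w, h1, h2⟩ := move H Q h.1 k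
  refine ⟨(rel_mem Q h.1 k).1, fun e => h.2 (e.imp (fun e => ?_) fun e => ?_)⟩
  · exact (LG.ja_mul_left w).1 (e.congr (LG.d_zero_symm h1) (LG.d_zero_symm h2))
  · exact (LG.fr_mul_left w).1 (e.congr (LG.d_zero_symm h1) (LG.d_zero_symm h2))

/-- the letters -/
theorem letters (H : R.Setup P A S g a) (Q : R.Part P A S a p q E EG r)
    (hn : ∀ u v, p ≤ u → u < v → v ≤ q → ¬R.Per (P u) (P v)) :
    ∃ (k : ℕ) (y : Fin k → R.W) (e : Fin k → Gm) (rep : Gm → Gm), Function.Injective e ∧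
      (∀ γ β, S.Rel γ β → rep γ = rep β) ∧ (∀ i, 0 < R.ℓ (y i) ∧ ¬R.Per 1 (y i)) ∧
      ∀ γ, LP R P p q EG r γ → ∃ (i : Fin k) (z z' : R.T0 P p q), e i = rep γ ∧ R.ℓ z = 0 ∧
        R.ℓ z' = 0 ∧ (P γ.c)⁻¹ * P (γ.ap (r γ)) = z * y i * z' := by
  classical
  have : Nonempty Gm := ⟨1⟩
  let L := EG.filter (LP R P p q EG r)
  have hL : ∀ γ, γ ∈ L ↔ LP R P p q EG r γ := fun γ =>
    Finset.mem_filter.trans ⟨fun h => h.2, fun h => ⟨h.1, h⟩⟩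
  let e : Fin L.card → Gm := fun i => L.equivFin.symm i
  refine ⟨L.card, fun i => (P (e i).c)⁻¹ * P ((e i).ap (r (e i))), e,
    fun γ => Classical.epsilon (· ∈ S.orb γ), Subtype.val_injective.comp L.equivFin.symm.injective,
    fun γ β h => by simp only [h.orb_eq], fun i => ?_, fun γ h => ?_⟩
  · have h := (hL _).1 (L.equivFin.symm i).2
    refine ⟨?_, fun k => h.2 (Or.inr (RT.fr_of_per hn (LG.per_base.1 k)))⟩
    obtain ⟨s, -, t, -, h1, -, h2⟩ := Q.piece _ h.1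
    have hI := iso H h1 (h2 ▸ piece_sub Q h.1)
    have hs : s ∈ Icc s t := ⟨le_rfl, h1.le⟩
    have ht : t ∈ Icc s t := ⟨h1.le, le_rfl⟩
    show 0 < R.d (P (e i).c) (P ((e i).ap (r (e i))))
    rcases ends (Q.fam.pos _ h.1) h2 with ⟨e1, e2⟩ | ⟨e1, e2⟩
    · rw [show (e i).c = s from e1, show (e i).ap (r (e i)) = t from e2, hI _ hs _ ht]
      exact abs_pos.2 (sub_ne_zero.2 h1.ne)
    · rw [show (e i).c = t from e1, show (e i).ap (r (e i)) = s from e2, hI _ ht _ hs]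
      exact abs_pos.2 (sub_ne_zero.2 h1.ne')
  · have k : S.Rel γ (Classical.epsilon (· ∈ S.orb γ)) :=
      Classical.epsilon_spec (p := (· ∈ S.orb γ)) ⟨γ, Sys.Rel.refl S γ⟩
    dsimp only
    generalize Classical.epsilon (· ∈ S.orb γ) = β at k
    obtain ⟨w, h1, h2⟩ := move H Q h.1 k
    have e1 : e (L.equivFin ⟨β, (hL _).2 (h.rel H Q k)⟩) = β :=
      congrArg Subtype.val (L.equivFin.symm_apply_apply _)
    have k1 : R.ℓ ((w * P γ.c)⁻¹ * P β.c) = 0 := h1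
    have k2 : R.ℓ ((P (β.ap (r β)))⁻¹ * (w * P (γ.ap (r γ)))) = 0 := LG.d_zero_symm h2
    refine ⟨_, ⟨_, LG.tiny_mem_T0 k1⟩, ⟨_, LG.tiny_mem_T0 k2⟩, e1, k1, k2, ?_⟩
    simp only [e1]
    group

/-- the function on the sections -/
theorem glue (H : R.Setup P A S g a) (hP : R.IsoOn P p q) (Q : R.Part P A S a p q E EG r)
    {G : Type} [Group G] (j : R.T0 P p q →* G) (val : Gm → G) : ∃ n : ℝ → G,
    (∀ x y, AA R P A a p q E x y →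
      ∃ τ : R.T0 P p q, (τ : R.W) = (P x)⁻¹ * P y ∧ (n x)⁻¹ * n y = j τ) ∧
    ∀ γ, LP R P p q EG r γ → (n γ.c)⁻¹ * n (γ.ap (r γ)) = val γ := by
  classical
  let C : ℝ → Gm → Prop := fun s γ => LP R P p q EG r γ ∧ Gm.tau s ∈ seg γ (r γ)
  obtain ⟨n, hn⟩ := exists_glue E fun s x =>
    if h : ∃ γ, C s γ then (if x = h.choose.c then 1 else val h.choose)
    else if h' : (P s)⁻¹ * P x ∈ R.T0 P p q then j ⟨_, h'⟩ else 1
  refine ⟨n, ?_, fun γ h => ?_⟩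
  · rintro x y ⟨c, hc, d, hd, h1, h2, h3, h4, hx, hy⟩
    have hI := iso H h1 h3
    have hc' : c ∈ Icc c d := ⟨le_rfl, h1.le⟩
    have k : ¬∃ γ, C c γ := by
      rintro ⟨γ, k1, k2⟩
      obtain ⟨s, hs, t, ht, -, k3, k4⟩ := Q.piece _ k1.1
      obtain ⟨rfl, rfl⟩ := cell_unique hc hd hs ht h2 k3 (tau_mem_GI.2 ⟨le_rfl, h1⟩) (k4 ▸ k2)
      exact k1.2 ((adm_iff (Q.fam.pos _ k1.1) k4).2 h4)
    refine ⟨⟨_, adm_mem hP hI h4 hx hy⟩, rfl, ?_⟩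
    rw [hn c hc d hd h1 h2 x hx y hy, dif_neg k, dif_neg k, dif_pos (adm_mem hP hI h4 hc' hx),
      dif_pos (adm_mem hP hI h4 hc' hy), ← map_inv, ← map_mul]
    exact congrArg j (Subtype.ext (by simp [mul_assoc]))
  · obtain ⟨s, hs, t, ht, h1, h2, h3⟩ := Q.piece _ h.1
    have h0 := Q.fam.pos _ h.1
    have k0 : Gm.tau s ∈ seg γ (r γ) := h3 ▸ tau_mem_GI.2 ⟨le_rfl, h1⟩
    have k : ∃ γ, C s γ := ⟨γ, h, k0⟩
    have e : k.choose = γ := Q.fam.disj _ k.choose_spec.1.1 _ h.1 _ k.choose_spec.2 k0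
    have k1 : γ.c ∈ Icc s t ∧ γ.ap (r γ) ∈ Icc s t ∧ γ.ap (r γ) ≠ γ.c := by
      rcases ends h0 h3 with ⟨e1, e2⟩ | ⟨e1, e2⟩ <;> rw [e1, e2]
      exacts [⟨⟨le_rfl, h1.le⟩, ⟨h1.le, le_rfl⟩, h1.ne'⟩, ⟨⟨h1.le, le_rfl⟩, ⟨le_rfl, h1.le⟩, h1.ne⟩]
    rw [hn s hs t ht h1 h2 _ k1.1 _ k1.2.1, dif_pos k, dif_pos k, e, if_pos rfl, if_neg k1.2.2,
      inv_one, one_mul]

theorem aa_of (Q : R.Part P A S a p q E EG r) (h : β ∈ R.secs a A)
    (hn : ∀ γ, LP R P p q EG r γ → β ∉ seg γ (r γ)) (h1 : β ∈ GI s t) (h2 : Free E s t)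
    (hx : x ∈ Icc s t) (hy : y ∈ Icc s t) : AA R P A a p q E x y := by
  obtain ⟨w, hw, h⟩ := h
  obtain ⟨c, hc, d, hd, k1, k2, k3, k4, k5⟩ :=
    exists_cell E.finite_toSet (Q.ends w hw).1 (Q.ends w hw).2 h
  have k6 : GI c d ⊆ R.secs a A := fun δ k => ⟨w, hw, GI_mono k1 k3 k⟩
  obtain ⟨a1, a2⟩ := (GI_subset_iff (lt_of_mem_GI h1)).1 (GI_subset_of_free h2 hc hd ⟨β, h1, k5⟩)
  refine ⟨c, hc, d, hd, k2, k4, k6, ?_, Icc_subset_Icc a1 a2 hx, Icc_subset_Icc a1 a2 hy⟩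
  rcases Q.cell c hc d hd k2 k4 k6 with ⟨γ, b1, b2⟩ | b
  · by_contra e
    exact hn γ ⟨b1, fun e' => e ((adm_iff (Q.fam.pos _ b1) b2).1 e')⟩ (b2 ▸ k5)
  · exact b

/-- a function that is constant on the steps is constant on the band -/
theorem chain (H : R.Setup P A S g a) (Q : R.Part P A S a p q E EG r) {i : ι} (hst : s < t)
    (hd : S.dom i = GI s t) {α : Type} (K : ℝ → α)
    (h1 : ∀ γ, LP R P p q EG r γ → seg γ (r γ) ⊆ S.dom i → K γ.c = K (γ.ap (r γ)))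
    (h2 : ∀ x ∈ Icc s t, ∀ y ∈ Icc s t, AA R P A a p q E x y →
      AA R P A a p q E ((S.φ i).ap x) ((S.φ i).ap y) → K x = K y) : K s = K t := by
  have hE : ((E : Set ℝ) ∪ (S.φ i).ap ⁻¹' E).Finite :=
    E.finite_toSet.union (E.finite_toSet.preimage (S.φ i).ap_injective.injOn)
  refine chain_ind hE (Q := fun u v => K u = K v) hst.le rfl
    fun x y a1 a2 a3 a4 a5 a6 ih => ih.trans ?_
  have b0 : Gm.tau x ∈ GI x y := tau_mem_GI.2 ⟨le_rfl, a2⟩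
  have b1 : Gm.tau x ∈ S.dom i := hd ▸ GI_mono a1 a3 b0
  have b2 : Free E x y := a6.mono subset_union_left
  by_cases hc : ∃ γ, LP R P p q EG r γ ∧ Gm.tau x ∈ seg γ (r γ)
  · obtain ⟨γ, k1, k2⟩ := hc
    have k3 := (Q.fam.dom γ k1.1 i _ k2).1 b1
    have k4 : seg γ (r γ) ⊆ S.dom i := fun β k => (Q.fam.dom γ k1.1 i β k).2 k3
    obtain ⟨k5, k6⟩ := Q.fam.inv γ k1.1 i k3
    obtain ⟨c, hc, d, hd', c1, c2, c3⟩ := Q.piece γ k1.1
    obtain ⟨d1, d2⟩ := (GI_subset_iff a2).1 (GI_subset_of_free b2 hc hd' ⟨_, b0, c3 ▸ k2⟩)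
    obtain ⟨d3, d4⟩ := (GI_subset_iff c1).1 (show GI c d ⊆ GI s t from c3 ▸ hd ▸ k4)
    have hF : Free ((E : Set ℝ) ∪ (S.φ i).ap ⁻¹' E) c d := by
      rintro z (hz | hz) k
      · exact c2 z hz k
      · refine inner Q k5 (β := S.φ i * Gm.tau z) ?_ ?_ hz
        · rw [k6, mul_mem_seg_mul, c3]
          exact tau_mem_GI.2 ⟨k.1.le, k.2⟩
        · rw [k6, ← Gm.mul_opp, mul_mem_seg_mul, c3]
          exact opp_tau_mem_GI.2 ⟨k.1, k.2.le⟩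
    have e1 : x = c := by
      refine le_antisymm (a4.elim (fun k => ?_) fun k => k ▸ d3) d1
      exact not_lt.1 fun e => hF x k ⟨e, a2.trans_le d2⟩
    have e2 : y = d := by
      refine le_antisymm d2 (a5.elim (fun k => ?_) fun k => k ▸ d4)
      exact not_lt.1 fun e => hF y k ⟨d1.trans_lt a2, e⟩
    have e := h1 γ k1 k4
    rcases ends (Q.fam.pos _ k1.1) c3 with ⟨e3, e4⟩ | ⟨e3, e4⟩ <;> rw [e3, e4] at e <;>
      rw [e1, e2, e]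
  · have b3 := S.map i _ b1
    refine h2 x ⟨a1, a2.le.trans a3⟩ y ⟨a1.trans a2.le, a3⟩
      (aa_of Q (H.in' i b1) (fun γ k k' => hc ⟨γ, k, k'⟩) b0 b2 ⟨le_rfl, a2.le⟩ ⟨a2.le, le_rfl⟩)
      (aa_of Q (H.in' _ b3) (fun γ k k' => hc ?_) (tr_GI a2.le ▸ mul_mem_tr.2 b0) ?_
        left_mem_uIcc right_mem_uIcc)
    · have k3 := (Q.fam.dom γ k.1 _ _ k').1 b3
      refine ⟨_, k.rel H Q (Sys.rel_φ k3), ?_⟩
      rw [(Q.fam.inv γ k.1 _ k3).2, ← S.φ_inv_mul i (Gm.tau x), mul_mem_seg_mul]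
      exact k'
    · intro z hz k
      obtain ⟨z, rfl⟩ : ∃ z', (S.φ i).ap z' = z := ⟨_, (S.φ i).ap_inv_ap z⟩
      have k1 : z ∈ uIcc x y := (S.φ i).ap_mem_uIcc.1 ⟨k.1.le, k.2.le⟩
      rw [uIcc_of_le a2.le] at k1
      refine a6 z (Or.inr hz) ⟨lt_of_le_of_ne k1.1 fun e => ?_, lt_of_le_of_ne k1.2 fun e => ?_⟩
      · subst e
        rcases le_total ((S.φ i).ap x) ((S.φ i).ap y) with e | e
        · exact absurd k.1 (by rw [min_eq_left e]; exact lt_irrefl _)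
        · exact absurd k.2 (by rw [max_eq_left e]; exact lt_irrefl _)
      · subst e
        rcases le_total ((S.φ i).ap x) ((S.φ i).ap z) with e | e
        · exact absurd k.2 (by rw [max_eq_right e]; exact lt_irrefl _)
        · exact absurd k.1 (by rw [min_eq_right e]; exact lt_irrefl _)

theorem alg {G : Type} [Group G] {m0 m1 n0 n1 u v : G} (h : u * (m0⁻¹ * m1) = n0⁻¹ * n1 * v) :
    n0 * u * m0⁻¹ = n1 * v * m1⁻¹ := by
  calc _ = n0 * (u * (m0⁻¹ * m1)) * m1⁻¹ := by group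
    _ = _ := by rw [h]; group

end D_iotaA

open D_iotaA Monoid

theorem p_D_IOTA (hD_EXT : S_D_EXT) :
    S_D_IOTA := by
  intro R A ι S P g a p q E EG r H hP hn Q
  obtain ⟨k, y, e, rep, he, hrep, hy, hl⟩ := letters H Q hn
  have hv : ∀ γ, ∃ v : Coprod (R.T0 P p q) (FreeGroup (Fin k)), LP R P p q EG r γ →
      ∃ (i : Fin k) (z z' : R.T0 P p q), e i = rep γ ∧ R.ℓ z = 0 ∧ R.ℓ z' = 0 ∧
        (P γ.c)⁻¹ * P (γ.ap (r γ)) = z * y i * z' ∧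
        v = Coprod.inl z * Coprod.inr (FreeGroup.of i) * Coprod.inl z' := fun γ => by
    by_cases h : LP R P p q EG r γ
    · obtain ⟨i, z, z', h1, h2, h3, h4⟩ := hl γ h
      exact ⟨_, fun _ => ⟨i, z, z', h1, h2, h3, h4, rfl⟩⟩
    · exact ⟨1, fun k => (h k).elim⟩
  choose val hval using hv
  obtain ⟨n, n1, n2⟩ := glue H hP Q Coprod.inl val
  refine ⟨k, y, n, ⟨hy, fun s hs t ht h1 h2 h3 h4 =>
    n1 s t ⟨s, hs, t, ht, h1, h2, h3, h4, ⟨le_rfl, h1.le⟩, ⟨h1.le, le_rfl⟩⟩,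
    fun s hs t ht h1 h2 h3 h4 => ?_⟩, fun G _ j u hu j' m hj hm i s t hst hd => ?_⟩
  · obtain ⟨γ, b1, b2⟩ := (Q.cell s hs t ht h1 h2 h3).resolve_right h4
    have h0 := Q.fam.pos _ b1
    have k1 : LP R P p q EG r γ := ⟨b1, fun e' => h4 ((adm_iff h0 b2).1 e')⟩
    obtain ⟨i, z, z', -, c1, c2, c3, c4⟩ := hval γ k1
    refine ⟨i, z, z', _, _, ends h0 b2, c1, c2, ?_, c3, (n2 γ k1).trans c4⟩
    have hI := iso H h1 h3
    have hs' : s ∈ Icc s t := ⟨le_rfl, h1.le⟩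
    have ht' : t ∈ Icc s t := ⟨h1.le, le_rfl⟩
    rw [← LG.l_tiny_mul c1, ← LG.l_mul_tiny _ c2, ← c3]
    show R.d (P γ.c) (P (γ.ap (r γ))) = _
    rcases ends h0 b2 with ⟨e1, e2⟩ | ⟨e1, e2⟩ <;> rw [e1, e2]
    · rw [hI _ hs' _ ht', abs_sub_comm, abs_of_pos (sub_pos.2 h1)]
    · rw [hI _ ht' _ hs', abs_of_pos (sub_pos.2 h1)]
  have hR : R.Rl P (g i) (S.φ i) s t := by
    rcases H.band i with k | ⟨u, v, -, k1, k2, -⟩
    · exact absurd (hd ▸ k) (GI_nonempty.2 hst).ne_empty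
    · obtain ⟨rfl, rfl⟩ := GI_inj hst (hd.symm.trans k1)
      exact k2
  have hz : ∀ x ∈ Icc s t, ∃ ζ : R.T0 P p q, R.ℓ ζ = 0 ∧ j' (R.zeta P (g i) (S.φ i) x) = j ζ ∧
      (ζ : R.W) = (P ((S.φ i).ap x))⁻¹ * g i * P x := fun x hx =>
    ⟨⟨_, LG.tiny_mem_T0 (hR.zeta hx)⟩, hR.zeta hx, hj ⟨_, LG.tiny_mem_T0 (hR.zeta hx)⟩, rfl⟩
  have hm' : ∀ x x', (m x)⁻¹ * m x' = Coprod.lift j (FreeGroup.lift u) ((n x)⁻¹ * n x') :=
    fun x x' => by rw [map_mul, map_inv, hm, hm]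
  refine chain H Q hst hd
    (fun x => m ((S.φ i).ap x) * j' (R.zeta P (g i) (S.φ i) x) * (m x)⁻¹) (fun γ k1 k2 => ?_)
    fun x hx x' hx' k1 k2 => ?_
  · have h0 := Q.fam.pos _ k1.1
    have k3 := k2 (self_mem_seg h0)
    have k4 := k1.rel H Q (Sys.rel_φ k3)
    have k5 := (seg_subset_GI h0).1 (hd ▸ k2)
    obtain ⟨ζ, a1, a2, a3⟩ := hz γ.c (by simpa using k5 0 ⟨le_rfl, h0.le⟩)
    obtain ⟨ζ', b1, b2, b3⟩ := hz _ (k5 _ ⟨h0.le, le_rfl⟩)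
    obtain ⟨l, z, z', c0, c1, c2, c3, c4⟩ := hval γ k1
    obtain ⟨l', w, w', d0, d1, d2, d3, d4⟩ := hval _ k4
    obtain rfl : l = l' := he (c0.trans ((hrep _ _ (Sys.rel_φ k3)).trans d0.symm))
    have e1 := n2 _ k4
    rw [(Q.fam.inv γ k1.1 i k3).2, Gm.mul_ap, Gm.mul_c'] at e1 d3
    refine alg ?_
    rw [a2, b2, hm', hm', n2 γ k1, e1, c4, d4]
    have e2 : ((w' * ζ' * z'⁻¹ : R.T0 P p q) : R.W) =
        (y l)⁻¹ * (w⁻¹ * ζ * z : R.T0 P p q) * y l := by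
      have : (ζ : R.W) * (z * y l * z') = w * y l * w' * ζ' := by
        rw [← c3, ← d3, a3, b3]; group
      push_cast
      calc _ = (y l)⁻¹ * ((w : R.W)⁻¹ * (w * y l * w' * ζ') * (z' : R.W)⁻¹) := by group
        _ = _ := by rw [← this]; group
    have e3 := hu l (w⁻¹ * ζ * z) _ ⟨by
      rw [mul_one, LG.d_one]
      exact LG.l_zero_mul (LG.l_zero_mul (LG.l_zero_inv d1) a1) c1, by
      rw [LG.d, ← mul_assoc, ← e2]
      exact LG.l_zero_mul (LG.l_zero_mul d2 b1) (LG.l_zero_inv c2)⟩ e2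
    simp only [map_mul, map_inv, Coprod.lift_apply_inl, Coprod.lift_apply_inr,
      FreeGroup.lift_apply_of] at e3 ⊢
    calc _ = j w * u l * ((u l)⁻¹ * ((j w)⁻¹ * j ζ * j z) * u l) * j z' := by group
      _ = _ := by rw [e3]; group
  · obtain ⟨ζ, -, a2, a3⟩ := hz x hx
    obtain ⟨ζ', -, b2, b3⟩ := hz x' hx'
    obtain ⟨τ, c1, c2⟩ := n1 _ _ k1
    obtain ⟨τ', d1, d2⟩ := n1 _ _ k2
    refine alg ?_
    rw [a2, b2, hm', hm', c2, d2, Coprod.lift_apply_inl, Coprod.lift_apply_inl, ← map_mul,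
      ← map_mul]
    refine congrArg j (Subtype.ext ?_)
    push_cast
    rw [a3, b3, c1, d1]
    group

end Pool.Agent.P.MP_dba3d2_lc
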