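import Pool.Agent.P.MP_dba3d2_lc.D.Iface3
import Pool.Agent.P.MP_dba3d2_lc.D.TreeB

/-! Step D_LENS of the stability project. -/

namespace Pool.Agent.P.MP_dba3d2_lc

open Set Filter Topology

namespace D_lensA

variable {G : LG} {n : ℝ → G.W} {cut : Gm → G.W}

theorem jump (h : ∀ γ : Gm, ∃ r > 0, ∀ s, 0 < s → s ≤ r → (n γ.c)⁻¹ * n (γ.ap s) = cut γ)
    (γ : Gm) : ∃ r > 0, ∀ s, 0 < s → s ≤ r → n (γ.ap s) = n γ.c * cut γ := by
  obtain ⟨r, r0, hr⟩ := h γ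
  exact ⟨r, r0, fun s a b => by rw [← hr s a b, mul_inv_cancel_left]⟩

theorem valid (h : ∀ γ : Gm, ∃ r > 0, ∀ s, 0 < s → s ≤ r → n (γ.ap s) = n γ.c * cut γ)
    (g : G.W) (φ : Gm) (u v : ℝ) (huv : u ≤ v)
    (hc : ∀ γ ∈ GI u v, cut (φ * γ) = g * cut γ * g⁻¹) :
    n (φ.ap u) * g * (n u)⁻¹ = n (φ.ap v) * g * (n v)⁻¹ := by
  refine const_of_germs (c := fun t => n (φ.ap t) * g * (n t)⁻¹) huv fun γ hγ => ?_
  obtain ⟨r, r0, hr⟩ := h γ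
  obtain ⟨r', r0', hr'⟩ := h (φ * γ)
  refine ⟨min r r', lt_min r0 r0', fun s hs => ?_⟩
  rcases hs.1.eq_or_lt with e | e
  · rw [← e, Gm.ap_zero]
  have k1 := hr s e (hs.2.trans (min_le_left _ _))
  have k2 := hr' s e (hs.2.trans (min_le_right _ _))
  rw [Gm.mul_ap, Gm.mul_c', hc γ hγ] at k2
  simp only [k1, k2]
  group

theorem len (h : ∀ γ : Gm, ∃ r > 0, ∀ s, 0 < s → s ≤ r → n (γ.ap s) = n γ.c * cut γ)
    {f : ℝ → G.W} {p q : ℝ} (hf : ∀ s ∈ Icc p q, ∀ t ∈ Icc p q, G.d (f s) (f t) ≤ |s - t|)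
    (T : Finset Gm) (w : ℝ) (hw : 0 ≤ w)
    (h1 : ∀ γ ∈ GI p q, γ ∈ T → G.d (f γ.c) (cut γ * f γ.c) ≤ w)
    (h2 : ∀ γ ∈ GI p q, γ ∉ T → G.d (f γ.c) (cut γ * f γ.c) = 0) {u v : ℝ}
    (hu : p ≤ u) (huv : u ≤ v) (hv : v ≤ q) :
    G.d (n u * f u) (n v * f v) ≤ v - u + T.card * w := by
  classical
  have k := len_of_germs (d := G.d) LG.d_self LG.d_comm LG.d_triangle (f := fun t => n t * f t)
    (w := fun γ => if γ ∈ T then w else 0) T (fun γ => by split_ifs; exacts [hw, le_rfl])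
    (fun γ e => if_neg e) huv fun γ hγ => by
      have hγ' := GI_mono hu hv hγ
      obtain ⟨r, r0, hr⟩ := h γ
      obtain ⟨r', r0', hr'⟩ := mem_GI_iff.1 hγ'
      refine ⟨min r r', lt_min r0 r0', fun s s0 s1 => ?_⟩
      have a1 := hr s s0 (s1.trans (min_le_left _ _))
      have a2 := hr' s ⟨s0.le, s1.trans (min_le_right _ _)⟩
      have a3 := hf _ (c_mem_of_GI hγ') _ a2
      have a4 : |γ.c - γ.ap s| = s := by
        rw [← γ.ap_zero, Gm.abs_ap_sub, zero_sub, abs_neg, abs_of_pos s0]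
      have a5 := LG.d_triangle (f γ.c) (cut γ * f γ.c) (cut γ * f (γ.ap s))
      rw [LG.d_mul_left] at a5
      simp only [a1, mul_assoc, LG.d_mul_left]
      split_ifs with e
      · linarith [h1 γ hγ' e]
      · linarith [h2 γ hγ' e]
  rwa [Finset.sum_congr rfl fun γ e => if_pos e, Finset.sum_const, nsmul_eq_mul] at k

variable {ι : Type} {S : Sys ι} {F : Finset ℝ} {E : Finset Gm} {r : Gm → ℝ} {X : Set Gm}

theorem piece (h : ∀ γ : Gm, ∃ r > 0, ∀ s, 0 < s → s ≤ r → n (γ.ap s) = n γ.c * cut γ)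
    (hS : S.Fam X F E r) (h1 : ∀ γ, γ ∉ E → cut γ = 1) {γ : Gm} (hγ : γ ∈ E) :
    n (γ.ap (r γ)) = n γ.c * cut γ := by
  obtain ⟨ρ, ρ0, hρ⟩ := h γ
  have m0 : 0 < min ρ (r γ) := lt_min ρ0 (hS.pos γ hγ)
  rw [← hρ _ m0 (min_le_left _ _)]
  refine (const_of_germs (c := fun t => n (γ.ap t)) (min_le_right ρ (r γ)) fun δ hδ => ?_).symm
  have a1 : γ * δ ∉ E := fun e => by
    have a2 : γ * δ ∈ seg γ (r γ) := mul_mem_seg.2 (GI_mono m0.le le_rfl hδ)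
    have a3 := hS.disj γ hγ _ e _ a2 (self_mem_seg (hS.pos _ e))
    have a4 : δ = 1 := by simpa using a3
    have a5 := hδ.1
    rw [a4, Gm.one_c] at a5
    exact a5.not_gt m0
  obtain ⟨σ, σ0, hσ⟩ := h (γ * δ)
  refine ⟨σ, σ0, fun s hs => ?_⟩
  rcases hs.1.eq_or_lt with e | e
  · rw [← e, Gm.ap_zero]
  have k := hσ s e hs.2
  rwa [h1 _ a1, mul_one, Gm.mul_ap, Gm.mul_c'] at k

theorem inside (hS : S.Fam X F E r) {γ : Gm} (hγ : γ ∈ E) {z : ℝ}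
    (hz : z ∈ (F : Set ℝ) ∪ (Gm.c '' E ∪ (fun γ : Gm => γ.ap (r γ)) '' E))
    (z1 : min γ.c (γ.ap (r γ)) < z) (z2 : z < max γ.c (γ.ap (r γ))) : False := by
  have m : ∀ β : Gm, β.c = z → β ∈ seg γ (r γ) := fun β e => by
    rw [seg_eq_GI (hS.pos γ hγ).le]
    exact mem_GI_of_Ioo (e ▸ z1) (e ▸ z2)
  have k : ∀ β ∈ E, β.c = z → γ = β := fun β hβ e =>
    hS.disj γ hγ β hβ β (m β e) (self_mem_seg (hS.pos β hβ))
  rw [min_lt_iff] at z1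
  rw [lt_max_iff] at z2
  rcases hz with hz | ⟨β, hβ, e⟩ | ⟨β, hβ, e⟩
  · have t : ∀ β : Gm, β.c = z → γ = β := fun β e =>
      k β (hS.top β (hS.sub γ hγ β (m β e)).1 (hS.sub γ hγ β (m β e)).2 (e ▸ hz)) e
    exact Gm.opp_ne _ ((t (Gm.tau z).opp (by simp)).symm.trans (t (Gm.tau z) rfl))
  · have e' := k β hβ e
    subst e'
    rcases z1 with a | a <;> rcases z2 with b | b <;> linarith
  · have a1 : β * (Gm.tau (r β)).opp ∈ seg β (r β) :=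
      mul_mem_seg.2 (opp_tau_mem_GI.2 ⟨hS.pos β hβ, le_rfl⟩)
    have e' := hS.disj γ hγ β hβ _ (m _ (by rw [Gm.mul_c', Gm.opp_c, Gm.tau_c]; exact e)) a1
    subst e'
    simp only at e
    rcases z1 with a | a <;> rcases z2 with b | b <;> linarith

theorem zero (h : ∀ γ : Gm, ∃ r > 0, ∀ s, 0 < s → s ≤ r → n (γ.ap s) = n γ.c * cut γ)
    {f : ℝ → G.W} {p q : ℝ} (hS : S.Fam (GI p q) F E r) (h0 : ∀ β, (S.orb β).Finite)
    (h1 : ∀ γ, γ ∉ E → cut γ = 1) (h2 : ∀ γ ∈ E, G.d (f γ.c) (cut γ * f (γ.ap (r γ))) = 0)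
    {u v : ℝ} (hu : u ∈ F) (hv : v ∈ F) (pu : p ≤ u) (huv : u ≤ v) (vq : v ≤ q) :
    G.d (n u * f u) (n v * f v) = 0 := by
  have fin : ((F : Set ℝ) ∪ (Gm.c '' E ∪ (fun γ : Gm => γ.ap (r γ)) '' E)).Finite :=
    F.finite_toSet.union ((E.finite_toSet.image _).union (E.finite_toSet.image _))
  refine chain_ind fin (Q := fun u t => G.d (n u * f u) (n t * f t) = 0) huv (LG.d_self _) ?_
  intro s t k1 k2 k3 k4 k5 k6 ih
  have s1 := k4.elim id fun e => e ▸ Or.inl hu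
  have t1 := k5.elim id fun e => e ▸ Or.inl hv
  obtain ⟨γ, hγ, m⟩ := hS.cov (Gm.tau s) (tau_mem_GI.2 ⟨pu.trans k1, k2.trans_le (k3.trans vq)⟩)
    (h0 _)
  rw [seg_eq_GI (hS.pos γ hγ).le] at m
  have c1 : γ.c ∈ (F : Set ℝ) ∪ (Gm.c '' E ∪ (fun γ : Gm => γ.ap (r γ)) '' E) :=
    Or.inr (Or.inl ⟨γ, hγ, rfl⟩)
  have c2 : γ.ap (r γ) ∈ (F : Set ℝ) ∪ (Gm.c '' E ∪ (fun γ : Gm => γ.ap (r γ)) '' E) :=
    Or.inr (Or.inr ⟨γ, hγ, rfl⟩)
  obtain ⟨b1, b2⟩ := (GI_subset_iff k2).1 (GI_subset_of_free k6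
    (min_rec' (· ∈ _) c1 c2) (max_rec' (· ∈ _) c1 c2) ⟨_, tau_mem_GI.2 ⟨le_rfl, k2⟩, m⟩)
  have e1 : s = min γ.c (γ.ap (r γ)) :=
    le_antisymm (not_lt.1 fun e => inside hS hγ s1 e (k2.trans_le b2)) b1
  have e2 : t = max γ.c (γ.ap (r γ)) :=
    le_antisymm b2 (not_lt.1 fun e => inside hS hγ t1 (b1.trans_lt k2) e)
  have z : G.d (n γ.c * f γ.c) (n (γ.ap (r γ)) * f (γ.ap (r γ))) = 0 := by
    rw [piece h hS h1 hγ, mul_assoc, LG.d_mul_left, h2 γ hγ]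
  refine LG.d_zero_trans ih ?_
  rcases le_total γ.c (γ.ap (r γ)) with e | e
  · rw [e1, e2, min_eq_left e, max_eq_right e]
    exact z
  · rw [e1, e2, min_eq_right e, max_eq_left e]
    exact LG.d_zero_symm z

end D_lensA

open D_lensA in
theorem p_D_LENS :
    S_D_LENS := by
  intro G n cut h
  have h' := jump h
  refine ⟨valid h', fun f p q hf => ⟨fun T w hw h1 h2 u hu v hv => ?_,
    fun ι S F E r hS h0 h1 h2 u hu v hv hu' hv' => ?_⟩⟩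
  · rcases le_total u v with e | e
    · rw [abs_sub_comm, abs_of_nonneg (sub_nonneg.2 e)]
      exact len h' hf T w hw h1 h2 hu.1 e hv.2
    · rw [abs_of_nonneg (sub_nonneg.2 e), LG.d_comm]
      exact len h' hf T w hw h1 h2 hv.1 e hu.2
  · rcases le_total u v with e | e
    · exact zero h' hS h0 h1 h2 hu hv hu'.1 e hv'.2
    · exact LG.d_zero_symm (zero h' hS h0 h1 h2 hv hu hv'.1 e hu'.2)

end Pool.Agent.P.MP_dba3d2_lc
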