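import Pool.Agent.P.MP_dba3d2_lc.D.Iface2
import Pool.Agent.P.MP_dba3d2_lc.D.SysC

/-! Step D_LP of the stability project. -/

namespace Pool.Agent.P.MP_dba3d2_lc

open Set Filter Topology

namespace D_lpA

theorem rel_congr {ι κ : Type} {S : Sys ι} {T : Sys κ} (h : ∀ γ β, T.Step γ β ↔ S.Step γ β)
    (γ β : Gm) : T.Rel γ β ↔ S.Rel γ β :=
  ⟨Sys.rel_of_step fun _ _ k => ((h _ _).1 k).rel, Sys.rel_of_step fun _ _ k => ((h _ _).2 k).rel⟩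

theorem weak {ι : Type} {S : Sys ι} {A : Gm → ℝ → ℝ → Prop} (h : S.Intv A) : S.Weak A := by
  intro i γ hγ
  rcases h i with e | ⟨u, v, e, k⟩
  · rw [e] at hγ; exact hγ.elim
  · exact ⟨u, v, e ▸ hγ, by rwa [mul_inv_cancel_right]⟩

theorem seq {X K : Type} (P : X → Prop) (R : X → X → K → Prop) (x0 : X) (h0 : P x0)
    (h : ∀ x, P x → ∃ y k, P y ∧ R x y k) :
    ∃ (x : ℕ → X) (k : ℕ → K), x 0 = x0 ∧ (∀ n, P (x n)) ∧ ∀ n, R (x n) (x (n + 1)) (k n) := by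
  choose f k h1 h2 using h
  let g : {x // P x} → {x // P x} := fun x => ⟨f x.1 x.2, h1 x.1 x.2⟩
  refine ⟨fun n => (g^[n] ⟨x0, h0⟩).1, fun n => k _ (g^[n] ⟨x0, h0⟩).2, rfl,
    fun n => (g^[n] ⟨x0, h0⟩).2, fun n => ?_⟩
  simp only [Function.iterate_succ_apply']
  exact h2 _ _

end D_lpA

open D_lpA in
theorem p_D_LP (hD_REFINE : S_D_REFINE) (hD_LPCLEAN : S_D_LPCLEAN) (hD_LPSTEP : S_D_LPSTEP) (hD_LPA : S_D_LPA) (hD_LPB : S_D_LPB) :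
    S_D_LP := by
  classical
  intro A hA ι _ S p q hin hmin hw
  have hpq : p < q := GI_nonempty.1 hmin.ne
  have hex : ∃ N, ∃ (κ : Type) (_ : Fintype κ) (T : Sys κ) (z : ℝ), p ≤ z ∧ T.St A S.Rel z q ∧
      {i | (T.dom i).Nonempty}.ncard = N := by
    obtain ⟨κ, _, T, h1, -, h3, -, h5⟩ := hD_REFINE A hA ι S hw
    exact ⟨_, κ, inferInstance, T, p, le_rfl,
      ⟨hpq, h5 _ hin, h1, fun γ _ β _ => rel_congr h3 γ β⟩, rfl⟩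
  obtain ⟨κ, _, T, z, hz, hT, hN⟩ := Nat.find_spec hex
  obtain ⟨ι0, _, T0, e, -, -, hc, -, hφ, hd, hs, -⟩ := T.exists_drop
  have hM : LPMin A S.Rel p q (Fintype.card ι0) := by
    intro κ' _ T' z' hz' hT'
    rw [hc, hN]
    exact Nat.find_min' hex ⟨κ', inferInstance, T', z', hz', hT', rfl⟩
  have hT0 : T0.St A S.Rel z q := by
    refine ⟨hT.1, fun i => ?_, fun i => ?_, fun γ hγ β hβ => ?_⟩
    · rw [hd]; exact hT.2.1 _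
    · rw [hd, hφ]; exact hT.2.2.1 _
    · exact (rel_congr hs γ β).trans (hT.2.2.2 γ hγ β hβ)
  have hD : Dns S.Rel p q := by
    intro γ hγ u v h1 h2 h3
    obtain ⟨β, hβ, k⟩ := hmin.reach (U := GI u v) isOpen_GI
      (by rw [inter_eq_left.2 (GI_mono h1 h3)]; exact GI_nonempty.2 h2) hγ
    exact ⟨β, hβ.1, k⟩
  obtain ⟨-, α0, β0, hE0⟩ := hD_LPCLEAN A S.Rel p q z ι0 T0 hz hT0 hM
  obtain ⟨x, k, hx0, hP, hR⟩ := seq (X := Sys ι0 × (ι0 → ℝ) × (ι0 → ℝ) × ℝ) (K := ι0)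
    (fun x => p ≤ x.2.2.2 ∧ x.1.St A S.Rel x.2.2.2 q ∧ x.1.Ends A x.2.2.2 q x.2.1 x.2.2.1)
    (fun x y k => LPStep x.1 x.2.1 x.2.2.1 x.2.2.2 y.1 y.2.1 y.2.2.1 y.2.2.2 k)
    (T0, α0, β0, z) ⟨hz, hT0, hE0⟩ (by
      rintro ⟨T1, α, β, z1⟩ ⟨h1, h2, h3⟩
      obtain ⟨T2, α', β', z', k, k1, k2, k3⟩ :=
        hD_LPSTEP A hA S.Rel p q z1 ι0 T1 α β h1 hD h2 hM h3
      exact ⟨(T2, α', β', z'), k, ⟨h1.trans k3.lt.le, k1, k2⟩, k3⟩)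
  have hlim := hD_LPA A hA q ι0 (fun n => (x n).1) (fun n => (x n).2.1) (fun n => (x n).2.2.1)
    (fun n => (x n).2.2.2) k (fun n => (hP n).2.2)
    (fun n => (hD_LPCLEAN A S.Rel p q _ ι0 _ (hP n).1 (hP n).2.1 hM).1) hR
  have htot := hD_LPB A S.Rel p q ι0 (fun n => (x n).1) (fun n => (x n).2.1)
    (fun n => (x n).2.2.1) (fun n => (x n).2.2.2) k (hP 0).1 hD hM (fun n => (hP n).2.1)
    (fun n => (hP n).2.2) hR hlim
  simp only [hx0] at htot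
  obtain ⟨κ', _, T', h1, h2, h3, h4, h5⟩ := hD_REFINE A hA ι0 T0 (weak hT0.2.2.1)
  exact ⟨z, κ', inferInstance, T', hz, ⟨hT0.1, h5 _ hT0.2.1, h1,
    fun γ hγ β hβ => (rel_congr h3 γ β).trans (hT0.2.2.2 γ hγ β hβ)⟩, h2, h4.trans htot⟩

end Pool.Agent.P.MP_dba3d2_lc
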