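import Pool.Agent.P.MP_dba3d2_lc.D.Defs

/-! Chapter D toolbox: algebra and topology of germs. -/

namespace Pool.Agent.P.MP_dba3d2_lc

open Set Filter Topology

namespace Gm

variable (φ ψ γ β δ : Gm) (s t r : ℝ)

@[simp] theorem tau_eps : (tau r).ε = 1 := rfl
@[simp] theorem tau_c : (tau r).c = r := rfl
@[simp] theorem rho_eps : rho.ε = -1 := rfl
@[simp] theorem rho_c : rho.c = 0 := rfl
@[simp] theorem opp_eps : γ.opp.ε = -γ.ε := by simp [opp]
@[simp] theorem opp_c : γ.opp.c = γ.c := by simp [opp]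
theorem eps_ne : φ.ε ≠ 0 := by rcases φ.h with h | h <;> rw [h] <;> norm_num
theorem abs_eps : |φ.ε| = 1 := by rcases φ.h with h | h <;> rw [h] <;> norm_num
@[simp] theorem ap_zero : φ.ap 0 = φ.c := by simp [ap]
@[simp] theorem one_ap : (1 : Gm).ap t = t := by simp [ap]
@[simp] theorem mul_ap : (φ * ψ).ap t = φ.ap (ψ.ap t) := by simp only [ap, mul_c, mul_eps]; ring
theorem mul_c' : (φ * ψ).c = φ.ap ψ.c := rfl
@[simp] theorem inv_ap_ap : φ⁻¹.ap (φ.ap t) = t := by rw [← mul_ap, inv_mul_cancel, one_ap]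
@[simp] theorem ap_inv_ap : φ.ap (φ⁻¹.ap t) = t := by rw [← mul_ap, mul_inv_cancel, one_ap]
@[simp] theorem tau_ap : (tau r).ap t = t + r := by simp [ap]
@[simp] theorem rho_ap : rho.ap t = -t := by simp [ap]
@[simp] theorem opp_ap : γ.opp.ap t = γ.ap (-t) := by simp [opp]
theorem ap_sub : φ.ap s - φ.ap t = φ.ε * (s - t) := by simp only [ap]; ring
theorem abs_ap_sub : |φ.ap s - φ.ap t| = |s - t| := by rw [ap_sub, abs_mul, abs_eps, one_mul]
theorem ap_injective : Function.Injective φ.ap := fun s t h => by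
  rw [← φ.inv_ap_ap s, h, inv_ap_ap]
theorem continuous_ap : Continuous φ.ap := by unfold ap; fun_prop
@[simp] theorem rho_mul_rho : rho * rho = 1 := Gm.ext (by simp) (by simp)
@[simp] theorem rho_inv : rho⁻¹ = rho := inv_eq_of_mul_eq_one_right rho_mul_rho
@[simp] theorem opp_opp : γ.opp.opp = γ := by simp [opp, mul_assoc]
theorem mul_opp : φ * γ.opp = (φ * γ).opp := by simp [opp, mul_assoc]
theorem opp_injective : Function.Injective opp := fun a b h => by rw [← a.opp_opp, h, opp_opp]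
theorem opp_ne : γ.opp ≠ γ := fun h => by
  have := congrArg Gm.ε h
  have k := γ.eps_ne
  simp only [opp_eps] at this
  exact k (by linarith)
theorem tau_mul_tau : tau s * tau t = tau (s + t) := Gm.ext (by simp) (by simp [add_comm])
@[simp] theorem tau_zero : tau 0 = 1 := rfl
theorem tau_inv : (tau s)⁻¹ = tau (-s) := Gm.ext (by simp) (by simp)
theorem eq_tau {φ : Gm} (h : φ.ε = 1) : φ = tau φ.c := Gm.ext h rfl
/-- the two germs at a point -/
theorem eq_or_opp {γ β : Gm} (h : β.c = γ.c) : β = γ ∨ β = γ.opp := by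
  rcases γ.h with a | a <;> rcases β.h with b | b
  · exact Or.inl (Gm.ext (b.trans a.symm) h)
  · exact Or.inr (Gm.ext (by simp [a, b]) (by simpa using h))
  · exact Or.inr (Gm.ext (by simp [a, b]) (by simpa using h))
  · exact Or.inl (Gm.ext (b.trans a.symm) h)
theorem finite_over {F : Set ℝ} (hF : F.Finite) : {γ : Gm | γ.c ∈ F}.Finite :=
  ((hF.image tau).union (hF.image fun t => (tau t).opp)).subset fun γ h =>
    (eq_or_opp (γ := tau γ.c) (β := γ) rfl).imp (fun e => ⟨_, h, e.symm⟩) fun e => ⟨_, h, e.symm⟩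
/-- an isometry is determined by its values at two points -/
theorem ext_ap {φ ψ : Gm} {s t : ℝ} (hst : s ≠ t) (hs : φ.ap s = ψ.ap s) (ht : φ.ap t = ψ.ap t) :
    φ = ψ := by
  have e : φ.ε = ψ.ε := by
    have : φ.ε * (s - t) = ψ.ε * (s - t) := by rw [← ap_sub, ← ap_sub, hs, ht]
    exact mul_right_cancel₀ (sub_ne_zero.2 hst) this
  refine Gm.ext e ?_
  simp only [ap, e] at hs
  linarith
/-- isometries map segments to segments -/
theorem ap_mem_uIcc {u v t : ℝ} : φ.ap t ∈ uIcc (φ.ap u) (φ.ap v) ↔ t ∈ uIcc u v := by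
  rcases φ.h with h | h <;> simp only [ap, h, mem_uIcc] <;> constructor <;>
    rintro (⟨a, b⟩ | ⟨a, b⟩) <;>
    first | (left; constructor <;> linarith) | (right; constructor <;> linarith)

end Gm

/-! ### Segments -/

variable {a b u v r s t : ℝ} {φ ψ γ β δ : Gm} {U V : Set Gm}

theorem mem_GI_pos (h : γ.ε = 1) : γ ∈ GI a b ↔ a ≤ γ.c ∧ γ.c < b := by
  simp only [GI, mem_setOf_eq, h]
  refine ⟨fun k => ⟨k.1, lt_of_le_of_ne k.2.1 fun e => ?_⟩,
    fun k => ⟨k.1, k.2.le, fun _ => trivial, fun e => absurd e k.2.ne⟩⟩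
  have := k.2.2.2 e
  norm_num at this

theorem mem_GI_neg (h : γ.ε = -1) : γ ∈ GI a b ↔ a < γ.c ∧ γ.c ≤ b := by
  simp only [GI, mem_setOf_eq, h]
  refine ⟨fun k => ⟨lt_of_le_of_ne k.1 fun e => ?_, k.2.1⟩,
    fun k => ⟨k.1.le, k.2, fun e => absurd e k.1.ne', fun _ => trivial⟩⟩
  have := k.2.2.1 e.symm
  norm_num at this

theorem mem_GI_of_Ioo (h1 : a < γ.c) (h2 : γ.c < b) : γ ∈ GI a b :=
  ⟨h1.le, h2.le, fun e => absurd e h1.ne', fun e => absurd e h2.ne⟩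
theorem c_mem_of_GI (h : γ ∈ GI a b) : γ.c ∈ Icc a b := ⟨h.1, h.2.1⟩
theorem lt_of_mem_GI (h : γ ∈ GI a b) : a < b := by
  rcases γ.h with e | e
  · rw [mem_GI_pos e] at h; exact h.1.trans_lt h.2
  · rw [mem_GI_neg e] at h; exact h.1.trans_le h.2
theorem tau_mem_GI : Gm.tau t ∈ GI a b ↔ a ≤ t ∧ t < b := mem_GI_pos rfl
theorem opp_tau_mem_GI : (Gm.tau t).opp ∈ GI a b ↔ a < t ∧ t ≤ b := by
  rw [mem_GI_neg (by simp)]; simp
theorem GI_nonempty : (GI a b).Nonempty ↔ a < b :=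
  ⟨fun ⟨_, h⟩ => lt_of_mem_GI h, fun h => ⟨_, tau_mem_GI.2 ⟨le_rfl, h⟩⟩⟩
theorem GI_eq_empty (h : b ≤ a) : GI a b = ∅ :=
  not_nonempty_iff_eq_empty.1 fun k => absurd (GI_nonempty.1 k) (not_lt.2 h)
theorem GI_mono (h1 : u ≤ a) (h2 : b ≤ v) : GI a b ⊆ GI u v := fun γ h => by
  rcases γ.h with e | e
  · rw [mem_GI_pos e] at h ⊢; exact ⟨h1.trans h.1, h.2.trans_le h2⟩
  · rw [mem_GI_neg e] at h ⊢; exact ⟨h1.trans_lt h.1, h.2.trans h2⟩
theorem GI_subset_iff (h : a < b) : GI a b ⊆ GI u v ↔ u ≤ a ∧ b ≤ v :=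
  ⟨fun k => ⟨(tau_mem_GI.1 (k (tau_mem_GI.2 ⟨le_rfl, h⟩))).1,
    (opp_tau_mem_GI.1 (k (opp_tau_mem_GI.2 ⟨h, le_rfl⟩))).2⟩, fun k => GI_mono k.1 k.2⟩
theorem GI_inj (h : a < b) (e : GI a b = GI u v) : a = u ∧ b = v := by
  have h' : u < v := GI_nonempty.1 (e ▸ GI_nonempty.2 h)
  have k1 := (GI_subset_iff h).1 e.le
  have k2 := (GI_subset_iff h').1 e.ge
  exact ⟨le_antisymm k2.1 k1.1, le_antisymm k1.2 k2.2⟩
theorem GI_inter : GI a b ∩ GI u v = GI (max a u) (min b v) := by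
  ext γ
  rcases γ.h with e | e
  · simp only [mem_inter_iff, mem_GI_pos e, max_le_iff, lt_min_iff]; tauto
  · simp only [mem_inter_iff, mem_GI_neg e, max_lt_iff, le_min_iff]; tauto
theorem GI_union (h1 : a ≤ t) (h2 : t ≤ b) : GI a t ∪ GI t b = GI a b := by
  refine Subset.antisymm (union_subset (GI_mono le_rfl h2) (GI_mono h1 le_rfl)) fun γ h => ?_
  rcases γ.h with e | e
  · simp only [mem_union, mem_GI_pos e] at h ⊢
    rcases lt_or_ge γ.c t with k | k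
    exacts [Or.inl ⟨h.1, k⟩, Or.inr ⟨k, h.2⟩]
  · simp only [mem_union, mem_GI_neg e] at h ⊢
    rcases le_or_gt γ.c t with k | k
    exacts [Or.inl ⟨h.1, k⟩, Or.inr ⟨k, h.2⟩]
theorem GI_disjoint (h : b ≤ u) : Disjoint (GI a b) (GI u v) := by
  rw [disjoint_iff_inter_eq_empty, GI_inter]
  exact GI_eq_empty ((min_le_left _ _).trans (h.trans (le_max_right _ _)))
/-- a germ belongs to a segment iff it starts inside -/
theorem mem_GI_iff : γ ∈ GI a b ↔ ∃ r > 0, ∀ s ∈ Icc 0 r, γ.ap s ∈ Icc a b := by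
  rcases γ.h with e | e
  · rw [mem_GI_pos e]
    simp only [Gm.ap, e, mem_Icc]
    refine ⟨fun h => ⟨b - γ.c, by linarith, fun s hs => ⟨by linarith, by linarith⟩⟩, ?_⟩
    rintro ⟨r, h1, h2⟩
    have k1 := h2 0 ⟨le_rfl, h1.le⟩
    have k2 := h2 r ⟨h1.le, le_rfl⟩
    exact ⟨by linarith, by linarith⟩
  · rw [mem_GI_neg e]
    simp only [Gm.ap, e, mem_Icc]
    refine ⟨fun h => ⟨γ.c - a, by linarith, fun s hs => ⟨by linarith, by linarith⟩⟩, ?_⟩
    rintro ⟨r, h1, h2⟩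
    have k1 := h2 0 ⟨le_rfl, h1.le⟩
    have k2 := h2 r ⟨h1.le, le_rfl⟩
    exact ⟨by linarith, by linarith⟩
theorem mul_mem_GI (h : γ ∈ GI u v) (k : ∀ t ∈ Icc u v, φ.ap t ∈ Icc a b) : φ * γ ∈ GI a b := by
  obtain ⟨r, h1, h2⟩ := mem_GI_iff.1 h
  exact mem_GI_iff.2 ⟨r, h1, fun s hs => by simpa using k _ (h2 s hs)⟩

@[simp] theorem mem_tr : β ∈ tr φ U ↔ φ⁻¹ * β ∈ U := Iff.rfl
theorem mul_mem_tr : φ * γ ∈ tr φ U ↔ γ ∈ U := by simp
theorem tr_eq_image : tr φ U = (φ * ·) '' U := by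
  ext β
  exact ⟨fun h => ⟨_, h, by simp⟩, by rintro ⟨γ, h, rfl⟩; exact mul_mem_tr.2 h⟩
@[simp] theorem tr_one : tr 1 U = U := by ext; simp
theorem tr_tr : tr φ (tr ψ U) = tr (φ * ψ) U := by ext; simp [mul_assoc]
theorem tr_mono (h : U ⊆ V) : tr φ U ⊆ tr φ V := fun _ k => h k
theorem tr_GI_pos (h : φ.ε = 1) : tr φ (GI a b) = GI (φ.ap a) (φ.ap b) := by
  ext β
  rcases β.h with e | e
  · rw [mem_tr, mem_GI_pos (by simp [h, e]), mem_GI_pos e]
    simp only [Gm.ap, Gm.mul_c, Gm.inv_eps, Gm.inv_c, h]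
    constructor <;> rintro ⟨x, y⟩ <;> constructor <;> linarith
  · rw [mem_tr, mem_GI_neg (by simp [h, e]), mem_GI_neg e]
    simp only [Gm.ap, Gm.mul_c, Gm.inv_eps, Gm.inv_c, h]
    constructor <;> rintro ⟨x, y⟩ <;> constructor <;> linarith
theorem tr_GI_neg (h : φ.ε = -1) : tr φ (GI a b) = GI (φ.ap b) (φ.ap a) := by
  ext β
  rcases β.h with e | e
  · rw [mem_tr, mem_GI_neg (by simp [h, e]), mem_GI_pos e]
    simp only [Gm.ap, Gm.mul_c, Gm.inv_eps, Gm.inv_c, h]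
    constructor <;> rintro ⟨x, y⟩ <;> constructor <;> linarith
  · rw [mem_tr, mem_GI_pos (by simp [h, e]), mem_GI_neg e]
    simp only [Gm.ap, Gm.mul_c, Gm.inv_eps, Gm.inv_c, h]
    constructor <;> rintro ⟨x, y⟩ <;> constructor <;> linarith
theorem tr_GI (h : a ≤ b) :
    tr φ (GI a b) = GI (min (φ.ap a) (φ.ap b)) (max (φ.ap a) (φ.ap b)) := by
  rcases φ.h with e | e
  · have : φ.ap a ≤ φ.ap b := by simp only [Gm.ap, e]; linarith
    rw [tr_GI_pos e, min_eq_left this, max_eq_right this]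
  · have : φ.ap b ≤ φ.ap a := by simp only [Gm.ap, e]; linarith
    rw [tr_GI_neg e, min_eq_right this, max_eq_left this]

theorem mem_seg : β ∈ seg γ r ↔ γ⁻¹ * β ∈ GI 0 r := Iff.rfl
theorem mul_mem_seg : γ * δ ∈ seg γ r ↔ δ ∈ GI 0 r := mul_mem_tr
theorem one_mem_GI (h : 0 < r) : (1 : Gm) ∈ GI 0 r := (mem_GI_pos rfl).2 ⟨le_rfl, h⟩
theorem self_mem_seg (h : 0 < r) : γ ∈ seg γ r := by simpa [mem_seg] using one_mem_GI h
theorem tr_seg : tr φ (seg γ r) = seg (φ * γ) r := tr_tr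
theorem mul_mem_seg_mul : φ * β ∈ seg (φ * γ) r ↔ β ∈ seg γ r := by rw [← tr_seg, mul_mem_tr]
theorem seg_mono (h : r ≤ s) : seg γ r ⊆ seg γ s := tr_mono (GI_mono le_rfl h)
theorem seg_eq_GI (h : 0 ≤ r) : seg γ r = GI (min γ.c (γ.ap r)) (max γ.c (γ.ap r)) := by
  rw [seg, tr_GI h, Gm.ap_zero]
theorem seg_pos (h : γ.ε = 1) : seg γ r = GI γ.c (γ.c + r) := by
  rw [seg, tr_GI_pos h]; simp [Gm.ap, h, add_comm]
theorem seg_neg (h : γ.ε = -1) : seg γ r = GI (γ.c - r) γ.c := by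
  rw [seg, tr_GI_neg h]; simp [Gm.ap, h, sub_eq_neg_add]
/-- the germs of `[0, r]`: the first one, the interior ones and the last one -/
theorem mem_GI_zero (h : δ ∈ GI 0 r) : δ = 1 ∨ 0 < δ.c ∧ δ.c ≤ r := by
  rcases eq_or_lt_of_le h.1 with e | e
  · exact Or.inl (Gm.ext (h.2.2.1 e.symm) e.symm)
  · exact Or.inr ⟨e, h.2.1⟩
theorem seg_subset_GI (h : 0 < r) : seg γ r ⊆ GI a b ↔ ∀ s ∈ Icc 0 r, γ.ap s ∈ Icc a b := by
  rcases γ.h with e | e
  · rw [seg_pos e, GI_subset_iff (by linarith)]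
    simp only [Gm.ap, e, mem_Icc]
    refine ⟨fun k s hs => ⟨by linarith, by linarith⟩, fun k => ?_⟩
    have k1 := k 0 ⟨le_rfl, h.le⟩
    have k2 := k r ⟨h.le, le_rfl⟩
    exact ⟨by linarith, by linarith⟩
  · rw [seg_neg e, GI_subset_iff (by linarith)]
    simp only [Gm.ap, e, mem_Icc]
    refine ⟨fun k s hs => ⟨by linarith, by linarith⟩, fun k => ?_⟩
    have k1 := k 0 ⟨le_rfl, h.le⟩
    have k2 := k r ⟨h.le, le_rfl⟩
    exact ⟨by linarith, by linarith⟩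
theorem abs_c_sub_of_seg (h : β ∈ seg γ r) : |β.c - γ.c| ≤ r := by
  have k := c_mem_of_GI (mem_seg.1 h)
  have e : β.c = γ.ap (γ⁻¹ * β).c := by rw [← Gm.mul_c', mul_inv_cancel_left]
  rw [e, ← γ.ap_zero, Gm.abs_ap_sub, sub_zero, abs_of_nonneg k.1]
  exact k.2

/-! ### Topology -/

theorem isOpen_gm : IsOpen U ↔ ∀ γ ∈ U, ∃ r > 0, ∀ δ : Gm, 0 < δ.c → δ.c < r → γ * δ ∈ U := Iff.rfl

theorem isOpen_GI : IsOpen (GI a b) := fun γ h => by
  obtain ⟨r, h1, h2⟩ := mem_GI_iff.1 h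
  refine ⟨r, h1, fun δ x y => (seg_subset_GI h1).2 h2 (mul_mem_seg.2 (mem_GI_of_Ioo x y))⟩

theorem continuous_gm_mul (φ : Gm) : Continuous fun γ : Gm => φ * γ :=
  ⟨fun U hU γ h => by
    obtain ⟨r, h1, h2⟩ := hU _ h
    exact ⟨r, h1, fun δ x y => by simpa [mul_assoc] using h2 δ x y⟩⟩

theorem isOpen_tr (h : IsOpen U) : IsOpen (tr φ U) := h.preimage (continuous_gm_mul φ⁻¹)
theorem isClosed_tr (h : IsClosed U) : IsClosed (tr φ U) := h.preimage (continuous_gm_mul φ⁻¹)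
theorem isCompact_tr (h : IsCompact U) : IsCompact (tr φ U) :=
  tr_eq_image ▸ h.image (continuous_gm_mul φ)
theorem isOpen_seg : IsOpen (seg γ r) := isOpen_tr isOpen_GI
theorem seg_mem_nhds (h : 0 < r) : seg γ r ∈ 𝓝 γ := isOpen_seg.mem_nhds (self_mem_seg h)

/-- the segments starting at a germ form a basis of neighbourhoods -/
theorem mem_nhds_gm : U ∈ 𝓝 γ ↔ ∃ r > 0, seg γ r ⊆ U := by
  refine ⟨fun h => ?_, fun ⟨r, h1, h2⟩ => mem_of_superset (seg_mem_nhds h1) h2⟩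
  obtain ⟨W, h1, h2, h3⟩ := mem_nhds_iff.1 h
  obtain ⟨r, k1, k2⟩ := h2 γ h3
  refine ⟨r / 2, half_pos k1, fun β hβ => h1 ?_⟩
  rcases mem_GI_zero (mem_seg.1 hβ) with e | e
  · rwa [← inv_mul_eq_one.1 e]
  · simpa using k2 _ e.1 (by linarith [e.2])

theorem nhds_basis_seg (γ : Gm) : (𝓝 γ).HasBasis (fun r : ℝ => 0 < r) (seg γ) :=
  ⟨fun _ => mem_nhds_gm⟩

theorem eventually_gm {p : Gm → Prop} : (∀ᶠ β in 𝓝 γ, p β) ↔ ∃ r > 0, ∀ δ ∈ GI 0 r, p (γ * δ) :=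
  mem_nhds_gm.trans (exists_congr fun _ => and_congr_right fun _ =>
    ⟨fun h _ k => h (mul_mem_seg.2 k), fun h β k => by simpa using h _ (mem_seg.1 k)⟩)

theorem eventually_gm' {p : Gm → Prop} :
    (∀ᶠ β in 𝓝 γ, p β) ↔ p γ ∧ ∃ r > 0, ∀ δ : Gm, 0 < δ.c → δ.c < r → p (γ * δ) := by
  rw [eventually_gm]
  refine ⟨fun ⟨r, h1, h2⟩ => ⟨by simpa using h2 1 (one_mem_GI h1), r, h1,
    fun δ x y => h2 δ (mem_GI_of_Ioo x y)⟩, fun ⟨h0, r, h1, h2⟩ => ⟨r / 2, half_pos h1, fun δ k => ?_⟩⟩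
  rcases mem_GI_zero k with e | e
  · simpa [e] using h0
  · exact h2 δ e.1 (by linarith [e.2])

theorem isOpen_iff_seg : IsOpen U ↔ ∀ γ ∈ U, ∃ r > 0, seg γ r ⊆ U :=
  isOpen_iff_mem_nhds.trans (forall₂_congr fun _ _ => mem_nhds_gm)

theorem mem_closure_gm : γ ∈ closure U ↔ ∀ r > 0, ∃ β ∈ U, β ∈ seg γ r :=
  mem_closure_iff_nhds_basis (nhds_basis_seg γ)

theorem continuous_c : Continuous Gm.c := by
  refine continuous_iff_continuousAt.2 fun γ => Metric.tendsto_nhds.2 fun e he => ?_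
  filter_upwards [seg_mem_nhds (γ := γ) (half_pos he)] with β h
  have := abs_c_sub_of_seg h
  rw [Real.dist_eq]
  linarith

/-- short segments at different germs are disjoint -/
theorem exists_seg_disjoint (h : γ ≠ β) : ∃ r > 0, Disjoint (seg γ r) (seg β r) := by
  by_cases e : β.c = γ.c
  · obtain rfl := (Gm.eq_or_opp e).resolve_left h.symm
    refine ⟨1, one_pos, ?_⟩
    rcases γ.h with k | k
    · rw [seg_pos k, seg_neg (by simp [k])]
      exact (GI_disjoint (by simp)).symm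
    · rw [seg_neg k, seg_pos (by simp [k])]
      exact GI_disjoint (by simp)
  · have h0 : 0 < |β.c - γ.c| := abs_pos.2 (sub_ne_zero.2 e)
    refine ⟨|β.c - γ.c| / 3, by positivity, disjoint_left.2 fun α h1 h2 => ?_⟩
    have k1 := abs_c_sub_of_seg h1
    have k2 := abs_c_sub_of_seg h2
    have := abs_sub_le β.c α.c γ.c
    rw [abs_sub_comm β.c α.c] at this
    linarith

instance : T2Space Gm := ⟨fun γ β h => by
  obtain ⟨r, h1, h2⟩ := exists_seg_disjoint h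
  exact ⟨_, _, isOpen_seg, isOpen_seg, self_mem_seg h1, self_mem_seg h1, h2⟩⟩

/-- a short segment avoids a finite set of other germs -/
theorem exists_seg_avoid {T : Set Gm} (hT : T.Finite) (γ : Gm) :
    ∃ r > 0, ∀ β ∈ seg γ r, β ∈ T → β = γ := by
  obtain ⟨r, h1, h2⟩ := mem_nhds_gm.1
    ((hT.diff (t := {γ})).isClosed.isOpen_compl.mem_nhds (x := γ) (by simp))
  exact ⟨r, h1, fun β k1 k2 => by_contra fun e => h2 k1 ⟨k2, e⟩⟩

/-- a nonempty open set contains a segment -/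
theorem exists_GI_subset (h : IsOpen U) (hne : U.Nonempty) : ∃ a b, a < b ∧ GI a b ⊆ U := by
  obtain ⟨γ, hγ⟩ := hne
  obtain ⟨r, h1, h2⟩ := isOpen_iff_seg.1 h γ hγ
  rw [seg_eq_GI h1.le] at h2
  exact ⟨_, _, lt_of_mem_GI (seg_eq_GI h1.le ▸ self_mem_seg (γ := γ) h1), h2⟩

theorem infinite_of_isOpen (h : IsOpen U) (hne : U.Nonempty) : U.Infinite := by
  obtain ⟨a, b, h1, h2⟩ := exists_GI_subset h hne
  refine Infinite.mono h2 (Infinite.of_image Gm.c ((Ico_infinite h1).mono fun t ht => ?_))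
  exact ⟨_, tau_mem_GI.2 ht, rfl⟩

end Pool.Agent.P.MP_dba3d2_lc
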