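import Pool.Agent.P.MP_dba3d2_lc.D.Iface2
import Pool.Agent.P.MP_dba3d2_lc.D.Germ

/-! Step D_LPA of the stability project. -/

namespace Pool.Agent.P.MP_dba3d2_lc

open Set Filter Topology

namespace D_lpaA

variable {A : Gm → ℝ → ℝ → Prop} {ι : Type}

theorem dinv (S : Sys ι) (i : ι) : S.dom (S.inv i) = tr (S.φ i) (S.dom i) := by
  ext γ
  constructor
  · intro h
    have := S.map _ _ h
    rw [S.inv_inv, S.φ_inv] at this
    exact this
  · intro h
    have := S.map _ _ (mem_tr.1 h)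
    simpa using this

theorem tr_pos {φ : Gm} {a b u v : ℝ} (e : φ.ε = 1) (h : u < v) (k : GI u v = tr φ (GI a b)) :
    u = a + φ.c ∧ v = b + φ.c := by
  rw [tr_GI_pos e] at k
  have := GI_inj h k
  simpa [Gm.ap, e] using this

theorem tr_neg {φ : Gm} {a b u v : ℝ} (e : φ.ε = -1) (h : u < v) (k : GI u v = tr φ (GI a b)) :
    u = φ.c - b ∧ v = φ.c - a := by
  rw [tr_GI_neg e] at k
  have := GI_inj h k
  simp only [Gm.ap, e] at this
  exact ⟨by linarith [this.1], by linarith [this.2]⟩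

/-- the hypotheses on the process -/
structure Pr (A : Gm → ℝ → ℝ → Prop) (q : ℝ) [Fintype ι] (S : ℕ → Sys ι) (α β : ℕ → ι → ℝ)
    (z : ℕ → ℝ) (k : ℕ → ι) : Prop where
  pg : PG A
  en : ∀ n, (S n).Ends A (z n) q (α n) (β n)
  cl : ∀ n, (S n).Clean
  st : ∀ n, LPStep (S n) (α n) (β n) (z n) (S (n + 1)) (α (n + 1)) (β (n + 1)) (z (n + 1)) (k n)

variable [Fintype ι] {q : ℝ} {S : ℕ → Sys ι} {α β : ℕ → ι → ℝ} {z : ℕ → ℝ} {k : ℕ → ι}

namespace Pr

theorem inv_eq (H : Pr A q S α β z k) (n : ℕ) : (S n).inv = (S 0).inv := by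
  induction n with
  | zero => rfl
  | succ n ih => rw [(H.st n).inv, ih]

theorem lo (H : Pr A q S α β z k) (n : ℕ) (i : ι) : z n ≤ α n i := (H.en n i).1
theorem ab (H : Pr A q S α β z k) (n : ℕ) (i : ι) : α n i < β n i := (H.en n i).2.1
theorem hi (H : Pr A q S α β z k) (n : ℕ) (i : ι) : β n i ≤ q := (H.en n i).2.2.1
theorem dm (H : Pr A q S α β z k) (n : ℕ) (i : ι) : (S n).dom i = GI (α n i) (β n i) :=
  (H.en n i).2.2.2.1
theorem ar (H : Pr A q S α β z k) (n : ℕ) (i : ι) : A ((S n).φ i) (α n i) (β n i) :=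
  (H.en n i).2.2.2.2

theorem pos (H : Pr A q S α β z k) {n : ℕ} {i : ι} (e : ((S n).φ i).ε = 1) :
    α n ((S 0).inv i) = α n i + ((S n).φ i).c ∧ β n ((S 0).inv i) = β n i + ((S n).φ i).c := by
  refine tr_pos e (H.ab n _) ?_
  rw [← H.dm, ← H.dm, ← H.inv_eq n, dinv]

theorem neg (H : Pr A q S α β z k) {n : ℕ} {i : ι} (e : ((S n).φ i).ε = -1) :
    α n ((S 0).inv i) = ((S n).φ i).c - β n i ∧ β n ((S 0).inv i) = ((S n).φ i).c - α n i := by
  refine tr_neg e (H.ab n _) ?_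
  rw [← H.dm, ← H.dm, ← H.inv_eq n, dinv]

theorem zmono (H : Pr A q S α β z k) : StrictMono z :=
  strictMono_nat_of_lt_succ fun n => (H.st n).lt

theorem zle (H : Pr A q S α β z k) (n : ℕ) : z n ≤ q :=
  (H.lo n (k n)).trans ((H.ab n _).le.trans (H.hi n _))

theorem self_neg (H : Pr A q S α β z k) {n : ℕ} {i : ι} (h : (S 0).inv i = i) :
    ((S n).φ i).ε = -1 := by
  refine ((S n).φ i).h.resolve_left fun e => (H.cl n).1 i ?_
  have := (H.pos e).1
  rw [h] at this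
  exact Gm.ext e (by simpa using this)

theorem slpos (H : Pr A q S α β z k) {n : ℕ} {i : ι} (h1 : i ≠ k n) (h2 : α n i = z n)
    (e : ((S n).φ (k n)).ε = 1) : α (n + 1) i = α n i + ((S n).φ (k n)).c := by
  refine (tr_pos (b := β n i) e (H.ab (n + 1) i) ?_).1
  rw [← H.dm, ← H.dm, ((H.st n).sl i h1 h2).2]

theorem slneg (H : Pr A q S α β z k) {n : ℕ} {i : ι} (h1 : i ≠ k n) (h2 : α n i = z n)
    (e : ((S n).φ (k n)).ε = -1) :
    α (n + 1) i = ((S n).φ (k n)).c - β n i ∧ β (n + 1) i = ((S n).φ (k n)).c - α n i := by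
  refine tr_neg e (H.ab (n + 1) i) ?_
  rw [← H.dm, ← H.dm, ((H.st n).sl i h1 h2).2]

theorem cb (H : Pr A q S α β z k) {n : ℕ} (h : (S 0).inv (k n) ≠ k n) :
    β (n + 1) (k n) = β n (k n) := (H.st n).cβ (by rwa [H.inv_eq n])

/-- an orientation reversing carrier keeps the left end of its dual base -/
theorem keep (H : Pr A q S α β z k) {n : ℕ} (h : (S 0).inv (k n) ≠ k n)
    (e : ((S n).φ (k n)).ε = -1) : α (n + 1) ((S 0).inv (k n)) = α n ((S 0).inv (k n)) := by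
  have e' : ((S (n + 1)).φ (k n)).ε = -1 := by rw [(H.st n).cφ, e]
  rw [(H.neg e').1, (H.neg e).1, (H.st n).cφ, H.cb h]

theorem stay (H : Pr A q S α β z k) {n : ℕ} {i : ι} (h1 : α n i ≠ z n)
    (h2 : k n ≠ (S 0).inv i) : α (n + 1) i = α n i ∧ β (n + 1) i = β n i := by
  refine (H.st n).st i (fun e => h1 (e ▸ (H.st n).at')) (fun e => h2 ?_) h1
  rw [e, H.inv_eq n, (S 0).inv_inv]

theorem amono (H : Pr A q S α β z k) (i : ι) : Monotone fun n => α n i := by
  refine monotone_nat_of_le_succ fun n => ?_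
  by_cases h1 : α n i = z n
  · rw [h1]; exact (H.st n).lt.le.trans (H.lo _ _)
  by_cases h2 : k n = (S 0).inv i
  · have h3 : i = (S 0).inv (k n) := by rw [h2, (S 0).inv_inv]
    have h4 : (S 0).inv (k n) ≠ k n := fun e => h1 (by rw [h3, e]; exact (H.st n).at')
    rcases ((S n).φ (k n)).h with e | e
    · have e' : ((S (n + 1)).φ (k n)).ε = 1 := by rw [(H.st n).cφ, e]
      rw [h3, (H.pos e').1, (H.pos e).1, (H.st n).cφ, (H.st n).cα, (H.st n).at']
      linarith [(H.st n).lt]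
    · rw [h3, H.keep h4 e]
  · exact (H.stay h1 h2).1.ge

end Pr

/-- the late part of the process, with the limit `w` of the left ends -/
structure Cx (A : Gm → ℝ → ℝ → Prop) (q : ℝ) (S : ℕ → Sys ι) (α β : ℕ → ι → ℝ)
    (z : ℕ → ℝ) (k : ℕ → ι) (w e₀ : ℝ) (M : ℕ) : Prop extends Pr A q S α β z k where
  zw : ∀ n, z n < w
  lim : ∀ x, x < w → ∃ n, x < z n
  low : ∀ n, M ≤ n → ∀ i, α n i < w → ∀ m, α m i < w
  sm : ∀ t u v, A (Gm.tau t) u v → e₀ / 4 ≤ v - u → |t| ≤ 10 * (w - z M) → t = 0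
  dd : 20 * (w - z M) ≤ e₀

variable {w e₀ : ℝ} {M : ℕ}

namespace Cx

theorem zM (H : Cx A q S α β z k w e₀ M) {m : ℕ} (h : M ≤ m) (i : ι) : z M ≤ α m i :=
  (H.toPr.zmono.monotone h).trans (H.toPr.lo m i)

theorem F1 (H : Cx A q S α β z k w e₀ M) {m : ℕ} {i : ι} (hm : M ≤ m) (h1 : α m i < w)
    (h2 : α m ((S 0).inv i) < w) (h3 : e₀ / 4 ≤ β m i - α m i) : ((S m).φ i).ε = -1 := by
  refine ((S m).φ i).h.resolve_left fun e => (H.cl m).1 i ?_
  have k1 := (H.toPr.pos e).1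
  have k2 := H.zM hm i
  have k3 := H.zM hm ((S 0).inv i)
  have k4 := H.zw M
  have k5 := H.toPr.ar m i
  rw [Gm.eq_tau e] at k5
  have := H.sm _ _ _ k5 h3 (abs_le.2 ⟨by linarith, by linarith⟩)
  exact Gm.ext e this

theorem F2 (H : Cx A q S α β z k w e₀ M) {m n : ℕ} {i j : ι} (hm : M ≤ m) (hn : M ≤ n)
    (h1 : α m i < w) (h2 : α m ((S 0).inv i) < w) (g1 : α n j < w) (g2 : α n ((S 0).inv j) < w)
    (h3 : e₀ ≤ β n j - α n j) (h4 : β n j - α n j - (w - z M) ≤ β m i - α m i)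
    (h5 : β m i - α m i ≤ β n j - α n j + (w - z M)) :
    (S m).φ i = (S n).φ j := by
  have k4 := H.zw M
  have k5 := H.dd
  have e := H.F1 hm h1 h2 (by linarith)
  have e' := H.F1 hn g1 g2 (by linarith)
  have a1 := H.toPr.neg e
  have a2 := H.toPr.neg e'
  have b1 := H.zM hm i
  have b2 := H.zM hm ((S 0).inv i)
  have b3 := H.zM hn j
  have b4 := H.zM hn ((S 0).inv j)
  have c1 : A ((S n).φ j) (((S n).φ j).c - (w + (β n j - α n j) - 2 * (w - z M)))
      (((S n).φ j).c - w) :=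
    H.pg.sub _ _ _ _ _ (H.toPr.ar n j) (by linarith [a2.1]) (by linarith) (by linarith [a2.1])
  have c2 := H.pg.comp _ _ _ _ _ _ c1 (H.toPr.ar m i) fun t ht => by
    simp only [Gm.ap, e']
    exact ⟨by linarith [ht.2], by linarith [ht.1]⟩
  have c3 : (S m).φ i * (S n).φ j = Gm.tau (((S m).φ i).c - ((S n).φ j).c) :=
    Gm.ext (by simp [e, e']) (by simp [e]; ring)
  rw [c3] at c2
  have := H.sm _ _ _ c2 (by linarith)
    (abs_le.2 ⟨by linarith [a1.1, a2.1], by linarith [a1.1, a2.1]⟩)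
  exact Gm.ext (e.trans e'.symm) (by linarith)

theorem F3a (H : Cx A q S α β z k w e₀ M) {m : ℕ} (hm : M ≤ m)
    (h : e₀ / 2 ≤ β (m + 1) (k (m + 1)) - α (m + 1) (k (m + 1))) :
    ∃ B, B ≠ k (m + 1) ∧ α (m + 1) B = z (m + 1) := by
  by_cases h0 : k m = k (m + 1)
  swap
  · exact ⟨k m, h0, (H.st m).cα⟩
  rcases (H.st m).nx with ⟨i, h1, h2⟩ | ⟨h1, h2⟩
  · exact ⟨i, h0 ▸ h1, h2⟩
  · rw [H.toPr.inv_eq m] at h1 h2
    have k1 := (H.st m).at'
    have k2 := (H.st m).cα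
    have k3 := H.toPr.cb h1
    have k4 := (H.st m).lt
    have k5 := H.zw M
    have k6 := H.dd
    rw [← h0] at h
    have e := H.F1 (i := k m) hm (by rw [k1]; exact H.zw m) (by rw [h2]; exact H.zw _)
      (by linarith)
    exact ⟨(S 0).inv (k m), h0 ▸ h1, (H.toPr.keep h1 e).trans h2⟩

theorem F3b (H : Cx A q S α β z k w e₀ M) {m : ℕ} (hm : M ≤ m)
    (h : e₀ / 2 ≤ β m (k m) - α m (k m)) {B : ι} (h1 : B ≠ k m) (h2 : α m B = z m) :
    α m ((S 0).inv (k m)) < w ∧ β m (k m) - (w - z M) ≤ β m B := by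
  have k1 := (H.st m).at'
  have k2 := H.low m hm B (by rw [h2]; exact H.zw m) (m + 1)
  have k5 := H.zw M
  have k6 := H.dd
  have e : ((S m).φ (k m)).ε = -1 := by
    refine ((S m).φ (k m)).h.resolve_left fun e => ?_
    have a1 := H.toPr.slpos h1 h2 e
    have a2 := (H.toPr.pos e).1
    have := H.F1 (i := k m) hm (by rw [k1]; exact H.zw m) (by linarith) (by linarith)
    rw [e] at this
    norm_num at this
  have a1 := (H.toPr.slneg h1 h2 e).1
  have a2 := (H.toPr.neg e).1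
  have a3 := (H.st m).max B h2
  have a4 := H.zM hm ((S 0).inv (k m))
  exact ⟨by linarith, by linarith⟩

/-- a low base does not rest for ever -/
theorem wake (H : Cx A q S α β z k w e₀ M) {n : ℕ} {B : ι} (h : α n B < w) :
    ∃ m, n ≤ m ∧ α m B = α n B ∧ β m B = β n B ∧ (α m B = z m ∨ k m = (S 0).inv B) := by
  by_contra hc
  have key : ∀ j, α (n + j) B = α n B ∧ β (n + j) B = β n B := by
    intro j
    induction j with
    | zero => exact ⟨rfl, rfl⟩
    | succ j ih =>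
      have := H.toPr.stay (n := n + j) (i := B)
        (fun e => hc ⟨n + j, Nat.le_add_right _ _, ih.1, ih.2, Or.inl e⟩)
        (fun e => hc ⟨n + j, Nat.le_add_right _ _, ih.1, ih.2, Or.inr e⟩)
      exact ⟨this.1.trans ih.1, this.2.trans ih.2⟩
  obtain ⟨j, hj⟩ := H.lim _ h
  have k1 := H.toPr.lo (n + j) B
  have k2 := H.toPr.zmono.monotone (Nat.le_add_left j n)
  have k3 := (key j).1
  linarith

theorem short (H : Cx A q S α β z k w e₀ M) {p : ℕ} (hp : M ≤ p) :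
    β (p + 1) (k (p + 1)) - α (p + 1) (k (p + 1)) < e₀ := by
  by_contra hl
  rw [not_lt] at hl
  have k5 := H.zw M
  have k6 := H.dd
  obtain ⟨B, b1, b2⟩ := H.F3a hp (by linarith)
  have hn : M ≤ p + 1 := hp.trans (Nat.le_succ p)
  generalize p + 1 = n at hl b1 b2 hn
  have a0 := (H.st n).at'
  have a0' : α n (k n) < w := by rw [a0]; exact H.zw n
  obtain ⟨a1, a2⟩ := H.F3b hn (by linarith) b1 b2
  have a3 := (H.st n).max B b2
  have e := H.F1 hn a0' a1 (by linarith)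
  have lB : ∀ m, α m B < w := H.low n hn B (by rw [b2]; exact H.zw n)
  obtain ⟨s1, s2⟩ := H.toPr.slneg b1 b2 e
  obtain ⟨m, m1, m2, m3, m4⟩ := H.wake (lB (n + 1))
  have hm : M ≤ m := hn.trans ((Nat.le_succ n).trans m1)
  have zz : z n < z m := H.toPr.zmono m1
  have c0 := (H.st m).at'
  have c0' : α m (k m) < w := by rw [c0]; exact H.zw m
  rcases m4 with m4 | m4
  · have c3 := (H.st m).max B m4
    have c1 : α m ((S 0).inv (k m)) < w ∧ β m (k m) - (w - z M) ≤ β m B := by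
      by_cases hk : B = k m
      · obtain ⟨r, rfl⟩ : ∃ r, m = r + 1 := ⟨m - 1, by omega⟩
        obtain ⟨B', b1', b2'⟩ := H.F3a (m := r) (by omega) (by linarith)
        exact ⟨(H.F3b hm (by linarith) b1' b2').1, by rw [hk]; linarith⟩
      · exact H.F3b hm (by linarith) hk m4
    have c2 := H.F2 hm hn c0' c1.1 a0' a1 hl (by linarith) (by linarith [c1.2])
    have e' : ((S m).φ (k m)).ε = -1 := by rw [c2, e]
    have c4 := (H.toPr.neg e').1
    have c5 := H.toPr.lo m ((S 0).inv (k m))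
    rw [c2] at c4
    linarith
  · have c2 := H.F2 (i := B) hm hn (lB m) (by rw [← m4]; exact c0') a0' a1 hl (by linarith)
      (by linarith)
    have e' : ((S m).φ B).ε = -1 := by rw [c2, e]
    have c4 := (H.toPr.neg e').1
    rw [c2, ← m4] at c4
    linarith

end Cx

end D_lpaA

open D_lpaA in
theorem p_D_LPA :
    S_D_LPA := by
  intro A hA q ι _ S α β z k h1 h2 h3
  have H : Pr A q S α β z k := ⟨hA, h1, h2, h3⟩
  have hb : BddAbove (range z) := ⟨q, by rintro _ ⟨n, rfl⟩; exact H.zle n⟩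
  have zw : ∀ n, z n < ⨆ n, z n := fun n => (h3 n).lt.trans_le (le_ciSup hb (n + 1))
  have lim : ∀ x, x < ⨆ n, z n → ∃ n, x < z n := fun x hx => exists_lt_of_lt_ciSup hx
  generalize ⨆ n, z n = w at zw lim
  have h0 : ∀ i, ∃ N, ∀ n, N ≤ n → α n i < w → ∀ m, α m i < w := by
    intro i
    by_cases hc : ∀ m, α m i < w
    · exact ⟨0, fun _ _ _ => hc⟩
    · push Not at hc
      obtain ⟨N, hN⟩ := hc
      exact ⟨N, fun n hn k => absurd (hN.trans (H.amono i hn)) (not_le.2 k)⟩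
  choose N hN using h0
  refine Metric.tendsto_atTop.2 fun e₀ he => ?_
  obtain ⟨e₁, he1, hs⟩ := hA.small (e₀ / 4) (by positivity)
  obtain ⟨M₁, hM⟩ := lim (w - min (e₀ / 20) (e₁ / 10)) (sub_lt_self _ (by positivity))
  have hm := H.zmono.monotone (le_max_left M₁ (Finset.univ.sup N))
  have k1 := min_le_left (e₀ / 20) (e₁ / 10)
  have k2 := min_le_right (e₀ / 20) (e₁ / 10)
  have C : Cx A q S α β z k w e₀ (max M₁ (Finset.univ.sup N)) :=
    { H with
      zw := zw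
      lim := lim
      low := fun n hn i => hN i n
        ((Finset.le_sup (f := N) (Finset.mem_univ i)).trans ((le_max_right _ _).trans hn))
      sm := fun t u v a b c => hs t u v a b (by linarith)
      dd := by linarith }
  refine ⟨max M₁ (Finset.univ.sup N) + 1, fun n hn => ?_⟩
  obtain ⟨p, rfl⟩ : ∃ p, n = p + 1 := ⟨n - 1, by omega⟩
  rw [Real.dist_eq, sub_zero, abs_of_pos (sub_pos.2 (H.ab _ _))]
  exact C.short (by omega)

end Pool.Agent.P.MP_dba3d2_lc
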