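import Pool.Agent.P.MP_dba3d2_lc.D.SysC

/-! Chapter D toolbox: pseudogroups of arcs. -/

namespace Pool.Agent.P.MP_dba3d2_lc

open Set Filter Topology

variable {A : Gm → ℝ → ℝ → Prop} {α β γ δ φ : Gm} {u v r : ℝ}

namespace PgBA

theorem icc_of_tr {a b : ℝ} (h : u < v) (k : tr φ (GI u v) ⊆ GI a b) :
    ∀ t ∈ Icc u v, φ.ap t ∈ Icc a b := by
  intro t ht
  rcases ht.2.lt_or_eq with e | e
  · have := c_mem_of_GI (k (mul_mem_tr.2 (tau_mem_GI.2 ⟨ht.1, e⟩)))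
    rwa [Gm.mul_c', Gm.tau_c] at this
  · have := c_mem_of_GI (k (mul_mem_tr.2 (opp_tau_mem_GI.2 ⟨e ▸ h, ht.2⟩)))
    rwa [Gm.mul_c', Gm.opp_c, Gm.tau_c] at this

theorem ioo_iff : u < γ.c ∧ γ.c < v ↔ γ ∈ GI u v ∧ γ.opp ∈ GI u v := by
  refine ⟨fun h => ⟨mem_GI_of_Ioo h.1 h.2, mem_GI_of_Ioo (by simpa using h.1) (by simpa using h.2)⟩,
    fun h => ?_⟩
  rcases γ.h with e | e
  · have e' : γ.opp.ε = -1 := by rw [Gm.opp_eps, e]
    rw [mem_GI_pos e, mem_GI_neg e', Gm.opp_c] at h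
    exact ⟨h.2.1, h.1.2⟩
  · have e' : γ.opp.ε = 1 := by rw [Gm.opp_eps, e, neg_neg]
    rw [mem_GI_neg e, mem_GI_pos e', Gm.opp_c] at h
    exact ⟨h.1.1, h.2.2⟩

theorem exists_tr (φ : Gm) (h : u < v) : ∃ a b, tr φ (GI u v) = GI a b := ⟨_, _, tr_GI h.le⟩

end PgBA

open PgBA

theorem RW2.rw (h : RW2 A γ β) : RW A γ β := by
  obtain ⟨u, v, h1, h2, h3⟩ := h
  exact ⟨u, v, mem_GI_of_Ioo h1 h2, h3⟩
theorem RW2.opp (h : RW2 A γ β) : RW2 A γ.opp β.opp := by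
  obtain ⟨u, v, h1, h2, h3⟩ := h
  have e : β.opp * γ.opp⁻¹ = β * γ⁻¹ := by
    unfold Gm.opp
    group
  exact ⟨u, v, by simpa using h1, by simpa using h2, e ▸ h3⟩
theorem RW.eventually (h : RW A γ β) : ∀ᶠ α in 𝓝 γ, RW A α (β * γ⁻¹ * α) := by
  obtain ⟨u, v, h1, h2⟩ := h
  filter_upwards [isOpen_GI.mem_nhds h1] with α hα
  exact ⟨u, v, hα, by rwa [mul_inv_cancel_right]⟩
/-- a little further along the germ the move is two sided -/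
theorem RW.rw2 (h : RW A γ β) : ∃ r > 0, ∀ δ : Gm, 0 < δ.c → δ.c < r → RW2 A (γ * δ) (β * δ) := by
  obtain ⟨u, v, h1, h2⟩ := h
  obtain ⟨r, hr, k⟩ := mem_GI_iff.1 h1
  refine ⟨r, hr, fun δ d1 d2 => ?_⟩
  have e : β * δ * (γ * δ)⁻¹ = β * γ⁻¹ := by group
  have m : ∀ d : Gm, d ∈ GI 0 r → γ * d ∈ GI u v := fun d hd => mul_mem_GI hd k
  have k2 := ioo_iff.1 (⟨d1, d2⟩ : (0 : ℝ) < δ.c ∧ δ.c < r)
  have k3 := ioo_iff.2 (⟨m _ k2.1, by rw [← Gm.mul_opp]; exact m _ k2.2⟩ :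
    γ * δ ∈ GI u v ∧ (γ * δ).opp ∈ GI u v)
  exact ⟨u, v, k3.1, k3.2, e ▸ h2⟩
theorem rw_of_arc (h : A φ u v) (k : γ ∈ GI u v) : RW A γ (φ * γ) :=
  ⟨u, v, k, by rwa [mul_inv_cancel_right]⟩
theorem rw2_of_arc (h : A φ u v) (h1 : u < γ.c) (h2 : γ.c < v) : RW2 A γ (φ * γ) :=
  ⟨u, v, h1, h2, by rwa [mul_inv_cancel_right]⟩

namespace PgBA

theorem arc_of_subset (P : PG A) (h : A φ u v) {a b : ℝ} (h1 : a < b) (h2 : GI a b ⊆ GI u v) :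
    A φ a b :=
  P.sub _ _ _ _ _ h ((GI_subset_iff h1).1 h2).1 h1 ((GI_subset_iff h1).1 h2).2

theorem arc_inv (P : PG A) (h : A φ u v) {a b : ℝ} (h1 : a < b) (h2 : GI a b ⊆ tr φ (GI u v)) :
    A φ⁻¹ a b := by
  refine P.inv _ _ _ _ _ h h1 (icc_of_tr h1 ?_)
  have := tr_mono (φ := φ⁻¹) h2
  rwa [tr_tr, inv_mul_cancel, tr_one] at this

theorem arc_comp (P : PG A) {ψ : Gm} {a b : ℝ} (h : A φ u v) (k : A ψ a b)
    (h2 : tr φ (GI u v) ⊆ GI a b) : A (ψ * φ) u v :=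
  P.comp _ _ _ _ _ _ h k (icc_of_tr (P.lt _ _ _ h) h2)

theorem symm_aux (P : PG A) (h : A φ u v) :
    ∃ a b, (∀ γ ∈ GI u v, φ * γ ∈ GI a b) ∧ ∀ γ ∈ GI u v, A φ⁻¹ a b := by
  obtain ⟨a, b, e⟩ := exists_tr φ (P.lt _ _ _ h)
  have m : ∀ γ ∈ GI u v, φ * γ ∈ GI a b := fun γ hγ => e ▸ mul_mem_tr.2 hγ
  exact ⟨a, b, m, fun γ hγ => arc_inv P h (lt_of_mem_GI (m γ hγ)) e.ge⟩

theorem trans_aux (P : PG A) {ψ : Gm} {a b : ℝ} (h : A φ u v) (k : A ψ a b) :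
    ∃ s t, (∀ γ ∈ GI u v, φ * γ ∈ GI a b → γ ∈ GI s t) ∧ (s < t → A (ψ * φ) s t) := by
  obtain ⟨a', b', e⟩ := exists_tr φ⁻¹ (P.lt _ _ _ k)
  refine ⟨max u a', min v b', fun γ h1 h2 => ?_, fun hst => ?_⟩
  · rw [← GI_inter, ← e]
    exact ⟨h1, mem_tr.2 (by rwa [inv_inv])⟩
  · refine arc_comp P (arc_of_subset P h hst ?_) k ?_
    · rw [← GI_inter]
      exact inter_subset_left
    · rw [← GI_inter, ← e]
      have := tr_mono (φ := φ) (inter_subset_right : GI u v ∩ tr φ⁻¹ (GI a b) ⊆ _)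
      rwa [tr_tr, mul_inv_cancel, tr_one] at this

end PgBA

namespace PG

theorem rw_symm (P : PG A) (h : RW A γ β) : RW A β γ := by
  obtain ⟨u, v, h1, h2⟩ := h
  obtain ⟨a, b, k1, k2⟩ := symm_aux P h2
  have m := k1 γ h1
  have k3 := k2 γ h1
  rw [inv_mul_cancel_right] at m
  rw [mul_inv_rev, inv_inv] at k3
  exact ⟨a, b, m, k3⟩
theorem rw_trans (P : PG A) (h : RW A α β) (k : RW A β γ) : RW A α γ := by
  obtain ⟨u, v, h1, h2⟩ := h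
  obtain ⟨a, b, k1, k2⟩ := k
  obtain ⟨s, t, m1, m2⟩ := trans_aux P h2 k2
  have m := m1 α h1 (by rwa [inv_mul_cancel_right])
  have e : γ * β⁻¹ * (β * α⁻¹) = γ * α⁻¹ := by group
  exact ⟨s, t, m, e ▸ m2 (lt_of_mem_GI m)⟩
theorem rw2_symm (P : PG A) (h : RW2 A γ β) : RW2 A β γ := by
  obtain ⟨u, v, h0, h1, h2⟩ := h
  obtain ⟨a, b, k1, k2⟩ := symm_aux P h2
  have o := ioo_iff.1 ⟨h0, h1⟩
  have m := k1 γ o.1
  have m' := k1 _ o.2
  have k3 := k2 γ o.1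
  rw [Gm.mul_opp] at m'
  rw [inv_mul_cancel_right] at m m'
  rw [mul_inv_rev, inv_inv] at k3
  have o' := ioo_iff.2 ⟨m, m'⟩
  exact ⟨a, b, o'.1, o'.2, k3⟩
theorem rw2_trans (P : PG A) (h : RW2 A α β) (k : RW2 A β γ) : RW2 A α γ := by
  obtain ⟨u, v, h0, h1, h2⟩ := h
  obtain ⟨a, b, k0, k1, k2⟩ := k
  obtain ⟨s, t, m1, m2⟩ := trans_aux P h2 k2
  have o := ioo_iff.1 ⟨h0, h1⟩
  have o1 := ioo_iff.1 ⟨k0, k1⟩
  have m := m1 α o.1 (by rw [inv_mul_cancel_right]; exact o1.1)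
  have m' := m1 _ o.2 (by rw [Gm.mul_opp, inv_mul_cancel_right]; exact o1.2)
  have e : γ * β⁻¹ * (β * α⁻¹) = γ * α⁻¹ := by group
  have o' := ioo_iff.2 ⟨m, m'⟩
  exact ⟨s, t, o'.1, o'.2, e ▸ m2 (lt_of_mem_GI m)⟩
theorem rw_seg (P : PG A) (h : RW A γ β) :
    ∃ r > 0, ∀ u v, u < v → GI u v ⊆ seg γ r → A (β * γ⁻¹) u v := by
  obtain ⟨a, b, h1, h2⟩ := h
  obtain ⟨r, hr, k⟩ := isOpen_iff_seg.1 isOpen_GI γ h1
  exact ⟨r, hr, fun u v h3 h4 => PgBA.arc_of_subset P h2 h3 (h4.trans k)⟩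
theorem arc_of_subset (P : PG A) (h : A φ u v) {a b : ℝ} (h1 : a < b) (h2 : GI a b ⊆ GI u v) :
    A φ a b :=
  PgBA.arc_of_subset P h h1 h2
/-- inverses and composites in terms of sets of germs -/
theorem arc_inv (P : PG A) (h : A φ u v) {a b : ℝ} (h1 : a < b) (h2 : GI a b ⊆ tr φ (GI u v)) :
    A φ⁻¹ a b :=
  PgBA.arc_inv P h h1 h2
theorem arc_comp (P : PG A) {ψ : Gm} {a b : ℝ} (h : A φ u v) (k : A ψ a b)
    (h2 : tr φ (GI u v) ⊆ GI a b) : A (ψ * φ) u v :=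
  PgBA.arc_comp P h k h2
/-- local arcs glue -/
theorem arc_of_local (P : PG A) (h : u < v) (h1 : ∀ γ ∈ GI u v, RW A γ (φ * γ))
    (h2 : ∀ γ : Gm, u < γ.c → γ.c < v → RW2 A γ (φ * γ)) : A φ u v := by
  have key : v = u ∨ A φ u v := by
    refine real_ind (p := fun t => t = u ∨ A φ u t) h.le (Or.inl rfl) ?_ ?_
    · intro t t1 t2 ht
      rcases t1.eq_or_lt with e | e
      · subst e
        obtain ⟨a, b, k1, k2⟩ := h1 _ (tau_mem_GI.2 ⟨le_rfl, h⟩)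
        rw [mul_inv_cancel_right] at k2
        rw [tau_mem_GI] at k1
        refine ⟨b - u, sub_pos.2 k1.2, fun s s1 s2 => Or.inr ?_⟩
        exact P.sub _ _ _ _ _ k2 k1.1 (by linarith) (by linarith)
      · have ht' : A φ u t := ht.resolve_left e.ne'
        obtain ⟨a, b, k1, k2, k3⟩ := h2 (Gm.tau t) e t2
        rw [mul_inv_cancel_right] at k3
        rw [Gm.tau_c] at k1 k2
        refine ⟨b - t, sub_pos.2 k2, fun s s1 s2 => Or.inr ?_⟩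
        have m : max u a < t := max_lt e k1
        refine P.glue _ _ _ (max u a) _ ht' ?_ (le_max_left _ _) m (by linarith)
        exact P.sub _ _ _ _ _ k3 (le_max_right _ _) (by linarith) (by linarith)
    · intro t t1 t2 ht
      obtain ⟨a, b, k1, k2⟩ := h1 _ (opp_tau_mem_GI.2 ⟨t1, t2⟩)
      rw [mul_inv_cancel_right] at k2
      rw [opp_tau_mem_GI] at k1
      have m : max u a < t := max_lt t1 k1.1
      obtain ⟨s, s1, s2⟩ := exists_between m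
      have s0 : u < s := (le_max_left _ _).trans_lt s1
      refine Or.inr (P.glue _ _ s (max u a) _ ((ht s s0.le s2).resolve_left s0.ne') ?_
        (le_max_left _ _) s1 s2.le)
      exact P.sub _ _ _ _ _ k2 (le_max_right _ _) m k1.2
  exact key.resolve_left h.ne'
theorem arcs_of_intv (P : PG A) {ι : Type} {S : Sys ι} (h : S.Intv A) : S.Arcs A := by
  intro i u v h1 h2
  rcases h i with e | ⟨a, b, e, k⟩
  · rw [e] at h2
    obtain ⟨γ, hγ⟩ := GI_nonempty.2 h1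
    exact absurd (h2 hγ) (notMem_empty _)
  · exact P.arc_of_subset k h1 (e ▸ h2)
theorem rw_of_rel (P : PG A) {ι : Type} {S : Sys ι} (h : S.Weak A) (k : S.Rel γ β)
    (h0 : RW A γ γ) : RW A γ β := by
  induction k with
  | refl => exact h0
  | tail _ s ih =>
    obtain ⟨i, h1, rfl⟩ := s
    exact P.rw_trans ih (h i _ h1)
theorem rw_of_rel' (P : PG A) {ι : Type} {S : Sys ι} (h : S.Weak A) (k : S.Rel γ β)
    (h0 : ∃ i, γ ∈ S.dom i) : RW A γ β := by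
  obtain ⟨i, hi⟩ := h0
  exact P.rw_of_rel h k (P.rw_trans (h i γ hi) (P.rw_symm (h i γ hi)))

end PG

theorem Sys.Intv.weak {ι : Type} {S : Sys ι} (h : S.Intv A) : S.Weak A := by
  intro i γ hγ
  rcases h i with e | ⟨a, b, e, k⟩
  · rw [e] at hγ
    exact absurd hγ (notMem_empty _)
  · exact rw_of_arc k (e ▸ hγ)
theorem Sys.Arcs.weak {ι : Type} {S : Sys ι} (h : S.Arcs A) : S.Weak A := by
  intro i γ hγ
  obtain ⟨r, hr, k⟩ := isOpen_iff_seg.1 (S.co i).2 γ hγ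
  have m : γ ∈ seg γ r := self_mem_seg hr
  rw [seg_eq_GI hr.le] at k m
  exact rw_of_arc (h i _ _ (lt_of_mem_GI m) k) m

end Pool.Agent.P.MP_dba3d2_lc
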