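import Pool.Agent.P.MP_dba3d2_lc.D.Iface2
import Pool.Agent.P.MP_dba3d2_lc.D.PgB

/-! Step D_LPB of the stability project. -/

namespace Pool.Agent.P.MP_dba3d2_lc

open Set Filter Topology

namespace D_lpbA

variable {ι : Type} {A : Gm → ℝ → ℝ → Prop} {S T : Sys ι} {α β α' β' : ι → ℝ} {z z' q : ℝ} {k : ι}

theorem mu_dom (h : S.Ends A z q α β) (i : ι) : mu (S.dom i) = β i - α i := by
  rw [(h i).2.2.2.1, mu_GI (h i).2.1.le]

theorem len_inv (h : S.Ends A z q α β) (i : ι) : β (S.inv i) - α (S.inv i) = β i - α i := by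
  rw [← mu_dom h, ← mu_dom h, S.mu_dom_inv]

/-- the bands do not become longer -/
theorem len_le [Fintype ι] (h : S.Ends A z q α β) (h' : T.Ends A z' q α' β')
    (H : LPStep S α β z T α' β' z' k) (i : ι) : β' i - α' i ≤ β i - α i := by
  have hk : β' k - α' k ≤ β k - α k := by
    have a1 := H.lt
    have a2 := H.at'
    have a3 := H.cα
    by_cases e : S.inv k = k
    · have a4 := H.cm e
      have a5 := (h' k).2.1
      have a6 := S.dom_inv k
      rw [e, (h k).2.2.2.1] at a6
      rcases (S.φ k).h with b | b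
      · have := (GI_inj (h k).2.1 (a6.trans (tr_GI_pos b))).1
        simp only [Gm.ap, b] at this a4
        linarith
      · have := (GI_inj (h k).2.1 (a6.trans (tr_GI_neg b))).2
        simp only [Gm.ap, b] at this a4
        linarith
    · linarith [H.cβ e]
  by_cases e : i = k
  · rwa [e]
  by_cases e' : i = S.inv k
  · rwa [e', len_inv h, ← H.inv, len_inv h']
  by_cases e'' : α i = z
  · rw [← mu_dom h, ← mu_dom h', (H.sl i e e'').2, mu_tr (S.co i)]
  · rw [(H.st i e e' e'').1, (H.st i e e' e'').2]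

end D_lpbA

open D_lpbA in
theorem p_D_LPB (hD_FOREST : S_D_FOREST) :
    S_D_LPB := by
  classical
  intro A Rn p q ι _ S α β z k hp hD hM hS hE H hc
  have : Nonempty ι := ⟨k 0⟩
  have hi : ∀ n, (S n).inv = (S 0).inv := fun n => by
    induction n with
    | zero => rfl
    | succ n ih => rw [(H n).inv, ih]
  have hz : StrictMono z := strictMono_nat_of_lt_succ fun n => (H n).lt
  have hb : BddAbove (range z) := ⟨q, by rintro _ ⟨n, rfl⟩; exact (hS n).1.le⟩
  have hl := tendsto_atTop_ciSup hz.monotone hb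
  have h1 : ∀ n, z n < ⨆ n, z n := fun n => (H n).lt.trans_le (le_ciSup hb (n + 1))
  have h2 : ⨆ n, z n ≤ q := ciSup_le fun n => (hS n).1.le
  generalize ⨆ n, z n = y at hl h1 h2
  have ht : ∀ n, (S n).tot = (S 0).tot - 2 * (z n - z 0) := fun n => by
    induction n with
    | zero => simp
    | succ n ih => rw [(H n).tot, ih]; ring
  have ha : ∀ i, Antitone fun n => β n i - α n i := fun i =>
    antitone_nat_of_succ_le fun n => len_le (hE n) (hE (n + 1)) (H n) i
  have h3 : ∀ i n, α n i < y → ∃ m, n ≤ m ∧ β m i - α m i ≤ β m (k m) - α m (k m) := by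
    intro i n hn
    by_contra hh
    push Not at hh
    have a : ∀ m, n ≤ m → α m i = α n i := fun m hm => by
      induction m, hm using Nat.le_induction with
      | base => rfl
      | succ m hm ih =>
        have b := hh m hm
        refine ((H m).st i (fun e => ?_) (fun e => ?_) fun e => ?_).1.trans ih
        · exact b.ne (by rw [e])
        · exact b.ne (by rw [e, len_inv (hE m)])
        · linarith [(H m).max i e, (H m).at']
    exact absurd (le_of_tendsto hl (eventually_atTop.2 ⟨n, fun m hm => a m hm ▸ (hE m i).1⟩))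
      (not_le.2 hn)
  obtain ⟨F, hF⟩ : ∃ F : Set ι, ∀ i, i ∈ F ↔ ∀ᶠ n in atTop, y ≤ α n i ∧ y ≤ α n ((S 0).inv i) :=
    ⟨{i | ∀ᶠ n in atTop, y ≤ α n i ∧ y ≤ α n ((S 0).inv i)}, fun _ => Iff.rfl⟩
  obtain ⟨N, hN⟩ := eventually_atTop.1
    ((eventually_all_finite (toFinite F)).2 fun i h => (hF i).1 h)
  have h4 : ∀ i ∈ F, (S N).inv i ∈ F := fun i h => by
    rw [hF, hi N, (S 0).inv_inv]
    exact ((hF i).1 h).mono fun n => And.symm
  have h5 : ∀ i ∈ F, ∀ n, N ≤ n → β n i - α n i = β N i - α N i := fun i h n hn => by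
    induction n, hn using Nat.le_induction with
    | base => rfl
    | succ n hn ih =>
      have b := hN n hn i h
      have c := h1 n
      have := (H n).st i (fun e => by linarith [(H n).at', e ▸ b.1])
        (fun e => by
          rw [e, ← hi n, (S n).inv_inv] at b
          linarith [(H n).at', b.2]) fun e => by linarith [b.1]
      rw [this.1, this.2, ih]
  obtain ⟨T, hT, hd⟩ := (S N).exists_sub (fun i => if i ∈ F then (S N).dom i else ∅)
    (fun i => by split_ifs; exacts [(S N).co i, CO.empty])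
    (fun i => by split_ifs; exacts [Subset.rfl, empty_subset _])
    fun i γ h => by
      by_cases e : i ∈ F
      · rw [if_pos e] at h
        rw [if_pos (h4 i e)]
        exact (S N).map i γ h
      · rw [if_neg e] at h
        exact h.elim
  have h6 : ∀ i, Tendsto (fun n => mu ((S n).dom i)) atTop (𝓝 (mu (T.dom i))) := fun i => by
    simp only [mu_dom (hE _), hd]
    split_ifs with e
    · rw [mu_dom (hE N)]
      exact tendsto_const_nhds.congr' (eventually_atTop.2 ⟨N, fun n hn => (h5 i e n hn).symm⟩)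
    · rw [mu_empty]
      refine tendsto_order.2 ⟨fun a h => Eventually.of_forall fun n => ?_, fun a h => ?_⟩
      · linarith [(hE n i).2.1]
      · obtain ⟨M, hM⟩ := eventually_atTop.1 (hc.eventually (gt_mem_nhds h))
        obtain ⟨n, hn, b⟩ := frequently_atTop.1 (not_eventually.1 (mt (hF i).2 e)) M
        obtain ⟨m, hm, c⟩ : ∃ m, n ≤ m ∧ β m i - α m i ≤ β m (k m) - α m (k m) := by
          rcases not_and_or.1 b with b | b
          · exact h3 i n (not_le.1 b)
          · refine (h3 _ n (not_le.1 b)).imp fun m c => ⟨c.1, ?_⟩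
            rw [← len_inv (hE m), hi m]
            exact c.2
        exact eventually_atTop.2 ⟨m, fun l hl => ((ha i hl).trans c).trans_lt (hM m (hn.trans hm))⟩
  have h7 : T.tot = (S 0).tot - 2 * (y - z 0) :=
    tendsto_nhds_unique (tendsto_finsetSum Finset.univ fun i _ => h6 i)
      ((((hl.sub_const _).const_mul 2).const_sub _).congr fun n => (ht n).symm)
  have hU : T.In (GI y q) := fun i => by
    rw [hd]
    dsimp only
    split_ifs with e
    · rw [(hE N i).2.2.2.1]
      exact GI_mono (hN N le_rfl i e).1 (hE N i).2.2.1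
    · exact empty_subset _
  rcases h2.eq_or_lt with e | e
  · have : T.tot = 0 := Finset.sum_eq_zero fun i _ => by
      rw [subset_eq_empty (hU i) (GI_eq_empty e.ge), mu_empty]
    rw [← e]
    linarith
  exfalso
  have p1 : p ≤ z N := hp.trans (hz.monotone N.zero_le)
  have sU : GI y q ⊆ GI (z N) q := GI_mono (h1 N).le le_rfl
  have hin : (S N).In (GI y q ∪ GI (z N) y) := by
    rw [union_comm, GI_union (h1 N).le h2]
    exact (hS N).2.1
  obtain ⟨par, h, f1, f2⟩ := hD_FOREST ι (S N) _ _ co_GI co_GI (GI_disjoint le_rfl).symm hin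
    fun γ hγ => by
      obtain ⟨δ, b1, b2⟩ := hD γ (GI_mono p1 h2 hγ) y q (p1.trans (h1 N).le) e le_rfl
      exact ⟨δ, b1, ((hS N).2.2.2 γ (GI_mono le_rfl h2 hγ) δ (sU b1)).2 b2⟩
  have hC := (f2 T hT hU).2 (by rw [mu_GI (h1 N).le, h7, ht N]; linarith)
  have hSt : T.St A Rn y q := ⟨e, hU, fun i => by
      rw [hd, hT.2.1]
      dsimp only
      split_ifs
      exacts [(hS N).2.2.1 i, Or.inl rfl],
    fun γ hγ δ hδ => Iff.trans ⟨hT.rel, Sys.collapse f1 hin hT.2.1 hC hU hγ hδ⟩
      ((hS N).2.2.2 γ (sU hγ) δ (sU hδ))⟩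
  refine absurd (hM ι T y (p1.trans (h1 N).le) hSt) (not_le.2 ?_)
  rw [← Nat.card_eq_fintype_card, ← ncard_univ]
  refine ncard_lt_ncard (ssubset_univ_iff.2 fun b => ?_)
  have c : (T.dom (k N)).Nonempty := (eq_univ_iff_forall.1 b) (k N)
  rw [hd] at c
  dsimp only at c
  split_ifs at c with d
  · linarith [(hN N le_rfl _ d).1, (H N).at', h1 N]
  · exact c.ne_empty rfl

end Pool.Agent.P.MP_dba3d2_lc
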