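import Pool.Agent.P.MP_dba3d2_lc.D.Iface2
import Pool.Agent.P.MP_dba3d2_lc.D.SysC

/-! Step D_LPCLEAN of the stability project. -/

namespace Pool.Agent.P.MP_dba3d2_lc

open Set Filter Topology

namespace D_lpcleanA

variable {A : Gm → ℝ → ℝ → Prop} {Rn : Gm → Gm → Prop} {p q z : ℝ} {ι : Type} [Fintype ι]

theorem all_ne {T : Sys ι} (hz : p ≤ z) (hT : T.St A Rn z q)
    (hm : LPMin A Rn p q (Fintype.card ι)) (i : ι) : (T.dom i).Nonempty := by
  have h := hm ι T z hz hT
  have e : {i | (T.dom i).Nonempty} = univ :=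
    eq_of_subset_of_ncard_le (subset_univ _) (by rwa [ncard_univ, Nat.card_eq_fintype_card])
  exact (e.symm ▸ mem_univ i : i ∈ {i | (T.dom i).Nonempty})

theorem no_less {S T : Sys ι} (hz : p ≤ z) (hS : S.St A Rn z q)
    (hm : LPMin A Rn p q (Fintype.card ι)) (hφ : T.φ = S.φ)
    (hd : ∀ k, T.dom k = S.dom k ∨ T.dom k = ∅) (hs : ∀ γ β, S.Step γ β → T.Rel γ β) {j : ι}
    (hj : T.dom j = ∅) : False := by
  have sub : ∀ k, T.dom k ⊆ S.dom k := fun k => by
    rcases hd k with h | h <;> rw [h]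
    exact empty_subset _
  refine (all_ne (T := T) hz ⟨hS.1, fun k => (sub k).trans (hS.2.1 k), fun k => ?_,
    fun γ h1 β h2 => Iff.trans ⟨?_, Sys.rel_of_step hs⟩ (hS.2.2.2 γ h1 β h2)⟩ hm j).ne_empty hj
  · rcases hd k with h | h
    · rw [h, hφ]; exact hS.2.2.1 k
    · exact Or.inl h
  · refine Sys.rel_of_step ?_
    rintro γ β ⟨k, h, rfl⟩
    exact Sys.Step.rel ⟨k, sub k h, by rw [hφ]⟩

/-- removal of a band and its inverse -/
theorem drop {S : Sys ι} (hz : p ≤ z) (hS : S.St A Rn z q)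
    (hm : LPMin A Rn p q (Fintype.card ι)) (j : ι)
    (hs : ∀ T : Sys ι, T.φ = S.φ → (∀ k, k ≠ j → k ≠ S.inv j → T.dom k = S.dom k) →
      ∀ γ ∈ S.dom j, T.Rel γ (S.φ j * γ)) : False := by
  classical
  obtain ⟨T, h1, h2⟩ := S.exists_sub (fun k => if k = j ∨ k = S.inv j then ∅ else S.dom k)
    (fun k => by
      split_ifs
      exacts [CO.empty, S.co k])
    (fun k => by
      split_ifs
      exacts [empty_subset _, subset_rfl])
    (fun k γ h => by
      by_cases c : k = j ∨ k = S.inv j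
      · rw [if_pos c] at h; exact h.elim
      · rw [if_neg c] at h
        rw [if_neg]
        · exact S.map k γ h
        · rintro (e | e)
          · exact c (Or.inr (Sys.inv_eq_iff.1 e))
          · exact c (Or.inl (S.inv_injective e)))
  have k1 : ∀ k, k ≠ j → k ≠ S.inv j → T.dom k = S.dom k := fun k a b => by
    rw [h2]; exact if_neg (not_or.2 ⟨a, b⟩)
  have k2 := hs T h1.2.1 k1
  refine no_less hz hS hm h1.2.1 (fun k => ?_) ?_ (j := j) (by rw [h2]; exact if_pos (Or.inl rfl))
  · rw [h2]; dsimp only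
    split_ifs
    exacts [Or.inr rfl, Or.inl rfl]
  · rintro γ β ⟨k, h, rfl⟩
    by_cases c : k = j
    · subst c; exact k2 γ h
    by_cases c' : k = S.inv j
    · subst c'
      have := k2 _ (S.inv_inv j ▸ S.map _ γ h)
      rw [S.φ_mul_inv] at this
      exact this.symm
    · exact Sys.Step.rel ⟨k, (k1 k c c').symm ▸ h, by rw [h1.2.1]⟩

theorem mob {S : Sys ι} (hz : p ≤ z) (hS : S.St A Rn z q)
    (hm : LPMin A Rn p q (Fintype.card ι)) {i : ι} (hi : i ≠ S.inv i) (e : S.φ i = S.φ (S.inv i))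
    (hd : S.dom (S.inv i) ⊆ S.dom i) : False := by
  classical
  have c1 : ∀ k, ¬(k = i ∨ k = S.inv i) → ¬(S.inv k = i ∨ S.inv k = S.inv i) := by
    rintro k c (h | h)
    · exact c (Or.inr (Sys.inv_eq_iff.1 h))
    · exact c (Or.inl (S.inv_injective h))
  let T : Sys ι :=
    { inv := fun k => if k = i ∨ k = S.inv i then k else S.inv k
      φ := S.φ
      dom := fun k => if k = S.inv i then ∅ else S.dom k
      inv_inv := fun k => by
        by_cases c : k = i ∨ k = S.inv i
        · simp only [if_pos c]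
        · simp only [if_neg c, if_neg (c1 k c), S.inv_inv]
      φ_inv := fun k => by
        by_cases c : k = i ∨ k = S.inv i
        · rw [if_pos c]
          rcases c with rfl | rfl
          · rw [← S.φ_inv, ← e]
          · rw [← S.φ_inv, S.inv_inv, ← e]
        · rw [if_neg c, S.φ_inv]
      co := fun k => by
        split_ifs
        exacts [CO.empty, S.co k]
      map := fun k γ h => by
        by_cases c : k = S.inv i
        · rw [if_pos c] at h; exact h.elim
        rw [if_neg c] at h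
        by_cases c' : k = i
        · subst c'
          rw [if_pos (Or.inl rfl), if_neg c]
          exact hd (S.map _ γ h)
        · rw [if_neg (not_or.2 ⟨c', c⟩), if_neg fun h => c' (S.inv_injective h)]
          exact S.map _ γ h }
  refine no_less (T := T) hz hS hm rfl (fun k => ?_) ?_ (j := S.inv i) (if_pos rfl)
  · by_cases c : k = S.inv i
    · exact Or.inr (if_pos c)
    · exact Or.inl (if_neg c)
  · rintro γ β ⟨k, h, rfl⟩
    by_cases c : k = S.inv i
    · subst c
      exact Sys.Step.rel ⟨i, (if_neg hi : T.dom i = S.dom i).ge (hd h), by rw [← e]⟩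
    · exact Sys.Step.rel ⟨k, (if_neg c : T.dom k = S.dom k).ge h, rfl⟩

end D_lpcleanA

open D_lpcleanA in
theorem p_D_LPCLEAN :
    S_D_LPCLEAN := by
  intro A Rn p q z ι _ S hz hS hm
  refine ⟨⟨fun i hi => drop hz hS hm i fun T _ _ γ _ => ?_, fun i j hij e hd => ?_⟩, ?_⟩
  · rw [hi, one_mul]; exact Sys.Rel.refl T γ
  · by_cases c : j = S.inv i
    · subst c; exact mob hz hS hm hij e hd
    · refine drop hz hS hm j fun T h1 h2 γ h => Sys.Step.rel ⟨i, ?_, by rw [h1, e]⟩
      rw [h2 i hij fun k => c (Sys.inv_eq_iff.2 k).symm]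
      exact hd h
  · have : ∀ i, ∃ u v, z ≤ u ∧ u < v ∧ v ≤ q ∧ S.dom i = GI u v ∧ A (S.φ i) u v := by
      intro i
      have ne := all_ne hz hS hm i
      rcases hS.2.2.1 i with h | ⟨u, v, h, k⟩
      · exact (ne.ne_empty h).elim
      · have lt : u < v := GI_nonempty.1 (h ▸ ne)
        have := (GI_subset_iff lt).1 (h ▸ hS.2.1 i)
        exact ⟨u, v, this.1, lt, this.2, h, k⟩
    choose α β h using this
    exact ⟨α, β, h⟩

end Pool.Agent.P.MP_dba3d2_lc
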