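import Pool.Agent.P.MP_dba3d2_lc.D.Iface2
import Pool.Agent.P.MP_dba3d2_lc.D.Germ2

/-! Step D_LPSTEP of the stability project. -/

namespace Pool.Agent.P.MP_dba3d2_lc

open Set Filter Topology

namespace D_lpstepA

variable {A : Gm → ℝ → ℝ → Prop} {Rn : Gm → Gm → Prop} {p q z : ℝ} {ι : Type} {S : Sys ι}
  {α β : ι → ℝ} {i k : ι}

theorem dom_inv (S : Sys ι) (i : ι) : S.dom (S.inv i) = tr (S.φ i) (S.dom i) := by
  ext γ
  refine ⟨fun h => ?_, fun h => ?_⟩
  · have := S.map _ _ h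
    rwa [S.inv_inv, S.φ_inv] at this
  · simpa using S.map _ _ h

theorem tr_pos {φ : Gm} {a b u v : ℝ} (e : φ.ε = 1) (h : u < v) (k : GI u v = tr φ (GI a b)) :
    u = a + φ.c ∧ v = b + φ.c := by
  rw [tr_GI_pos e] at k
  simpa [Gm.ap, e] using GI_inj h k

theorem tr_neg {φ : Gm} {a b u v : ℝ} (e : φ.ε = -1) (h : u < v) (k : GI u v = tr φ (GI a b)) :
    u = φ.c - b ∧ v = φ.c - a := by
  rw [tr_GI_neg e] at k
  have := GI_inj h k
  simp only [Gm.ap, e] at this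
  constructor <;> linarith [this.1, this.2]

theorem ends_inv (E : S.Ends A z q α β) (i : ι) :
    GI (α (S.inv i)) (β (S.inv i)) = tr (S.φ i) (GI (α i) (β i)) := by
  rw [← (E _).2.2.2.1, ← (E _).2.2.2.1, dom_inv]

/-- a band whose two bases start at the same point is a reflection -/
theorem refl (E : S.Ends A z q α β) (C : S.Clean) (h : α (S.inv i) = α i) :
    (S.φ i).ε = -1 ∧ (S.φ i).c = α i + β i ∧ S.inv i = i := by
  rcases (S.φ i).h with e | e
  · have := (tr_pos e (E _).2.1 (ends_inv E i)).1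
    exact absurd (Gm.ext e (by simp only [Gm.one_c]; linarith)) (C.1 i)
  · obtain ⟨h1, h2⟩ := tr_neg e (E _).2.1 (ends_inv E i)
    refine ⟨e, by linarith, by_contra fun n => C.2 _ _ n ?_ ?_⟩
    · rw [S.φ_inv]
      exact Gm.ext rfl (by simp [e])
    · rw [(E _).2.2.2.1, (E _).2.2.2.1]
      exact GI_mono h.le (by linarith)

theorem start (hp : p ≤ z) (D : Dns Rn p q) (H : S.St A Rn z q) (E : S.Ends A z q α β) :
    ∃ i, α i = z := by
  have h := H.1
  obtain ⟨γ, h1, h2⟩ := D (Gm.tau z) (tau_mem_GI.2 ⟨hp, h⟩) ((z + q) / 2) q (by linarith)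
    (by linarith) le_rfl
  have r := (H.2.2.2 _ (tau_mem_GI.2 ⟨le_rfl, h⟩) γ (GI_mono (by linarith) le_rfl h1)).2 h2
  rcases Relation.ReflTransGen.cases_head r with e | ⟨_, ⟨i, hi, -⟩, -⟩
  · have := h1.1
    rw [← e, Gm.tau_c] at this
    linarith
  · rw [(E i).2.2.2.1] at hi
    exact ⟨i, le_antisymm (tau_mem_GI.1 hi).1 (E i).1⟩

theorem carrier [Finite ι] (S : Sys ι) (β : ι → ℝ) (h : ∃ i, α i = z) :
    ∃ k, α k = z ∧ (∀ i, α i = z → β i ≤ β k) ∧
      (S.inv k = k → ∀ i, α i = z → β i = β k → S.inv i = i) := by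
  obtain ⟨k, h1, h2⟩ := Set.exists_max_image {i | α i = z} β (Set.toFinite _) h
  by_cases e : ∃ i, α i = z ∧ β i = β k ∧ S.inv i ≠ i
  · obtain ⟨i, a, b, c⟩ := e
    exact ⟨i, a, fun j hj => b ▸ h2 j hj, fun n => absurd n c⟩
  · exact ⟨k, h1, h2, fun _ i a b => by_contra fun c => e ⟨i, a, b, c⟩⟩

/-- after the slide all other bases start to the right of `z` -/
theorem right (E : S.Ends A z q α β) (C : S.Clean) (h1 : α k = z) (h2 : β i ≤ β k)
    (h3 : S.inv k = k → β i = β k → S.inv i = i) (hi : i ≠ k) (h4 : α i = z) {u v : ℝ}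
    (h : u < v) (e : GI u v = tr (S.φ k) (GI (α i) (β i))) : z < u := by
  have z1 := (E (S.inv k)).1
  rcases (S.φ k).h with s | s
  · have a := (tr_pos s h e).1
    have b := (tr_pos s (E _).2.1 (ends_inv E k)).1
    refine lt_of_le_of_ne (by linarith) fun n => ?_
    have := (refl E C (i := k) (by linarith)).1
    linarith
  · have a := (tr_neg s h e).1
    have b := (tr_neg s (E _).2.1 (ends_inv E k)).1
    refine lt_of_le_of_ne (by linarith) fun n => ?_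
    obtain ⟨-, k2, k3⟩ := refl E C (i := k) (by linarith)
    have c : β i = β k := by linarith
    obtain ⟨i1, i2, -⟩ := refl E C (i := i) (by rw [h3 k3 c])
    refine C.2 i k hi (Gm.ext (i1.trans s.symm) (by linarith)) ?_
    rw [(E _).2.2.2.1, (E _).2.2.2.1]
    exact GI_mono (by linarith) c.ge

end D_lpstepA

open D_lpstepA in
theorem p_D_LPSTEP (hD_LPCLEAN : S_D_LPCLEAN) (hD_SLIDE : S_D_SLIDE) (hD_TRIM : S_D_TRIM) :
    S_D_LPSTEP := by
  intro A hA Rn p q z ι _ S α β hp D H M E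
  classical
  have C := (hD_LPCLEAN A Rn p q z ι S hp H M).1
  obtain ⟨k, k1, k2, k3⟩ := carrier S β (start hp D H E)
  have kB : k ∉ {i | i ≠ k ∧ α i = z} := fun h => h.1 rfl
  have iB : S.inv k ∉ {i | i ≠ k ∧ α i = z} := fun h =>
    h.1 (refl E C (h.2.trans k1.symm)).2.2
  have sub : ∀ i ∈ {i | i ≠ k ∧ α i = z}, S.dom i ⊆ S.dom k := fun i h => by
    rw [(E _).2.2.2.1, (E _).2.2.2.1]
    exact GI_mono (k1.trans h.2.symm).le (k2 i h.2)
  obtain ⟨U, u1, u2, u3, u4, u5, u6, u7⟩ := hD_SLIDE A hA ι S k _ kB iB sub H.2.2.1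
  have HU : U.St A Rn z q := by
    refine ⟨H.1, fun i => ?_, u5, fun γ a δ b => (u6 γ δ).trans (H.2.2.2 γ a δ b)⟩
    by_cases h : i ∈ {i | i ≠ k ∧ α i = z}
    · rw [u2 i h]
      exact (tr_mono (sub i h)).trans (dom_inv S k ▸ H.2.1 _)
    · exact u3 i h ▸ H.2.1 i
  obtain ⟨-, a, b, EU⟩ := hD_LPCLEAN A Rn p q z ι U hp HU M
  have same : ∀ i, i ∉ {i | i ≠ k ∧ α i = z} → a i = α i ∧ b i = β i := fun i h =>
    GI_inj (EU i).2.1 (by rw [← (EU i).2.2.2.1, u3 i h, (E i).2.2.2.1])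
  have rt : ∀ i, i ≠ k → z < a i := fun i hi => by
    by_cases h : α i = z
    · exact right E C k1 (k2 i h) (fun e => k3 e i h) hi h (EU i).2.1
        (by rw [← (EU i).2.2.2.1, u2 i ⟨hi, h⟩, (E i).2.2.2.1])
    · rw [(same i fun e => h e.2).1]
      exact lt_of_le_of_ne (E i).1 (Ne.symm h)
  have zk : z < β k := k1 ▸ (E k).2.1
  obtain ⟨m, m1, m2⟩ : ∃ m, (S.inv k ≠ k → m = β k) ∧ (S.inv k = k → m = (z + β k) / 2) := by
    by_cases h : S.inv k = k
    · exact ⟨_, fun e => absurd h e, fun _ => rfl⟩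
    · exact ⟨_, fun _ => rfl, fun e => absurd e h⟩
  have zm : z < m ∧ m ≤ β k := by
    by_cases h : S.inv k = k
    · rw [m2 h]; constructor <;> linarith
    · rw [m1 h]; exact ⟨zk, le_rfl⟩
  have : Nonempty ι := ⟨k⟩
  obtain ⟨j, hj⟩ := Finite.exists_min fun i => if i = k then m else a i
  obtain ⟨y, y1, y2, y3, y4⟩ : ∃ y, z < y ∧ y ≤ m ∧ (∀ i, i ≠ k → y ≤ a i) ∧
      (y = m ∨ ∃ i, i ≠ k ∧ a i = y) := by
    refine ⟨if j = k then m else a j, ?_, by simpa using hj k, fun i h => by simpa [h] using hj i,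
      ?_⟩
    · split_ifs with h
      exacts [zm.1, rt j h]
    · split_ifs with h
      exacts [Or.inl rfl, Or.inr ⟨j, h, rfl⟩]
  have φk : U.φ k = S.φ k := u4 k kB iB
  have rf : S.inv k = k → (S.φ k).ε = -1 ∧ (S.φ k).ap y = 2 * m - y := fun h => by
    obtain ⟨r1, r2, -⟩ := refl E C (i := k) (by rw [h])
    exact ⟨r1, by simp only [Gm.ap, r1, r2, m2 h, k1]; ring⟩
  have yq : y < q := by
    by_cases h : S.inv k = k
    · linarith [m2 h, (E k).2.2.1]
    · exact (y3 _ h).trans_lt ((EU _).2.1.trans_le (EU _).2.2.1)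
  obtain ⟨T, t1, t2, t3, t4, t5, t6, t7⟩ := hD_TRIM A hA Rn ι U k z y (β k) q HU
    (by rw [u3 k kB, (E k).2.2.2.1, k1]) y1 (y2.trans zm.2) yq
    (fun i h => by rw [(EU i).2.2.2.1]; exact GI_mono (y3 i h) (EU i).2.2.1)
    (fun h => by
      rw [u1] at h
      rw [φk, (rf h).2]
      exact ⟨(rf h).1, by linarith⟩)
  rw [u1] at t5 t6 t7
  rw [φk] at t7
  obtain ⟨-, α', β', ET⟩ := hD_LPCLEAN A Rn p q y ι T (hp.trans y1.le) t3 M
  have c1 := fun h => GI_inj (ET k).2.1 ((ET k).2.2.2.1.symm.trans (t6 h))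
  have c2 := fun h => GI_inj (ET k).2.1 ((ET k).2.2.2.1.symm.trans (t7 h))
  have c3 : ∀ i, i ≠ k → i ≠ S.inv k → α' i = a i ∧ β' i = b i := fun i h h' =>
    GI_inj (ET i).2.1 (by rw [← (ET i).2.2.2.1, t5 i h h', (EU i).2.2.2.1])
  have ne : y ≠ m := fun e => by
    have := (ET k).2.1
    by_cases h : S.inv k = k
    · linarith [(c2 h).1, (c2 h).2, (rf h).2]
    · linarith [(c1 h).1, (c1 h).2, m1 h]
  refine ⟨T, α', β', y, k, t3, ET, t1.trans u1, y1, k1, k2, by rw [t2, φk],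
    (em (S.inv k = k)).elim (fun h => (c2 h).1) fun h => (c1 h).1, fun h => (c1 h).2,
    fun h => (c2 h).2, fun i h h' => ?_, fun i h h' h'' => ?_,
    fun i h h' => by rw [t2, u4 i (fun e => h e.2) fun e => h' e.2], ?_, by rw [t4, u7]⟩
  · have n : i ≠ S.inv k := fun e => iB (e ▸ ⟨h, h'⟩)
    exact ⟨n, by rw [t5 i h n, u2 i ⟨h, h'⟩]⟩
  · have := same i fun e => h'' e.2
    exact ⟨(c3 i h h').1.trans this.1, (c3 i h h').2.trans this.2⟩
  · obtain ⟨i, h, e⟩ := y4.resolve_left ne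
    by_cases n : i = S.inv k
    · exact Or.inr ⟨n ▸ h, by rw [← (same _ iB).1, ← n, e]⟩
    · exact Or.inl ⟨i, h, (c3 i h n).1.trans e⟩

end Pool.Agent.P.MP_dba3d2_lc
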