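import Pool.Agent.P.MP_dba3d2_lc.D.Iface4
import Pool.Agent.P.MP_dba3d2_lc.D.T0B
import Pool.Agent.P.MP_dba3d2_lc.D.LsB

/-! Step D_MATCH of the stability project. -/

namespace Pool.Agent.P.MP_dba3d2_lc

open Set Filter Topology

namespace D_matchA

theorem ind {G : Type} [Group G] {Q : Subgroup G} {A : Set G} (hA : Subgroup.closure A = Q)
    (H : Subgroup Q) (h : ∀ g : Q, (g : G) ∈ A → g ∈ H) (g : Q) : g ∈ H := by
  subst hA
  have e : (⊤ : Subgroup (Subgroup.closure A)) ≤ H :=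
    Subgroup.closure_closure_coe_preimage.symm.trans_le ((Subgroup.closure_le H).2 h)
  exact e trivial

theorem equiv {G : Type} [Group G] {Q : Subgroup G} {A A' : Set G} (hA : Subgroup.closure A = Q)
    (hA' : Subgroup.closure A' = Q) (s s' : Q →* G)
    (h : ∀ g : Q, (g : G) ∈ A → s g ∈ A' ∧ ∀ g' : Q, (g' : G) = s g → s' g' = g)
    (h' : ∀ g : Q, (g : G) ∈ A' → s' g ∈ A ∧ ∀ g' : Q, (g' : G) = s' g → s g' = g) :
    ∃ e : Q ≃* Q, ∀ g, (e g : G) = s g := by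
  have m : ∀ g, s g ∈ Q := ind hA (Q.comap s) fun g k =>
    Subgroup.mem_comap.2 (hA'.le (Subgroup.subset_closure (h g k).1))
  have m' : ∀ g, s' g ∈ Q := ind hA' (Q.comap s') fun g k =>
    Subgroup.mem_comap.2 (hA.le (Subgroup.subset_closure (h' g k).1))
  refine ⟨MonoidHom.toMulEquiv (s.codRestrict Q m) (s'.codRestrict Q m') (MonoidHom.ext ?_)
    (MonoidHom.ext ?_), fun g => rfl⟩
  · exact ind hA (((s'.codRestrict Q m').comp (s.codRestrict Q m)).eqLocus (MonoidHom.id _))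
      fun g k => Subtype.ext ((h g k).2 _ rfl)
  · exact ind hA' (((s.codRestrict Q m).comp (s'.codRestrict Q m')).eqLocus (MonoidHom.id _))
      fun g k => Subtype.ext ((h' g k).2 _ rfl)

variable {R : RT} {P : ℝ → R.W} {p q : ℝ} {Ω : Finset ℝ} {c : ℕ}

theorem lt (T : Stg R.toLG P p q Ω c) : T.z < T.z' := by
  obtain ⟨γ, h⟩ := T.L.ne
  exact lt_of_mem_GI h

theorem memV (T : Stg R.toLG P p q Ω c) {t : ℝ} (h : t ∈ T.V) : t ∈ Icc T.z T.z' := by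
  obtain ⟨y, h1, rfl⟩ := T.src t h
  exact c_mem_of_GI h1.1

theorem half (hD : S_D_DEFORM) (hS : S_D_SHOM) (S : R.Stb P p q) (T T' : Stg R.toLG P p q Ω c)
    {N : ℝ → R.W} {θ θ' : R.W → R.W} (H : T.Half T' N θ θ')
    (hN : ∀ t ∈ T.V, N t ∈ R.QJ P T.z T.z') :
    ∃ (M : ℝ → R.W) (s : R.QJ P T.z T.z' →* R.W), (∀ t ∈ T.V, M t = N t) ∧
      (∀ t, M t ∈ R.QJ P T.z T.z') ∧ R.Eqv P T.z T.z' M ∧
      (∀ (g : R.QJ P T.z T.z') φ u v, R.Mover P T.z T.z' g φ u v →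
        s g = M (φ.ap u) * g * (M u)⁻¹) ∧
      (∀ g : R.QJ P T.z T.z', (g : R.W) ∈ R.KK P p q → s g = g) ∧
      ∀ y ∈ T.L.DS T.V, ∀ g : R.QJ P T.z T.z', R.Mv P y.1 g (T.L.f y).1 → s g = θ g := by
  obtain ⟨M, m1, m2, m3, m4⟩ := hD R.toLG P p q S Ω c T T' N θ θ' H hN
  obtain ⟨_, s, _, _, h3⟩ := hS R P T.z T.z' (lt T) (S.iso.mono T.lo T.hi) M m4
  refine ⟨M, s, m1, m2, m4, fun g φ u v k => ?_, fun g k => ?_, fun y hy g k => ?_⟩
  · have hu : u ∈ Icc u v := ⟨le_rfl, k.1.le⟩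
    exact h3 u (k.2.1 u hu).1 _ (k.2.1 u hu).2 g (k.2.2 u hu)
  · have hz : T.z ∈ Icc T.z T.z' := ⟨le_rfl, (lt T).le⟩
    have e := k T.z ⟨T.lo, (lt T).le.trans T.hi⟩
    rw [Gm.one_ap] at e
    rw [h3 _ hz _ hz g e, (m3 T.z g k).eq, mul_inv_cancel_right]
  · rw [h3 _ (memV T hy.2.1) _ (memV T hy.2.2) g (LG.Mv2.pt k), m1 _ hy.2.1, m1 _ hy.2.2]
    exact (H.val y hy g k).1.symm

theorem dist_le (S : R.Stb P p q) (T : Stg R.toLG P p q Ω c) {s t : ℝ} (hs : s ∈ Icc T.z T.z')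
    (ht : t ∈ Icc T.z T.z') : R.d (P s) (P t) ≤ T.z' - T.z := by
  rw [S.iso.mono T.lo T.hi s hs t ht, abs_le]
  constructor <;> linarith [hs.1, hs.2, ht.1, ht.2]

theorem gen_le (S : R.Stb P p q) (T : Stg R.toLG P p q Ω c) {x : R.W} (hx : x ∈ T.gens) {t : ℝ}
    (ht : t ∈ Icc T.z T.z') : R.d (P t) (x * P t) ≤ 2 * (T.z' - T.z) := by
  rcases hx with k | ⟨y, hy, k⟩
  · have e := k t (Icc_subset_Icc T.lo T.hi ht)
    rw [Gm.one_ap] at e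
    rw [LG.d_zero_symm e]
    linarith [lt T]
  · have e := LG.d_zero_symm (LG.Mv2.pt k)
    have a1 := dist_le S T ht (memV T hy.2.2)
    have a2 := dist_le S T (memV T hy.2.1) ht
    have a3 := LG.d_mul_left x (P y.1.c) (P t)
    have a4 := LG.d_triangle (P t) (P (T.L.f y).1.c) (x * P t)
    have a5 := LG.d_triangle (P (T.L.f y).1.c) (x * P y.1.c) (x * P t)
    linarith

theorem list_le (S : R.Stb P p q) (T' : Stg R.toLG P p q Ω c) {Q : Subgroup R.W} {A : Set R.W}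
    (hA : Subgroup.closure A = Q) (s : Q →* R.W) (h : ∀ g : Q, (g : R.W) ∈ A → s g ∈ T'.gens)
    {t : ℝ} (ht : t ∈ Icc T'.z T'.z') (l : List R.W) (hl : ∀ x ∈ l, x ∈ A) :
    ∃ g : Q, (g : R.W) = l.prod ∧ R.d (P t) (s g * P t) ≤ 2 * l.length * (T'.z' - T'.z) := by
  induction l with
  | nil => exact ⟨1, rfl, by simp⟩
  | cons x l ih =>
    obtain ⟨g, h1, h2⟩ := ih fun y hy => hl y (List.mem_cons_of_mem _ hy)
    have hx : x ∈ A := hl x List.mem_cons_self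
    have hx' : x ∈ Q := hA.le (Subgroup.subset_closure hx)
    refine ⟨⟨x, hx'⟩ * g, by rw [Subgroup.coe_mul, h1, List.prod_cons], ?_⟩
    have a1 := gen_le S T' (h ⟨x, hx'⟩ hx) ht
    have a2 := LG.d_triangle (P t) (s ⟨x, hx'⟩ * P t) (s ⟨x, hx'⟩ * (s g * P t))
    have a3 := LG.d_mul_left (s ⟨x, hx'⟩) (P t) (s g * P t)
    rw [map_mul, mul_assoc, List.length_cons]
    push_cast
    linarith

end D_matchA

open D_matchA in
theorem p_D_MATCH (hD_DEFORM : S_D_DEFORM) (hD_GENQ : S_D_GENQ) (hD_SHOM : S_D_SHOM) (hD_AUT : S_D_AUT) :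
    S_D_MATCH := by
  intro R P p q S Ω c T T' N N' θ θ' H H' hQ hN hN'
  obtain ⟨M, s, m1, m2, m3, m4, m5, m6⟩ := half hD_DEFORM hD_SHOM S T T' H hN
  obtain ⟨M', s0, -, -, -, -, n5, n6⟩ := half hD_DEFORM hD_SHOM S T' T H' fun t ht => hQ.ge (hN' t ht)
  let s' : R.QJ P T.z T.z' →* R.W := s0.comp (Subgroup.inclusion hQ.ge)
  have k5 : ∀ g : R.QJ P T.z T.z', (g : R.W) ∈ R.KK P p q → s' g = g := fun g k =>
    n5 (Subgroup.inclusion hQ.ge g) k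
  have k6 : ∀ y ∈ T'.L.DS T'.V, ∀ g : R.QJ P T.z T.z', R.Mv P y.1 g (T'.L.f y).1 → s' g = θ' g :=
    fun y hy g k => n6 y hy (Subgroup.inclusion hQ.ge g) k
  have g1 := (hD_GENQ R.toLG P p q S Ω c T).1
  have g2 := (hD_GENQ R.toLG P p q S Ω c T').1.trans hQ
  have f1 : ∀ g : R.QJ P T.z T.z', (g : R.W) ∈ T.gens →
      s g ∈ T'.gens ∧ ∀ g' : R.QJ P T.z T.z', (g' : R.W) = s g → s' g' = g := by
    rintro g (k | ⟨y, hy, k⟩)
    · rw [m5 g k]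
      exact ⟨Or.inl k, fun g' e => by rw [k5 g' (e ▸ k), e]⟩
    · obtain ⟨-, a2, y', a3, a4⟩ := H.val y hy g k
      rw [m6 y hy g k]
      exact ⟨Or.inr ⟨y', a3, a4⟩, fun g' e => by rw [k6 y' a3 g' (e ▸ a4), e, a2]⟩
  have f2 : ∀ g : R.QJ P T.z T.z', (g : R.W) ∈ T'.gens →
      s' g ∈ T.gens ∧ ∀ g' : R.QJ P T.z T.z', (g' : R.W) = s' g → s g' = g := by
    rintro g (k | ⟨y, hy, k⟩)
    · rw [k5 g k]
      exact ⟨Or.inl k, fun g' e => by rw [m5 g' (e ▸ k), e]⟩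
    · obtain ⟨-, a2, y', a3, a4⟩ := H'.val y hy g k
      rw [k6 y hy g k]
      exact ⟨Or.inr ⟨y', a3, a4⟩, fun g' e => by rw [m6 y' a3 g' (e ▸ a4), e, a2]⟩
  obtain ⟨e, he⟩ := equiv g1 g2 s s' f1 f2
  obtain ⟨σ, b1, b2⟩ := hD_AUT R P T.z T.z' (lt T) (S.iso.mono T.lo T.hi) M m3 m2 e
    fun g φ u v k => (he g).trans (m4 g φ u v k)
  refine ⟨σ, b1, fun u hu v hv l hl t ht => ?_⟩
  obtain ⟨β, β', rfl, c1, c2, -⟩ := H.mv u hu
  obtain ⟨α, α', rfl, d1, d2, -⟩ := H.mv v hv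
  obtain ⟨g, e1, e2⟩ := list_le S T' g1 s (fun g k => (f1 g k).1) (memV T' d1) l hl
  rw [b2 _ (memV T hu) _ (memV T hv) g t (by rw [ht, e1]), he, m1 _ hu, m1 _ hv]
  have e3 : R.ℓ ((P β.c)⁻¹ * ((N β.c)⁻¹ * s g * N α.c) * P α.c) =
      R.d (N β.c * P β.c) (s g * (N α.c * P α.c)) := by
    rw [LG.d]
    congr 1
    group
  have e4 : R.d (N β.c * P β.c) (s g * (N α.c * P α.c)) = R.d (P β'.c) (s g * P α'.c) :=
    LG.d_congr (LG.Mv2.pt c2) ((LG.d_mul_left _ _ _).trans (LG.Mv2.pt d2))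
  have a1 := dist_le S T' (memV T' c1) (memV T' d1)
  have a2 := LG.d_triangle (P β'.c) (P α'.c) (s g * P α'.c)
  rw [e3, e4]
  linarith

end Pool.Agent.P.MP_dba3d2_lc
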