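import Pool.Agent.P.MP_dba3d2_lc.D.Iface3
import Pool.Agent.P.MP_dba3d2_lc.D.SysB
import Pool.Agent.P.MP_dba3d2_lc.D.TreeB

/-! Step D_MESH of the stability project. -/

namespace Pool.Agent.P.MP_dba3d2_lc

open Set Filter Topology

namespace D_meshA

/-- the cells of the mesh inside `C` -/
def Cl (E : Finset ℝ) (C : Set Gm) (s t : ℝ) : Prop :=
  s ∈ E ∧ t ∈ E ∧ s < t ∧ Free E s t ∧ GI s t ⊆ C

/-- the segment `[s, t]` is moved to the model -/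
def Qm (R : LG) (P P' : ℝ → R.W) (J : Set ℝ) (Hm : Gm → Gm → Prop) (ρ : R.W) (ψ : Gm)
    (s t : ℝ) : Prop :=
  (∀ x ∈ Icc s t, R.d (ρ * P x) (P' (ψ.ap x)) = 0 ∧ ψ.ap x ∈ J) ∧ ∀ β ∈ GI s t, Hm β (ψ * β)

theorem ap_mem {φ : Gm} {x y z a b : ℝ} (hz : z ∈ Icc x y) (hx : φ.ap x ∈ Icc a b)
    (hy : φ.ap y ∈ Icc a b) : φ.ap z ∈ Icc a b :=
  uIcc_subset_Icc hx hy (φ.ap_mem_uIcc.2 (Icc_subset_uIcc hz))

theorem inv_ap_mem {φ : Gm} {x y t : ℝ} (h : x ≤ y)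
    (ht : t ∈ Icc (min (φ.ap x) (φ.ap y)) (max (φ.ap x) (φ.ap y))) : φ⁻¹.ap t ∈ Icc x y := by
  rw [← uIcc_of_le h, ← φ.ap_mem_uIcc, Gm.ap_inv_ap]
  exact ht

theorem cell_of {E : Finset ℝ} {u v x y : ℝ} {γ : Gm} (hu : u ∈ E) (hv : v ∈ E)
    (h : γ ∈ GI u v) (h' : γ ∈ GI x y) (hf : Free E x y) :
    ∃ s ∈ E, ∃ t ∈ E, s < t ∧ Free E s t ∧ γ ∈ GI s t ∧ s ≤ x ∧ y ≤ t := by
  obtain ⟨s, hs, t, ht, -, st, -, k1, k2⟩ := exists_cell E.finite_toSet hu hv h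
  exact ⟨s, hs, t, ht, st, k1, k2,
    (GI_subset_iff (lt_of_mem_GI h')).1 (GI_subset_of_free hf hs ht ⟨γ, h', k2⟩)⟩

theorem free_tr {E G : Set ℝ} {φ : Gm} {x y : ℝ} (h : x ≤ y) (hG : ∀ e ∈ E, φ⁻¹.ap e ∈ G)
    (hf : Free G x y) : Free E (min (φ.ap x) (φ.ap y)) (max (φ.ap x) (φ.ap y)) := by
  intro e he k
  have k1 := inv_ap_mem h ⟨k.1.le, k.2.le⟩
  refine hf _ (hG e he) ⟨lt_of_le_of_ne k1.1 fun z => ?_, lt_of_le_of_ne k1.2 fun z => ?_⟩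
  · have e1 : φ.ap x = e := by rw [z, Gm.ap_inv_ap]
    rw [e1, min_lt_iff, lt_max_iff] at k
    rcases k with ⟨a | a, b | b⟩ <;> linarith
  · have e1 : φ.ap y = e := by rw [← z, Gm.ap_inv_ap]
    rw [e1, min_lt_iff, lt_max_iff] at k
    rcases k with ⟨a | a, b | b⟩ <;> linarith

variable {R : LG} {A : Finset R.W} {ι : Type} {S : Sys ι} {P P' : ℝ → R.W} {g : ι → R.W}
  {a : R.W → ℝ} {C : Set Gm} {J : Set ℝ} {Hm Rn : Gm → Gm → Prop}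

theorem exists_mesh (hC : CO C) (A : Finset R.W) (a : R.W → ℝ)
    (h : ∀ γ ∈ C, ∃ (ρ : R.W) (ψ : Gm), ∃ r > 0, (∀ s ∈ Icc 0 r,
      R.d (ρ * P (γ.ap s)) (P' (ψ.ap (γ.ap s))) = 0 ∧ ψ.ap (γ.ap s) ∈ J) ∧
      ∀ β ∈ seg γ r, Hm β (ψ * β)) :
    ∃ (E : Finset ℝ) (ρ : ℝ → R.W) (ψ : ℝ → Gm), (∀ w ∈ A, a w ∈ E ∧ a w + R.ℓ w ∈ E) ∧
      (∀ s t, Free E s t → GI s t ⊆ C ∨ Disjoint (GI s t) C) ∧
      ∀ s t, Cl E C s t → Qm R P P' J Hm (ρ s) (ψ s) s t := by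
  classical
  obtain ⟨E0, hE0⟩ := hC.subdiv' (Q := fun u v => ∃ ρ ψ, Qm R P P' J Hm ρ ψ u v) fun γ hγ => by
    obtain ⟨ρ, ψ, r, r0, h1, h2⟩ := h γ hγ
    refine ⟨r, r0, fun u v uv k => ⟨ρ, ψ, fun x hx => ?_, fun β hβ => h2 β (k hβ)⟩⟩
    rw [seg_eq_GI r0.le, GI_subset_iff uv, ← γ.ap_zero] at k
    simpa using h1 _ (inv_ap_mem r0.le ⟨k.1.trans hx.1, hx.2.trans k.2⟩)
  obtain ⟨E, k1, k2⟩ : ∃ E : Finset ℝ, (E0 : Set ℝ) ⊆ E ∧ ∀ w ∈ A, a w ∈ E ∧ a w + R.ℓ w ∈ E :=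
    ⟨E0 ∪ (A.image a ∪ A.image fun w => a w + R.ℓ w), Finset.coe_subset.2 Finset.subset_union_left,
      fun w hw => ⟨Finset.mem_union_right _
        (Finset.mem_union_left _ (Finset.mem_image_of_mem _ hw)),
        Finset.mem_union_right _ (Finset.mem_union_right _ (Finset.mem_image_of_mem _ hw))⟩⟩
  have k3 : ∀ s, ∃ ρ ψ, ∀ t, Cl E C s t → Qm R P P' J Hm ρ ψ s t := fun s => by
    by_cases e : ∃ t, Cl E C s t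
    · obtain ⟨t, hs, ht, st, hf, hc⟩ := e
      have m : Gm.tau s ∈ GI s t := tau_mem_GI.2 ⟨le_rfl, st⟩
      obtain ⟨⟨ρ, ψ, hq⟩, -⟩ := hE0 s t (hf.mono k1) ⟨_, m, hc m⟩
      refine ⟨ρ, ψ, fun t' ⟨_, ht', st', hf', _⟩ => ?_⟩
      rw [(cell_unique hs ht' hs ht hf' hf (tau_mem_GI.2 ⟨le_rfl, st'⟩) m).2]
      exact hq
    · exact ⟨1, 1, fun t ht => absurd ⟨t, ht⟩ e⟩
  choose ρ ψ k3 using k3
  refine ⟨E, ρ, ψ, k2, fun s t hf => ?_, k3⟩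
  rcases (GI s t ∩ C).eq_empty_or_nonempty with e | e
  · exact Or.inr (disjoint_iff_inter_eq_empty.2 e)
  · exact Or.inl (hE0 s t (hf.mono k1) e).2

theorem dom_sec (H : R.Setup P A S g a) {i : ι} {γ : Gm} (h : γ ∈ S.dom i) :
    ∃ w ∈ A, γ ∈ GI (a w) (a w + R.ℓ w) := by
  rcases H.band i with e | ⟨u, v, -, e, -, w, hw, k1, k2⟩
  · rw [e] at h; exact h.elim
  · rw [e] at h; exact ⟨w, hw, GI_mono k1 k2 h⟩

theorem dom_rl (H : R.Setup P A S g a) {i : ι} {x y : ℝ} (h : x < y) (k : GI x y ⊆ S.dom i) :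
    R.Rl P (g i) (S.φ i) x y := by
  rcases H.band i with e | ⟨u, v, -, e, hr, -⟩
  · rw [e] at k; exact (k (tau_mem_GI.2 ⟨le_rfl, h⟩)).elim
  · rw [e, GI_subset_iff h] at k
    exact fun t ht => hr t ⟨k.1.trans ht.1, ht.2.trans k.2⟩

theorem exists_pts [Fintype ι] (S : Sys ι) (E : Finset ℝ) : ∃ G : Finset ℝ, (E : Set ℝ) ⊆ G ∧
    (∀ i, ∀ e ∈ (E : Set ℝ), (S.φ i)⁻¹.ap e ∈ (G : Set ℝ)) ∧
    ∀ i u v, u < v → S.dom i = GI u v → u ∈ G ∧ v ∈ G := by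
  classical
  have k : ∀ i, ∃ B : Finset ℝ, ∀ u v, u < v → S.dom i = GI u v → u ∈ B ∧ v ∈ B := fun i => by
    by_cases e : ∃ u v, u < v ∧ S.dom i = GI u v
    · obtain ⟨u, v, uv, e⟩ := e
      refine ⟨{u, v}, fun u' v' _ e' => ?_⟩
      obtain ⟨rfl, rfl⟩ := GI_inj uv (e.symm.trans e')
      simp
    · exact ⟨∅, fun u v uv e' => absurd ⟨u, v, uv, e'⟩ e⟩
  choose B hB using k
  have m : ∀ i, E.image (S.φ i)⁻¹.ap ∪ B i ⊆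
      E ∪ Finset.univ.biUnion fun i => E.image (S.φ i)⁻¹.ap ∪ B i := fun i =>
    (Finset.subset_biUnion_of_mem (fun i => E.image (S.φ i)⁻¹.ap ∪ B i)
      (Finset.mem_univ i)).trans Finset.subset_union_right
  exact ⟨E ∪ Finset.univ.biUnion fun i => E.image (S.φ i)⁻¹.ap ∪ B i,
    Finset.coe_subset.2 Finset.subset_union_left,
    fun i e he => m i (Finset.mem_union_left _ (Finset.mem_image_of_mem _ he)),
    fun i u v uv e => ⟨m i (Finset.mem_union_right _ (hB i u v uv e).1),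
      m i (Finset.mem_union_right _ (hB i u v uv e).2)⟩⟩

/-- the move in the model that a piece of a band induces -/
theorem move (H : R.Setup P A S g a)
    (hR : ∀ γ γ' β β', S.Step γ γ' → Hm γ β → Hm γ' β' → Rn β β') {i : ι} {x y s t s' t' : ℝ}
    {ρ ρ' : R.W} {ψ ψ' : Gm} (xy : x < y) (hd : GI x y ⊆ S.dom i)
    (q : Qm R P P' J Hm ρ ψ s t) (q' : Qm R P P' J Hm ρ' ψ' s' t') (hx : x ∈ Icc s t)
    (hy : y ∈ Icc s t) (hx' : (S.φ i).ap x ∈ Icc s' t') (hy' : (S.φ i).ap y ∈ Icc s' t') :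
    min (ψ.ap x) (ψ.ap y) < max (ψ.ap x) (ψ.ap y) ∧
      (∀ z ∈ Icc (min (ψ.ap x) (ψ.ap y)) (max (ψ.ap x) (ψ.ap y)),
        z ∈ J ∧ (ψ' * S.φ i * ψ⁻¹).ap z ∈ J) ∧
      R.Rl P' (ρ' * g i * ρ⁻¹) (ψ' * S.φ i * ψ⁻¹) (min (ψ.ap x) (ψ.ap y))
        (max (ψ.ap x) (ψ.ap y)) ∧
      ∀ β ∈ GI (min (ψ.ap x) (ψ.ap y)) (max (ψ.ap x) (ψ.ap y)),
        Rn β (ψ' * S.φ i * ψ⁻¹ * β) := by
  have sub : ∀ z ∈ Icc x y, z ∈ Icc s t := fun z hz => ⟨hx.1.trans hz.1, hz.2.trans hy.2⟩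
  refine ⟨min_lt_max.2 fun e => xy.ne (ψ.ap_injective e), fun z hz => ?_, fun z hz => ?_,
    fun β hβ => ?_⟩
  · have k := inv_ap_mem xy.le hz
    refine ⟨by simpa using (q.1 _ (sub _ k)).2, ?_⟩
    rw [Gm.mul_ap, Gm.mul_ap]
    exact (q'.1 _ (ap_mem k hx' hy')).2
  · have k := inv_ap_mem xy.le hz
    have k1 := (q.1 _ (sub _ k)).1
    have k2 := dom_rl H xy hd _ k
    have k3 := (q'.1 _ (ap_mem k hx' hy')).1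
    rw [Gm.ap_inv_ap, ← LG.d_mul_left (ρ' * g i * ρ⁻¹), mul_assoc, inv_mul_cancel_left] at k1
    rw [← LG.d_mul_left ρ', ← mul_assoc] at k2
    rw [Gm.mul_ap, Gm.mul_ap]
    exact LG.d_zero_trans (LG.d_zero_trans (LG.d_zero_symm k1) k2) k3
  · rw [← tr_GI xy.le, mem_tr] at hβ
    have k1 := q.2 _ (GI_mono hx.1 hy.2 hβ)
    have k2 := q'.2 _ (mul_mem_GI (φ := S.φ i) hβ fun z hz => ap_mem hz hx' hy')
    rw [mul_inv_cancel_left] at k1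
    rw [mul_assoc, mul_assoc]
    exact hR _ _ _ _ ⟨i, hd hβ, rfl⟩ k1 k2

end D_meshA

open D_meshA in
theorem p_D_MESH :
    S_D_MESH := by
  intro R A ι _ S P g a C H hC hI P' J Hm Rn h hR
  classical
  obtain ⟨E, ρ, ψ, e1, e2, e3⟩ := exists_mesh hC A a h
  obtain ⟨G, g1, g2, g3⟩ := exists_pts S E
  obtain ⟨F, hF⟩ : ∃ F : Finset ℝ, ∀ z, z ∈ F ↔
      ∃ s t, Cl E C s t ∧ (z = (ψ s).ap s ∨ z = (ψ s).ap t) := by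
    refine ⟨((E ×ˢ E).filter fun p => Cl E C p.1 p.2).biUnion
      fun p => {(ψ p.1).ap p.1, (ψ p.1).ap p.2}, fun z => ?_⟩
    simp only [Finset.mem_biUnion, Finset.mem_filter, Finset.mem_product, Finset.mem_insert,
      Finset.mem_singleton]
    exact ⟨fun ⟨p, k1, k2⟩ => ⟨p.1, p.2, k1.2, k2⟩,
      fun ⟨s, t, k1, k2⟩ => ⟨(s, t), ⟨⟨k1.1, k1.2.1⟩, k1⟩, k2⟩⟩
  refine ⟨E, ρ, ψ, (fun p : ι × ℝ × ℝ × ℝ × ℝ => (ρ p.2.2.2.2 * g p.1 * (ρ p.2.2.2.1)⁻¹,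
      ψ p.2.2.2.2 * S.φ p.1 * (ψ p.2.2.2.1)⁻¹,
      min ((ψ p.2.2.2.1).ap p.2.1) ((ψ p.2.2.2.1).ap p.2.2.1),
      max ((ψ p.2.2.2.1).ap p.2.1) ((ψ p.2.2.2.1).ap p.2.2.1))) ''
    {p | p.2.1 ∈ G ∧ p.2.2.1 ∈ G ∧ p.2.1 < p.2.2.1 ∧ GI p.2.1 p.2.2.1 ⊆ S.dom p.1 ∧
      ∃ t t', Cl E C p.2.2.2.1 t ∧ Cl E C p.2.2.2.2 t' ∧ p.2.1 ∈ Icc p.2.2.2.1 t ∧
        p.2.2.1 ∈ Icc p.2.2.2.1 t ∧ (S.φ p.1).ap p.2.1 ∈ Icc p.2.2.2.2 t' ∧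
        (S.φ p.1).ap p.2.2.1 ∈ Icc p.2.2.2.2 t'}, F,
    ⟨e1, e2, fun s hs t ht st hf hc => ?_, fun i u v uv hd => ⟨G, fun x y ux xy yv hx hy hf => ?_⟩⟩,
    Finite.image _ ?_, fun z hz => ?_, ?_⟩
  · have c : Cl E C s t := ⟨hs, ht, st, hf, hc⟩
    exact ⟨fun x hx => ((e3 s t c).1 x hx).1, (hF _).2 ⟨s, t, c, Or.inl rfl⟩,
      (hF _).2 ⟨s, t, c, Or.inr rfl⟩⟩
  · have hx' : x ∈ G := hx.elim id fun e => e ▸ (g3 i u v uv hd).1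
    have hy' : y ∈ G := hy.elim id fun e => e ▸ (g3 i u v uv hd).2
    have m : Gm.tau x ∈ GI x y := tau_mem_GI.2 ⟨le_rfl, xy⟩
    have sub : GI x y ⊆ S.dom i := hd ▸ GI_mono ux yv
    obtain ⟨w, hw, k⟩ := dom_sec H (sub m)
    obtain ⟨w', hw', k'⟩ := dom_sec H (S.map i _ (sub m))
    obtain ⟨s, hs, t, ht, st, a1, a2, a3, a4⟩ :=
      cell_of (e1 w hw).1 (e1 w hw).2 k m (hf.mono g1)
    obtain ⟨s', hs', t', ht', st', b1, b2, b3, b4⟩ := cell_of (e1 w' hw').1 (e1 w' hw').2 k'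
      (tr_GI (φ := S.φ i) xy.le ▸ mul_mem_tr.2 m) (free_tr xy.le (g2 i) hf)
    have c1 : x ∈ Icc s t := ⟨a3, xy.le.trans a4⟩
    have c2 : y ∈ Icc s t := ⟨a3.trans xy.le, a4⟩
    have c3 : (S.φ i).ap x ∈ Icc s' t' :=
      ⟨b3.trans (min_le_left _ _), (le_max_left _ _).trans b4⟩
    have c4 : (S.φ i).ap y ∈ Icc s' t' :=
      ⟨b3.trans (min_le_right _ _), (le_max_right _ _).trans b4⟩
    refine ⟨s, hs, t, ht, s', hs', t', ht', st, a1, st', b1, c1, c2, c3, c4, ?_⟩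
    by_cases z : Gm.tau x ∈ C
    · have d1 := (e2 s t a1).resolve_right fun e => disjoint_left.1 e a2 z
      have d2 := (e2 s' t' b1).resolve_right fun e => disjoint_left.1 e b2 (hI i _ (sub m) z)
      exact Or.inr ⟨d1, d2, (i, x, y, s, s'), ⟨hx', hy', xy, sub, t, t', ⟨hs, ht, st, a1, d1⟩,
        ⟨hs', ht', st', b1, d2⟩, c1, c2, c3, c4⟩, rfl⟩
    · exact Or.inl ⟨fun e => z (e a2), fun e => z ((hI.mem_iff (sub m)).1 (e b2))⟩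
  · refine ((finite_univ (α := ι)).prod (G.finite_toSet.prod (G.finite_toSet.prod
      (E.finite_toSet.prod E.finite_toSet)))).subset ?_
    rintro p ⟨k1, k2, -, -, t, t', k3, k4, -⟩
    exact ⟨trivial, k1, k2, k3.1, k4.1⟩
  · obtain ⟨s, t, c, rfl | rfl⟩ := (hF z).1 hz
    · exact ((e3 s t c).1 s ⟨le_rfl, c.2.2.1.le⟩).2
    · exact ((e3 s t c).1 t ⟨c.2.2.1.le, le_rfl⟩).2
  · rintro _ _ _ _ ⟨⟨i, x, y, s, s'⟩, ⟨-, -, xy, hd, t, t', c, c', k1, k2, k3, k4⟩, e⟩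
    obtain ⟨rfl, rfl, rfl, rfl⟩ := e
    exact move H hR xy hd (e3 s t c) (e3 s' t' c') k1 k2 k3 k4

end Pool.Agent.P.MP_dba3d2_lc
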