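import Pool.Agent.P.MP_dba3d2_lc.D.Iface2
import Pool.Agent.P.MP_dba3d2_lc.D.SysC

/-! Step D_MINC of the stability project. -/

namespace Pool.Agent.P.MP_dba3d2_lc

open Set Filter Topology

theorem p_D_MINC (hD_IMAN : S_D_IMAN) :
    S_D_MINC := by
  intro ι _ S
  have hcl : IsClosed {γ | (S.orb γ).Infinite} := by
    have h := (S.isOpen_finite).isClosed_compl
    exact h
  have hop : IsOpen {γ | (S.orb γ).Infinite} :=
    hD_IMAN ι S _ hcl S.inv_infinite fun γ h => h
  have hco : CO {γ | (S.orb γ).Infinite} :=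
    (CO.iUnion S.co).of_subset
      (fun γ h => mem_iUnion.2 (Sys.exists_dom_of_infinite h)) hcl hop
  have hsub : ∀ γ, (S.orb γ).Infinite → closure (S.orb γ) ⊆ {γ | (S.orb γ).Infinite} := by
    intro γ h
    refine closure_minimal (fun β hβ => ?_) hcl
    have e : S.orb γ = S.orb β := Sys.Rel.orb_eq hβ
    show (S.orb β).Infinite
    rwa [← e]
  have hopen : ∀ γ, (S.orb γ).Infinite → IsOpen (closure (S.orb γ)) := fun γ h =>
    hD_IMAN ι S _ isClosed_closure (S.inv_orb γ).closure (hsub γ h)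
  refine ⟨hco, fun γ h => ⟨hco.of_subset (hsub γ h) isClosed_closure (hopen γ h),
    ⟨γ, subset_closure (Sys.Rel.refl S γ)⟩, (S.inv_orb γ).closure, hsub γ h, ?_⟩⟩
  intro β hβ
  have hb : β ∈ closure (S.orb β) := subset_closure (Sys.Rel.refl S β)
  obtain ⟨α, h1, h2⟩ := mem_closure_iff.1 hβ _ (hopen β (hsub γ h hβ)) hb
  refine closure_minimal (fun δ hδ => ?_) isClosed_closure
  exact Sys.Rel.mem ((Sys.Rel.symm h2).trans hδ) (S.inv_orb β).closure h1

end Pool.Agent.P.MP_dba3d2_lc
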