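import Pool.Agent.P.MP_dba3d2_lc.D.SysC

/-! Chapter D toolbox: the sides of an edge when the leaves are trees. -/

namespace Pool.Agent.P.MP_dba3d2_lc

open Set Filter Topology

namespace Sys

variable {ι : Type} {S : Sys ι} {i j : ι} {α β γ δ : Gm}

theorem StepX.step (h : S.StepX i γ α β) : S.Step α β := by
  obtain ⟨j, h1, h2, -⟩ := h
  exact ⟨j, h1, h2⟩
theorem StepX.symm (h : S.StepX i γ α β) : S.StepX i γ β α := by
  obtain ⟨j, h1, rfl, h3, h4⟩ := h
  refine ⟨S.inv j, S.map j α h1, (S.φ_inv_mul j α).symm, ?_, ?_⟩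
  · rintro ⟨rfl, rfl⟩
    exact h4 ⟨(S.inv_inv j).symm, (S.φ_inv_mul j α).symm⟩
  · rintro ⟨a, b⟩
    obtain rfl := S.inv_injective a
    exact h3 ⟨rfl, mul_left_cancel b⟩
theorem SideBA.symm (h : Relation.ReflTransGen (S.StepX i γ) α β) :
    Relation.ReflTransGen (S.StepX i γ) β α := by
  induction h with
  | refl => exact Relation.ReflTransGen.refl
  | tail _ k ih => exact Relation.ReflTransGen.head k.symm ih
theorem stepX_rev : S.StepX (S.inv i) (S.φ i * γ) α β ↔ S.StepX i γ α β := by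
  simp only [StepX, S.inv_inv, S.φ_inv_mul]
  exact exists_congr fun j => ⟨fun ⟨a, b, c, d⟩ => ⟨a, b, d, c⟩, fun ⟨a, b, c, d⟩ => ⟨a, b, d, c⟩⟩
theorem self_mem_side (S : Sys ι) (i : ι) (γ : Gm) : γ ∈ S.Side i γ := Relation.ReflTransGen.refl
theorem side_subset_orb (S : Sys ι) (i : ι) (γ : Gm) : S.Side i γ ⊆ S.orb γ := by
  intro β h
  induction h with
  | refl => exact Rel.refl S γ
  | tail _ k ih => exact Rel.trans ih k.step.rel
theorem side_step (h : α ∈ S.Side i γ) (k : α ∈ S.dom j) (h1 : ¬(j = i ∧ α = γ))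
    (h2 : ¬(j = S.inv i ∧ α = S.φ i * γ)) : S.φ j * α ∈ S.Side i γ := by
  exact Relation.ReflTransGen.tail h ⟨j, k, rfl, h1, h2⟩
theorem side_step_iff (k : α ∈ S.dom j) (h1 : ¬(j = i ∧ α = γ))
    (h2 : ¬(j = S.inv i ∧ α = S.φ i * γ)) : α ∈ S.Side i γ ↔ S.φ j * α ∈ S.Side i γ := by
  exact ⟨fun h => side_step h k h1 h2, fun h =>
    Relation.ReflTransGen.tail h (StepX.symm ⟨j, k, rfl, h1, h2⟩)⟩
theorem orb_eq_sides (h : γ ∈ S.dom i) :
    S.orb γ = S.Side i γ ∪ S.Side (S.inv i) (S.φ i * γ) := by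
  refine Subset.antisymm (fun β hβ => ?_) (union_subset (S.side_subset_orb i γ)
    fun β hβ => (rel_φ h).trans (S.side_subset_orb _ _ hβ))
  induction hβ with
  | refl => exact Or.inl (S.self_mem_side i γ)
  | @tail α β _ k ih =>
    obtain ⟨j, k1, rfl⟩ := k
    by_cases h1 : j = i ∧ α = γ
    · rw [h1.1, h1.2]
      exact Or.inr (S.self_mem_side _ _)
    by_cases h2 : j = S.inv i ∧ α = S.φ i * γ
    · rw [h2.1, h2.2, S.φ_inv_mul]
      exact Or.inl (S.self_mem_side _ _)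
    exact ih.imp (fun a => side_step a k1 h1 h2) fun a =>
      Relation.ReflTransGen.tail a (stepX_rev.2 ⟨j, k1, rfl, h1, h2⟩)
theorem Tree.ne (T : S.Tree) (h : γ ∈ S.dom i) : S.φ i * γ ≠ γ := by
  intro e
  exact T i γ h (by rw [e]; exact S.self_mem_side i γ)
theorem Tree.disjoint (T : S.Tree) (h : γ ∈ S.dom i) :
    Disjoint (S.Side i γ) (S.Side (S.inv i) (S.φ i * γ)) := by
  refine Set.disjoint_left.2 fun β h1 h2 => T i γ h ?_
  have e : S.StepX (S.inv i) (S.φ i * γ) = S.StepX i γ := by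
    funext a b
    exact propext stepX_rev
  have h3 : Relation.ReflTransGen (S.StepX i γ) (S.φ i * γ) β := e ▸ h2
  exact Relation.ReflTransGen.trans h1 (SideBA.symm h3)
theorem SideBA.sub (T : S.Tree) (h : γ ∈ S.dom i) (k : δ ∈ S.Side i γ) (n : γ ∉ S.Side j δ) :
    S.Side j δ ⊆ S.Side i γ := by
  intro β hβ
  induction hβ with
  | refl => exact k
  | @tail α β m1 m2 ih =>
    obtain ⟨l, l1, rfl, -⟩ := m2
    exact side_step ih l1 (fun a => n (a.2 ▸ m1)) fun a => T i γ h (a.2 ▸ ih)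
/-- different edges at a germ lead to different germs -/
theorem Tree.idx (T : S.Tree) (h : γ ∈ S.dom i) (k : γ ∈ S.dom j) (e : S.φ i * γ = S.φ j * γ) :
    i = j := by
  by_contra n
  refine T i γ h ?_
  rw [e]
  exact side_step (S.self_mem_side i γ) k (fun a => n a.1.symm) fun a => T.ne h a.2.symm
/-- the branch behind another edge at the source lies in the source side -/
theorem Tree.nest (T : S.Tree) (h : γ ∈ S.dom i) (k : γ ∈ S.dom j) (e : j ≠ i) :
    S.Side (S.inv j) (S.φ j * γ) ⊆ S.Side i γ ∧ γ ∉ S.Side (S.inv j) (S.φ j * γ) := by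
  have n : γ ∉ S.Side (S.inv j) (S.φ j * γ) :=
    Set.disjoint_left.1 (T.disjoint k) (S.self_mem_side j γ)
  exact ⟨SideBA.sub T h (side_step (S.self_mem_side i γ) k (fun a => e a.1)
    fun a => T.ne h a.2.symm) n, n⟩
theorem Tree.side_rec (T : S.Tree) (h : γ ∈ S.dom i) : β ∈ S.Side i γ ↔
    β = γ ∨ ∃ j, j ≠ i ∧ γ ∈ S.dom j ∧ β ∈ S.Side (S.inv j) (S.φ j * γ) := by
  refine ⟨fun hβ => ?_, ?_⟩
  · induction hβ with
    | refl => exact Or.inl rfl
    | @tail α β _ k ih =>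
      obtain ⟨l, k1, rfl, k2, k3⟩ := k
      by_cases a : α = γ
      · subst a
        exact Or.inr ⟨l, fun b => k2 ⟨b, rfl⟩, k1, S.self_mem_side _ _⟩
      obtain ⟨j, j1, j2, j3⟩ := ih.resolve_left a
      by_cases b : l = S.inv j ∧ α = S.φ j * γ
      · rw [b.1, b.2, S.φ_inv_mul]
        exact Or.inl rfl
      refine Or.inr ⟨j, j1, j2, side_step j3 k1 b fun c => a ?_⟩
      rw [c.2, S.φ_inv_mul]
  · rintro (rfl | ⟨j, j1, j2, j3⟩)
    · exact S.self_mem_side _ _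
    · exact (T.nest h j2 j1).1 j3
/-- one of the two sides of an edge inside a side lies in that side -/
theorem Tree.side_sub (T : S.Tree) (h : γ ∈ S.dom i) (k : β ∈ S.dom j) (hβ : β ∈ S.Side i γ)
    (e : ¬(j = i ∧ β = γ)) : S.φ j * β ∈ S.Side i γ ∧
    ((S.Side j β ⊆ S.Side i γ ∧ γ ∈ S.Side (S.inv j) (S.φ j * β)) ∨
      (S.Side (S.inv j) (S.φ j * β) ⊆ S.Side i γ ∧ γ ∈ S.Side j β)) := by
  have a : S.φ j * β ∈ S.Side i γ := side_step hβ k e fun b => T i γ h (b.2 ▸ hβ)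
  refine ⟨a, ?_⟩
  have b : γ ∈ S.orb β := Rel.symm (S.side_subset_orb i γ hβ)
  rw [orb_eq_sides k] at b
  rcases b with b | b
  · exact Or.inr ⟨SideBA.sub T h a (Set.disjoint_left.1 (T.disjoint k) b), b⟩
  · exact Or.inl ⟨SideBA.sub T h hβ (Set.disjoint_right.1 (T.disjoint k) b), b⟩
theorem Tree.am_iff [Finite ι] (T : S.Tree) : γ ∈ S.Am i ↔
    γ ∈ S.dom i ∧ ∃ j, j ≠ i ∧ γ ∈ S.dom j ∧ S.φ j * γ ∈ S.Am (S.inv j) := by
  refine ⟨fun ⟨h, k⟩ => ⟨h, ?_⟩, fun ⟨h, j, j1, j2, j3⟩ => ⟨h, j3.2.mono (T.nest h j2 j1).1⟩⟩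
  by_contra n
  refine k (((finite_singleton γ).union (Set.Finite.biUnion (toFinite {j | j ≠ i ∧ γ ∈ S.dom j})
    (t := fun j => S.Side (S.inv j) (S.φ j * γ)) fun j hj => ?_)).subset fun β hβ => ?_)
  · by_contra m
    exact n ⟨j, hj.1, hj.2, S.map j γ hj.2, m⟩
  · rcases (T.side_rec h).1 hβ with a | ⟨j, j1, j2, j3⟩
    · exact Or.inl a
    · exact Or.inr (mem_biUnion (t := fun j => S.Side (S.inv j) (S.φ j * γ))
        (show j ∈ {j | j ≠ i ∧ γ ∈ S.dom j} from ⟨j1, j2⟩) j3)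
theorem am_or (h : γ ∈ S.dom i) (k : (S.orb γ).Infinite) :
    γ ∈ S.Am i ∨ S.φ i * γ ∈ S.Am (S.inv i) := by
  rw [orb_eq_sides h, infinite_union] at k
  exact k.imp (fun a => ⟨h, a⟩) fun a => ⟨S.map i γ h, a⟩
theorem alive_rev : S.φ i * γ ∈ S.Alive (S.inv i) ↔ γ ∈ S.Alive i := by
  simp only [Alive, mem_ofPred_eq, S.inv_inv, S.φ_inv_mul]
  exact and_comm
/-- finite sides persist -/
theorem side_eventually [Finite ι] (k : (S.Side i γ).Finite) :
    ∀ᶠ α in 𝓝 γ, S.Side i α ⊆ (· * (γ⁻¹ * α)) '' S.Side i γ := by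
  have a : ∀ᶠ α in 𝓝 γ, ∀ β ∈ S.Side i γ, ∀ j, β * (γ⁻¹ * α) ∈ S.dom j → β ∈ S.dom j := by
    refine (eventually_all_finite k).2 fun β _ => eventually_all.2 fun j => ?_
    by_cases b : β ∈ S.dom j
    · exact Eventually.of_forall fun _ _ => b
    have c : IsOpen ((fun α => β * γ⁻¹ * α) ⁻¹' (S.dom j)ᶜ) :=
      (S.co j).isClosed.isOpen_compl.preimage (continuous_gm_mul _)
    filter_upwards [c.mem_nhds (x := γ) (by simpa using b)] with α h1 h2
    exact absurd h2 (by simpa [mul_assoc] using h1)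
  filter_upwards [a] with α hα δ hδ
  induction hδ with
  | refl => exact ⟨γ, S.self_mem_side i γ, by simp⟩
  | @tail δ δ' _ m ih =>
    obtain ⟨β, b1, rfl⟩ := ih
    obtain ⟨j, m1, rfl, m2, m3⟩ := m
    refine ⟨S.φ j * β, side_step b1 (hα β b1 j m1) (fun c => m2 ⟨c.1, ?_⟩)
      (fun c => m3 ⟨c.1, ?_⟩), mul_assoc _ _ _⟩
    · simp [c.2]
    · simp [c.2, mul_assoc]
theorem isClosed_am [Finite ι] (S : Sys ι) (i : ι) : IsClosed (S.Am i) := by
  refine isOpen_compl_iff.1 (isOpen_iff_mem_nhds.2 fun γ h => ?_)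
  by_cases a : γ ∈ S.dom i
  · have b : (S.Side i γ).Finite := by_contra fun b => h ⟨a, b⟩
    filter_upwards [side_eventually b] with α h1 h2
    exact h2.2 ((b.image _).subset h1)
  · filter_upwards [(S.co i).isClosed.isOpen_compl.mem_nhds a] with α h1 h2
    exact h1 h2.1
theorem isClosed_alive [Finite ι] (S : Sys ι) (i : ι) : IsClosed (S.Alive i) := by
  exact (S.isClosed_am i).inter ((S.isClosed_am (S.inv i)).preimage (continuous_gm_mul (S.φ i)))
theorem SideBA.ball (h : γ ∈ S.dom i) (n : ℕ) : ∀ α ∈ S.Side i γ, ¬S.Near n γ α →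
    ∀ β, S.Near n α β → β ∈ S.Side i γ := by
  induction n with
  | zero =>
    intro α a1 _ β b
    exact (show α = β from b) ▸ a1
  | succ n ih =>
    intro α a1 a2 β b
    rcases b with b | ⟨δ, b1, b2⟩
    · exact ih α a1 (fun c => a2 (c.mono n.le_succ)) β b
    · refine ih δ ?_ (fun c => a2 (c.tail b1.symm)) β b2
      obtain ⟨l, l1, rfl⟩ := b1
      have c0 : S.Near 0 γ γ := rfl
      refine side_step a1 l1 (fun c => a2 ?_) fun c => a2 ?_
      · rw [c.2]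
        exact c0.mono (Nat.zero_le _)
      · rw [c.2]
        exact (c0.tail ⟨i, h, rfl⟩).mono (by omega)
/-- an infinite side contains balls of every radius -/
theorem exists_ball_in_side [Finite ι] (h : γ ∈ S.Am i) (n : ℕ) :
    ∃ α ∈ S.Side i γ, ∀ β, S.Near n α β → β ∈ S.Side i γ := by
  obtain ⟨α, a1, a2⟩ := (h.2.sdiff (S.finite_near n γ)).nonempty
  exact ⟨α, a1, SideBA.ball h.1 n α a1 a2⟩

end Sys

end Pool.Agent.P.MP_dba3d2_lc
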