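import Pool.Agent.P.MP_dba3d2_lc.D.Iface2
import Pool.Agent.P.MP_dba3d2_lc.D.SideB

/-! Step D_NOISO of the stability project. -/

namespace Pool.Agent.P.MP_dba3d2_lc

open Set Filter Topology

namespace D_noisoA

variable {ι : Type} {S : Sys ι} {i : ι} {γ : Gm} {E : Set ℝ}

/-- isolated edges with infinite source side -/
def Iso (S : Sys ι) (i : ι) (γ : Gm) : Prop :=
  γ ∈ S.Am i ∧ ∃ r > 0, ∀ δ : Gm, 0 < δ.c → δ.c < r → γ * δ ∉ S.Am i

theorem back [Finite ι] (T : S.Tree) (h : Iso S i γ) :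
    ∃ j, j ≠ i ∧ γ ∈ S.dom j ∧ Iso S (S.inv j) (S.φ j * γ) := by
  obtain ⟨h1, r, r0, h2⟩ := h
  obtain ⟨h3, j, a1, a2, a3⟩ := T.am_iff.1 h1
  obtain ⟨r1, p1, k1⟩ := isOpen_gm.1 (S.co i).2 γ h3
  refine ⟨j, a1, a2, a3, min r r1, lt_min r0 p1, fun δ x y z => ?_⟩
  rw [mul_assoc] at z
  exact h2 δ x (y.trans_le (min_le_left _ _)) (T.am_iff.2
    ⟨k1 δ x (y.trans_le (min_le_right _ _)), j, a1, Sys.mem_dom_inv.1 z.1, z⟩)

/-- the obstacles ahead of a germ -/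
def Ob (S : Sys ι) (E : Set ℝ) (i : ι) (γ : Gm) : Set ℝ :=
  {s | 0 < s ∧ (γ.ap s ∈ E ∨ ∃ δ : Gm, δ.c = s ∧ γ * δ ∈ S.Am i)}

theorem least [Finite ι] (hE : E.Finite) {a b : ℝ} (ha : a ∈ E) (hb : b ∈ E) (hγ : γ ∈ GI a b)
    (h : Iso S i γ) : ∃ g, IsLeast (Ob S E i γ) g := by
  obtain ⟨-, r, r0, h2⟩ := h
  have f1 : (γ.ap ⁻¹' E).Finite := hE.preimage γ.ap_injective.injOn
  obtain ⟨r1, p1, -, k1, -⟩ := exists_free f1 0
  have c1 : IsCompact (S.Am i) :=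
    (S.co i).1.of_isClosed_subset (S.isClosed_am i) fun _ h => h.1
  have c2 : IsCompact ((γ.ap ⁻¹' E ∪ Gm.c '' tr γ⁻¹ (S.Am i)) ∩ Ici (min r r1)) :=
    (f1.isCompact.union ((isCompact_tr c1).image continuous_c)).inter_right isClosed_Ici
  have e : Ob S E i γ = (γ.ap ⁻¹' E ∪ Gm.c '' tr γ⁻¹ (S.Am i)) ∩ Ici (min r r1) := by
    ext s
    constructor
    · rintro ⟨s0, k | ⟨δ, rfl, k⟩⟩
      · exact ⟨Or.inl k, (min_le_right _ _).trans (not_lt.1 fun l : s < r1 => k1 s k ⟨s0, by linarith⟩)⟩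
      · exact ⟨Or.inr ⟨δ, by simpa [tr] using k, rfl⟩,
          (min_le_left _ _).trans (not_lt.1 fun l => h2 δ s0 l k)⟩
    · rintro ⟨k, s0⟩
      refine ⟨(lt_min r0 p1).trans_le s0, k.imp id ?_⟩
      rintro ⟨δ, k', rfl⟩
      exact ⟨δ, rfl, by simpa [tr] using k'⟩
  refine (e ▸ c2).exists_isLeast ?_
  rcases γ.h with k | k
  · exact ⟨b - γ.c, sub_pos.2 ((mem_GI_pos k).1 hγ).2, Or.inl (by simpa [Gm.ap, k] using hb)⟩
  · exact ⟨γ.c - a, sub_pos.2 ((mem_GI_neg k).1 hγ).1, Or.inl (by simpa [Gm.ap, k] using ha)⟩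

theorem seg_sub {U : Set Gm} {g : ℝ} (hU : ∀ u v, Free E u v → GI u v ⊆ U ∨ Disjoint (GI u v) U)
    (g0 : 0 < g) (h : ∀ s, 0 < s → s < g → γ.ap s ∉ E) (hγ : γ ∈ U) : seg γ g ⊆ U := by
  have h1 := self_mem_seg (γ := γ) g0
  rcases γ.h with k | k
  · rw [seg_pos k] at h1 ⊢
    refine (hU _ _ fun t ht l => ?_).resolve_right fun d => disjoint_left.1 d h1 hγ
    exact h (t - γ.c) (by linarith [l.1]) (by linarith [l.2]) (by simpa [Gm.ap, k] using ht)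
  · rw [seg_neg k] at h1 ⊢
    refine (hU _ _ fun t ht l => ?_).resolve_right fun d => disjoint_left.1 d h1 hγ
    exact h (γ.c - t) (by linarith [l.2]) (by linarith [l.1]) (by simpa [Gm.ap, k] using ht)

end D_noisoA

open D_noisoA in
theorem p_D_NOISO :
    S_D_NOISO := by
  intro ι _ S T i0 γ0 h0 r0 hr0
  by_contra hn
  have I0 : Iso S i0 γ0 := ⟨h0, r0, hr0, fun δ x y z => hn ⟨δ, x, y, z⟩⟩
  obtain ⟨E, e1, -, a, ha, b, hb, -, e3⟩ := exists_ends S.co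
  choose J j1 j2 j3 using fun x : {x : ι × Gm // Iso S x.1 x.2} => back T x.2
  obtain ⟨x, hx⟩ : ∃ x : ℕ → {x : ι × Gm // Iso S x.1 x.2},
      ∀ n, (x (n + 1)).1 = (S.inv (J (x n)), S.φ (J (x n)) * (x n).1.2) :=
    ⟨fun n => Nat.rec ⟨(i0, γ0), I0⟩ (fun _ y => ⟨(_, _), j3 y⟩) n, fun _ => rfl⟩
  obtain ⟨i, γ, j, h1, h2, h3, h4, h5⟩ : ∃ (i : ℕ → ι) (γ : ℕ → Gm) (j : ℕ → ι),
      (∀ n, Iso S (i n) (γ n)) ∧ (∀ n, j n ≠ i n) ∧ (∀ n, γ n ∈ S.dom (j n)) ∧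
      (∀ n, i (n + 1) = S.inv (j n)) ∧ ∀ n, γ (n + 1) = S.φ (j n) * γ n :=
    ⟨fun n => (x n).1.1, fun n => (x n).1.2, fun n => J (x n), fun n => (x n).2, fun n => j1 _,
      fun n => j2 _, fun n => congrArg Prod.fst (hx n), fun n => congrArg Prod.snd (hx n)⟩
  clear hx x j1 j2 j3 J
  have nest : ∀ n, S.Side (i (n + 1)) (γ (n + 1)) ⊆ S.Side (i n) (γ n) ∧
      γ n ∉ S.Side (i (n + 1)) (γ (n + 1)) := fun n => by
    rw [h4, h5]
    exact T.nest (h1 n).1.1 (h3 n) (h2 n)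
  have anti : Antitone fun n => S.Side (i n) (γ n) := antitone_nat_of_succ_le fun n => (nest n).1
  have inj : Function.Injective γ := Function.Injective.of_lt_imp_ne fun n m l e =>
    (nest n).2 (anti (show n + 1 ≤ m from l) (e ▸ S.self_mem_side (i m) (γ m)))
  choose g hg using fun n => least E.finite_toSet ha hb (e3 _ (h1 n).1.1) (h1 n)
  have key : ∀ n m, i n = i m → 0 < (γ m).ε * ((γ n).c - (γ m).c) →
      g m ≤ (γ m).ε * ((γ n).c - (γ m).c) := fun n m e l =>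
    (hg m).2 ⟨l, Or.inr ⟨(γ m)⁻¹ * γ n, by simp; ring, by simpa [← e] using (h1 n).1⟩⟩
  have pig : ∀ (X : Set ℕ) (κ : Type) (f : ℕ → κ) (K : Set κ), K.Finite → MapsTo f X K →
      (∀ n ∈ X, ∀ m ∈ X, f n = f m → (γ n).ε = (γ m).ε →
        (γ m).ε * ((γ n).c - (γ m).c) < g m) → X.Finite := by
    intro X κ f K hK hf H
    by_contra hX
    obtain ⟨n, hn, m, hm, ne, e⟩ := Set.Infinite.exists_ne_map_eq_of_mapsTo hX
      (f := fun n => (i n, (γ n).ε, f n)) (t := univ ×ˢ ({1, -1} : Set ℝ) ×ˢ K)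
      (fun n hn => ⟨trivial, (γ n).h, hf hn⟩) (finite_univ.prod ((toFinite _).prod hK))
    obtain ⟨k1, k2, k3⟩ : i n = i m ∧ (γ n).ε = (γ m).ε ∧ f n = f m := by simpa using e
    rcases lt_trichotomy 0 ((γ m).ε * ((γ n).c - (γ m).c)) with l | l | l
    · exact (key n m k1 l).not_gt (H n hn m hm k3 k2)
    · exact ne (inj (Gm.ext k2 (sub_eq_zero.1 ((mul_eq_zero.1 l.symm).resolve_left (γ m).eps_ne))))
    · exact (key m n k1.symm (by rw [k2]; linarith)).not_gt (H m hm n hn k3.symm k2.symm)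
  have fa : {n | (γ n).ap (g n) ∈ E}.Finite := by
    refine pig _ ℝ (fun n => (γ n).ap (g n)) E E.finite_toSet (fun n hn => hn)
      fun n _ m _ k1 k2 => ?_
    have := (hg n).1.1
    simp only [Gm.ap, k2] at k1
    rcases (γ m).h with k | k <;> rw [k] at k1 ⊢ <;> linarith
  obtain ⟨N, hN⟩ := fa.bddAbove
  have mono : ∀ n, N ≤ n → g n ≤ g (n + 1) := by
    intro n hn
    by_contra l
    rw [not_le] at l
    obtain ⟨g0, k | ⟨δ, k1, k2⟩⟩ := (hg (n + 1)).1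
    · exact absurd (hN k) (by omega)
    rw [h4, h5, mul_assoc] at k2
    rw [← k1] at l g0
    have d : γ n * δ ∈ S.dom (i n) :=
      seg_sub (e1 (i n)) (hg n).1.1 (fun s s0 s1 k => s1.not_ge ((hg n).2 ⟨s0, Or.inl k⟩))
        (h1 n).1.1 (mul_mem_seg.2 (mem_GI_of_Ioo g0 l))
    exact l.not_ge ((hg n).2 ⟨g0, Or.inr ⟨δ, rfl,
      T.am_iff.2 ⟨d, j n, h2 n, Sys.mem_dom_inv.1 k2.1, k2⟩⟩⟩)
  have low : ∀ n, N ≤ n → g N ≤ g n := fun n hn => by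
    induction n, hn using Nat.le_induction with
    | base => exact le_rfl
    | succ n hn ih => exact ih.trans (mono n hn)
  have g0 := (hg N).1.1
  refine Set.Ici_infinite N (pig _ ℤ (fun n => ⌊(γ n).c / g N⌋) (Icc ⌊a / g N⌋ ⌊b / g N⌋)
    (finite_Icc _ _) (fun n _ => ?_) fun n _ m hm k1 _ => ?_)
  · have := c_mem_of_GI (e3 _ (h1 n).1.1)
    exact ⟨Int.floor_mono (by gcongr; exact this.1), Int.floor_mono (by gcongr; exact this.2)⟩
  · have := Int.abs_sub_lt_one_of_floor_eq_floor k1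
    rw [← sub_div, abs_div, abs_of_pos g0, div_lt_one g0] at this
    refine (le_abs_self _).trans_lt ?_
    rw [abs_mul, Gm.abs_eps, one_mul]
    exact this.trans_le (low m hm)

end Pool.Agent.P.MP_dba3d2_lc
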