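import Pool.Agent.P.MP_dba3d2_lc.D.Iface2
import Pool.Agent.P.MP_dba3d2_lc.D.LsB

/-! Step D_ONE of the stability project. -/

namespace Pool.Agent.P.MP_dba3d2_lc

open Set Filter Topology

theorem p_D_ONE (hD_LP : S_D_LP) (hD_TREE : S_D_TREE) (hD_DICH : S_D_DICH) (hD_SURF1 : S_D_SURF1) (hD_SURF2 : S_D_SURF2) (hD_RET : S_D_RET) :
    S_D_ONE := by
  intro A hA ι _ S p q hin hmin hw
  obtain ⟨z, κ, _, T, hz, ⟨hzq, tin, tint, trel⟩, tno, ttot⟩ := hD_LP A hA ι S p q hin hmin hw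
  have tmin : T.Min (GI z q) := hmin.of_rel co_GI (GI_nonempty.2 hzq) (GI_mono hz le_rfl) tin
    fun γ hγ β hβ k => (trel γ hγ β hβ).2 k
  have htot : T.tot ≤ 2 * mu (GI z q) := by rw [mu_GI hzq.le, ttot]
  have ttree := hD_TREE κ T _ co_GI tin tmin.inf htot
  rcases hD_DICH κ T _ tin tmin htot ttree with hth | hal
  · exact ⟨z, q, hz, hzq, le_rfl, Or.inl ⟨κ, inferInstance, T, tin, hA.arcs_of_intv tint, tno, hth,
      fun γ hγ β hβ k => (trel γ hγ β hβ).2 k⟩⟩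
  · obtain ⟨Y, T', yco, yne, ysub, hsub, yin, y2, yrel⟩ := hD_SURF1 κ T _ tin tmin htot ttree hal
    obtain ⟨L0, l1, l2⟩ := hD_SURF2 κ T' Y yin (tmin.of_rel yco yne ysub yin yrel)
      (hsub.tree ttree) y2
    have w0 : L0.Weak A := fun y hy => by
      obtain ⟨i, hi, e⟩ := l1 y hy
      rw [e]
      exact hsub.weak tint.weak i _ hi
    obtain ⟨a, b, hab, hGI⟩ := exists_GI_subset yco.2 yne
    have hb := (GI_subset_iff hab).1 (hGI.trans ysub)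
    obtain ⟨L, hL⟩ := hD_RET Y (GI a b) L0 co_GI (GI_nonempty.2 hab) hGI
    refine ⟨a, b, hz.trans hb.1, hab, hb.2, Or.inr ⟨L, hL.weak hA w0, fun γ hγ β hβ => ?_⟩⟩
    rw [hL.rel hγ hβ, ← trel γ (ysub (hGI hγ)) β (ysub (hGI hβ))]
    exact ⟨fun k => hsub.rel (L0.rel_sys (fun y hy => (l1 y hy).rel) (hGI hγ) k),
      fun k => l2 γ (hGI hγ) β (yrel γ (hGI hγ) β (hGI hβ) k)⟩

end Pool.Agent.P.MP_dba3d2_lc
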