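import Pool.Agent.P.MP_dba3d2_lc.D.Iface4
import Pool.Agent.P.MP_dba3d2_lc.D.T0B

/-! Step D_OUT3 of the stability project. -/

namespace Pool.Agent.P.MP_dba3d2_lc

open Set Filter Topology Monoid

namespace D_out3A

theorem chain_len {G : LG} (f : ℝ → G.W) (E : Finset ℝ) {u v : ℝ} (hu : u ∈ E) (hv : v ∈ E)
    (huv : u ≤ v) (ψ : ℝ → ℝ)
    (h : ∀ s ∈ E, ∀ t ∈ E, u ≤ s → s < t → t ≤ v → Free E s t → G.d (f s) (f t) ≤ ψ t - ψ s) :
    G.d (f u) (f v) ≤ ψ v - ψ u := by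
  refine chain_ind (Q := fun a b => G.d (f a) (f b) ≤ ψ b - ψ a) E.finite_toSet huv (by simp) ?_
  intro s t h1 h2 h3 h4 h5 h6 h7
  have := h s (h4.elim id fun e => e ▸ hu) t (h5.elim id fun e => e ▸ hv) h1 h2 h3 h6
  linarith [LG.d_triangle (f u) (f s) (f t)]

theorem card_step (E : Finset ℝ) {s t : ℝ} (ht : t ∈ E) (h : s < t) :
    ((E.filter (· ≤ s)).card : ℝ) + 1 ≤ (E.filter (· ≤ t)).card := by
  have : (E.filter (· ≤ s)).card < (E.filter (· ≤ t)).card := by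
    refine Finset.card_lt_card ⟨fun x hx => ?_, fun k => ?_⟩
    · rw [Finset.mem_filter] at hx ⊢
      exact ⟨hx.1, hx.2.trans h.le⟩
    · exact absurd (Finset.mem_filter.1 (k (Finset.mem_filter.2 ⟨ht, le_rfl⟩))).2 (not_le.2 h)
  exact_mod_cast this

variable {R : RT} {P : ℝ → R.W} {p q : ℝ}

theorem exists_F (E : Finset ℝ) : ∃ F : Finset ℝ, (∀ t ∈ F, t ∈ Icc p q) ∧ ∀ s ∈ E, ∀ t ∈ E,
    R.JA P p q (P s) (P t) →
      ∃ w, ∃ u ∈ F, ∃ v ∈ F, R.d (P s) (w * P u) = 0 ∧ R.d (P t) (w * P v) = 0 := by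
  classical
  have h : ∀ z : ℝ × ℝ, ∃ F : Finset ℝ, (∀ t ∈ F, t ∈ Icc p q) ∧ (R.JA P p q (P z.1) (P z.2) →
      ∃ w, ∃ u ∈ F, ∃ v ∈ F, R.d (P z.1) (w * P u) = 0 ∧ R.d (P z.2) (w * P v) = 0) := by
    intro z
    by_cases k : R.JA P p q (P z.1) (P z.2)
    · obtain ⟨w, u, hu, v, hv, k⟩ := k
      exact ⟨{u, v}, by simpa using ⟨hu, hv⟩, fun _ => ⟨w, u, by simp, v, by simp, k⟩⟩
    · exact ⟨∅, by simp, fun e => (k e).elim⟩
  choose F h1 h2 using h
  refine ⟨(E ×ˢ E).biUnion F, fun t ht => ?_, fun s hs t ht k => ?_⟩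
  · obtain ⟨z, -, hz⟩ := Finset.mem_biUnion.1 ht
    exact h1 z t hz
  · obtain ⟨w, u, hu, v, hv, k⟩ := h2 (s, t) k
    have m : (s, t) ∈ E ×ˢ E := Finset.mem_product.2 ⟨hs, ht⟩
    exact ⟨w, u, Finset.mem_biUnion.2 ⟨_, m, hu⟩, v, Finset.mem_biUnion.2 ⟨_, m, hv⟩, k⟩

variable {A : Finset R.W} {a : R.W → ℝ} {E : Finset ℝ} {k : ℕ} {y : Fin k → R.W}
  {n : ℝ → Coprod (R.T0 P p q) (FreeGroup (Fin k))}

/-- the value of a cell retracts to the arc -/
theorem cell_ret (hv : R.Vals P A a p q E y n) {s t : ℝ} (hs : s ∈ E) (ht : t ∈ E) (h : s < t)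
    (hf : Free E s t) (hA : GI s t ⊆ R.secs a A) :
    Coprod.lift (R.T0 P p q).subtype (FreeGroup.lift y) ((n s)⁻¹ * n t) = (P s)⁻¹ * P t := by
  by_cases c : R.JA P p q (P s) (P t) ∨ R.Fr P p q (P s) (P t)
  · obtain ⟨x, h1, h2⟩ := hv.arc s hs t ht h hf hA c
    rw [h2, Coprod.lift_apply_inl, ← h1]
    rfl
  · obtain ⟨i, z, z', s', t', h1, -, -, -, h2, h3⟩ := hv.lett s hs t ht h hf hA c
    have e : Coprod.lift (R.T0 P p q).subtype (FreeGroup.lift y) ((n s')⁻¹ * n t') =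
        (P s')⁻¹ * P t' := by
      rw [h3, h2]
      simp
    rcases h1 with ⟨rfl, rfl⟩ | ⟨rfl, rfl⟩
    · exact e
    · have := congrArg (·⁻¹) e
      simpa using this

/-- the length of a cell -/
theorem cell_len (hv : R.Vals P A a p q E y n) {G : LG} (j : R.T0 P p q →* G.W) (u : Fin k → G.W)
    (hj : ∀ z : R.T0 P p q, R.ℓ z = 0 → G.ℓ (j z) = 0) (hu : ∀ i, G.ℓ (u i) ≤ R.ℓ (y i))
    {s t c : ℝ} (hs : s ∈ E) (ht : t ∈ E) (h : s < t) (hf : Free E s t)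
    (hA : GI s t ⊆ R.secs a A)
    (h1 : ¬(R.JA P p q (P s) (P t) ∨ R.Fr P p q (P s) (P t)) → t - s ≤ c)
    (h2 : R.JA P p q (P s) (P t) ∨ R.Fr P p q (P s) (P t) → ∀ x : R.T0 P p q,
      (x : R.W) = (P s)⁻¹ * P t → G.ℓ (j x) ≤ c) :
    G.d (Coprod.lift j (FreeGroup.lift u) (n s)) (Coprod.lift j (FreeGroup.lift u) (n t)) ≤ c := by
  have e : ∀ s t, G.d (Coprod.lift j (FreeGroup.lift u) (n s))
      (Coprod.lift j (FreeGroup.lift u) (n t)) =
        G.ℓ (Coprod.lift j (FreeGroup.lift u) ((n s)⁻¹ * n t)) := fun s t => by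
    rw [map_mul, map_inv]; rfl
  by_cases c : R.JA P p q (P s) (P t) ∨ R.Fr P p q (P s) (P t)
  · obtain ⟨x, k1, k2⟩ := hv.arc s hs t ht h hf hA c
    rw [e, k2, Coprod.lift_apply_inl]
    exact h2 c x k1
  · obtain ⟨i, z, z', s', t', k1, k2, k3, k4, -, k5⟩ := hv.lett s hs t ht h hf hA c
    have e' : G.d (Coprod.lift j (FreeGroup.lift u) (n s'))
        (Coprod.lift j (FreeGroup.lift u) (n t')) ≤ t - s := by
      rw [e, k5, map_mul, map_mul, Coprod.lift_apply_inl, Coprod.lift_apply_inl,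
        Coprod.lift_apply_inr, FreeGroup.lift_apply_of, LG.l_mul_tiny _ (hj z' k3),
        LG.l_tiny_mul (hj z k2), ← k4]
      exact hu i
    refine le_trans ?_ (h1 c)
    rcases k1 with ⟨rfl, rfl⟩ | ⟨rfl, rfl⟩
    · exact e'
    · rwa [LG.d_comm]

end D_out3A

open D_out3A in
theorem p_D_OUT3 (hD_EXT : S_D_EXT) (hD_PART : S_D_PART) (hD_IOTA : S_D_IOTA) :
    S_D_OUT3 := by
  classical
  intro R M A k x ι _ S P g a p q H hx hP hnp hgm ⟨i0, γ, hγ, hinf, β, hβ, hrel⟩ hS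
  obtain ⟨E, EG, r, hpt⟩ := hD_PART R A ι S P g a p q H hP
  obtain ⟨kk, y, n, hv, hio⟩ := hD_IOTA R A ι S P g a p q E EG r H hP hnp hpt
  have frM : ∀ m ∈ M, R.Fr P p q 1 m := fun m hm => R.fr_of_not_hgm hP hgm
    ⟨1, m, hm, LG.on_left _ _, by rw [one_mul]; exact LG.on_right _ _⟩
  have sub : ∀ w ∈ A, ∀ s t, a w ≤ s → t ≤ a w + R.ℓ w → GI s t ⊆ R.secs a A :=
    fun w hw s t h1 h2 α hα => ⟨w, hw, GI_mono h1 h2 hα⟩
  have le0 : ∀ w, a w ≤ a w + R.ℓ w := fun w => le_add_of_nonneg_right (LG.l_nonneg w)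
  have dist : ∀ w ∈ A, ∀ s t, a w ≤ s → s < t → t ≤ a w + R.ℓ w → R.ℓ ((P s)⁻¹ * P t) = t - s :=
    fun w hw s t h1 h2 h3 => by
      have := H.iso w hw s ⟨h1, h2.le.trans h3⟩ t ⟨h1.trans h2.le, h3⟩
      rwa [abs_sub_comm, abs_of_pos (sub_pos.2 h2)] at this
  obtain ⟨s0, hs0, t0, ht0, a1, a2, a3, a4, a5⟩ := exists_cell E.finite_toSet
    (hpt.ends _ (hx i0)).1 (hpt.ends _ (hx i0)).2 hγ
  have ja0 : R.JA P p q (P s0) (P t0) := by
    rcases hpt.cell s0 hs0 t0 ht0 a2 a4 (sub _ (hx i0) _ _ a1 a3) with ⟨γ', h1, h2⟩ | h | h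
    · exact (hinf (hpt.fam.sub γ' h1 γ (h2 ▸ a5)).2).elim
    · exact h
    · obtain ⟨w, hw⟩ := H.mv_of_rel hrel
      exact ((R.fr_iff hP (H.iso _ (hx i0)) a1 a2.le a3).1 h γ a5 w β hβ hw).elim
  obtain ⟨F, hF, hF'⟩ := exists_F (R := R) (P := P) (p := p) (q := q) E
  obtain ⟨η, η0, hη⟩ : ∃ η : ℝ, 0 < η ∧ k * (η * E.card) ≤ (t0 - s0) / 2 := by
    have h0 : (0 : ℝ) < k * E.card + 1 := by positivity
    refine ⟨(t0 - s0) / 2 / (k * E.card + 1), div_pos (by linarith) h0, ?_⟩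
    rw [mul_comm _ (E.card : ℝ), ← mul_assoc, ← mul_div_assoc, div_le_iff₀ h0]
    nlinarith
  obtain ⟨σ, hσ, hσ'⟩ := hS F η η0 hF
  let j0 : R.W → Coprod (R.T0 P p q) (FreeGroup (Fin kk)) := fun w =>
    if h : w ∈ R.T0 P p q then Coprod.inl ⟨w, h⟩ else 1
  have io0 : ∀ w (h : R.ℓ w = 0), R.io a j0 n w = Coprod.inl ⟨w, LG.tiny_mem_T0 h⟩ := fun w h => by
    rw [LG.io, if_pos h]; exact dif_pos _
  have io1 : ∀ w, R.ℓ w ≠ 0 → R.io a j0 n w = (n (a w))⁻¹ * n (a w + R.ℓ w) := fun w h => by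
    rw [LG.io, if_neg h]
  have pos : ∀ w, R.ℓ w ≠ 0 → 0 < R.ℓ w := fun w h => (LG.l_nonneg w).lt_of_ne' h
  refine ⟨R.T0 P p q, σ, kk, y, R.io a j0 n, (t0 - s0) / 2, by linarith,
    fun m hm => Subgroup.subset_closure (Or.inr (frM m hm)), (hD_EXT R P p q hP).1,
    fun t ht => hσ t (ht.elim (frM _) LG.fr_tiny), hv.np, fun w hw => ?_, fun G j u hu => ?_⟩
  · by_cases h : R.ℓ w = 0
    · rw [io0 w h, Coprod.lift_apply_inl]; rfl
    rw [io1 w h]
    have := chain_ind (Q := fun s t => Coprod.lift (R.T0 P p q).subtype (FreeGroup.lift y)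
      ((n s)⁻¹ * n t) = (P s)⁻¹ * P t) E.finite_toSet (le0 w) (by simp) (by
        intro s t h1 h2 h3 h4 h5 h6 h7
        have h8 := cell_ret hv (h4.elim id fun e => e ▸ (hpt.ends w hw).1)
          (h5.elim id fun e => e ▸ (hpt.ends w hw).2) h2 h6 (sub w hw _ _ h1 h3)
        have e : (n (a w))⁻¹ * n t = (n (a w))⁻¹ * n s * ((n s)⁻¹ * n t) := by group
        rw [e, map_mul, h7, h8]
        group)
    rw [this, H.start w hw (pos w h), H.stop w hw (pos w h), inv_one, one_mul]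
  refine ⟨fun w hw w' hw' hww => ?_, fun t ht htM => ?_, fun hj hu' => ?_⟩
  · let j' : R.W → G.W := fun w => if h : w ∈ R.T0 P p q then j ⟨w, h⟩ else 1
    have hj' : ∀ z : R.T0 P p q, j' z = j z := fun z => dif_pos z.2
    have e : ∀ w, Coprod.lift j (FreeGroup.lift u) (R.io a j0 n w) =
        R.io a j' (fun t => Coprod.lift j (FreeGroup.lift u) (n t)) w := fun w => by
      by_cases h : R.ℓ w = 0
      · rw [io0 w h, Coprod.lift_apply_inl, LG.io, if_pos h]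
        exact (hj' ⟨w, _⟩).symm
      · rw [io1 w h, LG.io, if_neg h, map_mul, map_inv]
    rw [e, e, e]
    refine H.tri G.W j' _ (fun z z' h h' => ?_) (hio G.W j u hu j' _ hj' fun _ => rfl)
      w hw w' hw' hww
    have := hj' (⟨z, LG.tiny_mem_T0 h⟩ * ⟨z', LG.tiny_mem_T0 h'⟩)
    rw [map_mul, ← hj', ← hj'] at this
    exact this
  · by_cases h : R.ℓ t = 0
    · rw [io0 _ h, Coprod.lift_apply_inl]
    have hM := frM _ (htM.resolve_right h)
    obtain ⟨x', h1, h2⟩ := chain_ind (Q := fun s s' => ∃ x' : R.T0 P p q,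
      (x' : R.W) = (P s)⁻¹ * P s' ∧ (n s)⁻¹ * n s' = Coprod.inl x') E.finite_toSet (le0 t)
      ⟨1, by simp, by simp⟩ (by
        rintro s s' h1 h2 h3 h4 h5 h6 ⟨x1, h7, h8⟩
        obtain ⟨x2, h9, h10⟩ := hv.arc s (h4.elim id fun e => e ▸ (hpt.ends _ ht).1) s'
          (h5.elim id fun e => e ▸ (hpt.ends _ ht).2) h2 h6 (sub _ ht _ _ h1 h3)
          (Or.inr (R.fr_sub hM (H.on_sec ht (pos _ h) ⟨h1, h2.le.trans h3⟩)
            (H.on_sec ht (pos _ h) ⟨h1.trans h2.le, h3⟩)))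
        refine ⟨x1 * x2, ?_, ?_⟩
        · rw [Subgroup.coe_mul, h7, h9]; group
        · rw [map_mul, ← h8, ← h10]; group)
    rw [H.start _ ht (pos _ h), H.stop _ ht (pos _ h), inv_one, one_mul] at h1
    rw [io1 _ h, h2, Coprod.lift_apply_inl, Subtype.ext h1]
  have e : ∀ (jj : R.T0 P p q →* G.W) w, R.ℓ w ≠ 0 →
      G.ℓ (Coprod.lift jj (FreeGroup.lift u) (R.io a j0 n w)) =
        G.d (Coprod.lift jj (FreeGroup.lift u) (n (a w)))
          (Coprod.lift jj (FreeGroup.lift u) (n (a w + R.ℓ w))) := fun jj w h => by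
    rw [io1 w h, map_mul, map_inv]; rfl
  have tiny : ∀ z : R.T0 P p q, R.ℓ z = 0 → G.ℓ (j z) = 0 := fun z h =>
    le_antisymm (h ▸ hj z) (LG.l_nonneg _)
  refine ⟨fun w hw => ?_, ?_⟩
  · by_cases h : R.ℓ w = 0
    · rw [io0 _ h, Coprod.lift_apply_inl]
      exact hj ⟨w, _⟩
    rw [e j w h]
    refine (chain_len (fun t => Coprod.lift j (FreeGroup.lift u) (n t)) E (hpt.ends w hw).1
      (hpt.ends w hw).2 (le0 w) id fun s hs t ht h1 h2 h3 h4 => ?_).trans (by simp)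
    exact cell_len hv j u tiny hu' hs ht h2 h4 (sub w hw _ _ h1 h3) (fun _ => le_rfl)
      fun _ x' hx' => (hj x').trans (by rw [hx', dist w hw s t h1 h2 h3]; rfl)
  have tiny' : ∀ z : R.T0 P p q, R.ℓ z = 0 → G.ℓ (j.comp σ.toMonoidHom z) = 0 := fun z h => by
    change G.ℓ (j (σ z)) = 0
    rw [hσ z (LG.fr_tiny h)]
    exact tiny z h
  have short : ∀ s ∈ E, ∀ t ∈ E, R.JA P p q (P s) (P t) → ∀ x' : R.T0 P p q,
      (x' : R.W) = (P s)⁻¹ * P t → G.ℓ (j.comp σ.toMonoidHom x') ≤ η := by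
    intro s hs t ht h x' hx'
    obtain ⟨w, b, hb, c, hc, h1, h2⟩ := hF' s hs t ht h
    have h2' : R.ℓ ((w * P c)⁻¹ * P t) = 0 := LG.d_zero_symm h2
    have h1' : R.ℓ ((P s)⁻¹ * (w * P b)) = 0 := h1
    have e' : x' = ⟨_, LG.tiny_mem_T0 h1'⟩ * ⟨_, LG.path_mem_T0 (hF b hb) (hF c hc)⟩ *
        ⟨_, LG.tiny_mem_T0 h2'⟩ := Subtype.ext (by rw [hx']; simp [mul_assoc])
    rw [e', map_mul, map_mul, LG.l_mul_tiny _ (tiny' _ h2'), LG.l_tiny_mul (tiny' ⟨_, LG.tiny_mem_T0 h1'⟩ h1')]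
    exact (hj _).trans (hσ' b hb c hc _ rfl)
  have long : ∀ w ∈ A, ∀ s ∈ E, ∀ t ∈ E, a w ≤ s → s < t → t ≤ a w + R.ℓ w → Free E s t →
      G.d (Coprod.lift (j.comp σ.toMonoidHom) (FreeGroup.lift u) (n s))
        (Coprod.lift (j.comp σ.toMonoidHom) (FreeGroup.lift u) (n t)) ≤ t - s + η := by
    intro w hw s hs t ht h1 h2 h3 h4
    refine cell_len hv _ u tiny' hu' hs ht h2 h4 (sub w hw _ _ h1 h3) (fun _ => by linarith)
      fun c x' hx' => ?_
    rcases c with c | c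
    · linarith [short s hs t ht c x' hx']
    · have c' := (LG.fr_mul_left (P s)⁻¹).2 c
      rw [inv_mul_cancel, ← hx'] at c'
      change G.ℓ (j (σ x')) ≤ _
      rw [hσ x' c']
      have := hj x'
      rw [hx', dist w hw s t h1 h2 h3] at this
      linarith
  have cb : ∀ s t : ℝ, η * ((E.filter (· ≤ t)).card : ℝ) - η * (E.filter (· ≤ s)).card ≤
      η * E.card := fun s t => by
    have h1 : ((E.filter (· ≤ t)).card : ℝ) ≤ E.card := by exact_mod_cast Finset.card_filter_le _ _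
    have h2 : (0 : ℝ) ≤ (E.filter (· ≤ s)).card := Nat.cast_nonneg _
    nlinarith
  have key : ∀ i, G.ℓ (Coprod.lift (j.comp σ.toMonoidHom) (FreeGroup.lift u)
      (R.io a j0 n (x i))) ≤ R.ℓ (x i) + η * E.card - if i = i0 then t0 - s0 else 0 := by
    intro i
    split_ifs with hi
    · subst hi
      rw [e _ _ (LG.Setup.pos_of_mem hγ).ne']
      refine (chain_len (fun t => Coprod.lift (j.comp σ.toMonoidHom) (FreeGroup.lift u) (n t)) E
        (hpt.ends _ (hx i)).1 (hpt.ends _ (hx i)).2 (le0 _)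
        (fun t => t + η * (E.filter (· ≤ t)).card - if t0 ≤ t then t0 - s0 else 0)
        fun s hs t ht h1 h2 h3 h4 => ?_).trans ?_
      · have c1 := mul_le_mul_of_nonneg_left (card_step E ht h2) η0.le
        have c2 := long _ (hx i) s hs t ht h1 h2 h3 h4
        by_cases b1 : t0 ≤ s
        · rw [if_pos b1, if_pos (b1.trans h2.le)]
          linarith
        by_cases b2 : t0 ≤ t
        · have e1 : t0 = t := le_antisymm b2 (not_lt.1 fun b => h4 t0 ht0 ⟨not_le.1 b1, b⟩)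
          subst e1
          have e2 : s0 = s := le_antisymm (not_lt.1 fun b => h4 s0 hs0 ⟨b, a2⟩)
            (not_lt.1 fun b => a4 s hs ⟨b, h2⟩)
          subst e2
          have c3 := cell_len hv _ u tiny' hu' hs ht h2 h4 (sub _ (hx i) _ _ h1 h3) (c := η)
            (fun c => (c (Or.inl ja0)).elim) fun _ => short _ hs _ ht ja0
          rw [if_pos le_rfl, if_neg b1]
          linarith
        · rw [if_neg b1, if_neg b2]
          linarith
      · rw [if_pos a3, if_neg (not_le.2 (a1.trans_lt a2))]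
        linarith [cb (a (x i)) (a (x i) + R.ℓ (x i))]
    · by_cases h : R.ℓ (x i) = 0
      · rw [io0 _ h, Coprod.lift_apply_inl, tiny' _ h, h]
        have : 0 ≤ η * E.card := by positivity
        linarith
      rw [e _ _ h]
      refine (chain_len (fun t => Coprod.lift (j.comp σ.toMonoidHom) (FreeGroup.lift u) (n t)) E
        (hpt.ends _ (hx i)).1 (hpt.ends _ (hx i)).2 (le0 _)
        (fun t => t + η * (E.filter (· ≤ t)).card) fun s hs t ht h1 h2 h3 h4 => ?_).trans ?_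
      · have c1 := mul_le_mul_of_nonneg_left (card_step E ht h2) η0.le
        have c2 := long _ (hx i) s hs t ht h1 h2 h3 h4
        linarith
      · linarith [cb (a (x i)) (a (x i) + R.ℓ (x i))]
  refine (Finset.sum_le_sum fun i _ => key i).trans ?_
  rw [Finset.sum_sub_distrib, Finset.sum_add_distrib, Finset.sum_ite_eq' _ i0,
    if_pos (Finset.mem_univ _), Finset.sum_const, Finset.card_univ, Fintype.card_fin, nsmul_eq_mul]
  linarith

end Pool.Agent.P.MP_dba3d2_lc
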