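import Pool.Agent.P.MP_dba3d2_lc.D.Iface4
import Pool.Agent.P.MP_dba3d2_lc.D.Iface2
import Pool.Agent.P.MP_dba3d2_lc.D.T0B
import Pool.Agent.P.MP_dba3d2_lc.D.SysC

/-! Step D_PART of the stability project. -/

namespace Pool.Agent.P.MP_dba3d2_lc

open Set Filter Topology

namespace D_partA

/-- the germs that move into `[p, q]` form an open set -/
theorem isOpen_mv (R : LG) (P : ℝ → R.W) (p q : ℝ) :
    IsOpen {β : Gm | ∃ g, ∃ β' ∈ GI p q, R.Mv P β g β'} := by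
  refine isOpen_iff_mem_nhds.2 ?_
  rintro β ⟨g, β', h1, h2⟩
  have k : ∀ᶠ α in 𝓝 β, β' * β⁻¹ * α ∈ GI p q := by
    have c : Tendsto (fun α => β' * β⁻¹ * α) (𝓝 β) (𝓝 (β' * β⁻¹ * β)) :=
      (continuous_gm_mul (β' * β⁻¹)).tendsto β
    rw [inv_mul_cancel_right] at c
    exact c (isOpen_GI.mem_nhds h1)
  filter_upwards [k, h2.eventually] with α a b using ⟨g, _, a, b⟩

/-- near a germ with infinite orbit, segments are arcs or free -/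
theorem loc (hM : S_D_MINC) {R : RT} {A : Finset R.W} {ι : Type} [Fintype ι] {S : Sys ι}
    {P : ℝ → R.W} {g : ι → R.W} {a : R.W → ℝ} {p q : ℝ} (H : R.Setup P A S g a)
    (hP : R.IsoOn P p q) {γ : Gm} (h1 : γ ∈ R.secs a A) (h2 : (S.orb γ).Infinite) :
    ∃ r > 0, ∀ u v, u < v → GI u v ⊆ seg γ r →
      R.JA P p q (P u) (P v) ∨ R.Fr P p q (P u) (P v) := by
  by_cases hγ : ∃ g, ∃ β' ∈ GI p q, R.Mv P γ g β'
  · obtain ⟨g', β', k1, k2⟩ := hγ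
    obtain ⟨r, r0, hr⟩ := LG.Mv2.ja k2 k1
    refine ⟨r, r0, fun u v huv k => Or.inl ?_⟩
    have e := hr _ (MvBA.param huv k ⟨le_rfl, huv.le⟩) _ (MvBA.param huv k ⟨huv.le, le_rfl⟩)
    rwa [Gm.ap_inv_ap, Gm.ap_inv_ap] at e
  · have hC := (hM ι S).2 γ h2
    have hγC : γ ∈ closure (S.orb γ) := subset_closure (Sys.Rel.refl S γ)
    obtain ⟨w, hw, hs⟩ := h1
    obtain ⟨r, r0, hr⟩ := isOpen_iff_seg.1 (hC.co.2.inter (LG.Setup.co_sec R.toLG a w).2) γ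
      ⟨hγC, hs⟩
    refine ⟨r, r0, fun u v huv k => Or.inr ?_⟩
    have k1 : GI u v ⊆ GI (a w) (a w + R.ℓ w) := fun β hβ => (hr (k hβ)).2
    obtain ⟨b1, b2⟩ := (GI_subset_iff huv).1 k1
    refine (RT.fr_iff hP (H.iso w hw) b1 huv.le b2).2 fun β hβ g' β' hβ' hm => hγ ?_
    obtain ⟨α, ⟨⟨g1, α', x1, x2⟩, -⟩, x3⟩ := hC.reach (isOpen_mv R.toLG P p q)
      ⟨β, ⟨g', β', hβ', hm⟩, (hr (k hβ)).1⟩ hγC
    obtain ⟨g2, x4⟩ := H.mv_of_rel x3
    exact ⟨_, α', x1, x4.trans x2⟩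

theorem ends_lt (γ : Gm) {r : ℝ} (h : 0 < r) : min γ.c (γ.ap r) < max γ.c (γ.ap r) := by
  have k := self_mem_seg (γ := γ) h
  rw [seg_eq_GI h.le] at k
  exact lt_of_mem_GI k

end D_partA

open D_partA in
theorem p_D_PART (hD_MINC : S_D_MINC) (hD_FAM : S_D_FAM) :
    S_D_PART := by
  classical
  intro R A ι _ S P g a p q H hP
  have hX := LG.Setup.co_secs R.toLG a A
  have hU : CO (R.secs a A ∩ {γ | (S.orb γ).Infinite}) := hX.inter (hD_MINC ι S).1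
  obtain ⟨E1, hE1⟩ := hU.subdiv'
    (Q := fun u v => R.JA P p q (P u) (P v) ∨ R.Fr P p q (P u) (P v))
    fun γ hγ => loc hD_MINC H hP hγ.1 hγ.2
  obtain ⟨EG, r, hF⟩ := hD_FAM ι S (R.secs a A)
    (E1 ∪ (A.image a ∪ A.image fun w => a w + R.ℓ w)) hX H.in'
  obtain ⟨E, hE⟩ : ∃ E : Finset ℝ, ∀ x, x ∈ E ↔
      x ∈ E1 ∪ (A.image a ∪ A.image fun w => a w + R.ℓ w) ∨
      (∃ γ ∈ EG, min γ.c (γ.ap (r γ)) = x) ∨ ∃ γ ∈ EG, max γ.c (γ.ap (r γ)) = x :=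
    ⟨(E1 ∪ (A.image a ∪ A.image fun w => a w + R.ℓ w)) ∪
      (EG.image (fun γ => min γ.c (γ.ap (r γ))) ∪ EG.image fun γ => max γ.c (γ.ap (r γ))),
      fun x => by simp only [Finset.mem_union, Finset.mem_image]⟩
  have piece : ∀ γ ∈ EG, ∃ s ∈ E, ∃ t ∈ E, s < t ∧ Free E s t ∧ seg γ (r γ) = GI s t := by
    intro γ hγ
    have r0 := hF.pos γ hγ
    have e := seg_eq_GI (γ := γ) r0.le
    refine ⟨_, (hE _).2 (Or.inr (Or.inl ⟨γ, hγ, rfl⟩)), _, (hE _).2 (Or.inr (Or.inr ⟨γ, hγ, rfl⟩)),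
      ends_lt γ r0, fun x hx hh => ?_, e⟩
    have m1 : Gm.tau x ∈ seg γ (r γ) := by
      rw [e]; exact tau_mem_GI.2 ⟨hh.1.le, hh.2⟩
    have m2 : (Gm.tau x).opp ∈ seg γ (r γ) := by
      rw [e]; exact opp_tau_mem_GI.2 ⟨hh.1, hh.2.le⟩
    rcases (hE x).1 (Finset.mem_coe.1 hx) with k | ⟨γ', k, rfl⟩ | ⟨γ', k, rfl⟩
    · have k1 := hF.sub γ hγ _ m1
      have k2 := hF.top _ k1.1 k1.2 k
      have k3 := hF.disj γ hγ _ k2 _ m1 (self_mem_seg (hF.pos _ k2))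
      have k4 : γ.c = x := by rw [k3]; rfl
      rcases le_total γ.c (γ.ap (r γ)) with l | l
      · rw [min_eq_left l] at hh; exact hh.1.ne k4
      · rw [max_eq_left l] at hh; exact hh.2.ne k4.symm
    · have k3 := hF.disj γ hγ γ' k _ m1 (by
        rw [seg_eq_GI (hF.pos _ k).le]
        exact tau_mem_GI.2 ⟨le_rfl, ends_lt γ' (hF.pos _ k)⟩)
      rw [k3] at hh
      exact lt_irrefl _ hh.1
    · have k3 := hF.disj γ hγ γ' k _ m2 (by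
        rw [seg_eq_GI (hF.pos _ k).le]
        exact opp_tau_mem_GI.2 ⟨ends_lt γ' (hF.pos _ k), le_rfl⟩)
      rw [k3] at hh
      exact lt_irrefl _ hh.2
  refine ⟨E, EG, r, ⟨hF.pos, hF.sub, hF.cov, hF.disj, hF.dom, hF.inv,
    fun γ _ _ h => absurd h (Finset.notMem_empty _)⟩, fun w hw => ⟨?_, ?_⟩, piece,
    fun s hs t ht hst hfree hsub => ?_⟩
  · exact (hE _).2 (Or.inl (Finset.mem_union_right _
      (Finset.mem_union_left _ (Finset.mem_image_of_mem _ hw))))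
  · exact (hE _).2 (Or.inl (Finset.mem_union_right _
      (Finset.mem_union_right _ (Finset.mem_image_of_mem (fun w => a w + R.ℓ w) hw))))
  · have m : Gm.tau s ∈ GI s t := tau_mem_GI.2 ⟨le_rfl, hst⟩
    by_cases hi : (S.orb (Gm.tau s)).Finite
    · obtain ⟨γ, hγ, k⟩ := hF.cov _ (hsub m) hi
      obtain ⟨s', hs', t', ht', -, k2, k3⟩ := piece γ hγ
      rw [k3] at k
      obtain ⟨rfl, rfl⟩ := cell_unique (Finset.mem_coe.2 hs) (Finset.mem_coe.2 ht)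
        (Finset.mem_coe.2 hs') (Finset.mem_coe.2 ht') hfree k2 m k
      exact Or.inl ⟨γ, hγ, k3⟩
    · exact Or.inr (hE1 s t (hfree.mono fun x hx => Finset.mem_coe.2 ((hE x).2
        (Or.inl (Finset.mem_union_left _ (Finset.mem_coe.1 hx))))) ⟨_, m, hsub m, hi⟩).1

end Pool.Agent.P.MP_dba3d2_lc
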