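import Pool.Agent.P.MP_dba3d2_lc.D.Iface2

/-! Step D_PATHS of the stability project. -/

namespace Pool.Agent.P.MP_dba3d2_lc

open Set Filter Topology

namespace D_pathsA

variable {F F' : Equiv.Perm (ℤ × Bool)} {B : ℕ}

theorem flz (h : PS F B) (r : ℤ) (y : ℤ × Bool) :
    (F ^ r) (y.1, !y.2) = (((F ^ (-r)) y).1, !((F ^ (-r)) y).2) := by
  let f : Equiv.Perm (ℤ × Bool) :=
    Function.Involutive.toPerm (fun y => (y.1, !y.2)) fun y => by simp
  have : SemiconjBy f F⁻¹ F := Equiv.ext fun y => by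
    have := h.rev (F⁻¹ y)
    rw [show F (F⁻¹ y) = y from F.apply_symm_apply y] at this
    exact this.symm
  have := Equiv.ext_iff.1 (this.zpow_right r).eq y
  rw [inv_zpow'] at this
  exact this.symm

theorem sw (h : PS F B) {y z : ℤ × Bool} (e : y.1 = z.1) (r : ℤ) :
    ∃ r' : ℤ, |r'| = |r| ∧ ((F ^ r) y).1 = ((F ^ r') z).1 := by
  by_cases c : y.2 = z.2
  · exact ⟨r, rfl, by rw [Prod.ext e c]⟩
  · refine ⟨-r, abs_neg r, ?_⟩
    rw [show y = (z.1, !z.2) from Prod.ext e (Bool.eq_not.2 c), flz h]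

theorem rel (h : PS F B) (y : ℤ × Bool) (r : ℤ) : PRel F y.1 ((F ^ r) y).1 :=
  let ⟨r', _, e⟩ := sw h (y := y) (z := (y.1, true)) rfl r
  ⟨r', e.symm⟩

theorem tails (h : PS F B) {k : ℕ} {x : Fin k → ℤ} (hx : ∀ i j, PRel F (x i) (x j) → i = j)
    {τ τ' : Fin k × Bool} {t t' : ℤ} (ht : t + t' ≠ 0)
    (e : ((F ^ t) (x τ.1, τ.2)).1 = ((F ^ t') (x τ'.1, τ'.2)).1) : τ = τ' := by
  obtain ⟨r, -, e'⟩ := sw h e.symm (-t')
  rw [← Equiv.Perm.mul_apply, ← zpow_add, neg_add_cancel, zpow_zero, ← Equiv.Perm.mul_apply,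
    ← zpow_add] at e'
  have a : τ.1 = τ'.1 := hx _ _ (by
    have := rel h (x τ.1, τ.2) (r + t)
    rwa [← e'] at this)
  refine Prod.ext a (by_contra fun c => ht ?_)
  rw [a, Bool.eq_not.2 c, flz h t (x τ'.1, τ'.2)] at e
  have := h.inj _ e
  omega

theorem unb (h : PS F B) (y : ℤ × Bool) (c : ¬∀ M : ℤ, ∃ t : ℕ, M < 1 * ((F ^ t) y).1) (M : ℤ) :
    ∃ t : ℕ, M < -1 * ((F ^ t) y).1 := by
  by_contra c'
  push Not at c c'
  obtain ⟨M', c⟩ := c
  refine (finite_Icc (-M) M').not_infinite (infinite_of_injective_forall_mem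
    (f := fun t : ℕ => ((F ^ t) y).1) (fun t t' e => ?_) fun t => ⟨?_, ?_⟩)
  · exact Nat.cast_injective (h.inj y (by simpa using e))
  · linarith [c' t]
  · linarith [c t]

theorem drift {v : ℕ → ℤ × Bool} (hj : ∀ t, |(v (t + 1)).1 - (v t).1| ≤ B) (t : ℕ) :
    |(v t).1 - (v 0).1| ≤ t * B := by
  induction t with
  | zero => simp
  | succ t ih =>
    push_cast
    linarith [abs_sub_le (v (t + 1)).1 (v t).1 (v 0).1, hj t]

theorem strand {v : ℕ → ℤ × Bool} {n : ℕ} {σ : ℤ} (hσ : σ = 1 ∨ σ = -1)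
    (hv : ∀ t, |(v t).1| ≤ n → v (t + 1) = F' (v t)) (hj : ∀ t, |(v (t + 1)).1 - (v t).1| ≤ B)
    (h0 : σ * (v 0).1 < -n) {T : ℕ} (hT : n < σ * (v T).1) :
    ∃ t : ℕ, |(v t).1| ≤ B ∧ n < t * B ∧ ∃ r r' : ℤ, σ * ((F' ^ r) (v t)).1 < -n + B ∧
      n < σ * ((F' ^ r') (v t)).1 := by
  classical
  have ex : ∃ d, ∃ t, σ * (v t).1 < -n ∧ n < σ * (v (t + d)).1 := ⟨T, 0, h0, by simpa using hT⟩
  obtain ⟨t, h1, h2⟩ := Nat.find_spec ex
  have mn := fun d => Nat.find_min ex (m := d)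
  generalize Nat.find ex = d at h2 mn
  have tr : ∀ i, i + 1 ≤ d → (F' ^ i) (v (t + 1)) = v (t + (i + 1)) := fun i => by
    induction i with
    | zero => exact fun _ => rfl
    | succ i ih =>
      intro hi
      rw [pow_succ', Equiv.Perm.mul_apply, ih (by omega)]
      refine (hv _ ?_).symm
      have a := not_and.1 (not_exists.1 (mn (i + 1) hi) t) h1
      have b : ¬σ * (v (t + (i + 1))).1 < -n := fun c =>
        not_exists.1 (mn (d - (i + 1)) (by omega)) (t + (i + 1))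
          ⟨c, by rwa [add_assoc, Nat.add_sub_cancel' (by omega)]⟩
      rw [abs_le]
      rcases hσ with rfl | rfl <;> omega
  have ex' : ∃ i, 0 ≤ σ * (v (t + i)).1 := ⟨d, by omega⟩
  have a := Nat.find_spec ex'
  have b := fun i => Nat.find_min ex' (m := i)
  have c := Nat.find_min' ex' (m := d) (by omega)
  generalize Nat.find ex' = i at a b c
  obtain _ | i := i
  · rw [add_zero] at a; omega
  obtain _ | d := d
  · omega
  have j1 := abs_le.1 (hj (t + i))
  have j2 := abs_le.1 (hj t)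
  have j3 := abs_le.1 (drift hj (t + (i + 1)))
  have b' := b i i.lt_succ_self
  rw [add_assoc] at j1
  refine ⟨t + (i + 1), ?_, ?_, -i, d - i, ?_, ?_⟩
  · rw [abs_le]
    rcases hσ with rfl | rfl <;> omega
  · rw [← Nat.cast_mul] at j3
    rcases hσ with rfl | rfl <;> omega
  · rw [← tr i c, ← zpow_natCast, ← Equiv.Perm.mul_apply, ← zpow_add, neg_add_cancel, zpow_zero,
      Equiv.Perm.one_apply]
    rcases hσ with rfl | rfl <;> omega
  · rwa [← tr i c, ← zpow_natCast, ← Equiv.Perm.mul_apply, ← zpow_add, sub_add_cancel,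
      zpow_natCast, tr d le_rfl]

theorem trans (h : PS F B) (h' : PS F' B) {ψ : ℤ × Bool → ℤ × Bool} {n : ℕ}
    (h1 : ∀ z, |(ψ z).1| ≤ n → ψ (F z) = F' (ψ z))
    (h2 : ∀ z, ψ (z.1, !z.2) = ((ψ z).1, !(ψ z).2)) (r : ℤ) (z : ℤ × Bool)
    (hz : |(ψ z).1| + |r| * B ≤ n) : ((F' ^ r) (ψ z)).1 = (ψ ((F ^ r) z)).1 := by
  have a : ∀ (r : ℕ) z, |(ψ z).1| + r * B ≤ n → (F' ^ r) (ψ z) = ψ ((F ^ r) z) := fun r => by
    induction r with
    | zero => exact fun _ _ => rfl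
    | succ r ih =>
      intro z hz
      push_cast at hz
      have e := h1 z (by nlinarith [Nat.cast_nonneg (α := ℤ) r, Nat.cast_nonneg (α := ℤ) B])
      rw [pow_succ, pow_succ, Equiv.Perm.mul_apply, Equiv.Perm.mul_apply, ← e, ih]
      rw [e]
      linarith [h'.jump (ψ z), abs_sub_abs_le_abs_sub (F' (ψ z)).1 (ψ z).1]
  obtain ⟨r, rfl | rfl⟩ := r.eq_nat_or_neg
  · rw [zpow_natCast, zpow_natCast, a r z (by simpa using hz)]
  · have := a r (z.1, !z.2) (by simpa [h2] using hz)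
    rw [h2, ← zpow_natCast, ← zpow_natCast, flz h', flz h, h2] at this
    exact (Prod.mk.inj this).1

end D_pathsA

open D_pathsA

theorem p_D_PATHS :
    S_D_PATHS := by
  classical
  intro F F' B h h' hW k x hx
  obtain ⟨s, hs, τ, hτ⟩ : ∃ s : ℤ, (s = 1 ∨ s = -1) ∧ ∃ τ : Fin k ↪ Fin k × Bool,
      ∀ i (M : ℤ), ∃ t : ℕ, M < s * ((F ^ t) (x (τ i).1, (τ i).2)).1 := by
    let p : Fin k × Bool → Prop := fun τ => ∀ M : ℤ, ∃ t : ℕ, M < 1 * ((F ^ t) (x τ.1, τ.2)).1
    have := Fintype.card_subtype_compl p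
    rw [Fintype.card_prod, Fintype.card_fin, Fintype.card_bool] at this
    by_cases c : k ≤ Fintype.card {τ // p τ}
    · obtain ⟨f⟩ := Function.Embedding.nonempty_of_card_le ((Fintype.card_fin k).trans_le c)
      exact ⟨1, .inl rfl, f.trans (.subtype _), fun i => (f i).2⟩
    · obtain ⟨f⟩ := Function.Embedding.nonempty_of_card_le (β := {τ // ¬p τ})
        ((Fintype.card_fin k).trans_le (by omega))
      exact ⟨-1, .inr rfl, f.trans (.subtype _), fun i => unb h _ (f i).2⟩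
  have key : ∀ N : ℕ, ∃ x' : Fin k → Icc (-B : ℤ) B,
      (∀ i j (r : ℤ), |r| ≤ N → ((F' ^ r) (x' i, true)).1 = x' j → i = j) ∧
      ∀ j, ∃ a b : ℤ, a ≤ -N ∧ (N : ℤ) ≤ b ∧ PRel F' (x' j) a ∧ PRel F' (x' j) b := fun N => by
    obtain ⟨M, hM⟩ := Finite.exists_le fun j => s * x j
    obtain ⟨n, hn⟩ : ∃ n : ℕ, n = N * B + B + N := ⟨_, rfl⟩
    obtain ⟨a, ε, hε, ha, hw⟩ := hW n (M + n + 1) s hs
    let ψ : ℤ × Bool → ℤ × Bool := fun z => (ε * (z.1 - a), z.2)
    have ee : ∀ p, ε * (ε * p) = p := fun p => by rcases hε with rfl | rfl <;> ring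
    have h1 : ∀ z, |(ψ z).1| ≤ n → ψ (F z) = F' (ψ z) := fun z hz => by
      have := hw _ z.2 hz
      rw [show (ψ z).1 = ε * (z.1 - a) from rfl, ee, add_sub_cancel] at this
      simp only [ψ, this, add_sub_cancel_left, ee]
    have sg : ∀ z, s * ε * (ψ z).1 = s * z.1 - s * a := fun z => by rw [mul_assoc, ee, mul_sub]
    have hσ : s * ε = 1 ∨ s * ε = -1 := by
      rcases hε with rfl | rfl <;> rcases hs with rfl | rfl <;> simp
    have st : ∀ i, _ := fun i =>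
      let ⟨T, hT⟩ := hτ i (s * a + n)
      strand (v := fun t => ψ ((F ^ t) (x (τ i).1, (τ i).2))) (F' := F') (B := B) (n := n) (T := T)
        hσ (fun t ht => by rw [pow_succ', Equiv.Perm.mul_apply, h1 _ ht])
        (fun t => by
          have := h.jump ((F ^ t) (x (τ i).1, (τ i).2))
          rw [pow_succ', Equiv.Perm.mul_apply]
          simp only [ψ, ← mul_sub, sub_sub_sub_cancel_right, abs_mul]
          rcases hε with rfl | rfl <;> simpa using this)
        (by rw [sg]; simp only [pow_zero, Equiv.Perm.one_apply]; linarith [hM (τ i).1])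
        (by rw [sg]; linarith)
    choose t t1 t2 r r' r1 r2 using st
    have tN : ∀ i, N < t i := fun i => Nat.lt_of_mul_lt_mul_right (a := B) (by
      have := t2 i; omega)
    refine ⟨fun i => ⟨_, abs_le.1 (t1 i)⟩, fun i j q hq e => ?_, fun j => ?_⟩
    · obtain ⟨q', e1, e2⟩ := sw h' (y := (_, true)) (z := ψ ((F ^ t i) (x (τ i).1, (τ i).2))) rfl q
      rw [e2, trans h h' h1 (fun _ => rfl) q' _ (by
        have := mul_le_mul_of_nonneg_right hq (Nat.cast_nonneg (α := ℤ) B)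
        have := t1 i
        rw [e1, hn, Nat.cast_add, Nat.cast_add, Nat.cast_mul]
        omega)] at e
      have e3 := congrArg (ε * ·) e
      simp only [ψ, ee, sub_left_inj, ← zpow_natCast] at e3
      rw [← Equiv.Perm.mul_apply, ← zpow_add] at e3
      refine τ.injective (tails h hx ?_ e3)
      have := abs_le.1 (e1.trans_le hq)
      have := tN i
      omega
    · have a1 := rel h' (ψ ((F ^ t j) (x (τ j).1, (τ j).2))) (r j)
      have a2 := rel h' (ψ ((F ^ t j) (x (τ j).1, (τ j).2))) (r' j)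
      have b1 := r1 j
      have b2 := r2 j
      rcases hσ with e | e <;> rw [e] at b1 b2
      · exact ⟨_, _, by omega, by omega, a1, a2⟩
      · exact ⟨_, _, by omega, by omega, a2, a1⟩
  choose x' k1 k2 using key
  obtain ⟨y, hy⟩ := Finite.exists_infinite_fiber x'
  have fr : ∀ N, ∃ N' , N < N' ∧ x' N' = y := fun N =>
    let ⟨N', a, b⟩ := (infinite_coe_iff.1 hy).exists_gt N
    ⟨N', b, a⟩
  refine ⟨fun i => y i, fun i j ⟨r, e⟩ => ?_, fun j N => ?_⟩
  · obtain ⟨N, a, rfl⟩ := fr r.natAbs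
    exact k1 N i j r (by rw [← Int.natCast_natAbs]; omega) e
  · obtain ⟨N', a, rfl⟩ := fr N
    obtain ⟨p, q, b1, b2, b3⟩ := k2 N' j
    exact ⟨p, q, by omega, by omega, b3⟩

end Pool.Agent.P.MP_dba3d2_lc
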