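import Pool.Agent.P.MP_dba3d2_lc.D.Iface3
import Pool.Agent.P.MP_dba3d2_lc.D.MvB

/-! Step D_PB1 of the stability project. -/

namespace Pool.Agent.P.MP_dba3d2_lc

open Set Filter Topology

theorem p_D_PB1 (hD_MESH : S_D_MESH) (hD_PBG : S_D_PBG) :
    S_D_PB1 := by
  intro R M A k x ι _ S P g a C hS hC p q Rn h1 h2 h3
  obtain ⟨E, ρ, ψ, V, F, m1, m2, m3, m4⟩ := hD_MESH R A ι S P g a C hS hC.co hC.inv P (Icc p q)
    (fun γ β => S.Rel γ β ∧ β ∈ GI p q) Rn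
    (fun γ hγ => by
      obtain ⟨β, b1, b2⟩ := h1 γ hγ
      obtain ⟨w, r1, r1p, hr1⟩ := hS.mv_of_rel b2
      obtain ⟨r2, r2p, hr2⟩ := mem_GI_iff.1 b1
      obtain ⟨r3, r3p, hr3⟩ := mem_nhds_gm.1 b2.eventually
      have e : ∀ s, (β * γ⁻¹).ap (γ.ap s) = β.ap s := fun s => by simp
      refine ⟨w, β * γ⁻¹, min r1 (min r2 r3), lt_min r1p (lt_min r2p r3p), fun s hs => ?_,
        fun α hα => ⟨hr3 (seg_mono ((min_le_right _ _).trans (min_le_right _ _)) hα), ?_⟩⟩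
      · rw [e]
        exact ⟨hr1 s ⟨hs.1, hs.2.trans (min_le_left _ _)⟩,
          hr2 s ⟨hs.1, hs.2.trans ((min_le_right _ _).trans (min_le_left _ _))⟩⟩
      · have k1 : α ∈ seg γ r2 := seg_mono ((min_le_right _ _).trans (min_le_left _ _)) hα
        have k2 := (mul_mem_seg_mul (φ := β * γ⁻¹)).2 k1
        rw [inv_mul_cancel_right] at k2
        exact (seg_subset_GI r2p).2 hr2 k2)
    (fun γ γ' β β' s b b' => h2 β b.2 β' b'.2 (b.1.symm.trans (s.rel.trans b'.1)))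
  obtain ⟨n₀, c, c0, hp⟩ := hD_PBG R M A k x ι S P P g a C E ρ ψ V F hS hC m1
  intro η hη
  have hn : (0 : ℝ) < n₀ + 1 := by positivity
  have hm : 0 < min η (c / 2) := lt_min hη (half_pos c0)
  have e0 : 0 < min η (c / 2) / (n₀ + 1) := div_pos hm hn
  have e1 : n₀ * (min η (c / 2) / (n₀ + 1)) ≤ min η (c / 2) := by
    rw [← mul_div_assoc, div_le_iff₀ hn]
    nlinarith
  obtain ⟨r, y, N, g1, g2, g3⟩ := h3 _ e0 V m2
    (fun h φ u v hv => by
      obtain ⟨a1, a2, a3, a4⟩ := m4 h φ u v hv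
      exact ⟨⟨a1, a2, a3⟩, a4⟩) F m3
  obtain ⟨io, i1, i2⟩ := hp (Monoid.Coprod R.W (FreeGroup (Fin r))) Monoid.Coprod.inl N
  refine ⟨r, y, io, c / 2, half_pos c0, g1, i1 _ (fun w => by simp) g2, fun G j ν hj hν => ?_⟩
  obtain ⟨f1, f2, f3⟩ := g3 G j ν hj hν _ fun _ => rfl
  obtain ⟨d1, d2, d3⟩ := i2 G (Monoid.Coprod.lift j (FreeGroup.lift ν)) (fun w => by simpa using hj w)
    (fun h φ u v hv => by simpa using f1 h φ u v hv)
  refine ⟨by simpa using d1, fun h0 w hw => ?_, fun h0 => ?_⟩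
  · have := d2 _ e0.le (fun u hu v hv => by simpa using f2 h0 u hu v hv) w hw
    linarith [min_le_left η (c / 2)]
  · have := d3 _ e0.le (fun u hu v hv => by simpa using f3 h0 u hu v hv)
    linarith [min_le_right η (c / 2)]

end Pool.Agent.P.MP_dba3d2_lc
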