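import Pool.Agent.P.MP_dba3d2_lc.D.Iface3
import Pool.Agent.P.MP_dba3d2_lc.D.MvB

/-! Step D_PB2 of the stability project. -/

namespace Pool.Agent.P.MP_dba3d2_lc

open Set Filter Topology

namespace D_pb2A

theorem exists_theta (F : Finset ℝ) {η : ℝ} (hη : 0 < η) :
    ∃ θ : ℝ →ₗ[ℚ] ℚ, ∀ t ∈ F, |t - θ t| ≤ η := by
  let b := Module.Basis.ofVectorSpace ℚ ℝ
  let K : ℝ → ℝ := fun t => ∑ i ∈ (b.repr t).support, |(b.repr t i : ℝ)|
  have K0 : ∀ t, 0 ≤ K t := fun t => Finset.sum_nonneg fun i _ => abs_nonneg _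
  have S0 : 0 ≤ ∑ t ∈ F, K t := Finset.sum_nonneg fun t _ => K0 t
  have e0 : 0 < η / (∑ t ∈ F, K t + 1) := by positivity
  choose q hq using fun i => exists_rat_near (b i) e0
  refine ⟨b.constr ℚ q, fun t ht => ?_⟩
  have e1 : t = ∑ i ∈ (b.repr t).support, (b.repr t i : ℝ) * b i := by
    conv_lhs => rw [← b.linearCombination_repr t, Finsupp.linearCombination_apply, Finsupp.sum]
    simp only [Rat.smul_def]
  have e2 : ((b.constr ℚ q t : ℚ) : ℝ) = ∑ i ∈ (b.repr t).support, (b.repr t i : ℝ) * q i := by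
    rw [Module.Basis.constr_apply, Finsupp.sum]
    simp
  have e3 : t - ((b.constr ℚ q t : ℚ) : ℝ) =
      ∑ i ∈ (b.repr t).support, (b.repr t i : ℝ) * (b i - q i) := by
    rw [e2]
    conv_lhs => arg 1; rw [e1]
    rw [← Finset.sum_sub_distrib]
    exact Finset.sum_congr rfl fun i _ => by ring
  rw [e3]
  refine (Finset.abs_sum_le_sum_abs _ _).trans ?_
  calc ∑ i ∈ (b.repr t).support, |(b.repr t i : ℝ) * (b i - q i)|
      ≤ ∑ i ∈ (b.repr t).support, |(b.repr t i : ℝ)| * (η / (∑ t ∈ F, K t + 1)) :=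
        Finset.sum_le_sum fun i _ => by
          rw [abs_mul]
          exact mul_le_mul_of_nonneg_left (hq i).le (abs_nonneg _)
    _ = K t * (η / (∑ t ∈ F, K t + 1)) := (Finset.sum_mul _ _ _).symm
    _ ≤ (∑ t ∈ F, K t + 1) * (η / (∑ t ∈ F, K t + 1)) := by
        have := Finset.single_le_sum (f := K) (fun t _ => K0 t) ht
        exact mul_le_mul_of_nonneg_right (by linarith) e0.le
    _ = η := by field_simp

theorem valid {W : Type} [Group W] (ν : Multiplicative ℚ →* W) (θ : ℝ →ₗ[ℚ] ℚ) {h : W} {ε : ℚ}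
    (hc : ∀ q : ℚ, h * ν (.ofAdd q) * h⁻¹ = ν (.ofAdd (ε * q))) (b t : ℝ) :
    ν (.ofAdd (θ (ε * t + b))) * h * (ν (.ofAdd (θ t)))⁻¹ = ν (.ofAdd (θ b)) * h := by
  rw [add_comm, map_add, ← Rat.smul_def, map_smul, smul_eq_mul, ofAdd_add, map_mul, ← hc]
  group

end D_pb2A

open D_pb2A in
theorem p_D_PB2 (hD_MESH : S_D_MESH) (hD_PBG : S_D_PBG) :
    S_D_PB2 := by
  intro R e hA M A k x ι _ S P g a C hS hC u v huv hP hper hrel
  obtain ⟨L, hL, s0, t0, e1, e2⟩ := hA.line (P u) (P v)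
    (by rw [hP u ⟨le_rfl, huv.le⟩ v ⟨huv.le, le_rfl⟩]; exact abs_pos.2 (sub_ne_zero.2 huv.ne)) hper
  obtain ⟨φ0, -, -, h0⟩ := R.exists_gm (g := 1) (P' := L) (a' := min s0 t0) (b' := max s0 t0) hP
    (fun s _ t _ => hL.iso s t) ⟨le_rfl, huv.le⟩ ⟨huv.le, le_rfl⟩ ⟨min_le_left _ _, le_max_left _ _⟩
    ⟨min_le_right _ _, le_max_right _ _⟩ (by rwa [one_mul]) (by rwa [one_mul])
  obtain ⟨E, ρ, ψ, V, F, hM, -, -, hV⟩ := hD_MESH R.toLG A ι S P g a C hS hC.co hC.inv L univ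
    (fun _ _ => True) (fun _ _ => True) (fun γ hγ => by
      obtain ⟨β, hβ, hr⟩ := hrel γ hγ
      obtain ⟨ρ, r, r0, h1⟩ := hS.mv_of_rel hr
      obtain ⟨r', r0', h2⟩ := mem_GI_iff.1 hβ
      refine ⟨ρ, φ0 * β * γ⁻¹, min r r', lt_min r0 r0', fun s hs => ⟨?_, trivial⟩,
        fun _ _ => trivial⟩
      have k1 := h1 s ⟨hs.1, hs.2.trans (min_le_left _ _)⟩
      have k2 := h0 _ (by
        rw [uIcc_of_le huv.le]; exact h2 s ⟨hs.1, hs.2.trans (min_le_right _ _)⟩)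
      rw [one_mul] at k2
      simpa using LG.d_zero_trans k1 k2.2) (fun _ _ _ _ _ _ _ => trivial)
  obtain ⟨n₀, c, c0, H⟩ := hD_PBG R.toLG M A k x ι S P L g a C E ρ ψ V F hS hC hM
  have η0 : 0 < c / (4 * (n₀ + 1)) := by positivity
  obtain ⟨θ, hθ⟩ := exists_theta F η0
  obtain ⟨io, i1, i2⟩ := H (Monoid.Coprod R.W (Multiplicative ℚ)) Monoid.Coprod.inl
    fun t => Monoid.Coprod.inr (.ofAdd (θ t))
  refine ⟨L, io, c / 2, half_pos c0, hL, i1 _ (fun _ => rfl) (fun _ => rfl), fun G j ν hj hν => ?_⟩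
  obtain ⟨j1, j2, j3⟩ := i2 G (Monoid.Coprod.lift j ν) hj (fun h φ u' v' hm => by
    obtain ⟨lt, -, rl, -⟩ := hV h φ u' v' hm
    have a1 := rl u' ⟨le_rfl, lt.le⟩
    have a2 := rl v' ⟨lt.le, le_rfl⟩
    obtain ⟨ε, b, hε, hb⟩ := hL.rig h u' v' _ _ lt a1 a2
    obtain ⟨ε', hε', rfl⟩ : ∃ ε' : ℚ, (ε' = 1 ∨ ε' = -1) ∧ (ε' : ℝ) = ε := by
      rcases hε with rfl | rfl
      exacts [⟨1, Or.inl rfl, by simp⟩, ⟨-1, Or.inr rfl, by simp⟩]
    have b1 : ∀ t, R.d (h * L t) (L (φ.ap t)) = 0 → φ.ap t = ε' * t + b := fun t ht => by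
      have := LG.d_zero_trans (LG.d_zero_symm ht) (hb t)
      rwa [hL.iso, abs_eq_zero, sub_eq_zero] at this
    rw [b1 _ a1, b1 _ a2]
    exact (valid ν θ (hν h ε' b hε' hb) b u').trans (valid ν θ (hν h ε' b hε' hb) b v').symm)
  refine ⟨j1, fun hf w hw => ?_, fun hf => ?_⟩
  · simpa using j2 0 le_rfl (fun s _ t _ => by
      rw [add_zero, ← hL.iso]
      exact (LG.d_congr (hf _ _) (hf _ _)).trans_le (LG.d_map_le j hj _ _)) w hw
  · have k := j3 (2 * (c / (4 * (n₀ + 1)))) (by positivity) fun s hs t ht => by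
      refine (LG.d_congr (hf _ _) (hf _ _)).trans_le ((LG.d_map_le j hj _ _).trans ?_)
      rw [hL.iso]
      linarith [abs_sub (s - θ s) (t - θ t), hθ s hs, hθ t ht]
    have e : (n₀ + 1 : ℝ) * (2 * (c / (4 * (n₀ + 1)))) = c / 2 := by field_simp; ring
    linarith

end Pool.Agent.P.MP_dba3d2_lc
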