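import Pool.Agent.P.MP_dba3d2_lc.D.Iface3
import Pool.Agent.P.MP_dba3d2_lc.D.TreeB

/-! Step D_PBG of the stability project. -/

namespace Pool.Agent.P.MP_dba3d2_lc

open Set Filter Topology

namespace D_pbgA

theorem grp_out {K : Type} [Group K] {nx ny nx' ny' px py px' py' : K} (g : K)
    (h1 : nx⁻¹ * ny = px⁻¹ * py) (h2 : nx'⁻¹ * ny' = px'⁻¹ * py') :
    nx' * (px'⁻¹ * g * px) * nx⁻¹ = ny' * (py'⁻¹ * g * py) * ny⁻¹ := by
  rw [inv_mul_eq_iff_eq_mul] at h1 h2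
  rw [h1, h2]
  group

theorem grp_in {K : Type} [Group K] {nx ny nx' ny' px py px' py' g Nx Ny Nx' Ny' r r' : K}
    (h1 : nx⁻¹ * ny = (Nx * (r * px))⁻¹ * (Ny * (r * py)))
    (h2 : nx'⁻¹ * ny' = (Nx' * (r' * px'))⁻¹ * (Ny' * (r' * py')))
    (h3 : Nx' * (r' * g * r⁻¹) * Nx⁻¹ = Ny' * (r' * g * r⁻¹) * Ny⁻¹) :
    nx' * (px'⁻¹ * g * px) * nx⁻¹ = ny' * (py'⁻¹ * g * py) * ny⁻¹ := by
  have k := grp_out (Nx' * (r' * g * r⁻¹) * Nx⁻¹) h1 h2
  have e1 : (Nx' * (r' * px'))⁻¹ * (Nx' * (r' * g * r⁻¹) * Nx⁻¹) * (Nx * (r * px)) =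
      px'⁻¹ * g * px := by group
  have e2 : (Ny' * (r' * py'))⁻¹ * (Nx' * (r' * g * r⁻¹) * Nx⁻¹) * (Ny * (r * py)) =
      py'⁻¹ * g * py := by rw [h3]; group
  rwa [e1, e2] at k

/-- induction along the cells between two points of a mesh -/
theorem cell_ind {E : Finset ℝ} {u v : ℝ} (hu : u ∈ E) (hv : v ∈ E) (h : u ≤ v) {Q : ℝ → Prop}
    (h0 : Q u) (h1 : ∀ s ∈ E, ∀ t ∈ E, u ≤ s → s < t → t ≤ v → Free E s t → Q s → Q t) : Q v :=
  chain_ind E.finite_toSet (Q := fun _ t => Q t) h h0 fun s t k1 k2 k3 k4 k5 k6 =>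
    h1 s (k4.elim id fun e => e ▸ hu) t (k5.elim id fun e => e ▸ hv) k1 k2 k3 k6

theorem chain_eq {K : Type} [Group K] {E : Finset ℝ} {u v : ℝ} (hu : u ∈ E) (hv : v ∈ E)
    (h : u ≤ v) (p q : ℝ → K) (h1 : ∀ s ∈ E, ∀ t ∈ E, u ≤ s → s < t → t ≤ v → Free E s t →
      (p s)⁻¹ * p t = (q s)⁻¹ * q t) : (p u)⁻¹ * p v = (q u)⁻¹ * q v := by
  refine cell_ind hu hv h (Q := fun t => (p u)⁻¹ * p t = (q u)⁻¹ * q t) (by simp)
    fun s hs t ht k1 k2 k3 k4 ih => ?_
  have e1 : (p u)⁻¹ * p t = (p u)⁻¹ * p s * ((p s)⁻¹ * p t) := by group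
  rw [e1, ih, h1 s hs t ht k1 k2 k3 k4]
  group

theorem chain_len {G : LG} {E : Finset ℝ} {u v η : ℝ} (hu : u ∈ E) (hv : v ∈ E) (h : u ≤ v)
    (hη : 0 ≤ η) (f : ℝ → G.W) (h1 : ∀ s ∈ E, ∀ t ∈ E, u ≤ s → s < t → t ≤ v → Free E s t →
      G.d (f s) (f t) ≤ t - s + η) : G.d (f u) (f v) ≤ v - u + E.card * η := by
  have k := cell_ind hu hv h
    (Q := fun t => G.d (f u) (f t) ≤ t - u + (E.filter fun z => z ≤ t).card * η)
    (by rw [LG.d_self, sub_self, zero_add]; positivity) fun s hs t ht k1 k2 k3 k4 ih => ?_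
  · have : ((E.filter fun z => z ≤ v).card : ℝ) ≤ E.card :=
      Nat.cast_le.2 (Finset.card_filter_le _ _)
    linarith only [k, mul_le_mul_of_nonneg_right this hη]
  · have a1 : (E.filter fun z => z ≤ s).card < (E.filter fun z => z ≤ t).card := by
      refine Finset.card_lt_card ((Finset.ssubset_iff_of_subset fun z hz => ?_).2
        ⟨t, Finset.mem_filter.2 ⟨ht, le_rfl⟩, fun e => k2.not_ge (Finset.mem_filter.1 e).2⟩)
      exact Finset.mem_filter.2 ⟨(Finset.mem_filter.1 hz).1, (Finset.mem_filter.1 hz).2.trans k2.le⟩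
    have a2 : ((E.filter fun z => z ≤ s).card : ℝ) + 1 ≤ (E.filter fun z => z ≤ t).card := by
      exact_mod_cast a1
    have a3 := mul_le_mul_of_nonneg_right a2 hη
    linarith only [ih, a3, h1 s hs t ht k1 k2 k3 k4, LG.d_triangle (f u) (f s) (f t)]

/-- the cocycle glued from the cells -/
theorem exists_n {H : Type} [Group H] (E : Finset ℝ) (C : Set Gm) (m1 : ℝ → ℝ → H) (m2 : ℝ → H) :
    ∃ n : ℝ → H, ∀ s ∈ E, ∀ t ∈ E, s < t → Free E s t → ∀ x ∈ Icc s t, ∀ y ∈ Icc s t,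
      (GI s t ⊆ C → (n x)⁻¹ * n y = (m1 s x)⁻¹ * m1 s y) ∧
      (¬GI s t ⊆ C → (n x)⁻¹ * n y = (m2 x)⁻¹ * m2 y) := by
  classical
  obtain ⟨n, hn⟩ := exists_glue E fun s x =>
    if ∃ t ∈ E, s < t ∧ Free E s t ∧ GI s t ⊆ C then m1 s x else m2 x
  refine ⟨n, fun s hs t ht k1 k2 x hx y hy => ⟨fun k => ?_, fun k => ?_⟩⟩
  · rw [hn s hs t ht k1 k2 x hx y hy, if_pos ⟨t, ht, k1, k2, k⟩, if_pos ⟨t, ht, k1, k2, k⟩]
  · have e : ¬∃ t ∈ E, s < t ∧ Free E s t ∧ GI s t ⊆ C := by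
      rintro ⟨t', a1, a2, a3, a4⟩
      exact k ((GI_mono le_rfl (not_lt.1 fun z => k2 t' a1 ⟨a2, z⟩)).trans a4)
    rw [hn s hs t ht k1 k2 x hx y hy, if_neg e, if_neg e]

end D_pbgA

open D_pbgA

theorem p_D_PBG :
    S_D_PBG := by
  classical
  intro R M A k x ι S P P' g a C E ρ ψ V F hS hC hM
  obtain ⟨i0, γ, hγ1, hγ2⟩ := hC.hit
  obtain ⟨s0, hs0, t0, ht0, b1, b2, b3, b4, b5⟩ := exists_cell E.finite_toSet
    (hM.ends _ (hC.mem i0)).1 (hM.ends _ (hC.mem i0)).2 hγ2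
  have b6 : GI s0 t0 ⊆ C := (hM.cell s0 t0 b4).resolve_right fun e => disjoint_left.1 e b5 hγ1
  refine ⟨(k + 1) * E.card + 1, t0 - s0, sub_pos.2 b2, fun H _ inl N => ?_⟩
  obtain ⟨n, hn⟩ := exists_n E C (fun s z => N ((ψ s).ap z) * inl (ρ s * P z)) fun z => inl (P z)
  have hn' : ∀ s ∈ E, ∀ t ∈ E, s < t → Free E s t →
      (GI s t ⊆ C → (n s)⁻¹ * n t =
        (N ((ψ s).ap s) * inl (ρ s * P s))⁻¹ * (N ((ψ s).ap t) * inl (ρ s * P t))) ∧
      (¬GI s t ⊆ C → (n s)⁻¹ * n t = (inl (P s))⁻¹ * inl (P t)) := fun s hs t ht k1 k2 =>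
    hn s hs t ht k1 k2 s ⟨le_rfl, k1.le⟩ t ⟨k1.le, le_rfl⟩
  have pos : ∀ w, R.ℓ w ≠ 0 → 0 < R.ℓ w := fun w h => (LG.l_nonneg w).lt_of_ne' h
  have le : ∀ w, a w ≤ a w + R.ℓ w := fun w => le_add_of_nonneg_right (LG.l_nonneg w)
  refine ⟨R.io a inl n, fun π h1 h2 w hw => ?_, fun G lam hl hV => ?_⟩
  · unfold LG.io
    split_ifs with e
    · exact h1 w
    have := chain_eq (hM.ends w hw).1 (hM.ends w hw).2 (le w) (fun t => π (n t)) P
      fun s hs t ht k1 k2 k3 k4 => by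
        rw [← map_inv, ← map_mul]
        by_cases z : GI s t ⊆ C
        · rw [(hn' s hs t ht k2 k4).1 z]
          simp only [map_mul, map_inv, h1, h2]
          group
        · rw [(hn' s hs t ht k2 k4).2 z, map_mul, map_inv, h1, h1]
    rw [map_mul, map_inv, this, hS.start w hw (pos w e), hS.stop w hw (pos w e), inv_one, one_mul]
  have eio : ∀ w, lam (R.io a inl n w) = R.io a (fun w => lam (inl w)) (fun t => lam (n t)) w :=
    fun w => by
      unfold LG.io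
      split_ifs
      · rfl
      · rw [map_mul, map_inv]
  -- the length of a cell in the support
  have lin : ∀ s ∈ E, ∀ t ∈ E, s < t → Free E s t → GI s t ⊆ C → G.d (lam (n s)) (lam (n t)) =
      G.d (lam (N ((ψ s).ap s)) * lam (inl (P' ((ψ s).ap s))))
        (lam (N ((ψ s).ap t)) * lam (inl (P' ((ψ s).ap t)))) := fun s hs t ht k1 k2 z => by
    have c := (hM.mv s hs t ht k1 k2 z).1
    have c1 := LG.d_map_zero (lam.comp inl) hl (c s ⟨le_rfl, k1.le⟩)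
    have c2 := LG.d_map_zero (lam.comp inl) hl (c t ⟨k1.le, le_rfl⟩)
    rw [MonoidHom.comp_apply, MonoidHom.comp_apply] at c1 c2
    rw [← LG.d_congr ((LG.d_mul_left _ _ _).trans c1) ((LG.d_mul_left _ _ _).trans c2), LG.d,
      ← map_inv, ← map_mul, (hn' s hs t ht k1 k2).1 z]
    simp only [LG.d, map_mul, map_inv]
  have len : ∀ η, 0 ≤ η → (∀ u ∈ F, ∀ v ∈ F, G.d (lam (N u) * lam (inl (P' u)))
      (lam (N v) * lam (inl (P' v))) ≤ |u - v| + η) → ∀ w ∈ A, ∀ u ∈ E, ∀ v ∈ E, a w ≤ u → u ≤ v →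
      v ≤ a w + R.ℓ w → G.d (lam (n u)) (lam (n v)) ≤ v - u + E.card * η := by
    intro η hη h w hw u hu v hv c1 c2 c3
    refine chain_len hu hv c2 hη (fun t => lam (n t)) fun s hs t ht k1 k2 k3 k4 => ?_
    have e : |s - t| = t - s := by rw [abs_sub_comm, abs_of_pos (sub_pos.2 k2)]
    by_cases z : GI s t ⊆ C
    · have c := (hM.mv s hs t ht k2 k4 z).2
      have := h _ c.1 _ c.2
      rw [Gm.abs_ap_sub, e, ← lin s hs t ht k2 k4 z] at this
      exact this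
    · have c := hS.iso w hw s ⟨c1.trans k1, (k2.le.trans k3).trans c3⟩ t
        ⟨(c1.trans k1).trans k2.le, k3.trans c3⟩
      have c' := hl ((P s)⁻¹ * P t)
      rw [map_mul inl, map_inv, ← (hn' s hs t ht k2 k4).2 z, map_mul, map_inv] at c'
      have c'' : G.d (lam (n s)) (lam (n t)) ≤ R.d (P s) (P t) := c'
      linarith only [c, c'', e, hη]
  have len2 : ∀ η, 0 ≤ η → (∀ u ∈ F, ∀ v ∈ F, G.d (lam (N u) * lam (inl (P' u)))
      (lam (N v) * lam (inl (P' v))) ≤ |u - v| + η) → ∀ w ∈ A,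
      G.ℓ (lam (R.io a inl n w)) ≤ R.ℓ w + E.card * η := by
    intro η hη h w hw
    unfold LG.io
    split_ifs with e
    · exact (hl w).trans (le_add_of_nonneg_right (by positivity))
    · have := len η hη h w hw _ (hM.ends w hw).1 _ (hM.ends w hw).2 le_rfl (le w) le_rfl
      rw [add_sub_cancel_left] at this
      rw [map_mul, map_inv]
      exact this
  refine ⟨⟨fun w hw w' hw' hww => ?_, fun w hw h => ?_⟩, fun η hη h w hw => ?_, fun η hη h => ?_⟩
  · simp only [eio]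
    refine hS.tri G.W _ _ (fun z z' _ _ => by rw [map_mul, map_mul]) (fun i u v huv hd => ?_)
      w hw w' hw' hww
    obtain ⟨E', hE'⟩ := hM.band i u v huv hd
    refine chain_ind E'.finite_toSet (Q := fun u t =>
      lam (n ((S.φ i).ap u)) * lam (inl (R.zeta P (g i) (S.φ i) u)) * (lam (n u))⁻¹ =
        lam (n ((S.φ i).ap t)) * lam (inl (R.zeta P (g i) (S.φ i) t)) * (lam (n t))⁻¹) huv.le rfl
      fun y z k1 k2 k3 k4 k5 k6 ih => ih.trans ?_
    obtain ⟨s, hs, t, ht, s', hs', t', ht', c1, c2, c3, c4, c5, c6, c7, c8, c9⟩ :=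
      hE' y z k1 k2 k3 k4 k5 k6
    have d1 := hn s hs t ht c1 c2 y c5 z c6
    have d2 := hn s' hs' t' ht' c3 c4 _ c7 _ c8
    simp only [LG.zeta, map_mul, map_inv]
    rcases c9 with ⟨e1, e2⟩ | ⟨e1, e2, e3⟩
    · have f1 := congrArg lam (d1.2 e1)
      have f2 := congrArg lam (d2.2 e2)
      simp only [map_mul, map_inv] at f1 f2
      exact grp_out _ f1 f2
    · have f1 := congrArg lam (d1.1 e1)
      have f2 := congrArg lam (d2.1 e2)
      have f3 := hV _ _ _ _ e3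
      simp only [map_mul, map_inv] at f1 f2 f3
      refine grp_in f1 f2 ?_
      rcases le_total ((ψ s).ap y) ((ψ s).ap z) with e | e
      · simpa only [min_eq_left e, max_eq_right e, Gm.mul_ap, Gm.inv_ap_ap] using f3
      · simpa only [min_eq_right e, max_eq_left e, Gm.mul_ap, Gm.inv_ap_ap] using f3.symm
  · refine congrArg lam ?_
    unfold LG.io
    split_ifs with e
    · rfl
    have := chain_eq (hM.ends w hw).1 (hM.ends w hw).2 (le w) n (fun t => inl (P t))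
      fun s hs t ht k1 k2 k3 k4 => (hn' s hs t ht k2 k4).2 fun z => by
        obtain ⟨β, hβ⟩ := GI_nonempty.2 k2
        exact disjoint_left.1 (hC.par w hw (h.resolve_right e)) (z hβ) (GI_mono k1 k3 hβ)
    rw [this, hS.start w hw (pos w e), hS.stop w hw (pos w e), map_one, inv_one, one_mul]
  · refine (len2 η hη h w hw).trans (add_le_add le_rfl (mul_le_mul_of_nonneg_right ?_ hη))
    exact Nat.cast_le.2 (by nlinarith)
  · have h' : ∀ u ∈ F, ∀ v ∈ F, G.d (lam (N u) * lam (inl (P' u)))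
        (lam (N v) * lam (inl (P' v))) ≤ |u - v| + η := fun u hu v hv =>
      (h u hu v hv).trans (le_add_of_nonneg_left (abs_nonneg _))
    have key : ∀ i, G.ℓ (lam (R.io a inl n (x i))) ≤ R.ℓ (x i) + E.card * η +
        if i = i0 then (E.card + 1) * η - (t0 - s0) else 0 := fun i => by
      split_ifs with e
      · rw [e]
        have hw := hC.mem i0
        have l0 : R.ℓ (x i0) ≠ 0 := fun z => by linarith only [z, b1, b2, b3]
        have c1 := len η hη h' _ hw _ (hM.ends _ hw).1 _ hs0 le_rfl b1 (b2.le.trans b3)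
        have c2 := len η hη h' _ hw _ ht0 _ (hM.ends _ hw).2 (b1.trans b2.le) b3 le_rfl
        have c := (hM.mv s0 hs0 t0 ht0 b2 b4 b6).2
        have c3 := h _ c.1 _ c.2
        rw [← lin s0 hs0 t0 ht0 b2 b4 b6] at c3
        have c4 : G.ℓ (lam (R.io a inl n (x i0))) =
            G.d (lam (n (a (x i0)))) (lam (n (a (x i0) + R.ℓ (x i0)))) := by
          rw [LG.io, if_neg l0, map_mul, map_inv, LG.d]
        have c5 := LG.d_triangle (lam (n (a (x i0)))) (lam (n s0)) (lam (n (a (x i0) + R.ℓ (x i0))))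
        have c6 := LG.d_triangle (lam (n s0)) (lam (n t0)) (lam (n (a (x i0) + R.ℓ (x i0))))
        linarith only [c1, c2, c3, c4, c5, c6]
      · rw [add_zero]
        exact len2 η hη h' _ (hC.mem i)
    have := Finset.sum_le_sum fun i (_ : i ∈ Finset.univ) => key i
    rw [Finset.sum_add_distrib, Finset.sum_add_distrib, Finset.sum_ite_eq', if_pos (Finset.mem_univ _),
      Finset.sum_const, Finset.card_univ, Fintype.card_fin, nsmul_eq_mul] at this
    push_cast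
    linarith only [this]

end Pool.Agent.P.MP_dba3d2_lc
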