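import Pool.Agent.P.MP_dba3d2_lc.D.Iface4
import Pool.Agent.P.MP_dba3d2_lc.D.MvB

/-! Step D_QEQ of the stability project. -/

namespace Pool.Agent.P.MP_dba3d2_lc

open Set Filter Topology

namespace D_qeqA

variable {R : LG} {P : ℝ → R.W} {p q : ℝ} {γ β : Gm} {g : R.W}

/-- all elements that move the germ into the segment lie in the group of the segment -/
def f (R : LG) (P : ℝ → R.W) (p q : ℝ) (γ : Gm) : Prop :=
  ∀ ρ, ∀ β ∈ GI p q, R.Mv P γ ρ β → ρ ∈ R.QJ P p q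

theorem f_iff (hβ : β ∈ GI p q) (h : R.Mv P γ g β) : f R P p q γ ↔ g ∈ R.QJ P p q := by
  refine ⟨fun k => k g β hβ h, fun k ρ α hα k' => ?_⟩
  have e := mul_mem ((h.symm.trans k').mem_QJ hβ hα) k
  rwa [inv_mul_cancel_right] at e

end D_qeqA

theorem p_D_QEQ :
    S_D_QEQ := by
  intro R P p q p' q' h1 h2 h3 hin htwo
  have hall : ∀ γ ∈ GI p q, D_qeqA.f R P p' q' γ := by
    intro γ hγ
    have h0 : Gm.tau p' ∈ GI p' q' := tau_mem_GI.2 ⟨le_rfl, h2⟩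
    have e := const_on_GI (f := D_qeqA.f R P p' q') (fun γ hγ => ?_) (fun γ x y => ?_) hγ
      (GI_mono h1 h3 h0)
    · rw [e, D_qeqA.f_iff h0 (LG.mv_one P _)]
      exact one_mem _
    · obtain ⟨g, β, hβ, hg⟩ := hin γ hγ
      have k : ∀ᶠ α in 𝓝 γ, β * γ⁻¹ * α ∈ GI p' q' :=
        (isOpen_GI.preimage (continuous_gm_mul (β * γ⁻¹))).mem_nhds (by simpa using hβ)
      filter_upwards [hg.eventually, k] with α a1 a2
      rw [D_qeqA.f_iff a2 a1, D_qeqA.f_iff hβ hg]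
    · obtain ⟨g, β, b1, b2, k1, k2⟩ := htwo γ x y
      rw [D_qeqA.f_iff (mem_GI_of_Ioo b1 b2) k1,
        D_qeqA.f_iff (mem_GI_of_Ioo (by simpa using b1) (by simpa using b2)) k2]
  refine le_antisymm (LG.QJ_mono h1 h3) ((Subgroup.closure_le _).2 ?_)
  rintro g ⟨φ, u, v, hg⟩
  obtain ⟨k1, k2, k3⟩ := hg.mem (tau_mem_GI.2 ⟨le_rfl, hg.1⟩)
  obtain ⟨ρ, β, hβ, hρ⟩ := hin _ k2
  have e := mul_mem (inv_mem (hall _ k2 ρ β hβ hρ)) (hall _ k1 _ β hβ (k3.trans hρ))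
  rwa [inv_mul_cancel_left] at e

end Pool.Agent.P.MP_dba3d2_lc
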