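import Pool.Agent.P.MP_dba3d2_lc.D.Iface2
import Pool.Agent.P.MP_dba3d2_lc.D.Germ2

/-! Step D_REFINE of the stability project. -/

namespace Pool.Agent.P.MP_dba3d2_lc

open Set Filter Topology

namespace D_refineA

variable {ι : Type} {A : Gm → ℝ → ℝ → Prop}

theorem rw_seg' (P : PG A) {γ β : Gm} (h : RW A γ β) :
    ∃ r > 0, ∀ u v, u < v → GI u v ⊆ seg γ r → A (β * γ⁻¹) u v := by
  obtain ⟨a, b, x, y⟩ := h
  obtain ⟨r, r0, hr⟩ := isOpen_iff_seg.1 isOpen_GI γ x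
  refine ⟨r, r0, fun u v uv k => ?_⟩
  obtain ⟨k1, k2⟩ := (GI_subset_iff uv).1 (k.trans hr)
  exact P.sub _ a b u v y k1 uv k2

theorem mu_iUnion' {κ : Type} [Fintype κ] {W : κ → Set Gm} (h : ∀ i, ∃ u v, W i = GI u v)
    (hd : ∀ i j, i ≠ j → Disjoint (W i) (W j)) : mu (⋃ i, W i) = ∑ i, mu (W i) := by
  have e : ∀ i, ∃ u v, {t : ℝ | Gm.tau t ∈ W i} = Ico u v := fun i => by
    obtain ⟨u, v, e⟩ := h i
    exact ⟨u, v, by ext t; rw [e]; exact tau_mem_GI⟩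
  have e2 : {t : ℝ | Gm.tau t ∈ ⋃ i, W i} = ⋃ i, {t : ℝ | Gm.tau t ∈ W i} := by
    ext t; simp
  rw [mu, e2]
  refine MeasureTheory.measureReal_iUnion_fintype
    (fun i j ne => disjoint_left.2 fun t x y => disjoint_left.1 (hd i j ne) x y)
    (fun i => ?_) fun i => ?_ <;> obtain ⟨u, v, e⟩ := e i <;> rw [e]
  · exact measurableSet_Ico
  · exact measure_Ico_lt_top.ne

/-- meshes that are compatible with the isometries -/
theorem exists_mesh (P : PG A) (S : Sys ι) (h : S.Weak A) : ∃ E : ι → Set ℝ,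
    (∀ i, (E i).Finite) ∧
    (∀ i u v, Free (E i) u v → (GI u v ∩ S.dom i).Nonempty → A (S.φ i) u v ∧ GI u v ⊆ S.dom i) ∧
    (∀ i, ∃ a ∈ E i, ∃ b ∈ E i, S.dom i ⊆ GI a b) ∧ (∀ i, (S.φ i).c / 2 ∈ E i) ∧
    ∀ i t, (S.φ i).ap t ∈ E (S.inv i) ↔ t ∈ E i := by
  have k : ∀ i, ∃ E : Finset ℝ, ∀ u v, Free E u v → (GI u v ∩ S.dom i).Nonempty →
      A (S.φ i) u v ∧ GI u v ⊆ S.dom i := fun i =>
    (S.co i).subdiv' fun γ hγ => by simpa using rw_seg' P (h i γ hγ)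
  choose E hE using k
  choose a b _ hab using fun i => (S.co i).bdd
  let F : ι → Set ℝ := fun i => insert (a i) (insert (b i) (insert ((S.φ i).c / 2) (E i)))
  have hF : ∀ i, (F i).Finite := fun i => (((E i).finite_toSet.insert _).insert _).insert _
  refine ⟨fun i => F i ∪ (S.φ i).ap ⁻¹' F (S.inv i),
    fun i => (hF i).union ((hF _).preimage (S.φ i).ap_injective.injOn),
    fun i u v x => hE i u v (x.mono fun t ht => Or.inl (Or.inr (Or.inr (Or.inr ht)))),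
    fun i => ⟨a i, Or.inl (Or.inl rfl), b i, Or.inl (Or.inr (Or.inl rfl)), hab i⟩,
    fun i => Or.inl (Or.inr (Or.inr (Or.inl rfl))), fun i t => ?_⟩
  simp only [mem_union, mem_preimage, S.inv_inv, S.φ_inv, Gm.inv_ap_ap]
  exact Or.comm

/-- the cells of a mesh -/
def Cell (E : Set ℝ) (U : Set Gm) : Prop := ∃ u ∈ E, ∃ v ∈ E, u < v ∧ Free E u v ∧ U = GI u v

theorem Cell.tr {E E' : Set ℝ} {φ : Gm} (h : ∀ t, φ.ap t ∈ E' ↔ t ∈ E) {U : Set Gm}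
    (k : Cell E U) : Cell E' (tr φ U) := by
  obtain ⟨u, hu, v, hv, uv, f, rfl⟩ := k
  have m : ∀ t ∈ E', φ⁻¹.ap t ∈ E := fun t ht => (h _).1 (by rwa [Gm.ap_inv_ap])
  rcases φ.h with e | e
  · refine ⟨_, (h u).2 hu, _, (h v).2 hv, ?_, fun t ht x => f _ (m t ht) ?_, tr_GI_pos e⟩
    · simp only [Gm.ap, e]; linarith
    · simp only [Gm.ap, e, Gm.inv_eps, Gm.inv_c] at x ⊢
      constructor <;> linarith [x.1, x.2]
  · refine ⟨_, (h v).2 hv, _, (h u).2 hu, ?_, fun t ht x => f _ (m t ht) ?_, tr_GI_neg e⟩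
    · simp only [Gm.ap, e]; linarith
    · simp only [Gm.ap, e, Gm.inv_eps, Gm.inv_c] at x ⊢
      constructor <;> linarith [x.1, x.2]

theorem Cell.one {E : Set ℝ} {φ : Gm} (h : φ.c / 2 ∈ E) {U : Set Gm} (k : Cell E U)
    (e : Pool.Agent.P.MP_dba3d2_lc.tr φ U = U) : φ = 1 := by
  obtain ⟨u, -, v, -, uv, f, rfl⟩ := k
  rcases φ.h with z | z
  · rw [tr_GI_pos z] at e
    have := (GI_inj uv e.symm).1
    simp only [Gm.ap, z] at this
    exact Gm.ext z (by rw [Gm.one_c]; linarith)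
  · rw [tr_GI_neg z] at e
    have := (GI_inj uv e.symm).1
    simp only [Gm.ap, z] at this
    exact absurd ⟨by linarith, by linarith⟩ (f _ h)

end D_refineA

open D_refineA

theorem p_D_REFINE :
    S_D_REFINE := by
  classical
  intro A P ι _ S h
  obtain ⟨E, hf, hA, hb, hc, hi⟩ := exists_mesh P S h
  let K : Set (ι × Set Gm) := {p | Cell (E p.1) p.2 ∧ p.2 ⊆ S.dom p.1}
  have hK : K.Finite := by
    refine (finite_iUnion fun i =>
      ((hf i).prod (hf i)).image fun q : ℝ × ℝ => (i, GI q.1 q.2)).subset ?_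
    rintro ⟨i, U⟩ ⟨⟨u, hu, v, hv, -, -, e⟩, -⟩
    exact mem_iUnion.2 ⟨i, (u, v), ⟨hu, hv⟩, Prod.ext rfl e.symm⟩
  have hco : ∀ p : K, CO p.1.2 := fun p => by
    obtain ⟨u, -, v, -, -, -, e⟩ := p.2.1
    rw [e]; exact co_GI
  let T : Sys K :=
    { inv := fun p => ⟨(S.inv p.1.1, tr (S.φ p.1.1) p.1.2), p.2.1.tr (hi _), fun β hβ => by
        simpa using S.map _ _ (p.2.2 hβ)⟩
      φ := fun p => S.φ p.1.1
      dom := fun p => p.1.2
      inv_inv := fun p => Subtype.ext (Prod.ext (S.inv_inv _) (by simp [tr_tr, S.φ_inv]))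
      φ_inv := fun p => S.φ_inv _
      co := hco
      map := fun p γ hγ => mul_mem_tr.2 hγ }
  have cov : ∀ i, ∀ γ ∈ S.dom i, ∃ U, (i, U) ∈ K ∧ γ ∈ U := fun i γ hγ => by
    obtain ⟨a, ha, b, hb', hab⟩ := hb i
    obtain ⟨s, hs, t, ht, -, st, -, f, x⟩ := exists_cell (hf i) ha hb' (hab hγ)
    exact ⟨GI s t, ⟨⟨s, hs, t, ht, st, f, rfl⟩, (hA i s t f ⟨γ, x, hγ⟩).2⟩, x⟩
  have : Fintype K := hK.fintype
  refine ⟨K, this, T, fun p => Or.inr ?_, fun p e => ?_, fun γ β => ⟨?_, ?_⟩, ?_,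
    fun X hX p => p.2.2.trans (hX _)⟩
  · obtain ⟨u, -, v, -, uv, f, e⟩ := p.2.1
    obtain ⟨γ, hγ⟩ := GI_nonempty.2 uv
    exact ⟨u, v, e, (hA _ u v f ⟨γ, hγ, p.2.2 (e ▸ hγ)⟩).1⟩
  · exact p.2.1.one (hc _) (congrArg (fun q : K => q.1.2) e)
  · rintro ⟨p, x, e⟩
    exact ⟨p.1.1, p.2.2 x, e⟩
  · rintro ⟨i, x, e⟩
    obtain ⟨U, y, z⟩ := cov i γ x
    exact ⟨⟨(i, U), y⟩, z, e⟩
  · rw [Sys.tot, Sys.tot, ← Fintype.sum_fiberwise (fun p : K => p.1.1)]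
    refine Finset.sum_congr rfl fun i _ => ?_
    rw [← mu_iUnion' (W := fun p : {p : K // p.1.1 = i} => T.dom p.1) fun p => by
      obtain ⟨u, -, v, -, -, -, e⟩ := p.1.2.1
      exact ⟨u, v, e⟩]
    · congr 1
      refine Subset.antisymm (iUnion_subset fun p => p.1.2.2.trans (by rw [p.2])) fun γ hγ => ?_
      obtain ⟨U, y, z⟩ := cov i γ hγ
      exact mem_iUnion.2 ⟨⟨⟨(i, U), y⟩, rfl⟩, z⟩
    · intro p q ne
      obtain ⟨u, hu, v, hv, -, f, e⟩ := p.1.2.1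
      obtain ⟨u', hu', v', hv', -, f', e'⟩ := q.1.2.1
      rw [p.2] at hu hv f
      rw [q.2] at hu' hv' f'
      refine disjoint_left.2 fun γ k k' => ne ?_
      obtain ⟨e1, e2⟩ := cell_unique hu hv hu' hv' f f' (e.le k) (e'.le k')
      exact Subtype.ext (Subtype.ext (Prod.ext (p.2.trans q.2.symm) (by rw [e, e', e1, e2])))

end Pool.Agent.P.MP_dba3d2_lc
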