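import Pool.Agent.P.MP_dba3d2_lc.D.Iface2
import Pool.Agent.P.MP_dba3d2_lc.D.LsB

/-! Step D_RET of the stability project. -/

namespace Pool.Agent.P.MP_dba3d2_lc

open Set Filter Topology

namespace D_retA

/-- `r` is the first return time of `y` to `U` -/
def Ret (f : Equiv.Perm (Gm × Bool)) (U : Set Gm) (y : Gm × Bool) (r : ℕ) : Prop :=
  0 < r ∧ ((f ^ r) y).1 ∈ U ∧ ∀ k : ℕ, 0 < k → k < r → ((f ^ k) y).1 ∉ U

theorem Ret.uniq {f : Equiv.Perm (Gm × Bool)} {U : Set Gm} {y : Gm × Bool} {r s : ℕ}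
    (h : Ret f U y r) (k : Ret f U y s) : r = s :=
  le_antisymm (not_lt.1 fun a => h.2.2 s k.1 a k.2.1) (not_lt.1 fun a => k.2.2 r h.1 a h.2.1)

theorem ev_one {p : Gm → Prop} : (∀ᶠ δ in 𝓝 (1 : Gm), p δ) ↔ ∃ r > 0, ∀ δ ∈ GI 0 r, p δ := by
  simp only [eventually_gm, one_mul]

theorem ev_mem {U : Set Gm} (h : CO U) (γ : Gm) : ∀ᶠ δ in 𝓝 (1 : Gm), (γ * δ ∈ U ↔ γ ∈ U) := by
  have c : Tendsto (γ * ·) (𝓝 1) (𝓝 γ) := by simpa using (continuous_gm_mul γ).tendsto 1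
  by_cases a : γ ∈ U
  · exact (c.eventually (h.2.mem_nhds a)).mono fun _ b => iff_of_true b a
  · exact (c.eventually (h.isClosed.isOpen_compl.mem_nhds a)).mono fun _ b => iff_of_false b a

end D_retA

open D_retA in
theorem p_D_RET :
    S_D_RET := by
  classical
  intro X U L hU hne hs
  have ex : ∀ y : Gm × Bool, ∃ r, (y.1 ∈ U → Ret L.f U y r) ∧ (y.1 ∉ U → r = 0) := fun y => by
    by_cases a : y.1 ∈ U
    · obtain ⟨B, hB⟩ := L.exists_visit hU.2 ⟨_, a, hs a⟩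
      obtain ⟨n, h1, -, h2⟩ := hB y (hs a)
      have e : ∃ n : ℕ, 0 < n ∧ ((L.f ^ n) y).1 ∈ U := ⟨n, h1, L.at_nat y n ▸ h2⟩
      exact ⟨Nat.find e, fun _ => ⟨(Nat.find_spec e).1, (Nat.find_spec e).2,
        fun k b c d => Nat.find_min e c ⟨b, d⟩⟩, fun b => absurd a b⟩
    · exact ⟨0, fun b => absurd b a, fun _ => rfl⟩
  choose r r1 r0 using ex
  have back : ∀ (y : Gm × Bool) (k l : ℕ),
      (L.f ^ k) (fl ((L.f ^ (k + l)) y)) = fl ((L.f ^ l) y) := fun y k l => by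
    rw [← zpow_natCast, L.zpow_fl, pow_add]
    simp
  have rev : ∀ y, (L.f ^ r (fl ((L.f ^ r y) y))) (fl ((L.f ^ r y) y)) = fl y := fun y => by
    by_cases a : y.1 ∈ U
    · obtain ⟨h1, h2, h3⟩ := r1 y a
      have e : (L.f ^ r y) (fl ((L.f ^ r y) y)) = fl y := back y (r y) 0
      rw [(r1 (fl ((L.f ^ r y) y)) h2).uniq (s := r y) ⟨h1, e ▸ a, fun k b c => ?_⟩, e]
      obtain ⟨l, hl⟩ := Nat.exists_eq_add_of_le c.le
      rw [hl, back]
      exact h3 l (by omega) (by omega)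
    · simp [r0 y a, r0 (fl y) a]
  obtain ⟨g, hg⟩ : ∃ g : Equiv.Perm (Gm × Bool), ∀ y, g y = (L.f ^ r y) y :=
    ⟨⟨fun y => (L.f ^ r y) y, fun y => fl ((L.f ^ r (fl y)) (fl y)),
      fun y => (congrArg fl (rev y)).trans (fl_fl y), fun y => (rev (fl y)).trans (fl_fl y)⟩,
      fun _ => rfl⟩
  have mem : ∀ y, (g y).1 ∈ U ↔ y.1 ∈ U := fun y => by
    rw [hg]
    by_cases a : y.1 ∈ U
    · exact iff_of_true (r1 y a).2.1 a
    · simp [r0 y a]
  have memz : ∀ (n : ℤ) y, ((g ^ n) y).1 ∈ U ↔ y.1 ∈ U := fun n => by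
    induction n using Int.induction_on with
    | zero => simp
    | succ n ih => exact fun y => by rw [zpow_add_one, Equiv.Perm.mul_apply, ih, mem]
    | pred n ih =>
      intro y
      rw [zpow_sub_one, Equiv.Perm.mul_apply, ih, ← mem]
      simp
  have time : ∀ (k : ℕ) y, y.1 ∈ U → ∃ t, k ≤ t ∧ (g ^ k) y = (L.f ^ t) y := fun k => by
    induction k with
    | zero => exact fun y _ => ⟨0, le_rfl, rfl⟩
    | succ k ih =>
      intro y a
      obtain ⟨t, h1, h2⟩ := ih (g y) ((mem y).2 a)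
      exact ⟨t + r y, by linarith [(r1 y a).1], by
        rw [pow_succ, pow_add, Equiv.Perm.mul_apply, Equiv.Perm.mul_apply, h2, hg]⟩
  have visit : ∀ (t : ℕ) y, y.1 ∈ U → ((L.f ^ t) y).1 ∈ U → ∃ k : ℤ, (g ^ k) y = (L.f ^ t) y :=
    fun t => by
      induction t using Nat.strong_induction_on with | _ t ih =>
      intro y a b
      rcases t.eq_zero_or_pos with rfl | t0
      · exact ⟨0, rfl⟩
      obtain ⟨l, rfl⟩ := Nat.exists_eq_add_of_le' (not_lt.1 fun c => (r1 y a).2.2 t t0 c b)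
      rw [pow_add, Equiv.Perm.mul_apply, ← hg] at b ⊢
      obtain ⟨k, hk⟩ := ih l (by linarith [(r1 y a).1]) _ ((mem y).2 a) b
      exact ⟨k + 1, by rw [zpow_add_one, Equiv.Perm.mul_apply, hk]⟩
  have inj : ∀ y, y.1 ∈ U → ∀ m n : ℤ, m ≤ n → ((g ^ m) y).1 = ((g ^ n) y).1 → m = n := by
    intro y a m n h e
    obtain ⟨k, rfl⟩ := Int.le.dest h
    have b := (memz m y).2 a
    obtain ⟨t, h1, h2⟩ := time k _ b
    rw [add_comm, zpow_add, Equiv.Perm.mul_apply, zpow_natCast, h2] at e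
    have := L.at_inj (m := 0) (n := t) (hs b) (by rw [L.at_zero, L.at_nat, ← e])
    omega
  refine ⟨⟨g, hU, hne, fun y => by simp only [hg, rev], mem, fun y a => ?_,
    fun y a m n e => (le_total m n).elim (inj y a m n · e) fun h => (inj y a n m h e.symm).symm,
    fun γ a β b => ?_⟩, hs, fun y a => ⟨r y, (r1 y a).1, hg y, (r1 y a).2.2⟩⟩
  · have e1 : ∀ᶠ δ in 𝓝 (1 : Gm), ∀ k ∈ Finset.range (r y + 1),
        (L.f ^ k) (y.1 * δ, y.2) = (((L.f ^ k) y).1 * δ, ((L.f ^ k) y).2) ∧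
          (((L.f ^ k) y).1 * δ ∈ U ↔ ((L.f ^ k) y).1 ∈ U) :=
      (eventually_all_finset _).2 fun k _ => Eventually.and
        ((ev_one.2 (L.zpow_eventually (hs a) k)).mono fun _ h => h.2) (ev_mem hU _)
    obtain ⟨s, s0, h⟩ := ev_one.1 (e1.and (ev_mem hU y.1))
    refine ⟨s, s0, fun δ b c => ?_⟩
    obtain ⟨h1, h2⟩ := h δ (mem_GI_of_Ioo b c)
    have h3 := h1 (r y) (by simp)
    obtain ⟨k1, k2, k3⟩ := r1 y a
    rw [hg, hg, (r1 (y.1 * δ, y.2) (h2.2 a)).uniq (s := r y) ⟨k1, h3.1 ▸ h3.2.2 k2, fun k p q => ?_⟩,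
      h3.1]
    have h4 := h1 k (Finset.mem_range.2 (by omega))
    rw [h4.1, h4.2]
    exact k3 k p q
  · refine closure_mono ?_ (hU.2.inter_closure ⟨b, L.den γ (hs a) (hs b)⟩)
    rintro _ ⟨c, n, rfl⟩
    obtain ⟨t, rfl | rfl⟩ := n.eq_nat_or_neg
    · exact (visit t _ a c).imp fun _ h => congrArg Prod.fst h
    · have e : (L.f ^ t) ((L.f ^ (-t : ℤ)) (γ, true)) = (γ, true) := by simp
      obtain ⟨k, hk⟩ := visit t _ c (e.symm ▸ a)
      refine ⟨-k, congrArg Prod.fst ?_⟩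
      rw [zpow_neg, Equiv.Perm.inv_eq_iff_eq, hk, e]

end Pool.Agent.P.MP_dba3d2_lc
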