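import Pool.Agent.P.MP_dba3d2_lc.D.Iface2
import Pool.Agent.P.MP_dba3d2_lc.D.LsB

/-! Step D_SAT of the stability project. -/

namespace Pool.Agent.P.MP_dba3d2_lc

open Set Filter Topology

namespace D_satA

variable {A : Gm → ℝ → ℝ → Prop} {X : Set Gm}

/-- families of germs on different leaves that can be moved to each other -/
def Fam (A : Gm → ℝ → ℝ → Prop) (L : LS X) (k : ℕ) : Prop :=
  ∃ γ : Fin k → Gm, (∀ i, γ i ∈ X) ∧ (∀ i j, L.Rel (γ i) (γ j) → i = j) ∧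
    ∀ i j, RW A (γ i) (γ j)

theorem fam_one (P : PG A) {L : LS X} (hL : L.Weak A) : Fam A L 1 := by
  obtain ⟨γ, hγ⟩ := L.ne
  exact ⟨fun _ => γ, fun _ => hγ, fun i j _ => Subsingleton.elim i j,
    fun _ _ => hL.rw P hγ (L.rel_refl γ)⟩

theorem exists_big (P : PG A) {L : LS X} (hL : L.Weak A) {k : ℕ} {γ : Fin k → Gm} (i0 : Fin k)
    (h1 : ∀ i, γ i ∈ X) (h3 : ∀ i j, RW A (γ i) (γ j)) :
    ∃ (κ : Type) (_ : Fintype κ) (T : Sys κ), T.In X ∧ T.Min X ∧ T.Weak A ∧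
      (∀ α ∈ X, ∀ β, L.Rel α β → T.Rel α β) ∧ ∀ i j, T.Rel (γ i) (γ j) := by
  obtain ⟨κ, _, ψ, W, hW, hc⟩ := L.exists_sys
  obtain ⟨r, r0, hr⟩ : ∃ r > 0, seg (γ i0) r ⊆ {α | ∀ j, α ∈ X ∧ γ j * (γ i0)⁻¹ * α ∈ X ∧
      RW A α (γ j * (γ i0)⁻¹ * α)} := by
    refine mem_nhds_gm.1 (eventually_all.2 fun j => ?_)
    have e : ∀ᶠ α in 𝓝 (γ i0), γ j * (γ i0)⁻¹ * α ∈ X :=
      (continuous_gm_mul (γ j * (γ i0)⁻¹)).continuousAt.preimage_mem_nhds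
        (L.co.2.mem_nhds (by simpa using h1 j))
    filter_upwards [L.co.2.mem_nhds (h1 i0), e, (h3 i0 j).eventually] with α a b c
    exact ⟨a, b, c⟩
  obtain ⟨ψ', W', k1, k2, k3, k4⟩ : ∃ (ψ' : κ ⊕ Fin k → Gm) (W' : κ ⊕ Fin k → Set Gm),
      (∀ a, CO (W' a)) ∧ (∀ a, ∀ α ∈ W' a, α ∈ X ∧ ψ' a * α ∈ X ∧ RW A α (ψ' a * α)) ∧
      (∀ y : Gm × Bool, y.1 ∈ X → ∃ a, y.1 ∈ W' a ∧ (L.f y).1 = ψ' a * y.1) ∧
      ∀ j, ∃ a, γ i0 ∈ W' a ∧ γ j = ψ' a * γ i0 := by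
    refine ⟨Sum.elim ψ fun j => γ j * (γ i0)⁻¹, Sum.elim W fun _ => seg (γ i0) r, ?_, ?_,
      fun y hy => ?_, fun j => ⟨Sum.inr j, self_mem_seg r0, by simp⟩⟩
    · rintro (a | j)
      exacts [(hW a).1, co_seg]
    · rintro (a | j) α hα
      · obtain ⟨e, he⟩ := (hW a).2.2 α hα
        have hX : α ∈ X := (hW a).2.1 hα
        refine ⟨hX, ?_, ?_⟩ <;> rw [Sum.elim_inl, ← he]
        · exact (L.mem (α, e)).2 hX
        · exact hL (α, e) hX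
      · exact hr hα j
    · obtain ⟨a, ha⟩ := hc y hy
      exact ⟨Sum.inl a, ha⟩
  obtain ⟨T, -, t1, t2, t3, t4, t5⟩ := Sys.exists_mk ψ' W' k1
  have hin : T.In X := by
    rintro ⟨a, b⟩ β hβ
    cases b
    · rw [t4] at hβ
      simpa using (k2 a _ hβ).2.1
    · rw [t3] at hβ
      exact (k2 a _ hβ).1
  have hrel : ∀ α ∈ X, ∀ β, L.Rel α β → T.Rel α β := fun α hα β h =>
    L.rel_sys (fun y hy => by
      obtain ⟨a, ha⟩ := k3 y hy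
      exact Sys.Step.rel ((t5 _ _).2 ⟨a, Or.inl ha⟩)) hα h
  have h0 : ∀ j, T.Rel (γ i0) (γ j) := fun j => by
    obtain ⟨a, ha⟩ := k4 j
    exact Sys.Step.rel ((t5 _ _).2 ⟨a, Or.inl ha⟩)
  refine ⟨_, inferInstance, T, hin, Sys.min_of_dense L.co L.ne hin.inv fun α hα => ?_, ?_, hrel,
    fun i j => (h0 i).symm.trans (h0 j)⟩
  · exact (L.den α hα).trans (closure_mono fun β hβ => hrel α hα β hβ)
  · rintro ⟨a, b⟩ β hβ
    cases b
    · rw [t4] at hβ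
      rw [t2]
      exact P.rw_symm (by simpa using (k2 a _ hβ).2.2)
    · rw [t3] at hβ
      rw [t1]
      exact (k2 a _ hβ).2.2

theorem sing (P : PG A) (L : LS X) {α β : Gm} (hα : α ∈ X) (h : L.Rel α β) (hne : α ≠ β)
    (hn : ¬RW2 A α β) :
    ∃ s : Gm × Bool, (s.1 ∈ X ∧ ¬RW2 A s.1 (L.f s).1) ∧ L.Rel α s.1 := by
  obtain ⟨m, rfl⟩ := h
  by_contra hc
  have k : ∀ t : ℤ, RW2 A ((L.f ^ t) (α, true)).1 (L.f ((L.f ^ t) (α, true))).1 := fun t => by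
    by_contra e
    exact hc ⟨_, ⟨L.at_mem (y := (α, true)) hα t, e⟩, t, rfl⟩
  rcases lt_trichotomy m 0 with e | e | e
  · have := L.rw2_stretch (y := (α, true)) P e fun t _ _ => k t
    rw [LS.at_zero] at this
    exact hn (P.rw2_symm this)
  · subst e
    exact hne (by simp)
  · have := L.rw2_stretch (y := (α, true)) P e fun t _ _ => k t
    rw [LS.at_zero] at this
    exact hn this

theorem fam_succ (P : PG A) {L : LS X} {k : ℕ} {g : Fin k → Gm} {γ β : Gm} (h1 : ∀ i, g i ∈ X)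
    (h2 : ∀ i j, L.Rel (g i) (g j) → i = j) (h3 : ∀ i, RW A γ (g i)) (hβ : β ∈ X)
    (h4 : ∀ i, ¬L.Rel (g i) β) (h5 : RW A γ β) : Fam A L (k + 1) := by
  have k3 : ∀ i, RW A γ ((Fin.cons β g : Fin (k + 1) → Gm) i) := Fin.cases h5 h3
  refine ⟨Fin.cons β g, Fin.cases hβ h1, fun i j => ?_,
    fun i j => P.rw_trans (P.rw_symm (k3 i)) (k3 j)⟩
  refine Fin.cases ?_ (fun i => ?_) i <;> refine Fin.cases ?_ (fun j => ?_) j
  · exact fun _ => rfl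
  · exact fun h => absurd h.symm (h4 j)
  · exact fun h => absurd h (h4 i)
  · exact fun h => congrArg Fin.succ (h2 i j h)

end D_satA

open D_satA in
theorem p_D_SAT (hD_ONE : S_D_ONE) (hD_RET : S_D_RET) (hD_STRAND : S_D_STRAND) (hD_ESS : S_D_ESS) :
    S_D_SAT := by
  classical
  intro A P ι _ S p q hin hmin hw
  obtain ⟨p1, q1, a1, a2, a3, H | ⟨L, hL, hLS⟩⟩ := hD_ONE A P ι S p q hin hmin hw
  · exact ⟨p1, q1, a1, a2, a3, Or.inl H⟩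
  have hfin := hL.finite_sing
  obtain ⟨n, hn⟩ : ∃ n, n = {y : Gm × Bool | y.1 ∈ GI p1 q1 ∧ ¬RW2 A y.1 (L.f y).1}.ncard :=
    ⟨_, rfl⟩
  obtain ⟨k, k1, ⟨γ, g1, g2, g3⟩, k3⟩ : ∃ k, 1 ≤ k ∧ Fam A L k ∧ (k ≤ n → ¬Fam A L (k + 1)) :=
    ⟨Nat.findGreatest (Fam A L) (n + 1), Nat.le_findGreatest (by omega) (fam_one P hL),
      Nat.findGreatest_spec (m := 1) (by omega) (fam_one P hL),
      fun h => Nat.findGreatest_is_greatest (Nat.lt_succ_self _) (Nat.succ_le_succ h)⟩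
  obtain ⟨κ, _, T, t1, t2, t3, t4, t5⟩ := exists_big P hL ⟨0, k1⟩ g1 g3
  obtain ⟨p2, q2, b1, b2, b3, H⟩ := hD_ONE A P κ T p1 q1 t1 t2 t3
  have hsub : GI p2 q2 ⊆ GI p1 q1 := GI_mono b1 b3
  refine ⟨p2, q2, a1.trans b1, b2, b3.trans a3, H.imp ?_ ?_⟩
  · rintro ⟨κ', w, T', c1, c2, c3, c4, c5⟩
    exact ⟨κ', w, T', c1, c2, c3, c4, fun α hα β hβ h =>
      c5 α hα β hβ (t4 α (hsub hα) β ((hLS α (hsub hα) β (hsub hβ)).2 h))⟩
  rintro ⟨L', hL', hLT⟩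
  have hne : (GI p2 q2).Nonempty := GI_nonempty.2 b2
  obtain ⟨L3, h3⟩ := hD_RET _ _ L co_GI hne hsub
  have up : ∀ α ∈ GI p2 q2, ∀ β ∈ GI p2 q2, L.Rel α β → L'.Rel α β := fun α hα β hβ h =>
    (hLT α hα β hβ).2 (t4 α (hsub hα) β h)
  obtain ⟨B, hB⟩ := L.exists_visit (U := GI p2 q2) isOpen_GI
    (by rwa [inter_eq_self_of_subset_left hsub])
  have mv : ∀ j, ∃ δ ∈ GI p2 q2, L.Rel (γ j) δ := fun j => by
    obtain ⟨m, -, -, hm⟩ := hB (γ j, true) (g1 j)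
    exact ⟨_, hm, m, rfl⟩
  choose δ d1 d2 using mv
  have ST := hD_STRAND _ L3 L'
    (fun α hα β h => up α hα β (h.mem hα) ((h3.rel hα (h.mem hα)).1 h)) k δ d1
    (fun i j h => g2 i j (((d2 i).trans ((h3.rel (d1 i) (d1 j)).1 h)).trans (d2 j).symm))
    (fun i j => (hLT _ (d1 i) _ (d1 j)).2
      (((t4 _ (g1 i) _ (d2 i)).symm.trans (t5 i j)).trans (t4 _ (g1 j) _ (d2 j))))
  have hk : k ≤ n := by
    obtain ⟨y, hy, n0, he⟩ := hD_ESS A P _ L' hL'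
    obtain ⟨x, x1, x2⟩ := ST y hy
    have m := fun t => L'.at_mem hy t
    have key : ∀ j, ∃ s : Gm × Bool, (s.1 ∈ GI p1 q1 ∧ ¬RW2 A s.1 (L.f s).1) ∧
        L.Rel (L'.at' y (x j)) s.1 := fun j => by
      obtain ⟨a, b, e1, e2, e3, e4⟩ := x2 j (n0 + 1)
      have f3 := (h3.rel (m _) (m _)).1 e3
      have f4 := (h3.rel (m _) (m _)).1 e4
      push_cast at e1 e2
      obtain ⟨s, s1, s2⟩ := sing P L (hsub (m a)) (f3.symm.trans f4)
        (fun e => by have := L'.at_inj hy e; omega) (he a b (by omega) (by omega))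
      exact ⟨s, s1, f3.trans s2⟩
    choose s s1 s2 using key
    have inj : Function.Injective s := fun i j e =>
      x1 i j ((h3.rel (m _) (m _)).2 ((s2 i).trans (e ▸ (s2 j).symm)))
    have := ncard_le_ncard (s := range s) (by rintro _ ⟨j, rfl⟩; exact s1 j) hfin
    rwa [ncard_range_of_injective inj, Nat.card_eq_fintype_card, Fintype.card_fin, ← hn] at this
  refine ⟨L', fun α hα β hβ => ⟨hL'.rw P hα, fun h => ?_⟩⟩
  obtain ⟨x, x1, -⟩ := ST (α, true) hα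
  have m := fun t => L'.at_mem (y := (α, true)) hα t
  by_contra hc
  refine k3 hk (fam_succ P (g := fun j => L'.at' (α, true) (x j)) (fun i => hsub (m _))
    (fun i j e => x1 i j ((h3.rel (m _) (m _)).2 e)) (fun i => hL'.rw P hα ⟨_, rfl⟩) (hsub hβ)
    (fun i e => hc (LS.Rel.trans ⟨_, rfl⟩ (up _ (m _) β hβ e))) h)

end Pool.Agent.P.MP_dba3d2_lc
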