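import Pool.Agent.P.MP_dba3d2_lc.D.Iface3
import Pool.Agent.P.MP_dba3d2_lc.D.SysC
import Pool.Agent.P.MP_dba3d2_lc.D.TreeB

/-! Step D_SETUP of the stability project. -/

namespace Pool.Agent.P.MP_dba3d2_lc

open Set Filter Topology

namespace D_setupA

open Classical in
/-- the point of the section of `w` at distance `s` -/
noncomputable def pt (R : LG) (P : ℝ → R.W) (a : R.W → ℝ) (w : R.W) (s : ℝ) : R.W :=
  if R.ℓ w = 0 then 1 else P (a w + s)

open Classical in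
/-- the value at this point -/
noncomputable def val (R : LG) (a : R.W → ℝ) {G : Type} [Group G] (n : ℝ → G) (w : R.W) (s : ℝ) :
    G :=
  if R.ℓ w = 0 then 1 else (n (a w))⁻¹ * n (a w + s)

/-- the sections -/
structure Sec (R : LG) (P : ℝ → R.W) (a : R.W → ℝ) (A : Finset R.W) : Prop where
  start : ∀ w ∈ A, 0 < R.ℓ w → P (a w) = 1
  stop : ∀ w ∈ A, 0 < R.ℓ w → P (a w + R.ℓ w) = w
  iso : ∀ w ∈ A, R.IsoOn P (a w) (a w + R.ℓ w)

/-- the data of a band -/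
structure Bd (R : LG) where
  w : R.W
  w' : R.W
  g : R.W
  φ : Gm
  s : ℝ
  t : ℝ
  s' : ℝ
  t' : ℝ

structure Bd.Ok {R : LG} (b : Bd R) (P : ℝ → R.W) (a : R.W → ℝ) (A : Finset R.W) : Prop where
  hw : b.w ∈ A
  hw' : b.w' ∈ A
  s0 : 0 ≤ b.s
  st : b.s ≤ b.t
  t1 : b.t ≤ R.ℓ b.w
  hs' : b.s' ∈ Icc 0 (R.ℓ b.w')
  ht' : b.t' ∈ Icc 0 (R.ℓ b.w')
  es : b.φ.ap (a b.w + b.s) = a b.w' + b.s'
  et : b.φ.ap (a b.w + b.t) = a b.w' + b.t'
  ds : R.d (b.g * pt R P a b.w b.s) (pt R P a b.w' b.s') = 0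
  dt : R.d (b.g * pt R P a b.w b.t) (pt R P a b.w' b.t') = 0

/-- the relation that a band imposes -/
def Bd.Eq {R : LG} (b : Bd R) (P : ℝ → R.W) (a : R.W → ℝ) {G : Type} [Group G] (j : R.W → G)
    (n : ℝ → G) : Prop :=
  val R a n b.w' b.s' * j ((pt R P a b.w' b.s')⁻¹ * b.g * pt R P a b.w b.s) *
      (val R a n b.w b.s)⁻¹ =
    val R a n b.w' b.t' * j ((pt R P a b.w' b.t')⁻¹ * b.g * pt R P a b.w b.t) *
      (val R a n b.w b.t)⁻¹

section
variable {R : LG} {P : ℝ → R.W} {a : R.W → ℝ} {A : Finset R.W} {w : R.W} {s : ℝ} {b : Bd R}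
  {G : Type} [Group G] {j : R.W → G} {n : ℝ → G}

theorem pos_of_ne (h : R.ℓ w ≠ 0) : 0 < R.ℓ w := lt_of_le_of_ne (LG.l_nonneg w) h.symm

theorem Sec.pt_zero (H : Sec R P a A) (hw : w ∈ A) : pt R P a w 0 = 1 := by
  unfold pt
  split_ifs with h
  · rfl
  · rw [add_zero, H.start w hw (pos_of_ne h)]

theorem val_zero : val R a n w 0 = 1 := by
  unfold val
  split_ifs <;> simp

theorem Sec.on (H : Sec R P a A) (hw : w ∈ A) (h0 : 0 ≤ s) (h1 : s ≤ R.ℓ w) :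
    R.On (pt R P a w s) 1 w ∧ R.d 1 (pt R P a w s) = s := by
  unfold pt
  split_ifs with h
  · exact ⟨LG.on_left _ _, by rw [LG.d_self]; linarith⟩
  · have h2 := pos_of_ne h
    have m1 : a w ∈ Icc (a w) (a w + R.ℓ w) := ⟨le_rfl, by linarith⟩
    have m2 : a w + R.ℓ w ∈ Icc (a w) (a w + R.ℓ w) := ⟨by linarith, le_rfl⟩
    have m3 : a w + s ∈ Icc (a w) (a w + R.ℓ w) := ⟨by linarith, by linarith⟩
    have e1 := (H.iso w hw).on m1 m2 (Icc_subset_uIcc m3)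
    have e2 := H.iso w hw _ m1 _ m3
    rw [H.start w hw h2] at e1 e2
    rw [H.stop w hw h2] at e1
    exact ⟨e1, by rw [e2, abs_of_nonpos (by linarith)]; ring⟩

theorem Sec.d_end (H : Sec R P a A) (hw : w ∈ A) : R.d (pt R P a w (R.ℓ w)) w = 0 := by
  obtain ⟨h1, h2⟩ := H.on hw (LG.l_nonneg w) le_rfl
  unfold LG.On at h1
  rw [h2, LG.d_one] at h1
  linarith

theorem Sec.io_eq (H : Sec R P a A) (hw : w ∈ A) (h1 : j 1 = 1) :
    R.io a j n w = val R a n w (R.ℓ w) * j ((pt R P a w (R.ℓ w))⁻¹ * w) := by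
  unfold LG.io val pt
  split_ifs with h
  · simp
  · rw [H.stop w hw (pos_of_ne h), inv_mul_cancel, h1, mul_one]

theorem Bd.Ok.ne (h : b.Ok P a A) (hst : b.s < b.t) :
    b.s' ≠ b.t' ∧ R.ℓ b.w ≠ 0 ∧ R.ℓ b.w' ≠ 0 := by
  have h1 : b.s' ≠ b.t' := fun e => by
    have := b.φ.ap_injective (h.es.trans (e ▸ h.et.symm))
    linarith
  exact ⟨h1, by linarith [h.s0, h.t1, hst] |> fun (k : 0 < R.ℓ b.w) => k.ne', fun e => h1 (by
    linarith [h.hs'.1, h.hs'.2, h.ht'.1, h.ht'.2])⟩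

theorem Bd.Ok.eq (h : b.Ok P a A)
    (k : b.s < b.t → n (b.φ.ap (a b.w + b.s)) * j (R.zeta P b.g b.φ (a b.w + b.s)) *
      (n (a b.w + b.s))⁻¹ = n (b.φ.ap (a b.w + b.t)) * j (R.zeta P b.g b.φ (a b.w + b.t)) *
      (n (a b.w + b.t))⁻¹) : b.Eq P a j n := by
  rcases h.st.eq_or_lt with e | e
  · have e' : b.s' = b.t' := by
      have := h.es
      rw [e, h.et] at this
      linarith
    rw [Bd.Eq, e, e']
  · obtain ⟨-, h1, h2⟩ := h.ne e
    have k' := k e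
    simp only [LG.zeta, h.es, h.et] at k'
    simp only [Bd.Eq, val, pt, if_neg h1, if_neg h2, mul_inv_rev, inv_inv]
    calc _ = (n (a b.w'))⁻¹ * (n (a b.w' + b.s') *
          j ((P (a b.w' + b.s'))⁻¹ * b.g * P (a b.w + b.s)) * (n (a b.w + b.s))⁻¹) * n (a b.w) := by
          simp only [mul_assoc]
      _ = _ := by rw [k']; simp only [mul_assoc]

end

variable {R : RT} {P : ℝ → R.W} {a : R.W → ℝ} {A : Finset R.W} {w w' : R.W} {b : Bd R.toLG}

theorem Bd.Ok.rl (H : Sec R.toLG P a A) (h : b.Ok P a A) (hst : b.s < b.t) :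
    R.Rl P b.g b.φ (a b.w + b.s) (a b.w + b.t) := by
  obtain ⟨-, h1, h2⟩ := h.ne hst
  have e1 := h.ds
  have e2 := h.dt
  simp only [pt, if_neg h1, if_neg h2, ← h.es, ← h.et] at e1 e2
  intro t ht
  refine R.match_ends (H.iso _ h.hw) (H.iso _ h.hw') ?_ ?_ ?_ ?_ e1 e2 t (Icc_subset_uIcc ht)
  · exact ⟨by linarith [h.s0], by linarith [h.t1]⟩
  · exact ⟨by linarith [h.s0], by linarith [h.t1]⟩
  · rw [h.es]; exact ⟨by linarith [h.hs'.1], by linarith [h.hs'.2]⟩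
  · rw [h.et]; exact ⟨by linarith [h.ht'.1], by linarith [h.ht'.2]⟩

/-- the three bands of a triangle -/
theorem tri (H : Sec R.toLG P a A) (hw : w ∈ A) (hw' : w' ∈ A) (hw'' : w * w' ∈ A) :
    ∃ b : Fin 3 → Bd R.toLG, (∀ i, (b i).Ok P a A) ∧
      ∀ (G : Type) [Group G] (j : R.W → G) (n : ℝ → G),
        (∀ z z', R.ℓ z = 0 → R.ℓ z' = 0 → j (z * z') = j z * j z') → (∀ i, (b i).Eq P a j n) →
        R.io a j n (w * w') = R.io a j n w * R.io a j n w' := by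
  obtain ⟨m, m1, m2, m3⟩ := R.exists_centre 1 w (w * w')
  have a0 : 0 ≤ R.d 1 m := LG.d_nonneg _ _
  have b0 : 0 ≤ R.d w m := LG.d_nonneg _ _
  have c0 : 0 ≤ R.d m (w * w') := LG.d_nonneg _ _
  have l1 : R.d 1 m + R.d w m = R.ℓ w := by rw [LG.d_comm w m, ← LG.d_one]; exact m1
  have l2 : R.d w m + R.d m (w * w') = R.ℓ w' := by
    rw [← LG.d_one, ← LG.d_mul_left w 1 w', mul_one]; exact m2
  have l3 : R.d 1 m + R.d m (w * w') = R.ℓ (w * w') := by rw [← LG.d_one]; exact m3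
  generalize hα : R.d 1 m = α at *
  generalize hβ : R.d w m = β at *
  generalize R.d m (w * w') = γ at *
  obtain ⟨o1, d1⟩ := H.on (s := α) hw a0 (by linarith)
  obtain ⟨o2, d2⟩ := H.on (s := β) hw' b0 (by linarith)
  obtain ⟨o3, d3⟩ := H.on (s := α) hw'' a0 (by linarith)
  have z1 : R.d (pt R.toLG P a w α) m = 0 := by rw [R.d_of_on o1 m1, d1, hα, sub_self, abs_zero]
  have z3 : R.d (pt R.toLG P a (w * w') α) m = 0 := by
    rw [R.d_of_on o3 m3, d3, hα, sub_self, abs_zero]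
  have z2 : R.d (w * pt R.toLG P a w' β) m = 0 := by
    have o2' := (LG.on_mul_left w).2 o2
    have d2' := (LG.d_mul_left w _ _).trans d2
    rw [mul_one] at o2' d2'
    rw [R.d_of_on o2' m2, d2', hβ, sub_self, abs_zero]
  have z13 := LG.d_zero_trans z1 (LG.d_zero_symm z3)
  have z21 := LG.d_zero_trans z2 (LG.d_zero_symm z1)
  have z23 := LG.d_zero_trans z2 (LG.d_zero_symm z3)
  have ze : R.d (w * pt R.toLG P a w' (R.ℓ w')) (pt R.toLG P a (w * w') (R.ℓ (w * w'))) = 0 :=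
    LG.d_zero_trans ((LG.d_mul_left w _ _).trans (H.d_end hw')) (LG.d_zero_symm (H.d_end hw''))
  refine ⟨![⟨w, w * w', 1, Gm.tau (a (w * w') - a w), 0, α, 0, α⟩,
    ⟨w', w, w, ⟨-1, a w + R.ℓ w + a w', Or.inr rfl⟩, 0, β, R.ℓ w, α⟩,
    ⟨w', w * w', w, Gm.tau (a (w * w') + α - a w' - β), β, R.ℓ w', α, R.ℓ (w * w')⟩],
    fun i => ?_, fun G _ j n hj hE => ?_⟩
  · fin_cases i
    · refine ⟨hw, hw'', le_rfl, a0, ?_, ⟨le_rfl, LG.l_nonneg _⟩, ⟨a0, ?_⟩, ?_, ?_, ?_, ?_⟩ <;>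
        dsimp
      · linarith
      · linarith
      · rw [Gm.tau_ap]; ring
      · rw [Gm.tau_ap]; ring
      · rw [H.pt_zero hw, H.pt_zero hw'', one_mul, LG.d_self]
      · rw [one_mul]; exact z13
    · refine ⟨hw', hw, le_rfl, b0, ?_, ⟨LG.l_nonneg _, le_rfl⟩, ⟨a0, ?_⟩, ?_, ?_, ?_, z21⟩ <;>
        dsimp
      · linarith
      · linarith
      · simp only [Gm.ap]; ring
      · simp only [Gm.ap]; linarith
      · rw [H.pt_zero hw', mul_one]; exact LG.d_zero_symm (H.d_end hw)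
    · refine ⟨hw', hw'', b0, ?_, le_rfl, ⟨a0, ?_⟩, ⟨LG.l_nonneg _, le_rfl⟩, ?_, ?_, z23, ze⟩ <;>
        dsimp
      · linarith
      · linarith
      · rw [Gm.tau_ap]; ring
      · rw [Gm.tau_ap]; linarith
  have j1 : j 1 = 1 := by
    have := hj 1 1 R.l_one R.l_one
    rw [mul_one] at this
    exact left_eq_mul.1 this
  have E1 := hE 0
  have E2 := hE 1
  have E3 := hE 2
  simp only [Bd.Eq, Matrix.cons_val_zero, Matrix.cons_val_one, Matrix.cons_val, val_zero,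
    H.pt_zero hw, H.pt_zero hw', H.pt_zero hw'', inv_one, mul_one, one_mul, j1] at E1 E2 E3
  have J1 := hj _ _ (LG.d_zero_symm z13) (LG.d_zero_symm z21)
  have J2 := hj _ _ (LG.d_zero_symm ze) (H.d_end hw')
  rw [H.io_eq hw j1, H.io_eq hw' j1, H.io_eq hw'' j1, E2]
  simp only [mul_assoc, mul_inv_cancel_left] at J1 J2 E1 E3 ⊢
  rw [J1] at E3
  rw [J2]
  generalize val R.toLG a n (w * w') α = X3 at *
  generalize val R.toLG a n w α = X1 at *
  generalize j ((pt R.toLG P a (w * w') α)⁻¹ * pt R.toLG P a w α) = c at *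
  have e : X1 = X3 * c := by
    rw [← mul_assoc, eq_mul_inv_iff_mul_eq, one_mul] at E1
    exact E1
  have key : ∀ V'' q V' r c' X2 : G, X3 * (c * c' * X2⁻¹) = V'' * (q * V'⁻¹) →
      V'' * (q * r) = X3 * c * (c' * (X2⁻¹ * (V' * r))) := fun V'' q V' r c' X2 h => by
    calc V'' * (q * r) = V'' * (q * V'⁻¹) * (V' * r) := by group
      _ = _ := by rw [← h]; group
  rw [e]
  exact key _ _ _ _ _ _ E3

end D_setupA

open D_setupA in
theorem p_D_SETUP (hD_SECT : S_D_SECT) :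
    S_D_SETUP := by
  intro R A
  obtain ⟨P, a, h1, h2, h3, h4⟩ := hD_SECT R A
  have H : Sec R.toLG P a A := ⟨h1, h2, h3⟩
  let T := {p : R.W × R.W | p.1 ∈ A ∧ p.2 ∈ A ∧ p.1 * p.2 ∈ A}
  have hT : T.Finite := (A.finite_toSet.prod A.finite_toSet).subset fun p hp => ⟨hp.1, hp.2.1⟩
  haveI := hT.to_subtype
  choose b hb hE using fun p : T => tri H p.2.1 p.2.2.1 p.2.2.2
  obtain ⟨S, -, e1, e2, e3, e4, -⟩ := Sys.exists_mk (κ := T × Fin 3) (fun k => (b k.1 k.2).φ)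
    (fun k => GI (a (b k.1 k.2).w + (b k.1 k.2).s) (a (b k.1 k.2).w + (b k.1 k.2).t))
    fun _ => co_GI
  refine ⟨_, Fintype.ofFinite _, S, P,
    fun i => cond i.2 (b i.1.1 i.1.2).g (b i.1.1 i.1.2).g⁻¹, a, h1, h2, h3, h4, ?_,
    fun G _ j n hj hn w hw w' hw' hw'' => hE ⟨(w, w'), hw, hw', hw''⟩ G j n hj fun i =>
      (hb _ i).eq fun hst => ?_⟩
  · rintro ⟨k, c⟩
    have ok := hb k.1 k.2
    rcases ok.st.eq_or_lt with e | e
    · left
      have e0 : GI (a (b k.1 k.2).w + (b k.1 k.2).s) (a (b k.1 k.2).w + (b k.1 k.2).t) = ∅ :=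
        GI_eq_empty (by rw [e])
      cases c
      · rw [e4, e0]; rfl
      · rw [e3, e0]
    right
    have hrl := ok.rl H e
    have hle : a (b k.1 k.2).w + (b k.1 k.2).s ≤ a (b k.1 k.2).w + (b k.1 k.2).t := by linarith
    cases c
    · refine ⟨_, _, ?_, by rw [e4, tr_GI hle], fun t ht => ?_, _, ok.hw', ?_, ?_⟩
      · rw [ok.es, ok.et]
        exact min_lt_max.2 fun x => (ok.ne e).1 (add_left_cancel x)
      · have m : (b k.1 k.2).φ⁻¹.ap t ∈ Icc (a (b k.1 k.2).w + (b k.1 k.2).s)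
            (a (b k.1 k.2).w + (b k.1 k.2).t) := by
          rw [← uIcc_of_le hle, ← (b k.1 k.2).φ.ap_mem_uIcc, Gm.ap_inv_ap]
          exact ht
        have := hrl _ m
        rw [Gm.ap_inv_ap] at this
        rw [e2, cond_false, LG.d_inv_mul]
        exact LG.d_zero_symm this
      · rw [ok.es, ok.et]
        exact le_min (by linarith [ok.hs'.1]) (by linarith [ok.ht'.1])
      · rw [ok.es, ok.et]
        exact max_le (by linarith [ok.hs'.2]) (by linarith [ok.ht'.2])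
    · exact ⟨_, _, by linarith, e3 k, by rw [e1]; exact hrl, _, ok.hw, by linarith [ok.s0],
        by linarith [ok.t1]⟩
  · have := hn ((⟨(w, w'), hw, hw', hw''⟩, i), true) _ _ (by linarith) (e3 _)
    rw [e1] at this
    exact this

end Pool.Agent.P.MP_dba3d2_lc
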