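import Pool.Agent.P.MP_dba3d2_lc.D.Iface4
import Pool.Agent.P.MP_dba3d2_lc.D.T0B

/-! Step D_SHOM of the stability project. -/

namespace Pool.Agent.P.MP_dba3d2_lc

open Set Filter Topology

theorem p_D_SHOM (hD_EXT : S_D_EXT) :
    S_D_SHOM := by
  intro R P p q hpq hP N hN
  obtain ⟨σ, h1, h2⟩ := (hD_EXT R P p q hP).2 N hN
  have hp : p ∈ Icc p q := ⟨le_rfl, hpq.le⟩
  let c : R.QJ P p q →* R.T0 P p q := MonoidHom.mk'
    (fun g => ⟨(P p)⁻¹ * g * P p, LG.conj_mem_T0 g.2 hp hp⟩) fun g g' => Subtype.ext (by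
      simp only [Subgroup.coe_mul]
      group)
  let s : R.QJ P p q →* R.W := MonoidHom.mk'
    (fun g => N p * P p * σ (c g) * (N p * P p)⁻¹) fun g g' => by
      rw [map_mul, map_mul]
      group
  have key : ∀ u ∈ Icc p q, ∀ v ∈ Icc p q, ∀ (g : R.QJ P p q) (t : R.T0 P p q),
      (t : R.W) = (P u)⁻¹ * g * P v → σ t = (P u)⁻¹ * ((N u)⁻¹ * s g * N v) * P v := by
    intro u hu v hv g t ht
    have e : t = ⟨_, LG.path_mem_T0 hu hp⟩ * c g * ⟨_, LG.path_mem_T0 hp hv⟩ := Subtype.ext (by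
      change _ = (P u)⁻¹ * P p * ((P p)⁻¹ * g * P p) * ((P p)⁻¹ * P v)
      rw [ht]
      group)
    rw [e, map_mul, map_mul, h2 u hu p hp ⟨_, LG.path_mem_T0 hu hp⟩ rfl,
      h2 p hp v hv ⟨_, LG.path_mem_T0 hp hv⟩ rfl]
    change _ = (P u)⁻¹ * ((N u)⁻¹ * (N p * P p * σ (c g) * (N p * P p)⁻¹) * N v) * P v
    group
  refine ⟨σ, s, h1, key, fun u hu v hv g hg => ?_⟩
  have hz : R.ℓ ((P v)⁻¹ * g * P u) = 0 := by
    rw [mul_assoc]
    exact LG.d_zero_symm hg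
  have e := key v hv u hu g ⟨_, LG.tiny_mem_T0 hz⟩ rfl
  rw [h1 _ (LG.fr_tiny hz)] at e
  have e' : (g : R.W) = (N v)⁻¹ * s g * N u := mul_left_cancel (mul_right_cancel e)
  conv_rhs => rw [e']
  group

end Pool.Agent.P.MP_dba3d2_lc
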