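import Pool.Agent.P.MP_dba3d2_lc.D.Iface2
import Pool.Agent.P.MP_dba3d2_lc.D.PgB

/-! Step D_SLIDE of the stability project. -/

namespace Pool.Agent.P.MP_dba3d2_lc

open Set Filter Topology

namespace D_slideA

variable {A : Gm → ℝ → ℝ → Prop} {φ ψ : Gm} {U V : Set Gm}

/-- `φ` is realised on every segment inside `U` -/
def Ar (A : Gm → ℝ → ℝ → Prop) (φ : Gm) (U : Set Gm) : Prop :=
  ∀ a b, a < b → GI a b ⊆ U → A φ a b

theorem tr_GI' (φ : Gm) {a b : ℝ} (h : a < b) : ∃ u v, u < v ∧ tr φ (GI a b) = GI u v := by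
  refine ⟨_, _, ?_, tr_GI h.le⟩
  obtain ⟨γ, k⟩ := GI_nonempty.2 h
  exact lt_of_mem_GI (tr_GI (φ := φ) h.le ▸ mul_mem_tr.2 k)

theorem Ar.inv (P : PG A) (h : Ar A φ U) : Ar A φ⁻¹ (tr φ U) := by
  intro a b h1 h2
  obtain ⟨u, v, k1, k2⟩ := tr_GI' φ⁻¹ h1
  refine P.arc_inv (h u v k1 ?_) h1 ?_
  · rw [← k2]
    intro γ k
    simpa using h2 k
  · rw [← k2, tr_tr, mul_inv_cancel, tr_one]

theorem Ar.comp (P : PG A) (h : Ar A φ U) (k : Ar A ψ V) (e : tr φ U ⊆ V) : Ar A (ψ * φ) U := by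
  intro a b h1 h2
  obtain ⟨u, v, k1, k2⟩ := tr_GI' φ h1
  exact P.arc_comp (h a b h1 h2) (k u v k1 (k2 ▸ (tr_mono h2).trans e)) k2.le

/-- the system obtained by moving the base of `i` with `L i` -/
def mv {ι : Type} (S : Sys ι) (L : ι → Gm) : Sys ι where
  inv := S.inv
  φ i := L (S.inv i) * S.φ i * (L i)⁻¹
  dom i := tr (L i) (S.dom i)
  inv_inv := S.inv_inv
  φ_inv i := by rw [S.inv_inv, S.φ_inv]; group
  co i := (S.co i).tr _
  map i γ h := by simpa [mul_assoc] using S.map i _ h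

theorem mv_rel {ι : Type} (S : Sys ι) (L : ι → Gm)
    (h1 : ∀ i, ∀ γ ∈ S.dom i, S.Rel γ (L i * γ))
    (h2 : ∀ i, ∀ γ ∈ S.dom i, (mv S L).Rel γ (L i * γ)) (γ β : Gm) :
    (mv S L).Rel γ β ↔ S.Rel γ β := by
  refine ⟨Sys.rel_of_step ?_, Sys.rel_of_step ?_⟩
  · rintro γ _ ⟨i, k, rfl⟩
    have k1 : (L i)⁻¹ * γ ∈ S.dom i := k
    have k2 := h1 i _ k1
    rw [mul_inv_cancel_left] at k2
    have k3 := (k2.symm.trans (Sys.rel_φ k1)).trans (h1 _ _ (S.map i _ k1))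
    simpa [mv, mul_assoc] using k3
  · rintro γ _ ⟨i, k, rfl⟩
    have k1 : L i * γ ∈ (mv S L).dom i := mul_mem_tr.2 k
    have k2 := (h2 i γ k).trans (Sys.rel_φ k1)
    have e : (mv S L).φ i * (L i * γ) = L (S.inv i) * (S.φ i * γ) := by simp [mv, mul_assoc]
    rw [e] at k2
    exact k2.trans (h2 _ _ (S.map i γ k)).symm

end D_slideA

open D_slideA in
theorem p_D_SLIDE :
    S_D_SLIDE := by
  classical
  intro A P ι _ S k B hk hk' hB hI
  obtain ⟨L, L1, L0⟩ : ∃ L : ι → Gm, (∀ i ∈ B, L i = S.φ k) ∧ ∀ i, i ∉ B → L i = 1 :=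
    ⟨fun i => if i ∈ B then S.φ k else 1, fun i h => if_pos h, fun i h => if_neg h⟩
  have d0 : ∀ i, i ∉ B → (mv S L).dom i = S.dom i := fun i h => by
    change tr (L i) _ = _
    rw [L0 i h, tr_one]
  have f0 : ∀ i, i ∉ B → S.inv i ∉ B → (mv S L).φ i = S.φ i := fun i h h' => by
    change L (S.inv i) * S.φ i * (L i)⁻¹ = _
    rw [L0 i h, L0 _ h']
    simp
  have ar : ∀ i, Ar A (S.φ i) (S.dom i) := P.arcs_of_intv hI
  have ar' : ∀ i ∈ B, Ar A (S.φ k) (S.dom i) := fun i h a b x y => ar k a b x (y.trans (hB i h))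
  have a1 : ∀ i, Ar A (S.φ i * (L i)⁻¹) (tr (L i) (S.dom i)) := fun i => by
    by_cases h : i ∈ B
    · rw [L1 i h]
      exact ((ar' i h).inv P).comp P (ar i) (by rw [tr_tr, inv_mul_cancel, tr_one])
    · rw [L0 i h, inv_one, mul_one, tr_one]
      exact ar i
  have a2 : ∀ i, Ar A ((mv S L).φ i) ((mv S L).dom i) := fun i => by
    change Ar A (L (S.inv i) * S.φ i * (L i)⁻¹) (tr (L i) (S.dom i))
    by_cases h : S.inv i ∈ B
    · rw [L1 _ h, mul_assoc]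
      exact (a1 i).comp P (ar' _ h) (by rw [tr_tr, inv_mul_cancel_right, S.dom_inv])
    · rw [L0 _ h, one_mul]
      exact a1 i
  refine ⟨mv S L, rfl, fun i h => ?_, d0, f0, fun i => ?_, mv_rel S L (fun i γ h => ?_)
    fun i γ h => ?_, Finset.sum_congr rfl fun i _ => mu_tr (S.co i) _⟩
  · change tr (L i) _ = _
    rw [L1 i h]
  · rcases hI i with h | ⟨u, v, h1, h2⟩
    · refine Or.inl ?_
      change tr (L i) (S.dom i) = ∅
      rw [h]
      rfl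
    · obtain ⟨a, b, k1, k2⟩ := tr_GI' (L i) (P.lt _ _ _ h2)
      have e : (mv S L).dom i = GI a b := by rw [← k2, ← h1]; rfl
      exact Or.inr ⟨a, b, e, a2 i a b k1 e.ge⟩
  · by_cases c : i ∈ B
    · rw [L1 i c]
      exact Sys.rel_φ (hB i c h)
    · rw [L0 i c, one_mul]
      exact Sys.Rel.refl _ _
  · by_cases c : i ∈ B
    · rw [L1 i c, ← f0 k hk hk']
      exact Sys.rel_φ (by rw [d0 k hk]; exact hB i c h)
    · rw [L0 i c, one_mul]
      exact Sys.Rel.refl _ _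

end Pool.Agent.P.MP_dba3d2_lc
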