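import Pool.Agent.P.MP_dba3d2_lc.D.Iface4
import Pool.Agent.P.MP_dba3d2_lc.D.HullB

/-! Step D_STAGE1 of the stability project. -/

namespace Pool.Agent.P.MP_dba3d2_lc

open Set Filter Topology

theorem p_D_STAGE1 (hD_DISC : S_D_DISC) :
    S_D_STAGE1 := by
  classical
  intro A X L0 z z' L Ω V C hV
  obtain ⟨d1, d2, d3, -⟩ := hD_DISC A X L0 z z' L Ω C
  have ds : ∀ y : Gm × Bool, y.1 ∈ GI z z' → Disc L0 (GI z z') Ω y → y ∈ L.DS V := fun y hy h =>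
    ⟨hy, (hV _).2 ⟨y, hy, rfl, h⟩, (hV _).2 ⟨fl (L.f y), (L.mem y).2 hy, rfl, d1 y hy h⟩⟩
  have d0 : ∀ y : Gm × Bool, y.1.c ∈ Ω → Disc L0 (GI z z') Ω y := fun y h =>
    ⟨0, by simpa using h, fun j _ b => absurd b (Nat.not_lt_zero j)⟩
  have zz : z < z' := GI_nonempty.1 L.ne
  refine ⟨fun t ht => ?_, fun y hy => ?_, fun t ht => ?_, fun α hα h => ?_⟩
  · obtain ⟨y, a, b, c⟩ := (hV t).1 ht
    exact ⟨y, ds y a c, b⟩
  · obtain ⟨γ, e⟩ := y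
    have hE : {t | ∃ β ∈ GI z z', β.c = t ∧ Disc L0 (GI z z') Ω (β, e)}.Finite :=
      V.finite_toSet.subset fun t ⟨β, a, b, c⟩ => (hV t).2 ⟨(β, e), a, b, c⟩
    obtain ⟨s, ⟨β₀, b1, b2, b3⟩, t, -, h1, h2, h3, h4, h5⟩ := exists_cell hE
      ⟨Gm.tau z, tau_mem_GI.2 ⟨le_rfl, zz⟩, rfl, d0 _ C.left⟩
      ⟨(Gm.tau z').opp, opp_tau_mem_GI.2 ⟨zz, le_rfl⟩, by simp, d0 _ (by simpa using C.right)⟩ hy
    have sub : GI s t ⊆ GI z z' := GI_mono h1 h3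
    have nd := fun (β : Gm) (a : s < β.c) (b : β.c < t) => d3 (β, e) (sub (mem_GI_of_Ioo a b))
      fun c => h4 β.c ⟨β, sub (mem_GI_of_Ioo a b), rfl, c⟩ ⟨a, b⟩
    have key : ∀ β ∈ GI s t, (L.f (β, e)).1 = (L.f (γ, e)).1 * γ⁻¹ * β := fun β hβ => by
      refine eq_mul_of_mul_inv_eq
        (const_on_GI (f := fun β => (L.f (β, e)).1 * β⁻¹) (fun δ hδ => ?_) (fun δ a b => ?_) hβ h5)
      · obtain ⟨r, r0, hr⟩ := L.loc (δ, e) (sub hδ)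
        exact eventually_gm'.2 ⟨rfl, r, r0, fun ε a b => by rw [hr ε a b]; group⟩
      · rw [(nd δ a b).2.2.1]
        unfold Gm.opp
        group
    have m : Gm.tau s ∈ GI s t := tau_mem_GI.2 ⟨le_rfl, h2⟩
    refine ⟨(Gm.tau s, e), ds _ (sub m) ?_, _, s, t, C.pg.arc_of_local h2 (fun β hβ => ?_)
      fun β a b => ?_, h5, m, key γ h5, key _ m⟩
    · by_cases h6 : s ∈ Ω
      · exact d0 _ h6
      rcases Gm.eq_or_opp (γ := Gm.tau s) (β := β₀) b2 with rfl | rfl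
      · exact b3
      · simpa using d2 ((Gm.tau s).opp, e) b1 (by simpa using h6) b3
    · rw [← key β hβ]
      exact C.ret.weak C.pg C.weak (β, e) (sub hβ)
    · rw [← key β (mem_GI_of_Ioo a b)]
      exact (nd β a b).2.2.2
  · obtain ⟨y, a, rfl, k, c, -⟩ := (hV t).1 ht
    have ex : ∃ k : ℕ, (L0.at' y k).c ∈ Ω := ⟨k, c⟩
    have h1 := Nat.find_spec ex
    rcases Nat.eq_zero_or_pos (Nat.find ex) with h0 | h0
    · rw [h0, Nat.cast_zero, L0.at_zero] at h1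
      by_contra h2
      rw [not_or, not_or] at h2
      exact C.free _ h1 ⟨a.1.lt_of_ne' h2.1, a.2.1.lt_of_ne h2.2.1⟩
    · exact Or.inr (Or.inr ⟨_, _, h1, rfl, C.pg.rw2_symm
        (C.hull.rw2_pow C.pg (C.ret.1 a) h0 fun k hk => Nat.find_min ex hk)⟩)
  · obtain ⟨B, hB⟩ := L0.exists_visit (U := GI z z') isOpen_GI
      (by rw [inter_eq_left.2 C.ret.1]; exact L.ne)
    obtain ⟨n, n0, -, n1⟩ := hB (α, true) hα
    have ex : ∃ k : ℕ, 0 < k ∧ L0.at' (α, true) k ∈ GI z z' := ⟨n, n0, n1⟩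
    have h1 := Nat.find_spec ex
    refine ⟨_, h1.2, (hV _).2 ⟨fl ((L0.f ^ (Nat.find ex : ℤ)) (α, true)), h1.2, rfl, Nat.find ex,
      ?_, fun j a b c => ?_⟩, _, rfl⟩
    · rwa [L0.at_fl, L0.at_add, neg_add_cancel, L0.at_zero]
    · rw [L0.at_fl, L0.at_add, neg_add_eq_sub, ← Nat.cast_sub b.le] at c
      exact Nat.find_min ex (Nat.sub_lt h1.1 a) ⟨Nat.sub_pos_of_lt b, c⟩

end Pool.Agent.P.MP_dba3d2_lc
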