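import Pool.Agent.P.MP_dba3d2_lc.D.Iface4
import Pool.Agent.P.MP_dba3d2_lc.D.HullB

/-! Step D_STAGE2 of the stability project. -/

namespace Pool.Agent.P.MP_dba3d2_lc

open Set Filter Topology

namespace D_stage2A

variable {A : Gm → ℝ → ℝ → Prop} {X : Set Gm} {L0 : LS X} {z z' : ℝ} {L : LS (GI z z')}
  {Ω V : Finset ℝ} {W : Set ℝ} {y : Gm × Bool} {γ β : Gm}

/-- germs whose leaf misses `Ω` -/
def Reg (L0 : LS X) (Ω : Finset ℝ) (γ : Gm) : Prop := γ ∈ X ∧ ∀ β, L0.Rel γ β → β.c ∉ Ω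
/-- the points of the leaf inside the segment -/
def PL (L0 : LS X) (z z' : ℝ) (γ : Gm) : Set ℝ :=
  {t | z < t ∧ t < z' ∧ ∃ β, L0.Rel γ β ∧ β.c = t}

theorem Reg.rel (h : Reg L0 Ω γ) (k : L0.Rel γ β) : Reg L0 Ω β :=
  ⟨k.mem h.1, fun α e => h.2 α (k.trans e)⟩

theorem PL_rel (k : L0.Rel γ β) : PL L0 z z' γ = PL L0 z z' β :=
  Set.ext fun _ => and_congr_right fun _ => and_congr_right fun _ =>
    ⟨fun ⟨α, a, b⟩ => ⟨α, k.symm.trans a, b⟩, fun ⟨α, a, b⟩ => ⟨α, k.trans a, b⟩⟩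

theorem Reg.opp (H : L0.Hull A Ω) (h : Reg L0 Ω γ) :
    Reg L0 Ω γ.opp ∧ PL L0 z z' γ.opp = PL L0 z z' γ := by
  have k := H.at_opp_int (y := (γ, true)) h.1 fun n => h.2 _ ⟨n, rfl⟩
  refine ⟨⟨(H.par (γ, true) h.1 (h.2 _ (L0.rel_refl γ))).1, ?_⟩, Set.ext fun t =>
    and_congr_right fun _ => and_congr_right fun _ => ⟨?_, ?_⟩⟩
  · rintro _ ⟨n, rfl⟩
    rw [k n, Gm.opp_c]
    exact h.2 _ ⟨n, rfl⟩
  · rintro ⟨_, ⟨n, rfl⟩, e⟩
    exact ⟨_, ⟨n, rfl⟩, by rwa [k n, Gm.opp_c] at e⟩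
  · rintro ⟨_, ⟨n, rfl⟩, e⟩
    exact ⟨_, ⟨n, rfl⟩, by rwa [k n, Gm.opp_c]⟩

/-- `W` contains `Ω` and one point of every regular leaf -/
structure Rt (L0 : LS X) (z z' : ℝ) (Ω : Finset ℝ) (W : Set ℝ) : Prop where
  sub : ∀ t ∈ Ω, t ∈ W
  ne : ∀ y : Gm × Bool, y.1 ∈ X → ∃ n, (L0.at' y n).c ∈ W
  alt : ∀ y : Gm × Bool, y.1 ∈ X → ∀ n, (L0.at' y n).c ∈ W → (L0.at' y n).c ∈ Ω ∨
    (L0.at' y n ∈ GI z z' ∧ ∀ m, (L0.at' y m).c ∈ W → m = n)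

theorem exists_rt (C : RCtx A L0 L Ω) : ∃ W, Rt L0 z z' Ω W := by
  obtain ⟨rt, h1, h2⟩ : ∃ rt : Gm → ℝ, (∀ γ, Reg L0 Ω γ → rt γ ∈ PL L0 z z' γ) ∧
      ∀ γ β, PL L0 z z' γ = PL L0 z z' β → rt γ = rt β := by
    refine ⟨fun γ => Classical.epsilon (· ∈ PL L0 z z' γ), fun γ h => Classical.epsilon_spec
      (p := (· ∈ PL L0 z z' γ)) ?_, fun γ β e => by simp only [e]⟩
    obtain ⟨β, a, b, c, -⟩ := C.hull.turn C.pg h.1 (h.2 _ (L0.rel_refl γ))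
      (GI_nonempty.1 L.ne) C.ret.1
    exact ⟨_, a, b, β, c, rfl⟩
  have h3 : ∀ γ β, Reg L0 Ω γ → rt γ = β.c → Reg L0 Ω β ∧ rt β = β.c := fun γ β h e => by
    obtain ⟨-, -, α, a, b⟩ := h1 γ h
    rcases Gm.eq_or_opp (e.symm.trans b.symm) with k | k
    · exact ⟨k ▸ h.rel a, by rw [← e, k]; exact h2 _ _ (PL_rel a).symm⟩
    · obtain ⟨k1, k2⟩ := Reg.opp (z := z) (z' := z') C.hull (h.rel a)
      exact ⟨k ▸ k1, by rw [← e, k]; exact h2 _ _ (k2.trans (PL_rel a).symm)⟩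
  have r0 : ∀ (y : Gm × Bool) n, L0.Rel y.1 (L0.at' y n) := fun y n =>
    (L0.rel_iff y.2).2 ⟨n, rfl⟩
  refine ⟨{t | t ∈ Ω ∨ ∃ γ, Reg L0 Ω γ ∧ rt γ = t}, fun t ht => Or.inl ht, fun y hy => ?_,
    fun y hy n hn => hn.imp_right ?_⟩
  · by_cases h : Reg L0 Ω y.1
    · obtain ⟨-, -, α, a, b⟩ := h1 _ h
      obtain ⟨n, rfl⟩ := (L0.rel_iff y.2).1 a
      exact ⟨n, Or.inr ⟨_, h, b.symm⟩⟩
    · by_contra hc
      refine h ⟨hy, fun α a b => ?_⟩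
      obtain ⟨n, rfl⟩ := (L0.rel_iff y.2).1 a
      exact hc ⟨n, Or.inl b⟩
  · rintro ⟨γ, h, e⟩
    obtain ⟨k1, k2⟩ := h3 γ _ h e
    have k3 := k1.rel (r0 y n).symm
    have k4 := h1 γ h
    refine ⟨mem_GI_of_Ioo (e ▸ k4.1) (e ▸ k4.2.1), fun m hm => ?_⟩
    rcases hm with hm | ⟨γ', h', e'⟩
    · exact absurd hm (k3.2 _ (r0 y m))
    · refine C.hull.pt_inj hy (fun j => k3.2 _ (r0 y j)) ?_
      rw [← k2, ← (h3 γ' _ h' e').2]
      exact h2 _ _ (PL_rel (L0.rel_at y m n))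

/-- the distance to `W` along the leaf -/
noncomputable def D (L0 : LS X) (W : Set ℝ) (y : Gm × Bool) : ℕ :=
  sInf {k : ℕ | (L0.at' y k).c ∈ W ∨ (L0.at' y (-k)).c ∈ W}

theorem D_fl : D L0 W (fl y) = D L0 W y := by
  simp only [D, L0.at_fl, neg_neg, or_comm]

theorem D_le {k : ℕ} (h : (L0.at' y k).c ∈ W) : D L0 W y ≤ k := Nat.sInf_le (Or.inl h)

theorem D_spec (R : Rt L0 z z' Ω W) (hy : y.1 ∈ X) :
    (L0.at' y (D L0 W y)).c ∈ W ∨ (L0.at' y (-D L0 W y)).c ∈ W := by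
  refine Nat.sInf_mem (s := {k : ℕ | (L0.at' y k).c ∈ W ∨ (L0.at' y (-k)).c ∈ W}) ?_
  obtain ⟨n, hn⟩ := R.ne y hy
  obtain ⟨m, rfl | rfl⟩ := Int.eq_nat_or_neg n
  exacts [⟨m, Or.inl hn⟩, ⟨m, Or.inr hn⟩]

theorem D_opp_le (H : L0.Hull A Ω) (R : Rt L0 z z' Ω W) (hy : y.1 ∈ X) :
    D L0 W (y.1.opp, y.2) ≤ D L0 W y := by
  have key : ∀ y : Gm × Bool, y.1 ∈ X → (L0.at' y (D L0 W y)).c ∈ W →
      D L0 W (y.1.opp, y.2) ≤ D L0 W y := fun y hy h => by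
    refine D_le ?_
    rwa [H.at_opp hy _ fun k hk e => absurd (D_le (R.sub _ e)) (not_le.2 hk), Gm.opp_c]
  rcases D_spec R hy with h | h
  · exact key y hy h
  · have := key (fl y) hy (by rwa [D_fl, L0.at_fl])
    rwa [D_fl, show ((fl y).1.opp, (fl y).2) = fl (y.1.opp, y.2) from rfl, D_fl] at this

theorem D_snd (e e' : Bool) : D L0 W (γ, e) = D L0 W (γ, e') := by
  cases e <;> cases e'
  exacts [rfl, D_fl (y := (γ, true)), D_fl (y := (γ, false)), rfl]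

theorem D_tau (H : L0.Hull A Ω) (R : Rt L0 z z' Ω W) (hy : y.1 ∈ X) (hy' : y.1.opp ∈ X) :
    D L0 W (Gm.tau y.1.c, true) = D L0 W y := by
  rcases Gm.eq_or_opp (γ := y.1) (β := Gm.tau y.1.c) rfl with e | e <;> rw [e, D_snd true y.2]
  refine le_antisymm (D_opp_le H R hy) ?_
  simpa using D_opp_le (y := (y.1.opp, y.2)) H R hy'

/-- the return time -/
theorem ret (C : RCtx A L0 L Ω) (hy : y.1 ∈ GI z z') : ∃ r : ℕ, 0 < r ∧
    (∀ m, L0.at' (L.f y) m = L0.at' y (m + r)) ∧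
    ∀ k : ℕ, 0 < k → k < r → L0.at' y k ∉ GI z z' := by
  obtain ⟨r, r0, r1, r2⟩ := C.ret.2 y hy
  exact ⟨r, r0, fun m => by rw [r1, ← L0.at_add, zpow_natCast],
    fun k a b => by rw [L0.at_nat]; exact r2 k a b⟩

/-- `W` lies ahead of the excursion -/
def Fw (L0 : LS X) (L : LS (GI z z')) (W : Set ℝ) (y : Gm × Bool) : Prop :=
  ∃ r : ℕ, 0 < r ∧ (∀ m, L0.at' (L.f y) m = L0.at' y (m + r)) ∧
    ∀ n, (L0.at' y n).c ∈ W → (r : ℤ) ≤ n

theorem fw_or (C : RCtx A L0 L Ω) (R : Rt L0 z z' Ω W) (hy : y.1 ∈ GI z z')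
    (hd : ¬Disc L0 (GI z z') Ω y) : Fw L0 L W y ∨ Fw L0 L W (fl (L.f y)) := by
  obtain ⟨r, r0, r1, r2⟩ := ret C hy
  have hX := C.ret.1 hy
  by_cases h : ∀ n, (L0.at' y n).c ∈ W → (r : ℤ) ≤ n
  · exact Or.inl ⟨r, r0, r1, h⟩
  refine Or.inr ⟨r, r0, fun m => ?_, fun n hn => ?_⟩
  · rw [L.rev, L0.at_fl, L0.at_fl, r1]
    congr 1
    ring
  rw [L0.at_fl, r1] at hn
  by_contra hc
  push Not at h
  obtain ⟨a, ha, ar⟩ := h
  generalize hb : -n + r = b at hn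
  have b0 : 0 < b := by omega
  have k1 : ∀ k : ℤ, 0 < k → k < r → L0.at' y k ∉ GI z z' := fun k x x' => by
    lift k to ℕ using x.le
    exact r2 k (by omega) (by omega)
  have k2 : ∀ k : ℤ, 0 ≤ k → k < r → (L0.at' y k).c ∉ Ω := fun k x x' e => by
    lift k to ℕ using x
    exact hd ⟨k, e, fun j p q => r2 j p (by omega)⟩
  rcases R.alt y hX a ha with p | p
  · rcases R.alt y hX b hn with q | q
    · rcases le_or_gt 0 a with s | s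
      · exact k2 a s ar p
      · exact k2 0 le_rfl (by omega) (C.hull.cvx y hX a 0 b s.le b0.le p q)
    · exact k1 b b0 (q.2 a ha ▸ ar) q.1
  · exact k1 a (p.2 b hn ▸ b0) ar p.1

theorem Fw.lt (R : Rt L0 z z' Ω W) (hy : y.1 ∈ X) (h : Fw L0 L W y) :
    D L0 W (L.f y) < D L0 W y := by
  obtain ⟨r, r0, r1, r2⟩ := h
  rcases D_spec R hy with k | k
  · have k1 := r2 _ k
    obtain ⟨m, hm⟩ : ∃ m, D L0 W y = m + r := ⟨D L0 W y - r, by omega⟩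
    have k2 : D L0 W (L.f y) ≤ m := D_le (by rw [r1]; rw [hm] at k; exact_mod_cast k)
    omega
  · have := r2 _ k
    omega

end D_stage2A

open D_stage2A in
theorem p_D_STAGE2 (hD_DISC : S_D_DISC) :
    S_D_STAGE2 := by
  intro A X L0 z z' L Ω V C hV
  obtain ⟨d1, d2, d3, -⟩ := hD_DISC A X L0 z z' L Ω C
  obtain ⟨W, R⟩ := exists_rt C
  have sub := C.ret.1
  have nd : ∀ y : Gm × Bool, y.1 ∈ GI z z' → y.1.c ∉ V → ¬Disc L0 (GI z z') Ω y :=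
    fun y hy h k => h ((hV _).2 ⟨y, hy, rfl, k⟩)
  obtain ⟨h, h0, h1⟩ : ∃ h : ℝ → ℕ, (∀ t ∈ V, h t = 0) ∧
      ∀ y : Gm × Bool, y.1 ∈ GI z z' → y.1.c ∉ V → h y.1.c = D L0 W y := by
    classical
    refine ⟨fun t => if t ∈ V then 0 else D L0 W (Gm.tau t, true), fun t ht => if_pos ht,
      fun y hy k => (if_neg k).trans (D_tau C.hull R (sub hy) (sub ?_))⟩
    have := d3 y hy (nd y hy k)
    exact mem_GI_of_Ioo (by simpa using this.1) (by simpa using this.2.1)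
  have dn : ∀ y : Gm × Bool, y.1 ∈ GI z z' → ¬Disc L0 (GI z z') Ω y → Fw L0 L W y →
      h (L.f y).1.c < h y.1.c := fun y hy hd hf => by
    have k0 := hf.lt R (sub hy)
    obtain ⟨r, r0, -, r2⟩ := hf
    have k1 : y.1.c ∉ V := fun k => by
      obtain ⟨y', a, b, c⟩ := (hV _).1 k
      have c' : Disc L0 (GI z z') Ω (y.1, y'.2) := by
        rcases Gm.eq_or_opp b with e | e
        · rwa [← e]
        · have n0 : y.1.c ∉ Ω := fun x => by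
            have := r2 0 (by rw [L0.at_zero]; exact R.sub _ x)
            omega
          have := d2 y' a (b ▸ n0) c
          rwa [e, Gm.opp_opp] at this
      by_cases e : y'.2 = y.2
      · exact hd (by rwa [e] at c')
      · obtain ⟨j, p, -⟩ := c'
        rw [Bool.eq_not.2 e, show (y.1, !y.2) = fl y from rfl, L0.at_fl] at p
        have := r2 _ (R.sub _ p)
        omega
    rw [h1 y hy k1]
    by_cases k2 : (L.f y).1.c ∈ V
    · rw [h0 _ k2]; omega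
    · rwa [h1 _ ((L.mem y).2 hy) k2]
  have up : ∀ y : Gm × Bool, y.1 ∈ GI z z' → ¬Disc L0 (GI z z') Ω y → Fw L0 L W (fl (L.f y)) →
      h y.1.c < h (L.f y).1.c := fun y hy hd hf => by
    have m : (fl (L.f y)).1 ∈ GI z z' := (L.mem y).2 hy
    have := dn _ m (fun k => hd (by simpa [L.rev] using d1 _ m k)) hf
    rwa [L.rev] at this
  have nv : ∀ y : Gm × Bool, h (L.f y).1.c < h y.1.c → y.1.c ∉ V := fun y k e => by
    rw [h0 _ e] at k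
    omega
  have fw : ∀ y : Gm × Bool, y.1 ∈ GI z z' → h (L.f y).1.c < h y.1.c → Fw L0 L W y :=
    fun y hy k => (fw_or C R hy (nd y hy (nv y k))).resolve_right fun e =>
      absurd (up y hy (nd y hy (nv y k)) e) (not_lt.2 k.le)
  have un : ∀ y y' : Gm × Bool, y.1 ∈ GI z z' → y'.1 = y.1 → h (L.f y).1.c < h y.1.c →
      h (L.f y').1.c < h y'.1.c → y' = y := fun y y' hy e k k' => by
    by_contra hc
    obtain rfl : y' = fl y := Prod.ext e (Bool.eq_not.2 fun x => hc (Prod.ext e x))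
    obtain ⟨r, r0, -, r2⟩ := fw y hy k
    obtain ⟨r', r0', -, r2'⟩ := fw (fl y) hy k'
    obtain ⟨n, hn⟩ := R.ne y (sub hy)
    have a := r2 n hn
    have b := r2' (-n) (by rwa [L0.at_fl, neg_neg])
    omega
  refine ⟨h, h0, fun y hy => ?_, fun y y' hy hy' e k k' => ?_⟩
  · by_cases hd : Disc L0 (GI z z') Ω y
    · exact Or.inl ⟨hy, (hV _).2 ⟨y, hy, rfl, hd⟩,
        (hV _).2 ⟨fl (L.f y), (L.mem y).2 hy, rfl, d1 y hy hd⟩⟩
    · exact Or.inr ((fw_or C R hy hd).elim (fun a => (dn y hy hd a).ne') fun a => (up y hy hd a).ne)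
  · rcases Gm.eq_or_opp e.symm with x | x
    · exact Or.inl (un y y' hy x k k')
    · obtain ⟨-, -, p, q⟩ := d3 y hy (nd y hy (nv y k))
      obtain rfl := un (y.1.opp, y.2) y' (x ▸ hy') x (by simpa [p] using k) k'
      exact Or.inr ⟨rfl, by rw [p], q⟩

end Pool.Agent.P.MP_dba3d2_lc
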