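import Pool.Agent.P.MP_dba3d2_lc.D.Iface3
import Pool.Agent.P.MP_dba3d2_lc.D.TreeB
import Pool.Agent.P.MP_dba3d2_lc.D.Germ

/-! Step D_STB of the stability project. -/

namespace Pool.Agent.P.MP_dba3d2_lc

open Set Filter Topology

namespace D_stbA

variable {R : RT} {e : ℕ} {P : ℝ → R.W} {p q : ℝ}

theorem d_pos (hP : R.IsoOn P p q) {u v : ℝ} (h1 : p ≤ u) (h2 : u < v) (h3 : v ≤ q) :
    0 < R.d (P u) (P v) := by
  rw [hP u ⟨h1, h2.le.trans h3⟩ v ⟨h1.trans h2.le, h3⟩]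
  exact abs_pos.2 (sub_ne_zero.2 h2.ne)

theorem stab_of_rl {g : R.W} {u v : ℝ} (h : R.Rl P g 1 u v) (huv : u ≤ v) :
    R.Stab (P u) (P v) g :=
  ⟨LG.d_zero_symm (by simpa using h u ⟨le_rfl, huv⟩),
    LG.d_zero_symm (by simpa using h v ⟨huv, le_rfl⟩)⟩

theorem small (hA : R.Ax e) (hP : R.IsoOn P p q)
    (np : ∀ u v, p ≤ u → u < v → v ≤ q → ¬R.Per (P u) (P v)) {ε₀ : ℝ} (h0 : 0 < ε₀) :
    ∃ ε₁ > 0, ∀ t u v, R.arc P p q (Gm.tau t) u v → ε₀ ≤ v - u → |t| ≤ ε₁ → t = 0 := by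
  obtain ⟨l, hl, rfl⟩ : ∃ l > 0, ε₀ = 3 * l := ⟨ε₀ / 3, by positivity, by ring⟩
  have key : ∀ m : ℕ, ∃ ε > 0, p + m * l + l ≤ q → ∀ g r, R.On r (P (p + m * l)) (P (p + m * l + l)) →
      R.d (P (p + m * l)) (g * P (p + m * l)) ≤ ε →
      R.d (P (p + m * l + l)) (g * P (p + m * l + l)) ≤ ε →
      R.d (P (p + m * l)) (g * P (p + m * l)) ≤ R.d (P (p + m * l)) r →
      R.d (P (p + m * l + l)) (g * P (p + m * l + l)) ≤ R.d (P (p + m * l + l)) r →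
      R.d r (g * r) = 0 := fun m => by
    by_cases h : p + m * l + l ≤ q
    · have h1 : p ≤ p + m * l := le_add_of_nonneg_right (by positivity)
      have h2 : p + m * l < p + m * l + l := lt_add_of_pos_right _ hl
      obtain ⟨ε, k1, k2⟩ := hA.small _ _ (d_pos hP h1 h2 h) (np _ _ h1 h2 h)
      exact ⟨ε, k1, fun _ => k2⟩
    · exact ⟨1, one_pos, fun k => absurd k h⟩
  choose ε hε hs using key
  obtain ⟨m0, -, hm0⟩ := (Finset.range (⌈(q - p) / l⌉₊ + 1)).exists_min_image ε ⟨0, by simp⟩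
  refine ⟨min (l / 2) (ε m0), lt_min (by positivity) (hε m0), ?_⟩
  rintro t u v ⟨g, huv, hm, hr⟩ hlen ht
  have hu := (hm u ⟨le_rfl, huv.le⟩).1
  have hv := (hm v ⟨huv.le, le_rfl⟩).1
  have hd : ∀ s ∈ Icc u v, R.d (P s) (g * P s) = |t| := fun s hs' => by
    rw [LG.d_congr (LG.d_self _) (hr s hs'), hP _ (hm s hs').1 _ (hm s hs').2]
    simp
  set m := ⌈(u - p) / l⌉₊ with hmd
  have h1 : (u - p) / l ≤ m := Nat.le_ceil _
  have h2 : (m : ℝ) < (u - p) / l + 1 := Nat.ceil_lt_add_one (div_nonneg (by linarith [hu.1]) hl.le)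
  rw [div_le_iff₀ hl] at h1
  rw [← sub_lt_iff_lt_add, lt_div_iff₀ hl] at h2
  have h3 : ε m0 ≤ ε m := hm0 m (Finset.mem_range.2 (Nat.lt_succ_of_le
    (Nat.ceil_mono (div_le_div_of_nonneg_right (by linarith [hu.2]) hl.le))))
  have a1 : p + m * l ∈ Icc u v := ⟨by linarith, by linarith⟩
  have a2 : p + m * l + l ∈ Icc u v := ⟨by linarith, by linarith⟩
  have a3 : p + m * l + l / 2 ∈ Icc u v := ⟨by linarith, by linarith⟩
  have t1 := (le_min_iff.1 ht).1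
  have t2 := (le_min_iff.1 ht).2
  have := hs m (a2.2.trans hv.2) g (P (p + m * l + l / 2))
    (LG.IsoOn.on hP (hm _ a1).1 (hm _ a2).1 (mem_uIcc_of_le (by linarith) (by linarith)))
    (by rw [hd _ a1]; linarith) (by rw [hd _ a2]; linarith)
    (by rw [hd _ a1, hP _ (hm _ a1).1 _ (hm _ a3).1, abs_sub_comm,
      abs_of_nonneg (a := _ - _) (by linarith)]; linarith)
    (by rw [hd _ a2, hP _ (hm _ a2).1 _ (hm _ a3).1,
      abs_of_nonneg (a := _ - _) (by linarith)]; linarith)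
  rwa [hd _ a3, abs_eq_zero] at this

end D_stbA

open D_stbA in
theorem p_D_STB :
    S_D_STB := by
  intro R e hA P p q hpq hP np
  let s : Set ℕ := {n | ∃ u v, p ≤ u ∧ u < v ∧ v ≤ q ∧ n = {g | R.Stab (P u) (P v) g}.ncard}
  have hb : BddAbove s := ⟨e, by
    rintro _ ⟨u, v, h1, h2, h3, rfl⟩
    exact (hA.fin _ _ (d_pos hP h1 h2 h3) (np _ _ h1 h2 h3)).2⟩
  obtain ⟨p', q', h1, h2, h3, hmax⟩ := Nat.sSup_mem (s := s) ⟨_, p, q, le_rfl, hpq, le_rfl, rfl⟩ hb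
  have hP' := LG.IsoOn.mono hP h1 h3
  have np' : ∀ u v, p' ≤ u → u < v → v ≤ q' → ¬R.Per (P u) (P v) := fun u v a1 a2 a3 =>
    np u v (h1.trans a1) a2 (a3.trans h3)
  have hp' : p' ∈ Icc p' q' := ⟨le_rfl, h2.le⟩
  have hq' : q' ∈ Icc p' q' := ⟨h2.le, le_rfl⟩
  refine ⟨p', q', h1, h3, h2, hP', np',
    (hA.fin _ _ (d_pos hP h1 h2 h3) (np _ _ h1 h2 h3)).1.subset fun g hg => stab_of_rl hg h2.le,
    fun u v a1 a2 a3 g hg => ?_, fun _ h0 => small hA hP' np' h0⟩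
  have e1 : {g | R.Stab (P p') (P q') g} = {g | R.Stab (P u) (P v) g} := by
    refine Set.eq_of_subset_of_ncard_le (fun g hg => R.stab_sub hg
      (LG.IsoOn.on hP' hp' hq' (mem_uIcc_of_le a1 (a2.le.trans a3)))
      (LG.IsoOn.on hP' hp' hq' (mem_uIcc_of_le (a1.trans a2.le) a3))) ?_
      (hA.fin _ _ (d_pos hP' a1 a2 a3) (np' _ _ a1 a2 a3)).1
    rw [← hmax]
    exact le_csSup hb ⟨u, v, h1.trans a1, a2, a3.trans h3, rfl⟩
  have e2 : g ∈ {g | R.Stab (P p') (P q') g} := e1 ▸ stab_of_rl hg a2.le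
  intro t ht
  exact R.match_ends (φ := 1) hP' hP' hp' hq' (by simpa using h2.le) (by simpa using h2.le)
    (by simpa using LG.d_zero_symm e2.1) (by simpa using LG.d_zero_symm e2.2) t
    (mem_uIcc_of_le ht.1 ht.2)

end Pool.Agent.P.MP_dba3d2_lc
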