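import Pool.Agent.P.MP_dba3d2_lc.D.Iface4
import Pool.Agent.P.MP_dba3d2_lc.D.Iface2
import Pool.Agent.P.MP_dba3d2_lc.D.HullB
import Pool.Agent.P.MP_dba3d2_lc.D.MvB

/-! Step D_STG of the stability project. -/

namespace Pool.Agent.P.MP_dba3d2_lc

open Set Filter Topology

namespace D_stgA

theorem anchor {R : LG} {P : ℝ → R.W} {p q : ℝ} {α β : Gm} (h : RW2 (R.arc P p q) α β) :
    ∃ g, p < α.c ∧ α.c < q ∧ R.Mv P α g β ∧ R.Mv P α.opp g β.opp := by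
  obtain ⟨g, h1, h2⟩ := LG.rw2_arc h
  obtain ⟨u, v, k1, k2, g', k3⟩ := h
  exact ⟨g, (k3.2.1 u ⟨le_rfl, k3.1.le⟩).1.1.trans_lt k1,
    k2.trans_le (k3.2.1 v ⟨k3.1.le, le_rfl⟩).1.2, h1, h2⟩

end D_stgA

theorem p_D_STG (hD_HULLN : S_D_HULLN) (hD_RET : S_D_RET) (hD_DISC : S_D_DISC) (hD_STAGE1 : S_D_STAGE1) (hD_STAGE2 : S_D_STAGE2) :
    S_D_STG := by
  classical
  intro R P p q S X L0 Ω hsat hull
  have hX : X ⊆ GI p q := fun γ hγ => (LG.rw_arc_iff.1 ((hsat γ hγ γ hγ).1 (L0.rel_refl γ))).1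
  obtain ⟨Ω', hΩ, hN⟩ := hD_HULLN _ S.pg X L0 Ω hull
  refine ⟨Ω', 4 * (Ω.card + 2) + 2, fun u v huv hsub => ?_⟩
  obtain ⟨z, z', h1, h2, h3, h4, h5, h6⟩ := hN u v huv hsub
  have hz : GI z z' ⊆ X := (GI_mono h1.le h3.le).trans hsub
  have hpq := (GI_subset_iff h2).1 (hz.trans hX)
  obtain ⟨L, hL⟩ := hD_RET X (GI z z') L0 co_GI (GI_nonempty.2 h2) hz
  have ctx : RCtx (R.arc P p q) L0 L (insert z (insert z' Ω)) :=
    { pg := S.pg
      weak := hsat.weak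
      hull := h5
      ret := hL
      left := Finset.mem_insert_self _ _
      right := Finset.mem_insert_of_mem (Finset.mem_insert_self _ _)
      free := fun t ht k => by
        rcases Finset.mem_insert.1 (Finset.mem_coe.1 ht) with rfl | ht
        · exact lt_irrefl _ k.1
        rcases Finset.mem_insert.1 ht with rfl | ht
        · exact lt_irrefl _ k.2
        exact h4 t ⟨k.1.le, k.2.le⟩ ht }
  obtain ⟨-, -, -, V, hc, hV⟩ := hD_DISC _ X L0 z z' L _ ctx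
  obtain ⟨a1, a2, a3, a4⟩ := hD_STAGE1 _ X L0 z z' L _ V ctx hV
  have a5 := hD_STAGE2 _ X L0 z z' L _ V ctx hV
  have hcard : (insert z (insert z' Ω)).card ≤ Ω.card + 2 :=
    (Finset.card_insert_le _ _).trans (Nat.succ_le_succ (Finset.card_insert_le _ _))
  have key : ∀ t ∈ V, ∃ α β : Gm, α.c ∈ Ω' ∧ β.c = t ∧ RW2 (R.arc P p q) α β := by
    intro t ht
    rcases a3 t ht with e | e | ⟨α, β, b1, b2, b3⟩
    · obtain ⟨α, c1, c2⟩ := h6 (Gm.tau t) (Or.inl e)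
      exact ⟨α, _, c1, rfl, c2⟩
    · obtain ⟨α, c1, c2⟩ := h6 (Gm.tau t) (Or.inr e)
      exact ⟨α, _, c1, rfl, c2⟩
    · rcases Finset.mem_insert.1 b1 with e | b1
      · obtain ⟨α', c1, c2⟩ := h6 α (Or.inl e)
        exact ⟨α', β, c1, b2, S.pg.rw2_trans c2 b3⟩
      rcases Finset.mem_insert.1 b1 with e | b1
      · obtain ⟨α', c1, c2⟩ := h6 α (Or.inr e)
        exact ⟨α', β, c1, b2, S.pg.rw2_trans c2 b3⟩
      exact ⟨α, β, hΩ b1, b2, b3⟩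
  have key2 : ∀ t, ∃ g : R.W, t ∈ V → ∃ α β : Gm, α.c ∈ Ω' ∧ p < α.c ∧ α.c < q ∧ β.c = t ∧
      R.Mv P α g β ∧ R.Mv P α.opp g β.opp := by
    intro t
    by_cases ht : t ∈ V
    · obtain ⟨α, β, b1, b2, b3⟩ := key t ht
      obtain ⟨g, c1, c2, c3, c4⟩ := D_stgA.anchor b3
      exact ⟨g, fun _ => ⟨α, β, b1, c1, c2, b2, c3, c4⟩⟩
    · exact ⟨1, fun h => absurd h ht⟩
  choose s hs using key2
  exact ⟨⟨z, z', L, V, s, hpq.1, hpq.2, hL.sat hsat, hc.trans (by omega), a1, a2, a5, hs⟩, h1, h3,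
    fun α hα h => a4 α hα (Finset.mem_insert_of_mem (Finset.mem_insert_of_mem h))⟩

end Pool.Agent.P.MP_dba3d2_lc
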