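import Pool.Agent.P.MP_dba3d2_lc.D.Iface2
import Pool.Agent.P.MP_dba3d2_lc.D.LsB

/-! Step D_STRAND of the stability project. -/

namespace Pool.Agent.P.MP_dba3d2_lc

open Set Filter Topology

namespace D_strandA

variable {X : Set Gm} {L L' : LS X} {w : Gm × Bool} {F : Equiv.Perm (ℤ × Bool)} {B : ℕ}

/-- the states over the leaf of `w` -/
def emb (L' : LS X) (w : Gm × Bool) (p : ℤ × Bool) : Gm × Bool := (L'.at' w p.1, p.2)

theorem emb_inj (hw : w.1 ∈ X) : Function.Injective (emb L' w) := fun p q h => by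
  have h2 : (emb L' w p).2 = (emb L' w q).2 := congrArg Prod.snd h
  have h1 : (emb L' w p).1 = (emb L' w q).1 := congrArg Prod.fst h
  exact Prod.ext (L'.at_inj hw h1) h2

theorem exists_emb (H : ∀ γ ∈ X, ∀ β, L.Rel γ β → L'.Rel γ β) (hw : w.1 ∈ X) (n : ℤ)
    (p : ℤ × Bool) : ∃ q, emb L' w q = (L.f ^ n) (emb L' w p) := by
  have h1 : L'.Rel (L'.at' w p.1) ((L.f ^ n) (emb L' w p)).1 :=
    H _ (L'.at_mem hw _) _ ((L.rel_iff p.2).2 ⟨n, rfl⟩)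
  have h2 := (L'.rel_at w 0 p.1).trans h1
  rw [LS.at_zero] at h2
  obtain ⟨m, hm⟩ := (L'.rel_iff w.2).1 h2
  exact ⟨(m, ((L.f ^ n) (emb L' w p)).2), Prod.ext hm rfl⟩

theorem exists_perm (H : ∀ γ ∈ X, ∀ β, L.Rel γ β → L'.Rel γ β) (hw : w.1 ∈ X) :
    ∃ F : Equiv.Perm (ℤ × Bool), ∀ p, emb L' w (F p) = L.f (emb L' w p) := by
  choose f hf using exists_emb H hw 1
  choose g hg using exists_emb H hw (-1)
  simp only [zpow_one, zpow_neg] at hf hg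
  exact ⟨⟨f, g, fun p => emb_inj hw (by rw [hg, hf]; simp),
    fun p => emb_inj hw (by rw [hf, hg]; simp)⟩, hf⟩

theorem emb_zpow (hF : ∀ p, emb L' w (F p) = L.f (emb L' w p)) (n : ℤ) :
    ∀ p, emb L' w ((F ^ n) p) = (L.f ^ n) (emb L' w p) := by
  have h : ∀ p, emb L' w (F⁻¹ p) = L.f⁻¹ (emb L' w p) := fun p => by
    rw [Equiv.Perm.eq_inv_iff_eq, ← hF]
    simp
  induction n using Int.induction_on with
  | zero => simp
  | succ n ih => intro p; rw [zpow_add_one, zpow_add_one, Equiv.Perm.mul_apply, ih, hF]; rfl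
  | pred n ih => intro p; rw [zpow_sub_one, zpow_sub_one, Equiv.Perm.mul_apply, ih, h]; rfl

theorem prel_iff (hw : w.1 ∈ X) (hF : ∀ p, emb L' w (F p) = L.f (emb L' w p)) (a b : ℤ) :
    PRel F a b ↔ L.Rel (L'.at' w a) (L'.at' w b) := by
  refine exists_congr fun n => ?_
  have h : L.at' (L'.at' w a, true) n = L'.at' w ((F ^ n) (a, true)).1 :=
    (congrArg Prod.fst (emb_zpow hF n (a, true))).symm
  rw [h]
  exact ⟨fun e => by rw [e], L'.at_inj hw⟩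

theorem ev (L : LS X) {y : Gm × Bool} (h : y.1 ∈ X) (n : ℤ) : ∀ᶠ δ in 𝓝 (1 : Gm),
    (L.f ^ n) (y.1 * δ, y.2) = (((L.f ^ n) y).1 * δ, ((L.f ^ n) y).2) := by
  obtain ⟨r, r0, hr⟩ := L.zpow_eventually h n
  exact eventually_gm.2 ⟨r, r0, fun δ hδ => by rw [one_mul]; exact (hr δ hδ).2⟩

theorem jump1 (H : ∀ γ ∈ X, ∀ β, L.Rel γ β → L'.Rel γ β) (e' e : Bool) :
    ∃ n : ℕ, ∀ γ ∈ X, ∃ k : ℤ, |k| ≤ n ∧ L'.at' (γ, e') k = (L.f (γ, e)).1 := by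
  refine L.co.exists_bound (p := fun n γ => ∃ k : ℤ, |k| ≤ n ∧ L'.at' (γ, e') k = (L.f (γ, e)).1)
    (fun m n γ h ⟨k, h1, h2⟩ => ⟨k, h1.trans (by exact_mod_cast h), h2⟩) fun γ hγ => ?_
  obtain ⟨k, hk⟩ := (L'.rel_iff e').1 (H γ hγ _ ((L.rel_iff e).2 ⟨1, L.at_one _⟩))
  obtain ⟨r, r0, hr⟩ := eventually_gm.1
    ((ev L' (y := (γ, e')) hγ k).and (ev L (y := (γ, e)) hγ 1))
  refine ⟨k.natAbs, eventually_gm.2 ⟨r, r0, fun δ hδ => ⟨k, by simp, ?_⟩⟩⟩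
  obtain ⟨h1, h2⟩ := hr δ hδ
  simp only [one_mul, zpow_one] at h1 h2
  rw [h2, LS.at', h1, ← hk]
  rfl

theorem jump (H : ∀ γ ∈ X, ∀ β, L.Rel γ β → L'.Rel γ β) :
    ∃ n : ℕ, ∀ e' e, ∀ γ ∈ X, ∃ k : ℤ, |k| ≤ n ∧ L'.at' (γ, e') k = (L.f (γ, e)).1 := by
  choose n hn using jump1 H
  refine ⟨Finset.univ.sup fun p : Bool × Bool => n p.1 p.2, fun e' e γ hγ => ?_⟩
  obtain ⟨k, h1, h2⟩ := hn e' e γ hγ
  have := Finset.le_sup (f := fun p : Bool × Bool => n p.1 p.2) (Finset.mem_univ (e', e))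
  exact ⟨k, h1.trans (by exact_mod_cast this), h2⟩

theorem ps (hB : ∀ e' e, ∀ γ ∈ X, ∃ k : ℤ, |k| ≤ B ∧ L'.at' (γ, e') k = (L.f (γ, e)).1)
    (hw : w.1 ∈ X) (hF : ∀ p, emb L' w (F p) = L.f (emb L' w p)) : PS F B := by
  refine ⟨fun p => emb_inj (L' := L') hw ?_, fun p => ?_, fun p m n h => ?_⟩
  · have h : emb L' w ((F p).1, !(F p).2) = fl (L.f (emb L' w p)) := congrArg fl (hF p)
    rw [hF, h, L.rev]
    rfl
  · obtain ⟨k, h1, h2⟩ := hB ((L'.f ^ p.1) w).2 p.2 _ (L'.at_mem hw p.1)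
    have h3 : L'.at' w (k + p.1) = L'.at' w (F p).1 :=
      (L'.at_add w k p.1).symm.trans (h2.trans (congrArg Prod.fst (hF p)).symm)
    rw [← L'.at_inj hw h3, add_sub_cancel_right]
    exact h1
  · refine L.inj (emb L' w p) (L'.at_mem hw p.1) ?_
    simp only [← emb_zpow hF]
    exact congrArg (L'.at' w) h

theorem far (L' : LS X) (hw : w.1 ∈ X) {U : Set Gm} (hU : IsOpen U) (hne : (U ∩ X).Nonempty)
    (a₀ s : ℤ) (hs : s = 1 ∨ s = -1) : ∃ a, a₀ ≤ s * a ∧ L'.at' w a ∈ U := by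
  obtain ⟨B, hB⟩ := L'.exists_visit hU hne
  rcases hs with rfl | rfl
  · obtain ⟨m, -, -, h⟩ := hB ((L'.f ^ a₀) w) (L'.at_mem hw a₀)
    rw [LS.at_add] at h
    exact ⟨_, by omega, h⟩
  · obtain ⟨m, -, -, h⟩ := hB (fl ((L'.f ^ (-a₀)) w)) (L'.at_mem hw (-a₀))
    rw [LS.at_fl, LS.at_add] at h
    exact ⟨_, by omega, h⟩

theorem orient (L' : LS X) (w : Gm × Bool) (a : ℤ) (b : Bool) :
    ∃ ε : ℤ, (ε = 1 ∨ ε = -1) ∧ ∀ x, L'.at' w (a + ε * x) = L'.at' (L'.at' w a, b) x := by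
  by_cases h : ((L'.f ^ a) w).2 = b
  · refine ⟨1, Or.inl rfl, fun x => ?_⟩
    rw [one_mul, add_comm, ← LS.at_add, ← h]
    rfl
  · refine ⟨-1, Or.inr rfl, fun x => ?_⟩
    have e : (L'.at' w a, b) = fl ((L'.f ^ a) w) :=
      Prod.ext rfl (by rw [fl_snd]; exact Bool.eq_not_of_ne (Ne.symm h))
    rw [e, LS.at_fl, LS.at_add, add_comm, neg_one_mul]

theorem window {y : Gm × Bool} {F' : Equiv.Perm (ℤ × Bool)} (hw : w.1 ∈ X) (hy : y.1 ∈ X)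
    (hF : ∀ p, emb L' w (F p) = L.f (emb L' w p)) (hF' : ∀ p, emb L' y (F' p) = L.f (emb L' y p))
    (hP : PS F' B) (n : ℕ) (a₀ s : ℤ) (hs : s = 1 ∨ s = -1) :
    ∃ a ε : ℤ, (ε = 1 ∨ ε = -1) ∧ a₀ ≤ s * a ∧ ∀ (x : ℤ) (e : Bool), |x| ≤ n →
      F (a + ε * x, e) = (a + ε * (F' (x, e)).1, (F' (x, e)).2) := by
  have h1 := (eventually_all_finite (finite_Icc (-(n + B : ℤ)) (n + B))).2 fun x _ => ev L' hy x
  have h2 := (eventually_all_finite (finite_Icc (-(n : ℤ)) n)).2 fun x _ =>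
    eventually_all.2 fun e : Bool => ev L (y := (L'.at' y x, e)) (L'.at_mem hy x) 1
  obtain ⟨r, r0, hr⟩ := eventually_gm.1 (h1.and h2)
  obtain ⟨a, ha, hU⟩ := far L' hw (isOpen_seg (γ := y.1) (r := r)) ⟨_, self_mem_seg r0, hy⟩ a₀ s hs
  obtain ⟨ε, hε, ho⟩ := orient L' w a y.2
  obtain ⟨k1, k2⟩ := hr _ (mem_seg.1 hU)
  simp only [one_mul, zpow_one, mul_inv_cancel_left] at k1 k2
  have k3 : ∀ x : ℤ, |x| ≤ n + B →
      L'.at' w (a + ε * x) = L'.at' y x * (y.1⁻¹ * L'.at' w a) := fun x hx => by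
    rw [ho, LS.at', k1 x (abs_le.1 hx)]
    rfl
  refine ⟨a, ε, hε, ha, fun x e hx => emb_inj (L' := L') hw ?_⟩
  have j1 := hP.jump (x, e)
  have j2 : |(F' (x, e)).1| ≤ n + B := by
    rw [abs_le] at hx j1 ⊢
    simp only at j1
    omega
  have j3 : L.f (L'.at' y x, e) = (L'.at' y (F' (x, e)).1, (F' (x, e)).2) := (hF' (x, e)).symm
  rw [hF, emb, emb]
  simp only
  rw [k3 x (hx.trans (by omega)), k3 _ j2, k2 x (abs_le.1 hx) e, j3]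

end D_strandA

open D_strandA in
theorem p_D_STRAND (hD_PATHS : S_D_PATHS) :
    S_D_STRAND := by
  intro X L L' H k γ hγ h1 h2 y hy
  rcases k with _ | k
  · exact ⟨Fin.elim0, fun i => i.elim0, fun j => j.elim0⟩
  have hw : (γ 0, true).1 ∈ X := hγ 0
  obtain ⟨B, hB⟩ := jump H
  obtain ⟨F, hF⟩ := exists_perm H hw
  obtain ⟨F', hF'⟩ := exists_perm H hy
  choose x hx using h2 0
  obtain ⟨x', k1, k2⟩ := hD_PATHS F F' B (ps hB hw hF) (ps hB hy hF')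
    (window hw hy hF hF' (ps hB hy hF')) _ x fun i j h => h1 i j (by
      rwa [prel_iff hw hF, hx, hx] at h)
  simp only [prel_iff hy hF'] at k1 k2
  exact ⟨x', k1, k2⟩

end Pool.Agent.P.MP_dba3d2_lc
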