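import Pool.Agent.P.MP_dba3d2_lc.D.Iface2
import Pool.Agent.P.MP_dba3d2_lc.D.SideB

/-! Step D_SURF1 of the stability project. -/

namespace Pool.Agent.P.MP_dba3d2_lc

open Set Filter Topology

namespace D_surf1A

variable {ι : Type} {S : Sys ι} {i j : ι} {γ : Gm} {X : Set Gm}

/-- edges with finite source side -/
def Dd (S : Sys ι) (i : ι) : Set Gm := S.dom i \ S.Am i

theorem dfin (h : γ ∈ Dd S i) : (S.Side i γ).Finite := by
  by_contra k
  exact h.2 ⟨h.1, k⟩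

theorem mem_rev : γ ∈ tr (S.φ (S.inv i)) (Dd S (S.inv i)) ↔ S.φ i * γ ∈ Dd S (S.inv i) := by
  rw [mem_tr, S.φ_inv, inv_inv]

theorem not_both (hX : ∀ γ ∈ S.dom i, (S.orb γ).Infinite) (h : γ ∈ Dd S i)
    (k : S.φ i * γ ∈ Dd S (S.inv i)) : False :=
  (Sys.am_or h.1 (hX γ h.1)).elim h.2 k.2

theorem dom_eq (S : Sys ι) (i : ι) :
    S.dom i = S.Alive i ∪ (Dd S i ∪ tr (S.φ (S.inv i)) (Dd S (S.inv i))) := by
  ext γ
  rw [mem_union, mem_union, mem_rev]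
  constructor
  · intro h
    by_cases a : γ ∈ S.Am i
    · by_cases b : S.φ i * γ ∈ S.Am (S.inv i)
      · exact Or.inl ⟨a, b⟩
      · exact Or.inr (Or.inr ⟨S.map i γ h, b⟩)
    · exact Or.inr (Or.inl ⟨h, a⟩)
  · rintro (h | h | h)
    · exact h.1.1
    · exact h.1
    · exact Sys.mem_dom_inv.1 h.1

theorem open_Dd [Finite ι] (S : Sys ι) (i : ι) : IsOpen (Dd S i) :=
  (S.co i).2.sdiff (S.isClosed_am i)

theorem co_alive [Finite ι] (h : IsOpen (S.Alive i)) : CO (S.Alive i) :=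
  (S.co i).of_subset (fun _ k => k.1.1) (S.isClosed_alive i) h

theorem co_Dd [Finite ι] (hX : ∀ γ ∈ S.dom i, (S.orb γ).Infinite) (h : IsOpen (S.Alive i)) :
    CO (Dd S i) := by
  refine ⟨?_, open_Dd S i⟩
  have e : Dd S i = S.dom i \ (S.Alive i ∪ tr (S.φ (S.inv i)) (Dd S (S.inv i))) := by
    ext γ
    constructor
    · intro k
      refine ⟨k.1, ?_⟩
      rintro (a | a)
      · exact k.2 a.1
      · exact not_both hX k (mem_rev.1 a)
    · rintro ⟨a, b⟩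
      rw [dom_eq] at a
      rcases a with a | a | a
      · exact absurd (Or.inl a) b
      · exact a
      · exact absurd (Or.inr a) b
  rw [e]
  exact (S.co i).1.diff (h.union (isOpen_tr (open_Dd S _)))

/-- the other edges at a germ with a finite source side lead into finite branches -/
theorem other (T : S.Tree) (h : γ ∈ Dd S i) (k : γ ∈ S.dom j) (e : j ≠ i) :
    S.φ j * γ ∉ S.Am (S.inv j) := fun a =>
  a.2 ((dfin h).subset (T.nest h.1 k e).1)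

theorem not_alive (T : S.Tree) (h : γ ∈ Dd S i) : γ ∉ S.Alive j := fun a => by
  by_cases e : j = i
  · subst e
    exact h.2 a.1
  · exact other T h a.1.1 e a.2

theorem uniq (T : S.Tree) (hγ : (S.orb γ).Infinite) (h : γ ∈ Dd S i) (k : γ ∈ Dd S j) : i = j := by
  by_contra e
  exact (Sys.am_or h.1 hγ).elim h.2 (other T k h.1 e)

theorem exists_Dd [Finite ι] (T : S.Tree) (hγ : (S.orb γ).Infinite) (h : ∀ i, γ ∉ S.Alive i) :
    ∃ j, γ ∈ Dd S j := by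
  obtain ⟨i, hi⟩ := Sys.exists_dom_of_infinite hγ
  rcases Sys.am_or hi hγ with a | a
  · obtain ⟨-, j, -, b, c⟩ := T.am_iff.1 a
    exact ⟨j, b, fun d => h j ⟨d, c⟩⟩
  · exact ⟨i, hi, fun d => h i ⟨d, a⟩⟩

theorem two_le [Finite ι] (T : S.Tree) (h : γ ∈ S.Alive i) : 2 ≤ {j | γ ∈ S.Alive j}.ncard := by
  obtain ⟨a, j, e, b, c⟩ := T.am_iff.1 h.1
  have d : γ ∈ S.Am j := ⟨b, h.2.2.mono (T.nest b a e.symm).1⟩
  exact (Set.one_lt_ncard (toFinite _)).2 ⟨i, h, j, ⟨d, c⟩, e.symm⟩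

theorem bound [Finite ι] (h : ∀ i, CO (Dd S i)) :
    ∃ B, ∀ i, ∀ γ ∈ Dd S i, (S.Side i γ).ncard ≤ B := by
  have key : ∀ i, ∃ B, ∀ γ ∈ Dd S i, (S.Side i γ).ncard ≤ B := fun i => by
    refine (h i).exists_bound (p := fun n γ => (S.Side i γ).ncard ≤ n)
      (fun _ _ _ a b => b.trans a) fun γ hγ => ⟨(S.Side i γ).ncard, ?_⟩
    filter_upwards [Sys.side_eventually (dfin hγ)] with α a
    exact (ncard_le_ncard a ((dfin hγ).image _)).trans (ncard_image_le (dfin hγ))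
  choose B hB using key
  obtain ⟨M, hM⟩ := (finite_range B).bddAbove
  exact ⟨M, fun i γ a => (hB i γ a).trans (hM ⟨i, rfl⟩)⟩

/-- the side grows along the parent edge -/
theorem grow (T : S.Tree) (hγ : (S.orb γ).Infinite) (h : γ ∈ Dd S i) (k : S.φ i * γ ∈ Dd S j) :
    (S.Side i γ).ncard < (S.Side j (S.φ i * γ)).ncard := by
  have e : S.inv i ≠ j := by
    rintro rfl
    exact (Sys.am_or h.1 hγ).elim h.2 k.2
  have n := T.nest k.1 (S.map i γ h.1) e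
  rw [S.inv_inv, S.φ_inv_mul] at n
  exact ncard_lt_ncard ((ssubset_iff_of_subset n.1).2 ⟨_, S.self_mem_side _ _, n.2⟩) (dfin k)

theorem tot_eq [Fintype ι] (hX : ∀ i, ∀ γ ∈ S.dom i, (S.orb γ).Infinite)
    (h : ∀ i, IsOpen (S.Alive i)) :
    S.tot = ∑ i, mu (S.Alive i) + 2 * ∑ i, mu (Dd S i) := by
  have c := fun i => co_Dd (hX i) (h i)
  have e : ∀ i, mu (S.dom i) = mu (S.Alive i) + (mu (Dd S i) + mu (Dd S (S.inv i))) := fun i => by
    have d1 : Disjoint (Dd S i) (tr (S.φ (S.inv i)) (Dd S (S.inv i))) :=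
      disjoint_left.2 fun γ a b => not_both (hX i) a (mem_rev.1 b)
    have d2 : Disjoint (S.Alive i) (Dd S i ∪ tr (S.φ (S.inv i)) (Dd S (S.inv i))) :=
      disjoint_left.2 fun γ a b => b.elim (fun b => b.2 a.1) fun b => (mem_rev.1 b).2 a.2
    rw [← mu_tr (c (S.inv i)) (S.φ (S.inv i)), ← mu_union (c i) ((c _).tr _) d1,
      ← mu_union (co_alive (h i)) ((c i).union ((c _).tr _)) d2, ← dom_eq]
  have e2 : ∑ i, mu (Dd S (S.inv i)) = ∑ i, mu (Dd S i) :=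
    Equiv.sum_comp (Function.Involutive.toPerm S.inv S.inv_inv) fun i => mu (Dd S i)
  rw [Sys.tot, Finset.sum_congr rfl fun i _ => e i, Finset.sum_add_distrib,
    Finset.sum_add_distrib, e2]
  ring

end D_surf1A

open D_surf1A in
theorem p_D_SURF1 :
    S_D_SURF1 := by
  intro ι _ S X hIn hM htot T hop
  classical
  have hX : ∀ i, ∀ γ ∈ S.dom i, (S.orb γ).Infinite := fun i γ h => hM.inf γ (hIn i h)
  have cA := fun i => co_alive (hop i)
  have cD := fun i => co_Dd (hX i) (hop i)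
  obtain ⟨Z, hZ, hD⟩ := S.exists_sub S.Alive cA (fun _ _ k => k.1.1)
    fun _ _ k => Sys.alive_rev.2 k
  have cY : CO (⋃ i, S.Alive i) := CO.iUnion cA
  have hYX : (⋃ i, S.Alive i) ⊆ X := iUnion_subset fun i _ k => hIn i k.1.1
  have hV : ∀ γ, γ ∈ X \ ⋃ i, S.Alive i ↔ ∃ j, γ ∈ Dd S j := fun γ => by
    constructor
    · intro k
      exact exists_Dd T (hM.inf γ k.1) fun i a => k.2 (mem_iUnion.2 ⟨i, a⟩)
    · rintro ⟨j, k⟩
      refine ⟨hIn j k.1, fun a => ?_⟩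
      obtain ⟨i, a⟩ := mem_iUnion.1 a
      exact not_alive T k a
  have eV : X \ ⋃ i, S.Alive i = ⋃ j, Dd S j := Set.ext fun γ => (hV γ).trans mem_iUnion.symm
  have m1 : mu (X \ ⋃ i, S.Alive i) = ∑ j, mu (Dd S j) := by
    rw [eV]
    exact mu_iUnion cD fun i j e =>
      disjoint_left.2 fun γ a b => e (uniq T (hX i γ a.1) a b)
  have m2 := mu_diff hM.co cY hYX
  have m3 := tot_eq hX hop
  have val := (mu_count_eq cA cY 2 (fun γ k => by
    obtain ⟨i, a⟩ := mem_iUnion.1 k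
    exact two_le T a) (by push_cast; linarith)).1
  obtain ⟨B, hB⟩ := bound cD
  obtain ⟨γ₀, h₀⟩ := hM.ne
  obtain ⟨i₀, -⟩ := Sys.exists_dom_of_infinite (hM.inf γ₀ h₀)
  have hp : ∀ γ, ∃ j, γ ∈ X \ ⋃ i, S.Alive i → γ ∈ Dd S j := fun γ => by
    by_cases k : γ ∈ X \ ⋃ i, S.Alive i
    · obtain ⟨j, a⟩ := (hV γ).1 k
      exact ⟨j, fun _ => a⟩
    · exact ⟨i₀, fun a => absurd a k⟩
  choose par hpar using hp
  have hF : S.Forest (⋃ i, S.Alive i) (X \ ⋃ i, S.Alive i) par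
      fun γ => if γ ∈ X \ ⋃ i, S.Alive i then B + 1 - (S.Side (par γ) γ).ncard else 0 := by
    refine ⟨fun γ k => (hpar γ k).1, fun γ k => ?_, fun γ k => if_neg fun a => a.2 k⟩
    have b1 := hB _ γ (hpar γ k)
    rw [if_pos k]
    split_ifs with a
    · have b2 := hB _ _ (hpar _ a)
      have b3 := grow T (hM.inf γ k.1) (hpar γ k) (hpar _ a)
      omega
    · omega
  have hZY : Z.In (⋃ i, S.Alive i) := fun i γ k => mem_iUnion.2 ⟨i, hD ▸ k⟩
  refine ⟨⋃ i, S.Alive i, Z, cY, ?_, hYX, hZ, hZY, by rw [hD]; exact val,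
    fun γ a β b k => Sys.collapse hF ?_ hZ.2.1 ?_ hZY a b k⟩
  · by_contra hn
    have e0 : ∀ γ ∈ X, γ ∈ X \ ⋃ i, S.Alive i := fun γ k => ⟨k, fun a => hn ⟨γ, a⟩⟩
    obtain ⟨γ, k, hmin⟩ := (measure fun γ => if γ ∈ X \ ⋃ i, S.Alive i then
      B + 1 - (S.Side (par γ) γ).ncard else 0).wf.has_min X ⟨γ₀, h₀⟩
    exact hmin _ (hIn _ (S.map _ γ (hF.mem γ (e0 γ k)))) (hF.lt γ (e0 γ k))
  · intro i γ' k'
    rw [union_sdiff_cancel hYX]
    exact hIn i k'
  · intro i α k'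
    rw [dom_eq] at k'
    rcases k' with c | c | c
    · exact Or.inl (hD ▸ c)
    · have v := (hV α).2 ⟨i, c⟩
      exact Or.inr (Or.inl ⟨v, uniq T (hM.inf α v.1) c (hpar α v)⟩)
    · have c' := mem_rev.1 c
      have v := (hV _).2 ⟨_, c'⟩
      exact Or.inr (Or.inr ⟨v, uniq T (hM.inf _ v.1) c' (hpar _ v)⟩)

end Pool.Agent.P.MP_dba3d2_lc
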