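import Pool.Agent.P.MP_dba3d2_lc.D.Iface2
import Pool.Agent.P.MP_dba3d2_lc.D.SideB

/-! Step D_SURF2 of the stability project. -/

namespace Pool.Agent.P.MP_dba3d2_lc

open Set Filter Topology

namespace D_surf2A

theorem flfl (y : Gm × Bool) : fl (fl y) = y := by simp [fl]

theorem exists_idx (ι : Type) [Nonempty ι] : ∃ (I : Set ι → Bool → ι) (E : Set ι → ι → Bool),
    ∀ s : Set ι, s.ncard = 2 → (∀ e, I s e ∈ s) ∧ (∀ i ∈ s, I s (E s i) = i) ∧
      ∀ e, E s (I s e) = e := by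
  classical
  have h : ∀ s : Set ι, ∃ (I : Bool → ι) (E : ι → Bool), s.ncard = 2 →
      (∀ e, I e ∈ s) ∧ (∀ i ∈ s, I (E i) = i) ∧ ∀ e, E (I e) = e := by
    intro s
    by_cases hs : s.ncard = 2
    · obtain ⟨x, y, hxy, rfl⟩ := ncard_eq_two.1 hs
      refine ⟨fun e => bif e then x else y, fun i => decide (i = x), fun _ => ⟨?_, ?_, ?_⟩⟩
      · rintro (_ | _) <;> simp
      · rintro i (rfl | rfl)
        · simp
        · have : ¬ i = x := fun e => hxy e.symm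
          simp [this]
      · rintro (_ | _) <;> simp [hxy.symm]
    · exact ⟨fun _ => Classical.arbitrary ι, fun _ => true, fun h => absurd h hs⟩
  choose I E h using h
  exact ⟨I, E, h⟩

theorem lc {ι : Type} [Finite ι] (T : Sys ι) (γ : Gm) : ∃ r > 0, ∀ δ : Gm, 0 < δ.c → δ.c < r →
    {i | γ * δ ∈ T.dom i} = {i | γ ∈ T.dom i} := by
  refine ((eventually_gm' (p := fun α => {i | α ∈ T.dom i} = {i | γ ∈ T.dom i})).1 ?_).2
  have h : ∀ i, ∀ᶠ α in 𝓝 γ, (α ∈ T.dom i ↔ γ ∈ T.dom i) := fun i => by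
    by_cases h : γ ∈ T.dom i
    · filter_upwards [(T.co i).2.mem_nhds h] with α k using iff_of_true k h
    · filter_upwards [(T.co i).isClosed.isOpen_compl.mem_nhds h] with α k using iff_of_false k h
  filter_upwards [eventually_all.2 h] with α k using Set.ext k

theorem zpow_mem {Y : Set Gm} {f : Equiv.Perm (Gm × Bool)} (h : ∀ y, (f y).1 ∈ Y ↔ y.1 ∈ Y)
    {y : Gm × Bool} (hy : y.1 ∈ Y) (n : ℤ) : ((f ^ n) y).1 ∈ Y := by
  induction n using Int.induction_on with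
  | zero => exact hy
  | succ n ih => rwa [add_comm, zpow_add, zpow_one, Equiv.Perm.mul_apply, h]
  | pred n ih =>
    rw [← h, ← Equiv.Perm.mul_apply, ← zpow_one_add]
    simpa using ih

theorem inj {Y : Set Gm} {f : Equiv.Perm (Gm × Bool)} (h : ∀ y, (f y).1 ∈ Y ↔ y.1 ∈ Y)
    (Sd : Gm × Bool → Set Gm)
    (hS : ∀ y : Gm × Bool, y.1 ∈ Y → y.1 ∈ Sd y ∧ (f y).1 ∉ Sd y ∧ Sd y ⊆ Sd (f y))
    {y : Gm × Bool} (hy : y.1 ∈ Y) : Function.Injective fun n : ℤ => ((f ^ n) y).1 := by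
  have k1 : ∀ y : Gm × Bool, y.1 ∈ Y → ∀ n : ℕ, Sd y ⊆ Sd ((f ^ (n : ℤ)) y) := by
    intro y hy n
    induction n with
    | zero => exact Subset.rfl
    | succ n ih =>
      rw [Nat.cast_succ, add_comm, zpow_add, zpow_one, Equiv.Perm.mul_apply]
      exact ih.trans (hS _ (zpow_mem h hy n)).2.2
  have k2 : ∀ m n : ℤ, m < n → ((f ^ m) y).1 ≠ ((f ^ n) y).1 := by
    intro m n hmn e
    obtain ⟨k, rfl⟩ : ∃ k : ℕ, n = 1 + k + m := ⟨(n - m - 1).toNat, by omega⟩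
    have hm := zpow_mem h hy m
    rw [zpow_add, zpow_add, zpow_one, Equiv.Perm.mul_apply, Equiv.Perm.mul_apply] at e
    exact (hS _ (zpow_mem h hm k)).2.1 (e ▸ k1 _ hm k (hS _ hm).1)
  intro m n e
  rcases lt_trichotomy m n with k | k | k
  exacts [absurd e (k2 m n k), k, absurd e.symm (k2 n m k)]

end D_surf2A

open D_surf2A in
theorem p_D_SURF2 :
    S_D_SURF2 := by
  classical
  intro ι _ T Y hI hM hT h2
  obtain ⟨γ0, h0⟩ := hM.ne
  have : Nonempty ι := ⟨(nonempty_of_ncard_ne_zero (by rw [h2 γ0 h0]; norm_num)).some⟩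
  obtain ⟨I, E, H⟩ := exists_idx ι
  let s : Gm → Set ι := fun γ => {i | γ ∈ T.dom i}
  let ix : Gm × Bool → ι := fun y => I (s y.1) y.2
  let g : Gm × Bool → Gm × Bool := fun y =>
    if y.1 ∈ Y then (T.φ (ix y) * y.1, E (s (T.φ (ix y) * y.1)) (T.inv (ix y))) else y
  have d1 : ∀ y : Gm × Bool, y.1 ∈ Y → y.1 ∈ T.dom (ix y) := fun y hy => (H _ (h2 _ hy)).1 _
  have g1 : ∀ y : Gm × Bool, y.1 ∈ Y →
      g y = (T.φ (ix y) * y.1, E (s (T.φ (ix y) * y.1)) (T.inv (ix y))) := fun y hy => if_pos hy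
  have g2 : ∀ y : Gm × Bool, y.1 ∈ Y → (g y).1 ∈ Y ∧ ix (g y) = T.inv (ix y) := fun y hy => by
    have k := T.map _ _ (d1 y hy)
    rw [g1 y hy]
    exact ⟨hI _ k, (H _ (h2 _ (hI _ k))).2.1 _ k⟩
  have gg : Function.Involutive g := fun y => by
    by_cases hy : y.1 ∈ Y
    · have e : T.φ (T.inv (ix y)) * (g y).1 = y.1 := by rw [g1 y hy]; exact T.φ_inv_mul _ _
      rw [g1 _ (g2 y hy).1, (g2 y hy).2, e, T.inv_inv]
      exact Prod.ext rfl ((H _ (h2 _ hy)).2.2 _)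
    · have e : g y = y := if_neg hy
      rw [e, e]
  let f : Equiv.Perm (Gm × Bool) := Function.Involutive.toPerm fl flfl * gg.toPerm g
  have f1 : ∀ y, f y = fl (g y) := fun y => rfl
  have f2 : ∀ y, f⁻¹ y = g (fl y) := fun y => rfl
  have f3 : ∀ y : Gm × Bool, y.1 ∈ Y → (f y).1 = T.φ (ix y) * y.1 := fun y hy => by
    rw [f1, g1 y hy]; rfl
  have mem : ∀ y, (f y).1 ∈ Y ↔ y.1 ∈ Y := fun y => by
    by_cases hy : y.1 ∈ Y
    · exact iff_of_true (g2 y hy).1 hy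
    · rw [f1, show g y = y from if_neg hy]; rfl
  have rel : ∀ γ ∈ Y, ∀ β, T.Rel γ β → ∃ n : ℤ, ((f ^ n) (γ, true)).1 = β := by
    intro γ hγ β h
    induction h with
    | refl => exact ⟨0, rfl⟩
    | tail _ st ih =>
      obtain ⟨n, rfl⟩ := ih
      obtain ⟨i, hi, rfl⟩ := st
      have hn := zpow_mem mem (y := (γ, true)) hγ n
      have e := (H _ (h2 _ hn)).2.1 i hi
      by_cases c : E (s ((f ^ n) (γ, true)).1) i = ((f ^ n) (γ, true)).2
      · refine ⟨1 + n, ?_⟩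
        rw [zpow_add, zpow_one, Equiv.Perm.mul_apply, f3 _ hn, ← e]
        exact congrArg (fun b => T.φ (I _ b) * _) c.symm
      · refine ⟨-1 + n, ?_⟩
        rw [zpow_add, zpow_neg_one, Equiv.Perm.mul_apply, f2, g1 (fl _) hn, ← e]
        exact congrArg (fun b => T.φ (I _ b) * _) (Bool.eq_not.2 c).symm
  refine ⟨⟨f, hM.co, hM.ne, fun y => ?_, mem, fun y hy => ?_, fun y hy => ?_, fun γ hγ => ?_⟩,
    fun y hy => ⟨ix y, d1 y hy, f3 y hy⟩, rel⟩
  · rw [f1, f1, flfl, gg]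
  · obtain ⟨r, r0, hr⟩ := lc T y.1
    obtain ⟨r', r0', hr'⟩ := lc T (T.φ (ix y) * y.1)
    refine ⟨min r r', lt_min r0 r0', fun δ a b => ?_⟩
    have e1 : s (y.1 * δ) = s y.1 := hr δ a (b.trans_le (min_le_left _ _))
    have e2 : s (T.φ (ix y) * y.1 * δ) = s (T.φ (ix y) * y.1) :=
      hr' δ a (b.trans_le (min_le_right _ _))
    have e3 : ix (y.1 * δ, y.2) = ix y := congrArg (fun t => I t y.2) e1
    have e4 : y.1 * δ ∈ Y := hI (ix y) (show ix y ∈ s (y.1 * δ) from e1 ▸ d1 y hy)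
    rw [f1, f1, g1 _ e4, g1 _ hy, e3, ← mul_assoc, e2]
    rfl
  · refine inj mem (fun y => T.Side (ix y) y.1) (fun y hy => ⟨T.self_mem_side _ _, ?_, ?_⟩) hy
    · rw [f3 y hy]
      exact hT _ _ (d1 y hy)
    · have k := T.map _ _ (d1 y hy)
      rw [← f3 y hy] at k
      have ne : T.inv (ix y) ≠ ix (f y) := fun e => by
        have a := (H _ (h2 _ (g2 y hy).1)).2.2
        have b := congrArg (E (s (g y).1)) ((g2 y hy).2.trans e)
        exact Bool.eq_not_self _ |>.1 ((a _).symm.trans (b.trans (a _)))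
      have := (hT.nest (d1 _ ((mem y).2 hy)) k ne).1
      rwa [T.inv_inv, f3 y hy, T.φ_inv_mul, ← f3 y hy] at this
  · exact (hM.den γ hγ).trans (closure_mono fun β hβ => rel γ hγ β hβ)

end Pool.Agent.P.MP_dba3d2_lc
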