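import Pool.Agent.P.MP_dba3d2_lc.D.Iface2
import Pool.Agent.P.MP_dba3d2_lc.D.SideB

/-! Step D_SWITCH of the stability project. -/

namespace Pool.Agent.P.MP_dba3d2_lc

open Set Filter Topology

namespace D_switchA

variable {ι : Type} {S : Sys ι} {E : Set ℝ} {i : ι} {γ γ' β β' σ : Gm}

theorem opp_step (hE : ∀ j (γ : Gm), γ.c ∉ E → (γ.opp ∈ S.dom j ↔ γ ∈ S.dom j)) (hβ : β.c ∉ E)
    (h : S.StepX i γ β β') : S.StepX i γ.opp β.opp β'.opp := by
  obtain ⟨j, h1, rfl, h2, h3⟩ := h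
  refine ⟨j, (hE j β hβ).2 h1, (Gm.mul_opp _ _).symm,
    fun k => h2 ⟨k.1, Gm.opp_injective k.2⟩, fun k => h3 ⟨k.1, Gm.opp_injective ?_⟩⟩
  rw [k.2, Gm.mul_opp]

theorem meets (hE : ∀ j (γ : Gm), γ.c ∉ E → (γ.opp ∈ S.dom j ↔ γ ∈ S.dom j))
    (h1 : (S.Side i γ).Finite) (h2 : (S.Side i γ.opp).Infinite) : ∃ σ ∈ S.Side i γ, σ.c ∈ E := by
  by_contra k
  refine h2 ((h1.preimage Gm.opp_injective.injOn).subset fun β hβ => ?_)
  induction hβ with
  | refl => simpa using S.self_mem_side i γ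
  | @tail β _ _ h ih =>
    have := opp_step hE (fun e => k ⟨β.opp, ih, by rwa [Gm.opp_c]⟩) h
    rw [Gm.opp_opp] at this
    exact Relation.ReflTransGen.tail ih this

theorem nested (T : S.Tree) (h : γ ∈ S.dom i) (h' : γ' ∈ S.dom i) (k : σ ∈ S.Side i γ)
    (k' : σ ∈ S.Side i γ') (n : γ' ∉ S.Side i γ) : S.φ i * γ ∈ S.Side i γ' ∧
      S.Side i γ ⊆ S.Side i γ' ∧ γ' ∈ S.Side (S.inv i) (S.φ i * γ) := by
  have a : γ ∈ S.Side i γ' := by
    by_contra a
    have b : γ ∈ S.orb γ' :=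
      Sys.Rel.trans (S.side_subset_orb i γ' k') (Sys.Rel.symm (S.side_subset_orb i γ k))
    rw [Sys.orb_eq_sides h'] at b
    have c : ∀ β ∈ S.Side i γ, β ∈ S.Side (S.inv i) (S.φ i * γ') := fun β hβ => by
      induction hβ with
      | refl => exact b.resolve_left a
      | tail p q ih =>
        have r := Relation.ReflTransGen.tail p q
        obtain ⟨j, q1, rfl, -⟩ := q
        refine Sys.side_step ih q1 (fun e => n ?_) fun e => n ?_
        · rwa [e.1, e.2, S.φ_inv_mul] at r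
        · rwa [e.2, S.φ_inv_mul] at p
    exact disjoint_left.1 (T.disjoint h') k' (c σ k)
  obtain ⟨b, c⟩ := T.side_sub h' h a fun e => n (e.2 ▸ S.self_mem_side i γ)
  exact ⟨b, c.resolve_right fun e => n e.2⟩

theorem follow (hE : ∀ j (γ : Gm), γ.c ∉ E → (γ.opp ∈ S.dom j ↔ γ ∈ S.dom j)) (T : S.Tree)
    (h : γ ∈ S.dom i) (h' : γ' ∈ S.dom i) (a : S.φ i * γ ∈ S.Side i γ')
    (b : γ' ∈ S.Side (S.inv i) (S.φ i * γ)) (c : ∀ β ∈ S.Side i γ', β.c ∈ E → β ∈ S.Side i γ) :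
    γ'.opp ∈ S.Side (S.inv i) (S.φ i * γ).opp := by
  have key : ∀ β ∈ S.Side (S.inv i) (S.φ i * γ),
      (β ∈ S.Side i γ' ∧ β.opp ∈ S.Side (S.inv i) (S.φ i * γ).opp) ∨
        γ'.opp ∈ S.Side (S.inv i) (S.φ i * γ).opp := fun β hβ => by
    induction hβ with
    | refl => exact Or.inl ⟨a, S.self_mem_side _ _⟩
    | @tail β β' p q ih =>
      rcases ih with ⟨k1, k2⟩ | k
      · by_cases e : β = γ'
        · exact Or.inr (e ▸ k2)
        · refine Or.inl ⟨?_, Relation.ReflTransGen.tail k2 (opp_step hE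
            (fun k => disjoint_left.1 (T.disjoint h) (c β k1 k) p) q)⟩
          obtain ⟨j, q1, rfl, -⟩ := q
          exact Sys.side_step k1 q1 (fun k => e k.2) fun k => T i γ' h' (k.2 ▸ k1)
      · exact Or.inr k
  exact (key γ' b).elim And.right id

end D_switchA

open D_switchA in
theorem p_D_SWITCH :
    S_D_SWITCH := by
  intro ι _ S T i
  obtain ⟨E, -, hE, -⟩ := exists_ends S.co
  have hS := Gm.finite_over E.finite_toSet
  refine (hS.biUnion (t := fun σ => {γ | (γ ∈ S.dom i ∧ (S.Side i γ).Finite ∧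
    (S.Side (S.inv i) (S.φ i * γ).opp).Finite) ∧ σ ∈ S.Side i γ}) fun σ _ => ?_).subset ?_
  · by_contra hinf
    obtain ⟨γ, ⟨⟨g1, g2, g3⟩, g4⟩, hm⟩ := Set.Finite.exists_maximalFor'
      (fun γ => {β : Gm | β.c ∈ (E : Set ℝ)} ∩ S.Side i γ) _
      (hS.finite_subsets.subset (by
        rintro _ ⟨γ, -, rfl⟩
        exact inter_subset_left)) (Set.Infinite.nonempty hinf)
    refine hinf ((g2.union (g3.preimage Gm.opp_injective.injOn)).subset fun γ' h' => ?_)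
    refine (em _).imp_right fun n => ?_
    obtain ⟨a, b, c⟩ := nested T g1 h'.1.1 g4 h'.2 n
    exact follow (E := E) hE T g1 h'.1.1 a c fun β k1 k2 =>
      (hm h' (inter_subset_inter_right _ b) ⟨k2, k1⟩).2
  · rintro γ ⟨h1, -, h2, h3, h4⟩
    have f1 : (S.Side i γ).Finite := not_infinite.1 fun k => h2 ⟨h1, k⟩
    obtain ⟨σ, s1, s2⟩ := meets (E := E) hE f1 h3.2
    refine mem_biUnion s2 ⟨⟨h1, f1, not_infinite.1 fun k => h4 ⟨Sys.mem_dom_inv.2 h3.1, ?_⟩⟩, s1⟩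
    rwa [Gm.mul_opp]

end Pool.Agent.P.MP_dba3d2_lc
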