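import Pool.Agent.P.MP_dba3d2_lc.D.Iface4
import Pool.Agent.P.MP_dba3d2_lc.D.T0B

/-! Step D_T0EQ of the stability project. -/

namespace Pool.Agent.P.MP_dba3d2_lc

open Set Filter Topology

namespace D_t0eqA

variable {R : RT} {P : ℝ → R.W} {p q p' q' u v : ℝ} {w x y x' y' : R.W}

theorem fwd (H : ∀ γ ∈ GI p q, ∃ g, ∃ β ∈ GI p' q', R.Mv P γ g β) (h1 : p ≤ u) (h2 : u < q) :
    ∃ r > 0, ∀ s, 0 < s → s ≤ r → R.JA P p' q' (P u) (P (u + s)) := by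
  obtain ⟨g, β, hβ, k⟩ := H _ (tau_mem_GI.2 ⟨h1, h2⟩)
  obtain ⟨r, r0, hr⟩ := LG.Mv2.ja k hβ
  refine ⟨r, r0, fun s s0 s1 => ?_⟩
  simpa [add_comm] using hr 0 ⟨le_rfl, r0.le⟩ s ⟨s0.le, s1⟩

theorem bwd (H : ∀ γ ∈ GI p q, ∃ g, ∃ β ∈ GI p' q', R.Mv P γ g β) (h1 : p < u) (h2 : u ≤ q) :
    ∃ r > 0, ∀ s, 0 < s → s ≤ r → R.JA P p' q' (P (u - s)) (P u) := by
  obtain ⟨g, β, hβ, k⟩ := H _ (opp_tau_mem_GI.2 ⟨h1, h2⟩)
  obtain ⟨r, r0, hr⟩ := LG.Mv2.ja k hβ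
  refine ⟨r, r0, fun s s0 s1 => ?_⟩
  simpa [neg_add_eq_sub] using hr s ⟨s0.le, s1⟩ 0 ⟨le_rfl, r0.le⟩

theorem no_arc (hP : R.IsoOn P p q) (H : ∀ γ ∈ GI p q, ∃ g, ∃ β ∈ GI p' q', R.Mv P γ g β)
    (h : R.Fr P p' q' x y) (k1 : R.On x' x y) (k2 : R.On y' x y) (hu : u ∈ Icc p q)
    (hv : v ∈ Icc p q) (e1 : R.d x' (w * P u) = 0) (e2 : R.d y' (w * P v) = 0) : ¬u < v := by
  intro huv
  obtain ⟨r, r0, hr⟩ := fwd H hu.1 (huv.trans_le hv.2)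
  have s0 : 0 < min r (v - u) := lt_min r0 (sub_pos.2 huv)
  have s1 : u + min r (v - u) ∈ Icc u v :=
    ⟨by linarith, by linarith [min_le_right r (v - u)]⟩
  have a1 : R.On (w * P (u + min r (v - u))) x' y' :=
    ((LG.on_mul_left w).2 (hP.on hu hv (Icc_subset_uIcc s1))).congr (LG.d_self _)
      (LG.d_zero_symm e1) (LG.d_zero_symm e2)
  have a2 := h _ _ k1 (R.on_sub k1 k2 a1) (((LG.ja_mul_left w).2
    (hr _ s0 (min_le_left _ _))).congr (LG.d_zero_symm e1) (LG.d_self _))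
  rw [LG.d_congr e1 (LG.d_self _), LG.d_mul_left, hP _ hu _ (Icc_subset_Icc hu.1 hv.2 s1),
    abs_eq_zero] at a2
  linarith

theorem path (H : ∀ γ ∈ GI p q, ∃ g, ∃ β ∈ GI p' q', R.Mv P γ g β) (hu : u ∈ Icc p q)
    (hv : v ∈ Icc p q) (huv : u ≤ v) : (P u)⁻¹ * P v ∈ R.T0 P p' q' := by
  have tr : ∀ {s t : ℝ}, (P u)⁻¹ * P s ∈ R.T0 P p' q' → R.JA P p' q' (P s) (P t) →
      (P u)⁻¹ * P t ∈ R.T0 P p' q' := fun a b => by
    simpa [mul_assoc] using mul_mem a b.mem_T0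
  refine real_ind (p := fun t => (P u)⁻¹ * P t ∈ R.T0 P p' q') huv (by simp)
    (fun t a b c => ?_) fun t a b c => ?_
  · obtain ⟨r, r0, hr⟩ := fwd H (hu.1.trans a) (b.trans_le hv.2)
    exact ⟨r, r0, fun s s0 s1 => tr c (hr s s0 s1)⟩
  · obtain ⟨r, r0, hr⟩ := bwd H (hu.1.trans_lt a) (b.trans hv.2)
    have s0 : 0 < min r (t - u) := lt_min r0 (sub_pos.2 a)
    exact tr (c _ (by linarith [min_le_right r (t - u)]) (by linarith)) (hr _ s0 (min_le_left _ _))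

end D_t0eqA

open D_t0eqA in
theorem p_D_T0EQ :
    S_D_T0EQ := by
  intro R P p q p' q' hP h1 h2 H
  have key : ∀ x y, R.Fr P p' q' x y ↔ R.Fr P p q x y := fun x y => by
    refine ⟨fun h x' y' k1 k2 ⟨w, u, hu, v, hv, e1, e2⟩ => ?_,
      fun h x' y' k1 k2 k => h x' y' k1 k2 (k.mono h1 h2)⟩
    have e : u = v := le_antisymm (not_lt.1 (no_arc hP H h k2 k1 hv hu e2 e1))
      (not_lt.1 (no_arc hP H h k1 k2 hu hv e1 e2))
    exact LG.d_zero_trans e1 (LG.d_zero_symm (e ▸ e2))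
  refine ⟨key, le_antisymm (Subgroup.closure_mono fun g hg =>
    hg.imp (fun k => k.mono h1 h2) (key 1 g).1) ((Subgroup.closure_le _).2 ?_)⟩
  rintro g (⟨w, u, hu, v, hv, e1, e2⟩ | hg)
  · have a : (P u)⁻¹ * P v ∈ R.T0 P p' q' := by
      rcases le_total u v with k | k
      · exact path H hu hv k
      · simpa using inv_mem (path H hv hu k)
    have e : g = 1⁻¹ * (w * P u) * ((P u)⁻¹ * P v) * (g⁻¹ * (w * P v))⁻¹ := by group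
    rw [SetLike.mem_coe, e]
    exact mul_mem (mul_mem (LG.tiny_mem_T0 e1) a) (inv_mem (LG.tiny_mem_T0 e2))
  · exact Subgroup.subset_closure (Or.inr ((key 1 g).2 hg))

end Pool.Agent.P.MP_dba3d2_lc
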