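import Pool.Agent.P.MP_dba3d2_lc.D.Iface2
import Pool.Agent.P.MP_dba3d2_lc.D.SideB

/-! Step D_THINFIN of the stability project. -/

namespace Pool.Agent.P.MP_dba3d2_lc

open Set Filter Topology

namespace D_thinfinA

variable {ι : Type} {S T : Sys ι} {C V : Set Gm} {par : Gm → ι} {γ : Gm}

/-- the source side of a forest edge lies in the forest -/
theorem side_sub (hT : T.In C) (hd : Disjoint C V) (hc : S.Cls T V par) (hγ : γ ∈ V) :
    S.Side (par γ) γ ⊆ V := by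
  have hV : ∀ α, Relation.ReflTransGen (fun a b => a ∈ V ∧ b = S.φ (par a) * a) α γ → α ∈ V :=
    fun α h => by
      rcases h.cases_head with e | ⟨_, e, _⟩
      · exact e ▸ hγ
      · exact e.1
  intro β hβ
  refine hV β ?_
  induction hβ with
  | refl => exact Relation.ReflTransGen.refl
  | @tail α β _ h ih =>
    obtain ⟨j, h1, rfl, h2, -⟩ := h
    rcases hc j α h1 with a | ⟨-, a⟩ | ⟨a, b⟩
    · exact absurd (hV α ih) (disjoint_left.1 hd (hT j a))
    · rcases ih.cases_head with e | ⟨_, ⟨-, rfl⟩, e⟩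
      · exact absurd ⟨e ▸ a, e⟩ h2
      · exact a ▸ e
    · exact Relation.ReflTransGen.head ⟨a, by rw [← b, S.φ_inv_mul]⟩ ih

end D_thinfinA

theorem p_D_THINFIN (hD_MINC : S_D_MINC) (hD_EGE : S_D_EGE) (hD_FOREST : S_D_FOREST) :
    S_D_THINFIN := by
  intro ι _ S T X U i γ hX hM htot hA hU hcut β0
  by_contra hinf
  have : Nonempty ι := ⟨i⟩
  have hTS := hcut.sub
  obtain ⟨C, hCd⟩ : ∃ C : Set Gm, C = {β | (T.orb β).Infinite} := ⟨_, rfl⟩
  have hC : CO C := hCd ▸ (hD_MINC ι T).1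
  have hI : T.Inv C := hCd ▸ T.inv_infinite
  have hCX : C ⊆ X := fun β h => by
    obtain ⟨j, hj⟩ := Sys.exists_dom_of_infinite (S := T) (γ := β) (by rw [hCd] at h; exact h)
    exact hX j (hTS.2.2 j hj)
  have h0 : β0 ∈ C := hCd ▸ hinf
  obtain ⟨T', s1, s2, -, s4⟩ := T.exists_res hC hI
  have e1 := hD_EGE ι T' C hC s2 fun β h => by
    rw [s4 β h]
    rw [hCd] at h
    exact h
  have reach : ∀ α ∈ X, ∃ β ∈ C, S.Rel α β := fun α h => by
    obtain ⟨β, a, b⟩ := hM.reach hC.2 ⟨β0, h0, hCX h0⟩ h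
    exact ⟨β, a.1, b⟩
  have hd : Disjoint C (X \ C) := disjoint_sdiff_right
  obtain ⟨par, ht, -, hF⟩ := hD_FOREST ι S C (X \ C) hC (hM.co.diff hC) hd
    (by rw [union_sdiff_cancel hCX]; exact hX) fun α h => reach α h.1
  have hc : S.Cls T' (X \ C) par := (hF T' (s1.trans hTS) s2).2 (by
    rw [mu_diff hM.co hC hCX]
    linarith)
  obtain ⟨n, hn⟩ := Sys.exists_near_bound hM.co.1 hC.2 reach
  have key : ∀ j α, α ∈ S.Am j → α ∈ X \ C → j = par α → False := fun j α a b e => by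
    have hs := D_thinfinA.side_sub s2 hd hc b
    rw [← e] at hs
    obtain ⟨α', a1, a2⟩ := Sys.exists_ball_in_side a n
    obtain ⟨β, b1, b2⟩ := hn α' (hs a1).1
    exact (hs (a2 β b2)).2 b1
  rcases hc i γ hA.1.1 with a | ⟨a, b⟩ | ⟨a, b⟩
  · exact ((hcut.2.2 i γ).1 (s1.2.2 i a)).2.1 ⟨rfl, hU⟩
  · exact key i γ hA.1 a b
  · exact key _ _ hA.2 a b

end Pool.Agent.P.MP_dba3d2_lc
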