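import Pool.Agent.P.MP_dba3d2_lc.D.Iface2
import Pool.Agent.P.MP_dba3d2_lc.D.SideB

/-! Step D_TREE of the stability project. -/

namespace Pool.Agent.P.MP_dba3d2_lc

open Set Filter Topology

namespace D_treeA

variable {ι : Type} {S : Sys ι} {i : ι} {γ β : Gm}

theorem disj_if (c : Prop) {α γ : Gm} (h : c → α ≠ γ) :
    ∃ r > 0, c → Disjoint (seg α r) (seg γ r) := by
  by_cases e : c
  · obtain ⟨r, h1, h2⟩ := exists_seg_disjoint (h e)
    exact ⟨r, h1, fun _ => h2⟩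
  · exact ⟨1, one_pos, fun k => absurd k e⟩

/-- paths that avoid an edge survive the removal of a short band next to it -/
theorem claim (h : β ∈ S.Side i γ) : ∃ r0 > 0, ∀ r, r ≤ r0 → ∀ T : Sys ι,
    T.IsCut S i (seg γ r) → ∀ δ ∈ GI 0 r, T.Rel (γ * δ) (β * δ) := by
  induction h with
  | refl => exact ⟨1, one_pos, fun r _ T _ δ _ => Sys.Rel.refl T _⟩
  | @tail α β _ k ih =>
    obtain ⟨r0, a0, b0⟩ := ih
    obtain ⟨j, hj, rfl, n1, n2⟩ := k
    obtain ⟨r1, a1, b1⟩ := isOpen_iff_seg.1 (S.co j).2 α hj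
    obtain ⟨r2, a2, b2⟩ := disj_if (j = i) (α := α) (γ := γ) fun e k => n1 ⟨e, k⟩
    obtain ⟨r3, a3, b3⟩ := disj_if (j = S.inv i) (α := S.φ j * α) (γ := γ) fun e k =>
      n2 ⟨e, by rw [← k, e, S.φ_mul_inv]⟩
    refine ⟨min (min r0 r1) (min r2 r3), lt_min (lt_min a0 a1) (lt_min a2 a3),
      fun r hr T hT δ hδ => ?_⟩
    simp only [le_min_iff] at hr
    refine (b0 r hr.1.1 T hT δ hδ).trans (Sys.Step.rel ⟨j, (hT.2.2 j _).2 ⟨?_, ?_, ?_⟩, ?_⟩)
    · exact b1 (seg_mono hr.1.2 (mul_mem_seg.2 hδ))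
    · exact fun e => disjoint_left.1 (b2 e.1) (seg_mono hr.2.1 (mul_mem_seg.2 hδ))
        (seg_mono hr.2.1 e.2)
    · refine fun e => disjoint_left.1 (b3 e.1) (seg_mono hr.2.2 (mul_mem_seg.2 hδ))
        (seg_mono hr.2.2 ?_)
      rw [mul_assoc]
      exact e.2
    · rw [hT.2.1, mul_assoc]

end D_treeA

theorem p_D_TREE (hD_EGE : S_D_EGE) :
    S_D_TREE := by
  intro ι _ S X hX hin hinf htot i γ hγ hs
  obtain ⟨r, hr, h⟩ := D_treeA.claim hs
  obtain ⟨T, hT⟩ := S.exists_cut i (co_seg (γ := γ) (r := r))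
  have key : ∀ α ∈ seg γ r, T.Rel α (S.φ i * α) := by
    intro α hα
    have k := h r le_rfl T hT _ (mem_seg.1 hα)
    rwa [mul_inv_cancel_left, mul_assoc, mul_inv_cancel_left] at k
  have hst : ∀ α β, S.Step α β → T.Rel α β := by
    rintro α _ ⟨j, hj, rfl⟩
    by_cases e1 : j = i ∧ α ∈ seg γ r
    · rw [e1.1]
      exact key α e1.2
    by_cases e2 : j = S.inv i ∧ S.φ j * α ∈ seg γ r
    · have k := key _ e2.2
      rw [e2.1, S.φ_mul_inv] at k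
      rw [e2.1]
      exact k.symm
    · exact Sys.Step.rel ⟨j, (hT.2.2 j α).2 ⟨hj, e1, e2⟩, by rw [hT.2.1]⟩
  have h1 := hD_EGE ι T X hX (hT.sub.in' hin) fun α hα =>
    (hinf α hα).mono fun β hβ => Sys.rel_of_step hst hβ
  have h2 := hT.sub.tot_lt hγ fun k => ((hT.2.2 i γ).1 k).2.1 ⟨rfl, self_mem_seg hr⟩
  linarith

end Pool.Agent.P.MP_dba3d2_lc
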