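import Pool.Agent.P.MP_dba3d2_lc.D.Iface4
import Pool.Agent.P.MP_dba3d2_lc.D.T0B
import Pool.Agent.P.MP_dba3d2_lc.D.HullB

/-! Step D_TYPE of the stability project. -/

namespace Pool.Agent.P.MP_dba3d2_lc

open Set Filter Topology

namespace D_typeA

variable {R : LG} {P : ℝ → R.W} {p q u v : ℝ} {X : Set Gm} {L : LS X} {γ β : Gm}

theorem mv_of_rel (h : L.Sat (R.arc P p q)) (hγ : γ ∈ X) (k : L.Rel γ β) : ∃ g, R.Mv P γ g β :=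
  (LG.rw_arc_iff.1 ((h γ hγ β (k.mem hγ)).1 k)).2.2

theorem visit (h : L.Sat (R.arc P p q)) (huv : u < v) (hX : GI u v ⊆ X) (hγ : γ ∈ X) :
    ∃ g, ∃ β ∈ GI u v, R.Mv P γ g β := by
  obtain ⟨B, hB⟩ := L.exists_visit (isOpen_GI (a := u) (b := v))
    ((GI_nonempty.2 huv).mono fun x hx => ⟨hx, hX hx⟩)
  obtain ⟨n, -, -, hn⟩ := hB (γ, true) hγ
  obtain ⟨g, hg⟩ := mv_of_rel h hγ ⟨n, rfl⟩
  exact ⟨g, _, hn, hg⟩

theorem germ_at (h : p < q) (hu : u ∈ Icc p q) : ∃ α ∈ GI p q, α.c = u := by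
  rcases hu.2.lt_or_eq with k | k
  · exact ⟨Gm.tau u, tau_mem_GI.2 ⟨hu.1, k⟩, rfl⟩
  · exact ⟨(Gm.tau u).opp, opp_tau_mem_GI.2 ⟨k ▸ h, hu.2⟩, by simp⟩

variable {Ω : Finset ℝ} {c : ℕ}

theorem stg_lt (T : Stg R P p q Ω c) : T.z < T.z' :=
  let ⟨_, h⟩ := T.L.ne
  lt_of_mem_GI h

theorem stg_mem (T : Stg R P p q Ω c) (h1 : u < T.z) (h2 : T.z' < v) (h : γ.c ∈ T.V) :
    γ ∈ GI u v := by
  obtain ⟨y, hy, e⟩ := T.src _ h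
  have k := c_mem_of_GI hy.1
  rw [e] at k
  exact mem_GI_of_Ioo (h1.trans_le k.1) (k.2.trans_lt h2)

theorem half_mem {T T' : Stg R P p q Ω c} {N : ℝ → R.W} {θ θ' : R.W → R.W} (H : T.Half T' N θ θ')
    (h1 : u < T.z) (h2 : T.z' < v) (h1' : u < T'.z) (h2' : T'.z' < v) :
    ∀ t ∈ T.V, N t ∈ R.QJ P u v := by
  intro t ht
  obtain ⟨β, β', a1, a2, a3, -⟩ := H.mv t ht
  exact a3.mem_QJ (stg_mem T h1 h2 (a1 ▸ ht)) (stg_mem T' h1' h2' a2)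

/-- tiny factors are fixed and do not change lengths -/
theorem len_eq (σ : R.T0 P p q ≃* R.T0 P p q) (hσ : ∀ t : R.T0 P p q, R.Fr P p q 1 t → σ t = t)
    (t : R.T0 P p q) {z z' : R.W} (hz : R.ℓ z = 0) (hz' : R.ℓ z' = 0) :
    ∃ t' : R.T0 P p q, (t' : R.W) = z * t * z' ∧ R.ℓ (σ t') = R.ℓ (σ t) := by
  refine ⟨⟨z, LG.tiny_mem_T0 hz⟩ * t * ⟨z', LG.tiny_mem_T0 hz'⟩, rfl, ?_⟩
  rw [map_mul, map_mul, hσ _ (LG.fr_tiny hz), hσ ⟨z', _⟩ (LG.fr_tiny hz')]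
  exact (LG.l_mul_tiny _ hz').trans (LG.l_tiny_mul hz _)

end D_typeA

open D_typeA

theorem p_D_TYPE (hD_HULL : S_D_HULL) (hD_STG : S_D_STG) (hD_CODE : S_D_CODE) (hD_MATCH : S_D_MATCH) (hD_GENQ : S_D_GENQ) (hD_T0EQ : S_D_T0EQ) (hD_QEQ : S_D_QEQ) :
    S_D_TYPE := by
  intro R P p q S X L sat
  have hXI : X ⊆ GI p q := fun γ h => (LG.rw_arc_iff.1 ((sat γ h γ h).1 (L.rel_refl γ))).1
  obtain ⟨Ωs, -, Hs⟩ := hD_HULL _ X L sat.weak ∅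
  obtain ⟨a, b, hab, hX⟩ := exists_GI_subset L.co.2 L.ne
  obtain ⟨pa, bq⟩ := (GI_subset_iff hab).1 (hX.trans hXI)
  obtain ⟨p', q', ap, hpq, qb, av⟩ := exists_Icc_avoid Ωs.finite_toSet hab
  have hX' : GI p' q' ⊆ X := (GI_mono ap.le qb.le).trans hX
  have iso : R.IsoOn P p' q' := S.iso.mono (pa.trans ap.le) (qb.le.trans bq)
  refine ⟨p', q', pa.trans ap.le, hpq, qb.le.trans bq, hX', fun F η hη hF => ?_⟩
  have hm : ∀ z z', p' ≤ z → z < z' → z' ≤ q' → ∀ γ ∈ GI p' q', ∃ g, ∃ β ∈ GI z z',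
      R.Mv P γ g β := fun z z' h1 h2 h3 γ hγ => visit sat h2 ((GI_mono h1 h3).trans hX') (hX' hγ)
  have hQ : ∀ z z', p' ≤ z → z < z' → z' ≤ q' → R.QJ P z z' = R.QJ P p' q' := by
    intro z z' h1 h2 h3
    refine hD_QEQ R.toLG P p' q' z z' h1 h2 h3 (hm z z' h1 h2 h3) fun γ k1 k2 => ?_
    obtain ⟨β, b1, b2, -, b3⟩ := Hs.turn S.pg (hX' (mem_GI_of_Ioo k1 k2)) (av _ ⟨k1.le, k2.le⟩) h2
      ((GI_mono h1 h3).trans hX')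
    obtain ⟨g, g1, g2⟩ := LG.rw2_arc b3
    exact ⟨g, β, b1, b2, g1, g2⟩
  obtain ⟨Ω, hFΩ, H⟩ := hD_HULL _ X L sat.weak F
  obtain ⟨Ω', c, hT⟩ := hD_STG R.toLG P p q S X L Ω sat H
  have w0 : ∀ m : ℕ, 0 < (q' - p') / (m + 2) := fun m => div_pos (sub_pos.2 hpq) (by positivity)
  have w1 : ∀ m : ℕ, p' + (q' - p') / (m + 2) ≤ q' := fun m => by
    have : (q' - p') / (m + 2) ≤ q' - p' :=
      div_le_self (sub_pos.2 hpq).le (by linarith [m.cast_nonneg (α := ℝ)])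
    linarith
  choose T t1 t2 t3 using fun m : ℕ => hT p' (p' + (q' - p') / (m + 2)) (by linarith [w0 m])
    ((GI_mono le_rfl (w1 m)).trans hX')
  have t4 : ∀ m, (T m).z' < q' := fun m => (t2 m).trans_le (w1 m)
  have tQ : ∀ m, R.QJ P (T m).z (T m).z' = R.QJ P p' q' := fun m =>
    hQ _ _ (t1 m).le (stg_lt _) (t4 m).le
  obtain ⟨n, hn⟩ := hD_CODE R.toLG P p q S Ω' c T
  have ha : ∀ u ∈ F, ∃ t ∈ (T n).V, ∃ g ∈ R.QJ P p' q', R.d (g * P u) (P t) = 0 := by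
    intro u hu
    obtain ⟨α, a1, rfl⟩ := germ_at hpq (hF u hu)
    obtain ⟨β, b1, b2, b3⟩ := t3 n α (hX' a1) (hFΩ hu)
    obtain ⟨g, hg⟩ := mv_of_rel sat (hX' a1) b3
    exact ⟨β.c, b2, g, hg.mem_QJ a1 (GI_mono (t1 n).le (t4 n).le b1), LG.Mv2.pt hg⟩
  choose! s s1 h h1 h2 using ha
  have hl : ∀ x ∈ F ×ˢ F, ∃ l : List R.W, (∀ y ∈ l, y ∈ (T n).gens) ∧ l.prod = h x.1 * (h x.2)⁻¹ :=
    fun x hx => (hD_GENQ R.toLG P p q S Ω' c (T n)).2 _ (tQ n ▸ mul_mem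
      (h1 _ (Finset.mem_product.1 hx).1) (inv_mem (h1 _ (Finset.mem_product.1 hx).2)))
  choose! l l1 l2 using hl
  obtain ⟨k, hk⟩ : ∃ k : ℕ, ∀ x ∈ F ×ˢ F, (l x).length ≤ k :=
    ⟨_, fun x hx => Finset.le_sup (f := fun x => (l x).length) hx⟩
  obtain ⟨m₀, hm₀⟩ := exists_nat_ge ((2 * k + 1) * (q' - p') / η)
  obtain ⟨m, mm, N, N', θ, θ', H1, H2⟩ := hn m₀
  have hM := hD_MATCH R P p q S Ω' c (T n) (T m) N N' θ θ' H1 H2 ((tQ m).trans (tQ n).symm)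
    (tQ n ▸ half_mem H1 (t1 n) (t4 n) (t1 m) (t4 m)) (tQ n ▸ half_mem H2 (t1 m) (t4 m) (t1 n) (t4 n))
  obtain ⟨e1, e2⟩ := hD_T0EQ R P p' q' _ _ iso (t1 n).le (t4 n).le
    (hm _ _ (t1 n).le (stg_lt _) (t4 n).le)
  simp only [e1] at hM
  rw [e2] at hM
  obtain ⟨σ, σ1, σ2⟩ := hM
  refine ⟨σ, σ1, fun u hu v hv t ht => ?_⟩
  have huv : (u, v) ∈ F ×ˢ F := Finset.mem_product.2 ⟨hu, hv⟩
  obtain ⟨t', e3, e4⟩ := len_eq σ σ1 t (LG.d_zero_symm (h2 u hu)) (h2 v hv)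
  have e5 := σ2 _ (s1 u hu) _ (s1 v hv) (l (u, v)) (l1 _ huv) t' (by rw [e3, ht, l2 _ huv]; group)
  have e6 : ((l (u, v)).length : ℝ) ≤ k := Nat.cast_le.2 (hk _ huv)
  have e7 : (m₀ : ℝ) ≤ m := Nat.cast_le.2 mm
  have e8 : (T m).z' - (T m).z ≤ (q' - p') / (m + 2) := by linarith [t1 m, t2 m]
  rw [div_le_iff₀ hη] at hm₀
  calc R.ℓ (σ t) ≤ _ := e4 ▸ e5
    _ ≤ (2 * k + 1) * ((q' - p') / (m + 2)) :=
      mul_le_mul (by linarith) e8 (sub_pos.2 (stg_lt _)).le (by positivity)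
    _ ≤ η := by
      rw [← mul_div_assoc, div_le_iff₀ (by positivity)]
      nlinarith

end Pool.Agent.P.MP_dba3d2_lc
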