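import Pool.Agent.P.MP_dba3d2_lc.D.D_sect
import Pool.Agent.P.MP_dba3d2_lc.D.D_setup
import Pool.Agent.P.MP_dba3d2_lc.D.D_bad
import Pool.Agent.P.MP_dba3d2_lc.D.D_stb
import Pool.Agent.P.MP_dba3d2_lc.D.D_iman
import Pool.Agent.P.MP_dba3d2_lc.D.D_minc
import Pool.Agent.P.MP_dba3d2_lc.D.D_fam
import Pool.Agent.P.MP_dba3d2_lc.D.D_lens
import Pool.Agent.P.MP_dba3d2_lc.D.D_cut0
import Pool.Agent.P.MP_dba3d2_lc.D.D_goodfin
import Pool.Agent.P.MP_dba3d2_lc.D.D_strip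
import Pool.Agent.P.MP_dba3d2_lc.D.D_mesh
import Pool.Agent.P.MP_dba3d2_lc.D.D_pbg
import Pool.Agent.P.MP_dba3d2_lc.D.D_pb1
import Pool.Agent.P.MP_dba3d2_lc.D.D_pb2
import Pool.Agent.P.MP_dba3d2_lc.D.D_casef
import Pool.Agent.P.MP_dba3d2_lc.D.D_induce
import Pool.Agent.P.MP_dba3d2_lc.D.D_refine
import Pool.Agent.P.MP_dba3d2_lc.D.D_lpclean
import Pool.Agent.P.MP_dba3d2_lc.D.D_slide
import Pool.Agent.P.MP_dba3d2_lc.D.D_trim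
import Pool.Agent.P.MP_dba3d2_lc.D.D_lpstep
import Pool.Agent.P.MP_dba3d2_lc.D.D_lpa
import Pool.Agent.P.MP_dba3d2_lc.D.D_forest
import Pool.Agent.P.MP_dba3d2_lc.D.D_lpb
import Pool.Agent.P.MP_dba3d2_lc.D.D_lp
import Pool.Agent.P.MP_dba3d2_lc.D.D_ege
import Pool.Agent.P.MP_dba3d2_lc.D.D_tree
import Pool.Agent.P.MP_dba3d2_lc.D.D_noiso
import Pool.Agent.P.MP_dba3d2_lc.D.D_switch
import Pool.Agent.P.MP_dba3d2_lc.D.D_thinfin
import Pool.Agent.P.MP_dba3d2_lc.D.D_dich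
import Pool.Agent.P.MP_dba3d2_lc.D.D_surf1
import Pool.Agent.P.MP_dba3d2_lc.D.D_surf2
import Pool.Agent.P.MP_dba3d2_lc.D.D_ret
import Pool.Agent.P.MP_dba3d2_lc.D.D_one
import Pool.Agent.P.MP_dba3d2_lc.D.D_paths
import Pool.Agent.P.MP_dba3d2_lc.D.D_strand
import Pool.Agent.P.MP_dba3d2_lc.D.D_ess
import Pool.Agent.P.MP_dba3d2_lc.D.D_sat
import Pool.Agent.P.MP_dba3d2_lc.D.D_goodthin
import Pool.Agent.P.MP_dba3d2_lc.D.D_hull
import Pool.Agent.P.MP_dba3d2_lc.D.D_hulln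
import Pool.Agent.P.MP_dba3d2_lc.D.D_disc
import Pool.Agent.P.MP_dba3d2_lc.D.D_stage1
import Pool.Agent.P.MP_dba3d2_lc.D.D_stage2
import Pool.Agent.P.MP_dba3d2_lc.D.D_stg
import Pool.Agent.P.MP_dba3d2_lc.D.D_code
import Pool.Agent.P.MP_dba3d2_lc.D.D_extend
import Pool.Agent.P.MP_dba3d2_lc.D.D_deform
import Pool.Agent.P.MP_dba3d2_lc.D.D_genq
import Pool.Agent.P.MP_dba3d2_lc.D.D_extc
import Pool.Agent.P.MP_dba3d2_lc.D.D_ext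
import Pool.Agent.P.MP_dba3d2_lc.D.D_shom
import Pool.Agent.P.MP_dba3d2_lc.D.D_aut
import Pool.Agent.P.MP_dba3d2_lc.D.D_match
import Pool.Agent.P.MP_dba3d2_lc.D.D_t0eq
import Pool.Agent.P.MP_dba3d2_lc.D.D_qeq
import Pool.Agent.P.MP_dba3d2_lc.D.D_type
import Pool.Agent.P.MP_dba3d2_lc.D.D_part
import Pool.Agent.P.MP_dba3d2_lc.D.D_iota
import Pool.Agent.P.MP_dba3d2_lc.D.D_out3
import Pool.Agent.P.MP_dba3d2_lc.D.D_casei
import Pool.Agent.P.MP_dba3d2_lc.D.Mach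

namespace Pool.Agent.P.MP_dba3d2_lc

theorem allD_D_SECT : S_D_SECT := p_D_SECT
theorem allD_D_SETUP : S_D_SETUP := p_D_SETUP allD_D_SECT
theorem allD_D_BAD : S_D_BAD := p_D_BAD
theorem allD_D_STB : S_D_STB := p_D_STB
theorem allD_D_IMAN : S_D_IMAN := p_D_IMAN
theorem allD_D_MINC : S_D_MINC := p_D_MINC allD_D_IMAN
theorem allD_D_FAM : S_D_FAM := p_D_FAM allD_D_MINC
theorem allD_D_LENS : S_D_LENS := p_D_LENS
theorem allD_D_CUT0 : S_D_CUT0 := p_D_CUT0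
theorem allD_D_GOODFIN : S_D_GOODFIN := p_D_GOODFIN allD_D_FAM allD_D_LENS allD_D_CUT0
theorem allD_D_STRIP : S_D_STRIP := p_D_STRIP
theorem allD_D_MESH : S_D_MESH := p_D_MESH
theorem allD_D_PBG : S_D_PBG := p_D_PBG
theorem allD_D_PB1 : S_D_PB1 := p_D_PB1 allD_D_MESH allD_D_PBG
theorem allD_D_PB2 : S_D_PB2 := p_D_PB2 allD_D_MESH allD_D_PBG
theorem allD_D_CASEF : S_D_CASEF := p_D_CASEF allD_D_STB allD_D_GOODFIN allD_D_STRIP allD_D_PB1 allD_D_PB2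
theorem allD_D_INDUCE : S_D_INDUCE := p_D_INDUCE
theorem allD_D_REFINE : S_D_REFINE := p_D_REFINE
theorem allD_D_LPCLEAN : S_D_LPCLEAN := p_D_LPCLEAN
theorem allD_D_SLIDE : S_D_SLIDE := p_D_SLIDE
theorem allD_D_TRIM : S_D_TRIM := p_D_TRIM
theorem allD_D_LPSTEP : S_D_LPSTEP := p_D_LPSTEP allD_D_LPCLEAN allD_D_SLIDE allD_D_TRIM
theorem allD_D_LPA : S_D_LPA := p_D_LPA
theorem allD_D_FOREST : S_D_FOREST := p_D_FOREST
theorem allD_D_LPB : S_D_LPB := p_D_LPB allD_D_FOREST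
theorem allD_D_LP : S_D_LP := p_D_LP allD_D_REFINE allD_D_LPCLEAN allD_D_LPSTEP allD_D_LPA allD_D_LPB
theorem allD_D_EGE : S_D_EGE := p_D_EGE allD_D_MINC allD_D_FOREST
theorem allD_D_TREE : S_D_TREE := p_D_TREE allD_D_EGE
theorem allD_D_NOISO : S_D_NOISO := p_D_NOISO
theorem allD_D_SWITCH : S_D_SWITCH := p_D_SWITCH
theorem allD_D_THINFIN : S_D_THINFIN := p_D_THINFIN allD_D_MINC allD_D_EGE allD_D_FOREST
theorem allD_D_DICH : S_D_DICH := p_D_DICH allD_D_NOISO allD_D_SWITCH allD_D_THINFIN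
theorem allD_D_SURF1 : S_D_SURF1 := p_D_SURF1
theorem allD_D_SURF2 : S_D_SURF2 := p_D_SURF2
theorem allD_D_RET : S_D_RET := p_D_RET
theorem allD_D_ONE : S_D_ONE := p_D_ONE allD_D_LP allD_D_TREE allD_D_DICH allD_D_SURF1 allD_D_SURF2 allD_D_RET
theorem allD_D_PATHS : S_D_PATHS := p_D_PATHS
theorem allD_D_STRAND : S_D_STRAND := p_D_STRAND allD_D_PATHS
theorem allD_D_ESS : S_D_ESS := p_D_ESS allD_D_RET
theorem allD_D_SAT : S_D_SAT := p_D_SAT allD_D_ONE allD_D_RET allD_D_STRAND allD_D_ESS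
theorem allD_D_GOODTHIN : S_D_GOODTHIN := p_D_GOODTHIN allD_D_FAM allD_D_LENS allD_D_CUT0
theorem allD_D_HULL : S_D_HULL := p_D_HULL
theorem allD_D_HULLN : S_D_HULLN := p_D_HULLN
theorem allD_D_DISC : S_D_DISC := p_D_DISC
theorem allD_D_STAGE1 : S_D_STAGE1 := p_D_STAGE1 allD_D_DISC
theorem allD_D_STAGE2 : S_D_STAGE2 := p_D_STAGE2 allD_D_DISC
theorem allD_D_STG : S_D_STG := p_D_STG allD_D_HULLN allD_D_RET allD_D_DISC allD_D_STAGE1 allD_D_STAGE2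
theorem allD_D_CODE : S_D_CODE := p_D_CODE
theorem allD_D_EXTEND : S_D_EXTEND := p_D_EXTEND
theorem allD_D_DEFORM : S_D_DEFORM := p_D_DEFORM allD_D_EXTEND
theorem allD_D_GENQ : S_D_GENQ := p_D_GENQ
theorem allD_D_EXTC : S_D_EXTC := p_D_EXTC
theorem allD_D_EXT : S_D_EXT := p_D_EXT allD_D_EXTC
theorem allD_D_SHOM : S_D_SHOM := p_D_SHOM allD_D_EXT
theorem allD_D_AUT : S_D_AUT := p_D_AUT allD_D_SHOM
theorem allD_D_MATCH : S_D_MATCH := p_D_MATCH allD_D_DEFORM allD_D_GENQ allD_D_SHOM allD_D_AUT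
theorem allD_D_T0EQ : S_D_T0EQ := p_D_T0EQ
theorem allD_D_QEQ : S_D_QEQ := p_D_QEQ
theorem allD_D_TYPE : S_D_TYPE := p_D_TYPE allD_D_HULL allD_D_STG allD_D_CODE allD_D_MATCH allD_D_GENQ allD_D_T0EQ allD_D_QEQ
theorem allD_D_PART : S_D_PART := p_D_PART allD_D_MINC allD_D_FAM
theorem allD_D_IOTA : S_D_IOTA := p_D_IOTA allD_D_EXT
theorem allD_D_OUT3 : S_D_OUT3 := p_D_OUT3 allD_D_EXT allD_D_PART allD_D_IOTA
theorem allD_D_CASEI : S_D_CASEI := p_D_CASEI allD_D_MINC allD_D_STB allD_D_INDUCE allD_D_SAT allD_D_GOODTHIN allD_D_STRIP allD_D_PB1 allD_D_PB2 allD_D_TYPE allD_D_OUT3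
theorem allD_MACH : S_MACH := p_MACH allD_D_SETUP allD_D_BAD allD_D_CASEF allD_D_CASEI

end Pool.Agent.P.MP_dba3d2_lc
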