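import Pool.Agent.P.MP_dba3d2_lc.D.Iface2
import Pool.Agent.P.MP_dba3d2_lc.D.SideB

/-! Step D_DICH of the stability project. -/

namespace Pool.Agent.P.MP_dba3d2_lc

open Set Filter Topology

namespace D_dichA

variable {ι : Type} {S : Sys ι} {i : ι} {γ : Gm}

/-- the boundary germs of the set of alive edges -/
def Bd (S : Sys ι) (i : ι) : Set Gm := {γ | γ ∈ S.Alive i ∧ γ.opp ∈ S.dom i ∧ γ.opp ∉ S.Alive i}

/-- a closed set without isolated germs that does not see directions near `γ` is open at `γ` -/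
theorem open_at {A : Set Gm} (hA : IsClosed A) {r : ℝ}
    (h1 : ∀ β ∈ A, ∀ s > 0, ∃ δ : Gm, 0 < δ.c ∧ δ.c < s ∧ β * δ ∈ A)
    (h2 : ∀ δ : Gm, 0 < δ.c → δ.c < r → γ * δ.opp ∈ A → γ * δ ∈ A) (hγ : γ ∈ A)
    (δ : Gm) (d0 : 0 < δ.c) (d1 : δ.c < r) : γ * δ ∈ A := by
  have h3 : ∀ δ : Gm, 0 < δ.c → δ.c < r → γ * δ ∈ A → γ * Gm.tau δ.c ∈ A := fun δ x y z => by
    rcases Gm.eq_or_opp (γ := Gm.tau δ.c) (β := δ) rfl with e | e
    · rwa [← e]
    · exact h2 _ x y (e ▸ z)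
  have h4 : ∀ δ : Gm, 0 < δ.c → δ.c < r → γ * Gm.tau δ.c ∈ A → γ * δ ∈ A := fun δ x y z => by
    rcases Gm.eq_or_opp (γ := δ) (β := Gm.tau δ.c) rfl with e | e
    · rwa [← e]
    · exact h2 _ x y (e ▸ z)
  by_contra hn
  have key := real_ind (u := 0) (v := δ.c) (p := fun u => γ * Gm.tau (δ.c - u) ∉ A) d0.le
    (by simpa using fun k => hn (h4 δ d0 d1 k)) (fun t t0 t1 ht => ?_) (fun t t0 t1 ht k => ?_)
  · simp only [sub_self, Gm.tau_zero, mul_one] at key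
    exact key hγ
  · have k : γ * (Gm.tau (δ.c - t)).opp ∈ Aᶜ := fun k =>
      ht (h2 _ (by simp; linarith) (by simp; linarith) k)
    obtain ⟨ρ, r0, hρ⟩ := isOpen_gm.1 hA.isOpen_compl _ k
    refine ⟨ρ / 2, half_pos r0, fun s s0 s1 => ?_⟩
    have k2 := hρ (Gm.tau s).opp (by simpa using s0) (by simp; linarith)
    have e : (Gm.tau (δ.c - t)).opp * (Gm.tau s).opp = Gm.tau (δ.c - (t + s)) :=
      Gm.ext (by simp) (by simp; ring)
    rw [mul_assoc, e] at k2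
    exact k2
  · obtain ⟨η, e0, e1, e2⟩ := h1 _ k t t0
    rw [mul_assoc] at e2
    have c : (Gm.tau (δ.c - t) * η).c = δ.c - (t - η.c) := by simp; ring
    have k3 := h3 _ (by rw [c]; linarith) (by rw [c]; linarith) e2
    rw [c] at k3
    exact ht (t - η.c) (by linarith) (by linarith) k3

theorem isOpen_am [Fintype ι] (hN : S_D_NOISO) (hS : S_D_SWITCH) {X : Set Gm} (hX : S.In X)
    (hM : S.Min X) (T : S.Tree) (hB : (Bd S i).Finite) : IsOpen (S.Am i) := by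
  refine isOpen_gm.2 fun γ hγ => ?_
  obtain ⟨r1, p1, q1⟩ := isOpen_gm.1 (S.co i).2 γ hγ.1
  obtain ⟨r2, p2, q2⟩ := exists_seg_avoid (hB.union (hS ι S T i)) γ
  refine ⟨min r1 r2, lt_min p1 p2, open_at (S.isClosed_am i) (hN ι S T i) (fun δ x y z => ?_) hγ⟩
  have y1 := y.trans_le (min_le_left _ _)
  have y2 := y.trans_le (min_le_right _ _)
  have ne : ∀ η : Gm, η.c = δ.c → γ * η ≠ γ := fun η c e => by
    have : η = 1 := mul_left_cancel (e.trans (mul_one γ).symm)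
    rw [this, Gm.one_c] at c
    exact x.ne c
  have av : ∀ η : Gm, η.c = δ.c → γ * η ∉ _ := fun η c e =>
    ne η c (q2 _ (mul_mem_seg.2 (mem_GI_of_Ioo (c ▸ x) (c ▸ y2))) e)
  by_contra hn
  have d1 := q1 δ x y1
  have b : S.φ i * (γ * δ).opp ∈ S.Am (S.inv i) := by
    by_contra hb
    exact av δ rfl (Or.inr ⟨d1, hM.inf _ (hX i d1), hn, by rwa [← Gm.mul_opp], hb⟩)
  refine av δ.opp (by simp) (Or.inl ⟨⟨z, by rwa [Gm.mul_opp]⟩, ?_, ?_⟩)
  · rwa [Gm.mul_opp, Gm.opp_opp]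
  · rw [Gm.mul_opp, Gm.opp_opp]
    exact fun k => hn k.1

/-- the thin data at a boundary germ whose opposite germ has a finite source side -/
theorem thin_at [Fintype ι] (hT : S_D_THINFIN) {X : Set Gm} (hX : S.In X) (hM : S.Min X)
    (hE : S.tot ≤ 2 * mu X) (T : S.Tree) (h1 : γ ∈ S.Alive i) (h2 : γ.opp ∈ S.dom i)
    (h3 : γ.opp ∉ S.Am i) : ∃ Tr : Set Gm, γ ∈ S.dom i ∧ γ.opp ∈ S.dom i ∧
    (S.φ i * γ).c ≠ γ.c ∧ Tr.Finite ∧ γ.opp ∈ Tr ∧ Tr ⊆ S.orb γ.opp ∧ γ ∉ Tr ∧ S.φ i * γ ∉ Tr ∧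
    S.φ i * γ.opp ∉ Tr ∧
    (∀ j, ∀ β ∈ S.dom j, ¬(j = i ∧ β = γ.opp) → ¬(j = S.inv i ∧ β = S.φ i * γ.opp) →
      (β ∈ Tr ↔ S.φ j * β ∈ Tr)) ∧
    ∀ δ > 0, ∀ T : Sys ι, T.IsCut S i (seg γ δ) → ∀ β, (T.orb β).Finite := by
  have d : γ ∈ S.dom i := h1.1.1
  have fin : (S.Side i γ.opp).Finite := not_infinite.1 fun k => h3 ⟨h2, k⟩
  have c : (S.φ i * γ).c ≠ γ.c := fun e => by
    rcases Gm.eq_or_opp e with k | k
    · exact T.ne d k
    · have k1 : γ.opp ∈ S.dom (S.inv i) := k ▸ S.map i γ d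
      have k2 : S.φ i * γ.opp = S.φ (S.inv i) * γ.opp := by
        rw [Gm.mul_opp, k, Gm.opp_opp, ← k, S.φ_inv_mul]
      have k3 := T.idx h2 k1 k2
      have k4 := h1.2
      rw [k, ← k3] at k4
      exact h3 k4
  refine ⟨S.Side i γ.opp, d, h2, c, fin, S.self_mem_side _ _, S.side_subset_orb _ _, fun k => ?_,
    fun k => ?_, T i _ h2, fun j β a b c => Sys.side_step_iff a b c,
    fun δ d0 Z hZ => hT ι S Z X _ i γ hX hM hE h1 (self_mem_seg d0) hZ⟩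
  · rcases (T.side_sub h2 d k fun e => γ.opp_ne e.2.symm).2 with a | a
    · exact h1.1.2 (fin.subset a.1)
    · exact h1.2.2 (fin.subset a.1)
  · rcases (T.side_sub h2 (S.map i γ d) k fun e => c (by rw [e.2, Gm.opp_c])).2 with a | a
    · exact h1.2.2 (fin.subset a.1)
    · rw [S.inv_inv, S.φ_inv_mul] at a
      exact h1.1.2 (fin.subset a.1)

theorem thin [Fintype ι] (hT : S_D_THINFIN) {X : Set Gm} (hX : S.In X) (hM : S.Min X)
    (hE : S.tot ≤ 2 * mu X) (T : S.Tree) (hB : (Bd S i).Infinite) : S.Thin := by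
  intro F
  have f1 := Gm.finite_over F.finite_toSet
  have f2 : {γ : Gm | (S.φ i * γ).c ∈ (F : Set ℝ)}.Finite :=
    f1.preimage (f := fun γ => S.φ i * γ) (mul_right_injective _).injOn
  obtain ⟨γ, ⟨h1, h2, h3⟩, h4⟩ := (hB.sdiff (f1.union f2)).nonempty
  by_cases a : γ.opp ∈ S.Am i
  · have b : (S.φ i * γ).opp ∉ S.Am (S.inv i) := fun k => h3 ⟨a, by rwa [Gm.mul_opp]⟩
    obtain ⟨Tr, k⟩ := thin_at hT hX hM hE T (Sys.alive_rev.2 h1)
      (by rw [← Gm.mul_opp]; exact S.map i _ h2) b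
    exact ⟨S.inv i, _, Tr, fun e => h4 (Or.inr e), k⟩
  · obtain ⟨Tr, k⟩ := thin_at hT hX hM hE T h1 h2 a
    exact ⟨i, γ, Tr, fun e => h4 (Or.inl e), k⟩

end D_dichA

theorem p_D_DICH (hD_NOISO : S_D_NOISO) (hD_SWITCH : S_D_SWITCH) (hD_THINFIN : S_D_THINFIN) :
    S_D_DICH := by
  intro ι _ S X hX hM hE T
  by_cases h : ∀ i, (D_dichA.Bd S i).Finite
  · refine Or.inr fun i => ?_
    have k := fun j => D_dichA.isOpen_am hD_NOISO hD_SWITCH hX hM T (h j)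
    exact (k i).inter ((k (S.inv i)).preimage (continuous_gm_mul (S.φ i)))
  · obtain ⟨i, hi⟩ := not_forall.1 h
    exact Or.inl (D_dichA.thin hD_THINFIN hX hM hE T hi)

end Pool.Agent.P.MP_dba3d2_lc
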