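import Pool.Agent.P.MP_dba3d2_lc.D.Iface4
import Pool.Agent.P.MP_dba3d2_lc.D.T0B

/-! Step D_EXT of the stability project. -/

namespace Pool.Agent.P.MP_dba3d2_lc

open Set Filter Topology

namespace D_extA

variable {R : RT} {P N : ℝ → R.W} {p q u v u' v' : ℝ} {w w' : R.W}

theorem uniq (hP : R.IsoOn P p q) (hN : R.Eqv P p q N) (hu : u ∈ Icc p q) (hv : v ∈ Icc p q)
    (hu' : u' ∈ Icc p q) (hv' : v' ∈ Icc p q) (e1 : R.d (w * P u) (w' * P u') = 0)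
    (e2 : R.d (w * P v) (w' * P v') = 0) :
    w * ((N u)⁻¹ * N v) * w⁻¹ = w' * ((N u')⁻¹ * N v') * w'⁻¹ := by
  obtain ⟨φ, rfl, rfl, k⟩ := R.exists_gm (g := w'⁻¹ * w) hP hP hu hv hu' hv'
    (by rwa [mul_assoc, LG.d_inv_mul]) (by rwa [mul_assoc, LG.d_inv_mul])
  have e : N (φ.ap u) * (w'⁻¹ * w) * (N u)⁻¹ = N (φ.ap v) * (w'⁻¹ * w) * (N v)⁻¹ := by
    rcases lt_trichotomy u v with h | rfl | h
    · rw [uIcc_of_le h.le] at k
      exact hN _ φ u v ⟨h, fun t ht => ⟨Icc_subset_Icc hu.1 hv.2 ht,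
        uIcc_subset_Icc hu' hv' (k t ht).1⟩, fun t ht => (k t ht).2⟩
    · rfl
    · rw [uIcc_of_ge h.le] at k
      exact (hN _ φ v u ⟨h, fun t ht => ⟨Icc_subset_Icc hv.1 hu.2 ht,
        uIcc_subset_Icc hu' hv' (k t ht).1⟩, fun t ht => (k t ht).2⟩).symm
  calc w * ((N u)⁻¹ * N v) * w⁻¹
      = w' * (N (φ.ap u))⁻¹ * (N (φ.ap u) * (w'⁻¹ * w) * (N u)⁻¹) * N v * w⁻¹ := by group
    _ = _ := by rw [e]; group

theorem exists_val (hP : R.IsoOn P p q) (hN : R.Eqv P p q N) : ∃ Φ : R.W → R.W,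
    (∀ g w, ∀ u ∈ Icc p q, ∀ v ∈ Icc p q, R.d 1 (w * P u) = 0 → R.d g (w * P v) = 0 →
      Φ g = w * ((N u)⁻¹ * N v) * w⁻¹ * g) ∧ ∀ g, R.Fr P p q 1 g → Φ g = g := by
  have key : ∀ g, ∃ y, (∀ w, ∀ u ∈ Icc p q, ∀ v ∈ Icc p q, R.d 1 (w * P u) = 0 →
      R.d g (w * P v) = 0 → y = w * ((N u)⁻¹ * N v) * w⁻¹ * g) ∧ (R.Fr P p q 1 g → y = g) := by
    intro g
    by_cases h : R.JA P p q 1 g
    · obtain ⟨w, u, hu, v, hv, h1, h2⟩ := id h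
      refine ⟨w * ((N u)⁻¹ * N v) * w⁻¹ * g, fun w' u' hu' v' hv' k1 k2 => ?_, fun k => ?_⟩
      · rw [uniq hP hN hu hv hu' hv' (LG.d_zero_trans (LG.d_zero_symm h1) k1)
          (LG.d_zero_trans (LG.d_zero_symm h2) k2)]
      · have e := k.d_zero h
        rw [LG.d_congr h1 h2, LG.d_mul_left, hP u hu v hv, abs_eq_zero, sub_eq_zero] at e
        rw [e]
        group
    · exact ⟨g, fun w u hu v hv k1 k2 => (h ⟨w, u, hu, v, hv, k1, k2⟩).elim, fun _ => rfl⟩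
  choose Φ h1 h2 using key
  exact ⟨Φ, h1, h2⟩

theorem main (hC : S_D_EXTC) (hP : R.IsoOn P p q) (hN : R.Eqv P p q N) :
    (∀ h ∈ R.T0 P p q, ∀ x, R.On x 1 h → x ∈ R.T0 P p q) ∧ ∃ σ : R.T0 P p q →* R.W,
    (∀ t : R.T0 P p q, R.Fr P p q 1 t → σ t = t) ∧
    ∀ u ∈ Icc p q, ∀ v ∈ Icc p q, ∀ t : R.T0 P p q, (t : R.W) = (P u)⁻¹ * P v →
      σ t = (P u)⁻¹ * ((N u)⁻¹ * N v) * P v := by
  obtain ⟨Φ, h1, h2⟩ := exists_val hP hN
  obtain ⟨k1, σ, k2⟩ := hC R (fun g => R.JA P p q 1 g ∨ R.Fr P p q 1 g) R.W Φ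
    (by
      rintro g x (⟨w, u, hu, v, hv, a1, a2⟩ | a) hx
      · have b1 := (LG.on_mul_left w⁻¹).2 (hx.congr (LG.d_self _) a1 a2)
        rw [inv_mul_cancel_left, inv_mul_cancel_left] at b1
        obtain ⟨t, ht, e⟩ := R.exists_param hP hu hv b1
        rw [LG.d_inv_mul] at e
        have ht' := uIcc_subset_Icc hu hv ht
        have b2 : R.d 1 (x⁻¹ * w * P t) = 0 := by
          rwa [← LG.d_mul_left x, mul_one, mul_assoc, mul_inv_cancel_left]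
        have b3 : R.d (x⁻¹ * g) (x⁻¹ * w * P v) = 0 := by rwa [mul_assoc, LG.d_mul_left]
        refine ⟨Or.inl ⟨w, u, hu, t, ht', a1, e⟩, Or.inl ⟨_, t, ht', v, hv, b2, b3⟩, ?_⟩
        rw [h1 g w u hu v hv a1 a2, h1 x w u hu t ht' a1 e, h1 _ _ t ht' v hv b2 b3]
        group
      · have b1 := RT.fr_sub a (LG.on_left _ _) hx
        have b2 := (LG.fr_mul_left x⁻¹).2 (RT.fr_sub a hx (LG.on_right _ _))
        rw [inv_mul_cancel] at b2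
        refine ⟨Or.inr b1, Or.inr b2, ?_⟩
        rw [h2 g a, h2 x b1, h2 _ b2, mul_inv_cancel_left])
    (by
      rintro g (⟨w, u, hu, v, hv, a1, a2⟩ | a)
      · have b2 : R.d 1 (g⁻¹ * w * P v) = 0 := by
          rwa [← LG.d_mul_left g, mul_one, mul_assoc, mul_inv_cancel_left]
        have b3 : R.d g⁻¹ (g⁻¹ * w * P u) = 0 := by
          rwa [← LG.d_mul_left g, mul_inv_cancel, mul_assoc, mul_inv_cancel_left]
        refine ⟨Or.inl ⟨_, v, hv, u, hu, b2, b3⟩, ?_⟩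
        rw [h1 g w u hu v hv a1 a2, h1 _ _ v hv u hu b2 b3]
        group
      · have b2 := (LG.fr_mul_left g⁻¹).2 a.symm
        rw [inv_mul_cancel, mul_one] at b2
        exact ⟨Or.inr b2, by rw [h2 g a, h2 _ b2]⟩)
    fun z hz => Or.inr (LG.fr_tiny hz)
  refine ⟨k1, σ, fun t ht => (k2 t (Or.inr ht)).trans (h2 _ ht), fun u hu v hv t ht => ?_⟩
  have b2 : R.d 1 ((P u)⁻¹ * P u) = 0 := by rw [inv_mul_cancel, LG.d_self]
  have b3 : R.d t ((P u)⁻¹ * P v) = 0 := by rw [ht, LG.d_self]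
  refine (k2 t (Or.inl ⟨_, u, hu, v, hv, b2, b3⟩)).trans ?_
  rw [h1 _ _ u hu v hv b2 b3, ht]
  group

end D_extA

theorem p_D_EXT (hD_EXTC : S_D_EXTC) :
    S_D_EXT := fun _ _ _ _ hP =>
  ⟨(D_extA.main (N := fun _ => 1) hD_EXTC hP fun _ _ _ _ _ => rfl).1,
    fun _ hN => (D_extA.main hD_EXTC hP hN).2⟩

end Pool.Agent.P.MP_dba3d2_lc
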