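import Pool.Agent.P.MP_dba3d2_lc.D.Iface4
import Pool.Agent.P.MP_dba3d2_lc.D.HullB

/-! Step D_HULLN of the stability project. -/

namespace Pool.Agent.P.MP_dba3d2_lc

open Set Filter Topology

namespace D_hullnA

variable {A : Gm → ℝ → ℝ → Prop} {X : Set Gm} {L : LS X} {Ω : Finset ℝ}

/-- the points of the leaf of a germ -/
def pts (L : LS X) (ζ : Gm) : Set ℝ := Gm.c '' {β | L.Rel ζ β}

theorem countable_pts (L : LS X) (ζ : Gm) : (pts L ζ).Countable := (L.countable_leaf ζ).image _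

theorem countable_over {E : Set ℝ} (hE : E.Countable) : {γ : Gm | γ.c ∈ E}.Countable :=
  ((hE.image Gm.tau).union (hE.image fun t => (Gm.tau t).opp)).mono fun γ h =>
    (Gm.eq_or_opp (γ := Gm.tau γ.c) (β := γ) rfl).imp (fun e => ⟨_, h, e.symm⟩)
      fun e => ⟨_, h, e.symm⟩

/-- a leaf that misses a countable set of points -/
theorem pick (L : LS X) {E : Set ℝ} (hE : E.Countable) :
    ∃ ζ ∈ X, ∀ t ∈ pts L ζ, t ∉ E := by
  obtain ⟨a, b, hab, hX⟩ := exists_GI_subset L.co.2 L.ne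
  have h1 : (⋃ γ ∈ {γ : Gm | γ.c ∈ E}, pts L γ).Countable :=
    (countable_over hE).biUnion fun γ _ => countable_pts L γ
  have h2 : ¬Ioo a b ⊆ ⋃ γ ∈ {γ : Gm | γ.c ∈ E}, pts L γ := fun h => by
    have := (h1.mono h).measure_zero MeasureTheory.volume
    rw [Real.volume_Ioo, ENNReal.ofReal_eq_zero] at this
    linarith
  obtain ⟨t, ht, hn⟩ := not_subset.1 h2
  refine ⟨Gm.tau t, hX (tau_mem_GI.2 ⟨ht.1.le, ht.2⟩), ?_⟩
  rintro _ ⟨β, h, rfl⟩ k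
  exact hn (mem_biUnion (x := β) k ⟨_, LS.Rel.symm h, rfl⟩)

/-- a leaf that meets the points of a free leaf has all its points there -/
theorem all_pts (H : L.Hull A Ω) {ζ : Gm} (hζ : ζ ∈ X) (hf : ∀ t ∈ pts L ζ, t ∉ Ω)
    (y : Gm × Bool) (a n : ℤ) (h : (L.at' y a).c ∈ pts L ζ) : (L.at' y n).c ∈ pts L ζ := by
  obtain ⟨β, h1, h2⟩ := h
  rcases Gm.eq_or_opp h2.symm with e | e
  · exact ⟨_, LS.Rel.trans h1 (e ▸ L.rel_at y a n), rfl⟩
  · have k : ∀ m : ℤ, L.Rel ζ (L.at' (β, ((L.f ^ a) y).2) m) := fun m =>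
      LS.Rel.trans h1 ((L.rel_iff _).2 ⟨m, rfl⟩)
    have k1 := H.at_opp_int (y := (β, ((L.f ^ a) y).2)) (LS.Rel.mem h1 hζ)
      (fun m => hf _ ⟨_, k m, rfl⟩) (n - a)
    have k2 : (β.opp, ((L.f ^ a) y).2) = (L.f ^ a) y := Prod.ext e.symm rfl
    dsimp only at k1
    rw [k2, L.at_add, sub_add_cancel] at k1
    exact ⟨_, k (n - a), by rw [k1]; simp⟩

/-- a point of a free leaf can be added -/
theorem ins (H : L.Hull A Ω) {ζ : Gm} (hζ : ζ ∈ X) (hf : ∀ t ∈ pts L ζ, t ∉ Ω) {z : ℝ}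
    (hz : z ∈ pts L ζ) : L.Hull A (insert z Ω) := by
  refine ⟨fun y hy h => H.par y hy fun k => h (Finset.mem_insert_of_mem k),
    fun y hy a b c hab hbc ha hc => ?_⟩
  by_cases e : ∃ m, (L.at' y m).c ∈ pts L ζ
  · obtain ⟨m, hm⟩ := e
    have k : ∀ n, (L.at' y n).c ∉ Ω := fun n => hf _ (all_pts H hζ hf y m n hm)
    have e1 := (Finset.mem_insert.1 ha).resolve_right (k a)
    have e2 := (Finset.mem_insert.1 hc).resolve_right (k c)
    have e3 : a = c := H.pt_inj hy k (e1.trans e2.symm)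
    have e4 : b = a := by omega
    rwa [e4]
  · have k : ∀ n, (L.at' y n).c ≠ z := fun n h => e ⟨n, h ▸ hz⟩
    exact Finset.mem_insert_of_mem (H.cvx y hy a b c hab hbc
      ((Finset.mem_insert.1 ha).resolve_left (k a)) ((Finset.mem_insert.1 hc).resolve_left (k c)))

theorem visit (L : LS X) {ζ : Gm} (hζ : ζ ∈ X) {a b : ℝ} (hab : a < b) (hX : GI a b ⊆ X) :
    ∃ z ∈ pts L ζ, a < z ∧ z < b := by
  obtain ⟨B, hB⟩ := L.exists_visit (U := Gm.c ⁻¹' Ioo a b) (isOpen_Ioo.preimage continuous_c)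
    ⟨Gm.tau ((a + b) / 2), ⟨by simp; linarith, by simp; linarith⟩,
      hX (tau_mem_GI.2 ⟨by linarith, by linarith⟩)⟩
  obtain ⟨n, -, -, h⟩ := hB (ζ, true) hζ
  exact ⟨_, ⟨_, ⟨n, rfl⟩, rfl⟩, h⟩

theorem anchor (P : PG A) (H : L.Hull A Ω) {ζ : Gm} (hζ : ζ ∈ X) (hf : ∀ t ∈ pts L ζ, t ∉ Ω)
    {β : Gm} (h : β.c ∈ pts L ζ) : ∃ α : Gm, α.c = ζ.c ∧ RW2 A α β := by
  obtain ⟨_, ⟨n, rfl⟩, h2⟩ := h
  have k := H.rw2_int P (y := (ζ, true)) hζ (fun m => hf _ ⟨_, ⟨m, rfl⟩, rfl⟩) 0 n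
  rw [L.at_zero] at k
  rcases Gm.eq_or_opp h2.symm with e | e
  · exact ⟨ζ, rfl, e ▸ k⟩
  · exact ⟨ζ.opp, by simp, e ▸ k.opp⟩

end D_hullnA

open D_hullnA in
theorem p_D_HULLN :
    S_D_HULLN := by
  intro A P X L Ω H
  obtain ⟨ζ', hζ', hf'⟩ := pick L Ω.countable_toSet
  obtain ⟨ζ, hζ, hf⟩ := pick L (Ω.countable_toSet.union (countable_pts L ζ'))
  have hf0 : ∀ t ∈ pts L ζ, t ∉ Ω := fun t h k => hf t h (Or.inl k)
  refine ⟨insert ζ.c (insert ζ'.c Ω), fun t h => by simp [h], fun u v huv hX => ?_⟩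
  obtain ⟨a, b, h1, h2, h3, h4⟩ := exists_Icc_avoid Ω.finite_toSet huv
  obtain ⟨z, hz, k1, k2⟩ := visit L hζ (a := a) (b := (a + b) / 2) (by linarith)
    ((GI_mono h1.le (by linarith)).trans hX)
  obtain ⟨z', hz', k3, k4⟩ := visit L hζ' (a := (a + b) / 2) (b := b) (by linarith)
    ((GI_mono (by linarith) h3.le).trans hX)
  refine ⟨z, z', by linarith, by linarith, by linarith,
    fun t ht => h4 t ⟨by linarith [ht.1], by linarith [ht.2]⟩,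
    ins (ins H hζ' hf' hz') hζ (fun t h k => ?_) hz, ?_⟩
  · rcases Finset.mem_insert.1 k with e | e
    · exact hf t h (Or.inr (e ▸ hz'))
    · exact hf0 t h e
  · rintro β (e | e)
    · obtain ⟨α, a1, a2⟩ := anchor P H hζ hf0 (β := β) (e ▸ hz)
      exact ⟨α, by simp [a1], a2⟩
    · obtain ⟨α, a1, a2⟩ := anchor P H hζ' hf' (β := β) (e ▸ hz')
      exact ⟨α, by simp [a1], a2⟩

end Pool.Agent.P.MP_dba3d2_lc
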