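import Pool.Agent.P.MP_dba3d2_lc.D.Iface3
import Pool.Agent.P.MP_dba3d2_lc.D.TreeB

/-! Step D_SECT of the stability project. -/

namespace Pool.Agent.P.MP_dba3d2_lc

open Set Filter Topology

theorem p_D_SECT :
    S_D_SECT := by
  classical
  intro R A
  choose P0 h1 h2 h3 _ using fun (w : R.W) (s : ℝ) => R.exists_path 1 w s
  have e : ∀ w : R.W, R.d 1 w = R.ℓ w := fun w => by rw [LG.d, inv_one, one_mul]
  simp only [e] at h2 h3
  set B : ℝ := 1 + ∑ w ∈ A, R.ℓ w with hB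
  have lt : ∀ w ∈ A, R.ℓ w < B := fun w hw => by
    have := Finset.single_le_sum (f := R.ℓ) (fun x _ => LG.l_nonneg x) hw
    linarith
  let n : R.W → ℕ := fun w => if h : w ∈ A then (A.equivFin ⟨w, h⟩ : ℕ) else 0
  have inj : ∀ w ∈ A, ∀ w' ∈ A, n w = n w' → w = w' := fun w hw w' hw' h => by
    simp only [n, dif_pos hw, dif_pos hw'] at h
    exact congrArg Subtype.val (A.equivFin.injective (Fin.ext h))
  have dj : ∀ w ∈ A, ∀ w' ∈ A, ∀ t, t ∈ Icc (B * n w) (B * n w + R.ℓ w) →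
      t ∈ Icc (B * n w') (B * n w' + R.ℓ w') → w = w' := by
    have key : ∀ w ∈ A, ∀ w' ∈ A, ∀ t, t ∈ Icc (B * n w) (B * n w + R.ℓ w) →
        t ∈ Icc (B * n w') (B * n w' + R.ℓ w') → n w' ≤ n w := by
      intro w hw w' _ t k k'
      by_contra c
      have c1 : (n w : ℝ) + 1 ≤ n w' := by exact_mod_cast not_le.1 c
      have b0 : 0 < B := (LG.l_nonneg w).trans_lt (lt w hw)
      have := mul_le_mul_of_nonneg_left c1 b0.le
      linarith [k.2, k'.1, lt w hw]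
    exact fun w hw w' hw' t k k' =>
      inj w hw w' hw' (le_antisymm (key w' hw' w hw t k' k) (key w hw w' hw' t k k'))
  let P : ℝ → R.W := fun t =>
    if h : ∃ w ∈ A, t ∈ Icc (B * n w) (B * n w + R.ℓ w) then P0 h.choose (B * n h.choose) t else 1
  have hP : ∀ w ∈ A, ∀ t ∈ Icc (B * n w) (B * n w + R.ℓ w), P t = P0 w (B * n w) t := by
    intro w hw t ht
    have h : ∃ w ∈ A, t ∈ Icc (B * n w) (B * n w + R.ℓ w) := ⟨w, hw, ht⟩
    simp only [P, dif_pos h]
    rw [dj _ h.choose_spec.1 w hw t h.choose_spec.2 ht]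
  refine ⟨P, fun w => B * n w, fun w hw h => ?_, fun w hw h => ?_, fun w hw s hs t ht => ?_, dj⟩
  · rw [hP w hw _ ⟨le_rfl, by linarith⟩, h1]
  · rw [hP w hw _ ⟨by linarith, le_rfl⟩, h2 w _ h]
  · rw [hP w hw s hs, hP w hw t ht]
    exact h3 w _ s hs t ht

end Pool.Agent.P.MP_dba3d2_lc
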