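import Pool.Agent.P.MP_dba3d2_lc.D.Iface3
import Pool.Agent.P.MP_dba3d2_lc.D.Germ2
import Pool.Agent.P.MP_dba3d2_lc.D.TreeB

/-! Step D_STRIP of the stability project. -/

namespace Pool.Agent.P.MP_dba3d2_lc

open Set Filter Topology

namespace D_stripA

/-- the move is respected by `j`, `n` -/
def Val {W G : Type} [Group W] [Group G] (j : W →* G) (n : ℝ → G) (g : W) (φ : Gm) (u v : ℝ) :
    Prop := n (φ.ap u) * j g * (n u)⁻¹ = n (φ.ap v) * j g * (n v)⁻¹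

variable {R : LG} {ι : Type} (P : ℝ → R.W) (S : Sys ι) (p q : ℝ)

/-- the basic moves with points in `F` -/
def Bas (F : Finset ℝ) : Set (R.W × Gm × ℝ × ℝ) :=
  {m | m.2.2.1 ∈ F ∧ m.2.2.2 ∈ F ∧ m.2.1.ap m.2.2.1 ∈ F ∧ m.2.1.ap m.2.2.2 ∈ F ∧
    m.2.2.1 < m.2.2.2 ∧ R.Rl P m.1 m.2.1 m.2.2.1 m.2.2.2 ∧
    (m.2.1 = 1 ∨ ∃ i, m.2.1 = S.φ i ∧ GI m.2.2.1 m.2.2.2 ⊆ S.dom i)}

/-- the move follows from finitely many basic moves -/
def Der (g : R.W) (φ : Gm) (u v : ℝ) : Prop :=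
  ∃ F : Finset ℝ, (∀ t ∈ F, t ∈ Icc p q) ∧ ∀ F', F ⊆ F' →
    ∀ (G : Type) [Group G] (j : R.W →* G) (n : ℝ → G),
      (∀ g φ u v, (g, φ, u, v) ∈ Bas P S F' → Val j n g φ u v) → Val j n g φ u v

variable {P S p q} {g g' : R.W} {φ ψ : Gm} {u v w : ℝ}

theorem Der.refl : Der P S p q g φ u u := ⟨∅, by simp, fun _ _ _ _ _ _ _ => rfl⟩

theorem Der.one : Der P S p q 1 1 u v := ⟨∅, by simp, fun _ _ _ _ _ _ _ => by simp [Val]⟩

theorem Der.symm (h : Der P S p q g φ u v) : Der P S p q g φ v u := by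
  obtain ⟨F, h1, h2⟩ := h
  exact ⟨F, h1, fun F' a G _ j n b => (h2 F' a G j n b).symm⟩

theorem Der.two {g₁ g₂ : R.W} {φ₁ φ₂ : Gm} {u₁ v₁ u₂ v₂ : ℝ} (h : Der P S p q g₁ φ₁ u₁ v₁)
    (k : Der P S p q g₂ φ₂ u₂ v₂)
    (e : ∀ (G : Type) [Group G] (j : R.W →* G) (n : ℝ → G), Val j n g₁ φ₁ u₁ v₁ →
      Val j n g₂ φ₂ u₂ v₂ → Val j n g φ u v) : Der P S p q g φ u v := by
  classical
  obtain ⟨F, h1, h2⟩ := h
  obtain ⟨E, k1, k2⟩ := k
  exact ⟨F ∪ E, fun t ht => (Finset.mem_union.1 ht).elim (h1 t) (k1 t), fun F' a G _ j n b =>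
    e G j n (h2 F' (Finset.subset_union_left.trans a) G j n b)
      (k2 F' (Finset.subset_union_right.trans a) G j n b)⟩

theorem Der.trans (h : Der P S p q g φ u v) (k : Der P S p q g φ v w) : Der P S p q g φ u w :=
  h.two k fun _ _ _ _ a b => a.trans b

theorem Der.comp (h : Der P S p q g φ u v) (k : Der P S p q g' ψ (φ.ap u) (φ.ap v)) :
    Der P S p q (g' * g) (ψ * φ) u v :=
  h.two k fun _ _ j n a b => by
    have e : ∀ t, n ((ψ * φ).ap t) * j (g' * g) * (n t)⁻¹ =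
        n (ψ.ap (φ.ap t)) * j g' * (n (φ.ap t))⁻¹ * (n (φ.ap t) * j g * (n t)⁻¹) := fun t => by
      rw [Gm.mul_ap, map_mul]
      group
    rw [Val, e, e, a, b]

theorem Der.bas (h : u < v) (h1 : u ∈ Icc p q) (h2 : v ∈ Icc p q) (h3 : φ.ap u ∈ Icc p q)
    (h4 : φ.ap v ∈ Icc p q) (hr : R.Rl P g φ u v)
    (hφ : φ = 1 ∨ ∃ i, φ = S.φ i ∧ GI u v ⊆ S.dom i) : Der P S p q g φ u v := by
  classical
  refine ⟨{u, v, φ.ap u, φ.ap v}, fun t ht => ?_, fun F' a G _ j n b =>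
    b g φ u v ⟨a (by simp), a (by simp), a (by simp), a (by simp), h, hr, hφ⟩⟩
  simp only [Finset.mem_insert, Finset.mem_singleton] at ht
  rcases ht with rfl | rfl | rfl | rfl <;> assumption

theorem ends (h : u < v) (k : tr φ (GI u v) ⊆ GI p q) : φ.ap u ∈ Icc p q ∧ φ.ap v ∈ Icc p q := by
  rw [tr_GI h.le, GI_subset_iff (min_lt_max.2 fun e => h.ne (φ.ap_injective e))] at k
  exact ⟨⟨k.1.trans (min_le_left _ _), (le_max_left _ _).trans k.2⟩,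
    k.1.trans (min_le_right _ _), (le_max_right _ _).trans k.2⟩

theorem germ {p0 q0 : ℝ} (hI : S.In (GI p q)) (hA : S.Arcs (R.arc P p0 q0)) {γ β : Gm}
    (h : S.Rel γ β) : ∃ r > 0, ∀ x y, x < y → GI x y ⊆ seg γ r →
      ∃ g, R.Rl P g (β * γ⁻¹) x y ∧ Der P S p q g (β * γ⁻¹) x y := by
  induction h with
  | refl =>
    refine ⟨1, one_pos, fun x y _ _ => ⟨1, ?_⟩⟩
    rw [mul_inv_cancel]
    exact ⟨fun t _ => by simp, Der.one⟩
  | @tail β β' _ hs ih =>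
    obtain ⟨r, hr, ih⟩ := ih
    obtain ⟨i, hi, rfl⟩ := hs
    obtain ⟨r', hr', hd⟩ := isOpen_iff_seg.1 (S.co i).2 β hi
    refine ⟨min r r', lt_min hr hr', fun x y hxy hs => ?_⟩
    obtain ⟨g1, a1, a2⟩ := ih x y hxy (hs.trans (seg_mono (min_le_left _ _)))
    set ψ := β * γ⁻¹ with hψ
    have e1 : tr ψ (GI x y) ⊆ S.dom i := by
      refine (tr_mono (hs.trans (seg_mono (min_le_right _ _)))).trans ?_
      rwa [tr_seg, hψ, inv_mul_cancel_right]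
    rw [tr_GI hxy.le] at e1
    have lt := min_lt_max.2 fun e => hxy.ne (ψ.ap_injective e)
    obtain ⟨g2, -, -, b⟩ := hA i _ _ lt e1
    have c1 := ends (φ := 1) lt (p := p) (q := q) (by rw [tr_one]; exact e1.trans (hI i))
    have c2 := ends (φ := S.φ i) lt (p := p) (q := q) (by
      rw [tr_eq_image]
      rintro _ ⟨α, hα, rfl⟩
      exact hI _ (S.map i α (e1 hα)))
    rw [Gm.one_ap, Gm.one_ap] at c1
    have d := Der.bas lt c1.1 c1.2 c2.1 c2.2 b (Or.inr ⟨i, rfl, e1⟩)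
    rw [mul_assoc]
    refine ⟨g2 * g1, fun t ht => ?_, a2.comp ?_⟩
    · rw [mul_assoc, Gm.mul_ap]
      refine LG.d_zero_trans (y := g2 * P (ψ.ap t)) ?_ (b _ ?_)
      · rw [LG.d_mul_left]
        exact a1 t ht
      · exact (Gm.ap_mem_uIcc ψ).2 (Icc_subset_uIcc ht)
    · rcases le_total (ψ.ap x) (ψ.ap y) with l | l
      · rwa [min_eq_left l, max_eq_right l] at d
      · rw [min_eq_right l, max_eq_left l] at d
        exact d.symm

theorem move {p0 q0 : ℝ} (hI : S.In (GI p q)) (hA : S.Arcs (R.arc P p0 q0))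
    (h : R.Mover P p q g φ u v) (k : ∀ γ ∈ GI u v, S.Rel γ (φ * γ)) : Der P S p q g φ u v := by
  obtain ⟨E, hE⟩ := (co_GI (a := u) (b := v)).subdiv'
    (Q := fun x y => ∃ g, R.Rl P g φ x y ∧ Der P S p q g φ x y) fun γ hγ => by
      simpa only [mul_inv_cancel_right] using germ hI hA (k γ hγ)
  refine chain_ind (Q := fun u t => Der P S p q g φ u t) E.finite_toSet h.1.le Der.refl
    fun s t h1 h2 h3 _ _ hf ih => ih.trans ?_
  obtain ⟨⟨g1, a1, a2⟩, -⟩ := hE s t hf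
    ((GI_nonempty.2 h2).mono (subset_inter le_rfl (GI_mono h1 h3)))
  have d : Der P S p q (g1⁻¹ * g) 1 s t := by
    have b1 := (h.2.1 s ⟨h1, h2.le.trans h3⟩).1
    have b2 := (h.2.1 t ⟨h1.trans h2.le, h3⟩).1
    refine Der.bas h2 b1 b2 (by rwa [Gm.one_ap]) (by rwa [Gm.one_ap]) (fun x hx => ?_) (Or.inl rfl)
    rw [mul_assoc, LG.d_inv_mul, Gm.one_ap]
    exact LG.d_zero_trans (h.2.2 x ⟨h1.trans hx.1, hx.2.trans h3⟩) (LG.d_zero_symm (a1 x hx))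
  have := d.comp (g' := g1) (ψ := φ) (by rwa [Gm.one_ap, Gm.one_ap])
  rwa [mul_inv_cancel_left, mul_one] at this

end D_stripA

open D_stripA in
theorem p_D_STRIP :
    S_D_STRIP := by
  classical
  intro R P p0 q0 p q _ _ _ ι S hI hA hG η hη V hV hM F hF
  have hD : ∀ m : V, Der P S p q m.1.1 m.1.2.1 m.1.2.2.1 m.1.2.2.2 := fun m =>
    move hI hA (hM _ _ _ _ m.2).1 (hM _ _ _ _ m.2).2
  choose E h1 h2 using hD
  have := hV.fintype
  obtain ⟨r, y, N, a1, a2, a3⟩ := hG η hη (F ∪ Finset.univ.biUnion E) fun t ht => by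
    rcases Finset.mem_union.1 ht with a | a
    · exact hF t a
    · obtain ⟨m, -, b⟩ := Finset.mem_biUnion.1 a
      exact h1 m t b
  refine ⟨r, y, N, a1, a2, fun G j ν b1 b2 n hn => ?_⟩
  obtain ⟨c1, c2, c3⟩ := a3 G j ν b1 b2 n hn
  have s : ∀ t ∈ (F : Set ℝ), t ∈ ((F ∪ Finset.univ.biUnion E : Finset ℝ) : Set ℝ) :=
    fun t ht => Finset.mem_union_left _ ht
  exact ⟨fun g φ u v hm => h2 ⟨_, hm⟩ _ ((Finset.subset_biUnion_of_mem E (Finset.mem_univ _)).trans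
      Finset.subset_union_right) G.W j n c1,
    fun e u hu v hv => c2 e u (s u hu) v (s v hv), fun e u hu v hv => c3 e u (s u hu) v (s v hv)⟩

end Pool.Agent.P.MP_dba3d2_lc
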