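import Pool.Agent.P.MP_dba3d2_lc.D.Iface2
import Pool.Agent.P.MP_dba3d2_lc.D.SysC

/-! Step D_TRIM of the stability project. -/

namespace Pool.Agent.P.MP_dba3d2_lc

open Set Filter Topology

namespace D_trimA

theorem mem_right {a t b : ℝ} {γ : Gm} (h1 : a ≤ t) (h2 : t ≤ b) :
    γ ∈ GI t b ↔ γ ∈ GI a b ∧ γ ∉ GI a t := by
  refine ⟨fun h => ⟨GI_mono h1 le_rfl h, fun k => disjoint_left.1 (GI_disjoint le_rfl) k h⟩,
    fun h => ?_⟩
  have k := h.1
  rw [← GI_union h1 h2] at k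
  exact k.resolve_left h.2

theorem mem_left {a t b : ℝ} {γ : Gm} (h1 : a ≤ t) (h2 : t ≤ b) :
    γ ∈ GI a t ↔ γ ∈ GI a b ∧ γ ∉ GI t b := by
  refine ⟨fun h => ⟨GI_mono le_rfl h2 h, fun k => disjoint_left.1 (GI_disjoint le_rfl) h k⟩,
    fun h => ?_⟩
  have k := h.1
  rw [← GI_union h1 h2] at k
  exact k.resolve_right h.2

theorem intv_of_sub {A : Gm → ℝ → ℝ → Prop} {ι : Type} {S T : Sys ι} (h : T.Sub S)
    (k : S.Arcs A) (e : ∀ i, ∃ u v, T.dom i = GI u v) : T.Intv A := fun i => by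
  obtain ⟨u, v, e1⟩ := e i
  rcases lt_or_ge u v with c | c
  · exact Or.inr ⟨u, v, e1, h.arcs k i u v c e1.ge⟩
  · exact Or.inl (e1.trans (GI_eq_empty c))

theorem arcs_of_intv {A : Gm → ℝ → ℝ → Prop} (P : PG A) {ι : Type} {S : Sys ι} (h : S.Intv A) :
    S.Arcs A := fun i u v c k => by
  rcases h i with e | ⟨a, b, e, x⟩
  · exact absurd (GI_nonempty.2 c) (not_nonempty_iff_eq_empty.2 (subset_eq_empty k e))
  · have y := (GI_subset_iff c).1 (k.trans e.le)
    exact P.sub _ _ _ _ _ x y.1 c y.2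

end D_trimA

open D_trimA in
theorem p_D_TRIM :
    S_D_TRIM := by
  classical
  intro A P Rn ι _ S k z z' b q hS hk zz zb zq ho hm
  obtain ⟨_, hIn, hI, hR⟩ := hS
  obtain ⟨T, hT⟩ := S.exists_cut k (U := GI z z') co_GI
  have hsub : T.Sub S := hT.sub
  obtain ⟨e1, e2, hd⟩ := hT
  have hoth : ∀ i, i ≠ k → i ≠ S.inv k → T.dom i = S.dom i := fun i a c => by
    ext γ
    rw [hd]
    exact ⟨fun h => h.1, fun h => ⟨h, fun x => a x.1, fun x => c x.1⟩⟩
  have hne : S.inv k ≠ k → T.dom k = GI z' b := fun a => by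
    ext γ
    rw [hd, hk, mem_right zz.le zb]
    exact ⟨fun h => ⟨h.1, fun x => h.2.1 ⟨rfl, x⟩⟩,
      fun h => ⟨h.1, fun x => h.2 x.2, fun x => a x.1.symm⟩⟩
  have hb : S.inv k = k → (S.φ k).ap z = b := fun a => by
    have e := S.dom_inv k
    rw [a, hk, tr_GI_neg (hm a).1] at e
    exact (GI_inj (zz.trans_le zb) e).2.symm
  have hb' : S.inv k = k → b - (S.φ k).ap z' = z' - z := fun a => by
    rw [← hb a, Gm.ap_sub, (hm a).1]
    ring
  have hv : S.inv k = k → ∀ γ, S.φ k * γ ∈ GI z z' ↔ γ ∈ GI ((S.φ k).ap z') b := fun a γ => by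
    have e : (S.φ k)⁻¹ = S.φ k := by rw [← S.φ_inv k, a]
    rw [← hb a, ← tr_GI_neg (hm a).1, mem_tr, e]
  have heq : S.inv k = k → T.dom k = GI z' ((S.φ k).ap z') := fun a => by
    have c : (S.φ k).ap z' ≤ b := by linarith [hb' a]
    ext γ
    rw [hd, hk, hv a, mem_left (hm a).2 c, mem_right zz.le zb]
    exact ⟨fun h => ⟨⟨h.1, fun x => h.2.1 ⟨rfl, x⟩⟩, fun x => h.2.2 ⟨a.symm, x⟩⟩,
      fun h => ⟨h.1.1, fun x => h.1.2 x.2, fun x => h.2 x.2⟩⟩
  have hTin : T.In (GI z' q) := fun i γ h => by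
    by_cases a : i = k
    · rw [hd] at h
      exact (mem_right zz.le zq.le).2 ⟨hIn i h.1, fun x => h.2.1 ⟨a, x⟩⟩
    · exact ho i a (hsub.2.2 i h)
  have hdi : T.dom (S.inv k) = tr (S.φ k) (T.dom k) := by
    have e := T.dom_inv k
    rwa [e1, e2] at e
  have hmi : mu (T.dom (S.inv k)) = mu (T.dom k) := by
    have e := T.mu_dom_inv k
    rwa [e1] at e
  refine ⟨T, e1, e2, ⟨zq, hTin, intv_of_sub hsub (arcs_of_intv P hI) fun i => ?_,
    fun γ hγ β hβ => ?_⟩, ?_, hoth, hne, heq⟩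
  · by_cases a : S.inv k = k
    · by_cases c : i = k
      · exact ⟨_, _, c ▸ heq a⟩
      · rw [hoth i c (a.symm ▸ c)]
        rcases hI i with x | ⟨u, v, x, _⟩
        exacts [⟨0, 0, x.trans (GI_eq_empty le_rfl).symm⟩, ⟨u, v, x⟩]
    · by_cases c : i = k
      · exact ⟨_, _, c ▸ hne a⟩
      by_cases d : i = S.inv k
      · rw [d, hdi, hne a, tr_GI zb]
        exact ⟨_, _, rfl⟩
      · rw [hoth i c d]
        rcases hI i with x | ⟨u, v, x, _⟩
        exacts [⟨0, 0, x.trans (GI_eq_empty le_rfl).symm⟩, ⟨u, v, x⟩]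
  · rw [← hR γ (GI_mono zz.le le_rfl hγ) β (GI_mono zz.le le_rfl hβ)]
    refine ⟨hsub.rel, fun r => ?_⟩
    have hF : S.Forest (GI z' q) (GI z z') (fun _ => k) fun γ => if γ ∈ GI z z' then 1 else 0 := by
      refine ⟨fun α h => hk ▸ GI_mono le_rfl zb h, fun α h => ?_, fun α h => ?_⟩
      · have x : S.φ k * α ∉ GI z z' := fun x => by
          by_cases a : S.inv k = k
          · exact disjoint_left.1 (GI_disjoint (hm a).2) h ((hv a α).1 x)
          · exact disjoint_left.1 (GI_disjoint le_rfl) x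
              (ho _ a (S.map k α (hk ▸ GI_mono le_rfl zb h)))
        simp only [if_pos h, if_neg x, zero_lt_one]
      · exact if_neg fun x => disjoint_left.1 (GI_disjoint le_rfl) x h
    refine Sys.collapse hF ?_ e2 (fun i α h => ?_) hTin hγ hβ r
    · rw [union_comm, GI_union zz.le zq.le]
      exact hIn
    · by_cases x : i = k ∧ α ∈ GI z z'
      · exact Or.inr (Or.inl ⟨x.2, x.1⟩)
      by_cases y : i = S.inv k ∧ S.φ i * α ∈ GI z z'
      · exact Or.inr (Or.inr ⟨y.2, by rw [y.1, S.inv_inv]⟩)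
      · exact Or.inl ((hd i α).2 ⟨h, x, y⟩)
  · have e : ∑ i, (mu (S.dom i) - mu (T.dom i)) = 2 * (z' - z) := by
      by_cases a : S.inv k = k
      · rw [Finset.sum_eq_single k (fun i _ c => by rw [hoth i c (a.symm ▸ c), sub_self])
          fun x => absurd (Finset.mem_univ k) x, hk, heq a, mu_GI (zz.le.trans zb), mu_GI (hm a).2]
        linarith [hb' a]
      · rw [Finset.sum_eq_add_of_mem k (S.inv k) (Finset.mem_univ _) (Finset.mem_univ _)
          (Ne.symm a) fun i _ c => by rw [hoth i c.1 c.2, sub_self], hmi, S.mu_dom_inv, hk, hne a,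
          mu_GI (zz.le.trans zb), mu_GI zb]
        ring
    rw [Finset.sum_sub_distrib] at e
    unfold Sys.tot
    linarith

end Pool.Agent.P.MP_dba3d2_lc
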