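import Pool.Agent.P.MP_dba3d2_lc.A.Defs2

/-! Chapter D, definitions: germs, systems of isometries, line systems, realisations in a tree. -/

namespace Pool.Agent.P.MP_dba3d2_lc

open Set MeasureTheory

/-! ### Isometries of the line, which are also the germs of segments -/

/-- The isometry `t ↦ ε t + c` of the line. It is also the germ at the point `c` in the
direction `ε`; isometries act on germs by left multiplication. -/
@[ext] structure Gm where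
  ε : ℝ
  c : ℝ
  h : ε = 1 ∨ ε = -1

namespace Gm

theorem eps_sq (φ : Gm) : φ.ε * φ.ε = 1 := by rcases φ.h with h | h <;> rw [h] <;> norm_num

instance : Mul Gm := ⟨fun φ ψ => ⟨φ.ε * ψ.ε, φ.ε * ψ.c + φ.c, by
  rcases φ.h with h | h <;> rcases ψ.h with k | k <;> rw [h, k] <;> norm_num⟩⟩
instance : One Gm := ⟨⟨1, 0, Or.inl rfl⟩⟩
instance : Inv Gm := ⟨fun φ => ⟨φ.ε, -(φ.ε * φ.c), φ.h⟩⟩

@[simp] theorem mul_eps (φ ψ : Gm) : (φ * ψ).ε = φ.ε * ψ.ε := rfl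
@[simp] theorem mul_c (φ ψ : Gm) : (φ * ψ).c = φ.ε * ψ.c + φ.c := rfl
@[simp] theorem one_eps : (1 : Gm).ε = 1 := rfl
@[simp] theorem one_c : (1 : Gm).c = 0 := rfl
@[simp] theorem inv_eps (φ : Gm) : φ⁻¹.ε = φ.ε := rfl
@[simp] theorem inv_c (φ : Gm) : φ⁻¹.c = -(φ.ε * φ.c) := rfl

instance : Group Gm :=
  Group.ofLeftAxioms
    (fun a b c => Gm.ext (by simp [mul_assoc]) (by simp only [mul_c, mul_eps]; ring))
    (fun a => Gm.ext (by simp) (by simp))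
    (fun a => Gm.ext (by simp [eps_sq]) (by simp))

/-- the action on the line; for a germ, the point at signed distance `t` along it -/
def ap (φ : Gm) (t : ℝ) : ℝ := φ.ε * t + φ.c
/-- translation -/
def tau (r : ℝ) : Gm := ⟨1, r, Or.inl rfl⟩
/-- the reflection in the origin -/
def rho : Gm := ⟨-1, 0, Or.inr rfl⟩
/-- the opposite germ at the same point -/
def opp (γ : Gm) : Gm := γ * rho

/-- A set is open if with a germ it contains all germs a little further along it. -/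
instance : TopologicalSpace Gm where
  IsOpen U := ∀ γ ∈ U, ∃ r > 0, ∀ δ : Gm, 0 < δ.c → δ.c < r → γ * δ ∈ U
  isOpen_univ _ _ := ⟨1, one_pos, fun _ _ _ => trivial⟩
  isOpen_inter s t hs ht γ h := by
    obtain ⟨r, h1, h2⟩ := hs γ h.1
    obtain ⟨r', k1, k2⟩ := ht γ h.2
    exact ⟨min r r', lt_min h1 k1, fun δ a b =>
      ⟨h2 δ a (b.trans_le (min_le_left _ _)), k2 δ a (b.trans_le (min_le_right _ _))⟩⟩
  isOpen_sUnion s hs γ := by
    rintro ⟨U, h1, h2⟩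
    obtain ⟨r, k1, k2⟩ := hs U h1 γ h2
    exact ⟨r, k1, fun δ a b => ⟨U, h1, k2 δ a b⟩⟩

end Gm

/-- the germs of the segment `[a, b]` -/
def GI (a b : ℝ) : Set Gm :=
  {γ | a ≤ γ.c ∧ γ.c ≤ b ∧ (γ.c = a → γ.ε = 1) ∧ (γ.c = b → γ.ε = -1)}
/-- the image of a set of germs under an isometry -/
def tr (φ : Gm) (U : Set Gm) : Set Gm := {β | φ⁻¹ * β ∈ U}
/-- the germs of the segment of length `r` that starts with the germ `γ` -/
def seg (γ : Gm) (r : ℝ) : Set Gm := tr γ (GI 0 r)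
/-- compact open sets of germs: finite unions of segments -/
def CO (U : Set Gm) : Prop := IsCompact U ∧ IsOpen U
/-- the length of a set of germs -/
noncomputable def mu (U : Set Gm) : ℝ := volume.real {t : ℝ | Gm.tau t ∈ U}

/-! ### Systems -/

/-- A family of isometries with compact open domains, closed under inversion. -/
structure Sys (ι : Type) where
  inv : ι → ι
  φ : ι → Gm
  dom : ι → Set Gm
  inv_inv : ∀ i, inv (inv i) = i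
  φ_inv : ∀ i, φ (inv i) = (φ i)⁻¹
  co : ∀ i, CO (dom i)
  map : ∀ i, ∀ γ ∈ dom i, φ i * γ ∈ dom (inv i)

namespace Sys

variable {ι : Type} (S : Sys ι)

def Step (γ β : Gm) : Prop := ∃ i, γ ∈ S.dom i ∧ β = S.φ i * γ
def Rel : Gm → Gm → Prop := Relation.ReflTransGen S.Step
def orb (γ : Gm) : Set Gm := {β | S.Rel γ β}
/-- reachable in at most `n` steps -/
def Near : ℕ → Gm → Gm → Prop
  | 0 => fun γ β => γ = β
  | n + 1 => fun γ β => Near n γ β ∨ ∃ α, S.Step γ α ∧ Near n α β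
def Inv (C : Set Gm) : Prop := ∀ i, ∀ γ ∈ S.dom i, γ ∈ C → S.φ i * γ ∈ C
/-- all domains lie in `X` -/
def In (X : Set Gm) : Prop := ∀ i, S.dom i ⊆ X
/-- twice the total length of the bands -/
noncomputable def tot [Fintype ι] : ℝ := ∑ i, mu (S.dom i)
/-- `C` is a minimal component -/
structure Min (C : Set Gm) : Prop where
  co : CO C
  ne : C.Nonempty
  inv : S.Inv C
  inf : ∀ γ ∈ C, (S.orb γ).Infinite
  den : ∀ γ ∈ C, C ⊆ closure (S.orb γ)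
/-- `S` is obtained from `T` by shrinking domains -/
def Sub (T : Sys ι) : Prop := S.inv = T.inv ∧ S.φ = T.φ ∧ ∀ i, S.dom i ⊆ T.dom i
/-- `S` is obtained from `T` by removing the edges `(i, γ)`, `γ ∈ U`, and their reverses -/
def IsCut (T : Sys ι) (i : ι) (U : Set Gm) : Prop :=
  S.inv = T.inv ∧ S.φ = T.φ ∧ ∀ j γ, γ ∈ S.dom j ↔
    γ ∈ T.dom j ∧ ¬(j = i ∧ γ ∈ U) ∧ ¬(j = T.inv i ∧ T.φ j * γ ∈ U)
/-- a step that does not use the edge `(i, γ)` or its reverse -/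
def StepX (i : ι) (γ α β : Gm) : Prop :=
  ∃ j, α ∈ S.dom j ∧ β = S.φ j * α ∧ ¬(j = i ∧ α = γ) ∧ ¬(j = S.inv i ∧ α = S.φ i * γ)
/-- the source side of the edge `(i, γ)` -/
def Side (i : ι) (γ : Gm) : Set Gm := {β | Relation.ReflTransGen (S.StepX i γ) γ β}
/-- every edge is a bridge -/
def Tree : Prop := ∀ i, ∀ γ ∈ S.dom i, S.φ i * γ ∉ S.Side i γ
/-- edges with infinite source side -/
def Am (i : ι) : Set Gm := {γ | γ ∈ S.dom i ∧ (S.Side i γ).Infinite}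
/-- edges with two infinite sides -/
def Alive (i : ι) : Set Gm := {γ | γ ∈ S.Am i ∧ S.φ i * γ ∈ S.Am (S.inv i)}
/-- `par` and `h` describe a forest on `V` that flows into `U` -/
structure Forest (U V : Set Gm) (par : Gm → ι) (h : Gm → ℕ) : Prop where
  mem : ∀ γ ∈ V, γ ∈ S.dom (par γ)
  lt : ∀ γ ∈ V, h (S.φ (par γ) * γ) < h γ
  zero : ∀ γ ∈ U, h γ = 0
/-- every edge of `S` is an edge of `T`, a forest edge or a reversed forest edge -/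
def Cls (T : Sys ι) (V : Set Gm) (par : Gm → ι) : Prop :=
  ∀ i, ∀ γ ∈ S.dom i, γ ∈ T.dom i ∨ (γ ∈ V ∧ i = par γ) ∨
    (S.φ i * γ ∈ V ∧ S.inv i = par (S.φ i * γ))
/-- only identities are their own inverses -/
def NoMob : Prop := ∀ i, S.inv i = i → S.φ i = 1
/-- The thin alternative: a small band can be cut out next to a finite tree. -/
def Thin : Prop :=
  ∀ F : Finset ℝ, ∃ (i : ι) (γ : Gm) (Tr : Set Gm), γ.c ∉ F ∧ γ ∈ S.dom i ∧ γ.opp ∈ S.dom i ∧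
    (S.φ i * γ).c ≠ γ.c ∧ Tr.Finite ∧ γ.opp ∈ Tr ∧ Tr ⊆ S.orb γ.opp ∧ γ ∉ Tr ∧ S.φ i * γ ∉ Tr ∧
    S.φ i * γ.opp ∉ Tr ∧
    (∀ j, ∀ β ∈ S.dom j, ¬(j = i ∧ β = γ.opp) → ¬(j = S.inv i ∧ β = S.φ i * γ.opp) →
      (β ∈ Tr ↔ S.φ j * β ∈ Tr)) ∧
    ∀ δ > 0, ∀ T : Sys ι, T.IsCut S i (seg γ δ) → ∀ β, (T.orb β).Finite
/-- The finite orbits are cut into parallel families of segments `seg γ (r γ)`, `γ ∈ E`. -/
structure Fam (X : Set Gm) (F : Finset ℝ) (E : Finset Gm) (r : Gm → ℝ) : Prop where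
  pos : ∀ γ ∈ E, 0 < r γ
  sub : ∀ γ ∈ E, ∀ β ∈ seg γ (r γ), β ∈ X ∧ (S.orb β).Finite
  cov : ∀ β ∈ X, (S.orb β).Finite → ∃ γ ∈ E, β ∈ seg γ (r γ)
  disj : ∀ γ ∈ E, ∀ γ' ∈ E, ∀ β ∈ seg γ (r γ), β ∈ seg γ' (r γ') → γ = γ'
  dom : ∀ γ ∈ E, ∀ i, ∀ β ∈ seg γ (r γ), (β ∈ S.dom i ↔ γ ∈ S.dom i)
  inv : ∀ γ ∈ E, ∀ i, γ ∈ S.dom i → S.φ i * γ ∈ E ∧ r (S.φ i * γ) = r γ
  top : ∀ γ ∈ X, (S.orb γ).Finite → γ.c ∈ F → γ ∈ E

end Sys

/-! ### Pseudogroups of arcs -/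

/-- `A φ u v`: the isometry `φ` is realised on `[u, v]`. -/
structure PG (A : Gm → ℝ → ℝ → Prop) : Prop where
  lt : ∀ φ u v, A φ u v → u < v
  sub : ∀ φ u v u' v', A φ u v → u ≤ u' → u' < v' → v' ≤ v → A φ u' v'
  inv : ∀ φ u v u' v', A φ u v → u' < v' → (∀ t ∈ Icc u' v', φ⁻¹.ap t ∈ Icc u v) → A φ⁻¹ u' v'
  comp : ∀ φ ψ u v u' v', A φ u v → A ψ u' v' → (∀ t ∈ Icc u v, φ.ap t ∈ Icc u' v') →
    A (ψ * φ) u v
  glue : ∀ φ u v u' v', A φ u v → A φ u' v' → u ≤ u' → u' < v → v ≤ v' → A φ u v'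
  small : ∀ ε₀ > 0, ∃ ε₁ > 0, ∀ t u v, A (Gm.tau t) u v → ε₀ ≤ v - u → |t| ≤ ε₁ → t = 0

/-- the germ `γ` can be moved to `β` -/
def RW (A : Gm → ℝ → ℝ → Prop) (γ β : Gm) : Prop := ∃ u v, γ ∈ GI u v ∧ A (β * γ⁻¹) u v
/-- a two sided neighbourhood of the point of `γ` can be moved, taking `γ` to `β` -/
def RW2 (A : Gm → ℝ → ℝ → Prop) (γ β : Gm) : Prop :=
  ∃ u v, u < γ.c ∧ γ.c < v ∧ A (β * γ⁻¹) u v

/-- every edge is realised -/
def Sys.Weak {ι : Type} (S : Sys ι) (A : Gm → ℝ → ℝ → Prop) : Prop :=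
  ∀ i, ∀ γ ∈ S.dom i, RW A γ (S.φ i * γ)
/-- every domain is a segment on which the isometry is realised -/
def Sys.Intv {ι : Type} (S : Sys ι) (A : Gm → ℝ → ℝ → Prop) : Prop :=
  ∀ i, S.dom i = ∅ ∨ ∃ u v, S.dom i = GI u v ∧ A (S.φ i) u v

/-- the isometry is realised on every segment of its domain -/
def Sys.Arcs {ι : Type} (S : Sys ι) (A : Gm → ℝ → ℝ → Prop) : Prop :=
  ∀ i u v, u < v → GI u v ⊆ S.dom i → A (S.φ i) u v

/-! ### Line systems -/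

/-- reversal of the direction of a state -/
def fl (y : Gm × Bool) : Gm × Bool := (y.1, !y.2)

/-- A minimal system on `X` all of whose leaves are lines. -/
structure LS (X : Set Gm) where
  f : Equiv.Perm (Gm × Bool)
  co : CO X
  ne : X.Nonempty
  rev : ∀ y, f (fl (f y)) = fl y
  mem : ∀ y, (f y).1 ∈ X ↔ y.1 ∈ X
  loc : ∀ y, y.1 ∈ X → ∃ r > 0, ∀ δ : Gm, 0 < δ.c → δ.c < r →
    f (y.1 * δ, y.2) = ((f y).1 * δ, (f y).2)
  inj : ∀ y, y.1 ∈ X → Function.Injective fun n : ℤ => ((f ^ n) y).1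
  den : ∀ γ ∈ X, X ⊆ closure {β | ∃ n : ℤ, ((f ^ n) (γ, true)).1 = β}

namespace LS

variable {X : Set Gm} (L : LS X)

/-- the germ at time `n` on the leaf of the state `y` -/
def at' (y : Gm × Bool) (n : ℤ) : Gm := ((L.f ^ n) y).1
def Rel (γ β : Gm) : Prop := ∃ n : ℤ, L.at' (γ, true) n = β
def Weak (A : Gm → ℝ → ℝ → Prop) : Prop := ∀ y : Gm × Bool, y.1 ∈ X → RW A y.1 (L.f y).1
/-- `L` is the first return system of `L0` -/
def IsRet {X0 : Set Gm} (L0 : LS X0) : Prop :=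
  X ⊆ X0 ∧ ∀ y : Gm × Bool, y.1 ∈ X → ∃ r : ℕ, 0 < r ∧ L.f y = (L0.f ^ r) y ∧
    ∀ k : ℕ, 0 < k → k < r → ((L0.f ^ k) y).1 ∉ X
/-- all moves between germs of `X` are along leaves -/
def Sat (A : Gm → ℝ → ℝ → Prop) : Prop := ∀ γ ∈ X, ∀ β ∈ X, (L.Rel γ β ↔ RW A γ β)
/-- `Ω` contains all singular points, and every leaf crosses it in one stretch. -/
structure Hull (A : Gm → ℝ → ℝ → Prop) (Ω : Finset ℝ) : Prop where
  par : ∀ y : Gm × Bool, y.1 ∈ X → y.1.c ∉ Ω → y.1.opp ∈ X ∧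
    L.f (y.1.opp, y.2) = ((L.f y).1.opp, (L.f y).2) ∧ RW2 A y.1 (L.f y).1 ∧ (L.f y).1.c ≠ y.1.c
  cvx : ∀ y : Gm × Bool, y.1 ∈ X → ∀ a b c : ℤ, a ≤ b → b ≤ c → (L.at' y a).c ∈ Ω →
    (L.at' y c).c ∈ Ω → (L.at' y b).c ∈ Ω

end LS

/-! ### Realisations in a tree -/

namespace LG

variable (R : LG) (P : ℝ → R.W)

/-- `g` realises `φ` on `[u, v]` along the path `P` -/
def Rl (g : R.W) (φ : Gm) (u v : ℝ) : Prop := ∀ t ∈ Icc u v, R.d (g * P t) (P (φ.ap t)) = 0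
/-- `g` moves the germ `γ` of `P` to the germ `β` of `P'` -/
def Mv2 (P' : ℝ → R.W) (γ : Gm) (g : R.W) (β : Gm) : Prop :=
  ∃ r > 0, ∀ s ∈ Icc 0 r, R.d (g * P (γ.ap s)) (P' (β.ap s)) = 0
/-- `g` moves the germ `γ` to the germ `β` -/
def Mv (γ : Gm) (g : R.W) (β : Gm) : Prop := R.Mv2 P P γ g β
/-- `P` is isometric on `[p, q]` -/
def IsoOn (p q : ℝ) : Prop := ∀ s ∈ Icc p q, ∀ t ∈ Icc p q, R.d (P s) (P t) = |s - t|
/-- `g` realises `φ` on the nondegenerate `[u, v]`, inside `[p, q]` -/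
def Mover (p q : ℝ) (g : R.W) (φ : Gm) (u v : ℝ) : Prop :=
  u < v ∧ (∀ t ∈ Icc u v, t ∈ Icc p q ∧ φ.ap t ∈ Icc p q) ∧ R.Rl P g φ u v
/-- the arcs of the pseudogroup of `[p, q]` -/
def arc (p q : ℝ) (φ : Gm) (u v : ℝ) : Prop := ∃ g, R.Mover P p q g φ u v
/-- the pointwise stabiliser of `[p, q]` -/
def KK (p q : ℝ) : Set R.W := {g | R.Rl P g 1 p q}
/-- A stable segment: all subsegments are nonperiodic with the same finite stabiliser. -/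
structure Stb (p q : ℝ) : Prop where
  lt : p < q
  iso : R.IsoOn P p q
  np : ∀ u v, p ≤ u → u < v → v ≤ q → ¬R.Per (P u) (P v)
  fin : (R.KK P p q).Finite
  stab : ∀ u v, p ≤ u → u < v → v ≤ q → ∀ g, R.Rl P g 1 u v → g ∈ R.KK P p q
  small : ∀ ε₀ > 0, ∃ ε₁ > 0, ∀ t u v, R.arc P p q (Gm.tau t) u v → ε₀ ≤ v - u → |t| ≤ ε₁ → t = 0
/-- a germ that starts a segment of a translate of a segment of `M` -/
def HGm (M : Subgroup R.W) (γ : Gm) : Prop :=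
  ∃ r > 0, ∀ s ∈ Icc 0 r, R.HArc M (P γ.c) (P (γ.ap s))

/-- the germs of the section of `w` -/
def sec (a : R.W → ℝ) (w : R.W) : Set Gm := GI (a w) (a w + R.ℓ w)
/-- the germs of all sections -/
def secs (a : R.W → ℝ) (A : Finset R.W) : Set Gm := {γ | ∃ w ∈ A, γ ∈ R.sec a w}
/-- the pass element of `g` at `t` -/
def zeta (g : R.W) (φ : Gm) (t : ℝ) : R.W := (P (φ.ap t))⁻¹ * g * P t
open Classical in
/-- the value of `w` read off from a function on the sections -/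
noncomputable def io {G : Type} [Group G] (a : R.W → ℝ) (j : R.W → G) (n : ℝ → G) (w : R.W) : G :=
  if R.ℓ w = 0 then j w else (n (a w))⁻¹ * n (a w + R.ℓ w)

/-- The system of the triangles of `A`. -/
structure Setup (A : Finset R.W) {ι : Type} (S : Sys ι) (g : ι → R.W) (a : R.W → ℝ) : Prop where
  start : ∀ w ∈ A, 0 < R.ℓ w → P (a w) = 1
  stop : ∀ w ∈ A, 0 < R.ℓ w → P (a w + R.ℓ w) = w
  iso : ∀ w ∈ A, R.IsoOn P (a w) (a w + R.ℓ w)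
  disj : ∀ w ∈ A, ∀ w' ∈ A, ∀ t, t ∈ Icc (a w) (a w + R.ℓ w) → t ∈ Icc (a w') (a w' + R.ℓ w') →
    w = w'
  band : ∀ i, S.dom i = ∅ ∨ ∃ u v, u < v ∧ S.dom i = GI u v ∧ R.Rl P (g i) (S.φ i) u v ∧
    ∃ w ∈ A, a w ≤ u ∧ v ≤ a w + R.ℓ w
  tri : ∀ (G : Type) [Group G] (j : R.W → G) (n : ℝ → G),
    (∀ z z', R.ℓ z = 0 → R.ℓ z' = 0 → j (z * z') = j z * j z') →
    (∀ i u v, u < v → S.dom i = GI u v →
      n ((S.φ i).ap u) * j (R.zeta P (g i) (S.φ i) u) * (n u)⁻¹ =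
        n ((S.φ i).ap v) * j (R.zeta P (g i) (S.φ i) v) * (n v)⁻¹) →
    ∀ w ∈ A, ∀ w' ∈ A, w * w' ∈ A → R.io a j n (w * w') = R.io a j n w * R.io a j n w'

/-- A deformation `N` of the path `P` by letters respects the moves in `V` and controls the
distances between the points of `F`. -/
def Good (V : Set (R.W × Gm × ℝ × ℝ)) (F : Set ℝ) (η : ℝ) : Prop :=
  ∃ (r : ℕ) (y : Fin r → R.W) (N : ℝ → Monoid.Coprod R.W (FreeGroup (Fin r))),
    (∀ i, 0 < R.ℓ (y i) ∧ ¬R.Per 1 (y i)) ∧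
    (∀ t, Monoid.Coprod.lift (MonoidHom.id _) 1 (N t) = 1) ∧
    ∀ (G : LG) (j : R.W →* G.W) (ν : Fin r → G.W), (∀ w, G.ℓ (j w) ≤ R.ℓ w) →
      (∀ i g, R.Stab 1 (y i) g → Commute (ν i) (j g)) →
      ∀ n : ℝ → G.W, (∀ t, n t = Monoid.Coprod.lift j (FreeGroup.lift ν) (N t)) →
        (∀ g φ u v, (g, φ, u, v) ∈ V →
          n (φ.ap u) * j g * (n u)⁻¹ = n (φ.ap v) * j g * (n v)⁻¹) ∧
        ((∀ i, G.ℓ (ν i) = 0) →
          ∀ u ∈ F, ∀ v ∈ F, G.d (n u * j (P u)) (n v * j (P v)) ≤ |u - v| + η) ∧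
        ((∀ i, G.ℓ (ν i * j (y i)) = 0) →
          ∀ u ∈ F, ∀ v ∈ F, G.d (n u * j (P u)) (n v * j (P v)) ≤ η)

/-- good deformations for the bands of a system on `[p, q]` -/
def Good1 {ι : Type} (S : Sys ι) (p q : ℝ) : Prop :=
  ∀ η > 0, ∀ F : Finset ℝ, (∀ t ∈ F, t ∈ Icc p q) →
    R.Good P {m | m.2.2.1 ∈ F ∧ m.2.2.2 ∈ F ∧ m.2.1.ap m.2.2.1 ∈ F ∧ m.2.1.ap m.2.2.2 ∈ F ∧
      m.2.2.1 < m.2.2.2 ∧ R.Rl P m.1 m.2.1 m.2.2.1 m.2.2.2 ∧
      (m.2.1 = 1 ∨ ∃ i, m.2.1 = S.φ i ∧ GI m.2.2.1 m.2.2.2 ⊆ S.dom i)} F η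

/-- good deformations for all moves in `[p, q]` along a relation on germs -/
def GoodR (Rn : Gm → Gm → Prop) (p q : ℝ) : Prop :=
  ∀ η > 0, ∀ V : Set (R.W × Gm × ℝ × ℝ), V.Finite →
    (∀ g φ u v, (g, φ, u, v) ∈ V → R.Mover P p q g φ u v ∧ ∀ γ ∈ GI u v, Rn γ (φ * γ)) →
    ∀ F : Finset ℝ, (∀ t ∈ F, t ∈ Icc p q) → R.Good P V F η

/-- `[x, y]` is a translate of a subsegment of `P [p, q]` -/
def JA (p q : ℝ) (x y : R.W) : Prop :=
  ∃ w, ∃ u ∈ Icc p q, ∃ v ∈ Icc p q, R.d x (w * P u) = 0 ∧ R.d y (w * P v) = 0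
/-- `[x, y]` contains no nondegenerate translate of a subsegment of `P [p, q]` -/
def Fr (p q : ℝ) (x y : R.W) : Prop :=
  ∀ x' y', R.On x' x y → R.On y' x y → R.JA P p q x' y' → R.d x' y' = 0
/-- the convex subgroup of `[p, q]` -/
def T0 (p q : ℝ) : Subgroup R.W := Subgroup.closure {g | R.JA P p q 1 g ∨ R.Fr P p q 1 g}
/-- the group generated by the moves inside `[p, q]` -/
def QJ (p q : ℝ) : Subgroup R.W := Subgroup.closure {g | ∃ φ u v, R.Mover P p q g φ u v}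
/-- equivariant deformations of `[p, q]` -/
def Eqv (p q : ℝ) (N : ℝ → R.W) : Prop :=
  ∀ g φ u v, R.Mover P p q g φ u v → N (φ.ap u) * g * (N u)⁻¹ = N (φ.ap v) * g * (N v)⁻¹

end LG

end Pool.Agent.P.MP_dba3d2_lc
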