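import Pool.Agent.P.MP_dba3d2_lc.A.Defs2

/-! Interface, chapter D: the machine for systems of isometries of a real tree. -/

namespace Pool.Agent.P.MP_dba3d2_lc

-- deps: D_SETUP D_BAD D_CASEF D_CASEI
def S_MACH : Prop := ∀ (R : RT) (e : ℕ), R.Ax e → ∀ (M : Subgroup R.W) (A : Finset R.W) (k : ℕ)
  (x : Fin k → R.W), (∀ i, x i ∈ A) → ¬ (∀ i, R.Cov M (x i)) →
  Out1 R.toLG M A x ∨ Out2 R.toLG M A x ∨ Out3 R.toLG M A x

end Pool.Agent.P.MP_dba3d2_lc
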