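import Pool.Agent.P.MP_dba3d2_lc.D.Iface3

/-! Chapter D, statements for the third outcome: the shortening automorphism. -/

namespace Pool.Agent.P.MP_dba3d2_lc

open Set Filter Topology

/-! ### Extension to the convex subgroup -/

-- deps:
-- imports: Pool.Agent.P.MP_dba3d2_lc.D.TreeB
/-- additive functions on a hereditary class of arcs extend to homomorphisms -/
def S_D_EXTC : Prop := ∀ (R : RT) (Ad : R.W → Prop) (G : Type) [Group G] (Φ : R.W → G),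
  (∀ g p, Ad g → R.On p 1 g → Ad p ∧ Ad (p⁻¹ * g) ∧ Φ g = Φ p * Φ (p⁻¹ * g)) →
  (∀ g, Ad g → Ad g⁻¹ ∧ Φ g⁻¹ = (Φ g)⁻¹) → (∀ z, R.ℓ z = 0 → Ad z) →
  (∀ h ∈ Subgroup.closure {g | Ad g}, ∀ p, R.On p 1 h → p ∈ Subgroup.closure {g | Ad g}) ∧
  ∃ σ : Subgroup.closure {g | Ad g} →* G, ∀ t : Subgroup.closure {g | Ad g}, Ad t → σ t = Φ t

-- deps: D_EXTC
-- imports: Pool.Agent.P.MP_dba3d2_lc.D.T0B
def S_D_EXT : Prop := ∀ (R : RT) (P : ℝ → R.W) (p q : ℝ), R.IsoOn P p q →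
  (∀ h ∈ R.T0 P p q, ∀ x, R.On x 1 h → x ∈ R.T0 P p q) ∧
  ∀ N : ℝ → R.W, R.Eqv P p q N → ∃ σ : R.T0 P p q →* R.W,
    (∀ t : R.T0 P p q, R.Fr P p q 1 t → σ t = t) ∧
    ∀ u ∈ Icc p q, ∀ v ∈ Icc p q, ∀ t : R.T0 P p q, (t : R.W) = (P u)⁻¹ * P v →
      σ t = (P u)⁻¹ * ((N u)⁻¹ * N v) * P v

-- deps: D_EXT
-- imports: Pool.Agent.P.MP_dba3d2_lc.D.T0B
/-- the homomorphism induced on the group of moves -/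
def S_D_SHOM : Prop := ∀ (R : RT) (P : ℝ → R.W) (p q : ℝ), p < q → R.IsoOn P p q →
  ∀ N : ℝ → R.W, R.Eqv P p q N → ∃ (σ : R.T0 P p q →* R.W) (s : R.QJ P p q →* R.W),
    (∀ t : R.T0 P p q, R.Fr P p q 1 t → σ t = t) ∧
    (∀ u ∈ Icc p q, ∀ v ∈ Icc p q, ∀ (g : R.QJ P p q) (t : R.T0 P p q),
      (t : R.W) = (P u)⁻¹ * g * P v → σ t = (P u)⁻¹ * ((N u)⁻¹ * s g * N v) * P v) ∧
    ∀ u ∈ Icc p q, ∀ v ∈ Icc p q, ∀ g : R.QJ P p q, R.d (g * P u) (P v) = 0 →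
      s g = N v * g * (N u)⁻¹

-- deps: D_SHOM
-- imports: Pool.Agent.P.MP_dba3d2_lc.D.T0B
def S_D_AUT : Prop := ∀ (R : RT) (P : ℝ → R.W) (p q : ℝ), p < q → R.IsoOn P p q →
  ∀ N : ℝ → R.W, R.Eqv P p q N → (∀ t, N t ∈ R.QJ P p q) → ∀ s : R.QJ P p q ≃* R.QJ P p q,
  (∀ (g : R.QJ P p q) φ u v, R.Mover P p q g φ u v → (s g : R.W) = N (φ.ap u) * g * (N u)⁻¹) →
  ∃ σ : R.T0 P p q ≃* R.T0 P p q, (∀ t : R.T0 P p q, R.Fr P p q 1 t → σ t = t) ∧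
    ∀ u ∈ Icc p q, ∀ v ∈ Icc p q, ∀ (g : R.QJ P p q) (t : R.T0 P p q),
      (t : R.W) = (P u)⁻¹ * g * P v → (σ t : R.W) = (P u)⁻¹ * ((N u)⁻¹ * s g * N v) * P v

-- deps:
-- imports: Pool.Agent.P.MP_dba3d2_lc.D.T0B
def S_D_T0EQ : Prop := ∀ (R : RT) (P : ℝ → R.W) (p q p' q' : ℝ), R.IsoOn P p q → p ≤ p' → q' ≤ q →
  (∀ γ ∈ GI p q, ∃ g, ∃ β ∈ GI p' q', R.Mv P γ g β) →
  (∀ x y, R.Fr P p' q' x y ↔ R.Fr P p q x y) ∧ R.T0 P p' q' = R.T0 P p q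

-- deps:
-- imports: Pool.Agent.P.MP_dba3d2_lc.D.T0B
def S_D_QEQ : Prop := ∀ (R : LG) (P : ℝ → R.W) (p q p' q' : ℝ), p ≤ p' → p' < q' → q' ≤ q →
  (∀ γ ∈ GI p q, ∃ g, ∃ β ∈ GI p' q', R.Mv P γ g β) →
  (∀ γ : Gm, p < γ.c → γ.c < q → ∃ (g : R.W) (β : Gm), p' < β.c ∧ β.c < q' ∧ R.Mv P γ g β ∧
    R.Mv P γ.opp g β.opp) → R.QJ P p' q' = R.QJ P p q

/-! ### First return systems -/

-- deps:
-- imports: Pool.Agent.P.MP_dba3d2_lc.D.LsB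
def S_D_HULL : Prop := ∀ (A : Gm → ℝ → ℝ → Prop) (X : Set Gm) (L : LS X), L.Weak A →
  ∀ Ω₀ : Finset ℝ, ∃ Ω : Finset ℝ, Ω₀ ⊆ Ω ∧ L.Hull A Ω

-- deps:
-- imports: Pool.Agent.P.MP_dba3d2_lc.D.HullB
/-- short segments whose ends lie on two fixed regular leaves -/
def S_D_HULLN : Prop := ∀ (A : Gm → ℝ → ℝ → Prop), PG A → ∀ (X : Set Gm) (L : LS X) (Ω : Finset ℝ),
  L.Hull A Ω → ∃ Ω' : Finset ℝ, Ω ⊆ Ω' ∧ ∀ u v, u < v → GI u v ⊆ X →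
    ∃ z z', u < z ∧ z < z' ∧ z' < v ∧ (∀ t ∈ Icc z z', t ∉ Ω) ∧
      L.Hull A (insert z (insert z' Ω)) ∧
      ∀ β : Gm, β.c = z ∨ β.c = z' → ∃ α : Gm, α.c ∈ Ω' ∧ RW2 A α β

/-- the first return system `L` on `[z, z']`, whose ends belong to the singular set `Ω` -/
structure RCtx (A : Gm → ℝ → ℝ → Prop) {X : Set Gm} (L0 : LS X) {z z' : ℝ} (L : LS (GI z z'))
    (Ω : Finset ℝ) : Prop where
  pg : PG A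
  weak : L0.Weak A
  hull : L0.Hull A Ω
  ret : L.IsRet L0
  left : z ∈ Ω
  right : z' ∈ Ω
  free : Free Ω z z'

/-- the excursion of the state `y` up to its first return to `U` meets `Ω` -/
def Disc {X : Set Gm} (L0 : LS X) (U : Set Gm) (Ω : Finset ℝ) (y : Gm × Bool) : Prop :=
  ∃ k : ℕ, (L0.at' y k).c ∈ Ω ∧ ∀ j : ℕ, 0 < j → j < k → L0.at' y j ∉ U

-- deps:
-- imports: Pool.Agent.P.MP_dba3d2_lc.D.HullB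
def S_D_DISC : Prop := ∀ (A : Gm → ℝ → ℝ → Prop) (X : Set Gm) (L0 : LS X) (z z' : ℝ)
  (L : LS (GI z z')) (Ω : Finset ℝ), RCtx A L0 L Ω →
  (∀ y : Gm × Bool, y.1 ∈ GI z z' → Disc L0 (GI z z') Ω y → Disc L0 (GI z z') Ω (fl (L.f y))) ∧
  (∀ y : Gm × Bool, y.1 ∈ GI z z' → y.1.c ∉ Ω → Disc L0 (GI z z') Ω y →
    Disc L0 (GI z z') Ω (y.1.opp, y.2)) ∧
  (∀ y : Gm × Bool, y.1 ∈ GI z z' → ¬Disc L0 (GI z z') Ω y → z < y.1.c ∧ y.1.c < z' ∧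
    L.f (y.1.opp, y.2) = ((L.f y).1.opp, (L.f y).2) ∧ RW2 A y.1 (L.f y).1) ∧
  ∃ V : Finset ℝ, V.card ≤ 4 * Ω.card + 2 ∧
    ∀ t, t ∈ V ↔ ∃ y : Gm × Bool, y.1 ∈ GI z z' ∧ y.1.c = t ∧ Disc L0 (GI z z') Ω y

/-- the states between special points -/
def LS.DS {X : Set Gm} (L : LS X) (V : Finset ℝ) : Set (Gm × Bool) :=
  {y | y.1 ∈ X ∧ y.1.c ∈ V ∧ (L.f y).1.c ∈ V}

/-- every state lies in a band with a state between special points -/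
def LS.Cov {X : Set Gm} (L : LS X) (A : Gm → ℝ → ℝ → Prop) (V : Finset ℝ) : Prop :=
  ∀ y : Gm × Bool, y.1 ∈ X → ∃ y₁ ∈ L.DS V, ∃ φ u v, A φ u v ∧ y.1 ∈ GI u v ∧ y₁.1 ∈ GI u v ∧
    (L.f y).1 = φ * y.1 ∧ (L.f y₁).1 = φ * y₁.1

/-- outside the special points the graph of points is a forest -/
def LS.Ht {X : Set Gm} (L : LS X) (A : Gm → ℝ → ℝ → Prop) (V : Finset ℝ) : Prop :=
  ∃ h : ℝ → ℕ, (∀ t ∈ V, h t = 0) ∧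
    (∀ y : Gm × Bool, y.1 ∈ X → y ∈ L.DS V ∨ h y.1.c ≠ h (L.f y).1.c) ∧
    ∀ y y' : Gm × Bool, y.1 ∈ X → y'.1 ∈ X → y.1.c = y'.1.c → h (L.f y).1.c < h y.1.c →
      h (L.f y').1.c < h y'.1.c →
      y' = y ∨ (y'.1 = y.1.opp ∧ (L.f y').1 = (L.f y).1.opp ∧ RW2 A y.1 (L.f y).1)

-- deps: D_DISC
-- imports: Pool.Agent.P.MP_dba3d2_lc.D.HullB
def S_D_STAGE1 : Prop := ∀ (A : Gm → ℝ → ℝ → Prop) (X : Set Gm) (L0 : LS X) (z z' : ℝ)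
  (L : LS (GI z z')) (Ω V : Finset ℝ), RCtx A L0 L Ω →
  (∀ t, t ∈ V ↔ ∃ y : Gm × Bool, y.1 ∈ GI z z' ∧ y.1.c = t ∧ Disc L0 (GI z z') Ω y) →
  (∀ t ∈ V, ∃ y ∈ L.DS V, y.1.c = t) ∧ L.Cov A V ∧
  (∀ t ∈ V, t = z ∨ t = z' ∨ ∃ α β : Gm, α.c ∈ Ω ∧ β.c = t ∧ RW2 A α β) ∧
  ∀ α ∈ X, α.c ∈ Ω → ∃ β ∈ GI z z', β.c ∈ V ∧ L0.Rel α β

-- deps: D_DISC
-- imports: Pool.Agent.P.MP_dba3d2_lc.D.HullB
def S_D_STAGE2 : Prop := ∀ (A : Gm → ℝ → ℝ → Prop) (X : Set Gm) (L0 : LS X) (z z' : ℝ)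
  (L : LS (GI z z')) (Ω V : Finset ℝ), RCtx A L0 L Ω →
  (∀ t, t ∈ V ↔ ∃ y : Gm × Bool, y.1 ∈ GI z z' ∧ y.1.c = t ∧ Disc L0 (GI z z') Ω y) → L.Ht A V

/-- A stage: a saturated line system on a short segment with special points and anchors. -/
structure Stg (R : LG) (P : ℝ → R.W) (p q : ℝ) (Ω : Finset ℝ) (c : ℕ) where
  z : ℝ
  z' : ℝ
  L : LS (GI z z')
  V : Finset ℝ
  s : ℝ → R.W
  lo : p ≤ z
  hi : z' ≤ q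
  sat : L.Sat (R.arc P p q)
  card : V.card ≤ c
  src : ∀ t ∈ V, ∃ y ∈ L.DS V, y.1.c = t
  cov : L.Cov (R.arc P p q) V
  ht : L.Ht (R.arc P p q) V
  anc : ∀ t ∈ V, ∃ α β : Gm, α.c ∈ Ω ∧ p < α.c ∧ α.c < q ∧ β.c = t ∧ R.Mv P α (s t) β ∧
    R.Mv P α.opp (s t) β.opp

-- deps: D_HULLN D_RET D_DISC D_STAGE1 D_STAGE2
-- imports: Pool.Agent.P.MP_dba3d2_lc.D.HullB Pool.Agent.P.MP_dba3d2_lc.D.MvB
def S_D_STG : Prop := ∀ (R : LG) (P : ℝ → R.W) (p q : ℝ), R.Stb P p q → ∀ (X : Set Gm) (L0 : LS X)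
  (Ω : Finset ℝ), L0.Sat (R.arc P p q) → L0.Hull (R.arc P p q) Ω →
  ∃ (Ω' : Finset ℝ) (c : ℕ), ∀ u v, u < v → GI u v ⊆ X → ∃ T : Stg R P p q Ω' c,
    u < T.z ∧ T.z' < v ∧ ∀ α ∈ X, α.c ∈ Ω → ∃ β ∈ GI T.z T.z', β.c ∈ T.V ∧ L0.Rel α β

/-- One half of a matching of two stages. -/
structure Stg.Half {R : LG} {P : ℝ → R.W} {p q : ℝ} {Ω : Finset ℝ} {c : ℕ} (T T' : Stg R P p q Ω c)
    (N : ℝ → R.W) (θ θ' : R.W → R.W) : Prop where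
  comm : ∀ t ∈ T.V, ∀ k ∈ R.KK P p q, Commute (N t) k
  mv : ∀ t ∈ T.V, ∃ β β' : Gm, β.c = t ∧ β'.c ∈ T'.V ∧ R.Mv P β (N t) β' ∧
    R.Mv P β.opp (N t) β'.opp
  val : ∀ y ∈ T.L.DS T.V, ∀ g, R.Mv P y.1 g (T.L.f y).1 →
    θ g = N (T.L.f y).1.c * g * (N y.1.c)⁻¹ ∧ θ' (θ g) = g ∧
      ∃ y' ∈ T'.L.DS T'.V, R.Mv P y'.1 (θ g) (T'.L.f y').1

-- deps:
-- imports: Pool.Agent.P.MP_dba3d2_lc.D.MvB Pool.Agent.P.MP_dba3d2_lc.D.LsB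
/-- one combinatorial type occurs infinitely often -/
def S_D_CODE : Prop := ∀ (R : LG) (P : ℝ → R.W) (p q : ℝ), R.Stb P p q → ∀ (Ω : Finset ℝ) (c : ℕ)
  (T : ℕ → Stg R P p q Ω c), ∃ n, ∀ m₀, ∃ m ≥ m₀, ∃ N N' θ θ',
    (T n).Half (T m) N θ θ' ∧ (T m).Half (T n) N' θ' θ

-- deps:
def S_D_EXTEND : Prop := ∀ (G : Type) [Group G] (Vx E : Type) (src tgt : E → Vx) (a a' : E → G)
  (rev : E → E) (V : Set Vx) (Z : Subgroup G) (h : Vx → ℕ) (N₀ : Vx → G),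
  (∀ e, src (rev e) = tgt e ∧ tgt (rev e) = src e ∧ a (rev e) = (a e)⁻¹ ∧ a' (rev e) = (a' e)⁻¹) →
  (∀ v ∈ V, h v = 0 ∧ N₀ v ∈ Z) →
  (∀ e, (src e ∈ V ∧ tgt e ∈ V ∧ N₀ (tgt e) * a e * (N₀ (src e))⁻¹ = a' e) ∨
    h (src e) ≠ h (tgt e)) →
  (∀ e, ∀ x ∈ Z, (a' e)⁻¹ * x * a e ∈ Z) →
  (∀ e e', src e = src e' → h (tgt e) < h (src e) → h (tgt e') < h (src e') →
    tgt e = tgt e' ∧ ∀ x ∈ Z, (a' e)⁻¹ * x * a e = (a' e')⁻¹ * x * a e') →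
  ∃ N : Vx → G, (∀ v ∈ V, N v = N₀ v) ∧ (∀ v, N v ∈ Z) ∧
    ∀ e, N (tgt e) * a e * (N (src e))⁻¹ = a' e

-- deps: D_EXTEND
-- imports: Pool.Agent.P.MP_dba3d2_lc.D.T0B Pool.Agent.P.MP_dba3d2_lc.D.LsB
def S_D_DEFORM : Prop := ∀ (R : LG) (P : ℝ → R.W) (p q : ℝ), R.Stb P p q → ∀ (Ω : Finset ℝ) (c : ℕ)
  (T T' : Stg R P p q Ω c) (N₀ : ℝ → R.W) (θ θ' : R.W → R.W), T.Half T' N₀ θ θ' →
  (∀ t ∈ T.V, N₀ t ∈ R.QJ P T.z T.z') →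
  ∃ N : ℝ → R.W, (∀ t ∈ T.V, N t = N₀ t) ∧ (∀ t, N t ∈ R.QJ P T.z T.z') ∧
    (∀ t, ∀ k ∈ R.KK P p q, Commute (N t) k) ∧ R.Eqv P T.z T.z' N

/-- the generators of the group of moves at a stage -/
def Stg.gens {R : LG} {P : ℝ → R.W} {p q : ℝ} {Ω : Finset ℝ} {c : ℕ} (T : Stg R P p q Ω c) :
    Set R.W := {g | g ∈ R.KK P p q ∨ ∃ y ∈ T.L.DS T.V, R.Mv P y.1 g (T.L.f y).1}

-- deps:
-- imports: Pool.Agent.P.MP_dba3d2_lc.D.T0B Pool.Agent.P.MP_dba3d2_lc.D.LsB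
def S_D_GENQ : Prop := ∀ (R : LG) (P : ℝ → R.W) (p q : ℝ), R.Stb P p q → ∀ (Ω : Finset ℝ) (c : ℕ)
  (T : Stg R P p q Ω c), Subgroup.closure T.gens = R.QJ P T.z T.z' ∧
    ∀ g ∈ R.QJ P T.z T.z', ∃ l : List R.W, (∀ x ∈ l, x ∈ T.gens) ∧ l.prod = g

-- deps: D_DEFORM D_GENQ D_SHOM D_AUT
-- imports: Pool.Agent.P.MP_dba3d2_lc.D.T0B Pool.Agent.P.MP_dba3d2_lc.D.LsB
/-- matched stages give an automorphism that is short on words in the generators -/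
def S_D_MATCH : Prop := ∀ (R : RT) (P : ℝ → R.W) (p q : ℝ), R.Stb P p q → ∀ (Ω : Finset ℝ) (c : ℕ)
  (T T' : Stg R.toLG P p q Ω c) (N N' : ℝ → R.W) (θ θ' : R.W → R.W), T.Half T' N θ θ' →
  T'.Half T N' θ' θ → R.QJ P T'.z T'.z' = R.QJ P T.z T.z' →
  (∀ t ∈ T.V, N t ∈ R.QJ P T.z T.z') → (∀ t ∈ T'.V, N' t ∈ R.QJ P T.z T.z') →
  ∃ σ : R.T0 P T.z T.z' ≃* R.T0 P T.z T.z',
    (∀ t : R.T0 P T.z T.z', R.Fr P T.z T.z' 1 t → σ t = t) ∧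
    ∀ u ∈ T.V, ∀ v ∈ T.V, ∀ l : List R.W, (∀ x ∈ l, x ∈ T.gens) → ∀ t : R.T0 P T.z T.z',
      (t : R.W) = (P u)⁻¹ * l.prod * P v → R.ℓ (σ t) ≤ (2 * l.length + 1) * (T'.z' - T'.z)

/-- shortening automorphisms of the convex subgroup of `[p, q]` -/
def LG.Short (R : LG) (P : ℝ → R.W) (p q : ℝ) : Prop :=
  ∀ (F : Finset ℝ) (η : ℝ), 0 < η → (∀ t ∈ F, t ∈ Icc p q) →
    ∃ σ : R.T0 P p q ≃* R.T0 P p q, (∀ t : R.T0 P p q, R.Fr P p q 1 t → σ t = t) ∧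
      ∀ u ∈ F, ∀ v ∈ F, ∀ t : R.T0 P p q, (t : R.W) = (P u)⁻¹ * P v → R.ℓ (σ t) ≤ η

-- deps: D_HULL D_STG D_CODE D_MATCH D_GENQ D_T0EQ D_QEQ
-- imports: Pool.Agent.P.MP_dba3d2_lc.D.T0B Pool.Agent.P.MP_dba3d2_lc.D.HullB
def S_D_TYPE : Prop := ∀ (R : RT) (P : ℝ → R.W) (p q : ℝ), R.Stb P p q → ∀ (X : Set Gm) (L : LS X),
  L.Sat (R.arc P p q) → ∃ p' q', p ≤ p' ∧ p' < q' ∧ q' ≤ q ∧ GI p' q' ⊆ X ∧ R.Short P p' q'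

/-! ### The third outcome -/

/-- A mesh whose cells are pieces of families of finite orbits, arcs of `[p, q]` or free. -/
structure LG.Part (R : LG) (P : ℝ → R.W) (A : Finset R.W) {ι : Type} (S : Sys ι) (a : R.W → ℝ)
    (p q : ℝ) (E : Finset ℝ) (EG : Finset Gm) (r : Gm → ℝ) : Prop where
  fam : S.Fam (R.secs a A) ∅ EG r
  ends : ∀ w ∈ A, a w ∈ E ∧ a w + R.ℓ w ∈ E
  piece : ∀ γ ∈ EG, ∃ s ∈ E, ∃ t ∈ E, s < t ∧ Free E s t ∧ seg γ (r γ) = GI s t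
  cell : ∀ s ∈ E, ∀ t ∈ E, s < t → Free E s t → GI s t ⊆ R.secs a A →
    (∃ γ ∈ EG, seg γ (r γ) = GI s t) ∨ R.JA P p q (P s) (P t) ∨ R.Fr P p q (P s) (P t)

-- deps: D_MINC D_FAM
-- imports: Pool.Agent.P.MP_dba3d2_lc.D.T0B
def S_D_PART : Prop := ∀ (R : RT) (A : Finset R.W) (ι : Type) [Fintype ι] (S : Sys ι)
  (P : ℝ → R.W) (g : ι → R.W) (a : R.W → ℝ) (p q : ℝ), R.Setup P A S g a → R.IsoOn P p q →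
  ∃ E EG r, R.Part P A S a p q E EG r

/-- The values of the cells: elements of the convex subgroup, or letters. -/
structure LG.Vals (R : LG) (P : ℝ → R.W) (A : Finset R.W) (a : R.W → ℝ) (p q : ℝ) (E : Finset ℝ)
    {k : ℕ} (y : Fin k → R.W) (n : ℝ → Monoid.Coprod (R.T0 P p q) (FreeGroup (Fin k))) : Prop where
  np : ∀ i, 0 < R.ℓ (y i) ∧ ¬R.Per 1 (y i)
  arc : ∀ s ∈ E, ∀ t ∈ E, s < t → Free E s t → GI s t ⊆ R.secs a A →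
    R.JA P p q (P s) (P t) ∨ R.Fr P p q (P s) (P t) →
    ∃ x : R.T0 P p q, (x : R.W) = (P s)⁻¹ * P t ∧ (n s)⁻¹ * n t = Monoid.Coprod.inl x
  lett : ∀ s ∈ E, ∀ t ∈ E, s < t → Free E s t → GI s t ⊆ R.secs a A →
    ¬(R.JA P p q (P s) (P t) ∨ R.Fr P p q (P s) (P t)) →
    ∃ (i : Fin k) (z z' : R.T0 P p q) (s' t' : ℝ), (s' = s ∧ t' = t ∨ s' = t ∧ t' = s) ∧
      R.ℓ z = 0 ∧ R.ℓ z' = 0 ∧ R.ℓ (y i) = t - s ∧ (P s')⁻¹ * P t' = z * y i * z' ∧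
      (n s')⁻¹ * n t' =
        Monoid.Coprod.inl z * Monoid.Coprod.inr (FreeGroup.of i) * Monoid.Coprod.inl z'

-- deps: D_EXT
-- imports: Pool.Agent.P.MP_dba3d2_lc.D.T0B
def S_D_IOTA : Prop := ∀ (R : RT) (A : Finset R.W) (ι : Type) (S : Sys ι) (P : ℝ → R.W)
  (g : ι → R.W) (a : R.W → ℝ) (p q : ℝ) (E : Finset ℝ) (EG : Finset Gm) (r : Gm → ℝ),
  R.Setup P A S g a → R.IsoOn P p q → (∀ u v, p ≤ u → u < v → v ≤ q → ¬R.Per (P u) (P v)) →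
  R.Part P A S a p q E EG r →
  ∃ (k : ℕ) (y : Fin k → R.W) (n : ℝ → Monoid.Coprod (R.T0 P p q) (FreeGroup (Fin k))),
    R.Vals P A a p q E y n ∧
    ∀ (G : Type) [Group G] (j : R.T0 P p q →* G) (u : Fin k → G),
      (∀ i (h h' : R.T0 P p q), R.Stab 1 (y i) h → (h' : R.W) = (y i)⁻¹ * h * y i →
        (u i)⁻¹ * j h * u i = j h') →
      ∀ (j' : R.W → G) (m : ℝ → G), (∀ z : R.T0 P p q, j' z = j z) →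
        (∀ t, m t = Monoid.Coprod.lift j (FreeGroup.lift u) (n t)) →
        ∀ i s t, s < t → S.dom i = GI s t →
          m ((S.φ i).ap s) * j' (R.zeta P (g i) (S.φ i) s) * (m s)⁻¹ =
            m ((S.φ i).ap t) * j' (R.zeta P (g i) (S.φ i) t) * (m t)⁻¹

-- deps: D_EXT D_PART D_IOTA
-- imports: Pool.Agent.P.MP_dba3d2_lc.D.T0B
def S_D_OUT3 : Prop := ∀ (R : RT) (M : Subgroup R.W) (A : Finset R.W) (k : ℕ) (x : Fin k → R.W)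
  (ι : Type) [Fintype ι] (S : Sys ι) (P : ℝ → R.W) (g : ι → R.W) (a : R.W → ℝ) (p q : ℝ),
  R.Setup P A S g a → (∀ i, x i ∈ A) → R.IsoOn P p q →
  (∀ u v, p ≤ u → u < v → v ≤ q → ¬R.Per (P u) (P v)) → (∀ β ∈ GI p q, ¬R.HGm P M β) →
  (∃ i, ∃ γ ∈ R.sec a (x i), (S.orb γ).Infinite ∧ ∃ β ∈ GI p q, S.Rel γ β) →
  R.Short P p q → Out3 R.toLG M A x

-- deps: D_MINC D_STB D_INDUCE D_SAT D_GOODTHIN D_STRIP D_PB1 D_PB2 D_TYPE D_OUT3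
-- imports: Pool.Agent.P.MP_dba3d2_lc.D.T0B Pool.Agent.P.MP_dba3d2_lc.D.LsB
/-- the bad germ has an infinite orbit -/
def S_D_CASEI : Prop := ∀ (R : RT) (e : ℕ), R.Ax e → ∀ (M : Subgroup R.W) (A : Finset R.W) (k : ℕ)
  (x : Fin k → R.W) (ι : Type) [Fintype ι] (S : Sys ι) (P : ℝ → R.W) (g : ι → R.W) (a : R.W → ℝ),
  R.Setup P A S g a → (∀ i, x i ∈ A) → ∀ i, ∀ γ ∈ R.sec a (x i), ¬R.HGm P M γ →
  (S.orb γ).Infinite → Out1 R.toLG M A x ∨ Out2 R.toLG M A x ∨ Out3 R.toLG M A x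

end Pool.Agent.P.MP_dba3d2_lc
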