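import Pool.Agent.P.MP_dba3d2_lc.D.Iface
import Pool.Agent.P.MP_dba3d2_lc.D.Iface3
import Pool.Agent.P.MP_dba3d2_lc.D.Iface4

/-! Step MACH of the stability project. -/

namespace Pool.Agent.P.MP_dba3d2_lc



theorem p_MACH (hD_SETUP : S_D_SETUP) (hD_BAD : S_D_BAD) (hD_CASEF : S_D_CASEF) (hD_CASEI : S_D_CASEI) :
    S_MACH := by
  intro R e he M A k x hx hc
  obtain ⟨i, hi⟩ := not_forall.1 hc
  obtain ⟨ι, _, S, P, g, a, H⟩ := hD_SETUP R A
  obtain ⟨γ, h1, h2⟩ := hD_BAD R M A ι S P g a H (x i) (hx i) hi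
  rcases (S.orb γ).finite_or_infinite with h | h
  · exact (hD_CASEF R e he M A k x ι S P g a H hx i γ h1 h2 h).imp_right Or.inl
  · exact hD_CASEI R e he M A k x ι S P g a H hx i γ h1 h2 h

end Pool.Agent.P.MP_dba3d2_lc
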